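import Mathlib

/-!
Definitions for the statement on mapping-class-invariant measurable forms on `Hom(π, K)/K`.
-/

namespace Pool.Agent.Lib.MP_d52947_gt

open MeasureTheory Matrix

/-- Generators `a_i = (i, false)`, `b_i = (i, true)`. -/
abbrev Gen (g : ℕ) := Fin g × Bool

/-- The commutator `a_i b_i a_i⁻¹ b_i⁻¹` in the free group. -/
def hcomm {g : ℕ} (i : Fin g) : FreeGroup (Gen g) :=
  FreeGroup.of (i, false) * FreeGroup.of (i, true) * (FreeGroup.of (i, false))⁻¹ *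
    (FreeGroup.of (i, true))⁻¹

/-- The surface relator `∏ [a_i, b_i]`. -/
def relator (g : ℕ) : FreeGroup (Gen g) := (List.ofFn (hcomm (g := g))).prod

/-- The fundamental group of the closed orientable surface of genus `g`. -/
abbrev Surf (g : ℕ) := PresentedGroup ({relator g} : Set (FreeGroup (Gen g)))

/-- `∏_{j < i} [a_j, b_j]` in the surface group. -/
def pre {g : ℕ} (i : Fin g) : Surf g :=
  PresentedGroup.mk _ ((List.ofFn (hcomm (g := g))).take i).prod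

/-- Evaluation of a normalized real 2-cochain on the fundamental class, represented by the bar
cycle `∑_i [c|a] + [ca|b] + [cab|a⁻¹] + [caba⁻¹|b⁻¹] - [a|a⁻¹] - [b|b⁻¹]`
with `a = a_i`, `b = b_i`, `c = ∏_{j<i} [a_j, b_j]`. -/
def fund {g : ℕ} (σ : Surf g → Surf g → ℝ) : ℝ :=
  ∑ i : Fin g,
    (σ (pre i) (.of (i, false)) + σ (pre i * .of (i, false)) (.of (i, true))
      + σ (pre i * .of (i, false) * .of (i, true)) (PresentedGroup.of (i, false))⁻¹
      + σ (pre i * .of (i, false) * .of (i, true) * (PresentedGroup.of (i, false))⁻¹)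
          (PresentedGroup.of (i, true))⁻¹
      - σ (.of (i, false)) (PresentedGroup.of (i, false))⁻¹
      - σ (.of (i, true)) (PresentedGroup.of (i, true))⁻¹)

/-- Normalized real 2-cocycles. -/
def IsTwoCocycle {Γ : Type} [Group Γ] (σ : Γ → Γ → ℝ) : Prop :=
  σ 1 1 = 0 ∧ ∀ x y z, σ x y + σ (x * y) z = σ y z + σ x (y * z)

/-- Orientation-preserving automorphisms: those fixing the fundamental class. -/
def IsMod {g : ℕ} (φ : Surf g ≃* Surf g) : Prop :=
  ∀ σ : Surf g → Surf g → ℝ, IsTwoCocycle σ → fund (fun x y => σ (φ x) (φ y)) = fund σ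

variable {n g : ℕ} {K : Subgroup (orthogonalGroup (Fin n) ℝ)}

/-- The matrix of an element of `K`. -/
def mat (k : K) : Matrix (Fin n) (Fin n) ℝ := ((k : orthogonalGroup (Fin n) ℝ) : Matrix _ _ ℝ)

/-- The Lie algebra of `K`. -/
def lie (K : Subgroup (orthogonalGroup (Fin n) ℝ)) : Set (Matrix (Fin n) (Fin n) ℝ) :=
  {X | ∀ t : ℝ, ∃ k : K, mat k = NormedSpace.exp (t • X)}

/-- The adjoint action `X ↦ k X k⁻¹`. -/
def adj (k : K) (X : Matrix (Fin n) (Fin n) ℝ) : Matrix (Fin n) (Fin n) ℝ :=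
  mat k * X * mat k⁻¹

/-- Cocycles `π → 𝔨` for `Ad ρ`. -/
def IsCocycle (ρ : Surf g →* K) (u : Surf g → Matrix (Fin n) (Fin n) ℝ) : Prop :=
  (∀ x, u x ∈ lie K) ∧ ∀ x y, u (x * y) = u x + adj (ρ x) (u y)

/-- Coboundaries. -/
def IsCoboundary (ρ : Surf g →* K) (u : Surf g → Matrix (Fin n) (Fin n) ℝ) : Prop :=
  ∃ η ∈ lie K, ∀ x, u x = η - adj (ρ x) η

/-- The Lie algebra of the centralizer of `ρ`. -/
def cent (ρ : Surf g →* K) : Set (Matrix (Fin n) (Fin n) ℝ) :=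
  {ζ | ζ ∈ lie K ∧ ∀ x, adj (ρ x) ζ = ζ}

/-- The smooth locus: the centralizer algebra of `ρ` is abelian, and for `g ≥ 2` it is the centre
of the Lie algebra. -/
def Smooth (ρ : Surf g →* K) : Prop :=
  (∀ ζ ∈ cent ρ, ∀ ζ' ∈ cent ρ, ζ * ζ' = ζ' * ζ) ∧
    (2 ≤ g → ∀ ζ ∈ cent ρ, ∀ k : K, adj k ζ = ζ)

/-- The dimension of the tangent space `Z¹(π, 𝔨_{Ad ρ})` of `Hom(π, K)` at a smooth point. -/
noncomputable def dimZ (ρ : Surf g →* K) : ℕ :=
  Module.finrank ℝ (Submodule.span ℝ {u | IsCocycle ρ u})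

/-- The Euclidean space of tuples of matrices indexed by the generators. -/
abbrev Pt (g n : ℕ) := Gen g → Fin n → Fin n → ℝ

/-- A function on `π` restricted to the generators. -/
def gens (u : Surf g → Matrix (Fin n) (Fin n) ℝ) : Pt g n := fun i => u (.of i)

/-- The embedding of `Hom(π, K)` in Euclidean space. -/
def coords (ρ : Surf g →* K) : Pt g n := gens fun x => mat (ρ x)

/-- `P` holds at almost every point of the smooth locus: on its part of dimension `d`, the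
exceptional set is null for `d`-dimensional Hausdorff measure. -/
def AE (P : (Surf g →* K) → Prop) : Prop :=
  ∀ d : ℕ, μH[d] (coords '' {ρ | Smooth ρ ∧ dimZ ρ = d ∧ ¬ P ρ}) = 0

/-- Conjugation of a representation. -/
def conjRep (k : K) (ρ : Surf g →* K) : Surf g →* K := (MulAut.conj k).toMonoidHom.comp ρ

/-- Precomposition with an automorphism. -/
def precomp (φ : Surf g ≃* Surf g) (ρ : Surf g →* K) : Surf g →* K := ρ.comp φ.toMonoidHom

/-- Fields of alternating `k`-forms. -/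
abbrev FormField (g n k : ℕ) := Pt g n → (Pt g n [⋀^Fin k]→ₗ[ℝ] ℝ)

/-- Value of a form at `ρ` on cocycles. -/
def ev {k : ℕ} (α : FormField g n k) (ρ : Surf g →* K)
    (u : Fin k → Surf g → Matrix (Fin n) (Fin n) ℝ) : ℝ :=
  α (coords ρ) fun j => gens (u j)

/-- A measurable `k`-form on the smooth locus of `Hom(π, K)/K`, given by its pull-back: measurable
coefficients, zero on coboundaries, invariant under conjugation. -/
def IsForm (K : Subgroup (orthogonalGroup (Fin n) ℝ)) {k : ℕ} (α : FormField g n k) : Prop :=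
  (∀ v, Measurable fun x => α x v) ∧
    ∀ ρ : Surf g →* K, Smooth ρ → ∀ u : Fin k → Surf g → Matrix (Fin n) (Fin n) ℝ,
      (∀ j, IsCocycle ρ (u j)) →
        ((∃ j, IsCoboundary ρ (u j)) → ev α ρ u = 0) ∧
          ∀ c : K, ev α (conjRep c ρ) (fun j x => adj c (u j x)) = ev α ρ u

/-- `Ad`-invariant inner products on the Lie algebra. -/
def IsInvInner (K : Subgroup (orthogonalGroup (Fin n) ℝ))
    (B : Matrix (Fin n) (Fin n) ℝ →ₗ[ℝ] Matrix (Fin n) (Fin n) ℝ →ₗ[ℝ] ℝ) : Prop :=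
  (∀ X ∈ lie K, ∀ Y ∈ lie K, B X Y = B Y X ∧ ∀ k : K, B (adj k X) (adj k Y) = B X Y) ∧
    ∀ X ∈ lie K, X ≠ 0 → 0 < B X X

/-- The form `ω_B`: cup product, `B`, evaluation on the fundamental class. -/
def omega (B : Matrix (Fin n) (Fin n) ℝ →ₗ[ℝ] Matrix (Fin n) (Fin n) ℝ →ₗ[ℝ] ℝ)
    (ρ : Surf g →* K) (u v : Surf g → Matrix (Fin n) (Fin n) ℝ) : ℝ :=
  fund fun x y => B (u x) (adj (ρ x) (v y))

/-- The wedge product of 2-forms `w_1 ∧ ⋯ ∧ w_m` (up to the factor `2^m`) on `k = 2m` vectors. -/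
def wedge {V : Type} {m k : ℕ} (e : Fin m × Bool ≃ Fin k) (w : Fin m → V → V → ℝ)
    (u : Fin k → V) : ℝ :=
  ∑ σ : Equiv.Perm (Fin k), (Equiv.Perm.sign σ : ℤ) *
    ∏ j, w j (u (σ (e (j, false)))) (u (σ (e (j, true))))

/-- The main statement. -/
def Main : Prop :=
  ∀ (n g : ℕ) (_ : 1 ≤ g) (K : Subgroup (orthogonalGroup (Fin n) ℝ))
    (_ : IsClosed (K : Set (orthogonalGroup (Fin n) ℝ)))
    (_ : IsConnected (K : Set (orthogonalGroup (Fin n) ℝ)))
    (Y : Set (Surf g →* K)) (_ : MeasurableSet (coords '' Y))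
    (_ : ∀ ρ ∈ Y, (∀ c, conjRep c ρ ∈ Y) ∧ ∀ φ, IsMod φ → precomp φ ρ ∈ Y)
    (k : ℕ) (α : FormField g n k) (_ : IsForm K α)
    (_ : ∀ φ, IsMod φ → AE fun ρ : Surf g →* K => ρ ∈ Y → ∀ u, (∀ j, IsCocycle ρ (u j)) →
      ev α (precomp φ ρ) (fun j x => u j (φ x)) = ev α ρ u),
    ∃ (N : ℕ) (m : Fin N → ℕ) (e : ∀ i, Fin (m i) × Bool ≃ Fin k)
      (B : ∀ i, Fin (m i) → Matrix (Fin n) (Fin n) ℝ →ₗ[ℝ] Matrix (Fin n) (Fin n) ℝ →ₗ[ℝ] ℝ)
      (f : Fin N → Pt g n → ℝ),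
      (∀ i j, IsInvInner K (B i j)) ∧
      (∀ i, Measurable (f i) ∧
        (∀ ρ : Surf g →* K, Smooth ρ → ∀ c, f i (coords (conjRep c ρ)) = f i (coords ρ)) ∧
        ∀ φ, IsMod φ → AE fun ρ : Surf g →* K => ρ ∈ Y →
          f i (coords (precomp φ ρ)) = f i (coords ρ)) ∧
      AE fun ρ : Surf g →* K => ρ ∈ Y → ∀ u, (∀ j, IsCocycle ρ (u j)) →
        ev α ρ u = ∑ i, f i (coords ρ) * wedge (e i) (fun j => omega (B i j) ρ) u

end Pool.Agent.Lib.MP_d52947_gt
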