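import Mathlib

-- part Pool.Agent.Lib.MP_d52947_gt.Closed
section

/-! The closed subgroup theorem in a finite-dimensional normed algebra. -/

namespace Pool.Agent.Lib.MP_d52947_gt

open Filter Topology NormedSpace

variable {K : Type} [Group K] [TopologicalSpace K] [CompactSpace K]
  {A : Type} [NormedRing A] [NormedAlgebra ℝ A] [FiniteDimensional ℝ A] [CompleteSpace A]

theorem exp_add_comm {x y : A} (h : Commute x y) : exp (x + y) = exp x * exp y :=
  let _ : NormedAlgebra ℚ A := .restrictScalars ℚ ℝ A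
  exp_add_of_commute h

theorem exp_neg_mul (x : A) : exp (-x) * exp x = 1 := by
  rw [← exp_add_comm (Commute.refl x).neg_left, neg_add_cancel, exp_zero]

theorem cont_exp : Continuous (exp : A → A) :=
  let _ : NormedAlgebra ℚ A := .restrictScalars ℚ ℝ A
  exp_continuous

theorem exists_loc_inv {f : A → A} {b : A} (hf : HasStrictFDerivAt f (1 : A →L[ℝ] A) 0)
    (h0 : f 0 = b) : ∃ l : A → A, HasFDerivAt l (1 : A →L[ℝ] A) b ∧ l b = 0 ∧
      (∀ᶠ y in 𝓝 b, f (l y) = y) ∧ ∀ᶠ x in 𝓝 0, l (f x) = x := by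
  subst h0
  have hf' : HasStrictFDerivAt f (ContinuousLinearEquiv.refl ℝ A : A →L[ℝ] A) 0 := hf
  exact ⟨_, hf'.to_localInverse.hasFDerivAt, hf'.localInverse_apply_image,
    hf'.eventually_right_inverse, hf'.eventually_left_inverse⟩

theorem hasDerivAt_exp0 (X : A) : HasDerivAt (fun t : ℝ => exp (t • X)) X 0 := by
  simpa using hasDerivAt_exp_smul_const (𝕂 := ℝ) X 0

variable (ι : K →* A)

theorem exp_neg_eq {X : A} {k : K} (h : ι k = exp X) : ι k⁻¹ = exp (-X) := by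
  rw [← one_mul (ι k⁻¹), ← exp_neg_mul X, ← h, mul_assoc, ← map_mul, mul_inv_cancel, map_one, mul_one]

theorem exp_zsmul_eq {X : A} {k : K} (h : ι k = exp X) (z : ℤ) : ι (k ^ z) = exp ((z : ℝ) • X) := by
  have h1 : ∀ n : ℕ, ι (k ^ n) = exp ((n : ℝ) • X) := fun n => by
    let _ : NormedAlgebra ℚ A := .restrictScalars ℚ ℝ A
    rw [map_pow, h, Nat.cast_smul_eq_nsmul, exp_nsmul]
  obtain ⟨n, rfl | rfl⟩ := z.eq_nat_or_neg
  · simpa using h1 n
  · rw [zpow_neg, zpow_natCast, exp_neg_eq ι (h1 n)]; simp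

/-- the Lie algebra as a set -/
def lieS : Set A := {X | ∀ t : ℝ, ∃ k, ι k = exp (t • X)}

variable {ι} (hι : Continuous ι)
include hι

theorem mem_lieS_of_lim {X : ℕ → A} {c : ℕ → ℝ} {Y : A} (h0 : Tendsto X atTop (𝓝 0))
    (h1 : ∀ᶠ m in atTop, exp (X m) ∈ Set.range ι) (h2 : Tendsto (fun m => c m • X m) atTop (𝓝 Y)) :
    Y ∈ lieS ι := by
  intro t
  have h3 : Tendsto (fun m => Int.fract (t * c m) • X m) atTop (𝓝 0) :=
    squeeze_zero_norm (fun m => by
      rw [norm_smul, Real.norm_eq_abs, Int.abs_fract]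
      exact mul_le_of_le_one_left (norm_nonneg _) (Int.fract_lt_one _).le)
      (tendsto_zero_iff_norm_tendsto_zero.1 h0)
  have h4 := (cont_exp.tendsto _).comp ((h2.const_smul t).sub h3)
  rw [sub_zero] at h4
  refine (isCompact_range hι).isClosed.mem_of_tendsto h4 (h1.mono ?_)
  rintro m ⟨k, hk⟩
  refine ⟨k ^ ⌊t * c m⌋, ?_⟩
  rw [exp_zsmul_eq ι hk, Function.comp, smul_smul, ← sub_smul, Int.self_sub_fract]

theorem mem_lieS_of_deriv {γ : ℝ → A} {X : A} (h : ∀ t, γ t ∈ Set.range ι) (h0 : γ 0 = 1)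
    (hd : HasDerivAt γ X 0) : X ∈ lieS ι := by
  obtain ⟨l, h1, h2, h3, -⟩ := exists_loc_inv (hasStrictFDerivAt_exp_zero (𝕂 := ℝ) (𝔸 := A)) exp_zero
  rw [← h0] at h1 h2 h3
  have h4 : HasDerivAt (l ∘ γ) X 0 := h1.comp_hasDerivAt 0 hd
  have h5 : Tendsto (fun m : ℕ => 1 / ((m : ℝ) + 1)) atTop (𝓝[≠] 0) :=
    tendsto_nhdsWithin_iff.2 ⟨tendsto_one_div_add_atTop_nhds_zero_nat,
      Eventually.of_forall fun m => by simp; positivity⟩
  have h6 := h5.mono_right nhdsWithin_le_nhds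
  refine mem_lieS_of_lim hι (X := fun m => l (γ (1 / (m + 1)))) (c := fun m => (1 / ((m : ℝ) + 1))⁻¹)
    ?_ ?_ ?_
  · simpa [h2, Function.comp_def] using h4.continuousAt.tendsto.comp h6
  · filter_upwards [(hd.continuousAt.tendsto.comp h6).eventually h3] with m hm
    rw [Function.comp] at hm
    rw [hm]; exact h _
  · simpa [h2, Function.comp_def] using (hasDerivAt_iff_tendsto_slope_zero.1 h4).comp h5

/-- the Lie algebra -/
def lieA : Submodule ℝ A where
  carrier := lieS ι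
  zero_mem' t := ⟨1, by simp⟩
  smul_mem' c X h t := by rw [smul_smul]; exact h _
  add_mem' {X Y} hX hY := mem_lieS_of_deriv hι (γ := fun t => exp (t • X) * exp (t • Y))
    (fun t => by
      obtain ⟨a, ha⟩ := hX t
      obtain ⟨b, hb⟩ := hY t
      exact ⟨a * b, by rw [map_mul, ha, hb]⟩) (by simp)
    (by simpa using (hasDerivAt_exp0 X).fun_mul (hasDerivAt_exp0 Y))

omit hι in
theorem exp_conj_ι (k : K) (X : A) : exp (ι k * X * ι k⁻¹) = ι k * exp X * ι k⁻¹ :=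
  let _ : NormedAlgebra ℚ A := .restrictScalars ℚ ℝ A
  exp_units_conj (ι.toHomUnits k) X

theorem conj_mem_lieA (k : K) {X : A} (h : X ∈ lieA hι) : ι k * X * ι k⁻¹ ∈ lieA hι := fun t => by
  obtain ⟨a, ha⟩ := h t
  exact ⟨k * a * k⁻¹, by rw [map_mul, map_mul, ha, ← exp_conj_ι]; simp⟩

theorem lie_mem_lieA {X Y : A} (hX : X ∈ lieA hι) (hY : Y ∈ lieA hι) : X * Y - Y * X ∈ lieA hι := by
  have h1 : HasDerivAt (fun t : ℝ => exp (t • X) * Y * exp (t • -X)) (X * Y - Y * X) 0 := by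
    simpa [sub_eq_add_neg] using ((hasDerivAt_exp0 X).mul_const Y).fun_mul (hasDerivAt_exp0 (-X))
  refine (lieA hι).closed_of_finiteDimensional.mem_of_tendsto
    (hasDerivAt_iff_tendsto_slope_zero.1 h1) (Eventually.of_forall fun t => ?_)
  have h2 : ∀ t : ℝ, exp (t • X) * Y * exp (t • -X) ∈ lieA hι := fun t => by
    obtain ⟨a, ha⟩ := hX t
    rw [smul_neg, ← exp_neg_eq ι ha, ← ha]; exact conj_mem_lieA hι a hY
  exact Submodule.smul_mem _ _ (Submodule.sub_mem _ (h2 _) (h2 _))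

theorem lieA_nhds [FirstCountableTopology K] (P : A →L[ℝ] lieA hι) (hP : ∀ x : lieA hι, P x = x)
    {U : Set (lieA hι)} (hU : U ∈ 𝓝 0) : ∀ᶠ k in 𝓝 1, ∃ x ∈ U, ι k = exp (x : A) := by
  by_contra hc
  obtain ⟨k, hk, hk'⟩ := exists_seq_forall_of_frequently (not_eventually.1 hc)
  let Q : A →L[ℝ] A := (lieA hι).subtypeL ∘L P
  have he := hasStrictFDerivAt_exp_zero (𝕂 := ℝ) (𝔸 := A)
  have h1 : HasStrictFDerivAt (fun z => exp (Q z) * exp ((1 - Q) z)) (1 : A →L[ℝ] A) 0 := by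
    refine (((map_zero Q ▸ he :).comp 0 Q.hasStrictFDerivAt).mul'
      ((map_zero (1 - Q) ▸ he :).comp 0 (1 - Q).hasStrictFDerivAt)).congr_fderiv ?_
    ext z; simp
  obtain ⟨l, h2, h3, h4, -⟩ := exists_loc_inv (b := 1) h1 (by simp)
  have h5 : Tendsto (fun m => ι (k m)) atTop (𝓝 1) :=
    map_one ι ▸ (hι.tendsto 1).comp hk
  have h6 : Tendsto (fun m => l (ι (k m))) atTop (𝓝 0) := h3 ▸ h2.continuousAt.tendsto.comp h5
  have h7 : ∀ᶠ m in atTop, (1 - Q) (l (ι (k m))) ≠ 0 := by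
    filter_upwards [h5.eventually h4, ((P.continuous.tendsto' 0 0 (map_zero P)).comp h6).eventually hU]
      with m a b c
    exact hk' m ⟨_, b, by rw [← a, c, exp_zero, mul_one]; rfl⟩
  obtain ⟨Y, hY, φ, hφ, h8⟩ := (isCompact_sphere (0 : A) 1).tendsto_subseq'
    (x := fun m => ‖(1 - Q) (l (ι (k m)))‖⁻¹ • (1 - Q) (l (ι (k m)))) (h7.mono fun m hm => by
      rw [mem_sphere_zero_iff_norm, norm_smul, norm_inv, norm_norm,
        inv_mul_cancel₀ (norm_ne_zero_iff.2 hm)]).frequently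
  have h9 : Y ∈ lieA hι := mem_lieS_of_lim hι (((1 - Q).continuous.tendsto' 0 0 (map_zero _)).comp
    (h6.comp hφ.tendsto_atTop)) (((h5.comp hφ.tendsto_atTop).eventually h4).mono fun m hm => by
      obtain ⟨a, ha⟩ := (P (l (ι (k (φ m))))).2 1
      refine ⟨a⁻¹ * k (φ m), ?_⟩
      rw [one_smul] at ha
      have := congrArg (ι a⁻¹ * ·) hm
      simp only [Function.comp] at this ⊢
      rw [map_mul, ← this, exp_neg_eq ι ha, ← mul_assoc]
      exact (congrArg (· * _) (exp_neg_mul _)).trans (one_mul _)) h8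
  have h10 : P Y = 0 := tendsto_nhds_unique ((P.continuous.tendsto Y).comp h8)
    (tendsto_const_nhds.congr fun m => by simp [Q, hP])
  have h11 : Y = 0 := congrArg Subtype.val ((hP ⟨Y, h9⟩).symm.trans h10)
  simp [h11] at hY

omit hι in
theorem exp_ad_eq {L : Type} [NormedAddCommGroup L] [NormedSpace ℝ L] [CompleteSpace L]
    (j : L →L[ℝ] A) (D : L →L[ℝ] L) (X : A) (h : ∀ y, j (D y) = X * j y - j y * X) (y : L) :
    j (exp D y) = exp X * j y * exp (-X) := by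
  have h1 : ∀ t : ℝ, HasDerivAt (fun t : ℝ => exp (t • -X) * j (exp (t • D) y) * exp (t • X)) 0 t := by
    intro t
    refine (((hasDerivAt_exp_smul_const (𝕂 := ℝ) (-X) t).mul (j.hasFDerivAt.comp_hasDerivAt t
      ((hasDerivAt_exp_smul_const' (𝕂 := ℝ) D t).clm_apply (hasDerivAt_const t y)))).mul
      (hasDerivAt_exp_smul_const' (𝕂 := ℝ) X t)).congr_deriv ?_
    simp only [Function.comp, ContinuousLinearMap.mul_apply, map_zero, add_zero, h, Pi.mul_apply]
    noncomm_ring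
  have h2 := is_const_of_deriv_eq_zero (fun t => (h1 t).differentiableAt) (fun t => (h1 t).deriv) 1 0
  simp only [one_smul, zero_smul, exp_zero, one_mul, mul_one, ContinuousLinearMap.one_apply] at h2
  have h3 := exp_neg_mul (-X)
  rw [neg_neg] at h3
  rw [← h2, ← mul_assoc, ← mul_assoc, h3, one_mul, mul_assoc, h3, mul_one]

end Pool.Agent.Lib.MP_d52947_gt
end

-- part Pool.Agent.Lib.MP_d52947_gt.TC
section

/-! Covering lemmas: Hausdorff measure of sets with small tangent cones. -/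

namespace Pool.Agent.Lib.MP_d52947_gt

open MeasureTheory Filter Topology Module
open scoped NNReal ENNReal

variable {E F : Type} [NormedAddCommGroup E] [NormedSpace ℝ E] [FiniteDimensional ℝ E]
  [NormedAddCommGroup F] [NormedSpace ℝ F] [FiniteDimensional ℝ F]

/-- tangent cone -/
def Tan (S : Set E) (z : E) : Set E :=
  {w | ∃ (zs : ℕ → E) (c : ℕ → ℝ), (∀ n, zs n ∈ S) ∧ Tendsto zs atTop (𝓝 z) ∧
    Tendsto (fun n => c n • (zs n - z)) atTop (𝓝 w)}

theorem Tan.mono {S S' : Set E} (h : S ⊆ S') (z : E) : Tan S z ⊆ Tan S' z :=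
  fun _ ⟨zs, c, h1, h2⟩ => ⟨zs, c, fun n => h (h1 n), h2⟩

theorem exists_local_anti {S : Set E} {z : E} (Λ : E →L[ℝ] F)
    (h : ∀ w ∈ Tan S z, Λ w = 0 → w = 0) :
    ∃ m : ℕ, ∀ z' ∈ S, ‖z' - z‖ < 1 / (m + 1) → ‖z' - z‖ ≤ m * ‖Λ (z' - z)‖ := by
  by_contra hc
  push Not at hc
  choose zs h1 h2 h3 using hc
  have hpos : ∀ n, 0 < ‖zs n - z‖ := fun n => lt_of_le_of_lt (by positivity) (h3 n)
  obtain ⟨w, hw, φ, hφ, hl⟩ := (isCompact_sphere (0 : E) 1).tendsto_subseq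
    (x := fun n => ‖zs n - z‖⁻¹ • (zs n - z)) fun n => by
      simp [norm_smul, inv_mul_cancel₀ (hpos n).ne']
  have hz : Tendsto zs atTop (𝓝 z) := by
    rw [tendsto_iff_norm_sub_tendsto_zero]
    exact squeeze_zero (fun _ => norm_nonneg _) (fun n => (h2 n).le)
      tendsto_one_div_add_atTop_nhds_zero_nat
  have hΛ : Tendsto (fun n => Λ (‖zs n - z‖⁻¹ • (zs n - z))) atTop (𝓝 0) := by
    rw [tendsto_zero_iff_norm_tendsto_zero]
    refine squeeze_zero' (Eventually.of_forall fun _ => norm_nonneg _) ?_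
      tendsto_inv_atTop_nhds_zero_nat
    filter_upwards [eventually_gt_atTop 0] with n hn
    have hn' : (0 : ℝ) < n := by exact_mod_cast hn
    rw [map_smul, norm_smul, norm_inv, norm_norm, inv_mul_le_iff₀ (hpos n), le_mul_inv_iff₀ hn',
      mul_comm]
    exact (h3 n).le
  have := h w ⟨zs ∘ φ, fun n => ‖zs (φ n) - z‖⁻¹, fun n => h1 _, hz.comp hφ.tendsto_atTop, hl⟩
    (tendsto_nhds_unique ((Λ.continuous.tendsto w).comp hl) (hΛ.comp hφ.tendsto_atTop))
  simp [this] at hw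

theorem cover {P : Type} [TopologicalSpace P] [SecondCountableTopology P] (Λ : P → E →L[ℝ] F)
    (hΛ : Continuous Λ) (S : Set E) (h : ∀ z ∈ S, ∃ p, ∀ w ∈ Tan S z, Λ p w = 0 → w = 0) :
    ∃ 𝒯 : Set (Set E), 𝒯.Countable ∧ S ⊆ ⋃₀ 𝒯 ∧ ∀ T ∈ 𝒯, T ⊆ S ∧ Bornology.IsBounded T ∧
      ∃ (p : P) (c : ℝ≥0), ∀ z ∈ T, ∀ z' ∈ T, ‖z' - z‖ ≤ c * ‖Λ p (z' - z)‖ := by
  obtain ⟨D, hD, hDd⟩ := TopologicalSpace.exists_countable_dense P
  obtain ⟨Q, hQ, hQd⟩ := TopologicalSpace.exists_countable_dense E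
  let T : P → E → ℕ → Set E := fun p q m => {z | z ∈ S ∧ ‖z - q‖ < 1 / (2 * (m + 1)) ∧
    ∀ z' ∈ S, ‖z' - z‖ < 1 / (m + 1) → ‖z' - z‖ ≤ (2 * m : ℕ) * ‖Λ p (z' - z)‖}
  refine ⟨(fun t : P × E × ℕ => T t.1 t.2.1 t.2.2) '' (D ×ˢ Q ×ˢ Set.univ),
    (hD.prod (hQ.prod Set.countable_univ)).image _, fun z hz => ?_, ?_⟩
  · obtain ⟨p, hp⟩ := h z hz
    obtain ⟨m, hm⟩ := exists_local_anti (Λ p) hp
    have hpos : (0 : ℝ) < 1 / (2 * (m + 1)) := by positivity
    obtain ⟨p', hp', hp'D⟩ := hDd.inter_nhds_nonempty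
      (hΛ.continuousAt (x := p) (Metric.ball_mem_nhds _ hpos))
    obtain ⟨q, hq, hqQ⟩ := hQd.inter_nhds_nonempty (Metric.ball_mem_nhds z hpos)
    refine ⟨_, ⟨(p', q, m), ⟨hp', hq, trivial⟩, rfl⟩, hz, ?_, fun z' hz' hlt => ?_⟩
    · rw [← dist_eq_norm, dist_comm]; exact hqQ
    · have h1 := hm z' hz' hlt
      have h2 : ‖Λ p' - Λ p‖ < 1 / (2 * (m + 1)) := by rw [← dist_eq_norm]; exact hp'D
      have h3 : ‖Λ p (z' - z)‖ ≤ ‖Λ p' (z' - z)‖ + 1 / (2 * (m + 1)) * ‖z' - z‖ := by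
        have := (Λ p' - Λ p).le_of_opNorm_le h2.le (z' - z)
        rw [ContinuousLinearMap.sub_apply, norm_sub_rev] at this
        linarith [norm_sub_norm_le (Λ p (z' - z)) (Λ p' (z' - z))]
      have h4 : (m : ℝ) * (1 / (2 * (m + 1))) ≤ 1 / 2 := by
        rw [mul_one_div, div_le_iff₀ (by positivity)]; linarith
      push_cast
      nlinarith [norm_nonneg (z' - z), mul_le_mul_of_nonneg_left h3 (Nat.cast_nonneg (α := ℝ) m)]
  · rintro _ ⟨⟨p, q, m⟩, -, rfl⟩
    refine ⟨fun z hz => hz.1, (Metric.isBounded_ball (x := q) (r := 1 / (2 * (m + 1)))).subset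
      fun z hz => mem_ball_iff_norm.2 hz.2.1, p, (2 * m : ℕ), fun z hz z' hz' => hz.2.2 z' hz'.1 ?_⟩
    have := norm_sub_le_norm_sub_add_norm_sub z' q z
    rw [norm_sub_rev q z] at this
    have h1 := hz.2.1
    have h2 := hz'.2.1
    have : (1 : ℝ) / (m + 1) = 1 / (2 * (m + 1)) + 1 / (2 * (m + 1)) := by field_simp; ring
    simp only at h1 h2 ⊢
    linarith

variable [MeasurableSpace E] [BorelSpace E] [MeasurableSpace F] [BorelSpace F]

theorem le_of_anti {T : Set E} {f : E → F} {c : ℝ≥0}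
    (h : ∀ z ∈ T, ∀ z' ∈ T, dist z' z ≤ c * dist (f z') (f z)) (d : ℕ) :
    μH[d] T ≤ (c : ℝ≥0∞) ^ (d : ℝ) * μH[d] (f '' T) := by
  have h1 : AntilipschitzWith c (T.domRestrict f) :=
    AntilipschitzWith.of_le_mul_dist fun a b => h b b.2 a a.2
  have h2 := h1.le_hausdorffMeasure_image (d := d) (Nat.cast_nonneg d) Set.univ
  rw [← (isometry_subtype_coe (s := T)).hausdorffMeasure_image (Or.inl (Nat.cast_nonneg d)),
    Set.image_univ, Set.image_univ, Subtype.range_coe, Set.range_restrict] at h2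
  exact h2

theorem null_of_cover {P : Type} [TopologicalSpace P] [SecondCountableTopology P]
    (Λ : P → E →L[ℝ] F) (hΛ : Continuous Λ) (S : Set E)
    (h : ∀ z ∈ S, ∃ p, ∀ w ∈ Tan S z, Λ p w = 0 → w = 0) {d : ℕ}
    (h0 : ∀ p, μH[d] (Λ p '' S) = 0) : μH[d] S = 0 := by
  obtain ⟨𝒯, hc, hS, hT⟩ := cover Λ hΛ S h
  refine measure_mono_null hS ((measure_sUnion_null_iff hc).2 fun T hT' => ?_)
  obtain ⟨h1, -, p, c, h2⟩ := hT T hT'
  have := le_of_anti (f := Λ p) (c := c)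
    (fun z hz z' hz' => by simpa [dist_eq_norm] using h2 z hz z' hz') d
  rwa [measure_mono_null (Set.image_mono h1) (h0 p), mul_zero, nonpos_iff_eq_zero] at this

omit [MeasurableSpace E] [BorelSpace E] in
theorem exists_inj_on (W : Submodule ℝ E) {d : ℕ} (hd : finrank ℝ W ≤ d) :
    ∃ Λ : E →L[ℝ] (Fin d → ℝ), ∀ w ∈ W, Λ w = 0 → w = 0 := by
  obtain ⟨f, hf⟩ := (finrank_le_iff_exists_linearMap (R := ℝ) (M := W)
    (M' := Fin d → ℝ)).1 (by simpa using hd)
  obtain ⟨g, hg⟩ := LinearMap.exists_extend f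
  refine ⟨LinearMap.toContinuousLinearMap g, fun w hw h => ?_⟩
  have : f ⟨w, hw⟩ = 0 := by rw [← hg]; exact h
  exact congrArg Subtype.val ((injective_iff_map_eq_zero f).1 hf _ this)

theorem null_of_tan_lt (S : Set E) {d : ℕ}
    (h : ∀ z ∈ S, ∃ W : Submodule ℝ E, finrank ℝ W < d ∧ Tan S z ⊆ W) : μH[d] S = 0 := by
  rcases Nat.eq_zero_or_pos d with rfl | hd
  · have : S = ∅ := Set.eq_empty_of_forall_notMem fun z hz => by
      obtain ⟨W, h1, -⟩ := h z hz
      omega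
    simp [this]
  refine null_of_cover (F := Fin (d - 1) → ℝ) id continuous_id S (fun z hz => ?_) fun p => ?_
  · obtain ⟨W, h1, h2⟩ := h z hz
    obtain ⟨Λ, hΛ⟩ := exists_inj_on W (d := d - 1) (by omega)
    exact ⟨Λ, fun w hw => hΛ w (h2 hw)⟩
  · rw [Real.hausdorffMeasure_of_finrank_lt]
    · rfl
    · simp only [finrank_fin_fun]
      exact_mod_cast Nat.sub_one_lt hd.ne'

theorem sigmaFinite_of_tan_le {S : Set E} (hS : MeasurableSet S) {d : ℕ}
    (h : ∀ z ∈ S, ∃ W : Submodule ℝ E, finrank ℝ W ≤ d ∧ Tan S z ⊆ W) :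
    SigmaFinite ((μH[d] : Measure E).restrict S) := by
  obtain ⟨𝒯, hc, hcov, hT⟩ := cover (F := Fin d → ℝ) id continuous_id S fun z hz => by
    obtain ⟨W, h1, h2⟩ := h z hz
    obtain ⟨Λ, hΛ⟩ := exists_inj_on W h1
    exact ⟨Λ, fun w hw => hΛ w (h2 hw)⟩
  refine Measure.sigmaFinite_of_countable (hc.insert Sᶜ) ?_ ?_
  · rintro T (rfl | hT')
    · rw [Measure.restrict_apply' hS]; simp
    · obtain ⟨-, hb, p, c, h2⟩ := hT T hT'
      refine (Measure.restrict_le_self _).trans_lt ((le_of_anti (f := p) (c := c)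
        (fun z hz z' hz' => by simpa [dist_eq_norm] using h2 z hz z' hz') d).trans_lt ?_)
      refine ENNReal.mul_lt_top (ENNReal.rpow_lt_top_of_nonneg (Nat.cast_nonneg d)
        ENNReal.coe_ne_top) ?_
      have := hausdorffMeasure_pi_real (ι := Fin d)
      rw [Fintype.card_fin] at this
      rw [this]
      exact (p.lipschitz.isBounded_image hb).measure_lt_top
  · rw [Set.sUnion_insert, Set.eq_univ_iff_forall]
    intro z
    by_cases hz : z ∈ S
    exacts [Or.inr (hcov hz), Or.inl hz]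

theorem null_image {f : E → F} {S : Set E} (hf : ∀ z ∈ S, ContDiffAt ℝ 1 f z) {d : ℕ}
    (h : μH[d] S = 0) : μH[d] (f '' S) = 0 := by
  choose! c t ht hl using fun z hz => (hf z hz).exists_lipschitzOnWith
  obtain ⟨s, hs, hc, hcov⟩ := TopologicalSpace.countable_cover_nhdsWithin (s := S) (f := t)
    fun z hz => mem_nhdsWithin_of_mem_nhds (ht z hz)
  have : f '' S ⊆ ⋃ z ∈ s, f '' (S ∩ t z) := by
    rintro _ ⟨y, hy, rfl⟩
    obtain ⟨z, hz, hz'⟩ := Set.mem_iUnion₂.1 (hcov hy)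
    exact Set.mem_biUnion hz ⟨y, ⟨hy, hz'⟩, rfl⟩
  refine measure_mono_null this ((measure_biUnion_null_iff hc).2 fun z hz => ?_)
  have := ((hl z (hs hz)).mono Set.inter_subset_right (s := S ∩ t z)).hausdorffMeasure_image_le
    (d := d) (Nat.cast_nonneg d)
  rwa [measure_mono_null Set.inter_subset_left h, mul_zero, nonpos_iff_eq_zero] at this

theorem haus_null_iff (μ : Measure E) [μ.IsAddHaarMeasure] (S : Set E) :
    μH[(finrank ℝ E : ℕ)] S = 0 ↔ μ S = 0 :=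
  ⟨fun h => Measure.absolutelyContinuous_isAddHaarMeasure _ _ h,
    fun h => Measure.absolutelyContinuous_isAddHaarMeasure _ _ h⟩

theorem null_prod_image {X : Type} [NormedAddCommGroup X] [NormedSpace ℝ X] [FiniteDimensional ℝ X]
    [MeasurableSpace X] [BorelSpace X] (μ : Measure X) [μ.IsAddHaarMeasure] {N : Set X}
    (hN : μ N = 0) {Θ : X × E → F} (hΘ : ContDiff ℝ 1 Θ) {d : ℕ}
    (hd : d = finrank ℝ X + finrank ℝ E) : μH[d] (Θ '' (N ×ˢ Set.univ)) = 0 := by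
  refine null_image (fun _ _ => hΘ.contDiffAt) ?_
  rw [hd, ← finrank_prod, haus_null_iff (μ.prod Measure.addHaar), Measure.prod_prod, hN, zero_mul]

end Pool.Agent.Lib.MP_d52947_gt
end

-- part Pool.Agent.Lib.MP_d52947_gt.KerCont
section

/-! Continuity of kernels at constant rank. -/

namespace Pool.Agent.Lib.MP_d52947_gt

open Filter Topology Module

variable {E F : Type} [NormedAddCommGroup E] [InnerProductSpace ℝ E] [FiniteDimensional ℝ E]
  [NormedAddCommGroup F] [NormedSpace ℝ F]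

theorem exists_bdd_below (A : E →L[ℝ] F) : ∃ c > 0, ∀ w ∈ (LinearMap.ker (A : E →ₗ[ℝ] F))ᗮ,
    c * ‖w‖ ≤ ‖A w‖ := by
  obtain ⟨c, hc, h⟩ := ((A : E →ₗ[ℝ] F) ∘ₗ (LinearMap.ker (A : E →ₗ[ℝ] F))ᗮ.subtype).exists_antilipschitzWith
    (LinearMap.ker_eq_bot'.2 fun w hw => Subtype.ext (inner_self_eq_zero.1 (w.2 w hw)))
  refine ⟨c⁻¹, by positivity, fun w hw => ?_⟩
  rw [inv_mul_le_iff₀ (by exact_mod_cast hc)]
  exact ZeroHomClass.bound_of_antilipschitz _ h ⟨w, hw⟩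

/-- if `B` is close to `A` with kernel at least as large, the kernel of `B` is a graph over the
kernel of `A` -/
theorem exists_ker_lift {A B : E →L[ℝ] F} {c : ℝ} (hc : 0 < c)
    (h : ∀ w ∈ (LinearMap.ker (A : E →ₗ[ℝ] F))ᗮ, c * ‖w‖ ≤ ‖A w‖) (hB : ‖B - A‖ ≤ c / 2)
    (hd : finrank ℝ (LinearMap.ker (A : E →ₗ[ℝ] F)) ≤ finrank ℝ (LinearMap.ker (B : E →ₗ[ℝ] F)))
    {ζ : E} (hζ : A ζ = 0) : ∃ w ∈ (LinearMap.ker (A : E →ₗ[ℝ] F))ᗮ, B (ζ + w) = 0 ∧
      c / 2 * ‖w‖ ≤ ‖B ζ‖ := by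
  have h2 : ∀ w ∈ (LinearMap.ker (A : E →ₗ[ℝ] F))ᗮ, c / 2 * ‖w‖ ≤ ‖B w‖ := fun w hw => by
    have h3 := (B - A).le_of_opNorm_le hB w
    rw [ContinuousLinearMap.sub_apply, norm_sub_rev] at h3
    linarith [h w hw, norm_sub_norm_le (A w) (B w)]
  let p : LinearMap.ker (B : E →ₗ[ℝ] F) →ₗ[ℝ] LinearMap.ker (A : E →ₗ[ℝ] F) :=
    ((LinearMap.ker (A : E →ₗ[ℝ] F)).orthogonalProjection : E →ₗ[ℝ] _) ∘ₗ Submodule.subtype _
  have hp : Function.Injective p := (injective_iff_map_eq_zero p).2 fun y hy => by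
    have h4 := h2 y ((Submodule.orthogonalProjection_eq_zero_iff).1 hy)
    have h5 : B y = 0 := y.2
    rw [h5, norm_zero] at h4
    exact Subtype.ext (norm_le_zero_iff.1 (by nlinarith [norm_nonneg (y : E)]))
  have hs : Function.Surjective p := (LinearMap.injective_iff_surjective_of_finrank_eq_finrank
    (le_antisymm (LinearMap.finrank_le_finrank_of_injective hp) hd)).1 hp
  obtain ⟨y, hy⟩ := hs ⟨ζ, hζ⟩
  have hy' : (LinearMap.ker (A : E →ₗ[ℝ] F)).starProjection y = ζ := congrArg Subtype.val hy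
  have hw : (y : E) - ζ ∈ (LinearMap.ker (A : E →ₗ[ℝ] F))ᗮ :=
    hy' ▸ Submodule.sub_starProjection_mem_orthogonal _
  have h5 : B y = 0 := y.2
  refine ⟨y - ζ, hw, by simpa using h5, ?_⟩
  simpa [h5] using h2 _ hw

theorem ker_cont {A : E →L[ℝ] F} {B : ℕ → E →L[ℝ] F} (hB : Tendsto B atTop (𝓝 A))
    (hd : ∀ n, finrank ℝ (LinearMap.ker (A : E →ₗ[ℝ] F)) ≤
      finrank ℝ (LinearMap.ker (B n : E →ₗ[ℝ] F))) {ζ : E} (hζ : A ζ = 0) :
    ∃ z : ℕ → E, Tendsto z atTop (𝓝 ζ) ∧ ∀ᶠ n in atTop, B n (z n) = 0 := by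
  obtain ⟨c, hc, h⟩ := exists_bdd_below A
  have h1 : ∀ n, ∃ w, ‖B n - A‖ ≤ c / 2 → B n (ζ + w) = 0 ∧ c / 2 * ‖w‖ ≤ ‖B n ζ‖ := fun n => by
    by_cases hn : ‖B n - A‖ ≤ c / 2
    · obtain ⟨w, -, hw⟩ := exists_ker_lift hc h hn (hd n) hζ
      exact ⟨w, fun _ => hw⟩
    · exact ⟨0, fun h => absurd h hn⟩
  choose w hw using h1
  have h2 : ∀ᶠ n in atTop, ‖B n - A‖ ≤ c / 2 :=
    (tendsto_iff_norm_sub_tendsto_zero.1 hB).eventually (ge_mem_nhds (half_pos hc))
  refine ⟨fun n => ζ + w n, ?_, h2.mono fun n hn => (hw n hn).1⟩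
  have h3 : Tendsto (fun n => (c / 2)⁻¹ * ‖B n ζ‖) atTop (𝓝 0) := by
    have := ((ContinuousLinearMap.apply ℝ F ζ).continuous.tendsto A).comp hB
    simpa [hζ] using this.norm.const_mul (c / 2)⁻¹
  have h4 : Tendsto w atTop (𝓝 0) := by
    rw [tendsto_zero_iff_norm_tendsto_zero]
    refine squeeze_zero' (Eventually.of_forall fun _ => norm_nonneg _) (h2.mono fun n hn => ?_) h3
    rw [le_inv_mul_iff₀ (half_pos hc)]
    exact (hw n hn).2
  simpa using h4.const_add ζ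

end Pool.Agent.Lib.MP_d52947_gt
end

-- part Pool.Agent.Lib.MP_d52947_gt.Pinv
section

/-! Measurability of least-norm solutions. -/

namespace Pool.Agent.Lib.MP_d52947_gt

open MeasureTheory Module
open scoped RealInnerProductSpace

theorem meas_fst {X V : Type} [MetricSpace X] [MetricSpace V] [ProperSpace X] [ProperSpace V]
    [MeasurableSpace X] [BorelSpace X] {S : Set (X × V)} (hS : IsClosed S) :
    MeasurableSet (Prod.fst '' S) := by
  obtain ⟨K, h1, h2⟩ := (isSigmaCompact_univ.of_isClosed_subset hS (Set.subset_univ _)).image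
    continuous_fst
  rw [← h2]
  exact MeasurableSet.iUnion fun n => (h1 n).measurableSet

variable {E F : Type} [NormedAddCommGroup E] [InnerProductSpace ℝ E] [FiniteDimensional ℝ E]
  [NormedAddCommGroup F] [NormedSpace ℝ F] [FiniteDimensional ℝ F]

/-- least-norm solution -/
def IsMs (A : E →L[ℝ] F) (b : F) (y : E) : Prop := A y = b ∧ ∀ v, A v = 0 → ⟪y, v⟫ = 0

theorem IsMs.unique {A : E →L[ℝ] F} {b : F} {y y' : E} (h : IsMs A b y) (h' : IsMs A b y') :
    y = y' := by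
  have h1 : A (y - y') = 0 := by rw [map_sub, h.1, h'.1, sub_self]
  rw [← sub_eq_zero, ← inner_self_eq_zero (𝕜 := ℝ), inner_sub_left, h.2 _ h1, h'.2 _ h1, sub_zero]

theorem isMs_proj (A : E →L[ℝ] F) (y : E) :
    IsMs A (A y) (y - (LinearMap.ker (A : E →ₗ[ℝ] F)).starProjection y) := by
  refine ⟨?_, fun v hv => Submodule.starProjection_inner_eq_zero _ _ hv⟩
  have : A _ = 0 := (LinearMap.ker (A : E →ₗ[ℝ] F)).starProjection_apply_mem y
  rw [map_sub, this, sub_zero]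

open Classical in
/-- least-norm solution, zero if there is none -/
noncomputable def ms (A : E →L[ℝ] F) (b : F) : E := if h : ∃ y, IsMs A b y then h.choose else 0

theorem IsMs.eq {A : E →L[ℝ] F} {b : F} {y : E} (h : IsMs A b y) : ms A b = y := by
  have h' : ∃ y, IsMs A b y := ⟨y, h⟩
  rw [ms, dif_pos h']; exact h'.choose_spec.unique h

theorem ms_sol {A : E →L[ℝ] F} {b : F} (h : ∃ y, A y = b) : A (ms A b) = b := by
  obtain ⟨y, rfl⟩ := h
  rw [(isMs_proj A y).eq]; exact (isMs_proj A y).1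

theorem ms_congr {F' : Type} [NormedAddCommGroup F'] [NormedSpace ℝ F'] [FiniteDimensional ℝ F']
    {A : E →L[ℝ] F} {b : F} {A' : E →L[ℝ] F'} {b' : F'} (h0 : ∀ y, A y = 0 ↔ A' y = 0)
    (h : ∀ y, A y = b ↔ A' y = b') : ms A b = ms A' b' := by
  have : IsMs A b = IsMs A' b' := by funext y; simp only [IsMs, h, h0]
  by_cases h1 : ∃ y, IsMs A b y
  · obtain ⟨y, hy⟩ := h1
    rw [hy.eq, (this ▸ hy : IsMs A' b' y).eq]
  · rw [ms, ms, dif_neg h1, dif_neg (this ▸ h1)]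

variable [MeasurableSpace E] [BorelSpace E] [MeasurableSpace F] [BorelSpace F]

theorem meas_ms : Measurable fun p : (E →L[ℝ] F) × F => ms p.1 p.2 := by
  have hG : MeasurableSet {q : ((E →L[ℝ] F) × F) × E | IsMs q.1.1 q.1.2 q.2} := by
    have h1 := meas_fst (S := {r : (((E →L[ℝ] F) × F) × E) × E | r.1.1.1 r.2 = 0 ∧ ⟪r.1.2, r.2⟫ = 1})
      ((isClosed_eq (by fun_prop) continuous_const).inter (isClosed_eq (by fun_prop) continuous_const))
    convert (isClosed_eq (f := fun q : ((E →L[ℝ] F) × F) × E => q.1.1 q.2) (g := fun q => q.1.2)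
      (by fun_prop) (by fun_prop)).measurableSet.diff h1 using 1
    ext q
    refine and_congr_right fun _ => ⟨fun h ⟨r, hr, e⟩ => ?_, fun h v hv => by_contra fun h' => h ?_⟩
    · subst e
      exact zero_ne_one ((h _ hr.1).symm.trans hr.2)
    · exact ⟨(q, ⟪q.2, v⟫⁻¹ • v), ⟨by simp [hv], by simp [inner_smul_right, h']⟩, rfl⟩
  have h2 : ∀ U : Set E, MeasurableSet U → MeasurableSet (Prod.fst ''
      ({q : ((E →L[ℝ] F) × F) × E | IsMs q.1.1 q.1.2 q.2} ∩ Prod.snd ⁻¹' U)) := fun U hU =>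
    (hG.inter (measurable_snd hU)).image_of_continuousOn_injOn continuous_fst.continuousOn
      fun a ha b hb e => Prod.ext e (ha.1.unique (by rw [e]; exact hb.1))
  intro U hU
  convert (h2 U hU).union ((h2 _ MeasurableSet.univ).compl.inter (MeasurableSet.const (0 ∈ U)))
    using 1
  ext p
  by_cases h : ∃ y, IsMs p.1 p.2 y
  · obtain ⟨y, hy⟩ := h
    refine ⟨fun h => Or.inl ⟨(p, y), ⟨hy, hy.eq ▸ h⟩, rfl⟩, ?_⟩
    rintro (⟨q, hq, rfl⟩ | h)
    · rw [Set.mem_preimage, hq.1.eq]; exact hq.2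
    · exact absurd ⟨(p, y), ⟨hy, trivial⟩, rfl⟩ h.1
  · have : ms p.1 p.2 = 0 := dif_neg h
    rw [Set.mem_preimage, this]
    refine ⟨fun h' => Or.inr ⟨?_, h'⟩, ?_⟩
    · rintro ⟨q, hq, rfl⟩; exact h ⟨_, hq.1⟩
    · rintro (⟨q, hq, rfl⟩ | h')
      exacts [absurd ⟨_, hq.1⟩ h, h'.2]

theorem meas_clm {X : Type} [MeasurableSpace X] {A : X → E →L[ℝ] F}
    (h : ∀ v, Measurable fun x => A x v) : Measurable A := by
  let b := finBasis ℝ E
  let Φ := (b.constr ℝ (M' := F)).trans LinearMap.toContinuousLinearMap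
  have : A = fun x => Φ fun i => A x (b i) := by
    funext x
    exact ContinuousLinearMap.coe_injective (b.ext fun i => by simp [Φ])
  rw [this]
  exact Φ.toLinearMap.continuous_of_finiteDimensional.measurable.comp
    (measurable_pi_lambda _ fun i => h _)

theorem meas_ms' {X : Type} [MeasurableSpace X] {A : X → E →L[ℝ] F} {b : X → F}
    (h : ∀ v, Measurable fun x => A x v) (hb : Measurable b) : Measurable fun x => ms (A x) (b x) :=
  meas_ms.comp ((meas_clm h).prodMk hb)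

theorem meas_proj {X : Type} [MeasurableSpace X] {A : X → E →L[ℝ] F}
    (h : ∀ v, Measurable fun x => A x v) (v : E) :
    Measurable fun x => (LinearMap.ker (A x : E →ₗ[ℝ] F)).starProjection v := by
  convert (measurable_const (a := v)).sub (meas_ms' h (h v)) using 2 with x
  rw [Pi.sub_apply, (isMs_proj _ _).eq, sub_sub_cancel]

theorem meas_alt {X H : Type} [MeasurableSpace X] [NormedAddCommGroup H] [NormedSpace ℝ H]
    [FiniteDimensional ℝ H] [MeasurableSpace H] [BorelSpace H] {k : ℕ}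
    {α : X → H [⋀^Fin k]→ₗ[ℝ] ℝ} (hα : ∀ v, Measurable fun x => α x v) {v : X → Fin k → H}
    (hv : ∀ j, Measurable fun x => v x j) : Measurable fun x => α x (v x) := by
  let b := finBasis ℝ H
  have h1 : ∀ x, α x (v x) =
      ∑ r : Fin k → Fin _, (∏ j, b.coord (r j) (v x j)) * α x fun j => b (r j) := fun x => by
    have := (α x).toMultilinearMap.map_sum fun j i => b.repr (v x j) i • b i
    simp only [b.sum_repr, MultilinearMap.map_smul_univ] at this
    exact this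
  simp only [h1]
  exact Finset.measurable_sum _ fun r _ => (Finset.measurable_prod _ fun j _ =>
    (b.coord (r j)).continuous_of_finiteDimensional.measurable.comp (hv j)).mul (hα _)

end Pool.Agent.Lib.MP_d52947_gt
end

-- part Pool.Agent.Lib.MP_d52947_gt.ModelA
section

/-! Polyhedral cones, critical points and joint eigenspaces. -/

set_option linter.unusedSectionVars false

namespace Pool.Agent.Lib.MP_d52947_gt.Model

open Filter Topology Module
open scoped RealInnerProductSpace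

section cone

variable {F E ι : Type} [NormedAddCommGroup F] [NormedSpace ℝ F] [FiniteDimensional ℝ F]
  [NormedAddCommGroup E] [NormedSpace ℝ E] [FiniteDimensional ℝ E]

theorem cone (π : F →ₗ[ℝ] E) (f : ι → F →ₗ[ℝ] ℝ) {W : Set F} (hW : W ∈ 𝓝 (0 : F))
    (J : Finset ι) (T : Submodule ℝ F) :
    ∀ᶠ y in 𝓝 (0 : E), ∀ k ∈ T, (∀ i ∈ J, 0 ≤ f i k) → π k = y →
      ∃ k' ∈ T, (∀ i ∈ J, 0 ≤ f i k') ∧ k' ∈ W ∧ π k' = y := by
  classical
  induction J using Finset.strongInduction generalizing T with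
  | H J ih =>
    by_cases h : ∃ g ∈ T, π g = 0 ∧ ∃ i ∈ J, 0 < f i g
    · obtain ⟨g, hg, g0, i1, hi1, hpos⟩ := h
      have key := (Filter.eventually_all_finset J).2 fun i hi =>
        ih (J.erase i) (Finset.erase_ssubset hi) (T ⊓ LinearMap.ker (f i))
      filter_upwards [key] with y hy k hk hf e
      obtain ⟨i0, hi0, hmin⟩ := (J.filter fun i => 0 < f i g).exists_min_image
        (fun i => f i k / f i g) ⟨i1, Finset.mem_filter.2 ⟨hi1, hpos⟩⟩
      obtain ⟨a1, a2⟩ := Finset.mem_filter.1 hi0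
      have t0 : 0 ≤ f i0 k / f i0 g := div_nonneg (hf i0 a1) a2.le
      obtain ⟨k', b1, b2, b3, b4⟩ := hy i0 a1 (k - (f i0 k / f i0 g) • g)
        ⟨T.sub_mem hk (T.smul_mem _ hg), by
          simp only [SetLike.mem_coe, LinearMap.mem_ker, map_sub, map_smul, smul_eq_mul]
          rw [div_mul_cancel₀ _ a2.ne', sub_self]⟩
        (fun i hi => by
          have hi' := Finset.mem_of_mem_erase hi
          rw [map_sub, map_smul, smul_eq_mul, sub_nonneg]
          by_cases c : 0 < f i g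
          · exact (le_div_iff₀ c).1 (hmin i (Finset.mem_filter.2 ⟨hi', c⟩))
          · exact (mul_nonpos_of_nonneg_of_nonpos t0 (not_lt.1 c)).trans (hf i hi'))
        (by rw [map_sub, map_smul, g0, smul_zero, sub_zero, e])
      refine ⟨k', b1.1, fun i hi => ?_, b3, b4⟩
      by_cases c : i = i0
      · rw [c]
        exact (LinearMap.mem_ker.1 b1.2).ge
      · exact b2 i (Finset.mem_erase.2 ⟨c, hi⟩)
    · push Not at h
      obtain ⟨σ0, h0⟩ := (π ∘ₗ T.subtype).rangeRestrict.exists_rightInverse_of_surjective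
        (LinearMap.range_rangeRestrict _)
      obtain ⟨σ, hσ⟩ := LinearMap.exists_extend σ0
      have hc : Continuous (T.subtype ∘ₗ σ) := LinearMap.continuous_of_finiteDimensional _
      have ht : ∀ᶠ y in 𝓝 (0 : E), (T.subtype ∘ₗ σ) y ∈ W :=
        hc.continuousAt.preimage_mem_nhds (by rwa [map_zero])
      filter_upwards [ht] with y hy k hk hf e
      have e1 : π (σ y) = y := by
        have m : y ∈ LinearMap.range (π ∘ₗ T.subtype) := ⟨⟨k, hk⟩, e⟩
        have e2 : σ y = σ0 ⟨y, m⟩ := LinearMap.congr_fun hσ ⟨y, m⟩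
        rw [e2]
        exact congrArg Subtype.val (LinearMap.congr_fun h0 ⟨y, m⟩)
      refine ⟨σ y, (σ y).2, fun i hi => ?_, hy, e1⟩
      have := h (k - σ y) (T.sub_mem hk (σ y).2) (by rw [map_sub, e, e1, sub_self]) i hi
      rw [map_sub, sub_nonpos] at this
      exact (hf i hi).trans this

theorem poly_open [Fintype ι] (π : F →ₗ[ℝ] E) (f : ι → F →ₗ[ℝ] ℝ) (T : Submodule ℝ F) {a : F}
    (ha : a ∈ T) (hf : ∀ i, 0 ≤ f i a) {W : Set F} (hW : W ∈ 𝓝 a) :
    ∀ᶠ y in 𝓝 (π a), ∀ k ∈ T, (∀ i, 0 ≤ f i k) → π k = y →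
      ∃ k' ∈ T, (∀ i, 0 ≤ f i k') ∧ k' ∈ W ∧ π k' = y := by
  classical
  have h1 : ∀ᶠ k in 𝓝 a, k ∈ W ∧ ∀ i, f i a ≠ 0 → 0 < f i k := by
    refine Filter.Eventually.and hW (Filter.eventually_all.2 fun i => ?_)
    by_cases c : f i a = 0
    · simp [c]
    · exact (((f i).continuous_of_finiteDimensional.tendsto a).eventually
        (lt_mem_nhds (lt_of_le_of_ne (hf i) (Ne.symm c)))).mono fun k hk _ => hk
  have h2 : ∀ᶠ k in 𝓝 (0 : F), a + k ∈ W ∧ ∀ i, f i a ≠ 0 → 0 < f i (a + k) :=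
    (Continuous.tendsto' (continuous_const.add continuous_id) 0 a (by simp)).eventually h1
  have h3 := cone π f h2 (Finset.univ.filter fun i => f i a = 0) T
  have h4 : Tendsto (fun y => y - π a) (𝓝 (π a)) (𝓝 0) :=
    Continuous.tendsto' (continuous_id.sub continuous_const) _ _ (by simp)
  filter_upwards [h4.eventually h3] with y hy k hk hk' e
  obtain ⟨k', b1, b2, b3, b4⟩ := hy (k - a) (T.sub_mem hk ha) (fun i hi => by
    rw [map_sub, (Finset.mem_filter.1 hi).2, sub_zero]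
    exact hk' i) (by rw [map_sub, e])
  refine ⟨a + k', T.add_mem ha b1, fun i => ?_, b3.1, by rw [map_add, b4, add_sub_cancel]⟩
  by_cases c : f i a = 0
  · rw [map_add, c, zero_add]
    exact b2 i (Finset.mem_filter.2 ⟨Finset.mem_univ _, c⟩)
  · exact (b3.2 i c).le

end cone

theorem crit_comp {V : Type} [NormedAddCommGroup V] [NormedSpace ℝ V] {g : V → ℝ} {ψ : V → V}
    {s : Set V} {c : NNReal} {v : V} (hs : s ∈ 𝓝 v) (hψ : LipschitzOnWith c ψ s)
    (hg : HasFDerivAt g (0 : V →L[ℝ] ℝ) (ψ v)) : HasFDerivAt (g ∘ ψ) (0 : V →L[ℝ] ℝ) v := by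
  rw [hasFDerivAt_iff_isLittleO] at hg ⊢
  simp only [zero_apply, sub_zero] at hg ⊢
  have h1 : Tendsto ψ (𝓝 v) (𝓝 (ψ v)) := hψ.continuousOn.continuousAt hs
  refine (hg.comp_tendsto h1).trans_isBigO (Asymptotics.IsBigO.of_bound c ?_)
  filter_upwards [hs] with w hw
  simpa [dist_eq_norm] using hψ.dist_le_mul w hw v (mem_of_mem_nhds hs)

section decomp

variable {V E : Type} [NormedAddCommGroup V] [InnerProductSpace ℝ V] [FiniteDimensional ℝ V]
  [NormedAddCommGroup E] [InnerProductSpace ℝ E] [FiniteDimensional ℝ E]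

theorem decomp (S : Submodule ℝ E) (A : S →ₗ[ℝ] V →L[ℝ] V)
    (hskew : ∀ θ x y, ⟪A θ x, y⟫ = -⟪x, A θ y⟫) (hcomm : ∀ θ θ' x, A θ (A θ' x) = A θ' (A θ x))
    (ω : V →L[ℝ] V →L[ℝ] ℝ) (l : V →L[ℝ] E) (hlA : ∀ θ v, l (A θ v) = 0)
    (hsk : ∀ θ u u', ω (A θ u) u' = -ω u' (A θ u))
    (hsym : ∀ θ u u', ω (A θ u) u' = ω (A θ u') u) :
    ∃ (ι : Type) (_ : Fintype ι) (Vs : ι → Submodule ℝ V) (lam : ι → E),
      (∀ i, 1 < Module.rank ℝ (Vs i)) ∧ (∀ i j, i ≠ j → Vs i ≤ (Vs j)ᗮ) ∧ (∀ i, lam i ∈ S) ∧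
      (∀ i, ∀ y ∈ Vs i, l y = 0) ∧
      ∀ (θ : S) v, ω (A θ v) v = ∑ i, ‖(Vs i).starProjection v‖ ^ 2 * ⟪(θ : E), lam i⟫ := by
  classical
  let Ω : V →ₗ[ℝ] V := (InnerProductSpace.continuousLinearMapOfBilin ω).toLinearMap
  have hΩ : ∀ u u', ⟪Ω u, u'⟫ = ω u u' := fun u u' =>
    InnerProductSpace.continuousLinearMapOfBilin_apply ω u u'
  have hc : ∀ θ u, Ω (A θ u) = A θ (Ω u) := fun θ u => ext_inner_right ℝ fun u' => by
    rw [hΩ, hskew, hΩ, hsym, hsk]
  let H : S → V →ₗ[ℝ] V := fun θ => Ω ∘ₗ (A θ).toLinearMap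
  have hH : ∀ θ u, H θ u = Ω (A θ u) := fun _ _ => rfl
  have hs : ∀ θ, (H θ).IsSymmetric := fun θ u u' => by
    rw [real_inner_comm, real_inner_comm (H θ u'), hH, hH, real_inner_comm, hΩ, hΩ, hsym]
  have hAH : ∀ θ θ' u, H θ (A θ' u) = A θ' (H θ u) := fun θ θ' u => by
    rw [hH, hH, hcomm, hc]
  have hΩH : ∀ θ u, H θ (Ω u) = Ω (H θ u) := fun θ u => by rw [hH, hH, ← hc]
  have hcm : Pairwise (Function.onFun Commute H) := fun θ θ' _ => LinearMap.ext fun u => by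
    change H θ (Ω (A θ' u)) = H θ' (Ω (A θ u))
    rw [hΩH, hΩH, hH, hH, hcomm]
  let Vχ : (S → ℝ) → Submodule ℝ V := fun χ => ⨅ θ, End.eigenspace (H θ) (χ θ)
  have hV : ∀ χ y, y ∈ Vχ χ ↔ ∀ θ, H θ y = χ θ • y := fun χ y => by
    simp only [Vχ, Submodule.mem_iInf, End.mem_eigenspace_iff]
  have horth := LinearMap.IsSymmetric.orthogonalFamily_iInf_eigenspaces hs
  have htop : ⨆ χ, Vχ χ = ⊤ := LinearMap.IsSymmetric.iSup_iInf_eq_top_of_commute hs hcm
  have hfin : {χ | χ ≠ 0 ∧ Vχ χ ≠ ⊥}.Finite :=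
    (Submodule.finite_ne_bot_of_iSupIndep horth.independent).subset fun χ h => h.2
  have ho : ∀ χ χ', χ ≠ χ' → Vχ χ ≤ (Vχ χ')ᗮ := fun χ χ' h => horth.isOrtho h
  have hlam : ∀ i : {χ | χ ≠ 0 ∧ Vχ χ ≠ ⊥}, ∃ e ∈ S, ∀ θ : S, ⟪(θ : E), e⟫ = i.1 θ := by
    rintro ⟨χ, -, h2⟩
    obtain ⟨y, hy, y0⟩ := Submodule.exists_mem_ne_zero_of_ne_bot h2
    let g : S →ₗ[ℝ] ℝ :=
      { toFun := fun θ => ω (A θ y) y / ⟪y, y⟫
        map_add' := fun a b => by simp [add_div]
        map_smul' := fun a b => by simp [mul_div_assoc] }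
    obtain ⟨e, he⟩ := (InnerProductSpace.toDual ℝ S).surjective (LinearMap.toContinuousLinearMap g)
    refine ⟨e, e.2, fun θ => ?_⟩
    have e1 : ⟪e, θ⟫ = ω (A θ y) y / ⟪y, y⟫ := congrArg (fun z : StrongDual ℝ S => z θ) he
    rw [real_inner_comm, ← Submodule.coe_inner, e1, ← hΩ, ← hH, (hV χ y).1 hy,
      real_inner_smul_left, mul_div_cancel_right₀ _ (inner_self_ne_zero.2 y0)]
  choose lam hl1 hl2 using hlam
  have := hfin.fintype
  refine ⟨{χ | χ ≠ 0 ∧ Vχ χ ≠ ⊥}, this, fun i => Vχ i.1, lam, ?_,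
    fun i j h => ho _ _ fun e => h (Subtype.ext e), hl1, ?_, fun θ v => ?_⟩
  · rintro ⟨χ, h1, h2⟩
    obtain ⟨y, hy, y0⟩ := Submodule.exists_mem_ne_zero_of_ne_bot h2
    obtain ⟨θ, hθ⟩ := Function.ne_iff.1 h1
    have m : A θ y ∈ Vχ χ := (hV χ _).2 fun θ' => by rw [hAH, (hV χ y).1 hy, map_smul]
    have a0 : A θ y ≠ 0 := fun e => by
      have := (hV χ y).1 hy θ
      rw [hH, e, map_zero] at this
      exact (smul_ne_zero hθ y0) this.symm
    have a1 : ⟪A θ y, y⟫ = 0 := by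
      have := hskew θ y y
      rw [real_inner_comm] at this
      rw [real_inner_comm]
      linarith
    have li : LinearIndependent ℝ ![(⟨y, hy⟩ : Vχ χ), ⟨A θ y, m⟩] := by
      refine linearIndependent_of_ne_zero_of_inner_eq_zero (fun i => ?_) (fun i j hij => ?_)
      · fin_cases i
        · exact fun e => y0 (congrArg Subtype.val e)
        · exact fun e => a0 (congrArg Subtype.val e)
      · fin_cases i <;> fin_cases j
        · exact absurd rfl hij
        · exact (real_inner_comm _ _).trans a1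
        · exact a1
        · exact absurd rfl hij
    have := li.cardinal_lift_le_rank
    simp only [Cardinal.mk_fintype, Fintype.card_fin, Cardinal.lift_uzero] at this
    exact lt_of_lt_of_le (by norm_num) this
  · rintro ⟨χ, h1, h2⟩ y hy
    obtain ⟨θ, hθ⟩ := Function.ne_iff.1 h1
    have e := hlA θ (Ω y)
    rw [← hc, ← hH, (hV χ y).1 hy, map_smul] at e
    exact (smul_eq_zero.1 e).resolve_left hθ
  · have key : ∀ v ∈ ⨆ χ, Vχ χ, H θ v =
        ∑ i : {χ | χ ≠ 0 ∧ Vχ χ ≠ ⊥}, i.1 θ • (Vχ i.1).starProjection v := by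
      intro v hv
      induction hv using Submodule.iSup_induction' with
      | zero => simp
      | add x y _ _ hx hy => simp only [map_add, smul_add, Finset.sum_add_distrib, hx, hy]
      | mem χ y hy =>
        have z : ∀ i : {χ | χ ≠ 0 ∧ Vχ χ ≠ ⊥}, i.1 ≠ χ → i.1 θ • (Vχ i.1).starProjection y = 0 :=
          fun i hi => by
            rw [(Submodule.starProjection_apply_eq_zero_iff _).2 (ho _ _ hi.symm hy), smul_zero]
        rw [(hV χ y).1 hy]
        by_cases c : χ ≠ 0 ∧ Vχ χ ≠ ⊥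
        · rw [Finset.sum_eq_single ⟨χ, c⟩ (fun i _ hi => z i fun e => hi (Subtype.ext e))
            (fun h => absurd (Finset.mem_univ _) h), Submodule.starProjection_eq_self_iff.2 hy]
        · rw [Finset.sum_eq_zero fun i _ => z i fun e => c (e ▸ i.2)]
          rcases not_and_or.1 c with c | c
          · rw [not_not.1 c]
            simp
          · rw [not_not.1 c, Submodule.mem_bot] at hy
            rw [hy, smul_zero]
    rw [← hΩ, ← hH, key v (htop ▸ Submodule.mem_top), sum_inner]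
    refine Finset.sum_congr rfl fun i _ => ?_
    rw [real_inner_smul_left, hl2, mul_comm]
    congr 1
    have := Submodule.starProjection_inner_eq_zero (K := Vχ i.1) v _
      ((Vχ i.1).starProjection_apply_mem v)
    rw [inner_sub_left, sub_eq_zero, real_inner_self_eq_norm_sq] at this
    rw [real_inner_comm, this]

end decomp

end Pool.Agent.Lib.MP_d52947_gt.Model
end
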