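import Mathlib
import Pool.Agent.Lib.MP_d52947_gt.Defs
import Pool.Agent.Lib.MP_d52947_gt.ModelA

-- part Pool.Agent.Lib.MP_d52947_gt.Ctx
section

/-!
Abstract context: a compact connected Lie group `K` with Lie algebra `L` (with an invariant inner
product), and an ambient finite-dimensional normed algebra `A`.
-/

namespace Pool.Agent.Lib.MP_d52947_gt

open MeasureTheory Topology
open scoped RealInnerProductSpace

/-- Lie group data. -/
structure Ctx (L : Type) [NormedAddCommGroup L] [InnerProductSpace ℝ L]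
    (K : Type) [Group K] [TopologicalSpace K] where
  ad : L →L[ℝ] L →L[ℝ] L
  ad_self : ∀ x, ad x x = 0
  ad_ad : ∀ x y, ad (ad x y) = ad x * ad y - ad y * ad x
  inner_ad : ∀ x y z, ⟪ad x y, z⟫ = -⟪y, ad x z⟫
  Ad : K →* (L →L[ℝ] L)
  inner_Ad : ∀ k x y, ⟪Ad k x, Ad k y⟫ = ⟪x, y⟫
  Ad_ad : ∀ k x y, Ad k (ad x y) = ad (Ad k x) (Ad k y)
  cont_Ad : Continuous Ad
  ex : L → K
  cont_ex : Continuous ex
  ex_zero : ex 0 = 1
  ex_add : ∀ x y, ad x y = 0 → ex (x + y) = ex x * ex y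
  Ad_ex : ∀ x, Ad (ex x) = NormedSpace.exp (ad x)
  ex_conj : ∀ k x, k * ex x * k⁻¹ = ex (Ad k x)
  ex_nhds : ∀ U ∈ 𝓝 (0 : L), ex '' U ∈ 𝓝 (1 : K)
  ex_inj : ∃ U ∈ 𝓝 (0 : L), Set.InjOn ex U

/-- Lie group data with an embedding in a normed algebra. -/
structure Amb (L : Type) [NormedAddCommGroup L] [InnerProductSpace ℝ L]
    (K : Type) [Group K] [TopologicalSpace K]
    (A : Type) [NormedRing A] [NormedAlgebra ℝ A] extends Ctx L K where
  ι : K →* A
  ι_inj : Function.Injective ι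
  cont_ι : Continuous ι
  j : L →L[ℝ] A
  P : A →L[ℝ] L
  P_j : ∀ x, P (j x) = x
  tr : A →L[ℝ] A
  tr_ι : ∀ k, tr (ι k) = ι k⁻¹
  ι_ex : ∀ x, ι (ex x) = NormedSpace.exp (j x)
  j_Ad : ∀ k x, j (Ad k x) = ι k * j x * ι k⁻¹
  j_ad : ∀ x y, j (ad x y) = j x * j y - j y * j x

namespace Ctx

variable {L : Type} [NormedAddCommGroup L] [InnerProductSpace ℝ L] [FiniteDimensional ℝ L]
  {K : Type} [Group K] [TopologicalSpace K] (C : Ctx L K)

/-- The centre of the Lie algebra. -/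
def Z : Submodule ℝ L := LinearMap.ker (C.ad : L →ₗ[ℝ] L →L[ℝ] L)

/-- Fixed vectors of `Ad k`. -/
def Fix (k : K) : Submodule ℝ L := LinearMap.ker ((1 - C.Ad k : L →L[ℝ] L) : L →ₗ[ℝ] L)

/-- Orthogonal projection on `Fix k`. -/
noncomputable def pj (k : K) : L →L[ℝ] L := (C.Fix k).starProjection

/-- The rank: least dimension of `Fix k`. -/
noncomputable def rank : ℕ := ⨅ k : K, Module.finrank ℝ (C.Fix k)

/-- Regular elements. -/
def Reg (k : K) : Prop := Module.finrank ℝ (C.Fix k) = C.rank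

/-- Orthogonal decomposition of the derived algebra in simple ideals. -/
structure Ideals (C : Ctx L K) where
  N : ℕ
  p : Fin N → L →L[ℝ] L
  p_symm : ∀ i x y, ⟪p i x, y⟫ = ⟪x, p i y⟫
  p_idem : ∀ i x, p i (p i x) = p i x
  p_orth : ∀ i i', i ≠ i' → ∀ x, p i (p i' x) = 0
  p_Z : ∀ i, ∀ x ∈ C.Z, p i x = 0
  p_sum : ∀ x, x - ∑ i, p i x ∈ C.Z
  p_ad : ∀ i x y, p i (C.ad x y) = C.ad x (p i y)
  p_Ad : ∀ i k x, p i (C.Ad k x) = C.Ad k (p i x)
  simple : ∀ i (W : Submodule ℝ L), (∀ x ∈ W, p i x = x) → (∀ x, ∀ y ∈ W, C.ad x y ∈ W) →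
    W = ⊥ ∨ ∀ x, p i x ∈ W

variable [MeasurableSpace L] [BorelSpace L]

/-- A property of tuples holds generically: almost everywhere in every exponential chart. -/
def Generic {G : Type} [Fintype G] (P : (G → K) → Prop) : Prop :=
  ∀ h : G → K, ∀ᵐ ξ : G → L, P fun i => C.ex (ξ i) * h i

end Ctx

end Pool.Agent.Lib.MP_d52947_gt
end

-- part Pool.Agent.Lib.MP_d52947_gt.Fox
section

/-! Fox calculus and the pairing on cocycles. -/

namespace Pool.Agent.Lib.MP_d52947_gt

open scoped RealInnerProductSpace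

/-- Central extension attached to a normalized 2-cocycle. -/
structure CExt {Γ : Type} [Group Γ] (σ : Γ → Γ → ℝ) (h : IsTwoCocycle σ) where
  t : ℝ
  w : Γ

theorem IsTwoCocycle.one_left {Γ : Type} [Group Γ] {σ : Γ → Γ → ℝ} (h : IsTwoCocycle σ) (y : Γ) :
    σ 1 y = 0 := by
  have := h.2 1 1 y
  simp only [one_mul, h.1] at this
  linarith

theorem IsTwoCocycle.one_right {Γ : Type} [Group Γ] {σ : Γ → Γ → ℝ} (h : IsTwoCocycle σ) (y : Γ) :
    σ y 1 = 0 := by
  have := h.2 y 1 1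
  simp only [mul_one, h.1] at this
  linarith

instance {Γ : Type} [Group Γ] (σ : Γ → Γ → ℝ) (h : IsTwoCocycle σ) : Mul (CExt σ h) :=
  ⟨fun p q => ⟨p.t + q.t + σ p.w q.w, p.w * q.w⟩⟩
instance {Γ : Type} [Group Γ] (σ : Γ → Γ → ℝ) (h : IsTwoCocycle σ) : One (CExt σ h) := ⟨⟨0, 1⟩⟩
instance {Γ : Type} [Group Γ] (σ : Γ → Γ → ℝ) (h : IsTwoCocycle σ) : Inv (CExt σ h) :=
  ⟨fun p => ⟨-p.t - σ p.w⁻¹ p.w, p.w⁻¹⟩⟩

theorem CExt.mul_def {Γ : Type} [Group Γ] {σ : Γ → Γ → ℝ} {h : IsTwoCocycle σ} (p q : CExt σ h) :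
    p * q = ⟨p.t + q.t + σ p.w q.w, p.w * q.w⟩ := rfl

instance {Γ : Type} [Group Γ] (σ : Γ → Γ → ℝ) (h : IsTwoCocycle σ) : Group (CExt σ h) :=
  Group.ofLeftAxioms
    (fun a b c => by
      simp only [CExt.mul_def, CExt.mk.injEq, mul_assoc, and_true]
      have := h.2 a.w b.w c.w
      linarith)
    (fun a => by
      change (⟨0 + a.t + σ 1 a.w, 1 * a.w⟩ : CExt σ h) = a
      rw [h.one_left]; cases a; simp)
    (fun a => by
      change (⟨-a.t - σ a.w⁻¹ a.w + a.t + σ a.w⁻¹ a.w, a.w⁻¹ * a.w⟩ : CExt σ h) = ⟨0, 1⟩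
      simp only [inv_mul_cancel, CExt.mk.injEq, and_true]
      ring)

theorem exists_prim {G : Type} {σ : FreeGroup G → FreeGroup G → ℝ} (h : IsTwoCocycle σ) :
    ∃ γ : FreeGroup G → ℝ, ∀ v w, γ (v * w) = γ v + γ w + σ v w := by
  let s : FreeGroup G →* CExt σ h := FreeGroup.lift fun i => ⟨0, FreeGroup.of i⟩
  let p : CExt σ h →* FreeGroup G := ⟨⟨fun q => q.w, rfl⟩, fun _ _ => rfl⟩
  have hp : p.comp s = MonoidHom.id _ := FreeGroup.ext_hom _ _ fun i => by simp [s, p]
  have hw : ∀ v, (s v).w = v := fun v => DFunLike.congr_fun hp v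
  refine ⟨fun v => (s v).t, fun v w => ?_⟩
  simp only [map_mul, CExt.mul_def, hw]

variable {g : ℕ}

/-- `∏_{j<i} [a_j,b_j]` in the free group. -/
def preF (i : ℕ) : FreeGroup (Gen g) := ((List.ofFn (hcomm (g := g))).take i).prod

/-- the fundamental class evaluated on a cochain of the free group -/
def fundF (σ : FreeGroup (Gen g) → FreeGroup (Gen g) → ℝ) : ℝ :=
  ∑ i : Fin g,
    (σ (preF i) (.of (i, false)) + σ (preF i * .of (i, false)) (.of (i, true))
      + σ (preF i * .of (i, false) * .of (i, true)) (FreeGroup.of (i, false))⁻¹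
      + σ (preF i * .of (i, false) * .of (i, true) * (FreeGroup.of (i, false))⁻¹)
          (FreeGroup.of (i, true))⁻¹
      - σ (.of (i, false)) (FreeGroup.of (i, false))⁻¹
      - σ (.of (i, true)) (FreeGroup.of (i, true))⁻¹)

theorem fund_eq (σ : Surf g → Surf g → ℝ) :
    fund σ = fundF fun v w => σ (PresentedGroup.mk _ v) (PresentedGroup.mk _ w) := by
  simp only [fund, fundF, map_mul, map_inv]
  rfl

theorem preF_succ (i : Fin g) : preF (g := g) (i + 1) = preF i * hcomm i := by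
  simp only [preF]
  rw [List.take_add_one, List.prod_append]
  simp

theorem preF_zero : preF (g := g) 0 = 1 := by simp [preF]

theorem preF_last : preF (g := g) g = relator g := by
  simp only [preF, relator]
  rw [List.take_of_length_le (by simp)]

theorem fundF_eq {σ : FreeGroup (Gen g) → FreeGroup (Gen g) → ℝ} (h1 : σ 1 1 = 0)
    {γ : FreeGroup (Gen g) → ℝ} (hγ : ∀ v w, γ (v * w) = γ v + γ w + σ v w) :
    fundF σ = γ (relator g) := by
  have h0 : γ 1 = 0 := by
    have := hγ 1 1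
    simp only [mul_one, h1] at this
    linarith
  have hs := Finset.sum_range_sub (fun i => γ (preF (g := g) i)) g
  rw [preF_last, preF_zero, h0, sub_zero, Finset.sum_range] at hs
  rw [← hs, fundF]
  refine Finset.sum_congr rfl fun i _ => ?_
  rw [preF_succ, hcomm]
  have e1 := hγ (.of (i, false)) (FreeGroup.of (i, false))⁻¹
  have e2 := hγ (.of (i, true)) (FreeGroup.of (i, true))⁻¹
  rw [mul_inv_cancel, h0] at e1 e2
  simp only [← mul_assoc]
  rw [hγ, hγ, hγ, hγ]
  linarith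

theorem fundF_comp {σ : FreeGroup (Gen g) → FreeGroup (Gen g) → ℝ} (h : IsTwoCocycle σ)
    (φ : FreeGroup (Gen g) →* FreeGroup (Gen g)) (hφ : φ (relator g) = relator g) :
    fundF (fun v w => σ (φ v) (φ w)) = fundF σ := by
  obtain ⟨γ, hγ⟩ := exists_prim h
  rw [fundF_eq h.1 hγ, fundF_eq (γ := fun v => γ (φ v)) (by simpa using h.1)
    (fun v w => by simp only [map_mul, hγ]), hφ]

namespace Ctx

variable {L : Type} [NormedAddCommGroup L] [InnerProductSpace ℝ L] [FiniteDimensional ℝ L]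
  {K : Type} [Group K] [TopologicalSpace K] (C : Ctx L K)

theorem Ad_mul_apply (k k' : K) (x : L) : C.Ad (k * k') x = C.Ad k (C.Ad k' x) := by
  rw [map_mul]; rfl

@[simp] theorem Ad_one_apply (x : L) : C.Ad 1 x = x := by rw [map_one]; rfl

@[simp] theorem Ad_inv_Ad (k : K) (x : L) : C.Ad k⁻¹ (C.Ad k x) = x := by
  rw [← Ad_mul_apply, inv_mul_cancel, Ad_one_apply]

@[simp] theorem Ad_Ad_inv (k : K) (x : L) : C.Ad k (C.Ad k⁻¹ x) = x := by
  rw [← Ad_mul_apply, mul_inv_cancel, Ad_one_apply]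

theorem inner_Ad_left (k : K) (x y : L) : ⟪C.Ad k x, y⟫ = ⟪x, C.Ad k⁻¹ y⟫ := by
  rw [← C.inner_Ad k x, Ad_Ad_inv]

theorem inner_Ad_right (k : K) (x y : L) : ⟪x, C.Ad k y⟫ = ⟪C.Ad k⁻¹ x, y⟫ := by
  rw [C.inner_Ad_left, inv_inv]

theorem mem_Fix {k : K} {x : L} : x ∈ C.Fix k ↔ C.Ad k x = x := by
  simp only [Fix, LinearMap.mem_ker, ContinuousLinearMap.coe_coe, ContinuousLinearMap.sub_apply,
    ContinuousLinearMap.one_apply, sub_eq_zero]
  exact eq_comm

theorem Fix_inv (k : K) : C.Fix k⁻¹ = C.Fix k := by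
  ext x
  simp only [mem_Fix]
  constructor
  · intro h
    conv_lhs => rw [← h]
    simp
  · intro h
    conv_lhs => rw [← h]
    simp

/-- the semidirect product `L ⋊ K` -/
structure SD (C : Ctx L K) where
  v : L
  k : K

instance : Mul C.SD := ⟨fun p q => ⟨p.v + C.Ad p.k q.v, p.k * q.k⟩⟩
instance : One C.SD := ⟨⟨0, 1⟩⟩
instance : Inv C.SD := ⟨fun p => ⟨-C.Ad p.k⁻¹ p.v, p.k⁻¹⟩⟩

theorem SD.mul_def (p q : C.SD) : p * q = ⟨p.v + C.Ad p.k q.v, p.k * q.k⟩ := rfl

instance : Group C.SD :=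
  Group.ofLeftAxioms
    (fun a b c => by
      simp only [SD.mul_def, SD.mk.injEq, mul_assoc, and_true, map_add, Ad_mul_apply, add_assoc])
    (fun a => by
      change (⟨0 + C.Ad 1 a.v, 1 * a.k⟩ : C.SD) = a
      cases a; simp)
    (fun a => by
      change (⟨-C.Ad a.k⁻¹ a.v + C.Ad a.k⁻¹ a.v, a.k⁻¹ * a.k⟩ : C.SD) = ⟨0, 1⟩
      simp)

variable {G : Type}

/-- value of a word -/
abbrev val (x : G → K) : FreeGroup G →* K := FreeGroup.lift x

/-- the cocycle on the free group with given values on the generators -/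
noncomputable def cv0 (x : G → K) (u : G → L) (w : FreeGroup G) : L :=
  (FreeGroup.lift (fun i => (⟨u i, x i⟩ : C.SD)) w).v

theorem cv0_mul (x : G → K) (u : G → L) (v w : FreeGroup G) :
    C.cv0 x u (v * w) = C.cv0 x u v + C.Ad (val x v) (C.cv0 x u w) := by
  let p : C.SD →* K := ⟨⟨fun q => q.k, rfl⟩, fun _ _ => rfl⟩
  have hp : p.comp (FreeGroup.lift (fun i => (⟨u i, x i⟩ : C.SD))) = val x :=
    FreeGroup.ext_hom _ _ fun i => by simp [p]
  have hw : (FreeGroup.lift (fun i => (⟨u i, x i⟩ : C.SD)) v).k = val x v :=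
    DFunLike.congr_fun hp v
  simp only [cv0, map_mul, SD.mul_def, hw]

theorem coc_one {x : G → K} {f : FreeGroup G → L}
    (hf : ∀ v w, f (v * w) = f v + C.Ad (val x v) (f w)) : f 1 = 0 := by
  have := hf 1 1
  simpa using this

theorem coc_inv {x : G → K} {f : FreeGroup G → L}
    (hf : ∀ v w, f (v * w) = f v + C.Ad (val x v) (f w)) (w : FreeGroup G) :
    f w⁻¹ = -C.Ad (val x w)⁻¹ (f w) := by
  have := hf w⁻¹ w
  rw [inv_mul_cancel, C.coc_one hf, map_inv] at this
  exact eq_neg_of_add_eq_zero_left this.symm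

theorem coc_ext {x : G → K} {f f' : FreeGroup G → L}
    (hf : ∀ v w, f (v * w) = f v + C.Ad (val x v) (f w))
    (hf' : ∀ v w, f' (v * w) = f' v + C.Ad (val x v) (f' w))
    (h : ∀ i, f (.of i) = f' (.of i)) (w : FreeGroup G) : f w = f' w := by
  induction w using FreeGroup.induction_on with
  | C1 => rw [C.coc_one hf, C.coc_one hf']
  | of i => exact h i
  | inv_of i hi => rw [C.coc_inv hf, C.coc_inv hf', hi]
  | mul v w hv hw => rw [hf, hf', hv, hw]

theorem cv0_of (x : G → K) (u : G → L) (i : G) : C.cv0 x u (.of i) = u i := by simp [cv0]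

/-- Fox derivative: evaluation at `w` of the cocycle with values `u` on the generators -/
noncomputable def cv (x : G → K) (w : FreeGroup G) : (G → L) →ₗ[ℝ] L where
  toFun u := C.cv0 x u w
  map_add' u v := C.coc_ext (x := x) (f := C.cv0 x (u + v))
    (f' := fun w => C.cv0 x u w + C.cv0 x v w) (C.cv0_mul x _)
    (fun a b => by simp only [cv0_mul, map_add]; abel) (fun i => by simp [cv0_of]) w
  map_smul' c u := C.coc_ext (x := x) (f := C.cv0 x (c • u))
    (f' := fun w => c • C.cv0 x u w) (C.cv0_mul x _)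
    (fun a b => by simp only [cv0_mul, map_smul, smul_add]) (fun i => by simp [cv0_of]) w

theorem cv_mul (x : G → K) (u : G → L) (v w : FreeGroup G) :
    C.cv x (v * w) u = C.cv x v u + C.Ad (val x v) (C.cv x w u) := C.cv0_mul x u v w

@[simp] theorem cv_of (x : G → K) (u : G → L) (i : G) : C.cv x (.of i) u = u i := C.cv0_of x u i

@[simp] theorem cv_one (x : G → K) (u : G → L) : C.cv x 1 u = 0 :=
  C.coc_one (f := fun w => C.cv x w u) (C.cv_mul x u)

theorem cv_inv (x : G → K) (u : G → L) (w : FreeGroup G) :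
    C.cv x w⁻¹ u = -C.Ad (val x w)⁻¹ (C.cv x w u) :=
  C.coc_inv (f := fun w => C.cv x w u) (C.cv_mul x u) w

theorem cv_conj (x : G → K) (u : G → L) (k w : FreeGroup G) :
    C.cv x (k * w * k⁻¹) u = C.cv x k u + C.Ad (val x k) (C.cv x w u)
      - C.Ad (val x (k * w * k⁻¹)) (C.cv x k u) := by
  rw [cv_mul, cv_mul, cv_inv, map_neg, ← Ad_mul_apply, ← sub_eq_add_neg]
  simp

theorem cv_comm_map (x : G → K) (u : G → L) (S : L →L[ℝ] L)
    (hS : ∀ k y, S (C.Ad k y) = C.Ad k (S y)) (w : FreeGroup G) :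
    C.cv x w (fun i => S (u i)) = S (C.cv x w u) :=
  C.coc_ext (x := x) (f := fun w => C.cv x w (fun i => S (u i))) (f' := fun w => S (C.cv x w u))
    (C.cv_mul x _) (fun a b => by simp only [cv_mul, map_add, hS]) (fun i => by simp) w

/-- coboundary -/
noncomputable def del (x : G → K) : L →ₗ[ℝ] (G → L) :=
  LinearMap.pi fun i => ((1 - C.Ad (x i) : L →L[ℝ] L) : L →ₗ[ℝ] L)

theorem del_apply (x : G → K) (η : L) (i : G) : C.del x η i = η - C.Ad (x i) η := by simp [del]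

theorem cv_del (x : G → K) (η : L) (w : FreeGroup G) :
    C.cv x w (C.del x η) = η - C.Ad (val x w) η :=
  C.coc_ext (x := x) (f := fun w => C.cv x w (C.del x η)) (f' := fun w => η - C.Ad (val x w) η)
    (C.cv_mul x _) (fun a b => by simp only [map_mul, map_sub, ContinuousLinearMap.mul_apply]; abel)
    (fun i => by simp [del_apply]) w

/-- action of an endomorphism of the free group on tuples -/
def act (φ : FreeGroup G →* FreeGroup G) (x : G → K) : G → K := fun i => val x (φ (.of i))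

theorem val_act (φ : FreeGroup G →* FreeGroup G) (x : G → K) (w : FreeGroup G) :
    val (act φ x) w = val x (φ w) :=
  DFunLike.congr_fun (FreeGroup.ext_hom (val (act φ x)) ((val x).comp φ)
    fun i => by simp [act]) w

/-- pull-back of cocycles -/
noncomputable def pb (φ : FreeGroup G →* FreeGroup G) (x : G → K) : (G → L) →ₗ[ℝ] (G → L) :=
  LinearMap.pi fun i => C.cv x (φ (.of i))

theorem pb_apply (φ : FreeGroup G →* FreeGroup G) (x : G → K) (u : G → L) (i : G) :
    C.pb φ x u i = C.cv x (φ (.of i)) u := rfl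

theorem cv_pb (φ : FreeGroup G →* FreeGroup G) (x : G → K) (u : G → L) (w : FreeGroup G) :
    C.cv (act φ x) w (C.pb φ x u) = C.cv x (φ w) u :=
  C.coc_ext (x := act φ x) (f := fun w => C.cv (act φ x) w (C.pb φ x u))
    (f' := fun w => C.cv x (φ w) u) (C.cv_mul _ _)
    (fun a b => by simp only [map_mul, cv_mul, val_act]) (fun i => by simp [pb_apply]) w

theorem isTwoCocycle_cup (x : G → K) (u v : G → L) :
    IsTwoCocycle fun a b => ⟪C.cv x a u, C.Ad (val x a) (C.cv x b v)⟫ := by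
  refine ⟨by simp, fun a b c => ?_⟩
  simp only [cv_mul, map_mul, map_add, inner_add_left, inner_add_right,
    ContinuousLinearMap.mul_apply, C.inner_Ad]
  ring

/-- the pairing `ω` for the basic inner product -/
noncomputable def om (x : Gen g → K) : (Gen g → L) →ₗ[ℝ] (Gen g → L) →ₗ[ℝ] ℝ :=
  LinearMap.mk₂ ℝ (fun u v => fundF fun a b => ⟪C.cv x a u, C.Ad (val x a) (C.cv x b v)⟫)
    (fun u u' v => by
      simp only [fundF, map_add, inner_add_left, ← Finset.sum_add_distrib]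
      exact Finset.sum_congr rfl fun i _ => by ring)
    (fun c u v => by
      simp only [fundF, map_smul, real_inner_smul_left, smul_eq_mul, Finset.mul_sum]
      exact Finset.sum_congr rfl fun i _ => by ring)
    (fun u v v' => by
      simp only [fundF, map_add, inner_add_right, ← Finset.sum_add_distrib]
      exact Finset.sum_congr rfl fun i _ => by ring)
    (fun c u v => by
      simp only [fundF, map_smul, real_inner_smul_right, smul_eq_mul, Finset.mul_sum]
      exact Finset.sum_congr rfl fun i _ => by ring)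

theorem om_apply (x : Gen g → K) (u v : Gen g → L) :
    C.om x u v = fundF fun a b => ⟪C.cv x a u, C.Ad (val x a) (C.cv x b v)⟫ := rfl

theorem om_add_swap (x : Gen g → K) (u v : Gen g → L) :
    C.om x u v + C.om x v u = ⟪C.cv x (relator g) u, C.cv x (relator g) v⟫ := by
  rw [← fundF_eq (γ := fun w => ⟪C.cv x w u, C.cv x w v⟫)
    (σ := fun a b => ⟪C.cv x a u, C.Ad (val x a) (C.cv x b v)⟫
      + ⟪C.cv x a v, C.Ad (val x a) (C.cv x b u)⟫) (by simp)]
  · simp only [om_apply, fundF, ← Finset.sum_add_distrib]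
    exact Finset.sum_congr rfl fun i _ => by ring
  · intro a b
    simp only [cv_mul, inner_add_left, inner_add_right, C.inner_Ad]
    rw [real_inner_comm (C.cv x a v) (C.Ad _ _)]
    ring

theorem om_del (x : Gen g → K) (η : L) (v : Gen g → L) :
    C.om x (C.del x η) v = ⟪η, C.cv x (relator g) v⟫ := by
  rw [om_apply]
  refine fundF_eq (γ := fun w => ⟪η, C.cv x w v⟫) (by simp) fun a b => ?_
  simp only [cv_mul, cv_del, inner_add_right, inner_sub_left, C.inner_Ad]
  ring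

theorem om_pb (φ : FreeGroup (Gen g) →* FreeGroup (Gen g)) (hφ : φ (relator g) = relator g)
    (x : Gen g → K) (u v : Gen g → L) :
    C.om (act φ x) (C.pb φ x u) (C.pb φ x v) = C.om x u v := by
  simp only [om_apply, cv_pb, val_act]
  exact fundF_comp (C.isTwoCocycle_cup x u v) φ hφ

theorem om_map (x : Gen g → K) (u v : Gen g → L) (S S' : L →L[ℝ] L)
    (hS : ∀ k y, S (C.Ad k y) = C.Ad k (S y)) (hS' : ∀ k y, S' (C.Ad k y) = C.Ad k (S' y))
    (h : ∀ y z, ⟪S y, z⟫ = ⟪y, S' z⟫) :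
    C.om x (fun i => S (u i)) v = C.om x u (fun i => S' (v i)) := by
  simp only [om_apply, C.cv_comm_map x _ S hS, C.cv_comm_map x _ S' hS', h, hS']

/-- cocycles of the surface group -/
noncomputable def Z1 (x : Gen g → K) : Submodule ℝ (Gen g → L) :=
  LinearMap.ker (C.cv x (relator g))

theorem mem_Z1 {x : Gen g → K} {u : Gen g → L} : u ∈ C.Z1 x ↔ C.cv x (relator g) u = 0 := Iff.rfl

theorem del_mem_Z1 {x : Gen g → K} (hx : val x (relator g) = 1) (η : L) : C.del x η ∈ C.Z1 x := by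
  rw [mem_Z1, cv_del, hx]; simp

theorem pb_mem_Z1 (φ : FreeGroup (Gen g) →* FreeGroup (Gen g)) (hφ : φ (relator g) = relator g)
    {x : Gen g → K} {u : Gen g → L} (hu : u ∈ C.Z1 x) : C.pb φ x u ∈ C.Z1 (act φ x) := by
  rw [mem_Z1, cv_pb, hφ]; exact hu

end Ctx

end Pool.Agent.Lib.MP_d52947_gt
end

-- part Pool.Agent.Lib.MP_d52947_gt.Aut
section

/-! Automorphisms of the free group fixing the surface relator. -/

namespace Pool.Agent.Lib.MP_d52947_gt

variable {g : ℕ}

abbrev FG (g : ℕ) := FreeGroup (Gen g)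

/-- automorphisms of the free group fixing the relator -/
def AutR (g : ℕ) : Subgroup (MulAut (FG g)) := MulAction.stabilizer (MulAut (FG g)) (relator g)

theorem mem_AutR {φ : MulAut (FG g)} : φ ∈ AutR g ↔ φ (relator g) = relator g := Iff.rfl

instance : Countable (AutR g) := by
  refine Function.Injective.countable
    (f := fun (φ : AutR g) (i : Gen g) => (φ.1 (.of i) : FG g)) fun φ ψ h => ?_
  refine Subtype.ext (MulEquiv.toMonoidHom_injective (FreeGroup.ext_hom _ _ fun i => ?_))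
  exact congrFun h i

abbrev ga (i : Fin g) : FG g := .of (i, false)
abbrev gb (i : Fin g) : FG g := .of (i, true)

/-- automorphism from substitutions inverse to each other -/
def mkAut (f f' : Gen g → FG g) (h : ∀ i, FreeGroup.lift f' (f i) = .of i)
    (h' : ∀ i, FreeGroup.lift f (f' i) = .of i) : MulAut (FG g) :=
  MonoidHom.toMulEquiv (FreeGroup.lift f) (FreeGroup.lift f')
    (FreeGroup.ext_hom _ _ fun i => by simp [h]) (FreeGroup.ext_hom _ _ fun i => by simp [h'])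

theorem mkAut_apply (f f' : Gen g → FG g) (h h') (w : FG g) :
    mkAut f f' h h' w = FreeGroup.lift f w := rfl

theorem relator_succ : relator (g + 1) =
    hcomm 0 * (List.ofFn fun i : Fin g => hcomm i.succ).prod := by
  rw [relator, List.ofFn_succ, List.prod_cons]

theorem map_ofFn_prod {m : ℕ} (φ : FG g →* FG g) (c : Fin m → FG g) (h : ∀ i, φ (c i) = c i) :
    φ (List.ofFn c).prod = (List.ofFn c).prod := by
  rw [map_list_prod, List.map_ofFn]
  congr 2
  exact funext h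

/-- substitution on the first handle -/
def sub1 (wa wb : FG (g + 1)) : Gen (g + 1) → FG (g + 1) := fun p =>
  Fin.cases (motive := fun _ => FG (g + 1)) (bif p.2 then wb else wa)
    (fun j => .of (j.succ, p.2)) p.1

@[simp] theorem sub1_a (wa wb : FG (g + 1)) : sub1 wa wb (0, false) = wa := rfl
@[simp] theorem sub1_b (wa wb : FG (g + 1)) : sub1 wa wb (0, true) = wb := rfl
@[simp] theorem sub1_succ (wa wb : FG (g + 1)) (j : Fin g) (s : Bool) :
    sub1 wa wb (j.succ, s) = .of (j.succ, s) := rfl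

theorem gen_cases1 {P : Gen (g + 1) → Prop} (ha : P (0, false)) (hb : P (0, true))
    (hs : ∀ (j : Fin g) s, P (j.succ, s)) : ∀ i, P i := by
  rintro ⟨i, s⟩
  refine Fin.cases ?_ (fun j => hs j s) i
  cases s
  exacts [ha, hb]

/-- automorphism supported on the first handle -/
def aut1 (wa wb wa' wb' : FG (g + 1)) (h1 : FreeGroup.lift (sub1 wa' wb') wa = ga 0)
    (h2 : FreeGroup.lift (sub1 wa' wb') wb = gb 0) (h3 : FreeGroup.lift (sub1 wa wb) wa' = ga 0)
    (h4 : FreeGroup.lift (sub1 wa wb) wb' = gb 0) (h : wa * wb * wa⁻¹ * wb⁻¹ = hcomm 0) :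
    AutR (g + 1) :=
  ⟨mkAut (sub1 wa wb) (sub1 wa' wb') (gen_cases1 h1 h2 fun j s => by simp)
    (gen_cases1 h3 h4 fun j s => by simp), by
    rw [mem_AutR, mkAut_apply, relator_succ, map_mul, map_ofFn_prod]
    · congr 1
      refine Eq.trans ?_ h
      simp [hcomm]
    · intro i; simp [hcomm]⟩

theorem aut1_of (wa wb wa' wb' : FG (g + 1)) (h1 h2 h3 h4 h) (i : Gen (g + 1)) :
    (aut1 wa wb wa' wb' h1 h2 h3 h4 h).1 (.of i) = sub1 wa wb i := by
  simp [aut1, mkAut_apply]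

/-- Dehn twist along `a_0` -/
def tau : AutR (g + 1) := aut1 (ga 0) (gb 0 * ga 0) (ga 0) (gb 0 * (ga 0)⁻¹)
  (by simp) (by simp) (by simp) (by simp) (by simp only [hcomm]; group)

/-- Dehn twist along `b_0` -/
def tauB : AutR (g + 1) := aut1 (ga 0 * gb 0) (gb 0) (ga 0 * (gb 0)⁻¹) (gb 0)
  (by simp) (by simp) (by simp) (by simp) (by simp only [hcomm]; group)

/-- quarter turn -/
def psi : AutR (g + 1) := aut1 (ga 0 * gb 0 * (ga 0)⁻¹) (ga 0)⁻¹ (gb 0)⁻¹ (gb 0 * ga 0 * (gb 0)⁻¹)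
  (by simp; group) (by simp) (by simp) (by simp; group) (by simp only [hcomm]; group)

/-- inverse quarter turn -/
def psi' : AutR (g + 1) := aut1 (gb 0)⁻¹ (gb 0 * ga 0 * (gb 0)⁻¹) (ga 0 * gb 0 * (ga 0)⁻¹) (ga 0)⁻¹
  (by simp) (by simp; group) (by simp; group) (by simp) (by simp only [hcomm]; group)

/-- conjugation of the first handle by its boundary -/
def kap : AutR (g + 1) := aut1 (hcomm 0 * ga 0 * (hcomm 0)⁻¹) (hcomm 0 * gb 0 * (hcomm 0)⁻¹)
  ((hcomm 0)⁻¹ * ga 0 * hcomm 0) ((hcomm 0)⁻¹ * gb 0 * hcomm 0)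
  (by simp [hcomm]; group) (by simp [hcomm]; group) (by simp [hcomm]; group)
  (by simp [hcomm]; group) (by simp only [hcomm]; group)

theorem tau_a : (tau (g := g)).1 (ga 0) = ga 0 := aut1_of ..
theorem tau_b : (tau (g := g)).1 (gb 0) = gb 0 * ga 0 := aut1_of ..
theorem tau_succ (j : Fin g) (s : Bool) : tau.1 (.of (j.succ, s)) = .of (j.succ, s) := aut1_of ..
theorem tauB_a : (tauB (g := g)).1 (ga 0) = ga 0 * gb 0 := aut1_of ..
theorem tauB_b : (tauB (g := g)).1 (gb 0) = gb 0 := aut1_of ..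
theorem psi_a : (psi (g := g)).1 (ga 0) = ga 0 * gb 0 * (ga 0)⁻¹ := aut1_of ..
theorem psi_b : (psi (g := g)).1 (gb 0) = (ga 0)⁻¹ := aut1_of ..
theorem psi'_a : (psi' (g := g)).1 (ga 0) = (gb 0)⁻¹ := aut1_of ..
theorem psi'_b : (psi' (g := g)).1 (gb 0) = gb 0 * ga 0 * (gb 0)⁻¹ := aut1_of ..
theorem kap_a : (kap (g := g)).1 (ga 0) = hcomm 0 * ga 0 * (hcomm 0)⁻¹ := aut1_of ..
theorem kap_b : (kap (g := g)).1 (gb 0) = hcomm 0 * gb 0 * (hcomm 0)⁻¹ := aut1_of ..
theorem kap_succ (j : Fin g) (s : Bool) : kap.1 (.of (j.succ, s)) = .of (j.succ, s) := aut1_of ..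

theorem tau_pow_a (n : ℕ) : ((tau (g := g)) ^ n).1 (ga 0) = ga 0 := by
  induction n with
  | zero => rfl
  | succ n ih => rw [pow_succ, Subgroup.coe_mul, MulAut.mul_apply, tau_a, ih]

theorem tau_pow_b (n : ℕ) : ((tau (g := g)) ^ n).1 (gb 0) = gb 0 * ga 0 ^ n := by
  induction n with
  | zero => simp
  | succ n ih =>
    rw [pow_succ, Subgroup.coe_mul, MulAut.mul_apply, tau_b, map_mul, ih, tau_pow_a, pow_succ,
      mul_assoc]

theorem tau_pow_succ (n : ℕ) (j : Fin g) (s : Bool) :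
    ((tau (g := g)) ^ n).1 (.of (j.succ, s)) = .of (j.succ, s) := by
  induction n with
  | zero => rfl
  | succ n ih => rw [pow_succ, Subgroup.coe_mul, MulAut.mul_apply, tau_succ, ih]

theorem kap_c : (kap (g := g)).1 (hcomm 0) = hcomm 0 := by
  conv_lhs => rw [hcomm]
  simp only [map_mul, map_inv, kap_a, kap_b]
  simp only [hcomm]; group

theorem kap_pow_c (n : ℕ) : ((kap (g := g)) ^ n).1 (hcomm 0) = hcomm 0 := by
  induction n with
  | zero => rfl
  | succ n ih => rw [pow_succ, Subgroup.coe_mul, MulAut.mul_apply, kap_c, ih]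

theorem kap_pow_b (n : ℕ) :
    ((kap (g := g)) ^ n).1 (gb 0) = hcomm 0 ^ n * gb 0 * (hcomm 0 ^ n)⁻¹ := by
  induction n with
  | zero => simp
  | succ n ih =>
    rw [pow_succ, Subgroup.coe_mul, MulAut.mul_apply, kap_b, map_mul, map_mul, map_inv, ih,
      kap_pow_c]
    group

theorem kap_pow_succ (n : ℕ) (j : Fin g) (s : Bool) :
    ((kap (g := g)) ^ n).1 (.of (j.succ, s)) = .of (j.succ, s) := by
  induction n with
  | zero => rfl
  | succ n ih => rw [pow_succ, Subgroup.coe_mul, MulAut.mul_apply, kap_succ, ih]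

/-- cyclic rotation of the handles -/
def rot : AutR (g + 1) :=
  ⟨MulAut.conj (hcomm 0) *
    FreeGroup.freeGroupCongr ((Equiv.addRight (1 : Fin (g + 1))).prodCongr (Equiv.refl Bool)), by
    rw [mem_AutR, MulAut.mul_apply, MulAut.conj_apply]
    have : FreeGroup.freeGroupCongr ((Equiv.addRight (1 : Fin (g + 1))).prodCongr (Equiv.refl Bool))
        (relator (g + 1)) = (List.ofFn fun i : Fin g => hcomm i.succ).prod * hcomm 0 := by
      rw [relator, map_list_prod, List.map_ofFn, List.ofFn_succ', List.prod_concat]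
      congr 1
      · congr 2
        funext i
        simp [hcomm]
      · simp [hcomm]
    rw [this, relator_succ]
    group⟩

theorem rot_of (i : Fin (g + 1)) (s : Bool) :
    rot.1 (.of (i, s)) = hcomm 0 * .of (i + 1, s) * (hcomm 0)⁻¹ := by
  simp [rot]

theorem exists_rot (i : Fin (g + 1)) : ∃ (φ : AutR (g + 1)) (k : FG (g + 1)),
    ∀ j s, φ.1 (.of (j, s)) = k * .of (j + i, s) * k⁻¹ := by
  induction i using Fin.induction with
  | zero => exact ⟨1, 1, fun j s => by simp⟩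
  | succ i ih =>
    obtain ⟨φ, k, h⟩ := ih
    refine ⟨rot * φ, rot.1 k * hcomm 0, fun j s => ?_⟩
    rw [Subgroup.coe_mul, MulAut.mul_apply, h, map_mul, map_mul, map_inv, rot_of, add_assoc,
      Fin.coeSucc_eq_succ]
    group

/-- substitution on the first two handles -/
def sub2 (wa wb wc wd : FG (g + 2)) : Gen (g + 2) → FG (g + 2) := fun p =>
  Fin.cases (motive := fun _ => FG (g + 2)) (bif p.2 then wb else wa)
    (fun j => Fin.cases (motive := fun _ => FG (g + 2)) (bif p.2 then wd else wc)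
      (fun j' => .of (j'.succ.succ, p.2)) j) p.1

@[simp] theorem sub2_a (wa wb wc wd : FG (g + 2)) : sub2 wa wb wc wd (0, false) = wa := rfl
@[simp] theorem sub2_b (wa wb wc wd : FG (g + 2)) : sub2 wa wb wc wd (0, true) = wb := rfl
@[simp] theorem sub2_c (wa wb wc wd : FG (g + 2)) : sub2 wa wb wc wd (1, false) = wc := rfl
@[simp] theorem sub2_d (wa wb wc wd : FG (g + 2)) : sub2 wa wb wc wd (1, true) = wd := rfl
theorem sub2_succ (wa wb wc wd : FG (g + 2)) (j : Fin g) (s : Bool) :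
    sub2 wa wb wc wd (j.succ.succ, s) = .of (j.succ.succ, s) := rfl

theorem gen_cases2 {P : Gen (g + 2) → Prop} (ha : P (0, false)) (hb : P (0, true))
    (hc : P (1, false)) (hd : P (1, true))
    (hs : ∀ (j : Fin g) s, P (j.succ.succ, s)) : ∀ i, P i := by
  refine gen_cases1 ha hb fun j s => ?_
  refine Fin.cases ?_ (fun j => hs j s) j
  cases s
  exacts [hc, hd]

/-- automorphism supported on the first two handles -/
def aut2 (wa wb wc wd wa' wb' wc' wd' : FG (g + 2))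
    (h1 : FreeGroup.lift (sub2 wa' wb' wc' wd') wa = ga 0 ∧
      FreeGroup.lift (sub2 wa' wb' wc' wd') wb = gb 0 ∧
      FreeGroup.lift (sub2 wa' wb' wc' wd') wc = ga 1 ∧
      FreeGroup.lift (sub2 wa' wb' wc' wd') wd = gb 1)
    (h2 : FreeGroup.lift (sub2 wa wb wc wd) wa' = ga 0 ∧
      FreeGroup.lift (sub2 wa wb wc wd) wb' = gb 0 ∧
      FreeGroup.lift (sub2 wa wb wc wd) wc' = ga 1 ∧
      FreeGroup.lift (sub2 wa wb wc wd) wd' = gb 1)
    (h : wa * wb * wa⁻¹ * wb⁻¹ * (wc * wd * wc⁻¹ * wd⁻¹) = hcomm 0 * hcomm 1) :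
    AutR (g + 2) :=
  ⟨mkAut (sub2 wa wb wc wd) (sub2 wa' wb' wc' wd')
    (gen_cases2 h1.1 h1.2.1 h1.2.2.1 h1.2.2.2 fun j s => by
      rw [sub2_succ, FreeGroup.lift_apply_of, sub2_succ])
    (gen_cases2 h2.1 h2.2.1 h2.2.2.1 h2.2.2.2 fun j s => by
      rw [sub2_succ, FreeGroup.lift_apply_of, sub2_succ]), by
    rw [mem_AutR, mkAut_apply, relator_succ, List.ofFn_succ, List.prod_cons, map_mul, map_mul,
      map_ofFn_prod]
    · rw [← mul_assoc, ← mul_assoc]
      congr 1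
      refine Eq.trans ?_ h
      simp [hcomm]
    · intro i
      simp only [hcomm, map_mul, map_inv, FreeGroup.lift_apply_of, sub2_succ]⟩

theorem aut2_of (wa wb wc wd wa' wb' wc' wd' : FG (g + 2)) (h1 h2 h) (i : Gen (g + 2)) :
    (aut2 wa wb wc wd wa' wb' wc' wd' h1 h2 h).1 (.of i) = sub2 wa wb wc wd i := by
  simp [aut2, mkAut_apply]

/-- the curve `b a⁻¹ b⁻¹ a'` -/
def gam : FG (g + 2) := gb 0 * (ga 0)⁻¹ * (gb 0)⁻¹ * ga 1

/-- twist along `gam` composed with a twist along `a_0` -/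
def chi : AutR (g + 2) := aut2 (ga 0) ((ga 1)⁻¹ * gb 0) (gam⁻¹ * ga 1 * gam) (gb 1 * gam)
  (ga 0) (gam * gb 0 * ga 0) (gam * ga 1 * gam⁻¹) (gb 1 * gam⁻¹)
  (by refine ⟨?_, ?_, ?_, ?_⟩ <;> simp [gam] <;> group)
  (by refine ⟨?_, ?_, ?_, ?_⟩ <;> simp [gam] <;> group)
  (by simp only [hcomm, gam]; group)

/-- inverse quarter turn of the second handle -/
def psi1 : AutR (g + 2) := aut2 (ga 0) (gb 0) (gb 1)⁻¹ (gb 1 * ga 1 * (gb 1)⁻¹)
  (ga 0) (gb 0) (ga 1 * gb 1 * (ga 1)⁻¹) (ga 1)⁻¹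
  (by refine ⟨?_, ?_, ?_, ?_⟩ <;> simp <;> group)
  (by refine ⟨?_, ?_, ?_, ?_⟩ <;> simp <;> group)
  (by simp only [hcomm]; group)

/-- a turn of both handles -/
def the : AutR (g + 2) := aut2 (ga 0 * gb 0 * (ga 0)⁻¹) (ga 0)⁻¹ (gb 1)⁻¹ (gb 1 * ga 1)
  (gb 0)⁻¹ (gb 0 * ga 0 * (gb 0)⁻¹) (ga 1 * gb 1) (ga 1)⁻¹
  (by refine ⟨?_, ?_, ?_, ?_⟩ <;> simp <;> group)
  (by refine ⟨?_, ?_, ?_, ?_⟩ <;> simp <;> group)
  (by simp only [hcomm]; group)

theorem chi_a : (chi (g := g)).1 (ga 0) = ga 0 := aut2_of ..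
theorem chi_b : (chi (g := g)).1 (gb 0) = (ga 1)⁻¹ * gb 0 := aut2_of ..
theorem chi_c : (chi (g := g)).1 (ga 1) = gam⁻¹ * ga 1 * gam := aut2_of ..
theorem chi_d : (chi (g := g)).1 (gb 1) = gb 1 * gam := aut2_of ..
theorem psi1_a : (psi1 (g := g)).1 (ga 0) = ga 0 := aut2_of ..
theorem psi1_b : (psi1 (g := g)).1 (gb 0) = gb 0 := aut2_of ..
theorem psi1_c : (psi1 (g := g)).1 (ga 1) = (gb 1)⁻¹ := aut2_of ..
theorem psi1_d : (psi1 (g := g)).1 (gb 1) = gb 1 * ga 1 * (gb 1)⁻¹ := aut2_of ..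
theorem the_a : (the (g := g)).1 (ga 0) = ga 0 * gb 0 * (ga 0)⁻¹ := aut2_of ..
theorem the_b : (the (g := g)).1 (gb 0) = (ga 0)⁻¹ := aut2_of ..
theorem the_c : (the (g := g)).1 (ga 1) = (gb 1)⁻¹ := aut2_of ..
theorem the_d : (the (g := g)).1 (gb 1) = gb 1 * ga 1 := aut2_of ..

end Pool.Agent.Lib.MP_d52947_gt
end

-- part Pool.Agent.Lib.MP_d52947_gt.LieDefs
section

/-! Shared definitions. -/

namespace Pool.Agent.Lib.MP_d52947_gt

open scoped RealInnerProductSpace

namespace Ctx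
variable {L : Type} [NormedAddCommGroup L] [InnerProductSpace ℝ L] [FiniteDimensional ℝ L]
  {K : Type} [Group K] [TopologicalSpace K] (C : Ctx L K)

/-- abelian subalgebra -/
def IsAb (s : Submodule ℝ L) : Prop := ∀ x ∈ s, ∀ y ∈ s, C.ad x y = 0

/-- maximal abelian subalgebra -/
def IsMaxAb (t : Submodule ℝ L) : Prop := ∀ x, x ∈ t ↔ ∀ y ∈ t, C.ad x y = 0

/-- `X + i Y` is a weight vector of weight `α` for the abelian subalgebra `s`. -/
def WP (s : Submodule ℝ L) (α X Y : L) : Prop :=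
  α ∈ s ∧ ∀ ξ ∈ s, C.ad ξ X = -(⟪α, ξ⟫ • Y) ∧ C.ad ξ Y = ⟪α, ξ⟫ • X

/-- nonzero weights (roots when `s` is maximal abelian) -/
def Wt (s : Submodule ℝ L) : Set L := {α | α ≠ 0 ∧ ∃ X Y, X ≠ 0 ∧ C.WP s α X Y}

/-- analytic in all exponential charts -/
def An {G E : Type} [Fintype G] [NormedAddCommGroup E] [NormedSpace ℝ E] (f : (G → K) → E) :
    Prop := ∀ h : G → K, AnalyticOnNhd ℝ (fun ξ : G → L => f fun i => C.ex (ξ i) * h i) Set.univ

/-- generic properties of a pair -/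
structure GoodPair (I : C.Ideals) (a b : K) : Prop where
  reg : C.Reg a
  hA : ∀ x, (∀ n : ℕ, x ∈ (C.Fix (b * a ^ n))ᗮ) → ∃ η ∈ C.Fix a, x = η - C.Ad b η
  hB : ∀ i, ∀ l ∈ C.Fix a, I.p i l = l → (innerSL ℝ l).smulRight l ∈
    Submodule.span ℝ (Set.range fun n : ℕ => C.pj a - C.pj a * C.pj (b * a ^ n) * C.pj a)
  hE : ∀ ξ ∈ C.Fix a, ξ ∈ (C.Fix b)ᗮ → ξ = 0

end Ctx
end Pool.Agent.Lib.MP_d52947_gt
end

-- part Pool.Agent.Lib.MP_d52947_gt.Kills
section

/-! Infinitesimal stabilizers of alternating forms, generation of symplectic algebras. -/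

namespace Pool.Agent.Lib.MP_d52947_gt

variable {H : Type} [AddCommGroup H] [Module ℝ H] {k : ℕ}

/-- the derivation induced by `T` kills `α` -/
def Kills (T : H →ₗ[ℝ] H) (α : H [⋀^Fin k]→ₗ[ℝ] ℝ) : Prop :=
  ∀ u : Fin k → H, ∑ j, α (Function.update u j (T (u j))) = 0

/-- the infinitesimal stabilizer -/
def stab (α : H [⋀^Fin k]→ₗ[ℝ] ℝ) : Submodule ℝ (H →ₗ[ℝ] H) where
  carrier := {T | Kills T α}
  zero_mem' u := by simp
  add_mem' {S T} hS hT u := by
    simp only [LinearMap.add_apply, AlternatingMap.map_update_add, Finset.sum_add_distrib]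
    rw [hS u, hT u, add_zero]
  smul_mem' c T hT u := by
    simp only [LinearMap.smul_apply, AlternatingMap.map_update_smul, ← Finset.smul_sum]
    rw [hT u, smul_zero]

theorem mem_stab {α : H [⋀^Fin k]→ₗ[ℝ] ℝ} {T : H →ₗ[ℝ] H} : T ∈ stab α ↔ Kills T α := Iff.rfl

theorem stab_sub {α : H [⋀^Fin k]→ₗ[ℝ] ℝ} {S T : H →ₗ[ℝ] H} (hS : S ∈ stab α) (hT : T ∈ stab α) :
    S - T ∈ stab α := (stab α).sub_mem hS hT

theorem stab_of_sub {α : H [⋀^Fin k]→ₗ[ℝ] ℝ} {S T : H →ₗ[ℝ] H} (hS : S - T ∈ stab α)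
    (hT : T ∈ stab α) : S ∈ stab α := by simpa using (stab α).add_mem hS hT

theorem kills_aux {α : H [⋀^Fin k]→ₗ[ℝ] ℝ} {S : H →ₗ[ℝ] H} (hS : Kills S α) (T : H →ₗ[ℝ] H)
    (u : Fin k → H) : ∑ j, α (Function.update u j (S (T (u j)))) + ∑ j, ∑ l,
      (if l = j then 0 else α (Function.update (Function.update u j (T (u j))) l (S (u l)))) = 0 := by
  rw [← Finset.sum_add_distrib]
  refine Finset.sum_eq_zero fun j _ => ?_
  have h := hS (Function.update u j (T (u j)))
  rw [← Finset.add_sum_erase _ _ (Finset.mem_univ j)] at h ⊢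
  simp only [if_true, zero_add, Function.update_self, Function.update_idem] at h ⊢
  refine Eq.trans (congrArg _ (Finset.sum_congr rfl fun l hl => ?_)) h
  rw [if_neg (Finset.ne_of_mem_erase hl), Function.update_of_ne (Finset.ne_of_mem_erase hl)]

theorem stab_lie {α : H [⋀^Fin k]→ₗ[ℝ] ℝ} {S T : H →ₗ[ℝ] H} (hS : S ∈ stab α) (hT : T ∈ stab α) :
    S * T - T * S ∈ stab α := by
  intro u
  have h1 := kills_aux hS T u
  have h2 := kills_aux hT S u
  rw [Finset.sum_comm] at h2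
  have h3 : ∑ j, ∑ l, (if l = j then (0 : ℝ) else
        α (Function.update (Function.update u j (T (u j))) l (S (u l)))) =
      ∑ j, ∑ l, (if j = l then (0 : ℝ) else
        α (Function.update (Function.update u l (S (u l))) j (T (u j)))) := by
    refine Finset.sum_congr rfl fun j _ => Finset.sum_congr rfl fun l _ => ?_
    by_cases h : l = j
    · simp [h]
    · rw [if_neg h, if_neg (Ne.symm h), Function.update_comm h]
  simp only [LinearMap.sub_apply, Module.End.mul_apply, AlternatingMap.map_update_sub,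
    Finset.sum_sub_distrib]
  linarith

theorem mem_stab_of_range {α : H [⋀^Fin k]→ₗ[ℝ] ℝ} {N : Submodule ℝ H}
    (hN : ∀ (u : Fin k → H) j, u j ∈ N → α u = 0) {T : H →ₗ[ℝ] H} (hT : ∀ u, T u ∈ N) :
    T ∈ stab α := fun u => Finset.sum_eq_zero fun j _ => hN _ j (by simpa using hT _)

theorem Kills.conj {H' : Type} [AddCommGroup H'] [Module ℝ H'] {α : H [⋀^Fin k]→ₗ[ℝ] ℝ}
    {α' : H' [⋀^Fin k]→ₗ[ℝ] ℝ} (e : H →ₗ[ℝ] H') (he : ∀ u, α' (fun j => e (u j)) = α u)
    {T : H →ₗ[ℝ] H} {T' : H' →ₗ[ℝ] H'} (hT : ∀ u, e (T u) = T' (e u)) (h : Kills T' α') :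
    Kills T α := by
  intro u
  rw [← h fun j => e (u j)]
  refine Finset.sum_congr rfl fun j _ => ?_
  rw [← he, ← hT]
  congr 1
  funext l
  by_cases hl : l = j
  · subst hl; simp
  · simp [Function.update_of_ne hl]

section Sp

variable (om : H →ₗ[ℝ] H →ₗ[ℝ] ℝ)

/-- the symmetric product of two vectors as an infinitesimal symplectic map -/
def spX (h h' : H) : H →ₗ[ℝ] H := (om h).smulRight h' + (om h').smulRight h

theorem spX_apply (h h' u : H) : spX om h h' u = om h u • h' + om h' u • h := rfl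

theorem spX_comm (h h' : H) : spX om h h' = spX om h' h := add_comm _ _

theorem spX_add (h h' z : H) : spX om (h + h') z = spX om h z + spX om h' z := by
  ext u; simp only [spX_apply, map_add, LinearMap.add_apply, add_smul, smul_add]; abel

theorem spX_smul (c : ℝ) (h z : H) : spX om (c • h) z = c • spX om h z := by
  ext u
  simp only [spX_apply, map_smul, LinearMap.smul_apply, smul_add, smul_smul, smul_eq_mul, mul_comm]

/-- all symmetric products of elements of `U` lie in `S` -/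
def Full (S : Submodule ℝ (H →ₗ[ℝ] H)) (U : Submodule ℝ H) : Prop :=
  ∀ h ∈ U, ∀ h' ∈ U, spX om h h' ∈ S

theorem full_of_sq {S : Submodule ℝ (H →ₗ[ℝ] H)} {U : Submodule ℝ H}
    (h : ∀ z ∈ U, spX om z z ∈ S) : Full om S U := by
  intro a ha b hb
  have h1 := h _ (U.add_mem ha hb)
  rw [spX_add, spX_comm om a, spX_comm om b, spX_add, spX_add, spX_comm om b a] at h1
  have h2 : spX om a b = (1 / 2 : ℝ) • (spX om a a + spX om a b + (spX om a b + spX om b b)
      - spX om a a - spX om b b) := by module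
  rw [h2]
  exact S.smul_mem _ (S.sub_mem (S.sub_mem h1 (h a ha)) (h b hb))

variable {om}

theorem full_step {S : Submodule ℝ (H →ₗ[ℝ] H)} (hS : ∀ X ∈ S, ∀ Y ∈ S, X * Y - Y * X ∈ S)
    (hal : ∀ u v, om u v = -om v u) {U : Submodule ℝ H} (hU : Full om S U) {z : H}
    (hz : spX om z z ∈ S) {u : H} (hu : u ∈ U) (huz : om u z ≠ 0) :
    Full om S (U ⊔ Submodule.span ℝ {z}) := by
  have key : ∀ v ∈ U, om v z ≠ 0 → spX om v z ∈ S := by
    intro v hv hvz
    have h1 := hS _ (hU v hv v hv) _ hz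
    have h2 : spX om v v * spX om z z - spX om z z * spX om v v = (4 * om v z) • spX om v z := by
      ext w
      simp only [LinearMap.sub_apply, Module.End.mul_apply, spX_apply, map_add, map_smul,
        LinearMap.smul_apply, smul_eq_mul, hal z v]
      module
    rw [h2] at h1
    exact (S.smul_mem_iff (by simpa using hvz)).1 h1
  have key2 : ∀ v ∈ U, spX om v z ∈ S := by
    intro v hv
    by_cases hvz : om v z = 0
    · have h1 := key (v + u) (U.add_mem hv hu) (by simpa [hvz] using huz)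
      rw [spX_add] at h1
      simpa using S.sub_mem h1 (key u hu huz)
    · exact key v hv hvz
  refine full_of_sq om fun y hy => ?_
  obtain ⟨v, hv, w, hw, rfl⟩ := Submodule.mem_sup.1 hy
  obtain ⟨c, rfl⟩ := Submodule.mem_span_singleton.1 hw
  have e : spX om (v + c • z) (v + c • z) =
      spX om v v + (2 * c) • spX om v z + (c * c) • spX om z z := by
    ext w
    simp only [spX_apply, map_add, map_smul, LinearMap.add_apply, LinearMap.smul_apply,
      smul_eq_mul]
    module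
  rw [e]
  exact S.add_mem (S.add_mem (hU v hv v hv) (S.smul_mem _ (key2 v hv))) (S.smul_mem _ hz)

/-- a maximal full subspace between `U₀` and `W` -/
theorem exists_full_max [FiniteDimensional ℝ H] {S : Submodule ℝ (H →ₗ[ℝ] H)}
    (hS : ∀ X ∈ S, ∀ Y ∈ S, X * Y - Y * X ∈ S) (hal : ∀ u v, om u v = -om v u)
    {U₀ : Submodule ℝ H} (hU : Full om S U₀) :
    ∃ U, U₀ ≤ U ∧ Full om S U ∧ ∀ z, spX om z z ∈ S → (∃ u ∈ U, om u z ≠ 0) → z ∈ U := by
  obtain ⟨U, ⟨h0, hF⟩, hmax⟩ := (set_has_maximal_iff_noetherian.2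
    (inferInstance : IsNoetherian ℝ H)) {U | U₀ ≤ U ∧ Full om S U} ⟨U₀, le_rfl, hU⟩
  refine ⟨U, h0, hF, fun z hz ⟨u, hu, huz⟩ => ?_⟩
  by_contra hzU
  refine hmax (U ⊔ Submodule.span ℝ {z}) ⟨h0.trans le_sup_left, full_step hS hal hF hz hu huz⟩ ?_
  refine lt_of_le_of_ne le_sup_left fun h => hzU ?_
  rw [h]
  exact Submodule.mem_sup_right (Submodule.mem_span_singleton_self z)

end Sp

end Pool.Agent.Lib.MP_d52947_gt
end

-- part Pool.Agent.Lib.MP_d52947_gt.Twist
section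

/-! Twist cocycles. -/

namespace Pool.Agent.Lib.MP_d52947_gt

open scoped RealInnerProductSpace

namespace Ctx

variable {L : Type} [NormedAddCommGroup L] [InnerProductSpace ℝ L] [FiniteDimensional ℝ L]
  {K : Type} [Group K] [TopologicalSpace K] (C : Ctx L K) {g : ℕ}

theorem cv_hcomm (x : Gen g → K) (u : Gen g → L) (i : Fin g) :
    C.cv x (hcomm i) u = u (i, false) + C.Ad (x (i, false)) (u (i, true))
      - C.Ad (x (i, false) * x (i, true) * (x (i, false))⁻¹) (u (i, false))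
      - C.Ad (x (i, false) * x (i, true) * (x (i, false))⁻¹ * (x (i, true))⁻¹) (u (i, true)) := by
  simp only [hcomm, cv_mul, cv_inv, cv_of, map_mul, map_inv, FreeGroup.lift_apply_of, map_neg,
    ContinuousLinearMap.mul_apply]
  abel

theorem cv_list_zero {G : Type} (x : G → K) (u : G → L) (l : List (FreeGroup G))
    (h : ∀ w ∈ l, C.cv x w u = 0) : C.cv x l.prod u = 0 := by
  induction l with
  | nil => simp
  | cons w l ih =>
    rw [List.prod_cons, cv_mul, h w (by simp), ih fun w hw => h w (by simp [hw])]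
    simp

theorem cv_preF_zero (x : Gen g → K) (u : Gen g → L) (h : ∀ i, C.cv x (hcomm i) u = 0) (i : ℕ) :
    C.cv x (preF i) u = 0 :=
  C.cv_list_zero x u _ fun w hw => by
    obtain ⟨j, rfl⟩ := List.mem_ofFn.1 (List.mem_of_mem_take hw)
    exact h j

/-- infinitesimal twist along `a_0` -/
noncomputable def twv (x : Gen (g + 1) → K) : L →ₗ[ℝ] (Gen (g + 1) → L) :=
  LinearMap.single ℝ (fun _ => L) (0, true) ∘ₗ (C.Ad (x (0, true)) : L →ₗ[ℝ] L)

theorem twv_a (x : Gen (g + 1) → K) (ξ : L) (i : Fin (g + 1)) : C.twv x ξ (i, false) = 0 := by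
  simp [twv]

theorem twv_b (x : Gen (g + 1) → K) (ξ : L) : C.twv x ξ (0, true) = C.Ad (x (0, true)) ξ := by
  simp [twv]

theorem twv_succ (x : Gen (g + 1) → K) (ξ : L) (j : Fin g) (s : Bool) :
    C.twv x ξ (j.succ, s) = 0 := by
  simp [twv, Fin.succ_ne_zero]

theorem cv_hcomm_twv (x : Gen (g + 1) → K) {ξ : L} (hξ : ξ ∈ C.Fix (x (0, false)))
    (i : Fin (g + 1)) : C.cv x (hcomm i) (C.twv x ξ) = 0 := by
  rw [cv_hcomm]
  refine Fin.cases ?_ (fun j => by simp [twv_succ]) i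
  rw [← C.Fix_inv, mem_Fix] at hξ
  simp only [twv_a, twv_b, Ad_mul_apply, Ad_inv_Ad, hξ, map_zero]
  abel

theorem twv_mem (x : Gen (g + 1) → K) {ξ : L} (hξ : ξ ∈ C.Fix (x (0, false))) :
    C.twv x ξ ∈ C.Z1 x := by
  rw [mem_Z1, ← preF_last]
  exact C.cv_preF_zero x _ (C.cv_hcomm_twv x hξ) _

theorem om_twv (x : Gen (g + 1) → K) {ξ : L} (hξ : ξ ∈ C.Fix (x (0, false)))
    (v : Gen (g + 1) → L) : C.om x (C.twv x ξ) v = -⟪ξ, v (0, false)⟫ := by
  have h0 := C.cv_preF_zero x _ (C.cv_hcomm_twv x hξ)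
  have h1 := C.mem_Fix.1 hξ
  rw [om_apply, fundF, Fin.sum_univ_succ, Finset.sum_eq_zero fun j _ => by
    simp [cv_mul, cv_inv, h0, twv_succ]]
  simp only [Fin.val_zero, preF_zero, one_mul, cv_mul, cv_inv, cv_of, cv_one, twv_a, twv_b,
    map_mul, map_inv, FreeGroup.lift_apply_of, ContinuousLinearMap.mul_apply, inner_zero_left,
    zero_add, map_zero, neg_zero, add_zero, C.inner_Ad, sub_zero, map_neg, inner_neg_right]
  rw [C.inner_Ad_right _ ξ (v (0, false)), C.inner_Ad_right (x (0, false))⁻¹, inv_inv, h1]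
  ring

theorem pj_mem (k : K) (y : L) : C.pj k y ∈ C.Fix k := Submodule.starProjection_apply_mem _ _

theorem pj_of_mem {k : K} {y : L} (h : y ∈ C.Fix k) : C.pj k y = y :=
  Submodule.starProjection_eq_self_iff.2 h

theorem inner_pj (k : K) (y z : L) : ⟪C.pj k y, z⟫ = ⟪y, C.pj k z⟫ :=
  Submodule.inner_starProjection_left_eq_right _ _ _

theorem pj_eq_zero_iff {k : K} {y : L} : C.pj k y = 0 ↔ y ∈ (C.Fix k)ᗮ :=
  Submodule.starProjection_apply_eq_zero_iff _

theorem pj_pj (k : K) (y : L) : C.pj k (C.pj k y) = C.pj k y := C.pj_of_mem (C.pj_mem k y)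

theorem pj_Ad (k : K) (y : L) : C.pj k (C.Ad k y) = C.pj k y := by
  refine ext_inner_left ℝ fun z => ?_
  rw [← inner_pj, ← inner_pj, C.inner_Ad_right, C.mem_Fix.1 (C.Fix_inv k ▸ C.pj_mem k z)]

theorem pj_sub_Ad (k : K) (y : L) : C.pj k (y - C.Ad k y) = 0 := by rw [map_sub, pj_Ad, sub_self]

theorem pj_inv (k : K) : C.pj k⁻¹ = C.pj k := by simp only [pj, Fix_inv]

theorem Ad_mem_Fix_conj {k c : K} {y : L} : C.Ad c y ∈ C.Fix (c * k * c⁻¹) ↔ y ∈ C.Fix k := by
  simp only [mem_Fix, Ad_mul_apply, Ad_inv_Ad]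
  exact ⟨fun h => by simpa using congrArg (C.Ad c⁻¹) h, fun h => by rw [h]⟩

theorem pj_conj (c k : K) (y : L) : C.pj (c * k * c⁻¹) (C.Ad c y) = C.Ad c (C.pj k y) := by
  refine Submodule.eq_starProjection_of_mem_of_inner_eq_zero
    (C.Ad_mem_Fix_conj.2 (C.pj_mem k y)) fun w hw => ?_
  have hw' : C.Ad c⁻¹ w ∈ C.Fix k := C.Ad_mem_Fix_conj.1 (by rwa [Ad_Ad_inv])
  rw [← map_sub, inner_Ad_left, inner_sub_left, inner_pj, C.pj_of_mem hw', sub_self]

theorem pj_comm (S : L →L[ℝ] L) (hS : ∀ k y, S (C.Ad k y) = C.Ad k (S y))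
    (hs : ∀ y z, ⟪S y, z⟫ = ⟪y, S z⟫) (k : K) (y : L) : C.pj k (S y) = S (C.pj k y) := by
  have hF : ∀ w ∈ C.Fix k, S w ∈ C.Fix k := fun w hw => by
    rw [mem_Fix] at hw ⊢; rw [← hS, hw]
  refine Submodule.eq_starProjection_of_mem_of_inner_eq_zero (hF _ (C.pj_mem k y)) fun w hw => ?_
  rw [← map_sub, hs, inner_sub_left, inner_pj, C.pj_of_mem (hF w hw), sub_self]

theorem exists_sub_Ad {k : K} {y : L} (h : C.pj k y = 0) : ∃ η, y = η - C.Ad k η := by
  have e : (LinearMap.range ((1 - C.Ad k : L →L[ℝ] L) : L →ₗ[ℝ] L))ᗮ ≤ C.Fix k := by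
    intro z hz
    rw [← C.Fix_inv, mem_Fix]
    refine ext_inner_left ℝ fun w => ?_
    have := hz (w - C.Ad k w) ⟨w, rfl⟩
    rw [inner_sub_left, inner_Ad_left, sub_eq_zero] at this
    exact this.symm
  have := Submodule.orthogonal_le e (C.pj_eq_zero_iff.1 h)
  rw [Submodule.orthogonal_orthogonal] at this
  obtain ⟨η, rfl⟩ := this
  exact ⟨η, rfl⟩

/-- the differential of the conjugacy class of a curve -/
noncomputable def dI (x : Gen g → K) (e : FG g) : C.Z1 x →ₗ[ℝ] L :=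
  (C.pj (val x e) : L →ₗ[ℝ] L) ∘ₗ C.cv x e ∘ₗ (C.Z1 x).subtype

theorem dI_apply (x : Gen g → K) (e : FG g) (v : C.Z1 x) :
    C.dI x e v = C.pj (val x e) (C.cv x e v) := rfl

theorem dI_inv (x : Gen g → K) (e : FG g) (v : C.Z1 x) : C.dI x e⁻¹ v = -C.dI x e v := by
  rw [dI_apply, dI_apply, cv_inv, map_inv, map_neg, pj_Ad, pj_inv]

theorem dI_conj (x : Gen g → K) (k e : FG g) (v : C.Z1 x) :
    C.dI x (k * e * k⁻¹) v = C.Ad (val x k) (C.dI x e v) := by
  rw [dI_apply, dI_apply, cv_conj, add_sub_right_comm, map_add, pj_sub_Ad, zero_add, map_mul,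
    map_mul, map_inv, pj_conj]

/-- `ω` on cocycles -/
noncomputable def omZ (x : Gen g → K) : C.Z1 x →ₗ[ℝ] C.Z1 x →ₗ[ℝ] ℝ :=
  (C.om x).compl₁₂ (C.Z1 x).subtype (C.Z1 x).subtype

theorem omZ_apply (x : Gen g → K) (u v : C.Z1 x) : C.omZ x u v = C.om x u v := rfl

theorem omZ_skew (x : Gen g → K) (u v : C.Z1 x) : C.omZ x u v = -C.omZ x v u := by
  have := C.om_add_swap x u v
  rw [C.mem_Z1.1 u.2, inner_zero_left] at this
  exact eq_neg_of_add_eq_zero_left this

/-- coboundaries among cocycles -/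
noncomputable def B1 (x : Gen g → K) : Submodule ℝ (C.Z1 x) :=
  (LinearMap.range (C.del x)).comap (C.Z1 x).subtype

theorem mem_B1 {x : Gen g → K} {u : C.Z1 x} : u ∈ C.B1 x ↔ ∃ η, C.del x η = u := Iff.rfl

theorem omZ_B1 {x : Gen g → K} {u : C.Z1 x} (hu : u ∈ C.B1 x) (v : C.Z1 x) : C.omZ x u v = 0 := by
  obtain ⟨η, h⟩ := C.mem_B1.1 hu
  rw [omZ_apply, ← h, om_del, C.mem_Z1.1 v.2, inner_zero_right]

theorem dI_B1 {x : Gen g → K} {u : C.Z1 x} (hu : u ∈ C.B1 x) (e : FG g) : C.dI x e u = 0 := by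
  obtain ⟨η, h⟩ := C.mem_B1.1 hu
  rw [dI_apply, ← h, cv_del, pj_sub_Ad]

/-- infinitesimal twist as a cocycle -/
noncomputable def twZ (x : Gen (g + 1) → K) : L →ₗ[ℝ] C.Z1 x :=
  LinearMap.codRestrict _ (C.twv x ∘ₗ (C.pj (x (0, false)) : L →ₗ[ℝ] L))
    fun ξ => C.twv_mem x (C.pj_mem _ ξ)

theorem twZ_coe (x : Gen (g + 1) → K) (ξ : L) :
    (C.twZ x ξ : Gen (g + 1) → L) = C.twv x (C.pj (x (0, false)) ξ) := rfl

theorem omZ_twZ (x : Gen (g + 1) → K) (ξ : L) (v : C.Z1 x) :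
    C.omZ x (C.twZ x ξ) v = -⟪ξ, C.dI x (ga 0) v⟫ := by
  rw [omZ_apply, twZ_coe, C.om_twv x (C.pj_mem _ ξ), dI_apply, inner_pj]
  simp

theorem dI_twZ_a (x : Gen (g + 1) → K) (ξ : L) : C.dI x (ga 0) (C.twZ x ξ) = 0 := by
  simp [dI_apply, twZ_coe, twv_a]

theorem dI_twZ_b (x : Gen (g + 1) → K) (ξ : L) :
    C.dI x (gb 0) (C.twZ x ξ) = C.pj (x (0, true)) (C.pj (x (0, false)) ξ) := by
  simp [dI_apply, twZ_coe, twv_b, pj_Ad]

/-- pull-back as an equivalence of cocycle spaces -/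
noncomputable def pbZ (φ : AutR g) (x : Gen g → K) :
    C.Z1 x ≃ₗ[ℝ] C.Z1 (act φ.1.toMonoidHom x) :=
  LinearEquiv.ofBijective (LinearMap.codRestrict _ (C.pb φ.1.toMonoidHom x ∘ₗ (C.Z1 x).subtype)
    fun u => C.pb_mem_Z1 φ.1.toMonoidHom φ.2 u.2) <| by
    constructor
    · refine (injective_iff_map_eq_zero _).2 fun u hu => Subtype.ext (funext fun i => ?_)
      have h : C.pb φ.1.toMonoidHom x u = 0 := congrArg Subtype.val hu
      have := C.cv_pb φ.1.toMonoidHom x u (φ.1.symm (.of i))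
      rw [h, map_zero] at this
      simpa using this.symm
    · intro v
      have hr : φ.1.symm (relator g) = relator g := by
        rw [MulEquiv.symm_apply_eq]; exact φ.2.symm
      have hc : ∀ w, C.cv x w (fun i => C.cv (act φ.1.toMonoidHom x) (φ.1.symm (.of i)) v) =
          C.cv (act φ.1.toMonoidHom x) (φ.1.symm w) v :=
        C.coc_ext (x := x) (f' := fun w => C.cv (act φ.1.toMonoidHom x) (φ.1.symm w) v)
          (C.cv_mul _ _) (fun a b => by simp [cv_mul, val_act]) (fun i => by simp)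
      refine ⟨⟨fun i => C.cv (act φ.1.toMonoidHom x) (φ.1.symm (.of i)) v, ?_⟩, ?_⟩
      · rw [mem_Z1, hc, hr]; exact v.2
      · refine Subtype.ext (funext fun i => ?_)
        change C.cv x _ _ = _
        rw [Submodule.subtype_apply, hc]
        simp

theorem pbZ_coe (φ : AutR g) (x : Gen g → K) (u : C.Z1 x) :
    (C.pbZ φ x u : Gen g → L) = C.pb φ.1.toMonoidHom x u := rfl

theorem omZ_pbZ (φ : AutR g) (x : Gen g → K) (u v : C.Z1 x) :
    C.omZ _ (C.pbZ φ x u) (C.pbZ φ x v) = C.omZ x u v := C.om_pb φ.1.toMonoidHom φ.2 x u v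

theorem dI_pbZ (φ : AutR g) (x : Gen g → K) (e : FG g) (u : C.Z1 x) :
    C.dI _ e (C.pbZ φ x u) = C.dI x (φ.1 e) u := by
  rw [dI_apply, dI_apply, pbZ_coe, cv_pb, val_act]; rfl

end Ctx

end Pool.Agent.Lib.MP_d52947_gt
end

-- part Pool.Agent.Lib.MP_d52947_gt.AmbB
section

/-! Tangent cones of sets of tuples in the ambient algebra. -/

namespace Pool.Agent.Lib.MP_d52947_gt

open Filter Topology Module
open scoped RealInnerProductSpace

namespace Amb

variable {L : Type} [NormedAddCommGroup L] [InnerProductSpace ℝ L] [FiniteDimensional ℝ L]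
  {K : Type} [Group K] [TopologicalSpace K] [IsTopologicalGroup K] [CompactSpace K]
  {A : Type} [NormedRing A] [NormedAlgebra ℝ A] [FiniteDimensional ℝ A] [CompleteSpace A]
  (C : Amb L K A) {G : Type} [Fintype G]

theorem ι_mul_inv (k : K) : C.ι k * C.ι k⁻¹ = 1 := by rw [← map_mul, mul_inv_cancel, map_one]
theorem ι_inv_mul (k : K) : C.ι k⁻¹ * C.ι k = 1 := by rw [← map_mul, inv_mul_cancel, map_one]

theorem ι_emb : IsClosedEmbedding C.ι := C.cont_ι.isClosedEmbedding C.ι_inj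

/-- embedding of tuples -/
def emb (x : G → K) : G → A := fun i => C.ι (x i)

theorem emb_inj : Function.Injective (C.emb : (G → K) → G → A) := fun _ _ h =>
  funext fun i => C.ι_inj (congrFun h i)

theorem cont_emb : Continuous (C.emb : (G → K) → G → A) :=
  continuous_pi fun i => C.cont_ι.comp (continuous_apply i)

theorem emb_closed : IsClosedEmbedding (C.emb : (G → K) → G → A) :=
  C.cont_emb.isClosedEmbedding C.emb_inj

theorem word_smooth (w : FreeGroup G) : ∃ W : (G → A) → A, ContDiff ℝ 1 W ∧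
    ∀ x, W (C.emb x) = C.ι (Ctx.val x w) := by
  induction w using FreeGroup.induction_on with
  | C1 => exact ⟨fun _ => 1, contDiff_const, fun x => by simp⟩
  | of i => exact ⟨fun z => z i, contDiff_apply ℝ A i, fun x => by simp [emb]⟩
  | inv_of i _ => exact ⟨fun z => C.tr (z i), C.tr.contDiff.comp (contDiff_apply ℝ A i),
      fun x => by simp [emb, C.tr_ι]⟩
  | mul a b ha hb =>
    obtain ⟨W, h1, h2⟩ := ha
    obtain ⟨W', h1', h2'⟩ := hb
    exact ⟨fun z => W z * W' z, h1.mul h1', fun x => by simp only [h2, h2', map_mul]⟩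

theorem cont_val (w : FreeGroup G) : Continuous fun x : G → K => Ctx.val x w := by
  induction w using FreeGroup.induction_on with
  | C1 => simpa using continuous_const
  | of i => simpa using continuous_apply i
  | inv_of i _ => simpa using (continuous_apply i).fun_inv
  | mul a b ha hb => simpa using ha.fun_mul hb

theorem sec_mem {k : ℕ → K} {c : ℕ → ℝ} {w : A} (hk : Tendsto k atTop (𝓝 1))
    (h : Tendsto (fun n => c n • (C.ι (k n) - 1)) atTop (𝓝 w)) : w = C.j (C.P w) := by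
  have hd : HasFDerivAt (fun η : L => NormedSpace.exp (C.j η)) C.j 0 := by
    have := (hasFDerivAt_exp_zero (𝕂 := ℝ) (𝔸 := A))
    rw [← map_zero C.j] at this
    exact this.comp 0 C.j.hasFDerivAt
  let Q : A →L[ℝ] A := 1 - C.j ∘L C.P
  have hQ : ∀ η, Q (C.j η) = 0 := fun η => by simp [Q, C.P_j]
  have key : ∀ ε > 0, ∀ᶠ k in 𝓝 (1 : K), ‖Q (C.ι k - 1)‖ ≤ ε * ‖C.ι k - 1‖ := by
    intro ε hε
    have h1 : (fun η : L => Q (NormedSpace.exp (C.j η) - 1)) =o[𝓝 0] fun η : L => η := by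
      have := (Q.isBigO_comp _ _).trans_isLittleO hd.isLittleO
      simpa [hQ] using this
    have h2 : (fun η : L => η) =O[𝓝 0] fun η : L => NormedSpace.exp (C.j η) - 1 := by
      have := (hd.isTheta_sub ((C.j.antilipschitz_of_bound (K := ‖C.P‖₊) fun x => by
        simpa [C.P_j] using C.P.le_opNorm (C.j x)).isInducing C.j.continuous)).symm.isBigO
      simpa using this
    have h3 := C.ex_nhds _ ((h1.trans_isBigO h2).bound hε)
    filter_upwards [h3] with _ ⟨η, hη, e⟩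
    rw [← e, C.ι_ex]; exact hη
  have : ‖Q w‖ ≤ 0 := by
    refine le_of_forall_pos_le_add fun ε hε => ?_
    have hp : 0 < ε / (‖w‖ + 1) := by positivity
    have h4 : ‖Q w‖ ≤ ε / (‖w‖ + 1) * ‖w‖ := by
      refine le_of_tendsto_of_tendsto ((Q.continuous.tendsto w).comp h).norm (h.norm.const_mul _) ?_
      filter_upwards [hk.eventually (key _ hp)] with n hn
      simp only [Function.comp, map_smul, norm_smul]
      nlinarith [norm_nonneg (c n)]
    refine h4.trans ?_
    rw [zero_add, div_mul_eq_mul_div, div_le_iff₀ (by positivity)]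
    nlinarith
  have h5 := norm_le_zero_iff.1 this
  simpa [Q, sub_eq_zero] using h5

/-- tangent vector attached to a cocycle -/
noncomputable def tv (x : G → K) : (G → L) →ₗ[ℝ] (G → A) where
  toFun u i := C.j (u i) * C.ι (x i)
  map_add' u v := by funext i; simp [add_mul]
  map_smul' c u := by funext i; simp

theorem tv_apply (x : G → K) (u : G → L) (i : G) : C.tv x u i = C.j (u i) * C.ι (x i) := rfl

theorem j_inj {η : L} (h : C.j η = 0) : η = 0 := by rw [← C.P_j η, h, map_zero]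

theorem eq_zero_of_j_mul {η : L} {k : K} (h : C.j η * C.ι k = 0) : η = 0 :=
  C.j_inj (by rw [← mul_one (C.j η), ← C.ι_mul_inv k, ← mul_assoc, h, zero_mul])

/-- a sequence of tuples tending to `x` in the direction `u` -/
structure Sec (S : Set (G → K)) (x : G → K) (u : G → L) (xs : ℕ → G → K) (c : ℕ → ℝ) : Prop where
  mem : ∀ n, xs n ∈ S
  lim : Tendsto xs atTop (𝓝 x)
  sec : ∀ i, Tendsto (fun n => c n • (C.ι (xs n i) - C.ι (x i))) atTop (𝓝 (C.j (u i) * C.ι (x i)))

theorem exists_sec {S : Set (G → K)} {x : G → K} {w : G → A} (hw : w ∈ Tan (C.emb '' S) (C.emb x)) :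
    ∃ u xs c, C.Sec S x u xs c ∧ w = C.tv x u := by
  obtain ⟨zs, c, h1, h2, h3⟩ := hw
  choose xs hx e using h1
  have hl : Tendsto xs atTop (𝓝 x) := by
    rw [C.emb_closed.isEmbedding.tendsto_nhds_iff]
    simpa [Function.comp_def, e] using h2
  have h4 : ∀ i, Tendsto (fun n => c n • (C.ι (xs n i) - C.ι (x i))) atTop (𝓝 (w i)) := fun i => by
    simpa [← e, emb] using tendsto_pi_nhds.1 h3 i
  have h5 : ∀ i, w i = C.j (C.P (w i * C.ι (x i)⁻¹)) * C.ι (x i) := fun i => by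
    rw [← C.sec_mem (k := fun n => xs n i * (x i)⁻¹) (c := c), mul_assoc, ι_inv_mul, mul_one]
    · simpa using (tendsto_pi_nhds.1 hl i).mul_const (x i)⁻¹
    · refine ((h4 i).mul_const (C.ι (x i)⁻¹)).congr fun n => ?_
      rw [smul_mul_assoc, sub_mul, ι_mul_inv, map_mul]
  exact ⟨fun i => C.P (w i * C.ι (x i)⁻¹), xs, c, ⟨hx, hl, fun i => h5 i ▸ h4 i⟩, funext h5⟩

variable {C}

theorem Sec.lim_val {S : Set (G → K)} {x : G → K} {u xs c} (h : C.Sec S x u xs c) (e : FreeGroup G) :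
    Tendsto (fun n => C.ι (Ctx.val (xs n) e)) atTop (𝓝 (C.ι (Ctx.val x e))) :=
  ((C.cont_ι.comp (cont_val e)).tendsto x).comp h.lim

theorem Sec.word {S : Set (G → K)} {x : G → K} {u xs c} (h : C.Sec S x u xs c) (e : FreeGroup G) :
    Tendsto (fun n => c n • (C.ι (Ctx.val (xs n) e) - C.ι (Ctx.val x e))) atTop
      (𝓝 (C.j (C.cv x e u) * C.ι (Ctx.val x e))) := by
  induction e using FreeGroup.induction_on with
  | C1 => simp
  | of i => simpa using h.sec i
  | inv_of i hi =>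
    have := ((h.lim_val (.of i)⁻¹).mul (h.sec i)).mul_const (C.ι (x i)⁻¹) |>.neg
    convert this using 2
    · simp only [map_inv, FreeGroup.lift_apply_of, mul_smul_comm, smul_mul_assoc, mul_sub, sub_mul,
        ι_inv_mul, mul_assoc, ι_mul_inv, one_mul, mul_one, ← smul_neg, neg_sub]
    · simp only [Ctx.cv_inv, map_inv, FreeGroup.lift_apply_of, Ctx.cv_of, map_neg, C.j_Ad, inv_inv,
        neg_mul, mul_assoc]
  | mul a b ha hb =>
    have := (ha.mul (h.lim_val b)).add (hb.const_mul (C.ι (Ctx.val x a)))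
    convert this using 2
    · simp only [map_mul, smul_mul_assoc, mul_smul_comm, ← smul_add, sub_mul, mul_sub]
      congr 1; abel
    · simp only [Ctx.cv_mul, map_add, C.j_Ad, map_mul, add_mul, mul_assoc]
      rw [← mul_assoc (C.ι (Ctx.val x a)⁻¹), ι_inv_mul, one_mul]

theorem Sec.cv_eq_zero {S : Set (G → K)} {x : G → K} {u xs c} (h : C.Sec S x u xs c)
    {e : FreeGroup G} (he : ∀ n, Ctx.val (xs n) e = Ctx.val x e) : C.cv x e u = 0 := by
  have := h.word e
  simp only [he, sub_self, smul_zero] at this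
  exact C.eq_zero_of_j_mul (tendsto_nhds_unique this tendsto_const_nhds |>.symm).symm

theorem Ad_eq (k : K) (y : L) : C.Ad k y = C.P (C.ι k * C.j y * C.ι k⁻¹) := by
  rw [← C.j_Ad, C.P_j]

theorem Sec.Ad {S : Set (G → K)} {x : G → K} {u xs c} (h : C.Sec S x u xs c) (i : G)
    {ys : ℕ → L} {y : L} (hy : Tendsto ys atTop (𝓝 y)) :
    Tendsto (fun n => c n • (C.Ad (xs n i) (ys n) - C.Ad (x i) (ys n))) atTop
      (𝓝 (C.ad (u i) (C.Ad (x i) y))) := by
  have hj := (C.j.continuous.tendsto y).comp hy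
  have h1 := ((h.sec i).mul hj).mul (h.lim_val (.of i)⁻¹)
  have h2 := (hj.const_mul (C.ι (x i))).mul (h.word (.of i)⁻¹)
  have := (C.P.continuous.tendsto _).comp (h1.add h2)
  convert this using 2
  · simp only [Function.comp, Ad_eq, map_inv, FreeGroup.lift_apply_of, smul_mul_assoc,
      mul_smul_comm, ← smul_add, map_smul, ← map_sub, sub_mul, mul_sub]
    congr 2; abel
  · rw [← C.P_j (C.ad _ _), C.j_ad]
    congr 1
    simp only [Ctx.cv_inv, map_inv, FreeGroup.lift_apply_of, Ctx.cv_of, map_neg, C.j_Ad, inv_inv,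
      mul_assoc, ι_mul_inv, mul_one, neg_mul, mul_neg, sub_eq_add_neg]

end Amb

end Pool.Agent.Lib.MP_d52947_gt
end
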