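import Pool.Agent.Lib.MP_d52947_gt.AmbB
import Pool.Agent.Lib.MP_d52947_gt.ModelA

-- part Pool.Agent.Lib.MP_d52947_gt.IrrAlg
section

/-! The algebraic part of the irreducibility of handles. -/

namespace Pool.Agent.Lib.MP_d52947_gt

open Module
open scoped RealInnerProductSpace

namespace Ctx

variable {L : Type} [NormedAddCommGroup L] [InnerProductSpace ℝ L] [FiniteDimensional ℝ L]
  {K : Type} [Group K] [TopologicalSpace K] (C : Ctx L K) {g : ℕ}

theorem ad_swap (x y : L) : C.ad x y = -C.ad y x := by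
  have := C.ad_self (x + y)
  simp only [map_add, ContinuousLinearMap.add_apply, C.ad_self, zero_add, add_zero] at this
  exact eq_neg_of_add_eq_zero_right this

theorem mem_Z {x : L} : x ∈ C.Z ↔ C.ad x = 0 := Iff.rfl

/-- centralizer of the generators of a set of handles -/
def cen (x : Gen g → K) (l : List (Fin g)) : Submodule ℝ L where
  carrier := {θ | ∀ i ∈ l, ∀ s, C.Ad (x (i, s)) θ = θ}
  zero_mem' i _ s := map_zero _
  add_mem' ha hb i hi s := by rw [map_add, ha i hi, hb i hi]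
  smul_mem' c a ha i hi s := by rw [map_smul, ha i hi]

theorem mem_cen {x : Gen g → K} {l : List (Fin g)} {θ : L} :
    θ ∈ C.cen x l ↔ ∀ i ∈ l, ∀ s, C.Ad (x (i, s)) θ = θ := Iff.rfl

/-- product of the commutators of a list of handles -/
def wl (l : List (Fin g)) : FG g := (l.map hcomm).prod

theorem wl_cons (i : Fin g) (l : List (Fin g)) : wl (i :: l) = hcomm i * wl l := by simp [wl]

theorem cv_wl_zero (x : Gen g → K) {u : Gen g → L} {l : List (Fin g)}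
    (h : ∀ i ∈ l, ∀ s, u (i, s) = 0) : C.cv x (wl l) u = 0 :=
  C.cv_list_zero x u _ fun w hw => by
    obtain ⟨i, hi, rfl⟩ := List.mem_map.1 hw
    simp [cv_hcomm, h i hi]

theorem comm_inv {S : L →L[ℝ] L} {k : K} (h : ∀ y, S (C.Ad k y) = C.Ad k (S y)) (y : L) :
    S (C.Ad k⁻¹ y) = C.Ad k⁻¹ (S y) := by
  conv_rhs => rw [← C.Ad_Ad_inv k y, h, Ad_inv_Ad]

theorem cv_wl_comm (x : Gen g → K) (u : Gen g → L) (S : L →L[ℝ] L) {l : List (Fin g)}
    (h : ∀ i ∈ l, ∀ s y, S (C.Ad (x (i, s)) y) = C.Ad (x (i, s)) (S y)) :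
    C.cv x (wl l) (fun i => S (u i)) = S (C.cv x (wl l) u) ∧
      ∀ y, S (C.Ad (val x (wl l)) y) = C.Ad (val x (wl l)) (S y) := by
  induction l with
  | nil => simp [wl]
  | cons i l ih =>
    obtain ⟨h1, h2⟩ := ih fun j hj => h j (by simp [hj])
    have ha := h i (by simp)
    have h3 : ∀ y, S (C.Ad (val x (hcomm i)) y) = C.Ad (val x (hcomm i)) (S y) := fun y => by
      simp [hcomm, ha, C.comm_inv (ha _)]
    refine ⟨?_, fun y => by simp only [wl_cons, map_mul, ContinuousLinearMap.mul_apply, h2, h3]⟩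
    rw [wl_cons, cv_mul, cv_mul, map_add, h1, h3]
    simp [cv_hcomm, ha, C.comm_inv (ha _)]

theorem cen_perp (x : Gen g → K) (u : Gen g → L) {l : List (Fin g)} {θ : L} (h : θ ∈ C.cen x l) :
    ⟪θ, C.cv x (wl l) u⟫ = 0 ∧ C.Ad (val x (wl l)) θ = θ := by
  induction l with
  | nil => simp [wl]
  | cons i l ih =>
    obtain ⟨h1, h2⟩ := ih fun j hj => h j (by simp [hj])
    have ha := h i (by simp)
    have hb : ∀ s, C.Ad (x (i, s))⁻¹ θ = θ := fun s => by
      conv_lhs => rw [← ha s, Ad_inv_Ad]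
    have h3 : C.Ad (val x (hcomm i)) θ = θ := by simp [hcomm, ha, hb]
    have h4 : C.Ad (val x (hcomm i))⁻¹ θ = θ := by
      conv_lhs => rw [← h3, Ad_inv_Ad]
    refine ⟨?_, by simp only [wl_cons, map_mul, ContinuousLinearMap.mul_apply, h2, h3]⟩
    rw [wl_cons, cv_mul, inner_add_right, inner_Ad_right, h4, h1]
    simp [cv_hcomm, inner_sub_right, inner_add_right, inner_Ad_right, ha, hb]

theorem mem_cen_of_perp (x : Gen g → K) {l : List (Fin g)} (hl : l.Nodup) {θ : L}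
    (h : ∀ u : Gen g → L, (∀ i ∉ l, ∀ s, u (i, s) = 0) → ⟪θ, C.cv x (wl l) u⟫ = 0) :
    θ ∈ C.cen x l := by
  induction l with
  | nil => simp [mem_cen]
  | cons i l ih =>
    rw [List.nodup_cons] at hl
    have h0 : ∀ s y, ⟪θ, C.cv x (hcomm i) (Pi.single (i, s) y)⟫ = 0 := fun s y => by
      have := h (Pi.single (i, s) y) fun j hj s' => Pi.single_eq_of_ne (fun e => hj (by
        simp [show j = i from (Prod.ext_iff.1 e).1])) _
      rwa [wl_cons, cv_mul, C.cv_wl_zero x fun j hj s' => Pi.single_eq_of_ne (fun e => hl.1 (by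
        rwa [← show j = i from (Prod.ext_iff.1 e).1])) _, map_zero, add_zero] at this
    have h1 : C.Ad (x (i, false) * x (i, true) * (x (i, false))⁻¹)⁻¹ θ = θ :=
      ext_inner_right ℝ fun y => by
        have := h0 false y
        simp only [cv_hcomm, Pi.single_eq_same, ne_eq, Prod.mk.injEq, true_and, Bool.true_eq_false,
          not_false_eq_true, Pi.single_eq_of_ne, map_zero, add_zero, sub_zero, inner_sub_right,
          inner_Ad_right] at this
        linarith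
    have h2 : C.Ad (x (i, false))⁻¹ θ =
        C.Ad (x (i, false) * x (i, true) * (x (i, false))⁻¹ * (x (i, true))⁻¹)⁻¹ θ :=
      ext_inner_right ℝ fun y => by
        have := h0 true y
        simp only [cv_hcomm, Pi.single_eq_same, ne_eq, Prod.mk.injEq, true_and, Bool.false_eq_true,
          not_false_eq_true, Pi.single_eq_of_ne, map_zero, zero_add, sub_zero, inner_sub_right,
          inner_Ad_right] at this
        linarith
    rw [mul_inv_rev, Ad_mul_apply, h1, inv_inv] at h2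
    simp only [mul_inv_rev, inv_inv, Ad_mul_apply] at h1
    rw [h2, Ad_inv_Ad] at h1
    have h3 : C.Ad (x (i, true)) θ = θ := by
      rw [← h2]
      conv_lhs => rw [← h1, Ad_inv_Ad]
    have hi : θ ∈ C.cen x [i] := by
      intro j hj s
      obtain rfl : j = i := by simpa using hj
      cases s
      exacts [h1, h3]
    have h4 : C.Ad (val x (hcomm i))⁻¹ θ = θ := by
      have := (C.cen_perp x 0 hi).2
      rw [wl_cons, show wl ([] : List (Fin g)) = 1 from rfl, mul_one] at this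
      conv_lhs => rw [← this, Ad_inv_Ad]
    have h5 := ih hl.2 fun u hu => by
      have := h u fun j hj => hu j fun hj' => hj (by simp [hj'])
      rwa [wl_cons, cv_mul, cv_hcomm, hu i hl.1, hu i hl.1, inner_add_right, inner_Ad_right, h4,
        map_zero, map_zero, map_zero, add_zero, sub_zero, sub_zero, inner_zero_right,
        zero_add] at this
    intro j hj s
    rcases List.mem_cons.1 hj with rfl | hj
    exacts [hi j (by simp) s, h5 j hj s]

/-- first-order condition for staying in a stratum -/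
def Cond (x : Gen g → K) (l : List (Fin g)) (u : Gen g → L) : Prop :=
  ∀ ζ ∈ C.cen x l, ∀ i ∈ l, ∀ ya yb : L,
    ya - C.Ad (x (i, false))⁻¹ ya + (yb - C.Ad (x (i, true))⁻¹ yb) = 0 →
      ⟪ya, C.ad (u (i, false)) ζ⟫ + ⟪yb, C.ad (u (i, true)) ζ⟫ = 0

theorem half {x : Gen g → K} {l l' : List (Fin g)} (hl : l.Nodup) (hl' : l'.Nodup)
    {i₀ : Fin g} (hi₀ : i₀ ∈ l) (hdis : ∀ i, i ∈ l' ↔ i ∉ l) {k k' : K}
    (hF : ∀ u, C.cv x (relator g) u = C.Ad k (C.cv x (wl l) u) + C.Ad k' (C.cv x (wl l') u))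
    (hk : k = 1 ∨ k = (val x (wl l))⁻¹) (hk' : k' = 1 ∨ k' = (val x (wl l'))⁻¹)
    (h : ∀ u ∈ C.Z1 x, C.Cond x l u) {ζ : L} (hζ : ζ ∈ C.cen x l) :
    (∀ ζ' ∈ C.cen x l, C.ad ζ ζ' = 0) ∧ ∀ y, ∃ z ∈ C.cen x l, C.ad ζ y + z ∈ C.cen x l' := by
  classical
  set m : Submodule ℝ L := LinearMap.range (C.ad ζ : L →ₗ[ℝ] L) with hm
  have hmA : ∀ i ∈ l, ∀ s, ∀ y ∈ m, C.Ad (x (i, s)) y ∈ m := by
    rintro i hi s _ ⟨y, rfl⟩
    exact ⟨C.Ad (x (i, s)) y, by simp [C.Ad_ad, hζ i hi s]⟩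
  have hmA' : ∀ i ∈ l, ∀ s, ∀ y ∈ m, C.Ad (x (i, s))⁻¹ y ∈ m := by
    rintro i hi s _ ⟨y, rfl⟩
    refine ⟨C.Ad (x (i, s))⁻¹ y, ?_⟩
    simp only [ContinuousLinearMap.coe_coe, C.Ad_ad]
    conv_rhs => rw [← hζ i hi s, Ad_inv_Ad]
  have hπ : ∀ i ∈ l, ∀ s y, m.starProjection (C.Ad (x (i, s)) y) =
      C.Ad (x (i, s)) (m.starProjection y) := fun i hi s y =>
    Submodule.eq_starProjection_of_mem_of_inner_eq_zero
      (hmA i hi s _ (m.starProjection_apply_mem y)) fun w hw => by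
        rw [← map_sub, inner_Ad_left]
        exact Submodule.starProjection_inner_eq_zero y _ (hmA' i hi s w hw)
  have hinj : ∀ y ∈ m, C.ad ζ y = 0 → y = 0 := by
    rintro _ ⟨y, rfl⟩ hy
    refine inner_self_eq_zero.1 (?_ : ⟪C.ad ζ y, C.ad ζ y⟫ = (0 : ℝ))
    rw [C.inner_ad]
    exact neg_eq_zero.2 (by rw [show C.ad ζ (C.ad ζ y) = 0 from hy, inner_zero_right])
  have key : ∀ {l : List (Fin g)} {k : K}, l.Nodup → (k = 1 ∨ k = (val x (wl l))⁻¹) → ∀ θ,
      (∀ u : Gen g → L, (∀ i ∉ l, ∀ s, u (i, s) = 0) → ⟪θ, C.Ad k (C.cv x (wl l) u)⟫ = 0) →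
      θ ∈ C.cen x l := by
    intro l k hl hk θ hθ
    have h1 := C.mem_cen_of_perp x hl (θ := C.Ad k⁻¹ θ) fun u hu => by
      rw [← inner_Ad_right]; exact hθ u hu
    rcases hk with rfl | rfl
    · simpa using h1
    · have := (C.cen_perp x 0 h1).2
      rw [inv_inv] at this h1
      have h2 : C.Ad (val x (wl l)) θ = θ := by simpa using congrArg (C.Ad (val x (wl l))⁻¹) this
      rwa [h2] at h1
  let T : (m × m) →ₗ[ℝ] m := LinearMap.codRestrict m
    ((((1 - C.Ad (x (i₀, false))⁻¹ : L →L[ℝ] L) : L →ₗ[ℝ] L) ∘ₗ m.subtype).coprod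
      (((1 - C.Ad (x (i₀, true))⁻¹ : L →L[ℝ] L) : L →ₗ[ℝ] L) ∘ₗ m.subtype)) fun y =>
    m.add_mem (m.sub_mem y.1.2 (hmA' _ hi₀ _ _ y.1.2)) (m.sub_mem y.2.2 (hmA' _ hi₀ _ _ y.2.2))
  have hT : finrank ℝ m ≤ finrank ℝ (LinearMap.ker T) := by
    have h1 := T.finrank_range_add_finrank_ker
    have h2 := Submodule.finrank_le (LinearMap.range T)
    rw [finrank_prod] at h1
    omega
  let Ψ : (m × m) →ₗ[ℝ] Dual ℝ (Gen g → L) :=
    (((innerₗ L).compl₂ (LinearMap.proj (i₀, false))) ∘ₗ (C.ad ζ : L →ₗ[ℝ] L) ∘ₗ m.subtype).coprod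
      (((innerₗ L).compl₂ (LinearMap.proj (i₀, true))) ∘ₗ (C.ad ζ : L →ₗ[ℝ] L) ∘ₗ m.subtype)
  have hΨ : ∀ y u, Ψ y u = ⟪C.ad ζ y.1, u (i₀, false)⟫ + ⟪C.ad ζ y.2, u (i₀, true)⟫ :=
    fun _ _ => rfl
  have hΨi : Function.Injective Ψ := (injective_iff_map_eq_zero Ψ).2 fun y hy => by
    have h1 := hΨ y (Pi.single (i₀, false) (C.ad ζ y.1))
    have h2 := hΨ y (Pi.single (i₀, true) (C.ad ζ y.2))
    simp only [hy, LinearMap.zero_apply, Pi.single_eq_same, ne_eq, Prod.mk.injEq, true_and,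
      Bool.true_eq_false, Bool.false_eq_true, not_false_eq_true, Pi.single_eq_of_ne,
      inner_zero_right, add_zero, zero_add] at h1 h2
    exact Prod.ext (Subtype.ext (hinj _ y.1.2 (inner_self_eq_zero.1 h1.symm)))
      (Subtype.ext (hinj _ y.2.2 (inner_self_eq_zero.1 h2.symm)))
  let res : (Gen g → L) →ₗ[ℝ] (Gen g → L) := LinearMap.pi fun p =>
    if p.1 ∈ l then LinearMap.proj p else 0
  have hres : ∀ u i s, res u (i, s) = if i ∈ l then u (i, s) else 0 := fun u i s => by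
    simp only [res, LinearMap.pi_apply]; split_ifs <;> rfl
  have hFl : ∀ u : Gen g → L, (∀ i ∉ l, ∀ s, u (i, s) = 0) →
      C.cv x (relator g) u = C.Ad k (C.cv x (wl l) u) := fun u hu => by
    rw [hF, C.cv_wl_zero x fun i hi => hu i ((hdis i).1 hi), map_zero, add_zero]
  let Φ : L →ₗ[ℝ] Dual ℝ (Gen g → L) := (innerₗ L).compl₂ (C.cv x (relator g) ∘ₗ res)
  have hΦ : ∀ θ u, Φ θ u = ⟪θ, C.Ad k (C.cv x (wl l) (res u))⟫ := fun θ u => by
    rw [← hFl _ fun i hi s => by rw [hres, if_neg hi]]; rfl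
  have hΦ0 : ∀ θ ∈ C.cen x l, Φ θ = 0 := fun θ hθ => LinearMap.ext fun u => by
    rw [hΦ, inner_Ad_right]
    rcases hk with rfl | rfl
    · simpa using (C.cen_perp x _ hθ).1
    · rw [inv_inv, (C.cen_perp x 0 hθ).2]; exact (C.cen_perp x _ hθ).1
  let Θ : Submodule ℝ L := C.cen x l' ⊓ (C.cen x l).comap
    ((1 - m.starProjection : L →L[ℝ] L) : L →ₗ[ℝ] L)
  let M' := Θ.map (m.starProjection : L →ₗ[ℝ] L)
  have hM' : M' ≤ m := by
    rintro _ ⟨θ, -, rfl⟩; exact m.starProjection_apply_mem θ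
  have hle : (LinearMap.ker T).map Ψ ≤ M'.map Φ := by
    rintro _ ⟨y, hy, rfl⟩
    have h1 : Ψ y ∈ (LinearMap.ker (C.cv x (relator g))).dualAnnihilator := by
      rw [Submodule.mem_dualAnnihilator]
      intro u hu
      have hy' : (T y : L) = 0 := congrArg Subtype.val hy
      have := h u hu ζ hζ i₀ hi₀ y.1 y.2 hy'
      rw [hΨ, C.inner_ad, C.inner_ad, C.ad_swap ζ, C.ad_swap ζ, inner_neg_right, inner_neg_right,
        neg_neg, neg_neg, this]
    rw [← LinearMap.range_dualMap_eq_dualAnnihilator_ker] at h1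
    obtain ⟨φ, hφ⟩ := h1
    let θ := (InnerProductSpace.toDual ℝ L).symm (LinearMap.toContinuousLinearMap φ)
    have hθ : ∀ u, ⟪θ, C.cv x (relator g) u⟫ = Ψ y u := fun u => by
      rw [← hφ, InnerProductSpace.toDual_symm_apply]; rfl
    have hθ1 : θ ∈ C.cen x l' := key hl' hk' θ fun u hu => by
      have hi : i₀ ∉ l' := fun h => (hdis _).1 h hi₀
      have := hθ u
      rwa [hF, C.cv_wl_zero x fun i hi => hu i fun h => (hdis i).1 h hi, map_zero, zero_add, hΨ,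
        hu _ hi, hu _ hi, inner_zero_right, inner_zero_right, add_zero] at this
    have hθ2 : θ - m.starProjection θ ∈ C.cen x l := key hl hk _ fun u hu => by
      have hc := C.cv_wl_comm x u (1 - m.starProjection) (l := l) fun i hi s y => by
        simp [hπ i hi]
      have hk2 : ∀ y, (1 - m.starProjection) (C.Ad k y) = C.Ad k ((1 - m.starProjection) y) := by
        rcases hk with rfl | rfl
        · simp
        · exact C.comm_inv hc.2
      have := hθ fun p => (1 - m.starProjection) (u p)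
      rw [hFl _ fun i hi s => by rw [hu i hi, map_zero], hc.1, ← hk2, hΨ] at this
      simp only [ContinuousLinearMap.sub_apply, ContinuousLinearMap.one_apply] at this
      have e : ∀ z w : L, ⟪C.ad ζ z, w - m.starProjection w⟫ = 0 := fun z w => by
        rw [real_inner_comm]
        exact Submodule.starProjection_inner_eq_zero w _ ⟨z, rfl⟩
      rwa [inner_sub_right, ← Submodule.inner_starProjection_left_eq_right, ← inner_sub_left, e, e,
        add_zero] at this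
    refine ⟨_, ⟨θ, ⟨hθ1, hθ2⟩, rfl⟩, ?_⟩
    have h3 := hΦ0 _ hθ2
    rw [map_sub, sub_eq_zero] at h3
    rw [ContinuousLinearMap.coe_coe, ← h3]
    refine LinearMap.ext fun u => (hθ (res u)).trans ?_
    rw [hΨ, hΨ, hres, hres, if_pos hi₀, if_pos hi₀]
  have d1 : finrank ℝ m ≤ finrank ℝ (M'.map Φ) :=
    hT.trans ((Submodule.equivMapOfInjective Ψ hΨi _).finrank_eq.le.trans
      (Submodule.finrank_mono hle))
  have hMm : M' = m := Submodule.eq_of_le_of_finrank_le hM'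
    (d1.trans (Submodule.finrank_map_le _ _))
  refine ⟨fun ζ' hζ' => ?_, fun y => ?_⟩
  · have h1 := (Φ ∘ₗ m.subtype).finrank_range_add_finrank_ker
    rw [LinearMap.range_comp, Submodule.range_subtype] at h1
    rw [hMm] at d1
    have h2 : LinearMap.ker (Φ ∘ₗ m.subtype) = ⊥ := Submodule.finrank_eq_zero.1 (by omega)
    have := LinearMap.ker_eq_bot'.1 h2 ⟨C.ad ζ ζ', ζ', rfl⟩ (hΦ0 _ fun i hi s => by
      rw [Submodule.subtype_apply, C.Ad_ad, hζ i hi, hζ' i hi])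
    exact congrArg Subtype.val this
  · obtain ⟨θ, ⟨h1, h2⟩, h3⟩ : C.ad ζ y ∈ M' := hMm ▸ ⟨y, rfl⟩
    exact ⟨_, h2, by rw [← h3]; simpa using h1⟩

theorem not_cond {x : Gen g → K} {l l' : List (Fin g)} (hl : l.Nodup) (hl' : l'.Nodup)
    {i₀ i₁ : Fin g} (hi₀ : i₀ ∈ l) (hi₁ : i₁ ∈ l') (hdis : ∀ i, i ∈ l' ↔ i ∉ l) {k k' : K}
    (hF : ∀ u, C.cv x (relator g) u = C.Ad k (C.cv x (wl l) u) + C.Ad k' (C.cv x (wl l') u))
    (hk : k = 1 ∨ k = (val x (wl l))⁻¹) (hk' : k' = 1 ∨ k' = (val x (wl l'))⁻¹)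
    (h : ∀ u ∈ C.Z1 x, C.Cond x l u ∧ C.Cond x l' u) : C.cen x l ≤ C.Z := by
  intro ζ hζ
  obtain ⟨h1, h2⟩ := C.half hl hl' hi₀ hdis hF hk hk' (fun u hu => (h u hu).1) hζ
  have h3 := fun θ hθ => (C.half hl' hl hi₁ (fun i => by rw [hdis, not_not])
    (fun u => by rw [hF, add_comm]) hk' hk (fun u hu => (h u hu).2) (ζ := θ) hθ).1
  have h4 : ∀ y, C.ad ζ (C.ad ζ y) = 0 := fun y => by
    obtain ⟨z, hz, hz'⟩ := h2 y
    obtain ⟨w, hw, hw'⟩ := h2 (C.ad ζ y)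
    have h5 := congrArg (fun v => ⟪ζ, v⟫) (h3 _ hz' _ hw')
    simp only [inner_zero_right] at h5
    rw [← neg_neg ⟪ζ, _⟫, ← C.inner_ad, C.ad_swap _ ζ, map_add, h1 z hz, add_zero, inner_neg_left,
      neg_neg, inner_add_right, C.inner_ad ζ _ w, h1 w hw, inner_zero_right, neg_zero,
      add_zero] at h5
    exact inner_self_eq_zero.1 h5
  rw [mem_Z]
  ext y
  refine inner_self_eq_zero.1 (?_ : ⟪C.ad ζ y, C.ad ζ y⟫ = (0 : ℝ))
  rw [C.inner_ad, h4, inner_zero_right, neg_zero]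

end Ctx

end Pool.Agent.Lib.MP_d52947_gt
end

-- part Pool.Agent.Lib.MP_d52947_gt.Lie1
section

/-! Ideals and weights. -/

namespace Pool.Agent.Lib.MP_d52947_gt

open Filter Topology NormedSpace Module
open scoped RealInnerProductSpace

section
variable {L : Type} [NormedAddCommGroup L] [NormedSpace ℝ L] [FiniteDimensional ℝ L]

theorem exp_ode (D : L →L[ℝ] L) {γ : ℝ → L} (h : ∀ t, HasDerivAt γ (D (γ t)) t) :
    exp D (γ 0) = γ 1 := by
  have := FiniteDimensional.complete ℝ L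
  have h1 : ∀ t : ℝ, HasDerivAt (fun t : ℝ => exp (t • -D) (γ t)) 0 t := fun t =>
    ((hasDerivAt_exp_smul_const (𝕂 := ℝ) (-D) t).clm_apply (h t)).congr_deriv (by simp)
  have h2 := is_const_of_deriv_eq_zero (fun t => (h1 t).differentiableAt) (fun t => (h1 t).deriv) 1 0
  have h3 := congrArg (· (γ 1)) (exp_neg_mul (-D))
  simp only [one_smul, zero_smul, exp_zero, ContinuousLinearMap.one_apply, neg_neg,
    ContinuousLinearMap.mul_apply] at h2 h3
  rw [← h2, h3]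

theorem exp_fix {D : L →L[ℝ] L} {x : L} (h : D x = 0) : exp D x = x :=
  exp_ode D (γ := fun _ => x) fun t => h ▸ hasDerivAt_const t x

theorem exp_rot {D : L →L[ℝ] L} {X Y : L} {a : ℝ} (hX : D X = -(a • Y)) (hY : D Y = a • X) :
    exp D X = Real.cos a • X - Real.sin a • Y := by
  have := exp_ode D (γ := fun t => Real.cos (t * a) • X - Real.sin (t * a) • Y) fun t =>
    ((((hasDerivAt_mul_const a).cos).smul_const X).sub
      (((hasDerivAt_mul_const a).sin).smul_const Y)).congr_deriv (by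
        simp only [map_sub, map_smul, hX, hY]; module)
  simpa using this

theorem exp_mem {D : L →L[ℝ] L} {W : Submodule ℝ L} (h : ∀ y ∈ W, D y ∈ W) {y : L} (hy : y ∈ W) :
    exp D y ∈ W := by
  have := FiniteDimensional.complete ℝ L
  refine W.closed_of_finiteDimensional.mem_of_tendsto ((exp_series_hasSum_exp' (𝕂 := ℝ) D).mapL
    (ContinuousLinearMap.apply ℝ L y)) (Eventually.of_forall fun s => W.sum_mem fun n hn => ?_)
  clear hn
  refine W.smul_mem _ (show (D ^ n) y ∈ W from ?_)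
  induction n with
  | zero => exact hy
  | succ n ih => rw [pow_succ']; exact h _ ih

end

theorem proj_comm {L : Type} [NormedAddCommGroup L] [InnerProductSpace ℝ L] [FiniteDimensional ℝ L]
    {U : Submodule ℝ L} (S : L →L[ℝ] L) (h : ∀ y ∈ U, S y ∈ U) (h' : ∀ y ∈ Uᗮ, S y ∈ Uᗮ) (y : L) :
    U.starProjection (S y) = S (U.starProjection y) :=
  Submodule.eq_starProjection_of_mem_orthogonal (h _ (U.starProjection_apply_mem y))
    (by rw [← map_sub]; exact h' _ (U.sub_starProjection_mem_orthogonal y))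

namespace Ctx
variable {L : Type} [NormedAddCommGroup L] [InnerProductSpace ℝ L] [FiniteDimensional ℝ L]
  {K : Type} [Group K] [TopologicalSpace K] [IsTopologicalGroup K] [CompactSpace K]
  [ConnectedSpace K] (C : Ctx L K)

theorem jac (x y z : L) : C.ad x (C.ad y z) = C.ad (C.ad x y) z + C.ad y (C.ad x z) := by
  simp [C.ad_ad]

theorem inner_ad' (x y z : L) : ⟪C.ad x y, z⟫ = ⟪y, C.ad z x⟫ := by
  rw [C.inner_ad, C.ad_swap z, inner_neg_right]

theorem ex_neg (x : L) : C.ex (-x) = (C.ex x)⁻¹ :=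
  eq_inv_of_mul_eq_one_left (by rw [← C.ex_add _ _ (by simp [C.ad_self]), neg_add_cancel, C.ex_zero])

theorem ex_nsmul (x : L) (n : ℕ) : C.ex ((n : ℝ) • x) = C.ex x ^ n := by
  induction n with
  | zero => simp [C.ex_zero]
  | succ n ih => rw [Nat.cast_succ, add_smul, one_smul, C.ex_add _ _ (by simp [C.ad_self]), ih, pow_succ]

theorem gen_top (H : Subgroup K) (h : ∀ x, C.ex x ∈ H) (k : K) : k ∈ H := by
  have h1 : IsOpen (H : Set K) := H.isOpen_of_mem_nhds (mem_of_superset (C.ex_nhds _ univ_mem)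
    (by rintro _ ⟨x, -, rfl⟩; exact h x))
  exact (IsClopen.eq_univ ⟨H.isClosed_of_isOpen h1, h1⟩ ⟨1, H.one_mem⟩).ge trivial

theorem hasDerivAt_Ad (y x : L) : HasDerivAt (fun t : ℝ => C.Ad (C.ex (t • y)) x) (C.ad y x) 0 := by
  have := FiniteDimensional.complete ℝ L
  simpa [C.Ad_ex] using (hasDerivAt_exp0 (C.ad y)).clm_apply (hasDerivAt_const 0 x)

theorem Ad_mem_of_ad (W : Submodule ℝ L) (hW : ∀ x, ∀ y ∈ W, C.ad x y ∈ W) (k : K) :
    ∀ y ∈ W, C.Ad k y ∈ W := by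
  let H : Subgroup K :=
    { carrier := {k | (∀ y ∈ W, C.Ad k y ∈ W) ∧ ∀ y ∈ W, C.Ad k⁻¹ y ∈ W}
      one_mem' := by simp
      mul_mem' := fun ha hb => ⟨fun y hy => by rw [Ad_mul_apply]; exact ha.1 _ (hb.1 _ hy),
        fun y hy => by rw [mul_inv_rev, Ad_mul_apply]; exact hb.2 _ (ha.2 _ hy)⟩
      inv_mem' := fun ha => ⟨ha.2, by simpa using ha.1⟩ }
  refine (C.gen_top H (fun x => ⟨fun y hy => ?_, fun y hy => ?_⟩) k).1
  · rw [C.Ad_ex]; exact exp_mem (hW _) hy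
  · rw [← ex_neg, C.Ad_ex]; exact exp_mem (hW _) hy

theorem Ad_ex_fix {x y : L} (h : C.ad x y = 0) : C.Ad (C.ex x) y = y := by
  rw [C.Ad_ex]; exact exp_fix h

theorem mem_Z_iff (x : L) : x ∈ C.Z ↔ ∀ k, C.Ad k x = x := by
  refine ⟨fun h k => ?_, fun h => C.mem_Z.2 (ContinuousLinearMap.ext fun y => ?_)⟩
  · let H : Subgroup K :=
      { carrier := {k | C.Ad k x = x}
        one_mem' := by simp
        mul_mem' := fun {a b} (ha : _ = _) (hb : _ = _) => by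
          rw [Set.mem_setOf_eq, Ad_mul_apply, hb, ha]
        inv_mem' := fun {a} (ha : _ = _) => by
          rw [Set.mem_setOf_eq]; conv_lhs => rw [← ha, Ad_inv_Ad] }
    exact C.gen_top H (fun y => C.Ad_ex_fix (by rw [ad_swap, C.mem_Z.1 h]; simp)) k
  · have := C.hasDerivAt_Ad y x
    simp only [h] at this
    rw [ad_swap, this.unique (hasDerivAt_const _ _)]; simp

theorem perp_inv {W : Submodule ℝ L} {x : L} (h : ∀ y ∈ W, C.ad x y ∈ W) :
    ∀ y ∈ Wᗮ, C.ad x y ∈ Wᗮ := fun y hy z hz => by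
  rw [real_inner_comm, C.inner_ad, real_inner_comm, hy _ (h z hz), neg_zero]

theorem exists_min {P : Submodule ℝ L → Prop} {W : Submodule ℝ L} (hW : P W) (h0 : W ≠ ⊥) :
    ∃ U, U ≤ W ∧ P U ∧ U ≠ ⊥ ∧ ∀ V, V ≤ U → P V → V = ⊥ ∨ V = U := by
  obtain ⟨U, ⟨h1, h2, h3⟩, h4⟩ := exists_minimal_of_wellFoundedLT
    (fun U : Submodule ℝ L => U ≤ W ∧ P U ∧ U ≠ ⊥) ⟨W, le_rfl, hW, h0⟩
  exact ⟨U, h1, h2, h3, fun V hV hP => or_iff_not_imp_left.2 fun h =>
    le_antisymm hV (h4 ⟨hV.trans h1, hP, h⟩ hV)⟩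

theorem exists_dec (W : Submodule ℝ L) (hW : ∀ x, ∀ y ∈ W, C.ad x y ∈ W) :
    ∃ (N : ℕ) (U : Fin N → Submodule ℝ L), (∀ i, U i ≤ W ∧ (∀ x, ∀ y ∈ U i, C.ad x y ∈ U i) ∧
      ∀ V, V ≤ U i → (∀ x, ∀ y ∈ V, C.ad x y ∈ V) → V = ⊥ ∨ V = U i) ∧
      (∀ i j, i ≠ j → U i ≤ (U j)ᗮ) ∧ ∀ x ∈ W, ∑ i, (U i).starProjection x = x := by
  induction W using WellFoundedLT.induction with
  | _ W ih =>
  by_cases h0 : W = ⊥
  · exact ⟨0, Fin.elim0, by simp, by simp, by simp [h0]⟩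
  obtain ⟨U, h1, h2, h3, h4⟩ := exists_min (P := fun W => ∀ x, ∀ y ∈ W, C.ad x y ∈ W) hW h0
  obtain ⟨N, V, h5, h6, h7⟩ := ih (W ⊓ Uᗮ) (lt_of_le_of_ne inf_le_left fun e => h3
      ((Submodule.orthogonal_disjoint U).eq_bot_of_le (h1.trans (inf_eq_left.1 e))))
    fun x y hy => ⟨hW x y hy.1, C.perp_inv (h2 x) y hy.2⟩
  have h8 : ∀ i, V i ≤ Uᗮ := fun i => (h5 i).1.trans inf_le_right
  refine ⟨N + 1, Fin.cons U V, Fin.cases ⟨h1, h2, h4⟩ fun i =>
    ⟨(h5 i).1.trans inf_le_left, (h5 i).2⟩, fun i j => ?_, fun x hx => ?_⟩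
  · refine Fin.cases (Fin.cases (by simp) (fun j _ => ?_) j) (fun i => Fin.cases (fun _ => h8 i)
      (fun j h => h6 i j fun e => h (congrArg _ e)) j) i
    exact (Submodule.isOrtho_iff_le.2 (h8 j)).symm
  · have := h7 _ ⟨W.sub_mem hx (h1 (U.starProjection_apply_mem x)),
      U.sub_starProjection_mem_orthogonal x⟩
    simp only [map_sub, fun i => (Submodule.starProjection_apply_eq_zero_iff (V i)).2
      ((Submodule.isOrtho_iff_le.2 (h8 i)).symm (U.starProjection_apply_mem x)), sub_zero] at this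
    simp [Fin.sum_univ_succ, this]

theorem Z_ideal (x : L) : ∀ y ∈ C.Z, C.ad x y ∈ C.Z := fun y hy => by
  rw [ad_swap, C.mem_Z.1 hy]; simp

theorem exists_ideals : Nonempty C.Ideals := by
  obtain ⟨N, U, h1, h2, h3⟩ := C.exists_dec C.Zᗮ fun x => C.perp_inv (C.Z_ideal x)
  have h4 : ∀ i, ∀ x ∈ C.Z, (U i).starProjection x = 0 := fun i x hx =>
    (Submodule.starProjection_apply_eq_zero_iff _).2
      ((Submodule.isOrtho_iff_le.2 (h1 i).1).symm hx)
  refine ⟨⟨N, fun i => (U i).starProjection, fun i => Submodule.inner_starProjection_left_eq_right _,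
    fun i x => Submodule.starProjection_eq_self_iff.2 ((U i).starProjection_apply_mem x),
    fun i j h x => (Submodule.starProjection_apply_eq_zero_iff _).2
      (h2 j i h.symm ((U j).starProjection_apply_mem x)), h4, fun x => ?_,
    fun i x => proj_comm _ ((h1 i).2.1 x) (C.perp_inv ((h1 i).2.1 x)),
    fun i k => proj_comm _ (C.Ad_mem_of_ad _ (h1 i).2.1 k)
      (C.Ad_mem_of_ad _ (fun x => C.perp_inv ((h1 i).2.1 x)) k), fun i W hW hW' => ?_⟩⟩
  · have := h3 _ (C.Z.sub_starProjection_mem_orthogonal x)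
    simp only [map_sub, h4 _ _ (C.Z.starProjection_apply_mem x), sub_zero] at this
    rw [this, sub_sub_cancel]; exact C.Z.starProjection_apply_mem x
  · exact ((h1 i).2.2 W (fun x hx => Submodule.starProjection_eq_self_iff.1 (hW x hx)) hW').imp id
      fun e x => e.ge ((U i).starProjection_apply_mem x)

theorem exists_maxAb_ge {s : Submodule ℝ L} (hs : C.IsAb s) : ∃ t, s ≤ t ∧ C.IsMaxAb t := by
  obtain ⟨t, h1, h2⟩ := exists_maximal_ge_of_wellFoundedGT C.IsAb s hs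
  refine ⟨t, h1, fun x => ⟨fun hx => h2.1 x hx, fun hx => ?_⟩⟩
  refine h2.2 (y := t ⊔ Submodule.span ℝ {x}) ?_ le_sup_left
    (Submodule.mem_sup_right (Submodule.mem_span_singleton_self x))
  intro a ha b hb
  obtain ⟨a, ha', _, h, rfl⟩ := Submodule.mem_sup.1 ha
  obtain ⟨c, rfl⟩ := Submodule.mem_span_singleton.1 h
  obtain ⟨b, hb', _, h, rfl⟩ := Submodule.mem_sup.1 hb
  obtain ⟨d, rfl⟩ := Submodule.mem_span_singleton.1 h
  simp [h2.1 a ha' b hb', C.ad_self, hx b hb', C.ad_swap a x, hx a ha']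

theorem exists_maxAb : ∃ t, C.IsMaxAb t :=
  (C.exists_maxAb_ge (s := ⊥) (by simp [IsAb])).imp fun _ h => h.2

variable {C}

theorem IsMaxAb.ab {t : Submodule ℝ L} (h : C.IsMaxAb t) : C.IsAb t := fun x hx => (h x).1 hx

theorem IsMaxAb.Z_le {t : Submodule ℝ L} (h : C.IsMaxAb t) : C.Z ≤ t := fun x hx =>
  (h x).2 fun y _ => by rw [C.mem_Z.1 hx]; rfl

section WP
variable {s : Submodule ℝ L} {α β X Y X' Y' : L}

theorem WP.neg (h : C.WP s α X Y) : C.WP s (-α) X (-Y) :=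
  ⟨s.neg_mem h.1, fun ξ hξ => by simp [h.2 ξ hξ]⟩

theorem WP.rot (h : C.WP s α X Y) : C.WP s α (-Y) X :=
  ⟨h.1, fun ξ hξ => by simp [h.2 ξ hξ]⟩

theorem WP.add (h : C.WP s α X Y) (h' : C.WP s α X' Y') : C.WP s α (X + X') (Y + Y') :=
  ⟨h.1, fun ξ hξ => by simp [h.2 ξ hξ, h'.2 ξ hξ, add_comm]⟩

theorem WP.smul (h : C.WP s α X Y) (c : ℝ) : C.WP s α (c • X) (c • Y) :=
  ⟨h.1, fun ξ hξ => by simp [h.2 ξ hξ, smul_comm c]⟩

theorem WP.map (h : C.WP s α X Y) (S : L →L[ℝ] L) (hS : ∀ ξ ∈ s, ∀ y, S (C.ad ξ y) = C.ad ξ (S y)) :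
    C.WP s α (S X) (S Y) :=
  ⟨h.1, fun ξ hξ => by simp [← hS ξ hξ, h.2 ξ hξ]⟩

theorem WP.br (h : C.WP s α X Y) (h' : C.WP s β X' Y') :
    C.WP s (α + β) (C.ad X X' - C.ad Y Y') (C.ad X Y' + C.ad Y X') :=
  ⟨s.add_mem h.1 h'.1, fun ξ hξ => by
    simp only [map_add, map_sub, C.jac ξ, h.2 ξ hξ, h'.2 ξ hξ, map_neg, map_smul, inner_add_left,
      ContinuousLinearMap.neg_apply, ContinuousLinearMap.smul_apply]
    constructor <;> module⟩

theorem WP.br' (h : C.WP s α X Y) (h' : C.WP s β X' Y') :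
    C.WP s (β - α) (C.ad X X' + C.ad Y Y') (C.ad X Y' - C.ad Y X') := by
  simpa [sub_eq_add_neg, add_comm] using h.neg.br h'

theorem WP.inner_rel (h : C.WP s α X Y) (h' : C.WP s β X' Y') {ξ : L} (hξ : ξ ∈ s) :
    ⟪α, ξ⟫ * ⟪X, X'⟫ = ⟪β, ξ⟫ * ⟪Y, Y'⟫ := by
  have := C.inner_ad ξ Y X'
  simpa [h.2 ξ hξ, h'.2 ξ hξ, inner_smul_left, inner_smul_right] using this

theorem WP.orth (h : C.WP s α X Y) (h' : C.WP s β X' Y') (hne : α ≠ β) :
    ⟪X, X'⟫ + ⟪Y, Y'⟫ = 0 := by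
  have h1 := h.inner_rel h' (s.sub_mem h.1 h'.1)
  have h2 := h'.inner_rel h (s.sub_mem h.1 h'.1)
  refine (mul_eq_zero.1 ?_).resolve_left (inner_self_ne_zero (𝕜 := ℝ).2 (sub_ne_zero.2 hne))
  rw [inner_sub_left, real_inner_comm X', real_inner_comm Y'] at *
  linarith

theorem WP.same (h : C.WP s α X Y) (h' : C.WP s α X' Y') (hα : α ≠ 0) : ⟪X, X'⟫ = ⟪Y, Y'⟫ :=
  mul_left_cancel₀ (inner_self_ne_zero.2 hα) (h.inner_rel h' h.1)

theorem WP.perp (h : C.WP s α X Y) (hα : α ≠ 0) : ⟪X, Y⟫ = 0 := by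
  have := h.rot.same h hα
  rw [inner_neg_left, real_inner_comm] at this
  linarith

theorem WP.orth' (h : C.WP s α X Y) (h' : C.WP s β X' Y') (hne : α ≠ β) (hne' : α ≠ -β) :
    ⟪X, X'⟫ = 0 := by
  have h1 := h.orth h' hne
  have h2 := h.orth h'.neg hne'
  rw [inner_neg_right] at h2
  linarith

theorem WP.snd_eq_zero (h : C.WP s α 0 Y) (hα : α ≠ 0) : Y = 0 :=
  inner_self_eq_zero.1 ((h.same h hα).symm.trans (inner_zero_left _))

theorem WP.perp_s (h : C.WP s α X Y) (hs : C.IsAb s) (hα : α ≠ 0) {ξ : L} (hξ : ξ ∈ s) :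
    ⟪X, ξ⟫ = 0 := by
  have := C.inner_ad α Y ξ
  rw [(h.2 α h.1).2, hs α h.1 ξ hξ, inner_zero_right, neg_zero, real_inner_smul_left] at this
  exact (mul_eq_zero.1 this).resolve_left (inner_self_ne_zero.2 hα)

theorem WP.ad_eq (h : C.WP s α X Y) (hα : α ≠ 0) (hXY : C.ad X Y ∈ s) :
    C.ad X Y = -(⟪X, X⟫ • α) := by
  have h1 : C.ad X Y + ⟪X, X⟫ • α ∈ s := s.add_mem hXY (s.smul_mem _ h.1)
  rw [eq_neg_iff_add_eq_zero, ← inner_self_eq_zero (𝕜 := ℝ)]
  rw [inner_add_left, inner_ad', (h.2 _ h1).1, h.same h hα, inner_neg_right, real_inner_smul_left,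
    real_inner_smul_right]
  ring

theorem WP.zero_mem {t : Submodule ℝ L} (ht : C.IsMaxAb t) (h : C.WP t 0 X Y) : X ∈ t :=
  (ht X).2 fun ξ hξ => by rw [ad_swap, (h.2 ξ hξ).1]; simp

theorem WP.ad_mem {t : Submodule ℝ L} (ht : C.IsMaxAb t) (h : C.WP t α X Y) : C.ad X Y ∈ t := by
  have := (h.br' h).rot
  rw [sub_self, C.ad_swap Y X] at this
  have h2 := t.smul_mem (-1 / 2) (this.zero_mem ht)
  convert h2 using 1
  module

theorem WP.Ad_ex (h : C.WP s α X Y) {ξ : L} (hξ : ξ ∈ s) :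
    C.Ad (C.ex ξ) X = Real.cos ⟪α, ξ⟫ • X - Real.sin ⟪α, ξ⟫ • Y := by
  rw [C.Ad_ex]; exact exp_rot (h.2 ξ hξ).1 (h.2 ξ hξ).2

/-- positivity -/
theorem WP.pos (h : C.WP s α X Y) (h' : C.WP s β X' Y') (hα : α ≠ 0) (hXY : C.ad X Y ∈ s) :
    ‖C.ad X X' + C.ad Y Y'‖ ^ 2 + ‖C.ad X Y' - C.ad Y X'‖ ^ 2 =
      ‖C.ad X X' - C.ad Y Y'‖ ^ 2 + ‖C.ad X Y' + C.ad Y X'‖ ^ 2 +
        4 * ⟪X, X⟫ * ⟪β, α⟫ * ⟪X', X'⟫ := by
  have h1 := congrArg (⟪X', ·⟫) (C.jac X Y Y')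
  simp only [h.ad_eq hα hXY, map_neg, map_smul, ContinuousLinearMap.neg_apply, inner_add_right,
    ContinuousLinearMap.smul_apply, (h'.2 α h.1).2, inner_neg_right, real_inner_smul_right] at h1
  rw [norm_add_sq_real, norm_sub_sq_real, norm_add_sq_real, norm_sub_sq_real, C.inner_ad X X',
    real_inner_comm (C.ad Y X'), C.inner_ad Y X']
  linarith

end WP

end Ctx

end Pool.Agent.Lib.MP_d52947_gt
end

-- part Pool.Agent.Lib.MP_d52947_gt.Lie2
section

/-! Weights and roots. -/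

namespace Pool.Agent.Lib.MP_d52947_gt

open Filter Topology NormedSpace Module
open scoped RealInnerProductSpace

theorem exists_eig {L : Type} [NormedAddCommGroup L] [InnerProductSpace ℝ L] [FiniteDimensional ℝ L]
    {W : Submodule ℝ L} (h0 : W ≠ ⊥) (S : L →L[ℝ] L) (hS : ∀ x y, ⟪S x, y⟫ = ⟪x, S y⟫)
    (hW : ∀ y ∈ W, S y ∈ W) : ∃ c : ℝ, ∃ x ∈ W, x ≠ 0 ∧ S x = c • x := by
  have := Submodule.nontrivial_iff_ne_bot.2 h0
  have h1 : (S : L →ₗ[ℝ] L).IsSymmetric := hS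
  obtain ⟨v, hv⟩ := (h1.restrict_invariant hW).hasEigenvalue_iSup_of_finiteDimensional.exists_hasEigenvector
  exact ⟨_, v, v.2, fun h => hv.2 (Subtype.ext h), congrArg Subtype.val hv.apply_eq_smul⟩

theorem exists_reg {L : Type} [NormedAddCommGroup L] [InnerProductSpace ℝ L] {s : Submodule ℝ L}
    {S : Set L} (hS : S.Finite) (h : ∀ α ∈ S, ∃ ξ ∈ s, ⟪α, ξ⟫ ≠ 0) :
    ∃ ξ ∈ s, ∀ α ∈ S, ⟪α, ξ⟫ ≠ 0 := by
  have := hS.to_subtype
  obtain ⟨x, hx⟩ := Submodule.exists_forall_notMem_of_forall_ne_top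
    (fun α : S => LinearMap.ker (innerₗ L α.1 ∘ₗ s.subtype)) fun α e => by
      obtain ⟨ξ, h1, h2⟩ := h α α.2
      exact h2 (e.ge (Submodule.mem_top (x := ⟨ξ, h1⟩)))
  exact ⟨x, x.2, fun α hα => hx ⟨α, hα⟩⟩

namespace Ctx
variable {L : Type} [NormedAddCommGroup L] [InnerProductSpace ℝ L] [FiniteDimensional ℝ L]
  {K : Type} [Group K] [TopologicalSpace K] [IsTopologicalGroup K] [CompactSpace K]
  [ConnectedSpace K] (C : Ctx L K) {s t : Submodule ℝ L}

theorem IsAb.comm {C : Ctx L K} (hs : C.IsAb s) {ξ η : L} (hξ : ξ ∈ s) (hη : η ∈ s) (y : L) :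
    C.ad ξ (C.ad η y) = C.ad η (C.ad ξ y) := by rw [C.jac, hs ξ hξ η hη]; simp

theorem exists_WP (hs : C.IsAb s) (W : Submodule ℝ L) (hW0 : W ≠ ⊥)
    (hW : ∀ ξ ∈ s, ∀ y ∈ W, C.ad ξ y ∈ W) :
    ∃ α X Y, X ≠ 0 ∧ X ∈ W ∧ Y ∈ W ∧ C.WP s α X Y := by
  obtain ⟨U, h1, h2, h3, h4⟩ := exists_min (P := fun W => ∀ ξ ∈ s, ∀ y ∈ W, C.ad ξ y ∈ W) hW hW0
  have sc : ∀ ξ ∈ s, ∀ η ∈ s, ∃ c : ℝ, ∀ x ∈ U, C.ad ξ (C.ad η x) = c • x := fun ξ hξ η hη => by
    obtain ⟨c, x, hx, h5, h6⟩ := exists_eig h3 (C.ad ξ * C.ad η) (fun x y => by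
      simp only [ContinuousLinearMap.mul_apply, C.inner_ad, neg_neg, hs.comm hξ hη])
      fun y hy => h2 _ hξ _ (h2 _ hη _ hy)
    rcases h4 (U ⊓ LinearMap.ker (C.ad ξ * C.ad η - c • (1 : L →L[ℝ] L)).toLinearMap) inf_le_left
      (fun ζ hζ y hy => ⟨h2 _ hζ _ hy.1, by
        have := congrArg (C.ad ζ) hy.2
        simpa [hs.comm hζ hξ, hs.comm hζ hη] using this⟩) with h | h
    · exact absurd (h.le ⟨hx, by simpa [sub_eq_zero] using h6⟩) h5
    · exact ⟨c, fun x hx => by simpa [sub_eq_zero] using (h.ge hx).2⟩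
  obtain ⟨X, hX, hX0⟩ := Submodule.exists_mem_ne_zero_of_ne_bot h3
  by_cases h : ∀ ξ ∈ s, C.ad ξ X = 0
  · exact ⟨0, X, 0, hX0, h1 hX, W.zero_mem, s.zero_mem, fun ξ hξ => by simp [h ξ hξ]⟩
  push Not at h
  obtain ⟨η, hη, h5⟩ := h
  obtain ⟨c, hc⟩ := sc η hη η hη
  have hXX : 0 < ⟪X, X⟫ := real_inner_self_pos.2 hX0
  have h6 : 0 < -c := by
    have := C.inner_ad η (C.ad η X) X
    rw [hc X hX, real_inner_smul_left] at this
    have := real_inner_self_pos.2 h5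
    nlinarith
  obtain ⟨r, hr, hr'⟩ : ∃ r : ℝ, r ≠ 0 ∧ r * r = -c :=
    ⟨√(-c), (Real.sqrt_pos.2 h6).ne', Real.mul_self_sqrt h6.le⟩
  refine ⟨s.starProjection ((r * ⟪X, X⟫)⁻¹ • C.ad (C.ad η X) X), X, r⁻¹ • C.ad η X, hX0, h1 hX,
    h1 (U.smul_mem _ (h2 _ hη _ hX)), s.starProjection_apply_mem _, fun ξ hξ => ?_⟩
  obtain ⟨b, hb⟩ := sc ξ hξ η hη
  have h7 : ⟪s.starProjection ((r * ⟪X, X⟫)⁻¹ • C.ad (C.ad η X) X), ξ⟫ = r⁻¹ * b := by
    rw [Submodule.inner_starProjection_left_eq_right, Submodule.starProjection_eq_self_iff.2 hξ,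
      real_inner_smul_left, inner_ad', hb X hX, real_inner_smul_right]
    field_simp
  have h8 := hb _ (h2 _ hη _ hX)
  rw [hc X hX, map_smul, show c = -(r * r) by linarith] at h8
  rw [h7, map_smul, hb X hX, smul_smul, smul_smul, mul_right_comm, mul_smul, ← h8, smul_smul,
    ← neg_smul, show -(r⁻¹ * r⁻¹ * -(r * r)) = 1 by field_simp, one_smul]
  exact ⟨rfl, rfl⟩

theorem WP_ind (hs : C.IsAb s) {W : Submodule ℝ L} (hW : ∀ ξ ∈ s, ∀ y ∈ W, C.ad ξ y ∈ W)
    (U : Submodule ℝ L) (h : ∀ α X Y, X ∈ W → Y ∈ W → C.WP s α X Y → X ∈ U) : W ≤ U := by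
  let V := Submodule.span ℝ {X | ∃ α Y, X ∈ W ∧ Y ∈ W ∧ C.WP s α X Y}
  have h1 : V ≤ W := Submodule.span_le.2 fun X ⟨_, _, h, _⟩ => h
  have h2 : ∀ ξ ∈ s, ∀ y ∈ V, C.ad ξ y ∈ V := fun ξ hξ =>
    Submodule.span_le (p := V.comap (C.ad ξ).toLinearMap).2 fun X ⟨α, Y, h1, h2, h3⟩ => by
      change C.ad ξ X ∈ V
      rw [(h3.2 ξ hξ).1, ← smul_neg]
      exact V.smul_mem _ (Submodule.subset_span ⟨α, X, W.neg_mem h2, h1, h3.rot⟩)
  have h3 : W ⊓ Vᗮ = ⊥ := by
    by_contra h0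
    obtain ⟨α, X, Y, h4, h5, h6, h7⟩ := C.exists_WP hs _ h0 fun ξ hξ y hy =>
      ⟨hW ξ hξ y hy.1, C.perp_inv (h2 ξ hξ) y hy.2⟩
    exact h4 (inner_self_eq_zero.1 (h5.2 X (Submodule.subset_span ⟨α, Y, h5.1, h6.1, h7⟩)))
  refine le_trans (fun x hx => ?_) (show V ≤ U from
    Submodule.span_le.2 fun X ⟨α, Y, h1, h2, h3⟩ => h α X Y h1 h2 h3)
  have : x - V.starProjection x ∈ W ⊓ Vᗮ :=
    ⟨W.sub_mem hx (h1 (V.starProjection_apply_mem x)), V.sub_starProjection_mem_orthogonal x⟩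
  rw [h3, Submodule.mem_bot, sub_eq_zero] at this
  rw [this]; exact V.starProjection_apply_mem x

theorem WP_top (hs : C.IsAb s) (U : Submodule ℝ L) (h : ∀ α X Y, C.WP s α X Y → X ∈ U) (x : L) :
    x ∈ U := C.WP_ind hs (W := ⊤) (by simp) U (fun α X Y _ _ => h α X Y) trivial

theorem Wt_finite (hs : C.IsAb s) : (C.Wt s).Finite := by
  choose X Y h1 h2 using fun α : C.Wt s => α.2.2
  have := (linearIndependent_of_ne_zero_of_inner_eq_zero (𝕜 := ℝ)
    (v := fun α => WithLp.toLp 2 (X α, Y α)) (fun α h => h1 α (congrArg (·.ofLp.1) h))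
    fun α β h => by simpa using (h2 α).orth (h2 β) (Subtype.coe_ne_coe.2 h)).finite
  exact Set.toFinite _

theorem Wt_mem {α : L} (h : α ∈ C.Wt s) : α ∈ s := h.2.choose_spec.choose_spec.2.1

theorem Wt_neg {α : L} (h : α ∈ C.Wt s) : -α ∈ C.Wt s :=
  let ⟨h0, X, Y, h1, h2⟩ := h; ⟨neg_ne_zero.2 h0, X, -Y, h1, h2.neg⟩

theorem mem_Z_of_Wt (hs : C.IsAb s) {ξ : L} (hξ : ξ ∈ s)
    (h : ∀ α ∈ C.Wt s, ⟪α, ξ⟫ = 0) : ξ ∈ C.Z := by
  refine C.mem_Z.2 (ContinuousLinearMap.ext fun y => C.WP_top hs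
    (LinearMap.ker (C.ad ξ).toLinearMap) (fun α X Y h1 => ?_) y)
  change C.ad ξ X = 0
  by_cases hX : X = 0
  · simp [hX]
  by_cases hα : α = 0
  · simp [(h1.2 ξ hξ).1, hα]
  simp [(h1.2 ξ hξ).1, h α ⟨hα, X, Y, hX, h1⟩]

theorem Wt_perp_Z {α z : L} (h : α ∈ C.Wt s) (hz : z ∈ C.Z) (hzs : z ∈ s) : ⟪α, z⟫ = 0 := by
  obtain ⟨-, X, Y, h1, h2⟩ := h
  have := (h2.2 z hzs).2
  rw [C.mem_Z.1 hz] at this
  exact (smul_eq_zero.1 this.symm).resolve_right h1

theorem refl_lift {α X Y : L} (h : C.WP s α X Y) (hα : α ≠ 0) (hX : X ≠ 0)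
    (hXY : C.ad X Y ∈ s) :
    ∃ t : ℝ, ∀ ξ ∈ s, C.Ad (C.ex (t • X)) ξ = ξ - (2 * ⟪α, ξ⟫ / ⟪α, α⟫) • α := by
  have ha := real_inner_self_pos.2 hα
  have hc := real_inner_self_pos.2 hX
  obtain ⟨r, hr, hr'⟩ : ∃ r : ℝ, r ≠ 0 ∧ r * r = ⟪α, α⟫ * ⟪X, X⟫ :=
    ⟨√_, (Real.sqrt_pos.2 (mul_pos ha hc)).ne', Real.mul_self_sqrt (mul_pos ha hc).le⟩
  have h0 : ∀ ξ ∈ s, C.ad X ξ = ⟪α, ξ⟫ • Y := fun ξ hξ => by rw [ad_swap, (h.2 ξ hξ).1, neg_neg]
  have h1 : C.Ad (C.ex ((Real.pi / r) • X)) α = -α := by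
    rw [C.Ad_ex, exp_rot (Y := -(⟪α, α⟫ / r) • Y) (a := Real.pi)]
    · simp
    · rw [map_smul, ContinuousLinearMap.smul_apply, h0 α h.1, smul_smul, smul_smul, ← neg_smul]
      congr 1; ring
    · rw [map_smul, map_smul, ContinuousLinearMap.smul_apply, h.ad_eq hα hXY, ← neg_smul, smul_smul,
        smul_smul]
      congr 1; field_simp; linarith
  refine ⟨Real.pi / r, fun ξ hξ => ?_⟩
  have h2 := C.Ad_ex_fix (x := (Real.pi / r) • X) (y := ξ - (⟪α, ξ⟫ / ⟪α, α⟫) • α) (by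
    rw [map_smul, ContinuousLinearMap.smul_apply, map_sub, map_smul, h0 ξ hξ, h0 α h.1, smul_smul,
      div_mul_cancel₀ _ ha.ne', sub_self, smul_zero])
  rw [map_sub, map_smul, h1] at h2
  rw [mul_div_assoc]
  linear_combination (norm := module) h2

theorem ad_p (I : C.Ideals) (i) (a b : L) : C.ad a (I.p i b) = C.ad (I.p i a) b := by
  rw [← I.p_ad, ad_swap, map_neg, I.p_ad, ← ad_swap]

theorem WP.ideal {C : Ctx L K} {I : C.Ideals} (hsI : ∀ i, ∀ ξ ∈ s, I.p i ξ ∈ s) {α X Y : L}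
    (h : C.WP s α X Y) {i} (hX : I.p i X ≠ 0) : I.p i α = α := by
  have h1 := ((h.map (I.p i) fun ξ _ => I.p_ad i ξ).2 _ (s.sub_mem h.1 (hsI i α h.1))).2
  rw [ad_p, map_sub, I.p_idem, sub_self, map_zero, ContinuousLinearMap.zero_apply, eq_comm,
    smul_eq_zero, or_iff_left hX] at h1
  rw [eq_comm, ← sub_eq_zero, ← inner_self_eq_zero (𝕜 := ℝ), inner_sub_left, h1, I.p_symm, map_sub,
    I.p_idem]
  simp

theorem Wt_ideal (I : C.Ideals) (hsI : ∀ i, ∀ ξ ∈ s, I.p i ξ ∈ s) {α : L} (hα : α ∈ C.Wt s) :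
    ∃ i, I.p i α = α := by
  obtain ⟨h0, X, Y, h1, h2⟩ := hα
  by_contra h
  have h3 : ∀ i, I.p i X = 0 := fun i => by_contra fun h' => h ⟨i, h2.ideal hsI h'⟩
  have h4 := I.p_sum X
  simp only [h3, Finset.sum_const_zero, sub_zero] at h4
  have h5 := (h2.2 α h2.1).1
  rw [ad_swap, C.mem_Z.1 h4, ContinuousLinearMap.zero_apply, neg_inj, eq_comm, smul_eq_zero,
    or_iff_right (inner_self_ne_zero.2 h0)] at h5
  have := h2.same h2 h0
  rw [h5, inner_zero_left] at this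
  exact h1 (inner_self_eq_zero.1 this)

theorem Wt_irred (I : C.Ideals) (hs : C.IsAb s)
    (hsI : ∀ i, ∀ ξ ∈ s, I.p i ξ ∈ s) (i : Fin I.N) (S : Set L)
    (hS : ∀ α ∈ S, α ∈ C.Wt s ∧ I.p i α = α) (hne : S.Nonempty)
    (hcl : ∀ α ∈ S, ∀ β ∈ C.Wt s, ⟪α, β⟫ ≠ 0 → β ∈ S) :
    ∀ β ∈ C.Wt s, I.p i β = β → β ∈ S := by
  have hneg : ∀ β ∈ S, -β ∈ S := fun β h => hcl β h _ (C.Wt_neg (hS β h).1)
    (by simpa using (hS β h).1.1)
  let c : Submodule ℝ L :=
    { carrier := {x | I.p i x = x ∧ ∀ β X Y, β ≠ 0 → β ∉ S → I.p i β = β → C.WP s β X Y →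
        C.ad X x = 0}
      zero_mem' := by simp
      add_mem' := fun ha hb => ⟨by rw [map_add, ha.1, hb.1], fun β X Y a b c d => by
        rw [map_add, ha.2 β X Y a b c d, hb.2 β X Y a b c d, add_zero]⟩
      smul_mem' := fun r x ha => ⟨by rw [map_smul, ha.1], fun β X Y a b c d => by
        rw [map_smul, ha.2 β X Y a b c d, smul_zero]⟩ }
  have h1 : ∀ y, ∀ x ∈ c, C.ad y x ∈ c := fun y x hx => by
    refine C.WP_top hs (c.comap (C.ad.flip x).toLinearMap) (fun γ X' Y' h => ?_) y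
    change C.ad X' x ∈ c
    have key : (∀ β X Y, β ≠ 0 → β ∉ S → I.p i β = β → C.WP s β X Y → C.ad (C.ad X X') x = 0) →
        C.ad X' x ∈ c := fun H => ⟨by rw [I.p_ad, hx.1], fun β X Y a b c d => by
      rw [C.jac, H β X Y a b c d, hx.2 β X Y a b c d]; simp⟩
    by_cases h0 : γ = 0
    · refine key fun β X Y a b c d => hx.2 β _ (-C.ad X' Y) a b c ?_
      have := (d.map (C.ad X') fun ξ hξ y => by rw [C.jac ξ, (h.2 ξ hξ).1, h0]; simp).smul (-1)
      simpa [C.ad_swap X X'] using this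
    by_cases h1 : γ ∈ S
    · refine key fun β X Y a b c d => ?_
      by_cases hX : X = 0
      · simp [hX]
      have h2 : ⟪γ, β⟫ = 0 := by_contra fun h' => b (hcl γ h1 β ⟨a, X, Y, hX, d⟩ h')
      have h3 : ∀ γ ∈ S, ⟪γ, β⟫ = 0 → ∀ P Q, C.WP s (β + γ) P Q → P = 0 := fun γ h1 h2 P Q H => by
        have h4 : ⟪γ, β + γ⟫ ≠ 0 := by simpa [inner_add_right, h2] using (hS γ h1).1.1
        by_contra hP
        refine b (hcl _ (hcl γ h1 _ ⟨fun e => h4 (by simp [e]), P, Q, hP, H⟩ h4) β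
          ⟨a, X, Y, hX, d⟩ ?_)
        simpa [inner_add_left, h2] using a
      have h4 := h3 γ h1 h2 _ _ (d.br h)
      have h5 := h3 (-γ) (hneg γ h1) (by simp [h2]) _ _ (d.br h.neg)
      have h6 : C.ad X X' = 0 := by
        rw [map_neg] at h5
        linear_combination (norm := module) (1 / 2 : ℝ) • h4 + (1 / 2 : ℝ) • h5
      simp [h6]
    by_cases h2 : I.p i γ = γ
    · rw [hx.2 γ X' Y' h0 h1 h2 h]; exact c.zero_mem
    · rw [← hx.1, ad_p, not_not.1 fun h' => h2 (h.ideal hsI h')]; simp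
  rintro β ⟨h2, X, Y, h3, h4⟩ h5
  by_contra h6
  obtain ⟨α, hα⟩ := hne
  rcases I.simple i c (fun x hx => hx.1) h1 with h | h
  · refine (hS α hα).1.1 (h.le (show α ∈ c from ⟨(hS α hα).2, fun β X Y a b _ d => ?_⟩))
    by_cases hX : X = 0
    · simp [hX]
    rw [ad_swap, (d.2 α (C.Wt_mem (hS α hα).1)).1, real_inner_comm,
      not_not.1 fun h' => b (hcl α hα β ⟨a, X, Y, hX, d⟩ h')]
    simp
  · have := (h β).2 β (-Y) X h2 h6 h5 h4.rot
    rw [h5, ad_swap, map_neg, neg_neg, (h4.2 β h4.1).2, smul_eq_zero] at this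
    exact this.elim (inner_self_ne_zero.2 h2) h3

theorem mult_one (ht : C.IsMaxAb t) {α X Y X' Y' : L} (hα : α ≠ 0)
    (hX : X ≠ 0) (h : C.WP t α X Y) (h' : C.WP t α X' Y') :
    ∃ a b : ℝ, X' = a • X - b • Y ∧ Y' = b • X + a • Y := by
  have hc := real_inner_self_pos.2 hX
  have key : ∀ P Q, C.WP t α P Q → ⟪X, P⟫ = 0 → ⟪Y, P⟫ = 0 → P = 0 := fun P Q H h1 h2 => by
    have h3 : ⟪Y, Q⟫ = 0 := (h.same H hα).symm.trans h1
    have h4 : ⟪X, Q⟫ = 0 := by simpa [h2] using (h.rot.same H hα).symm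
    have h5 := h.br' H
    rw [sub_self] at h5
    have h6 : ∀ ξ ∈ t, ⟪C.ad X P + C.ad Y Q, ξ⟫ = 0 ∧ ⟪C.ad X Q - C.ad Y P, ξ⟫ = 0 := fun ξ hξ => by
      simp [inner_add_left, inner_sub_left, inner_ad', h.2 ξ hξ, real_inner_smul_right,
        real_inner_comm X, real_inner_comm Y, h1, h2, h3, h4]
    have h7 := h.pos H hα (h.ad_mem ht)
    rw [inner_self_eq_zero.1 (h6 _ (h5.zero_mem ht)).1,
      inner_self_eq_zero.1 (h6 _ (by simpa using t.neg_mem (h5.rot.zero_mem ht))).2] at h7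
    have := real_inner_self_pos.2 hα
    by_contra hP
    have := real_inner_self_pos.2 hP
    have : 0 < 4 * ⟪X, X⟫ * ⟪α, α⟫ * ⟪P, P⟫ := by positivity
    simp only [norm_zero] at h7
    nlinarith [sq_nonneg ‖C.ad X P - C.ad Y Q‖, sq_nonneg ‖C.ad X Q + C.ad Y P‖]
  have H := (h'.add (h.smul (-(⟪X, X'⟫ / ⟪X, X⟫)))).add (h.rot.smul (⟪Y, X'⟫ / ⟪X, X⟫))
  have h1 := key _ _ H (by
      simp only [inner_add_right, real_inner_smul_right, h.perp hα, inner_neg_right]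
      field_simp; ring)
    (by
      simp only [inner_add_right, real_inner_smul_right, real_inner_comm X Y, h.perp hα,
        ← h.same h hα, inner_neg_right]
      field_simp; ring)
  rw [h1] at H
  have h2 := H.snd_eq_zero hα
  exact ⟨⟪X, X'⟫ / ⟪X, X⟫, -(⟪Y, X'⟫ / ⟪X, X⟫), by linear_combination (norm := module) h1,
    by linear_combination (norm := module) h2⟩

theorem WP.down {C : Ctx L K} (ht : C.IsMaxAb t) {α β X Y X' Y' : L} (h : C.WP t α X Y)
    (h' : C.WP t β X' Y') (hX : X ≠ 0) (hX' : X' ≠ 0) (hp : 0 < ⟪β, α⟫) (hne : β ≠ α) :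
    C.ad X X' + C.ad Y Y' ≠ 0 := fun e => by
  have h1 := h.br' h'
  have h2 := h.pos h' (by rintro rfl; simp at hp) (h.ad_mem ht)
  rw [e] at h1 h2
  rw [h1.snd_eq_zero (sub_ne_zero.2 hne), norm_zero] at h2
  have := real_inner_self_pos.2 hX
  have := real_inner_self_pos.2 hX'
  have : 0 < 4 * ⟪X, X⟫ * ⟪β, α⟫ * ⟪X', X'⟫ := by positivity
  nlinarith [sq_nonneg ‖C.ad X X' - C.ad Y Y'‖, sq_nonneg ‖C.ad X Y' + C.ad Y X'‖]

theorem sub_Wt (ht : C.IsMaxAb t) {α β : L} (hα : α ∈ C.Wt t) (hβ : β ∈ C.Wt t) (h : 0 < ⟪β, α⟫)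
    (hne : β ≠ α) : β - α ∈ C.Wt t := by
  obtain ⟨-, X, Y, h1, h2⟩ := hα
  obtain ⟨-, X', Y', h1', h2'⟩ := hβ
  exact ⟨sub_ne_zero.2 hne, _, _, h2.down ht h2' h1 h1' h hne, h2.br' h2'⟩

theorem two_Wt (ht : C.IsMaxAb t) {α : L} (hα : α ∈ C.Wt t) : α + α ∉ C.Wt t := by
  obtain ⟨h0, X, Y, h1, h2⟩ := hα
  rintro ⟨h0', X', Y', h1', h2'⟩
  have hp := real_inner_self_pos.2 h0
  refine h2.down ht h2' h1 h1' (by rw [inner_add_left]; positivity) (by simpa using h0) ?_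
  obtain ⟨a, b, h3, -⟩ := C.mult_one ht h0 h1 h2 (by simpa using h2.br' h2')
  have h4 : ⟪C.ad X X' + C.ad Y Y', X⟫ = 0 := by
    rw [inner_add_left, inner_ad', inner_ad', C.ad_self, inner_zero_right, zero_add, ← neg_eq_zero,
      ← inner_neg_left, h2'.rot.perp_s ht.ab h0' (h2.ad_mem ht)]
  have h5 : ⟪C.ad X X' + C.ad Y Y', Y⟫ = 0 := by
    rw [inner_add_left, inner_ad', inner_ad', C.ad_self, inner_zero_right, add_zero, ad_swap,
      h2'.perp_s ht.ab h0' (t.neg_mem (h2.ad_mem ht))]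
  rw [← inner_self_eq_zero (𝕜 := ℝ)]
  nth_rewrite 2 [h3]
  rw [inner_sub_right, real_inner_smul_right, real_inner_smul_right, h4, h5]; simp

theorem reduced (ht : C.IsMaxAb t) {α : L} (hα : α ∈ C.Wt t) {c : ℝ}
    (hc : c • α ∈ C.Wt t) : c = 1 ∨ c = -1 := by
  let M := {c : ℝ | 0 < c ∧ c • α ∈ C.Wt t}
  have hM : M.Finite := ((C.Wt_finite ht.ab).preimage
    (smul_left_injective ℝ hα.1).injOn).subset fun c h => h.2
  have h1 : (1 : ℝ) ∈ M := ⟨one_pos, by simpa using hα⟩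
  obtain ⟨m, hm, hm'⟩ := Set.exists_min_image M id hM ⟨1, h1⟩
  have h2 : ∀ c ∈ M, c ≤ m := by
    by_contra! h
    obtain ⟨d, ⟨hd, hd'⟩, h3⟩ := Set.exists_min_image {c ∈ M | m < c} id
      (hM.subset fun _ h => h.1) h
    have h4 : d - m ∈ M := ⟨sub_pos.2 hd', by
      rw [sub_smul]
      refine C.sub_Wt ht hm.2 hd.2 ?_ fun e => hd'.ne' (smul_left_injective ℝ hα.1 e)
      have := real_inner_self_pos.2 hα.1
      have := hm.1
      have := hd.1
      rw [real_inner_smul_left, real_inner_smul_right]; positivity⟩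
    have h5 : d = m + m := by
      have := hm' _ h4
      by_contra h
      have := h3 (d - m) ⟨h4, lt_of_le_of_ne this fun e => h (by linarith)⟩
      simp only [id] at this
      linarith [hm.1]
    exact C.two_Wt ht hm.2 (by rw [← add_smul, ← h5]; exact hd.2)
  have h3 : ∀ c ∈ M, c = 1 := fun c hc =>
    le_antisymm ((h2 c hc).trans (hm' 1 h1)) ((h2 1 h1).trans (hm' c hc))
  rcases lt_trichotomy c 0 with h | rfl | h
  · exact Or.inr (by linarith [h3 (-c) ⟨neg_pos.2 h, by rw [neg_smul]; exact C.Wt_neg hc⟩])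
  · exact absurd (zero_smul ℝ α) hc.1
  · exact Or.inl (h3 c ⟨h, hc⟩)

theorem le_of_WP (ht : C.IsMaxAb t) {W : Submodule ℝ L} (hW : ∀ ξ ∈ t, ∀ y ∈ W, C.ad ξ y ∈ W)
    (h : ∀ α X Y, α ≠ 0 → X ∈ W → Y ∈ W → C.WP t α X Y → X = 0) : W ≤ t :=
  C.WP_ind ht.ab hW t fun α X Y h1 h2 h3 => by
    by_cases hα : α = 0
    · exact (hα ▸ h3).zero_mem ht
    · rw [h α X Y hα h1 h2 h3]; exact t.zero_mem

theorem exists_reg' (hs : C.IsAb s) : ∃ ξ ∈ s, ∀ α ∈ C.Wt s, ⟪α, ξ⟫ ≠ 0 :=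
  exists_reg (C.Wt_finite hs) fun α h => ⟨α, C.Wt_mem h, inner_self_ne_zero.2 h.1⟩

theorem hunt (ht : C.IsMaxAb t) (x : L) : ∃ k, C.Ad k x ∈ t := by
  obtain ⟨ξ, h1, h2⟩ := C.exists_reg' ht.ab
  obtain ⟨k, -, hk⟩ := isCompact_univ.exists_isMaxOn (f := fun k => ⟪C.Ad k x, ξ⟫) ⟨1, trivial⟩
    ((C.cont_Ad.clm_apply continuous_const).inner continuous_const).continuousOn
  refine ⟨k, C.le_of_WP ht (W := LinearMap.ker (C.ad ξ).toLinearMap) (fun η hη y hy => ?_)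
    (fun α X Y h3 _ h4 h5 => by_contra fun h => ?_) ?_⟩
  · change C.ad ξ _ = 0
    rw [ht.ab.comm h1 hη, show C.ad ξ y = 0 from hy, map_zero]
  · exact smul_ne_zero (h2 α ⟨h3, X, Y, h, h5⟩) h ((h5.2 ξ h1).2.symm.trans h4)
  · refine ext_inner_left ℝ fun y => ?_
    have h3 := ((C.hasDerivAt_Ad y (C.Ad k x)).inner ℝ (hasDerivAt_const 0 ξ))
    have h4 := IsLocalMax.hasDerivAt_eq_zero (Eventually.of_forall fun r => by
      simpa [C.ex_zero] using hk (Set.mem_univ (C.ex (r • y) * k))) h3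
    rw [inner_zero_right, zero_add, ad_swap, inner_neg_left, inner_ad', neg_eq_zero] at h4
    rw [inner_zero_right, ← h4]; rfl

theorem Fix_ex (ht : C.IsMaxAb t) {ξ : L} (hξ : ξ ∈ t)
    (h : ∀ α ∈ C.Wt t, Real.cos ⟪α, ξ⟫ ≠ 1) : C.Fix (C.ex ξ) = t := by
  refine le_antisymm (C.le_of_WP ht (fun η hη y hy => ?_) fun α X Y h1 h2 _ h3 => by_contra
    fun h4 => h α ⟨h1, X, Y, h4, h3⟩ ?_) fun y hy => C.mem_Fix.2 (C.Ad_ex_fix (ht.ab _ hξ _ hy))
  · rw [mem_Fix] at hy ⊢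
    rw [C.Ad_ad, hy, C.Ad_ex_fix (ht.ab _ hξ _ hη)]
  · have := congrArg (⟪X, ·⟫) ((h3.Ad_ex hξ).symm.trans (C.mem_Fix.1 h2))
    simp only [inner_sub_right, real_inner_smul_right, h3.perp h1, mul_zero, sub_zero] at this
    exact mul_right_cancel₀ (inner_self_ne_zero.2 h4) (this.trans (one_mul _).symm)

theorem exists_small (hs : C.IsAb s) {S : Set L} (hS : S.Finite) {ξ : L} (h : ∀ α ∈ S, ⟪α, ξ⟫ ≠ 0)
    {δ : ℝ} (hδ : 0 < δ) : ∃ c : ℝ, 0 < c ∧ ∀ α ∈ S, 0 < |⟪α, c • ξ⟫| ∧ |⟪α, c • ξ⟫| < δ := by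
  have h1 : ∀ᶠ c : ℝ in 𝓝[>] 0, ∀ α ∈ S, |⟪α, c • ξ⟫| < δ := (eventually_all_finite hS).2 fun α _ =>
    nhdsWithin_le_nhds ((by fun_prop : Continuous fun c : ℝ => |⟪α, c • ξ⟫|).continuousAt.eventually_lt
      continuousAt_const (by simpa using hδ))
  obtain ⟨c, h2, h3⟩ := (h1.and self_mem_nhdsWithin).exists
  exact ⟨c, h3, fun α hα => ⟨by
    rw [real_inner_smul_right]; exact abs_pos.2 (mul_ne_zero h3.ne' (h α hα)), h2 α hα⟩⟩

theorem cos_ne_one {x : ℝ} (h : 0 < |x|) (h' : |x| < 1) : Real.cos x ≠ 1 := fun e => by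
  have := Real.pi_gt_three
  rw [abs_lt] at h'
  rw [Real.cos_eq_one_iff_of_lt_of_lt (by linarith) (by linarith)] at e
  simp [e] at h

theorem exists_Fix_eq (ht : C.IsMaxAb t) : ∃ ξ ∈ t, C.Fix (C.ex ξ) = t := by
  obtain ⟨ξ, h1, h2⟩ := C.exists_reg' ht.ab
  obtain ⟨c, -, h3⟩ := C.exists_small ht.ab (C.Wt_finite ht.ab) h2 one_pos
  exact ⟨_, t.smul_mem c h1, C.Fix_ex ht (t.smul_mem c h1) fun α h => cos_ne_one (h3 α h).1 (h3 α h).2⟩

end Ctx

end Pool.Agent.Lib.MP_d52947_gt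
end

-- part Pool.Agent.Lib.MP_d52947_gt.An
section

/-! Analytic functions on powers of the group, generic properties. -/

namespace Pool.Agent.Lib.MP_d52947_gt

open Filter Topology NormedSpace Module MeasureTheory
open scoped RealInnerProductSpace

theorem isOpen_ker_le {X E F : Type} [TopologicalSpace X] [NormedAddCommGroup E] [NormedSpace ℝ E]
    [FiniteDimensional ℝ E] [NormedAddCommGroup F] [NormedSpace ℝ F] {f : X → E →L[ℝ] F}
    (hf : Continuous f) (n : ℕ) :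
    IsOpen {x | finrank ℝ (LinearMap.ker (f x : E →ₗ[ℝ] F)) ≤ n} := by
  convert (isOpen_setOf_nat_le_rank (𝕜 := ℝ) (E := E) (F := F) (finrank ℝ E - n)).preimage hf
    using 1
  ext x
  have := (f x : E →ₗ[ℝ] F).finrank_range_add_finrank_ker
  simp only [Set.mem_setOf_eq, Set.mem_preimage, LinearMap.rank, ← finrank_eq_rank, Nat.cast_le]
  omega

theorem ae_ne_zero {E : Type} [NormedAddCommGroup E] [NormedSpace ℝ E] [FiniteDimensional ℝ E]
    [MeasurableSpace E] [BorelSpace E] (μ : Measure E) [μ.IsAddHaarMeasure] {f : E → ℝ}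
    (hf : AnalyticOnNhd ℝ f Set.univ) {x₀ : E} (h0 : f x₀ ≠ 0) : ∀ᵐ x ∂μ, f x ≠ 0 := by
  have hc : Continuous f := continuousOn_univ.1 hf.continuousOn
  have h1 : ∀ᵐ x ∂μ, ∀ᵐ t : ℝ, f (AffineMap.homothety x₀ t x) ≠ 0 := Eventually.of_forall fun x => by
    have : AnalyticOnNhd ℝ (fun t : ℝ => f (t • (x - x₀) + x₀)) Set.univ := fun t _ =>
      (hf _ trivial).comp (f := fun t : ℝ => t • (x - x₀) + x₀) (by fun_prop)
    have h2 := ae_restrict_le_codiscreteWithin (μ := volume) MeasurableSet.univ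
      (this.preimage_zero_mem_codiscrete (x := 0) (by simpa using h0))
    rwa [Measure.restrict_univ] at h2
  rw [Measure.ae_ae_comm (p := fun x (t : ℝ) => f (AffineMap.homothety x₀ t x) ≠ 0)
    (isOpen_ne_fun (hc.comp (by simp only [AffineMap.homothety_apply]; fun_prop))
      continuous_const).measurableSet] at h1
  obtain ⟨t, h2, ht⟩ := (h1.and (compl_mem_ae_iff.2 (Real.volume_singleton (a := 0)))).exists
  have h3 := μ.addHaar_image_homothety x₀ t {x | ¬ f (AffineMap.homothety x₀ t x) ≠ 0}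
  rw [ae_iff.1 h2, mul_zero] at h3
  refine measure_mono_null (fun y hy => ?_) h3
  obtain ⟨x, rfl⟩ := (AffineEquiv.homothetyUnitsMulHom x₀ (Units.mk0 t ht)).surjective y
  exact ⟨x, hy, rfl⟩

theorem exists_det {V ι X : Type} [AddCommGroup V] [Module ℝ V]
    [FiniteDimensional ℝ V] (φ : ι → X → V →ₗ[ℝ] ℝ) (h₀ : X) :
    ∃ (κ : Type) (_ : Fintype κ) (_ : DecidableEq κ) (a : κ → ι) (v : κ → V),
      (Matrix.of fun i j => φ (a i) h₀ (v j)).det ≠ 0 ∧
      ∀ h, (Matrix.of fun i j => φ (a i) h (v j)).det ≠ 0 →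
        finrank ℝ (⨅ n, LinearMap.ker (φ n h) : Submodule ℝ V) ≤
          finrank ℝ (⨅ n, LinearMap.ker (φ n h₀) : Submodule ℝ V) := by
  classical
  have h1 : ∀ h, finrank ℝ (Submodule.span ℝ (Set.range (φ · h))) +
      finrank ℝ (⨅ n, LinearMap.ker (φ n h) : Submodule ℝ V) = finrank ℝ V := fun h => by
    rw [← Subspace.finrank_add_finrank_dualCoannihilator_eq (Submodule.span ℝ (Set.range (φ · h)))]
    congr 3
    all_goals
      ext v
      simp [Submodule.mem_dualCoannihilator, Submodule.mem_iInf]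
      exact ⟨fun H ψ hψ => Submodule.span_le (p := LinearMap.ker (Dual.eval ℝ V v)).2
        (by rintro _ ⟨n, rfl⟩; exact H n) hψ, fun H n => H _ (Submodule.subset_span ⟨n, rfl⟩)⟩
  obtain ⟨κ, a, ha, h2, h3⟩ := exists_linearIndependent' ℝ (φ · h₀)
  have := h3.finite
  have := Fintype.ofFinite κ
  have h4 : Function.Surjective (LinearMap.pi fun i => φ (a i) h₀) := by
    rw [← LinearMap.dualMap_injective_iff, injective_iff_map_eq_zero]
    intro ψ hψ
    have h5 := Fintype.linearIndependent_iff.1 h3 (fun i => ψ (Pi.single i 1)) (LinearMap.ext fun v => by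
      have := congrArg (· v) hψ
      rw [LinearMap.dualMap_apply, ← Finset.univ_sum_single (LinearMap.pi _ v), map_sum] at this
      rw [LinearMap.sum_apply]
      refine Eq.trans (Finset.sum_congr rfl fun i _ => ?_) this
      rw [LinearMap.smul_apply, smul_eq_mul, mul_comm, ← smul_eq_mul, ← map_smul, ← Pi.single_smul]
      simp)
    exact (Pi.basisFun ℝ κ).ext fun i => by simpa using h5 i
  choose v hv using fun j => h4 (Pi.single j 1)
  refine ⟨κ, this, inferInstance, a, v, ?_, fun h H => ?_⟩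
  · rw [show (Matrix.of fun i j => φ (a i) h₀ (v j)) = 1 from Matrix.ext fun i j => by
      simpa [Matrix.one_apply, Pi.single_apply] using congrFun (hv j) i]
    simp
  · have h6 : LinearIndependent ℝ fun i => φ (a i) h :=
      LinearIndependent.of_comp (LinearMap.pi fun j => Dual.eval ℝ V (v j))
        (Matrix.linearIndependent_rows_of_det_ne_zero H)
    have h7 := Submodule.finrank_mono (Submodule.span_mono (R := ℝ)
      (Set.range_comp_subset_range a (φ · h)))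
    have h8 := h1 h
    have h9 := h1 h₀
    rw [← h2, finrank_span_eq_card h3] at h9
    rw [Function.comp_def, finrank_span_eq_card h6] at h7
    omega

theorem ae_rank {E V ι : Type} [NormedAddCommGroup E] [NormedSpace ℝ E] [FiniteDimensional ℝ E]
    [MeasurableSpace E] [BorelSpace E] (μ : Measure E) [μ.IsAddHaarMeasure] [AddCommGroup V]
    [Module ℝ V] [FiniteDimensional ℝ V] (φ : ι → E → V →ₗ[ℝ] ℝ)
    (hφ : ∀ n v, AnalyticOnNhd ℝ (fun h => φ n h v) Set.univ) (h₀ : E) :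
    ∀ᵐ h ∂μ, finrank ℝ (⨅ n, LinearMap.ker (φ n h) : Submodule ℝ V) ≤
      finrank ℝ (⨅ n, LinearMap.ker (φ n h₀) : Submodule ℝ V) := by
  obtain ⟨κ, _, _, a, v, h1, h2⟩ := exists_det φ h₀
  refine (ae_ne_zero μ (f := fun h => (Matrix.of fun i j => φ (a i) h (v j)).det) ?_ h1).mono h2
  simp only [Matrix.det_apply']
  exact Finset.univ.analyticOnNhd_fun_sum fun σ _ => analyticOnNhd_const.mul
    (Finset.univ.analyticOnNhd_fun_prod fun i _ => hφ _ _)

namespace Amb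
variable {L : Type} [NormedAddCommGroup L] [InnerProductSpace ℝ L] [FiniteDimensional ℝ L]
  {K : Type} [Group K] [TopologicalSpace K] [IsTopologicalGroup K]

theorem chart_nhds {G : Type} [Fintype G] (C : Ctx L K) (h : G → K) :
    Set.range (fun (ξ : G → L) i => C.ex (ξ i) * h i) ∈ 𝓝 h := by
  refine mem_of_superset (set_pi_mem_nhds Set.finite_univ
    (s := fun i => (· * h i) '' (C.ex '' Set.univ)) fun i _ => ?_) fun y hy => ?_
  · simpa using (Homeomorph.mulRight (h i)).isOpenMap.image_mem_nhds (C.ex_nhds _ univ_mem)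
  · choose k hk e using fun i => hy i trivial
    choose ξ _ e' using hk
    exact ⟨ξ, funext fun i => by simp only [e', ← e]⟩

end Amb

namespace Ctx
variable {L : Type} [NormedAddCommGroup L] [InnerProductSpace ℝ L] [FiniteDimensional ℝ L]
  {K : Type} [Group K] [TopologicalSpace K] [IsTopologicalGroup K] [CompactSpace K]
  [ConnectedSpace K] (C : Ctx L K) {G : Type} [Fintype G]

section
variable {E F H : Type} [NormedAddCommGroup E] [NormedSpace ℝ E] [NormedAddCommGroup F]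
  [NormedSpace ℝ F] [NormedAddCommGroup H] [NormedSpace ℝ H] {C}

theorem An.const (c : E) : C.An fun _ : G → K => c := fun _ => analyticOnNhd_const

theorem An.comp {f : (G → K) → E} (hf : C.An f) {φ : E → F} (hφ : AnalyticOnNhd ℝ φ Set.univ) :
    C.An fun h => φ (f h) := fun h x _ => (hφ _ trivial).comp (hf h x trivial)

theorem An.clm {f : (G → K) → E} (hf : C.An f) (φ : E →L[ℝ] F) : C.An fun h => φ (f h) :=
  hf.comp (φ.analyticOnNhd _)

theorem An.bil {f : (G → K) → E} {f' : (G → K) → F} (hf : C.An f) (hf' : C.An f')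
    (B : E →L[ℝ] F →L[ℝ] H) : C.An fun h => B (f h) (f' h) := fun h x _ =>
  (B.analyticAt_bilinear _).comp₂ (hf h x trivial) (hf' h x trivial)

theorem An.add {f f' : (G → K) → E} (hf : C.An f) (hf' : C.An f') : C.An fun h => f h + f' h :=
  fun h => (hf h).add (hf' h)

theorem An.sub {f f' : (G → K) → E} (hf : C.An f) (hf' : C.An f') : C.An fun h => f h - f' h :=
  fun h => (hf h).sub (hf' h)

theorem An.sum {ι : Type} {s : Finset ι} {f : ι → (G → K) → E} (hf : ∀ i, C.An (f i)) :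
    C.An fun h => ∑ i ∈ s, f i h := fun h => s.analyticOnNhd_fun_sum fun i _ => hf i h

theorem An.app {f : (G → K) → E →L[ℝ] F} {f' : (G → K) → E} (hf : C.An f) (hf' : C.An f') :
    C.An fun h => f h (f' h) := hf.bil hf' (ContinuousLinearMap.id ℝ _)

theorem An.smul {f : (G → K) → ℝ} {f' : (G → K) → E} (hf : C.An f) (hf' : C.An f') :
    C.An fun h => f h • f' h := fun h => (hf h).smul (hf' h)

theorem An.mul {A : Type} [NormedRing A] [NormedAlgebra ℝ A] {f f' : (G → K) → A} (hf : C.An f)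
    (hf' : C.An f') : C.An fun h => f h * f' h := fun h => (hf h).mul (hf' h)

theorem An.pow {A : Type} [NormedRing A] [NormedAlgebra ℝ A] {f : (G → K) → A} (hf : C.An f)
    (n : ℕ) : C.An fun h => f h ^ n := fun h => (hf h).pow n

theorem An.inner {f f' : (G → K) → L} (hf : C.An f) (hf' : C.An f') :
    C.An fun h => ⟪f h, f' h⟫ := hf.bil hf' (innerSL ℝ)

theorem an_Ad (i : G) : C.An fun h : G → K => C.Ad (h i) := fun h x _ => by
  have := FiniteDimensional.complete ℝ L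
  simp only [map_mul, C.Ad_ex]
  exact ((exp_analytic (𝕂 := ℝ) _).comp
    ((C.ad ∘L ContinuousLinearMap.proj i).analyticAt x)).mul analyticAt_const

theorem an_Ad_inv (i : G) : C.An fun h : G → K => C.Ad (h i)⁻¹ := fun h x _ => by
  have := FiniteDimensional.complete ℝ L
  simp only [mul_inv_rev, map_mul, ← ex_neg, C.Ad_ex]
  exact analyticAt_const.mul ((exp_analytic (𝕂 := ℝ) _).comp
    ((C.ad.analyticAt _).comp ((ContinuousLinearMap.proj (R := ℝ) (φ := fun _ : G => L) i).analyticAt x).neg))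

theorem an_word (w : FreeGroup G) : C.An fun h : G → K => C.Ad (val h w) := by
  induction w using FreeGroup.induction_on with
  | C1 => simpa using An.const _
  | of i => simpa using an_Ad i
  | inv_of i _ => simpa using an_Ad_inv i
  | mul a b ha hb => simpa using ha.mul hb

end

theorem An.chart_ne {C : Ctx L K} {f : (G → K) → ℝ} (hf : C.An f) {h₀ : G → K} (h0 : f h₀ ≠ 0)
    (h : G → K) : ∃ ξ : G → L, f (fun i => C.ex (ξ i) * h i) ≠ 0 := by
  have h1 : ∀ h : G → K, (∀ ξ : G → L, f (fun i => C.ex (ξ i) * h i) = 0) → f =ᶠ[𝓝 h] 0 := fun h H =>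
    mem_of_superset (Amb.chart_nhds C h) (by rintro _ ⟨ξ, rfl⟩; exact H ξ)
  have h2 : IsClopen {h | f =ᶠ[𝓝 h] 0} := ⟨isClosed_of_closure_subset fun h H => h1 h fun ξ => by
    obtain ⟨_, ⟨η, rfl⟩, h3⟩ := mem_closure_iff_nhds.1 H _ (Amb.chart_nhds C h)
    exact (hf h).eqOn_zero_of_preconnected_of_eventuallyEq_zero isPreconnected_univ (z₀ := η) trivial
      ((continuous_pi fun i => (C.cont_ex.comp (continuous_apply i)).mul continuous_const).tendsto η
        h3) trivial, isOpen_setOf_eventually_nhds⟩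
  by_contra! H
  exact h0 ((h2.eq_univ ⟨h, h1 h H⟩).ge (Set.mem_univ h₀)).self_of_nhds

variable [MeasurableSpace L] [BorelSpace L]

theorem An.generic {C : Ctx L K} {f : (G → K) → ℝ} (hf : C.An f) {h₀ : G → K} (h0 : f h₀ ≠ 0) :
    C.Generic fun h => f h ≠ 0 := fun h =>
  let ⟨_, hξ⟩ := hf.chart_ne h0 h
  ae_ne_zero volume (hf h) hξ

theorem Generic.mono {C : Ctx L K} {P Q : (G → K) → Prop} (h : C.Generic P) (h' : ∀ x, P x → Q x) :
    C.Generic Q := fun x => (h x).mono fun _ => h' _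

theorem Generic.and {C : Ctx L K} {P Q : (G → K) → Prop} (h : C.Generic P) (h' : C.Generic Q) :
    C.Generic fun x => P x ∧ Q x := fun x => (h x).and (h' x)

theorem Generic.all {C : Ctx L K} {ι : Type} [Countable ι] {P : ι → (G → K) → Prop}
    (h : ∀ i, C.Generic (P i)) : C.Generic fun x => ∀ i, P i x := fun x => ae_all_iff.2 fun i => h i x

theorem Generic.exists {C : Ctx L K} {P : (G → K) → Prop} (h : C.Generic P) :
    ∃ ξ : G → L, P fun i => C.ex (ξ i) := by simpa using (h 1).exists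

theorem generic_rank {V ι : Type} [AddCommGroup V] [Module ℝ V]
    [FiniteDimensional ℝ V] (φ : ι → (G → K) → V →ₗ[ℝ] ℝ)
    (hφ : ∀ n v, C.An fun h => φ n h v) (h₀ : G → K) :
    C.Generic fun h => finrank ℝ (⨅ n, LinearMap.ker (φ n h) : Submodule ℝ V) ≤
      finrank ℝ (⨅ n, LinearMap.ker (φ n h₀) : Submodule ℝ V) := by
  obtain ⟨κ, _, _, a, v, h1, h2⟩ := exists_det φ h₀
  have h5 : C.An fun h => (Matrix.of fun i j => φ (a i) h (v j)).det := by
    simp only [Matrix.det_apply']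
    exact An.sum fun σ => (An.const _).mul fun h =>
      Finset.univ.analyticOnNhd_fun_prod fun i _ => hφ _ _ h
  exact (h5.generic h1).mono h2

end Ctx

end Pool.Agent.Lib.MP_d52947_gt
end
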