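import Pool.Agent.Lib.MP_d52947_gt.AmbB
import Pool.Agent.Lib.MP_d52947_gt.ModelA

-- part Pool.Agent.Lib.MP_d52947_gt.Rec
section

/-! Recurrence under small translations, and polynomial boundedness. -/

namespace Pool.Agent.Lib.MP_d52947_gt

open Filter Topology MeasureTheory

theorem ae_freq_mem {E : Type} [NormedAddCommGroup E] [NormedSpace ℝ E] [FiniteDimensional ℝ E]
    [MeasurableSpace E] [BorelSpace E] (μ : Measure E) [μ.IsAddHaarMeasure] {S : Set E}
    (hS : MeasurableSet S) (hS' : μ S ≠ ⊤) {η : ℕ → E} (hη : Tendsto η atTop (𝓝 0)) :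
    ∀ᵐ ξ ∂μ, ξ ∈ S → ∃ᶠ n in atTop, ξ + η n ∈ S := by
  let f : E → C(E, E) := fun e => ⟨fun ξ => ξ + e, by fun_prop⟩
  have hf : Continuous f := ContinuousMap.continuous_of_continuous_uncurry _ (by
    change Continuous fun p : E × E => p.2 + p.1
    fun_prop)
  have h1 := tendsto_measure_symmDiff_preimage_nhds_zero ((hf.tendsto 0).comp hη)
    (μ := μ) (ν := μ) (Eventually.of_forall fun n => measurePreserving_add_right μ (η n))
    (measurePreserving_add_right μ 0) hS.nullMeasurableSet hS'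
  have h2 : ∀ N, μ {ξ | ξ ∈ S ∧ ∀ n ≥ N, ξ + η n ∉ S} = 0 := fun N => by
    refine nonpos_iff_eq_zero.1 (ge_of_tendsto h1 ?_)
    filter_upwards [eventually_ge_atTop N] with n hn
    refine measure_mono fun ξ hξ => Or.inr ⟨?_, hξ.2 n hn⟩
    simpa [f] using hξ.1
  refine measure_mono_null (fun ξ hξ => ?_) (measure_iUnion_null h2)
  simp only [Set.mem_compl_iff, Set.mem_setOf_eq, Classical.not_imp, not_frequently,
    eventually_atTop] at hξ
  obtain ⟨h, N, hN⟩ := hξ
  exact Set.mem_iUnion.2 ⟨N, h, hN⟩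

theorem ae_freq_le {E : Type} [NormedAddCommGroup E] [NormedSpace ℝ E] [FiniteDimensional ℝ E]
    [MeasurableSpace E] [BorelSpace E] (μ : Measure E) [μ.IsAddHaarMeasure] {f : E → ℝ}
    (hf : Measurable f) {η : ℕ → E} (hη : Tendsto η atTop (𝓝 0)) :
    ∀ᵐ ξ ∂μ, ∃ M : ℕ, ∃ᶠ n in atTop, f (ξ + η n) ≤ M := by
  have h := fun M : ℕ => ae_freq_mem μ (S := {ξ | f ξ ≤ M} ∩ Metric.closedBall 0 M)
    ((measurableSet_le hf measurable_const).inter Metric.isClosed_closedBall.measurableSet)
    (((measure_mono Set.inter_subset_right).trans_lt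
      (isCompact_closedBall _ _).measure_lt_top).ne) hη
  filter_upwards [ae_all_iff.2 h] with ξ hξ
  obtain ⟨M, hM⟩ := exists_nat_ge (max (f ξ) ‖ξ‖)
  exact ⟨M, (hξ M ⟨(le_max_left _ _).trans hM, by simpa using (le_max_right _ _).trans hM⟩).mono
    fun n hn => hn.1⟩

variable {H : Type} [AddCommGroup H] [Module ℝ H] {k : ℕ}

theorem lin_eq_zero_of_bdd (α : H [⋀^Fin k]→ₗ[ℝ] ℝ) (v w : Fin k → H) {M : ℝ}
    (h : ∃ᶠ n : ℕ in atTop, |α fun j => v j + (n : ℝ) • w j| ≤ M) :
    ∑ j, α (Function.update v j (w j)) = 0 := by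
  classical
  let p : Polynomial ℝ := ∑ s : Finset (Fin k), Polynomial.monomial s.card (α (s.piecewise w v))
  have hp : ∀ t : ℝ, p.eval t = α fun j => v j + t • w j := fun t => by
    have := α.toMultilinearMap.map_add_univ (fun j => t • w j) v
    rw [add_comm] at this
    refine Eq.trans ?_ this.symm
    rw [Polynomial.eval_finset_sum]
    refine Finset.sum_congr rfl fun s _ => ?_
    have h2 := α.toMultilinearMap.map_piecewise_smul (fun _ => t) (s.piecewise w v) s
    rw [Polynomial.eval_monomial, mul_comm]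
    simp only [Finset.prod_const, smul_eq_mul, AlternatingMap.coe_multilinearMap] at h2 ⊢
    rw [← h2]
    congr 1
    funext j
    by_cases hj : j ∈ s <;> simp [Finset.piecewise, hj]
  have hd : p.degree ≤ 0 := by
    by_contra hd
    have h1 := ((p.abs_tendsto_atTop (not_le.1 hd)).comp tendsto_natCast_atTop_atTop).eventually
      (eventually_gt_atTop M)
    obtain ⟨n, h2, h3⟩ := (h.and_eventually h1).exists
    rw [Function.comp, hp] at h3
    exact absurd h2 (not_le.2 h3)
  have h1 : p.coeff 1 = 0 := Polynomial.coeff_eq_zero_of_degree_lt (hd.trans_lt (by norm_num))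
  rw [Polynomial.finset_sum_coeff] at h1
  simp only [Polynomial.coeff_monomial, ← Finset.sum_filter] at h1
  rw [← h1, Finset.univ_filter_card_eq, Finset.powersetCard_one, Finset.sum_map]
  simp [Finset.piecewise_singleton]

theorem eq_of_sub_mem {α : H [⋀^Fin k]→ₗ[ℝ] ℝ} {N : Submodule ℝ H}
    (hN : ∀ (u : Fin k → H) j, u j ∈ N → α u = 0) {u u' : Fin k → H} (h : ∀ j, u j - u' j ∈ N) :
    α u = α u' := by
  classical
  have := α.toMultilinearMap.map_add_univ (u - u') u'
  rw [sub_add_cancel, Finset.sum_eq_single ∅ (fun s _ hs => ?_) (by simp)] at this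
  · simpa using this
  · obtain ⟨j, hj⟩ := Finset.nonempty_iff_ne_empty.2 hs
    exact hN _ j (by simpa [Finset.piecewise, hj] using h j)

theorem exists_bound [FiniteDimensional ℝ H] {X : Type} [MeasurableSpace X]
    (F : X → H [⋀^Fin k]→ₗ[ℝ] ℝ) (hF : ∀ v, Measurable fun x => F x v) :
    ∃ h : X → ℝ, Measurable h ∧ ∀ v, ∃ c : ℝ, 0 ≤ c ∧ ∀ x, |F x v| ≤ c * h x := by
  classical
  let b := Module.finBasis ℝ H
  refine ⟨fun x => ∑ r : Fin k → Fin _, |F x fun j => b (r j)|,
    Finset.measurable_sum _ fun r _ => (hF _).abs, fun v => ?_⟩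
  refine ⟨∑ r : Fin k → Fin _, |∏ j, b.repr (v j) (r j)|, by positivity, fun x => ?_⟩
  have h1 : F x v = ∑ r : Fin k → Fin _, (∏ j, b.repr (v j) (r j)) * F x fun j => b (r j) := by
    have := (F x).toMultilinearMap.map_sum fun j i => b.repr (v j) i • b i
    simp only [b.sum_repr, MultilinearMap.map_smul_univ] at this
    exact this
  rw [h1, Finset.sum_mul]
  refine (Finset.abs_sum_le_sum_abs _ _).trans (Finset.sum_le_sum fun r _ => ?_)
  rw [abs_mul]
  exact mul_le_mul_of_nonneg_left (Finset.single_le_sum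
    (f := fun r : Fin k → Fin _ => |F x fun j => b (r j)|) (fun _ _ => abs_nonneg _)
    (Finset.mem_univ r)) (abs_nonneg _)

end Pool.Agent.Lib.MP_d52947_gt
end

-- part Pool.Agent.Lib.MP_d52947_gt.Wedge
section

/-! Wedge products of bilinear forms. -/

namespace Pool.Agent.Lib.MP_d52947_gt

variable {k : ℕ}

theorem wedge_update {V : Type} {m : ℕ} (e : Fin m × Bool ≃ Fin k) (w : Fin m → V → V → ℝ)
    (j : Fin m) : IsLinearMap ℝ fun t : V → V → ℝ => wedge e (Function.update w j t) := by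
  have h : ∀ (t : V → V → ℝ) (u : Fin k → V), wedge e (Function.update w j t) u =
      ∑ σ : Equiv.Perm (Fin k), (Equiv.Perm.sign σ : ℤ) *
        (t (u (σ (e (j, false)))) (u (σ (e (j, true)))) *
        ∏ l ∈ Finset.univ.erase j, w l (u (σ (e (l, false)))) (u (σ (e (l, true))))) := by
    intro t u
    refine Finset.sum_congr rfl fun σ _ => ?_
    rw [← Finset.mul_prod_erase _ _ (Finset.mem_univ j), Function.update_self]
    congr 2
    exact Finset.prod_congr rfl fun l hl => by
      rw [Function.update_of_ne (Finset.ne_of_mem_erase hl)]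
  constructor
  · intro s t
    funext u
    simp only [Pi.add_apply, h, ← Finset.sum_add_distrib]
    exact Finset.sum_congr rfl fun σ _ => by ring
  · intro c t
    funext u
    simp only [Pi.smul_apply, h, smul_eq_mul, Finset.mul_sum]
    exact Finset.sum_congr rfl fun σ _ => by ring

theorem wedge_mem_span {V J : Type} {m : ℕ} (e : Fin m × Bool ≃ Fin k) (Ω : J → V → V → ℝ)
    (w : Fin m → V → V → ℝ) (hw : ∀ j, w j ∈ Submodule.span ℝ (Set.range Ω)) :
    wedge e w ∈ Submodule.span ℝ (Set.range fun c : Fin m → J => wedge e fun j => Ω (c j)) := by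
  have key : ∀ s : Finset (Fin m), ∀ w : Fin m → V → V → ℝ,
      (∀ j, w j ∈ Submodule.span ℝ (Set.range Ω)) → (∀ j ∉ s, w j ∈ Set.range Ω) →
      wedge e w ∈ Submodule.span ℝ (Set.range fun c : Fin m → J => wedge e fun j => Ω (c j)) := by
    intro s
    induction s using Finset.induction_on with
    | empty =>
      intro w _ h
      choose c hc using fun j => h j (by simp)
      exact Submodule.subset_span ⟨c, by simp only [hc]⟩
    | insert j s hj ih =>
      intro w h1 h2
      rw [← Function.update_eq_self j w]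
      have : Submodule.span ℝ (Set.range Ω) ≤ (Submodule.span ℝ (Set.range
          fun c : Fin m → J => wedge e fun j => Ω (c j))).comap ((wedge_update e w j).mk' _) := by
        rw [Submodule.span_le]
        intro t ht
        refine ih _ (fun l => ?_) fun l hl => ?_
        · by_cases h : l = j
          · subst h; rw [Function.update_self]; exact Submodule.subset_span ht
          · rw [Function.update_of_ne h]; exact h1 l
        · by_cases h : l = j
          · subst h; rw [Function.update_self]; exact ht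
          · rw [Function.update_of_ne h]; exact h2 l (by simp [h, hl])
      exact this (h1 j)
  exact key Finset.univ w hw fun j hj => absurd (Finset.mem_univ j) hj

/-- product of bilinear forms -/
def prodBil {V : Type} [AddCommGroup V] [Module ℝ V] {m : ℕ} (w : Fin m → V →ₗ[ℝ] V →ₗ[ℝ] ℝ) :
    MultilinearMap ℝ (fun _ : Fin m × Bool => V) ℝ :=
  have h : ∀ (u : Fin m × Bool → V) (i : Fin m × Bool) (x : V),
      ∏ j, w j (Function.update u i x (j, false)) (Function.update u i x (j, true)) =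
      w i.1 (Function.update u i x (i.1, false)) (Function.update u i x (i.1, true)) *
        ∏ j ∈ Finset.univ.erase i.1, w j (u (j, false)) (u (j, true)) := fun u i x => by
    rw [← Finset.mul_prod_erase _ _ (Finset.mem_univ i.1)]
    congr 1
    refine Finset.prod_congr rfl fun j hj => ?_
    have : ∀ s, (j, s) ≠ i := fun s e => Finset.ne_of_mem_erase hj (congrArg Prod.fst e)
    rw [Function.update_of_ne (this _), Function.update_of_ne (this _)]
  MultilinearMap.mk' (fun u => ∏ j, w j (u (j, false)) (u (j, true)))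
    (fun u i x y => by rw [h, h, h]; rcases i with ⟨i, _ | _⟩ <;> simp [add_mul])
    (fun u i c x => by rw [h, h]; rcases i with ⟨i, _ | _⟩ <;> simp [mul_assoc])

theorem prodBil_apply {V : Type} [AddCommGroup V] [Module ℝ V] {m : ℕ}
    (w : Fin m → V →ₗ[ℝ] V →ₗ[ℝ] ℝ) (u : Fin m × Bool → V) :
    prodBil w u = ∏ j, w j (u (j, false)) (u (j, true)) := rfl

theorem alt_ext_wedge {V : Type} [AddCommGroup V] [Module ℝ V] {m k : ℕ} (e : Fin m × Bool ≃ Fin k)
    (w : Fin m → V →ₗ[ℝ] V →ₗ[ℝ] ℝ) :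
    ∃ β : MultilinearMap ℝ (fun _ : Fin k => V) ℝ, ∀ u, β u = wedge e (fun j a b => w j a b) u :=
  ⟨∑ σ : Equiv.Perm (Fin k), ((Equiv.Perm.sign σ : ℤ) : ℝ) • (prodBil w).domDomCongr (e.trans σ),
    fun u => by simp [wedge, prodBil_apply]⟩

theorem wedge_eq_zero {V : Type} {m : ℕ} (e : Fin m × Bool ≃ Fin k) (w : Fin m → V → V → ℝ)
    (j : Fin m) (h : ∀ a b, w j a b = w j b a) : wedge e w = 0 := by
  funext u
  have hne : e (j, false) ≠ e (j, true) := by simp
  refine Finset.sum_involution (fun σ _ => σ * Equiv.swap (e (j, false)) (e (j, true)))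
    (fun σ _ => ?_) (fun σ _ _ => by simpa using hne) (by simp) (fun σ _ => by simp [mul_assoc])
  have : ∏ l, w l (u ((σ * Equiv.swap (e (j, false)) (e (j, true))) (e (l, false))))
      (u ((σ * Equiv.swap (e (j, false)) (e (j, true))) (e (l, true)))) =
      ∏ l, w l (u (σ (e (l, false)))) (u (σ (e (l, true)))) := by
    refine Finset.prod_congr rfl fun l _ => ?_
    by_cases hl : l = j
    · subst hl; simp [h]
    · simp [Equiv.swap_apply_of_ne_of_ne, hl]
  rw [this]
  simp [Equiv.Perm.sign_swap hne]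

end Pool.Agent.Lib.MP_d52947_gt
end

-- part Pool.Agent.Lib.MP_d52947_gt.FFT
section

/-! The first fundamental theorem for products of symplectic algebras. -/

namespace Pool.Agent.Lib.MP_d52947_gt

open Module Function

section gen
variable {W : Type} [AddCommGroup W] [Module ℝ W] {k : ℕ}

/-- multilinear forms -/
abbrev ML (W : Type) [AddCommGroup W] [Module ℝ W] (k : ℕ) := MultilinearMap ℝ (fun _ : Fin k => W) ℝ

/-- the derivation induced by an endomorphism -/
noncomputable def DM (X : W →ₗ[ℝ] W) : ML W k →ₗ[ℝ] ML W k :=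
  ∑ s, MultilinearMap.compLinearMapₗ (update (fun _ => LinearMap.id) s X)

theorem DM_apply (X : W →ₗ[ℝ] W) (x : ML W k) (u : Fin k → W) :
    DM X x u = ∑ s, x (update u s (X (u s))) := by
  simp only [DM, LinearMap.sum_apply, MultilinearMap.sum_apply]
  refine Finset.sum_congr rfl fun s _ => congrArg x (funext fun t => ?_)
  by_cases h : t = s
  · subst h; simp
  · simp [update_of_ne h]

theorem DM_DM (X Y : W →ₗ[ℝ] W) (x : ML W k) (u : Fin k → W) :
    DM X (DM Y x) u = ∑ s, x (update u s (Y (X (u s)))) +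
      ∑ s, ∑ t ∈ Finset.univ.erase s, x (update (update u s (X (u s))) t (Y (u t))) := by
  simp only [DM_apply, ← Finset.sum_add_distrib]
  refine Finset.sum_congr rfl fun s _ => ?_
  rw [← Finset.add_sum_erase _ _ (Finset.mem_univ s), update_self, update_idem]
  congr 1
  exact Finset.sum_congr rfl fun t ht => by rw [update_of_ne (Finset.ne_of_mem_erase ht)]

theorem DM_adj {ι : Type} [Fintype ι] [DecidableEq ι] (ε : Basis ι ℝ W) {X X' : W →ₗ[ℝ] W}
    (h : ∀ p q, ε.repr (X (ε p)) q = ε.repr (X' (ε q)) p) (x y : ML W k) :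
    ∑ r : Fin k → ι, DM X x (ε ∘ r) * y (ε ∘ r) = ∑ r : Fin k → ι, x (ε ∘ r) * DM X' y (ε ∘ r) := by
  have h1 : ∀ (Z : W →ₗ[ℝ] W) (z : ML W k) (r : Fin k → ι) s, z (update (ε ∘ r) s (Z ((ε ∘ r) s))) =
      ∑ q, ε.repr (Z (ε (r s))) q * z (ε ∘ update r s q) := fun Z z r s => by
    conv_lhs => rw [comp_apply, ← ε.sum_repr (Z _), MultilinearMap.map_update_sum]
    simp only [MultilinearMap.map_update_smul, comp_update, smul_eq_mul]
  simp only [DM_apply, h1, Finset.sum_mul, Finset.mul_sum]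
  rw [Finset.sum_comm, Finset.sum_comm (s := Finset.univ (α := Fin k → ι))]
  refine Finset.sum_congr rfl fun s _ => ?_
  rw [← Fintype.sum_prod_type', ← Fintype.sum_prod_type']
  refine Fintype.sum_bijective (fun p => (update p.1 s p.2, p.1 s))
    (Involutive.bijective fun p => by simp) _ _ fun p => ?_
  simp only [update_self, update_idem, update_eq_self, h]
  ring

theorem DM_cons (X : W →ₗ[ℝ] W) (x : ML W (k + 1)) (p : W) (u : Fin k → W) :
    DM X x (Fin.cons p u) = x (Fin.cons (X p) u) + DM X (x.curryLeft p) u := by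
  simp [DM_apply, Fin.sum_univ_succ, Fin.cons_update]

theorem DM_perm (X : W →ₗ[ℝ] W) (x : ML W k) (σ : Equiv.Perm (Fin k)) :
    DM X (x.domDomCongr σ) = (DM X x).domDomCongr σ := by
  ext u
  simp only [DM_apply, MultilinearMap.domDomCongr_apply]
  refine (Equiv.sum_comp σ _).symm.trans (Finset.sum_congr rfl fun s _ => congrArg x (funext fun t => ?_))
  by_cases h : t = s
  · subst h; simp
  · simp [update_of_ne h, update_of_ne (σ.injective.ne h)]

theorem DM_prod (X : W →ₗ[ℝ] W) {m : ℕ} (e : Fin m × Bool ≃ Fin k) (w : Fin m → W →ₗ[ℝ] W →ₗ[ℝ] ℝ)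
    (h : ∀ j a b, w j (X a) b + w j a (X b) = 0) : DM X ((prodBil w).domDomCongr e) = 0 := by
  ext u
  have h1 : ∀ (i : Fin m × Bool) (x : W), (prodBil w).domDomCongr e (update u (e i) x) =
      w i.1 (update (u ∘ e) i x (i.1, false)) (update (u ∘ e) i x (i.1, true)) *
        ∏ j ∈ Finset.univ.erase i.1, w j (u (e (j, false))) (u (e (j, true))) := fun i x => by
    rw [MultilinearMap.domDomCongr_apply, prodBil_apply,
      ← Finset.mul_prod_erase _ _ (Finset.mem_univ i.1)]
    congr 1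
    · simp [update_apply]
    refine Finset.prod_congr rfl fun j hj => ?_
    have : ∀ s, e (j, s) ≠ e i := fun s e' =>
      Finset.ne_of_mem_erase hj (congrArg Prod.fst (e.injective e'))
    rw [update_of_ne (this _), update_of_ne (this _)]
  rw [DM_apply, ← e.sum_comp, Fintype.sum_prod_type]
  refine Finset.sum_eq_zero fun j _ => ?_
  simp only [h1, Fintype.sum_bool, ← add_mul]
  simp [add_comm (w j _ (X _)), h]

/-- adding a pair -/
noncomputable def consE {m k : ℕ} (e : Fin m × Bool ≃ Fin k) : Fin (m + 1) × Bool ≃ Fin (k + 2) :=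
  Equiv.ofBijective (fun p => Fin.cases (if p.2 then 1 else 0) (fun j => (e (j, p.2)).succ.succ) p.1)
    ((Fintype.bijective_iff_injective_and_card _).2 ⟨by
      rintro ⟨a, s⟩ ⟨b, t⟩ h
      induction a using Fin.cases <;> induction b using Fin.cases <;> cases s <;> cases t <;>
        first
          | simpa using h
          | simp [Fin.ext_iff] at h, by
      have := Fintype.card_congr e
      simp at this ⊢; omega⟩)

end gen

section blocks
variable {I : Type} [Fintype I] [DecidableEq I] {V : I → Type} [∀ i, AddCommGroup (V i)]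
  [∀ i, Module ℝ (V i)] [∀ i, FiniteDimensional ℝ (V i)] {A : I → Type} [∀ i, Fintype (A i)]
  [∀ i, DecidableEq (A i)] (om : ∀ i, V i →ₗ[ℝ] V i →ₗ[ℝ] ℝ) {k : ℕ}

/-- an endomorphism of one block acting on all copies -/
def lft (i : I) (Y : V i →ₗ[ℝ] V i) : (∀ i, A i → V i) →ₗ[ℝ] (∀ i, A i → V i) :=
  LinearMap.single ℝ _ i ∘ₗ Y.compLeft (A i) ∘ₗ LinearMap.proj i

theorem lft_apply (i : I) (Y : V i →ₗ[ℝ] V i) (u : ∀ i, A i → V i) :
    lft i Y u = Pi.single i fun a => Y (u i a) := rfl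

/-- a vector in one copy -/
def sg (i : I) (a : A i) : V i →ₗ[ℝ] (∀ i, A i → V i) :=
  LinearMap.single ℝ _ i ∘ₗ LinearMap.single ℝ (fun _ => V i) a

theorem lft_sg (i : I) (Y : V i →ₗ[ℝ] V i) (a : A i) (v : V i) : lft i Y (sg i a v) = sg i a (Y v) := by
  simp only [lft_apply, sg, LinearMap.comp_apply, LinearMap.coe_single, Pi.single_eq_same]
  congr 1
  funext b
  exact Pi.apply_single (fun _ => Y) (fun _ => map_zero Y) a v b

theorem lft_sg_ne {i i' : I} (h : i ≠ i') (Y : V i →ₗ[ℝ] V i) (a : A i') (v : V i') :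
    lft i Y (sg i' a v) = 0 := by
  simp [lft_apply, sg, Pi.single_eq_of_ne h, ← Pi.zero_def]

theorem lft_eq (i : I) (Y : V i →ₗ[ℝ] V i) (u : ∀ i, A i → V i) :
    lft i Y u = ∑ a, sg i a (Y (u i a)) := by
  simp only [sg, LinearMap.comp_apply]
  rw [← map_sum]
  exact congrArg (Pi.single i) (Finset.univ_sum_single _).symm

/-- the pairing between two copies -/
def omW (c : Σ i, A i × A i) : (∀ i, A i → V i) →ₗ[ℝ] (∀ i, A i → V i) →ₗ[ℝ] ℝ :=
  (om c.1).compl₁₂ (LinearMap.proj c.2.1 ∘ₗ LinearMap.proj c.1)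
    (LinearMap.proj c.2.2 ∘ₗ LinearMap.proj c.1)

theorem omW_apply (c : Σ i, A i × A i) (u v : ∀ i, A i → V i) :
    omW om c u v = om c.1 (u c.1 c.2.1) (v c.1 c.2.2) := rfl

/-- invariant forms -/
noncomputable def InvF (k : ℕ) : Submodule ℝ (ML (∀ i, A i → V i) k) :=
  ⨅ i, ⨅ l, ⨅ l', LinearMap.ker (DM (lft i (spX (om i) l l')))

theorem mem_InvF {x : ML (∀ i, A i → V i) k} :
    x ∈ InvF om k ↔ ∀ i l l', DM (lft i (spX (om i) l l')) x = 0 := by simp [InvF]

/-- products of pairings -/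
def PrF (k : ℕ) : Submodule ℝ (ML (∀ i, A i → V i) k) := Submodule.span ℝ
  {x | ∃ (m : ℕ) (e : Fin m × Bool ≃ Fin k) (c : Fin m → Σ i, A i × A i),
    x = (prodBil fun j => omW om (c j)).domDomCongr e}

variable {om}

theorem PrF_le (hal : ∀ i u v, om i u v = -om i v u) : PrF (A := A) om k ≤ InvF om k := by
  refine Submodule.span_le.2 ?_
  rintro _ ⟨m, e, c, rfl⟩
  refine (mem_InvF om).2 fun i l l' => DM_prod _ _ _ fun j a b => ?_
  obtain ⟨i', p, q⟩ := c j
  simp only [omW_apply, lft_apply]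
  by_cases h : i' = i
  · subst h
    simp only [Pi.single_eq_same, spX_apply, map_add, map_smul, LinearMap.add_apply,
      LinearMap.smul_apply, smul_eq_mul]
    rw [hal _ (a i' p) l', hal _ (a i' p) l]; ring
  · simp [Pi.single_eq_of_ne h]

theorem ins_mem (c : Σ i, A i × A i) (σ : Equiv.Perm (Fin (k + 2))) {y : ML (∀ i, A i → V i) k}
    (hy : y ∈ PrF om k) : ∃ z ∈ PrF om (k + 2), ∀ u,
      z u = omW om c (u (σ 0)) (u (σ 1)) * y fun j => u (σ j.succ.succ) := by
  induction hy using Submodule.span_induction with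
  | mem x h =>
    obtain ⟨m, e, c', rfl⟩ := h
    exact ⟨_, Submodule.subset_span ⟨m + 1, (consE e).trans σ, Fin.cons c c', rfl⟩, fun u => by
      simp [prodBil_apply, Fin.prod_univ_succ, consE]⟩
  | zero => exact ⟨0, Submodule.zero_mem _, by simp⟩
  | add x y _ _ hx hy =>
    obtain ⟨z, h1, h2⟩ := hx
    obtain ⟨z', h1', h2'⟩ := hy
    exact ⟨z + z', Submodule.add_mem _ h1 h1', fun u => by simp [h2, h2', mul_add]⟩
  | smul a x _ hx =>
    obtain ⟨z, h1, h2⟩ := hx
    exact ⟨a • z, Submodule.smul_mem _ _ h1, fun u => by simp [h2, mul_left_comm]⟩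

theorem exists_dual (hal : ∀ i u v, om i u v = -om i v u)
    (hnd : ∀ i v, (∀ w, om i v w = 0) → v = 0) (i : I) : ∃ f : Fin (finrank ℝ (V i)) → V i,
      (∀ μ v, om i (f μ) v = (finBasis ℝ (V i)).repr v μ) ∧
      ∀ v, ∑ μ, om i v (finBasis ℝ (V i) μ) • f μ = v := by
  have h1 : Injective (om i) := (injective_iff_map_eq_zero _).2 fun v h =>
    hnd i v fun w => by rw [h]; rfl
  have h2 := (LinearMap.injective_iff_surjective_of_finrank_eq_finrank
    (Subspace.dual_finrank_eq (K := ℝ) (V := V i)).symm).1 h1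
  choose f hf using fun μ => h2 ((finBasis ℝ (V i)).coord μ)
  refine ⟨f, fun μ v => by rw [hf]; rfl, fun v => h1 ((finBasis ℝ (V i)).ext fun ν => ?_)⟩
  simp [map_sum, hf, Finsupp.single_apply]

/-- two slots of a multilinear form -/
def bil {W : Type} [AddCommGroup W] [Module ℝ W] (x : ML W k) (u : Fin k → W) {s t : Fin k}
    (h : t ≠ s) : W →ₗ[ℝ] W →ₗ[ℝ] ℝ :=
  LinearMap.mk₂ ℝ (fun p q => x (update (update u s p) t q))
    (fun p p' q => by simp only [update_comm h.symm, MultilinearMap.map_update_add])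
    (fun c p q => by simp only [update_comm h.symm, MultilinearMap.map_update_smul])
    (fun p q q' => by simp only [MultilinearMap.map_update_add])
    (fun c p q => by simp only [MultilinearMap.map_update_smul])

theorem sum_comm3 {a d : Type} [Fintype a] {B : a → Type} [∀ i, Fintype (B i)] (s : Finset d)
    (F : ∀ i, B i → B i → d → ℝ) :
    ∑ i, ∑ μ, ∑ ν, ∑ t ∈ s, F i μ ν t = ∑ t ∈ s, ∑ i, ∑ μ, ∑ ν, F i μ ν t := by
  rw [Finset.sum_congr rfl fun i _ => Finset.sum_congr rfl fun μ _ => Finset.sum_comm,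
    Finset.sum_congr rfl fun i _ => Finset.sum_comm, Finset.sum_comm]

section dual
variable {M : I → Type} [∀ i, Fintype (M i)] [∀ i, DecidableEq (M i)] {e : ∀ i, Basis (M i) ℝ (V i)}
  {f : ∀ i, M i → V i} (hal : ∀ i u v, om i u v = -om i v u)
  (hf : ∀ i μ v, om i (f i μ) v = (e i).repr v μ) (hf' : ∀ i v, ∑ μ, om i v (e i μ) • f i μ = v)

variable (om e f) in
/-- elementary endomorphisms -/
noncomputable def EE (i : I) (μ ν : M i) := lft (A := A) i ((om i (f i ν)).smulRight (e i μ))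

variable (om e f) in
/-- their symplectic partners -/
noncomputable def FF (i : I) (μ ν : M i) := lft (A := A) i ((om i (e i μ)).smulRight (f i ν))

include hf hf' in
theorem diag (p : ∀ i, A i → V i) : ∑ i, ∑ μ, ∑ ν, FF om e f i μ ν (EE om e f i ν μ p) = p := by
  conv_rhs => rw [← Finset.univ_sum_single p]
  refine Finset.sum_congr rfl fun i _ => ?_
  simp only [EE, FF, lft_apply, Pi.single_eq_same, LinearMap.smulRight_apply, map_smul]
  rw [← LinearMap.coe_single ℝ, Finset.sum_congr rfl fun μ _ => (map_sum _ _ _).symm, ← map_sum]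
  congr 1
  funext a
  simp only [Finset.sum_apply, ← Finset.smul_sum, hf', hf, Basis.sum_repr]

include hf hal in
theorem offdiag (B : (∀ i, A i → V i) →ₗ[ℝ] (∀ i, A i → V i) →ₗ[ℝ] ℝ) (p q : ∀ i, A i → V i) :
    ∑ i, ∑ μ, ∑ ν, B (EE om e f i ν μ p) (FF om e f i μ ν q) = ∑ c : Σ i, A i × A i,
      omW om c p q * ∑ ν, B (sg c.1 c.2.1 (e _ ν)) (sg c.1 c.2.2 (f _ ν)) := by
  rw [Fintype.sum_sigma]
  refine Finset.sum_congr rfl fun i _ => ?_
  have h : ∀ v w, om i v w = ∑ μ, om i (f i μ) v * om i (e i μ) w := fun v w => by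
    conv_lhs => rw [← (e i).sum_repr v]
    simp only [map_sum, hf, map_smul, LinearMap.sum_apply, LinearMap.smul_apply, smul_eq_mul]
  simp only [EE, FF, lft_eq, LinearMap.smulRight_apply, map_smul, map_sum, LinearMap.sum_apply,
    LinearMap.smul_apply, omW_apply, Fintype.sum_prod_type, smul_eq_mul, h (p i _), Finset.sum_mul,
    Finset.mul_sum]
  simp only [← Fintype.sum_prod_type']
  refine Eq.trans ?_ (Fintype.sum_prod_type' _)
  exact Fintype.sum_equiv (⟨fun x => ((x.2.2.2, x.2.2.1), x.2.1, x.1),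
    fun x => (x.2.2, x.2.1, x.1.2, x.1.1), fun _ => rfl, fun _ => rfl⟩ :
      M i × M i × A i × A i ≃ (A i × A i) × M i × M i) _ _ fun x => by
      simp only [Equiv.coe_fn_mk, mul_assoc, mul_left_comm]

include hf hf' hal in
theorem contr (B : (∀ i, A i → V i) →ₗ[ℝ] (∀ i, A i → V i) →ₗ[ℝ] ℝ) (i : I) (l l' : V i)
    (c : Σ i, A i × A i) :
    ∑ ν, (B (lft i (spX (om i) l l') (sg c.1 c.2.1 (e _ ν))) (sg c.1 c.2.2 (f _ ν)) +
      B (sg c.1 c.2.1 (e _ ν)) (lft i (spX (om i) l l') (sg c.1 c.2.2 (f _ ν)))) = 0 := by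
  obtain ⟨i', a, b⟩ := c
  by_cases h : i = i'
  · subst h
    have h1 : ∀ v w, ∑ ν, om i v (e i ν) * B w (sg i b (f i ν)) = B w (sg i b v) := fun v w => by
      conv_rhs => rw [← hf' i v]
      simp [map_sum]
    have h2 : ∀ v w, ∑ ν, om i v (f i ν) * B (sg i a (e i ν)) w = -B (sg i a v) w := fun v w => by
      conv_rhs => rw [← (e i).sum_repr v]
      simp only [map_sum, hal i v, hf, map_smul, LinearMap.sum_apply, LinearMap.smul_apply,
        smul_eq_mul, neg_mul, Finset.sum_neg_distrib]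
    simp only [lft_sg, spX_apply, map_add, map_smul, LinearMap.add_apply, LinearMap.smul_apply,
      smul_eq_mul, Finset.sum_add_distrib, h1, h2]
    ring
  · simp [lft_sg_ne h]

include hf hal in
theorem pos_inj (hk : 0 < k) {x : ML (∀ i, A i → V i) k} (hx : x ∈ InvF om k)
    (h : ∑ i, ∑ μ, ∑ ν, DM (EE om e f i ν μ) (DM (FF om e f i μ ν) x) = (k : ℝ) • x) : x = 0 := by
  let ε := Pi.basis fun i => Pi.basis fun _ : A i => e i
  have hε : ∀ i a μ, ε ⟨i, a, μ⟩ = sg i a (e i μ) := fun i a μ => by simp [ε, sg]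
  have h1 : ∀ i μ ν, DM (FF om e f i μ ν) x = -DM (EE om e f i μ ν) x := fun i μ ν => by
    rw [eq_neg_iff_add_eq_zero, ← (mem_InvF om).1 hx i (e i μ) (f i ν)]
    refine MultilinearMap.ext fun u => ?_
    simp only [MultilinearMap.add_apply, DM_apply, MultilinearMap.map_update_add, EE, FF, lft_eq,
      spX_apply, map_add, Finset.sum_add_distrib, LinearMap.smulRight_apply]
  have h2 : ∀ i μ ν p q, ε.repr (EE om e f i ν μ (ε p)) q = ε.repr (EE om e f i μ ν (ε q)) p := by
    rintro i μ ν ⟨i₁, a, α⟩ ⟨i₂, b, β⟩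
    by_cases h₁ : i = i₁
    · subst h₁
      by_cases h₂ : i = i₂
      · subst h₂
        simp only [hε, EE, lft_sg, LinearMap.smulRight_apply, map_smul, hf, Basis.repr_self]
        simp only [← hε, Basis.repr_self, Finsupp.smul_apply, Finsupp.single_apply]
        by_cases h1 : a = b
        · subst h1
          by_cases h2 : μ = α <;> by_cases h3 : ν = β <;> simp [h2, h3, eq_comm (a := α), eq_comm (a := β)]
        · simp [h1, Ne.symm h1]
      · simp only [hε, EE, lft_sg, LinearMap.smulRight_apply, map_smul, lft_sg_ne h₂]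
        simp [← hε, h₂]
    · by_cases h₂ : i = i₂
      · subst h₂
        simp only [hε, EE, lft_sg, LinearMap.smulRight_apply, map_smul, lft_sg_ne h₁]
        simp [← hε, h₁]
      · simp [hε, EE, lft_sg_ne h₁, lft_sg_ne h₂]
  have h3 := congrArg (fun y : ML _ k => ∑ r : Fin k → _, y (ε ∘ r) * x (ε ∘ r)) h
  simp only [MultilinearMap.sum_apply, Finset.sum_mul] at h3
  rw [← sum_comm3] at h3
  simp only [h1, map_neg, fun i μ ν => DM_adj ε (h2 i μ ν) (DM (EE om e f i μ ν) x) x,
    MultilinearMap.neg_apply, MultilinearMap.smul_apply, smul_eq_mul, neg_mul, mul_assoc,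
    Finset.sum_neg_distrib, ← Finset.mul_sum] at h3
  have h4 : ∑ r : Fin k → _, x (ε ∘ r) * x (ε ∘ r) ≤ 0 := by
    refine nonpos_of_mul_nonpos_right (h3 ▸ neg_nonpos.2 ?_) (Nat.cast_pos.2 hk)
    exact Finset.sum_nonneg fun _ _ => Finset.sum_nonneg fun _ _ => Finset.sum_nonneg fun _ _ =>
      Finset.sum_nonneg fun _ _ => mul_self_nonneg _
  have h5 := (Finset.sum_eq_zero_iff_of_nonneg fun r _ => mul_self_nonneg (x (ε ∘ r))).1
    (le_antisymm h4 (Finset.sum_nonneg fun _ _ => mul_self_nonneg _))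
  exact Basis.ext_multilinear (fun _ => ε) fun r => mul_self_eq_zero.1 (h5 r (Finset.mem_univ _))

include hf hf' hal in
theorem InvF_le (k : ℕ) : InvF (A := A) om k ≤ PrF om k := by
  induction k using Nat.strong_induction_on with
  | _ k ih =>
  rcases Nat.eq_zero_or_pos k with rfl | hk
  · intro x _
    have : x = x default • (prodBil fun j : Fin 0 => omW om j.elim0).domDomCongr
        (Equiv.equivOfIsEmpty _ _) := MultilinearMap.ext fun u => by
      simp [prodBil_apply, Subsingleton.elim u default]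
    rw [this]
    exact Submodule.smul_mem _ _ (Submodule.subset_span ⟨_, _, _, rfl⟩)
  let T : ML (∀ i, A i → V i) k →ₗ[ℝ] ML (∀ i, A i → V i) k :=
    ∑ i, ∑ μ, ∑ ν, DM (EE om e f i ν μ) ∘ₗ DM (FF om e f i μ ν) - (k : ℝ) • LinearMap.id
  have hT : ∀ x u, T x u = ∑ s, ∑ t ∈ Finset.univ.erase s, ∑ c : Σ i, A i × A i,
      omW om c (u s) (u t) * ∑ ν, x (update (update u s (sg c.1 c.2.1 (e _ ν))) t
        (sg c.1 c.2.2 (f _ ν))) := fun x u => by
    simp only [T, LinearMap.sub_apply, LinearMap.sum_apply, LinearMap.comp_apply,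
      MultilinearMap.sub_apply, MultilinearMap.sum_apply, DM_DM, Finset.sum_add_distrib]
    rw [sum_comm3, sum_comm3]
    simp only [← MultilinearMap.map_update_sum, diag hf hf', update_eq_self, Finset.sum_const,
      Finset.card_univ, Fintype.card_fin, LinearMap.smul_apply,
      LinearMap.id_apply, MultilinearMap.smul_apply, nsmul_eq_mul, smul_eq_mul, add_sub_cancel_left]
    refine Finset.sum_congr rfl fun s _ => (sum_comm3 _ _).trans (Finset.sum_congr rfl fun t ht => ?_)
    exact offdiag hal hf (bil x u (Finset.ne_of_mem_erase ht)) _ _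
  have hmem : ∀ x ∈ InvF om k, T x ∈ PrF om k := fun x hx => by
    have key : ∀ s t, t ≠ s → ∀ c : Σ i, A i × A i, ∃ z ∈ PrF om k, ∀ u, z u =
        omW om c (u s) (u t) * ∑ ν, x (update (update u s (sg c.1 c.2.1 (e _ ν))) t
          (sg c.1 c.2.2 (f _ ν))) := fun s t h c => by
      obtain ⟨m, rfl⟩ : ∃ m, k = m + 2 := ⟨k - 2, by have := Fin.ext_iff.not.1 h; omega⟩
      obtain ⟨σ, hσ⟩ := Equiv.Perm.exists_extending_pair (f := ![(0 : Fin (m + 2)), 1]) (g := ![s, t])
        (by intro a b; fin_cases a <;> fin_cases b <;> simp)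
        (by intro a b; fin_cases a <;> fin_cases b <;> simp [h, h.symm])
      obtain rfl : σ 0 = s := hσ 0
      obtain rfl : σ 1 = t := hσ 1
      obtain ⟨z, h1, h2⟩ := ins_mem c σ (y := ∑ ν, ((x.domDomCongr σ.symm).curryLeft
          (sg c.1 c.2.1 (e _ ν))).curryLeft (sg c.1 c.2.2 (f _ ν))) (ih m (by omega)
        ((mem_InvF om).2 fun i l l' => MultilinearMap.ext fun u => by
          have h3 := fun p q => congrArg (· (Fin.cons p (Fin.cons q u)))
            (DM_perm (lft i (spX (om i) l l')) x σ.symm)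
          simp only [(mem_InvF om).1 hx] at h3
          have h4 := contr hal hf hf' (LinearMap.mk₂ ℝ
            (fun p q => ((x.domDomCongr σ.symm).curryLeft p).curryLeft q u) (by simp) (by simp)
            (by simp) (by simp)) i l l' c
          rw [map_sum, MultilinearMap.sum_apply, MultilinearMap.zero_apply, ← neg_eq_zero, ← h4,
            ← Finset.sum_neg_distrib]
          refine Finset.sum_congr rfl fun ν _ => ?_
          have := h3 (sg c.1 c.2.1 (e _ ν)) (sg c.1 c.2.2 (f _ ν))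
          rw [DM_cons, DM_cons] at this
          simp only [LinearMap.mk₂_apply, MultilinearMap.curryLeft_apply,
            MultilinearMap.domDomCongr_apply, MultilinearMap.zero_apply] at this ⊢
          linarith))
      · refine ⟨z, h1, fun u => ?_⟩
        simp only [h2, MultilinearMap.sum_apply, MultilinearMap.curryLeft_apply,
          MultilinearMap.domDomCongr_apply]
        congr 2
        funext ν
        congr 1
        funext j
        obtain ⟨j, rfl⟩ := σ.surjective j
        rw [Equiv.symm_apply_apply]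
        refine Fin.cases ?_ (Fin.cases ?_ fun j => ?_) j <;>
          simp [update_apply, Fin.succ_ne_zero, Fin.succ_succ_ne_one]
    choose! z h1 h2 using key
    have : T x = ∑ s, ∑ t ∈ Finset.univ.erase s, ∑ c, z s t c := MultilinearMap.ext fun u => by
      simp only [hT, MultilinearMap.sum_apply]
      exact Finset.sum_congr rfl fun s _ => Finset.sum_congr rfl fun t ht =>
        Finset.sum_congr rfl fun c _ => (h2 s t (Finset.ne_of_mem_erase ht) c u).symm
    rw [this]
    exact Submodule.sum_mem _ fun s _ => Submodule.sum_mem _ fun t ht =>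
      Submodule.sum_mem _ fun c _ => h1 s t (Finset.ne_of_mem_erase ht) c
  have h1 : (InvF om k).map T ≤ PrF om k := Submodule.map_le_iff_le_comap.2 hmem
  refine (Submodule.eq_of_le_of_finrank_le (PrF_le hal) (le_trans (le_of_eq ?_)
    (Submodule.finrank_mono h1))).ge
  rw [← LinearMap.range_domRestrict, LinearMap.finrank_range_of_inj]
  exact (injective_iff_map_eq_zero _).2 fun x h => Subtype.ext (pos_inj hal hf hk x.2 (by
    simpa [T, sub_eq_zero] using h))

end dual

end blocks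

theorem fft {H : Type} [AddCommGroup H] [Module ℝ H] {I : Type} [Fintype I]
    (V : I → Type) [∀ i, AddCommGroup (V i)] [∀ i, Module ℝ (V i)]
    [∀ i, FiniteDimensional ℝ (V i)] (A : I → Type) [∀ i, Fintype (A i)]
    (om : ∀ i, V i →ₗ[ℝ] V i →ₗ[ℝ] ℝ) (hal : ∀ i v, om i v v = 0)
    (hnd : ∀ i v, (∀ w, om i v w = 0) → v = 0) (π : ∀ i, A i → H →ₗ[ℝ] V i)
    (hsurj : ∀ y : ∀ i, A i → V i, ∃ u, ∀ i a, π i a u = y i a)
    {k : ℕ} (α : H [⋀^Fin k]→ₗ[ℝ] ℝ)
    (hker : ∀ (u : Fin k → H) j, (∀ i a, π i a (u j) = 0) → α u = 0)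
    (hT : ∀ i (l : V i), ∃ T : H →ₗ[ℝ] H, Kills T α ∧
      (∀ a u, π i a (T u) = om i l (π i a u) • l) ∧ ∀ i', i' ≠ i → ∀ a u, π i' a (T u) = 0) :
    (α : (Fin k → H) → ℝ) ∈ Submodule.span ℝ
      {w | ∃ (m : ℕ) (e : Fin m × Bool ≃ Fin k) (c : Fin m → Σ i, A i × A i),
        w = wedge e fun j u v => om (c j).1 (π _ (c j).2.1 u) (π _ (c j).2.2 v)
          + om (c j).1 (π _ (c j).2.2 u) (π _ (c j).2.1 v)} := by
  classical
  have hal' : ∀ i u v, om i u v = -om i v u := fun i u v => by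
    have := hal i (u + v)
    simp only [map_add, LinearMap.add_apply, hal] at this
    linarith
  choose f hf hf' using exists_dual hal' hnd
  let P : H →ₗ[ℝ] (∀ i, A i → V i) := LinearMap.pi fun i => LinearMap.pi (π i)
  obtain ⟨s, hs⟩ := P.exists_rightInverse_of_surjective (LinearMap.range_eq_top.2 fun y => by
    obtain ⟨u, hu⟩ := hsurj y
    exact ⟨u, funext fun i => funext (hu i)⟩)
  have hs' : ∀ y, P (s y) = y := fun y => congrArg (· y) hs
  have hN : ∀ (u : Fin k → H) j, u j ∈ LinearMap.ker P → α u = 0 := fun u j h =>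
    hker u j fun i a => congrFun (congrFun h i) a
  let x : ML (∀ i, A i → V i) k := α.toMultilinearMap.compLinearMap fun _ => s
  have hx : x ∈ InvF om k := (mem_InvF om).2 fun i l l' => by
    let S : Submodule ℝ (V i →ₗ[ℝ] V i) :=
      { carrier := {Y | DM (lft i Y) x = 0}
        zero_mem' := MultilinearMap.ext fun u => by simp [DM_apply, lft_eq]
        add_mem' := fun {Y Z} h h' => MultilinearMap.ext fun u => by
          have := congrArg₂ (fun a b => a u + b u) h h'
          simpa [DM_apply, lft_eq, Finset.sum_add_distrib] using this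
        smul_mem' := fun c Y h => MultilinearMap.ext fun u => by
          have := congrArg (fun a => c * a u) h
          simpa [DM_apply, lft_eq, ← Finset.smul_sum, Finset.mul_sum] using this }
    refine full_of_sq (om i) (S := S) (U := ⊤) (fun z _ => ?_) l trivial l' trivial
    obtain ⟨T, h1, h2, h3⟩ := hT i z
    refine MultilinearMap.ext fun u => ?_
    rw [DM_apply, MultilinearMap.zero_apply, ← (stab α).add_mem h1 h1 fun j => s (u j)]
    refine Finset.sum_congr rfl fun j _ => eq_of_sub_mem hN fun t => ?_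
    by_cases h : t = j
    · subst h
      simp only [update_self, LinearMap.mem_ker, map_sub, hs', sub_eq_zero]
      funext i' a
      have h4 : ∀ i a, π i a (s (u t)) = u t i a := fun i a => congrFun (congrFun (hs' (u t)) i) a
      by_cases h : i' = i
      · subst h; simp [lft_apply, P, h2, h4, spX_apply]
      · simp [lft_apply, P, h3 i' h, Pi.single_eq_of_ne h]
    · simp [update_of_ne h]
  let Φ : ML (∀ i, A i → V i) k →ₗ[ℝ] ((Fin k → H) → ℝ) :=
    { toFun := fun y u => ∑ σ : Equiv.Perm (Fin k), (Equiv.Perm.sign σ : ℤ) * y fun j => P (u (σ j))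
      map_add' := fun a b => funext fun u => by simp [mul_add, Finset.sum_add_distrib]
      map_smul' := fun c a => funext fun u => by simp [Finset.mul_sum, mul_left_comm] }
  have h1 : (α : (Fin k → H) → ℝ) = (k.factorial : ℝ)⁻¹ • Φ x := funext fun u => by
    have : ∀ σ : Equiv.Perm (Fin k), ((Equiv.Perm.sign σ : ℤ) : ℝ) * x (fun j => P (u (σ j))) = α u :=
      fun σ => by
        rw [show x _ = α (u ∘ σ) from eq_of_sub_mem hN fun j => by simp [hs'], α.map_perm]
        rcases Int.units_eq_one_or (Equiv.Perm.sign σ) with h | h <;> simp [h]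
    simp only [Φ, LinearMap.coe_mk, AddHom.coe_mk, Pi.smul_apply, this]
    simp [Fintype.card_perm, Nat.factorial_ne_zero]
  rw [h1]
  refine Submodule.smul_mem _ _ (Submodule.mem_comap.1 (Submodule.span_le.2 ?_
    (InvF_le hal' hf hf' k hx)))
  rintro _ ⟨m, e, c, rfl⟩
  rw [SetLike.mem_coe, Submodule.mem_comap]
  change wedge e (fun j u v => om (c j).1 (π _ (c j).2.1 u) (π _ (c j).2.2 v)) ∈ Submodule.span ℝ _
  let Ω : (Σ i, A i × A i) × Bool → H → H → ℝ := fun q u v =>
    om q.1.1 (π _ q.1.2.1 u) (π _ q.1.2.2 v) + (if q.2 then 1 else -1) *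
      om q.1.1 (π _ q.1.2.2 u) (π _ q.1.2.1 v)
  refine Submodule.span_le.2 ?_ (wedge_mem_span e Ω
    (fun j u v => om (c j).1 (π _ (c j).2.1 u) (π _ (c j).2.2 v)) fun j => ?_)
  · rintro _ ⟨q, rfl⟩
    by_cases h : ∀ j, (q j).2 = true
    · exact Submodule.subset_span ⟨m, e, fun j => (q j).1, by simp [Ω, h]⟩
    · obtain ⟨j, hj⟩ := not_forall.1 h
      beta_reduce
      rw [SetLike.mem_coe, wedge_eq_zero e _ j fun a b => ?_]
      · exact Submodule.zero_mem _
      · simp only [Ω, hj]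
        rw [hal' _ (π _ _ a) (π _ (q j).1.2.2 b), hal' _ (π _ _ a)]; simp; ring
  · convert Submodule.smul_mem _ (1 / 2 : ℝ) (Submodule.add_mem _
      (Submodule.subset_span (Set.mem_range_self (f := Ω) (c j, true)))
      (Submodule.subset_span (Set.mem_range_self (f := Ω) (c j, false))))
    simp [Ω]; ring

end Pool.Agent.Lib.MP_d52947_gt
end

-- part Pool.Agent.Lib.MP_d52947_gt.OneA
section

/-! Shears of a torus: recurrence and the Mautner phenomenon. -/

namespace Pool.Agent.Lib.MP_d52947_gt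

open Filter Topology MeasureTheory
open scoped symmDiff

section
variable {H : Type} [AddCommGroup H] [Module ℝ H] {k : ℕ}

theorem const_of_bdd (α : H [⋀^Fin k]→ₗ[ℝ] ℝ) (v w : Fin k → H) {M : ℝ}
    (h : ∃ᶠ n : ℕ in atTop, |α fun j => v j + (n : ℝ) • w j| ≤ M) (t : ℝ) :
    α (fun j => v j + t • w j) = α v := by
  classical
  let p : Polynomial ℝ := ∑ s : Finset (Fin k), Polynomial.monomial s.card (α (s.piecewise w v))
  have hp : ∀ t : ℝ, p.eval t = α fun j => v j + t • w j := fun t => by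
    have := α.toMultilinearMap.map_add_univ (fun j => t • w j) v
    rw [add_comm] at this
    refine Eq.trans ?_ this.symm
    rw [Polynomial.eval_finset_sum]
    refine Finset.sum_congr rfl fun s _ => ?_
    have h2 := α.toMultilinearMap.map_piecewise_smul (fun _ => t) (s.piecewise w v) s
    rw [Polynomial.eval_monomial, mul_comm]
    simp only [Finset.prod_const, smul_eq_mul, AlternatingMap.coe_multilinearMap] at h2 ⊢
    rw [← h2]
    congr 1
    funext j
    by_cases hj : j ∈ s <;> simp [Finset.piecewise, hj]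
  have hd : p.degree ≤ 0 := by
    by_contra hd
    have h1 := ((p.abs_tendsto_atTop (not_le.1 hd)).comp tendsto_natCast_atTop_atTop).eventually
      (eventually_gt_atTop M)
    obtain ⟨n, h2, h3⟩ := (h.and_eventually h1).exists
    rw [Function.comp, hp] at h3
    exact absurd h2 (not_le.2 h3)
  have h0 := hp 0
  simp only [zero_smul, add_zero] at h0
  rw [← hp, ← h0, Polynomial.eq_C_of_degree_le_zero hd]
  simp

theorem rank_one (α : H [⋀^Fin k]→ₗ[ℝ] ℝ) (v : Fin k → H) (c : Fin k → ℝ) (h : H) :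
    α (fun j => v j + c j • h) = α v + ∑ j, α (Function.update v j (c j • h)) := by
  classical
  have h1 := α.toMultilinearMap.map_add_univ (fun j => c j • h) v
  rw [add_comm, ← Finset.sum_subset (s₁ := insert ∅ (Finset.univ.image singleton))
    (Finset.subset_univ _) fun s _ hs => ?_, Finset.sum_insert (by simp),
    Finset.sum_image (by simp [Set.InjOn])] at h1
  · simpa [Finset.piecewise_singleton, Pi.add_def] using h1
  obtain ⟨i, hi, j, hj, e⟩ := Finset.one_lt_card.1 (show 1 < s.card by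
    by_contra h2
    rcases Nat.le_one_iff_eq_zero_or_eq_one.1 (not_lt.1 h2) with h3 | h3
    · exact hs (by simp [Finset.card_eq_zero.1 h3])
    · obtain ⟨a, rfl⟩ := Finset.card_eq_one.1 h3
      exact hs (by simp))
  set u := s.piecewise (fun j => c j • h) v
  have : u = Function.update (Function.update u i (c i • h)) j (c j • h) := by
    rw [← show u i = _ from s.piecewise_eq_of_mem _ _ hi, ← show u j = _ from s.piecewise_eq_of_mem _ _ hj]
    simp
  rw [AlternatingMap.coe_multilinearMap, this, α.map_update_smul, Function.update_comm e,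
    α.map_update_smul, α.map_update_update _ e.symm]
  simp

theorem refl_kills {α : H [⋀^Fin k]→ₗ[ℝ] ℝ} {l m : H →ₗ[ℝ] ℝ} {h z : H} (h1 : l z = 0)
    (h2 : m z = 1) (H0 : ∀ v, α (fun j => v j - (2 * l (v j)) • h - (2 * m (v j)) • z) = α v) :
    l.smulRight h - m.smulRight z ∈ stab α := fun v => by
  have h3 := H0 fun j => v j + (-2 * m (v j)) • z
  rw [rank_one, show (fun j => _) = fun j => v j + (-2 * l (v j)) • h from funext fun j => by
    simp only [map_add, map_smul, h1, h2, smul_eq_mul]; module, rank_one, add_right_inj] at h3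
  simp only [mul_smul, AlternatingMap.map_update_smul, smul_eq_mul, ← Finset.mul_sum] at h3
  simp only [LinearMap.sub_apply, LinearMap.smulRight_apply, AlternatingMap.map_update_sub,
    Finset.sum_sub_distrib, AlternatingMap.map_update_smul, smul_eq_mul]
  linarith

theorem refl_nil {α : H [⋀^Fin k]→ₗ[ℝ] ℝ} {l m : H →ₗ[ℝ] ℝ} {h z : H} (h1 : l z = 0) (h2 : m z = 1)
    (h3 : l h = 1) (h4 : m h = 0)
    (H0 : ∀ v, α (fun j => v j - (2 * l (v j)) • h - (2 * m (v j)) • z) = α v) :
    m.smulRight h ∈ stab α := by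
  have h5 := refl_kills (l := l - m) (h := h) (z := z + h) (m := m) (by simp [h1, h2, h3, h4])
    (by simp [h2, h4]) fun v => (congrArg α (funext fun j => by
      simp only [LinearMap.sub_apply]; module)).trans (H0 v)
  convert (stab α).smul_mem (1 / 2 : ℝ) (stab_sub (refl_kills h1 h2 H0) h5) using 1
  ext v
  simp only [LinearMap.smul_apply, LinearMap.sub_apply, LinearMap.smulRight_apply]
  module

theorem ae_eq_form [FiniteDimensional ℝ H] {X : Type} {l : Filter X}
    {β γ : X → H [⋀^Fin k]→ₗ[ℝ] ℝ} (h : ∀ v, ∀ᶠ p in l, β p v = γ p v) : ∀ᶠ p in l, β p = γ p :=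
  (eventually_all.2 fun r : Fin k → Fin _ => h fun j => Module.finBasis ℝ H (r j)).mono
    fun _ hp => (Module.finBasis ℝ H).ext_alternating fun r _ => hp r

end

variable {E : Type} [NormedAddCommGroup E] [NormedSpace ℝ E] [FiniteDimensional ℝ E]
  [MeasurableSpace E] [BorelSpace E] (μ : Measure E) [μ.IsAddHaarMeasure]

theorem ae_shift {P : E → Prop} (h : ∀ᵐ x ∂μ, P x) (d : E) : ∀ᵐ x ∂μ, P (x + d) :=
  (measurePreserving_add_right μ d).quasiMeasurePreserving.ae h

theorem ae_freq_bdd {f : E → ℝ} (hf : Measurable f) {η : ℕ → E} {R : ℝ} (hη : ∀ n, ‖η n‖ ≤ R) :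
    ∀ᵐ ξ ∂μ, ∃ M : ℕ, ∃ᶠ n in atTop, f (ξ + η n) ≤ M := by
  obtain ⟨r, -, φ, h1, h2⟩ := (isCompact_closedBall (0 : E) R).tendsto_subseq (x := η)
    fun n => mem_closedBall_zero_iff.2 (hη n)
  refine (ae_shift μ (ae_freq_le μ hf (η := fun n => η (φ n) - r)
    (by simpa using h2.sub_const r)) r).mono fun ξ ⟨M, hM⟩ => ⟨M, h1.tendsto_atTop.frequently ?_⟩
  simpa using hM

theorem ae_const {G : E → ℝ} (hG : Measurable G) (h : ∀ d, ∀ᵐ p ∂μ, G (p + d) = G p) :
    ∃ c, ∀ᵐ p ∂μ, G p = c := by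
  obtain ⟨p, hp⟩ := ((Measure.ae_ae_comm (μ := μ) (ν := μ) (p := fun d p => G (p + d) = G p) (measurableSet_eq_fun
    (hG.comp (measurable_snd.add measurable_fst)) (hG.comp measurable_snd))).1
    (Eventually.of_forall h)).exists
  exact ⟨G p, by simpa using ae_shift μ hp (-p)⟩

theorem mautner {G : E × E → ℝ} (hG : Measurable G) {δ : E} {R : ℝ} {ε : ℕ → E}
    (hε : Tendsto ε atTop (𝓝 0)) (h : ∀ n, ∀ᵐ ξ ∂μ, ∃ r, ‖r‖ ≤ R ∧ ∀ᵐ η ∂μ,
      G (ξ + ε n, η - r) = G (ξ + ε n, η + δ) ∧ G (ξ, η - r) = G (ξ, η)) :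
    ∀ᵐ p ∂μ.prod μ, G (p.1, p.2 + δ) = G p := by
  have key : ∀ (q : ℚ) (M : ℕ), ∀ᵐ p ∂μ.prod μ, ‖p‖ ≤ M → (G (p.1, p.2 + δ) ≤ q ↔ G p ≤ q) := by
    intro q M
    let S : Set (E × E) := {p | G p ≤ q} ∩ Metric.closedBall 0 (M + |R| + ‖δ‖ + 1)
    have hS : MeasurableSet S :=
      (measurableSet_le hG measurable_const).inter Metric.isClosed_closedBall.measurableSet
    let f : E → C(E × E, E × E) := fun e => ⟨fun p => p + (e, 0), by fun_prop⟩
    have hf : Continuous f := ContinuousMap.continuous_of_continuous_uncurry _ (by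
      change Continuous fun p : E × E × E => p.2 + (p.1, 0)
      fun_prop)
    have h1 := tendsto_measure_symmDiff_preimage_nhds_zero ((hf.tendsto 0).comp hε)
      (μ := μ.prod μ) (ν := μ.prod μ) (Eventually.of_forall fun n => measurePreserving_add_right _ _)
      (measurePreserving_add_right _ _) hS.nullMeasurableSet (((measure_mono
        Set.inter_subset_right).trans_lt (isCompact_closedBall _ _).measure_lt_top).ne)
    rw [ae_iff]
    refine nonpos_iff_eq_zero.1 ((ge_of_tendsto (h1.add h1) ?_).trans_eq (add_zero _))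
    filter_upwards [hε.norm.eventually (ge_mem_nhds (a := 1) (by simp))] with n hn
    have hD : MeasurableSet ((f (ε n) ⁻¹' S) ∆ (f 0 ⁻¹' S)) :=
      ((f _).continuous.measurable hS).symmDiff ((f _).continuous.measurable hS)
    refine (Measure.prod_apply_le ((((measurableSet_le measurable_norm measurable_const).imp
      ((measurableSet_le (hG.comp (by fun_prop)) measurable_const).iff
        (measurableSet_le hG measurable_const))).compl))).trans ?_
    rw [Function.comp_apply (f := f), Measure.prod_apply hD, ← lintegral_add_left (measurable_measure_prodMk_left hD)]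
    refine lintegral_mono_ae ((h n).mono fun ξ ⟨r, hr, H⟩ => ?_)
    refine le_trans (measure_mono_ae (t := (· + δ) ⁻¹' (Prod.mk ξ ⁻¹' _) ∪ (· + -r) ⁻¹' (Prod.mk ξ ⁻¹' _))
      (H.mono fun η hη hb => by_contra fun hc => hb fun hM => ?_))
      ((measure_union_le _ _).trans (by rw [measure_preimage_add_right, measure_preimage_add_right]))
    have h2 : ∀ d : E, ‖d‖ ≤ |R| + ‖δ‖ → (ξ, η + d) ∉ (f (ε n) ⁻¹' S) ∆ (f 0 ⁻¹' S) →
        (G (ξ + ε n, η + d) ≤ q ↔ G (ξ, η + d) ≤ q) := fun d hd hn' => by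
      have a1 := (norm_fst_le (ξ, η)).trans hM
      have a2 := (norm_snd_le (ξ, η)).trans hM
      have a3 := norm_add_le η d
      have a4 := norm_add_le ξ (ε n)
      have a5 := abs_nonneg R
      have a6 := norm_nonneg δ
      simp only at a1 a2
      have b1 : ‖(ξ + ε n, η + d)‖ ≤ M + |R| + ‖δ‖ + 1 := max_le (by linarith) (by linarith)
      have b2 : ‖(ξ, η + d)‖ ≤ M + |R| + ‖δ‖ + 1 := max_le (by linarith) (by linarith)
      simp only [Set.mem_symmDiff, f, S, Set.mem_preimage, ContinuousMap.coe_mk, Prod.mk_add_mk,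
        add_zero, Set.mem_inter_iff, Set.mem_setOf_eq, mem_closedBall_zero_iff, b1, b2] at hn'
      tauto
    have h3 := h2 δ (by linarith [abs_nonneg R]) fun e => hc (Or.inl e)
    have h4 := h2 (-r) (by rw [norm_neg]; linarith [le_abs_self R, norm_nonneg δ]) fun e => hc (Or.inr e)
    rw [← sub_eq_add_neg, hη.1, hη.2] at h4
    exact h3.symm.trans h4
  filter_upwards [ae_all_iff.2 fun q => ae_all_iff.2 (key q)] with p hp
  obtain ⟨M, hM⟩ := exists_nat_ge ‖p‖
  refine le_antisymm (not_lt.1 fun e => ?_) (not_lt.1 fun e => ?_)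
  all_goals obtain ⟨q, h1, h2⟩ := exists_rat_btwn e
  exacts [h2.not_ge ((hp q M hM).2 h1.le), h2.not_ge ((hp q M hM).1 h1.le)]

theorem shear {H : Type} [AddCommGroup H] [Module ℝ H] [FiniteDimensional ℝ H] {k : ℕ}
    (β : E × E → H [⋀^Fin k]→ₗ[ℝ] ℝ) (hβ : ∀ v, Measurable (β · v)) (n : H →ₗ[ℝ] H)
    (hn : ∀ u, n (n u) = 0) {N : ℕ} (hN : N ≠ 0) (ζ : E) {R : ℝ}
    (hR : ∀ z, ∃ r, ‖r‖ ≤ R ∧ ∀ ξ η, β (ξ, η + z) = β (ξ, η + r))
    (hi : ∀ m : ℕ, ∀ᵐ p ∂μ.prod μ, ∀ v, β (p.1, p.2 + (m : ℝ) • ((N : ℝ) • p.1 + ζ))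
      (fun j => v j + (m * N : ℝ) • n (v j)) = β p v) :
    (∀ᵐ p ∂μ.prod μ, n ∈ stab (β p)) ∧ ∀ δ, ∀ᵐ p ∂μ.prod μ, β (p.1, p.2 + δ) = β p := by
  let _ : MeasurableSpace (H [⋀^Fin k]→ₗ[ℝ] ℝ) :=
    MeasurableSpace.comap (fun α v => α v) (MeasurableSpace.pi : MeasurableSpace ((Fin k → H) → ℝ))
  have h1 : Measurable β := measurable_comap_iff.2 (measurable_pi_iff.2 hβ)
  obtain ⟨h, h2, h3⟩ := exists_bound (fun α : H [⋀^Fin k]→ₗ[ℝ] ℝ => α)
    fun v => (measurable_pi_apply v).comp (comap_measurable _)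
  choose r h4 h5 using hR
  have h6 : ∀ᵐ p ∂μ.prod μ, ∃ M : ℕ, ∃ᶠ m : ℕ in atTop,
      h (β (p.1, p.2 + (m : ℝ) • ((N : ℝ) • p.1 + ζ))) ≤ M := by
    rw [Measure.ae_prod_iff_ae_ae]
    · refine Eventually.of_forall fun ξ => ?_
      exact (ae_freq_bdd μ (f := fun η => h (β (ξ, η))) (h2.comp (h1.comp (by fun_prop)))
        fun m : ℕ => h4 ((m : ℝ) • ((N : ℝ) • ξ + ζ))).mono fun η => by simp only [← h5, imp_self]
    simp only [frequently_atTop, Set.setOf_exists, Set.setOf_forall]
    exact MeasurableSet.iUnion fun M => MeasurableSet.iInter fun a => MeasurableSet.iUnion fun m =>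
      MeasurableSet.inter (MeasurableSet.const _)
        (measurableSet_le (h2.comp (h1.comp (by fun_prop))) measurable_const)
  have h7 : ∀ᵐ p ∂μ.prod μ, n ∈ stab (β p) ∧
      ∀ m : ℕ, β (p.1, p.2 + (m : ℝ) • ((N : ℝ) • p.1 + ζ)) = β p := by
    filter_upwards [h6, ae_all_iff.2 hi] with p ⟨M, hM⟩ hp
    have h8 : ∀ (m : ℕ) v, β (p.1, p.2 + (m : ℝ) • ((N : ℝ) • p.1 + ζ)) v =
        β p fun j => v j + (m : ℝ) • -((N : ℝ) • n (v j)) := fun m v => by
      rw [← hp m]
      congr 1
      funext j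
      simp only [map_add, map_smul, map_neg, hn]
      module
    have h9 : ∀ v : Fin k → H, ∃ B, ∃ᶠ m : ℕ in atTop, |β p fun j => v j + (m : ℝ) • -((N : ℝ) • n (v j))| ≤ B :=
      fun v => by
        obtain ⟨c, hc, H⟩ := h3 v
        exact ⟨c * M, hM.mono fun m hm => h8 m v ▸ (H _).trans (mul_le_mul_of_nonneg_left hm hc)⟩
    refine ⟨fun v => ?_, fun m => AlternatingMap.ext fun v => ?_⟩
    · obtain ⟨B, hB⟩ := h9 v
      simpa [AlternatingMap.map_update_neg, AlternatingMap.map_update_smul, ← Finset.mul_sum, hN]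
        using lin_eq_zero_of_bdd _ _ _ hB
    · obtain ⟨B, hB⟩ := h9 v
      rw [h8, const_of_bdd _ _ _ hB]
  refine ⟨h7.mono fun _ h => h.1, fun δ => ae_eq_form fun v => mautner μ (hβ v) (R := R)
    (ε := fun m => (1 / (m + 1 : ℝ)) • (N : ℝ)⁻¹ • δ)
    (by simpa using (tendsto_one_div_add_atTop_nhds_zero_nat (𝕜 := ℝ)).smul_const ((N : ℝ)⁻¹ • δ)) fun m => ?_⟩
  have h8 := Measure.ae_ae_of_ae_prod (h7.mono fun _ h => h.2 (m + 1))
  filter_upwards [h8, ae_shift μ h8 ((1 / (m + 1 : ℝ)) • (N : ℝ)⁻¹ • δ)] with ξ a b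
  refine ⟨_, h4 (((m + 1 : ℕ) : ℝ) • ((N : ℝ) • ξ + ζ)), ?_⟩
  filter_upwards [ae_shift μ a (-r (((m + 1 : ℕ) : ℝ) • ((N : ℝ) • ξ + ζ))),
    ae_shift μ b (-r (((m + 1 : ℕ) : ℝ) • ((N : ℝ) • ξ + ζ)))] with η c d
  have e : ((m + 1 : ℕ) : ℝ) • ((N : ℝ) • (ξ + (1 / (m + 1 : ℝ)) • (N : ℝ)⁻¹ • δ) + ζ) =
      δ + ((m + 1 : ℕ) : ℝ) • ((N : ℝ) • ξ + ζ) := by
    have : (N : ℝ) ≠ 0 := by exact_mod_cast hN
    push_cast
    match_scalars <;> field_simp
  rw [e, ← add_assoc, h5] at d
  rw [h5, neg_add_cancel_right] at c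
  rw [sub_eq_add_neg, ← c, ← d, add_right_comm η, neg_add_cancel_right]
  exact ⟨rfl, rfl⟩

theorem exists_anti {X Y : Type} [NormedAddCommGroup X] [NormedSpace ℝ X] [FiniteDimensional ℝ X]
    [NormedAddCommGroup Y] [NormedSpace ℝ Y] {g : X → Y} (hg : ContDiff ℝ 1 g)
    (h : ∀ v, HasDerivAt (fun t : ℝ => g (t • v)) 0 0 → v = 0) :
    ∃ c : NNReal, ∃ U ∈ 𝓝 (0 : X), ∀ z ∈ U, ∀ z' ∈ U, dist z' z ≤ c * dist (g z') (g z) := by
  have h1 := hg.contDiffAt.hasStrictFDerivAt (x := 0) one_ne_zero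
  obtain ⟨c, hc, h2⟩ := (fderiv ℝ g 0).toLinearMap.exists_antilipschitzWith
    (LinearMap.ker_eq_bot'.2 fun v hv => h v (by
      have := HasFDerivAt.comp_hasDerivAt_of_eq (0 : ℝ) h1.hasFDerivAt
        ((hasDerivAt_id (0 : ℝ)).smul_const v) (by simp)
      rwa [one_smul, show fderiv ℝ g 0 v = 0 from hv] at this))
  have hc' : (0 : ℝ) < c := hc
  obtain ⟨U, hU, h3⟩ := mem_prod_self_iff.1 (nhds_prod_eq (x := (0 : X)) (y := (0 : X)) ▸
    h1.isLittleO.bound (c := 1 / (2 * c)) (by positivity))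
  refine ⟨2 * c, U, hU, fun z hz z' hz' => ?_⟩
  have h4 := h3 (Set.mk_mem_prod hz' hz)
  have h5 := h2.le_mul_dist z' z
  simp only [dist_eq_norm, Set.mem_setOf_eq, ← map_sub, ContinuousLinearMap.coe_coe] at h4 h5 ⊢
  have h6 := norm_sub_norm_le (fderiv ℝ g 0 (z' - z)) (g z' - g z)
  rw [norm_sub_rev (fderiv ℝ g 0 _)] at h6
  have h7 := mul_le_mul_of_nonneg_left (h6.trans h4) hc'.le
  rw [← mul_assoc, show (c : ℝ) * (1 / (2 * c)) = 1 / 2 by field_simp] at h7
  push_cast
  linarith

theorem map_nhds_of_surj {X Y : Type} [NormedAddCommGroup X] [NormedSpace ℝ X]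
    [FiniteDimensional ℝ X] [NormedAddCommGroup Y] [NormedSpace ℝ Y] [FiniteDimensional ℝ Y]
    {g : X → Y} (hg : ContDiff ℝ 1 g) (h : ∀ y, ∃ v, HasDerivAt (fun t : ℝ => g (t • v)) y 0) :
    map g (𝓝 0) = 𝓝 (g 0) := by
  have := FiniteDimensional.complete ℝ X
  have := FiniteDimensional.complete ℝ Y
  have h1 := hg.contDiffAt.hasStrictFDerivAt (x := 0) one_ne_zero
  refine h1.map_nhds_eq_of_surj (LinearMap.range_eq_top.2 fun y => (h y).imp fun v hv => ?_)
  simpa using (HasFDerivAt.comp_hasDerivAt_of_eq (0 : ℝ) h1.hasFDerivAt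
    ((hasDerivAt_id (0 : ℝ)).smul_const v) (by simp)).unique hv

end Pool.Agent.Lib.MP_d52947_gt
end
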