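import Pool.Agent.Lib.MP_d52947_gt.An
import Pool.Agent.Lib.MP_d52947_gt.ModelA
import Pool.Agent.Lib.MP_d52947_gt.OneA

-- part Pool.Agent.Lib.MP_d52947_gt.CalcA
section

/-! Analytic inverse and implicit functions, zero sets of analytic functions. -/

namespace Pool.Agent.Lib.MP_d52947_gt

open Filter Topology MeasureTheory Module
open scoped RealInnerProductSpace

theorem CA.inv {V W : Type} [NormedAddCommGroup V] [NormedSpace ℝ V] [FiniteDimensional ℝ V]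
    [NormedAddCommGroup W] [NormedSpace ℝ W] [FiniteDimensional ℝ W] {f : V → W} {a : V}
    (hf : AnalyticAt ℝ f a) {D : V →L[ℝ] W} (hD : HasFDerivAt f D a)
    (h1 : ∀ v, D v = 0 → v = 0) (h2 : Function.Surjective D) :
    ∃ g : W → V, AnalyticAt ℝ g (f a) ∧ g (f a) = a ∧ (∀ᶠ x in 𝓝 a, g (f x) = x) ∧
      (∀ᶠ y in 𝓝 (f a), f (g y) = y) ∧ (∀ v, fderiv ℝ g (f a) (D v) = v) ∧
      finrank ℝ V = finrank ℝ W := by
  let e : V ≃L[ℝ] W := (LinearEquiv.ofBijective (D : V →ₗ[ℝ] W)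
    ⟨(injective_iff_map_eq_zero _).2 h1, h2⟩).toContinuousLinearEquiv
  have hD' : HasFDerivAt f (e : V →L[ℝ] W) a := hD
  have hc : ContDiffAt ℝ ⊤ f a := hf.contDiffAt
  have hs := hc.hasStrictFDerivAt' hD' (by simp)
  refine ⟨hc.localInverse hD' (by simp), (hc.to_localInverse hD' (by simp)).analyticAt,
    hs.localInverse_apply_image, hs.eventually_left_inverse, hs.eventually_right_inverse,
    fun v => ?_, e.toLinearEquiv.finrank_eq⟩
  have := hs.to_localInverse.hasFDerivAt.fderiv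
  exact (congrArg (fun L : W →L[ℝ] V => L (D v)) this).trans (e.symm_apply_apply v)

theorem ift {V W₁ W₂ : Type} [NormedAddCommGroup V] [InnerProductSpace ℝ V] [FiniteDimensional ℝ V]
    [NormedAddCommGroup W₁] [NormedSpace ℝ W₁] [FiniteDimensional ℝ W₁]
    [NormedAddCommGroup W₂] [NormedSpace ℝ W₂] [FiniteDimensional ℝ W₂] {F : V → W₁} {H : V → W₂}
    (hF : AnalyticAt ℝ F 0) (hH : AnalyticAt ℝ H 0) (F0 : F 0 = 0) (H0 : H 0 = 0)
    (hs : ∀ a b, ∃ v, fderiv ℝ F 0 v = a ∧ fderiv ℝ H 0 v = b) (T : Submodule ℝ V)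
    (hT : ∀ v, v ∈ T ↔ fderiv ℝ F 0 v = 0) :
    ∃ (κ : T → V) (ρ : V → T), AnalyticAt ℝ κ 0 ∧ AnalyticAt ℝ ρ 0 ∧ κ 0 = 0 ∧ ρ 0 = 0 ∧
      fderiv ℝ κ 0 = T.subtypeL ∧ (∀ᶠ w in 𝓝 0, F (κ w) = 0 ∧ ρ (κ w) = w) ∧
      (∀ᶠ v in 𝓝 0, F v = 0 → κ (ρ v) = v) ∧
      ∀ v, fderiv ℝ H 0 (ρ v) = H v ∧ ∀ z ∈ T, fderiv ℝ H 0 z = 0 → ⟪(ρ v : V) - v, z⟫ = 0 := by
  set DH := fderiv ℝ H 0 with hDH
  let T0 : Submodule ℝ V := T ⊓ LinearMap.ker (DH : V →ₗ[ℝ] W₂)
  let Q : V →L[ℝ] T := T0.starProjection.codRestrict T fun v => (T0.starProjection_apply_mem v).1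
  have hQ : ∀ v, DH (Q v) = 0 := fun v => (T0.starProjection_apply_mem v).2
  have hQ' : ∀ v, ∀ z ∈ T0, ⟪v - Q v, z⟫ = 0 := fun v z hz =>
    Submodule.inner_left_of_mem_orthogonal hz (T0.sub_starProjection_mem_orthogonal v)
  obtain ⟨s, hs'⟩ := LinearMap.exists_rightInverse_of_surjective
    ((DH : V →ₗ[ℝ] W₂) ∘ₗ T.subtype) (LinearMap.range_eq_top.2 fun b => by
      obtain ⟨v, h1, h2⟩ := hs 0 b
      exact ⟨⟨v, (hT v).2 h1⟩, h2⟩)
  let s' : W₂ →L[ℝ] T := LinearMap.toContinuousLinearMap s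
  let σ : W₂ →L[ℝ] T := s' - Q ∘L T.subtypeL ∘L s'
  have hσ : ∀ b, DH (σ b) = b := fun b => by
    have h1 : DH (s b) = b := congrArg (· b) hs'
    have h2 : ((σ b : T) : V) = s b - Q (s b) := rfl
    rw [h2, map_sub, h1, hQ, sub_zero]
  have hσ' : ∀ b, ∀ z ∈ T0, ⟪((σ b : T) : V), z⟫ = 0 := fun b z hz => hQ' (s b) z hz
  have key : ∀ (v : V) (b : W₂), ∀ z ∈ T0, ⟪((Q v + σ b : T) : V) - v, z⟫ = 0 := fun v b z hz => by
    have : ((Q v + σ b : T) : V) - v = σ b - (v - Q v) := by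
      rw [Submodule.coe_add]; abel
    rw [this, inner_sub_left, hσ' b z hz, hQ' v z hz, sub_zero]
  let ρ : V → T := fun v => Q v + σ (H v)
  have hρ : AnalyticAt ℝ ρ 0 := (Q.analyticAt _).add ((σ.analyticAt _).comp hH)
  have ρ0 : ρ 0 = 0 := by simp [ρ, H0]
  let Dρ : V →L[ℝ] T := Q + σ ∘L DH
  have hDρ : HasFDerivAt ρ Dρ 0 :=
    Q.hasFDerivAt.add (σ.hasFDerivAt.comp 0 hH.differentiableAt.hasFDerivAt)
  have hid : ∀ w : T, Dρ w = w := fun w => by
    have h1 : ((Dρ w : T) : V) - w ∈ T0 := by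
      refine ⟨T.sub_mem (Dρ w).2 w.2, ?_⟩
      change DH (((Q w + σ (DH w) : T) : V) - w) = 0
      rw [Submodule.coe_add, map_sub, map_add, hQ, hσ, zero_add, sub_self]
    exact Subtype.ext (sub_eq_zero.1 (inner_self_eq_zero.1 (key w (DH w) _ h1)))
  obtain ⟨g, g1, g2, g3, g4, g5, -⟩ := CA.inv (hF.prod hρ)
    (hF.differentiableAt.hasFDerivAt.prodMk hDρ)
    (fun v hv => by
      have h1 : v ∈ T := (hT v).2 (congrArg Prod.fst hv)
      exact congrArg Subtype.val ((hid ⟨v, h1⟩).symm.trans (congrArg Prod.snd hv)))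
    (fun p => by
      obtain ⟨v, h1, -⟩ := hs p.1 0
      refine ⟨v + (p.2 - Dρ v : T), Prod.ext ?_ ?_⟩
      · change fderiv ℝ F 0 _ = _
        rw [map_add, h1, (hT _).1 (p.2 - Dρ v).2, add_zero]
      · change Dρ _ = _
        rw [map_add, hid, add_sub_cancel])
  simp only [F0, ρ0] at g1 g2 g4 g5
  have hi : HasFDerivAt (fun w : T => ((0, w) : W₁ × T)) (ContinuousLinearMap.inr ℝ W₁ T) 0 :=
    hasFDerivAt_prodMk_right 0 0
  refine ⟨fun w => g (0, w), ρ, AnalyticAt.comp (f := fun w : T => ((0, w) : W₁ × T)) g1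
    (analyticAt_const.prod analyticAt_id), hρ, g2, ρ0, ?_, ?_, ?_, fun v => ⟨?_, fun z hz hz' =>
      key v (H v) z ⟨hz, hz'⟩⟩⟩
  · refine (HasFDerivAt.comp (f := fun w : T => ((0, w) : W₁ × T)) 0
      g1.differentiableAt.hasFDerivAt hi).fderiv.trans ?_
    ext1 w
    refine Eq.trans (congrArg (fderiv ℝ g (0, 0)) (Prod.ext ?_ ?_)) (g5 w)
    · exact ((hT _).1 w.2).symm
    · exact (hid w).symm
  · filter_upwards [hi.continuousAt.eventually g4] with w hw
    exact ⟨congrArg Prod.fst hw, congrArg Prod.snd hw⟩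
  · filter_upwards [g3] with v hv h0
    rwa [h0] at hv
  · change DH (((Q v + σ (H v) : T) : V)) = _
    rw [Submodule.coe_add, map_add, hQ, hσ, zero_add]

theorem CA.proj {V : Type} [NormedAddCommGroup V] [NormedSpace ℝ V] [FiniteDimensional ℝ V]
    (N : Submodule ℝ V) : ∃ p : V →L[ℝ] N, ∀ n : N, p n = n := by
  obtain ⟨p, hp⟩ := N.subtype.exists_leftInverse_of_injective N.ker_subtype
  exact ⟨LinearMap.toContinuousLinearMap p, fun n => congrArg (· n) hp⟩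

/-- straightening of a map with surjective derivative -/
theorem CA.straight {V E : Type} [NormedAddCommGroup V] [NormedSpace ℝ V] [FiniteDimensional ℝ V]
    [NormedAddCommGroup E] [NormedSpace ℝ E] [FiniteDimensional ℝ E] {y : V → E} {a : V}
    (hy : AnalyticAt ℝ y a) {D : V →L[ℝ] E} (hD : HasFDerivAt y D a)
    (hs : Function.Surjective D) (N : Submodule ℝ V) (hN : ∀ v, v ∈ N ↔ D v = 0) :
    ∃ (p : V →L[ℝ] N) (g : E × N → V), AnalyticAt ℝ g (y a, p a) ∧ g (y a, p a) = a ∧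
      (∀ᶠ x in 𝓝 a, g (y x, p x) = x) ∧ (∀ᶠ z in 𝓝 (y a, p a), (y (g z), p (g z)) = z) ∧
      (∀ n : N, fderiv ℝ g (y a, p a) (0, n) = n) ∧ finrank ℝ V = finrank ℝ (E × N) := by
  obtain ⟨p, hp⟩ := CA.proj N
  obtain ⟨g, g1, g2, g3, g4, g5, g6⟩ := CA.inv (hy.prod (p.analyticAt a))
    (hD.prodMk p.hasFDerivAt)
    (fun v hv => by
      have h1 : v ∈ N := (hN v).2 (congrArg Prod.fst hv)
      exact congrArg Subtype.val ((hp ⟨v, h1⟩).symm.trans (congrArg Prod.snd hv)))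
    (fun q => by
      obtain ⟨v, h1⟩ := hs q.1
      refine ⟨v + (q.2 - p v : N), Prod.ext ?_ ?_⟩
      · change D _ = _
        rw [map_add, h1, (hN _).1 (q.2 - p v).2, add_zero]
      · change p _ = _
        rw [map_add, hp, add_sub_cancel])
  refine ⟨p, g, g1, g2, g3, g4, fun n => ?_, g6⟩
  refine Eq.trans (congrArg (fderiv ℝ g (y a, p a)) (Prod.ext ?_ ?_)) (g5 n)
  · exact ((hN _).1 n.2).symm
  · exact (hp n).symm

theorem sat {V E : Type} [NormedAddCommGroup V] [NormedSpace ℝ V] [FiniteDimensional ℝ V]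
    [NormedAddCommGroup E] [NormedSpace ℝ E] [FiniteDimensional ℝ E] {y : V → E}
    (hy : AnalyticAt ℝ y 0) (ν : E →L[ℝ] ℝ)
    (h0 : ∀ e, ν e = 0 ↔ ∃ v, fderiv ℝ y 0 v = e)
    (h1 : ∀ᶠ w in 𝓝 0, ¬ Function.Surjective (fderiv ℝ y w)) (N : Submodule ℝ V)
    (hN : ∀ v, v ∈ N ↔ fderiv ℝ y 0 v = 0) :
    ∃ ζ : N → V, AnalyticAt ℝ ζ 0 ∧ ζ 0 = 0 ∧ fderiv ℝ ζ 0 = N.subtypeL ∧
      ∀ᶠ n in 𝓝 0, y (ζ n) = y 0 ∧ ∀ u, ν (fderiv ℝ y (ζ n) u) = 0 := by
  obtain ⟨e0, he0⟩ : ∃ e0, ν e0 = 1 := by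
    by_contra hc
    refine h1.self_of_nhds fun e => (h0 e).1 ?_
    by_contra h
    exact hc ⟨(ν e)⁻¹ • e, by rw [map_smul, smul_eq_mul, inv_mul_cancel₀ h]⟩
  let R : Submodule ℝ E := LinearMap.ker (ν : E →ₗ[ℝ] ℝ)
  let π : E →L[ℝ] R := (ContinuousLinearMap.id ℝ E - ν.smulRight e0).codRestrict R fun e => by
    change ν (e - ν e • e0) = 0
    rw [map_sub, map_smul, he0, smul_eq_mul, mul_one, sub_self]
  have hπ : ∀ e, (π e : E) = e - ν e • e0 := fun e => rfl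
  have hν : ∀ v, ν (fderiv ℝ y 0 v) = 0 := fun v => (h0 _).2 ⟨v, rfl⟩
  have hπD : ∀ v, (π (fderiv ℝ y 0 v) : E) = fderiv ℝ y 0 v := fun v => by
    rw [hπ, hν, zero_smul, sub_zero]
  obtain ⟨p, g, g1, g2, g3, g4, g5, -⟩ := CA.straight (y := fun w => π (y w - y 0)) (a := 0)
    ((π.analyticAt _).comp (hy.sub analyticAt_const)) (D := π ∘L fderiv ℝ y 0)
    (π.hasFDerivAt.comp 0 (hy.differentiableAt.hasFDerivAt.sub_const _))
    (fun r => by
      obtain ⟨v, hv⟩ := (h0 r).1 r.2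
      exact ⟨v, Subtype.ext ((hπD v).trans hv)⟩) N
    (fun v => (hN v).trans ⟨fun h => Subtype.ext ((hπD v).trans h),
      fun h => (hπD v).symm.trans (congrArg Subtype.val h)⟩)
  simp only [sub_self, map_zero] at g1 g2 g4 g5
  have hg : Tendsto g (𝓝 (0, 0)) (𝓝 0) := by simpa only [ContinuousAt, g2] using g1.continuousAt
  let γ : R × N → ℝ := fun z => ν (y (g z) - y 0)
  have hyg : AnalyticAt ℝ (fun z => y (g z)) (0, 0) := (g2.symm ▸ hy).comp g1
  have hγ : AnalyticAt ℝ γ (0, 0) := (ν.analyticAt _).comp (hyg.sub analyticAt_const)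
  have hY : ∀ᶠ z in 𝓝 ((0, 0) : R × N), y (g z) = y 0 + (z.1 + γ z • e0) := by
    filter_upwards [g4] with z hz
    have := (hπ _).symm.trans (congrArg (fun q : R × N => (q.1 : E)) hz)
    rw [← this]
    simp only [γ]
    abel
  have h2 : ∀ᶠ z in 𝓝 ((0, 0) : R × N),
      DifferentiableAt ℝ γ z ∧ ∀ b, fderiv ℝ γ z (0, b) = 0 := by
    filter_upwards [hY.eventually_nhds, hγ.eventually_analyticAt, g1.eventually_analyticAt,
      hg.eventually hy.eventually_analyticAt, hg.eventually h1] with z a1 a2 a3 a4 a5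
    refine ⟨a2.differentiableAt, fun b => ?_⟩
    by_contra hb
    refine a5 fun e => ?_
    have b1 := (a4.differentiableAt.hasFDerivAt.comp z a3.differentiableAt.hasFDerivAt).unique
      ((((R.subtypeL ∘L ContinuousLinearMap.fst ℝ R N).hasFDerivAt.add
        (a2.differentiableAt.hasFDerivAt.smul_const e0)).const_add (y 0)).congr_of_eventuallyEq a1)
    have b2 : ∀ q : R × N, fderiv ℝ y (g z) (fderiv ℝ g z q) = q.1 + fderiv ℝ γ z q • e0 :=
      fun q => congrArg (· q) b1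
    refine ⟨fderiv ℝ g z ((π e, 0) + ((ν e - fderiv ℝ γ z (π e, 0)) / fderiv ℝ γ z (0, b)) •
      (0, b)), ?_⟩
    rw [b2, map_add, map_smul, smul_eq_mul, div_mul_cancel₀ _ hb, add_sub_cancel]
    simp [hπ]
  obtain ⟨r, hr, hb⟩ := Metric.eventually_nhds_iff_ball.1 h2
  have h3 : ∀ᶠ z in 𝓝 ((0, 0) : R × N), γ z = γ (z.1, 0) := by
    filter_upwards [Metric.ball_mem_nhds _ hr] with z hz
    rw [← ball_prod_same] at hz
    have hm : ∀ n ∈ Metric.ball (0 : N) r, (z.1, n) ∈ Metric.ball ((0, 0) : R × N) r :=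
      fun n hn => by rw [← ball_prod_same]; exact ⟨hz.1, hn⟩
    have hd : ∀ n ∈ Metric.ball (0 : N) r, HasFDerivAt (fun n => γ (z.1, n))
        (fderiv ℝ γ (z.1, n) ∘L ContinuousLinearMap.inr ℝ R N) n := fun n hn =>
      HasFDerivAt.comp (f := fun n : N => (z.1, n)) n (hb _ (hm n hn)).1.hasFDerivAt
        (hasFDerivAt_prodMk_right _ _)
    exact Metric.isOpen_ball.is_const_of_fderiv_eq_zero (𝕜 := ℝ) (f := fun n => γ (z.1, n))
      (convex_ball _ _).isPreconnected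
      (fun n hn => (hd n hn).differentiableAt.differentiableWithinAt)
      (fun n hn => by
        rw [(hd n hn).fderiv]
        ext1 b
        exact (hb _ (hm n hn)).2 b) hz.2 (Metric.mem_ball_self hr)
  have hγ0 : HasFDerivAt γ (0 : R × N →L[ℝ] ℝ) (0, 0) := by
    have b1 : HasFDerivAt y (fderiv ℝ y 0) (g (0, 0)) := by
      rw [g2]; exact hy.differentiableAt.hasFDerivAt
    have b2 := ν.hasFDerivAt.comp (0, 0)
      ((b1.comp (0, 0) g1.differentiableAt.hasFDerivAt).sub_const (y 0))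
    exact b2.congr_fderiv (ContinuousLinearMap.ext fun q => hν _)
  have hi : HasFDerivAt (fun n : N => ((0, n) : R × N)) (ContinuousLinearMap.inr ℝ R N) 0 :=
    hasFDerivAt_prodMk_right 0 0
  have hi' : Tendsto (fun n : N => ((0, n) : R × N)) (𝓝 0) (𝓝 (0, 0)) := hi.continuousAt
  refine ⟨fun n => g (0, n), AnalyticAt.comp (f := fun n : N => ((0, n) : R × N)) g1
    (analyticAt_const.prod analyticAt_id), g2, ?_, ?_⟩
  · refine (HasFDerivAt.comp (f := fun n : N => ((0, n) : R × N)) 0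
      g1.differentiableAt.hasFDerivAt hi).fderiv.trans ?_
    ext1 n
    exact g5 n
  · filter_upwards [hi'.eventually hY, hi'.eventually h3.eventually_nhds, hi'.eventually g4,
      (hg.comp hi').eventually g3.eventually_nhds,
      (hg.comp hi').eventually hy.eventually_analyticAt] with n a1 a2 a3 a4 a5
    have b0 : γ (0, n) = 0 := by
      rw [a2.self_of_nhds]
      simp [γ, g2]
    refine ⟨by simpa [b0] using a1, fun u => ?_⟩
    have b1 : HasFDerivAt γ (0 : R × N →L[ℝ] ℝ) (0, n) := by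
      have b2 : HasFDerivAt (fun z : R × N => ((z.1, 0) : R × N))
        ((ContinuousLinearMap.fst ℝ R N).prod 0) (0, n) :=
        hasFDerivAt_fst.prodMk (hasFDerivAt_const _ _)
      have b3 := HasFDerivAt.comp (f := fun z : R × N => ((z.1, 0) : R × N)) (0, n) hγ0 b2
      rw [ContinuousLinearMap.zero_comp] at b3
      exact b3.congr_of_eventuallyEq a2
    have a5 : AnalyticAt ℝ y (g (0, n)) := a5
    have b4 : HasFDerivAt (fun w => (π (y w - y 0), p w)) _ (g (0, n)) :=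
      (π.hasFDerivAt.comp _ (a5.differentiableAt.hasFDerivAt.sub_const _)).prodMk p.hasFDerivAt
    have b5 := HasFDerivAt.comp (g (0, n)) (a3.symm ▸ b1) b4
    rw [ContinuousLinearMap.zero_comp] at b5
    have b6 := (ν.hasFDerivAt.comp _ (a5.differentiableAt.hasFDerivAt.sub_const (y 0))).unique
      (b5.congr_of_eventuallyEq (a4.mono fun w hw => by
        simp only [γ, Function.comp_apply, hw]))
    exact congrArg (· u) b6

section
variable {V : Type} [NormedAddCommGroup V] [NormedSpace ℝ V] [FiniteDimensional ℝ V]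
  [MeasurableSpace V] [BorelSpace V] (μ : Measure V) [μ.IsAddHaarMeasure]

omit [MeasurableSpace V] [BorelSpace V] in
/-- an entire analytic map whose range is a small neighbourhood -/
theorem CA.box {O : Set V} {x : V} (hO : O ∈ 𝓝 x) :
    ∃ ψ : V → V, AnalyticOnNhd ℝ ψ Set.univ ∧ Set.range ψ ⊆ O ∧ Set.range ψ ∈ 𝓝 x := by
  let e := (Module.finBasis ℝ V).equivFun.symm.toContinuousLinearEquiv
  let h := e.toHomeomorph.trans (Homeomorph.addLeft x)
  have h0 : h 0 = x := by simp [h]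
  obtain ⟨r, hr, hb⟩ := Metric.nhds_basis_closedBall.mem_iff.1
    (h.continuous.continuousAt.preimage_mem_nhds (x := 0) (h0.symm ▸ hO))
  refine ⟨fun v => h fun i => r * Real.sin (e.symm v i), fun v _ => ?_, ?_, ?_⟩
  · refine analyticAt_const.add ((e.analyticAt _).comp (analyticAt_pi_iff.2 fun i => ?_))
    exact analyticAt_const.mul (Real.analyticAt_sin.comp (((ContinuousLinearMap.proj
      (R := ℝ) (φ := fun _ => ℝ) i).analyticAt _).comp (e.symm.analyticAt v)))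
  · rintro _ ⟨v, rfl⟩
    refine hb (mem_closedBall_zero_iff.2 ((pi_norm_le_iff_of_nonneg hr.le).2 fun i => ?_))
    rw [Real.norm_eq_abs, abs_mul, abs_of_pos hr]
    exact mul_le_of_le_one_right hr.le (Real.abs_sin_le_one _)
  · refine mem_of_superset (h0 ▸ h.isOpenMap.image_mem_nhds (Metric.closedBall_mem_nhds 0 hr)) ?_
    rintro _ ⟨u, hu, rfl⟩
    refine ⟨e fun i => Real.arcsin (u i / r), congrArg h (funext fun i => ?_)⟩
    have := abs_le.1 ((pi_norm_le_iff_of_nonneg hr.le).1 (mem_closedBall_zero_iff.1 hu) i)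
    rw [e.symm_apply_apply, Real.sin_arcsin (by rw [le_div_iff₀ hr]; linarith)
      (by rw [div_le_iff₀ hr]; linarith), mul_div_cancel₀ _ hr.ne']

theorem ae_ne_zero_on {O : Set V} (hO : IsOpen O) (hO' : IsPreconnected O) {f : V → ℝ}
    (hf : AnalyticOnNhd ℝ f O) {x₀ : V} (hx : x₀ ∈ O) (h0 : f x₀ ≠ 0) :
    ∀ᵐ x ∂μ, x ∈ O → f x ≠ 0 := by
  refine measure_null_of_locally_null _ fun x hx' => ?_
  have hxO : x ∈ O := by
    by_contra h
    exact hx' fun h' => absurd h' h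
  obtain ⟨ψ, h1, h2, h3⟩ := CA.box (hO.mem_nhds hxO)
  obtain ⟨v, hv⟩ : ∃ v, f (ψ v) ≠ 0 := by
    by_contra hc
    refine h0 (hf.eqOn_zero_of_preconnected_of_eventuallyEq_zero hO' hxO ?_ hx)
    filter_upwards [h3] with _ ⟨v, hv⟩
    by_contra h
    exact hc ⟨v, hv ▸ h⟩
  have h4 := ae_ne_zero μ (f := fun v => f (ψ v))
    (fun v _ => (hf _ (h2 ⟨v, rfl⟩)).comp (h1 v trivial)) hv
  refine ⟨_, inter_mem_nhdsWithin _ h3, measure_mono_null ?_
    (addHaar_image_eq_zero_of_differentiableOn_of_addHaar_eq_zero μ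
      (h1.differentiableOn.mono (Set.subset_univ _)) (ae_iff.1 h4))⟩
  rintro _ ⟨h5, v, rfl⟩
  exact ⟨v, fun h => h5 fun _ => h, rfl⟩

theorem ae_rank_on {O : Set V} (hO : IsOpen O) (hO' : IsPreconnected O) {H ι : Type}
    [AddCommGroup H] [Module ℝ H] [FiniteDimensional ℝ H] (φ : ι → V → H →ₗ[ℝ] ℝ)
    (hφ : ∀ n v, AnalyticOnNhd ℝ (fun h => φ n h v) O) :
    ∀ᵐ h ∂μ, h ∈ O → ∀ h₀ ∈ O, finrank ℝ (⨅ n, LinearMap.ker (φ n h) : Submodule ℝ H) ≤
      finrank ℝ (⨅ n, LinearMap.ker (φ n h₀) : Submodule ℝ H) := by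
  rcases O.eq_empty_or_nonempty with rfl | hne
  · exact Eventually.of_forall fun _ h => h.elim
  obtain ⟨h₁, hh₁, hmin⟩ := (measure fun h =>
    finrank ℝ (⨅ n, LinearMap.ker (φ n h) : Submodule ℝ H)).wf.has_min O hne
  obtain ⟨κ, _, _, a, v, h1, h2⟩ := exists_det φ h₁
  refine (ae_ne_zero_on μ hO hO' (f := fun h => (Matrix.of fun i j => φ (a i) h (v j)).det) ?_
    hh₁ h1).mono fun h hh hO h₀ hh₀ => (h2 h (hh hO)).trans (not_lt.1 (hmin h₀ hh₀))
  simp only [Matrix.det_apply']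
  exact Finset.univ.analyticOnNhd_fun_sum fun σ _ => analyticOnNhd_const.mul
    (Finset.univ.analyticOnNhd_fun_prod fun i _ => hφ _ _)

theorem CA.ae_surj {E : Type} [NormedAddCommGroup E] [NormedSpace ℝ E] [FiniteDimensional ℝ E]
    {O : Set V} (hO : IsOpen O) (hO' : IsPreconnected O) {y : V → E} (hy : AnalyticOnNhd ℝ y O)
    {w₀ : V} (hw : w₀ ∈ O) (hs : Function.Surjective (fderiv ℝ y w₀)) :
    ∀ᵐ w ∂μ, w ∈ O → Function.Surjective (fderiv ℝ y w) := by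
  have key : ∀ w, finrank ℝ (⨅ v, LinearMap.ker (Dual.eval ℝ E (fderiv ℝ y w v)) :
      Submodule ℝ (Dual ℝ E)) = 0 ↔ Function.Surjective (fderiv ℝ y w) := fun w => by
    have h1 : (⨅ v, LinearMap.ker (Dual.eval ℝ E (fderiv ℝ y w v)) : Submodule ℝ (Dual ℝ E)) =
        (LinearMap.range (fderiv ℝ y w : V →ₗ[ℝ] E)).dualAnnihilator := by
      ext l
      simp [Submodule.mem_iInf, Submodule.mem_dualAnnihilator]
    rw [h1, Submodule.finrank_eq_zero, Submodule.dualAnnihilator_eq_bot_iff,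
      LinearMap.range_eq_top]
    rfl
  filter_upwards [ae_rank_on μ hO hO' (fun v w => Dual.eval ℝ E (fderiv ℝ y w v)) fun v l w hw =>
    ((LinearMap.toContinuousLinearMap l).analyticAt _).comp
      (((ContinuousLinearMap.apply ℝ E v).analyticAt _).comp (hy.fderiv w hw))] with w h hw'
  exact (key w).1 (Nat.le_zero.1 ((h hw' w₀ hw).trans ((key w₀).2 hs).le))

theorem sub_null {E : Type} [NormedAddCommGroup E] [NormedSpace ℝ E] [FiniteDimensional ℝ E]
    [MeasurableSpace E] [BorelSpace E] (ν : Measure E) [ν.IsAddHaarMeasure] {O : Set V}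
    (hO : IsOpen O) (hO' : IsPreconnected O) {y : V → E} (hy : AnalyticOnNhd ℝ y O) {w₀ : V}
    (hw : w₀ ∈ O) (hs : Function.Surjective (fderiv ℝ y w₀)) {P : E → Prop} (hP : ∀ᵐ e ∂ν, P e) :
    ∀ᵐ w ∂μ, w ∈ O → P (y w) := by
  have h1 : μ {w | w ∈ O ∧ Function.Surjective (fderiv ℝ y w) ∧ ¬ P (y w)} = 0 := by
    refine measure_null_of_locally_null _ fun w ⟨hwO, hws, _⟩ => ?_
    let N : Submodule ℝ V := LinearMap.ker (fderiv ℝ y w : V →ₗ[ℝ] E)
    obtain ⟨p, g, g1, -, g3, -, -, g6⟩ := CA.straight (hy w hwO)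
      (hy w hwO).differentiableAt.hasFDerivAt hws N fun _ => Iff.rfl
    have hc : Tendsto (fun x => (y x, p x)) (𝓝 w) (𝓝 (y w, p w)) :=
      (hy w hwO).continuousAt.prodMk p.continuous.continuousAt
    have h2 : μ (g '' {z | AnalyticAt ℝ g z ∧ ¬ P z.1}) = 0 := by
      rw [← haus_null_iff, g6]
      refine null_image (fun z hz => hz.1.contDiffAt) ?_
      rw [haus_null_iff (ν.prod Measure.addHaar)]
      refine measure_mono_null (t := {e | ¬ P e} ×ˢ Set.univ) (fun z hz => ⟨hz.2, trivial⟩) ?_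
      rw [Measure.prod_prod, ae_iff.1 hP, zero_mul]
    refine ⟨_, inter_mem_nhdsWithin _ (g3.and (hc.eventually g1.eventually_analyticAt)),
      measure_mono_null ?_ h2⟩
    rintro x ⟨h3, h4, h5⟩
    exact ⟨_, ⟨h5, h3.2.2⟩, h4⟩
  filter_upwards [CA.ae_surj μ hO hO' hy hw hs, compl_mem_ae_iff.2 h1] with w h2 h3 hwO
  by_contra h
  exact h3 ⟨hwO, h2 hwO, h⟩

end

end Pool.Agent.Lib.MP_d52947_gt
end

-- part Pool.Agent.Lib.MP_d52947_gt.KronA
section

/-! Measure theoretic lemmas for the twist flow. -/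

namespace Pool.Agent.Lib.MP_d52947_gt

open Filter Topology MeasureTheory Module

namespace Kron

variable {E : Type} [NormedAddCommGroup E] [NormedSpace ℝ E] [FiniteDimensional ℝ E]
  [MeasurableSpace E] [BorelSpace E] (μ : Measure E) [μ.IsAddHaarMeasure]

theorem porous_null {S O : Set E} (hO : MeasurableSet O) (hS : S ⊆ O) (c : ℝ)
    (h : ∀ x ∈ O, ∃ (w : ℕ → E) (δ : ℕ → ℝ), Tendsto δ atTop (𝓝[>] 0) ∧
      ∀ᶠ n in atTop, x ∈ Metric.closedBall (w n) (c * δ n) ∧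
        S ∩ Metric.closedBall (w n) (δ n) = ∅) : μ S = 0 := by
  rw [← Measure.restrict_eq_zero, ← ae_eq_bot, ← eventually_false_iff_eq_bot]
  filter_upwards [IsUnifLocDoublingMeasure.ae_tendsto_measure_inter_div.{0, 0} μ S c,
    ae_restrict_of_ae_restrict_of_subset hS (ae_restrict_mem hO)] with x h1 h2
  obtain ⟨w, δ, h3, h4⟩ := h x h2
  have h5 := (h1 w δ h3 (h4.mono fun _ h => h.1)).congr' (f₂ := fun _ => 0)
    (h4.mono fun n hn => by simp [hn.2])
  exact one_ne_zero (tendsto_nhds_unique h5 tendsto_const_nhds)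

theorem ae_freq_q {G : E → ℝ} (hG : Measurable G) {η : ℕ → E} (hη : Tendsto η atTop (𝓝 0)) :
    ∀ᵐ ξ ∂μ, ∀ q : ℚ, G ξ ≤ q → ∃ n, G (ξ + η n) ≤ q := by
  have h := fun (q : ℚ) (M : ℕ) => ae_freq_mem μ (S := {ξ | G ξ ≤ q} ∩ Metric.closedBall 0 M)
    ((measurableSet_le hG measurable_const).inter Metric.isClosed_closedBall.measurableSet)
    (((measure_mono Set.inter_subset_right).trans_lt
      (isCompact_closedBall _ _).measure_lt_top).ne) hη
  filter_upwards [ae_all_iff.2 fun q => ae_all_iff.2 (h q)] with ξ hξ q hq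
  obtain ⟨M, hM⟩ := exists_nat_ge ‖ξ‖
  exact (hξ q M ⟨hq, by simpa using hM⟩).exists.imp fun n hn => hn.1

theorem shift_le {G : E → ℝ} (hG : Measurable G) {d : ℕ → E} {e : E} (hd : Tendsto d atTop (𝓝 e))
    (h : ∀ n, ∀ᵐ ξ ∂μ, G (ξ + d n) = G ξ) : ∀ᵐ ξ ∂μ, G ξ ≤ G (ξ + e) := by
  filter_upwards [ae_shift μ (ae_freq_q μ hG (η := fun n => d n - e)
    (by simpa using hd.sub_const e)) e, ae_all_iff.2 h] with ξ h1 h2
  refine not_lt.1 fun h3 => ?_
  obtain ⟨q, h4, h5⟩ := exists_rat_btwn h3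
  obtain ⟨n, hn⟩ := h1 q h4.le
  rw [show ξ + e + (d n - e) = ξ + d n by abel, h2] at hn
  exact h5.not_ge hn

theorem shift_eq {G : E → ℝ} (hG : Measurable G) {d : ℕ → E} {e : E} (hd : Tendsto d atTop (𝓝 e))
    (h : ∀ n, ∀ᵐ ξ ∂μ, G (ξ + d n) = G ξ) : ∀ᵐ ξ ∂μ, G (ξ + e) = G ξ := by
  filter_upwards [shift_le μ hG hd h, shift_le μ hG.neg hd fun n => (h n).mono fun ξ hξ =>
    congrArg Neg.neg hξ] with ξ h1 h2
  exact le_antisymm (neg_le_neg_iff.1 h2) h1

theorem pull_an {A : Type} [NormedAddCommGroup A] [NormedSpace ℝ A] [FiniteDimensional ℝ A]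
    [MeasurableSpace A] [BorelSpace A] {F : E → A} (hF : AnalyticOnNhd ℝ F Set.univ) {x₀ : E}
    (h0 : ∀ v, fderiv ℝ F x₀ v = 0 → v = 0) {N : Set A} (hN : μH[(finrank ℝ E : ℕ)] N = 0) :
    ∀ᵐ x ∂μ, F x ∉ N := by
  have hc : ContDiff ℝ 1 F := contDiffOn_univ.1 hF.contDiffOn_of_completeSpace
  have h1 : ∀ x, ⨅ l : A →L[ℝ] ℝ, LinearMap.ker ((l ∘L fderiv ℝ F x : E →L[ℝ] ℝ) : E →ₗ[ℝ] ℝ) =
      LinearMap.ker (fderiv ℝ F x : E →ₗ[ℝ] A) := fun x => by
    ext v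
    simp only [Submodule.mem_iInf, LinearMap.mem_ker, ContinuousLinearMap.coe_coe,
      ContinuousLinearMap.comp_apply]
    exact ⟨fun h => SeparatingDual.eq_zero_of_forall_dual_eq_zero h, fun h l => by rw [h, map_zero]⟩
  have h2 := ae_rank μ (fun (l : A →L[ℝ] ℝ) x => ((l ∘L fderiv ℝ F x : E →L[ℝ] ℝ) : E →ₗ[ℝ] ℝ))
    (fun l v x hx => (l.analyticAt _).comp
      (((ContinuousLinearMap.apply ℝ A v).analyticAt _).comp (hF.fderiv x hx))) x₀
  rw [h1, LinearMap.ker_eq_bot'.2 h0, finrank_bot] at h2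
  let S := {x | (∀ v, fderiv ℝ F x v = 0 → v = 0) ∧ F x ∈ N}
  have h3 : μ S = 0 := measure_null_of_locally_null S fun x hx => by
    obtain ⟨c, U, h4, h5⟩ := exists_anti (g := fun z => F (z + x)) (hc.comp (by fun_prop))
      fun v hv => hx.1 v (by
        have := HasFDerivAt.comp_hasDerivAt_of_eq (0 : ℝ)
          (hc.differentiable one_ne_zero x).hasFDerivAt
          (((hasDerivAt_id (0 : ℝ)).smul_const v).add_const x) (by simp)
        rw [one_smul] at this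
        exact this.unique hv)
    refine ⟨S ∩ (· + -x) ⁻¹' U, inter_mem_nhdsWithin _
      ((continuous_add_const (-x)).continuousAt.preimage_mem_nhds (by simpa using h4)), ?_⟩
    have h6 := le_of_anti (T := S ∩ (· + -x) ⁻¹' U) (f := F) (c := c)
      (fun z hz z' hz' => by simpa using h5 _ hz.2 _ hz'.2) (finrank ℝ E)
    rwa [measure_mono_null (t := N) (by rintro _ ⟨z, hz, rfl⟩; exact hz.1.2) hN, mul_zero,
      nonpos_iff_eq_zero, haus_null_iff μ] at h6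
  filter_upwards [h2, compl_mem_ae_iff.2 h3] with x h4 h5 h6
  rw [h1] at h4
  exact h5 ⟨LinearMap.ker_eq_bot'.1 (Submodule.finrank_eq_zero.1 (Nat.le_zero.1 h4)), h6⟩

end Kron

end Pool.Agent.Lib.MP_d52947_gt
end
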