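import Pool.Agent.Lib.MP_d52947_gt.ErgDefs

-- part Pool.Agent.Lib.MP_d52947_gt.ConnA
section

/-! Topological assembly: regular irreducible points of one component of the representation
variety are joined inside the irreducible locus. The local inputs are hypotheses here. -/

namespace Pool.Agent.Lib.MP_d52947_gt

open Filter Topology Module Set

set_option linter.unusedSectionVars false

namespace Conn

section alg
variable {K : Type} [Group K] [TopologicalSpace K] [IsTopologicalGroup K] [CompactSpace K]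
  [ConnectedSpace K] {g : ℕ}

/-- the action of `K × K` conjugating the two boundary holonomies separately -/
def act2 (k : K × K) (x : Gen (g + 1) → K) : Gen (g + 1) → K := fun i =>
  (if i = (0, false) then k.1 else k.2)⁻¹ * x i * (if i.1 = 0 then k.1 else k.2)

theorem act2_a (k : K × K) (x : Gen (g + 1) → K) :
    act2 k x (0, false) = k.1⁻¹ * x (0, false) * k.1 := by simp [act2]

theorem act2_b (k : K × K) (x : Gen (g + 1) → K) :
    act2 k x (0, true) = k.2⁻¹ * x (0, true) * k.1 := by simp [act2]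

theorem act2_succ (k : K × K) (x : Gen (g + 1) → K) (j : Fin g) (s : Bool) :
    act2 k x (j.succ, s) = k.2⁻¹ * x (j.succ, s) * k.2 := by simp [act2, Fin.succ_ne_zero]

theorem act2_mul (k k' : K × K) (x : Gen (g + 1) → K) :
    act2 k' (act2 k x) = act2 (k * k') x := by
  funext i
  refine gen_cases1 (P := fun i => act2 k' (act2 k x) i = act2 (k * k') x i) ?_ ?_ (fun j s => ?_) i
  · simp [act2_a, mul_assoc]
  · simp [act2_b, mul_assoc]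
  · simp [act2_succ, mul_assoc]

theorem act2_one (x : Gen (g + 1) → K) : act2 1 x = x := by
  funext i; simp [act2]

theorem act2_diag (k : K) (x : Gen (g + 1) → K) : act2 (k, k) x = Ctx.cjg k⁻¹ x := by
  funext i; simp [act2, Ctx.cjg]

theorem act2_mu2 (k : K × K) (x : Gen (g + 1) → K) :
    Ctx.mu2 (act2 k x) = k.2⁻¹ * Ctx.mu2 x * k.2 := by
  have h : Ctx.val (act2 k x) (List.ofFn fun i : Fin g => hcomm i.succ).prod =
      k.2⁻¹ * Ctx.val x (List.ofFn fun i : Fin g => hcomm i.succ).prod * k.2⁻¹⁻¹ := by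
    rw [← Ctx.val_conj, map_list_prod, map_list_prod, List.map_ofFn, List.map_ofFn]
    congr 2
    funext i
    simp [hcomm, act2_succ]
  rw [Ctx.mu2, Ctx.mu2, relator_succ, map_mul, map_mul, h]
  simp [hcomm, act2_a, act2_b, mul_assoc]

theorem rep0_iff {x : Gen (g + 1) → K} : x ∈ Ctx.Rep0 (g + 1) K ↔ Ctx.mu2 x = x (0, false) := by
  simp [Ctx.Rep0, Ctx.mu2]

theorem cont_act2 : Continuous fun p : (K × K) × (Gen (g + 1) → K) => act2 p.1 p.2 := by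
  refine continuous_pi fun i => ?_
  unfold act2
  split_ifs <;> fun_prop

theorem cont_mu2 : Continuous fun x : Gen (g + 1) → K => Ctx.mu2 x :=
  (Amb.cont_val _).inv.mul (continuous_apply _)

end alg

/-- statement of `LocConv.joined` -/
def Joined : Prop := ∀ {X E : Type} [TopologicalSpace X] [NormedAddCommGroup E] [NormedSpace ℝ E]
  {Ψ : X → E} (_ : Continuous Ψ) {U : Set X} (_ : LocConv Ψ U) {a b : X} (_ : a ∈ U)
  (_ : b ∈ U), IsPreconnected (U ∩ Ψ ⁻¹' segment ℝ (Ψ a) (Ψ b))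

/-- statement of `local_global` -/
def LocGlob : Prop := ∀ {X E : Type} [TopologicalSpace X] [TopologicalSpace.MetrizableSpace X]
  [NormedAddCommGroup E] [InnerProductSpace ℝ E] [FiniteDimensional ℝ E] {Ψ : X → E}
  (_ : Continuous Ψ) {D : Set E} (_ : Convex ℝ D)
  (_ : ∀ D' ⊆ D, IsCompact D' → IsCompact (Ψ ⁻¹' D'))
  (_ : ∀ x, Ψ x ∈ D → ∃ U, x ∈ U ∧ LocConv Ψ U) {a b : X}
  (_ : b ∈ connectedComponentIn (Ψ ⁻¹' D) a),
  ∃ S, IsPreconnected S ∧ a ∈ S ∧ b ∈ S ∧ Ψ '' S ⊆ segment ℝ (Ψ a) (Ψ b)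

/-- a preconnected set on which a closed set is relatively open -/
theorem sub_of_loc {X : Type} [TopologicalSpace X] {S T : Set X} (hS : IsPreconnected S)
    (hT : IsClosed T) {a : X} (ha : a ∈ S) (ha' : a ∈ T)
    (h : ∀ x ∈ S, x ∈ T → ∀ᶠ y in 𝓝 x, y ∈ S → y ∈ T) : S ⊆ T := by
  intro b hb
  refine (hS.induction₂ (fun x y => (x ∈ T ↔ y ∈ T)) (fun x hx => ?_)
    (fun _ _ _ _ _ _ h1 h2 => h1.trans h2) (fun _ _ _ _ h => h.symm) ha hb).1 ha'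
  by_cases hx' : x ∈ T
  · exact (eventually_nhdsWithin_iff.2 (h x hx hx')).mono fun y hy => iff_of_true hx' hy
  · exact eventually_nhdsWithin_of_eventually_nhds
      ((hT.isOpen_compl.eventually_mem hx').mono fun y hy => iff_of_false hx' hy)

variable {L : Type} [NormedAddCommGroup L] [InnerProductSpace ℝ L] [FiniteDimensional ℝ L]
  {K : Type} [Group K] [TopologicalSpace K] [IsTopologicalGroup K] [CompactSpace K]
  [ConnectedSpace K] {A : Type} [NormedRing A] [NormedAlgebra ℝ A] [FiniteDimensional ℝ A]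
  [CompleteSpace A] [MeasurableSpace A] [BorelSpace A] (C : Amb L K A) {g : ℕ}

theorem cjg_mem {x : Gen g → K} (hx : x ∈ C.Rirr g) (c : K) : Ctx.cjg c x ∈ C.Rirr g := by
  refine ⟨(Ctx.val_conj c x _).trans (by rw [hx.1]; simp), fun θ hθ => ?_⟩
  have h1 : C.Ad c⁻¹ θ ∈ C.Z := hx.2 fun i hi s => by
    have := congrArg (C.Ad c⁻¹) (hθ i hi s)
    simpa [Ctx.cjg] using this
  rw [← C.Ad_Ad_inv c θ, (C.mem_Z_iff _).1 h1]
  exact h1

theorem cont_cjg {G : Type} : Continuous fun p : K × (G → K) => Ctx.cjg p.1 p.2 := by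
  refine continuous_pi fun i => ?_
  unfold Ctx.cjg
  fun_prop

theorem cjg_cc {x x' : Gen g → K} (hx : x' ∈ connectedComponentIn (C.Rirr g) x) (c : K) :
    Ctx.cjg c x' ∈ connectedComponentIn (C.Rirr g) x := by
  have h1 := connectedComponentIn_subset _ _ hx
  rw [connectedComponentIn_eq hx]
  have h2 : IsPreconnected (range fun c : K => Ctx.cjg c x') :=
    isPreconnected_range (cont_cjg.comp (continuous_id.prodMk continuous_const))
  refine h2.subset_connectedComponentIn ⟨1, ?_⟩ ?_ ⟨c, rfl⟩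
  · funext i; simp [Ctx.cjg]
  · rintro _ ⟨c, rfl⟩
    exact cjg_mem C h1 c

/-- statement of `sec_local` -/
def SecLoc (g : ℕ) : Prop := ∀ {t : Submodule ℝ L} (_ : C.IsMaxAb t) (n : C.NS g t),
  ∃ U, n ∈ U ∧ LocConv (C.PsiN g t) U ∧ (n.1.2.1 = n.1.2.2 → ∀ G : Set (C.NS g t),
    G = {m | m ∈ U ∧ m.1.2.1 = m.1.2.2 ∧ C.cen m.1.1 (List.finRange _) ≤ C.Z} →
    IsPreconnected G ∧ (G.Nonempty → ∀ m ∈ U, m.1.2.1 = m.1.2.2 → m ∈ closure G))

/-- regular points of the component of `x` in the irreducible locus -/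
def cls (x : Gen (g + 1) → K) : Set (Gen (g + 1) → K) :=
  {x' | x' ∈ connectedComponentIn (C.Rirr (g + 1)) x ∧ C.Reg (x' (0, false))}

theorem diag_rep0 {t : Submodule ℝ L} {m : C.NS g t} (h : m.1.2.1 = m.1.2.2) :
    m.1.1 ∈ Ctx.Rep0 (g + 1) K := rep0_iff.2 (by rw [m.2.1, m.2.2.1, h])

theorem along (hs : SecLoc C g) {t : Submodule ℝ L} (ht : C.IsMaxAb t) {S : Set (C.NS g t)}
    (hS : IsPreconnected S) (hd : ∀ m ∈ S, m.1.2.1 = m.1.2.2) {n n' : C.NS g t} (hn : n ∈ S)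
    (hn' : n' ∈ S) {x : Gen (g + 1) → K}
    (h : n.1.1 ∈ connectedComponentIn (C.Rirr (g + 1)) x) : n'.1.1 ∈ closure (cls C x) := by
  have hc : Continuous fun m : C.NS g t => m.1.1 := continuous_fst.comp continuous_subtype_val
  have h1 : S ⊆ closure {m : C.NS g t | m.1.2.1 = m.1.2.2 ∧
      m.1.1 ∈ connectedComponentIn (C.Rirr (g + 1)) x} := by
    refine sub_of_loc hS isClosed_closure hn (subset_closure ⟨hd n hn, h⟩) fun m hm hm' => ?_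
    obtain ⟨U, u1, u2, u3⟩ := hs ht m
    obtain ⟨g1, g2⟩ := u3 (hd m hm) _ rfl
    obtain ⟨m', m1, m2, m3⟩ := mem_closure_iff.1 hm' U u2.isOpen u1
    have m4 : m' ∈ {m : C.NS g t | m ∈ U ∧ m.1.2.1 = m.1.2.2 ∧
        C.cen m.1.1 (List.finRange _) ≤ C.Z} :=
      ⟨m1, m2, (connectedComponentIn_subset _ _ m3).2⟩
    refine (u2.isOpen.eventually_mem u1).mono fun y hy hy' => ?_
    refine closure_mono (fun z hz => ?_) (g2 ⟨m', m4⟩ y hy (hd y hy'))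
    refine ⟨hz.2.1, ?_⟩
    rw [connectedComponentIn_eq m3]
    refine (g1.image _ hc.continuousOn).subset_connectedComponentIn ⟨m', m4, rfl⟩ ?_ ⟨z, hz, rfl⟩
    rintro _ ⟨w, hw, rfl⟩
    exact ⟨diag_rep0 C hw.2.1, hw.2.2⟩
  refine closure_mono ?_ (image_closure_subset_closure_image hc ⟨n', h1 hn', rfl⟩)
  rintro _ ⟨m, hm, rfl⟩
  refine ⟨hm.2, ?_⟩
  beta_reduce
  rw [m.2.1, Ctx.Reg, m.2.2.2.1, C.finrank_maxAb ht]

/-- local lifting data -/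
structure Lf (t : Submodule ℝ L) (𝒜 : Set t) (𝒦 : Set K) : Prop where
  ht : C.IsMaxAb t
  cvx : Convex ℝ 𝒜
  bdd : Bornology.IsBounded 𝒜
  cpt : IsCompact 𝒦
  fix : ∀ ξ ∈ 𝒜, C.Fix (C.ex ξ) = t
  cl : ∀ ξ ∈ closure 𝒜, C.Reg (C.ex ξ) → ξ ∈ 𝒜
  uniq : ∀ k ∈ 𝒦, ∀ k' ∈ 𝒦, ∀ ξ ∈ 𝒜, ∀ ξ' ∈ 𝒜, k * C.ex ξ * k⁻¹ = k' * C.ex ξ' * k'⁻¹ →
    ξ = ξ' ∧ ∃ τ ∈ t, k' = k * C.ex τ

/-- the part of the cross-section above `𝒜 × 𝒜` -/
def Dom {t : Submodule ℝ L} (𝒜 : Set t) : Set (WithLp 2 (t × t)) :=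
  {p | p.ofLp.1 ∈ 𝒜 ∧ p.ofLp.2 ∈ 𝒜}

/-- `n` is a lift of `x` to the cross-section -/
def IsLift {t : Submodule ℝ L} (𝒜 : Set t) (𝒦 : Set K) (x : Gen (g + 1) → K) (n : C.NS g t) :
    Prop := n.1.2.1 ∈ 𝒜 ∧ n.1.2.2 ∈ 𝒜 ∧ ∃ k : K × K, k.1 ∈ 𝒦 ∧ k.2 ∈ 𝒦 ∧ n.1.1 = act2 k x

theorem cont_Psi (t : Submodule ℝ L) : Continuous (C.PsiN g t) :=
  (WithLp.prod_continuous_toLp 2 t t).comp (continuous_snd.comp continuous_subtype_val)

variable {C} {t : Submodule ℝ L} {𝒜 : Set t} {𝒦 : Set K}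

theorem Lf.convex_dom (h : Lf C t 𝒜 𝒦) : Convex ℝ (Dom 𝒜) := fun _ hx _ hy _ _ ha hb hab =>
  ⟨h.cvx hx.1 hy.1 ha hb hab, h.cvx hx.2 hy.2 ha hb hab⟩

theorem Lf.proper (h : Lf C t 𝒜 𝒦) (D : Set (WithLp 2 (t × t))) (hD : D ⊆ Dom 𝒜)
    (hc : IsCompact D) : IsCompact (C.PsiN g t ⁻¹' D) := by
  have := C.ι_emb.isEmbedding.t2Space
  rw [Subtype.isCompact_iff]
  have h1 : IsCompact ((univ : Set (Gen (g + 1) → K)) ×ˢ (WithLp.ofLp '' D)) :=
    isCompact_univ.prod (hc.image (WithLp.prod_continuous_ofLp 2 t t))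
  have h2 : IsClosed {n : (Gen (g + 1) → K) × t × t | n.1 (0, false) = C.ex n.2.1 ∧
      Ctx.mu2 n.1 = C.ex n.2.2} :=
    (isClosed_eq (by fun_prop) (C.cont_ex.comp (by fun_prop))).inter
      (isClosed_eq (cont_mu2.comp continuous_fst) (C.cont_ex.comp (by fun_prop)))
  convert h1.inter_right h2 using 1
  ext n
  constructor
  · rintro ⟨m, hm, rfl⟩
    exact ⟨⟨trivial, _, hm, rfl⟩, m.2.1, m.2.2.1⟩
  · rintro ⟨⟨-, p, p1, p2⟩, n1, n2⟩
    have p3 := hD p1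
    rw [Dom, mem_setOf_eq, p2] at p3
    refine ⟨⟨n, n1, n2, h.fix _ p3.1, h.fix _ p3.2⟩, ?_, rfl⟩
    rw [mem_preimage, Ctx.PsiN, ← p2]
    exact p1

theorem Lf.mk_lift (h : Lf C t 𝒜 𝒦) {x : Gen (g + 1) → K} {k : K × K} {ξ : t × t} (k1 : k.1 ∈ 𝒦)
    (k2 : k.2 ∈ 𝒦) (a1 : ξ.1 ∈ 𝒜) (a2 : ξ.2 ∈ 𝒜) (e1 : x (0, false) = k.1 * C.ex ξ.1 * k.1⁻¹)
    (e2 : Ctx.mu2 x = k.2 * C.ex ξ.2 * k.2⁻¹) :
    ∃ n : C.NS g t, IsLift C 𝒜 𝒦 x n ∧ n.1 = (act2 k x, ξ) :=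
  ⟨⟨(act2 k x, ξ), by simp [act2_a, e1, mul_assoc], by simp [act2_mu2, e2, mul_assoc],
    h.fix _ a1, h.fix _ a2⟩, ⟨a1, a2, k, k1, k2, rfl⟩, rfl⟩

theorem lift_eq {x : Gen (g + 1) → K} {k : K × K} {n : C.NS g t} (e : n.1.1 = act2 k x) :
    x (0, false) = k.1 * C.ex n.1.2.1 * k.1⁻¹ ∧ Ctx.mu2 x = k.2 * C.ex n.1.2.2 * k.2⁻¹ := by
  rw [← n.2.1, ← n.2.2.1, e, act2_a, act2_mu2]
  simp [mul_assoc]

theorem ex_comm (ht : C.IsMaxAb t) {τ ξ : L} (h1 : τ ∈ t) (h2 : ξ ∈ t) :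
    (C.ex τ)⁻¹ * C.ex ξ * C.ex τ = C.ex ξ := by
  rw [mul_assoc, ← C.ex_add _ _ ((ht _).1 h2 _ h1), add_comm, C.ex_add _ _ ((ht _).1 h1 _ h2),
    inv_mul_cancel_left]

theorem Lf.indep (h : Lf C t 𝒜 𝒦) {x : Gen (g + 1) → K} {n n' : C.NS g t}
    (hn : IsLift C 𝒜 𝒦 x n) (hn' : IsLift C 𝒜 𝒦 x n') :
    connectedComponentIn (C.PsiN g t ⁻¹' Dom 𝒜) n =
      connectedComponentIn (C.PsiN g t ⁻¹' Dom 𝒜) n' := by
  obtain ⟨a1, a2, k, k1, k2, e⟩ := hn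
  obtain ⟨a1', a2', k', k1', k2', e'⟩ := hn'
  obtain ⟨b1, τ1, t1, c1⟩ := h.uniq _ k1 _ k1' _ a1 _ a1' ((lift_eq e).1.symm.trans (lift_eq e').1)
  obtain ⟨b2, τ2, t2, c2⟩ := h.uniq _ k2 _ k2' _ a2 _ a2' ((lift_eq e).2.symm.trans (lift_eq e').2)
  let F : t × t → C.NS g t := fun τ => ⟨(act2 (C.ex τ.1, C.ex τ.2) n.1.1, n.1.2),
    by simp only [act2_a, n.2.1]; exact ex_comm h.ht τ.1.2 n.1.2.1.2,
    by rw [act2_mu2, n.2.2.1]; exact ex_comm h.ht τ.2.2 n.1.2.2.2, n.2.2.2.1, n.2.2.2.2⟩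
  have hF : Continuous F := by
    refine Continuous.subtype_mk (Continuous.prodMk ?_ continuous_const) _
    exact cont_act2.comp (f := fun τ : t × t => ((C.ex τ.1, C.ex τ.2), n.1.1))
      (((C.cont_ex.comp (by fun_prop)).prodMk (C.cont_ex.comp (by fun_prop))).prodMk
        continuous_const)
  refine connectedComponentIn_eq ((isPreconnected_range hF).subset_connectedComponentIn
    ⟨0, ?_⟩ ?_ ⟨(⟨τ1, t1⟩, ⟨τ2, t2⟩), ?_⟩)
  · refine Subtype.ext (Prod.ext ?_ rfl)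
    simp only [F, Prod.fst_zero, Prod.snd_zero, ZeroMemClass.coe_zero, C.ex_zero]
    exact act2_one n.1.1
  · rintro _ ⟨τ, rfl⟩
    exact ⟨a1, a2⟩
  · refine Subtype.ext (Prod.ext ?_ (Prod.ext b1 b2))
    simp only [F]
    rw [e, e', act2_mul]
    congr 1
    exact Prod.ext c1.symm c2.symm

theorem Lf.near (hj : Joined) (hs : SecLoc C g) (h : Lf C t 𝒜 𝒦) {x : Gen (g + 1) → K}
    {n : C.NS g t} (hn : IsLift C 𝒜 𝒦 x n) : ∀ᶠ x' in 𝓝 x, ∀ n', IsLift C 𝒜 𝒦 x' n' →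
      connectedComponentIn (C.PsiN g t ⁻¹' Dom 𝒜) n =
        connectedComponentIn (C.PsiN g t ⁻¹' Dom 𝒜) n' := by
  have := C.ι_emb.isEmbedding.t2Space
  choose U u1 u2 u3 using fun m : C.NS g t => hs h.ht m
  obtain ⟨W, w1, w2⟩ := isOpen_induced_iff.1
    (isOpen_biUnion (s := {m | IsLift C 𝒜 𝒦 x m}) fun m _ => (u2 m).isOpen)
  have hA : IsCompact (closure 𝒜) := h.bdd.isCompact_closure
  have hr : ∀ ξ ∈ 𝒜, C.Reg (C.ex ξ) := fun ξ hξ => by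
    rw [Ctx.Reg, h.fix ξ hξ, C.finrank_maxAb h.ht]
  have key : ∀ᶠ x' in 𝓝 x, ∀ p ∈ (𝒦 ×ˢ 𝒦) ×ˢ (closure 𝒜 ×ˢ closure 𝒜),
      x' (0, false) = p.1.1 * C.ex p.2.1 * p.1.1⁻¹ → Ctx.mu2 x' = p.1.2 * C.ex p.2.2 * p.1.2⁻¹ →
        (act2 p.1 x', p.2) ∈ W := by
    refine ((h.cpt.prod h.cpt).prod (hA.prod hA)).eventually_forall_of_forall_eventually
      fun p hp => ?_
    have c1 : Continuous fun z : (Gen (g + 1) → K) × (K × K) × t × t => C.ex z.2.2.1 :=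
      C.cont_ex.comp (by fun_prop)
    have c2 : Continuous fun z : (Gen (g + 1) → K) × (K × K) × t × t => C.ex z.2.2.2 :=
      C.cont_ex.comp (by fun_prop)
    by_cases e1 : x (0, false) = p.1.1 * C.ex p.2.1 * p.1.1⁻¹
    swap
    · have : IsOpen {z : (Gen (g + 1) → K) × (K × K) × t × t |
          z.1 (0, false) ≠ z.2.1.1 * C.ex z.2.2.1 * z.2.1.1⁻¹} :=
        isOpen_ne_fun (by fun_prop) (by fun_prop)
      exact (this.eventually_mem (x := (x, p)) e1).mono fun z hz h1 => absurd h1 hz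
    by_cases e2 : Ctx.mu2 x = p.1.2 * C.ex p.2.2 * p.1.2⁻¹
    swap
    · have : IsOpen {z : (Gen (g + 1) → K) × (K × K) × t × t |
          Ctx.mu2 z.1 ≠ z.2.1.2 * C.ex z.2.2.2 * z.2.1.2⁻¹} :=
        isOpen_ne_fun (cont_mu2.comp continuous_fst) (by fun_prop)
      exact (this.eventually_mem (x := (x, p)) e2).mono fun z hz _ h1 => absurd h1 hz
    obtain ⟨a1, a2, k, -, -, e⟩ := hn
    have r1 : C.Reg (C.ex p.2.1) := by
      have := ((hr _ a1).conj k.1).conj p.1.1⁻¹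
      rw [← (lift_eq e).1, e1] at this
      simpa [mul_assoc] using this
    have r2 : C.Reg (C.ex p.2.2) := by
      have := ((hr _ a2).conj k.2).conj p.1.2⁻¹
      rw [← (lift_eq e).2, e2] at this
      simpa [mul_assoc] using this
    obtain ⟨m, m1, m2⟩ := h.mk_lift hp.1.1 hp.1.2 (h.cl _ hp.2.1 r1) (h.cl _ hp.2.2 r2) e1 e2
    have m3 : m ∈ Subtype.val ⁻¹' W := w2 ▸ mem_biUnion m1 (u1 m)
    rw [mem_preimage, m2] at m3
    have c3 : Continuous fun z : (Gen (g + 1) → K) × (K × K) × t × t =>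
        (act2 z.2.1 z.1, z.2.2) :=
      (cont_act2.comp (f := fun z : (Gen (g + 1) → K) × (K × K) × t × t => (z.2.1, z.1))
        (by fun_prop)).prodMk (by fun_prop)
    exact ((w1.preimage c3).eventually_mem (x := (x, p)) m3).mono fun z hz _ _ => hz
  refine key.mono fun x' hx' n' hn' => ?_
  obtain ⟨a1, a2, k, k1, k2, e⟩ := hn'
  have h1 := hx' (k, n'.1.2) ⟨⟨k1, k2⟩, subset_closure a1, subset_closure a2⟩
    (lift_eq e).1 (lift_eq e).2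
  have h2 : n' ∈ Subtype.val ⁻¹' W := by
    rw [← e] at h1
    exact h1
  rw [w2] at h2
  obtain ⟨m, m1, m2⟩ := mem_iUnion₂.1 h2
  rw [h.indep hn m1]
  refine connectedComponentIn_eq ((hj (cont_Psi C t) (u2 m) (u1 m) m2).subset_connectedComponentIn
    ⟨u1 m, left_mem_segment _ _ _⟩ (fun z hz => ?_) ⟨m2, right_mem_segment _ _ _⟩)
  exact h.convex_dom.segment_subset (show C.PsiN g t m ∈ Dom 𝒜 from ⟨m1.1, m1.2.1⟩)
    (show C.PsiN g t n' ∈ Dom 𝒜 from ⟨a1, a2⟩) hz.2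

variable (C)

/-- statement of `local_lift` -/
def LocLift : Prop := ∀ z : K, ∃ (t : Submodule ℝ L) (𝒜 : Set t) (𝒦 : Set K), C.IsMaxAb t ∧
  Convex ℝ 𝒜 ∧ Bornology.IsBounded 𝒜 ∧ IsCompact 𝒦 ∧ (∀ ξ ∈ 𝒜, C.Fix (C.ex ξ) = t) ∧
  (∀ ξ ∈ closure 𝒜, C.Reg (C.ex ξ) → ξ ∈ 𝒜) ∧
  (∀ k ∈ 𝒦, ∀ k' ∈ 𝒦, ∀ ξ ∈ 𝒜, ∀ ξ' ∈ 𝒜, k * C.ex ξ * k⁻¹ = k' * C.ex ξ' * k'⁻¹ →
    ξ = ξ' ∧ ∃ τ ∈ t, k' = k * C.ex τ) ∧
  ∀ᶠ μ in 𝓝 z, C.Reg μ → ∃ k ∈ 𝒦, ∃ ξ ∈ 𝒜, μ = k * C.ex ξ * k⁻¹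

/-- statement of `mreg_conn` -/
def MregConn (g : ℕ) : Prop := ∀ (y : Gen (g + 1) → K) {V : Set (Gen (g + 1) → K)} (_ : V ∈ 𝓝 y),
  ∃ U ∈ 𝓝 y, U ⊆ V ∧
    IsPreconnected {x | x ∈ U ∧ C.Reg (x (0, false)) ∧ C.Reg (Ctx.mu2 x)}

theorem loc (hj : Joined) (hg : LocGlob) (hs : SecLoc C g) (hl : LocLift C) (hm : MregConn C g)
    {y : Gen (g + 1) → K} (hy : y ∈ Ctx.Rep0 (g + 1) K) : ∃ U ∈ 𝓝 y, ∀ x ∈ U, ∀ x' ∈ U,
      x ∈ C.Rirr (g + 1) → C.Reg (x (0, false)) → x' ∈ Ctx.Rep0 (g + 1) K →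
        C.Reg (x' (0, false)) → x' ∈ closure (cls C x) := by
  have : TopologicalSpace.MetrizableSpace K := C.ι_emb.isEmbedding.metrizableSpace
  obtain ⟨t, 𝒜, 𝒦, l1, l2, l3, l4, l5, l6, l7, l8⟩ := hl (y (0, false))
  have h : Lf C t 𝒜 𝒦 := ⟨l1, l2, l3, l4, l5, l6, l7⟩
  have v1 := ((continuous_apply ((0 : Fin (g + 1)), false)).tendsto y).eventually l8
  have v2 := (cont_mu2.tendsto y).eventually (rep0_iff.1 hy ▸ l8 :)
  obtain ⟨U, u1, u2, u3⟩ := hm y (v1.and v2)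
  have ex : ∀ x ∈ {x | x ∈ U ∧ C.Reg (x (0, false)) ∧ C.Reg (Ctx.mu2 x)},
      ∃ n : C.NS g t, IsLift C 𝒜 𝒦 x n := fun x hx => by
    obtain ⟨k1, a1, ξ1, b1, e1⟩ := (u2 hx.1).1 hx.2.1
    obtain ⟨k2, a2, ξ2, b2, e2⟩ := (u2 hx.1).2 hx.2.2
    exact (h.mk_lift (k := (k1, k2)) (ξ := (ξ1, ξ2)) a1 a2 b1 b2 e1 e2).imp fun _ h => h.1
  have dg : ∀ x ∈ U, x ∈ Ctx.Rep0 (g + 1) K → C.Reg (x (0, false)) →
      ∃ n : C.NS g t, IsLift C 𝒜 𝒦 x n ∧ n.1.2.1 = n.1.2.2 ∧ ∃ k, n.1.1 = Ctx.cjg k x :=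
    fun x hx h1 h2 => by
      obtain ⟨k1, a1, ξ1, b1, e1⟩ := (u2 hx).1 h2
      obtain ⟨n, n1, n2⟩ := h.mk_lift (k := (k1, k1)) (ξ := (ξ1, ξ1)) a1 a1 b1 b1 e1
        ((rep0_iff.1 h1).trans e1)
      exact ⟨n, n1, by rw [n2], k1⁻¹, by rw [n2, act2_diag]⟩
  refine ⟨U, u1, fun x hx x' hx' x1 x2 x3 x4 => ?_⟩
  obtain ⟨n, n1, n2, k, n3⟩ := dg x hx x1.1 x2
  obtain ⟨n', n1', n2', k', n3'⟩ := dg x' hx' x3 x4
  obtain ⟨m, m', m1, m2, m3⟩ := u3.induction₂ (fun a b => ∃ m m' : C.NS g t, IsLift C 𝒜 𝒦 a m ∧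
      IsLift C 𝒜 𝒦 b m' ∧ connectedComponentIn (C.PsiN g t ⁻¹' Dom 𝒜) m =
        connectedComponentIn (C.PsiN g t ⁻¹' Dom 𝒜) m')
    (fun a ha => by
      obtain ⟨m, hm⟩ := ex a ha
      filter_upwards [self_mem_nhdsWithin, nhdsWithin_le_nhds (h.near hj hs hm)] with b b1 b2
      obtain ⟨m', hm'⟩ := ex b b1
      exact ⟨m, m', hm, hm', b2 m' hm'⟩)
    (fun _ _ _ _ _ _ ⟨m1, m2, a1, a2, a3⟩ ⟨m3, m4, b1, b2, b3⟩ =>
      ⟨m1, m4, a1, b2, a3.trans ((h.indep a2 b1).trans b3)⟩)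
    (fun _ _ _ _ ⟨m1, m2, a1, a2, a3⟩ => ⟨m2, m1, a2, a1, a3.symm⟩)
    (x := x) (y := x') ⟨hx, x2, rep0_iff.1 x1.1 ▸ x2⟩ ⟨hx', x4, rep0_iff.1 x3 ▸ x4⟩
  have e : n' ∈ connectedComponentIn (C.PsiN g t ⁻¹' Dom 𝒜) n := by
    rw [h.indep n1 m1, m3, h.indep m2 n1']
    exact mem_connectedComponentIn ⟨n1'.1, n1'.2.1⟩
  obtain ⟨S, s1, s2, s3, s4⟩ := hg (cont_Psi C t) h.convex_dom h.proper
    (fun m _ => (hs h.ht m).imp fun _ h => ⟨h.1, h.2.1⟩) e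
  have hd : ∀ m ∈ S, m.1.2.1 = m.1.2.2 := fun m hm => by
    obtain ⟨a, b, -, -, -, e⟩ := s4 ⟨m, hm, rfl⟩
    have e1 := congrArg (fun p : WithLp 2 (t × t) => p.ofLp.1) e
    have e2 := congrArg (fun p : WithLp 2 (t × t) => p.ofLp.2) e
    simp only [Ctx.PsiN, WithLp.ofLp_add, WithLp.ofLp_smul, Prod.fst_add, Prod.smul_fst,
      Prod.snd_add, Prod.smul_snd] at e1 e2
    rw [← e1, ← e2, n2, n2']
  have h1 := along C hs h.ht s1 hd s2 s3 (x := x)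
    (n3 ▸ cjg_cc C (mem_connectedComponentIn x1) k)
  have h2 : Continuous fun z : Gen (g + 1) → K => Ctx.cjg k'⁻¹ z :=
    cont_cjg.comp (continuous_const.prodMk continuous_id)
  refine closure_mono ?_ (image_closure_subset_closure_image h2 ⟨_, h1, ?_⟩)
  · rintro _ ⟨z, hz, rfl⟩
    exact ⟨cjg_cc C hz.1 _, hz.2.conj _⟩
  · funext i
    simp [n3', Ctx.cjg, mul_assoc]

theorem conn_of (hj : Joined) (hg : LocGlob) (hs : SecLoc C g) (hl : LocLift C)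
    (hm : MregConn C g)
    (hd : Ctx.Rep0 (g + 1) K ⊆ closure {x | x ∈ Ctx.Rep0 (g + 1) K ∧ C.Reg (x (0, false))})
    {y x x' : Gen (g + 1) → K} (hx : x ∈ connectedComponentIn (Ctx.Rep0 (g + 1) K) y)
    (hx' : x' ∈ connectedComponentIn (Ctx.Rep0 (g + 1) K) y) (h1 : x ∈ C.Rirr (g + 1))
    (h2 : x' ∈ C.Rirr (g + 1)) (h3 : C.Reg (x (0, false))) :
    ∃ S ⊆ C.Rirr (g + 1), IsPreconnected S ∧ x ∈ S ∧ x' ∈ S := by
  have h0 := mem_connectedComponentIn h1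
  have h4 : x' ∈ closure (cls C x) := by
    refine sub_of_loc isPreconnected_connectedComponentIn isClosed_closure hx
      (subset_closure (show x ∈ cls C x from ⟨h0, h3⟩)) (fun z z1 z2 => ?_) hx'
    obtain ⟨U, u1, u2⟩ := loc C hj hg hs hl hm (connectedComponentIn_subset _ _ z1)
    obtain ⟨w, w1, w2⟩ := mem_closure_iff_nhds.1 z2 U u1
    refine (eventually_mem_nhds_iff.2 u1).mono fun v v1 v2 => ?_
    rw [← closure_closure, mem_closure_iff_nhds]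
    intro T hT
    obtain ⟨p, ⟨p1, p2⟩, p3, p4⟩ := mem_closure_iff_nhds.1 (hd (connectedComponentIn_subset _ _ v2))
      _ (inter_mem hT v1)
    have := u2 w w1 p p2 (connectedComponentIn_subset _ _ w2.1) w2.2 p3 p4
    rw [cls, ← connectedComponentIn_eq w2.1] at this
    exact ⟨p, p1, this⟩
  refine ⟨insert x' (connectedComponentIn (C.Rirr (g + 1)) x),
    insert_subset h2 (connectedComponentIn_subset _ _),
    isPreconnected_connectedComponentIn.subset_closure (subset_insert _ _)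
      (insert_subset (closure_mono (fun z hz => hz.1) h4) subset_closure),
    mem_insert_of_mem _ h0, mem_insert _ _⟩

end Conn

end Pool.Agent.Lib.MP_d52947_gt
end

-- part Pool.Agent.Lib.MP_d52947_gt.LG
section

/-! Local to global convexity (Tietze, Nakajima, Bjorndahl, Karshon). -/

namespace Pool.Agent.Lib.MP_d52947_gt

open Filter Topology Set

theorem LocConv.preimage {X E : Type} [TopologicalSpace X] [NormedAddCommGroup E]
    [NormedSpace ℝ E] {Ψ : X → E} {U : Set X} (h : LocConv Ψ U) {T : Set E}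
    (hT : IsPreconnected T) (hTU : T ⊆ Ψ '' U) : IsPreconnected (U ∩ Ψ ⁻¹' T) := by
  intro O₁ O₂ h₁ h₂ hcov ⟨a₁, ⟨ha₁, hTa₁⟩, hO₁⟩ ⟨a₂, ⟨ha₂, hTa₂⟩, hO₂⟩
  have key : ∀ O : Set X, IsOpen O → ∃ V : Set E, IsOpen V ∧ (∀ a ∈ U, a ∈ O → Ψ a ∈ V) ∧
      ∀ p ∈ V, p ∈ Ψ '' U → p ∈ Ψ '' (O ∩ U) := by
    intro O hO
    refine ⟨interior {p | p ∈ Ψ '' U → p ∈ Ψ '' (O ∩ U)}, isOpen_interior, ?_, ?_⟩
    · intro a ha haO
      rw [mem_interior_iff_mem_nhds]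
      exact eventually_nhdsWithin_iff.1 (h.opn a ha O (hO.mem_nhds haO))
    · intro p hp
      exact interior_subset hp
  obtain ⟨V₁, hV₁, hm₁, hs₁⟩ := key O₁ h₁
  obtain ⟨V₂, hV₂, hm₂, hs₂⟩ := key O₂ h₂
  have hc : T ⊆ V₁ ∪ V₂ := by
    intro p hp
    obtain ⟨a, ha, rfl⟩ := hTU hp
    rcases hcov ⟨ha, hp⟩ with h' | h'
    · exact Or.inl (hm₁ a ha h')
    · exact Or.inr (hm₂ a ha h')
  obtain ⟨p, hp, hp₁, hp₂⟩ := hT V₁ V₂ hV₁ hV₂ hc ⟨_, hTa₁, hm₁ _ ha₁ hO₁⟩ ⟨_, hTa₂, hm₂ _ ha₂ hO₂⟩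
  obtain ⟨b₁, ⟨hb₁, hb₁'⟩, e₁⟩ := hs₁ p hp₁ (hTU hp)
  obtain ⟨b₂, ⟨hb₂, hb₂'⟩, e₂⟩ := hs₂ p hp₂ (hTU hp)
  have hsub : U ∩ Ψ ⁻¹' {p} ⊆ U ∩ Ψ ⁻¹' T := by
    rintro x ⟨hx, hx'⟩
    refine ⟨hx, ?_⟩
    have : Ψ x = p := hx'
    simpa [this] using hp
  obtain ⟨c, hc₁, hc₂⟩ := h.fibre p O₁ O₂ h₁ h₂ (hsub.trans hcov) ⟨b₁, ⟨hb₁', e₁⟩, hb₁⟩
    ⟨b₂, ⟨hb₂', e₂⟩, hb₂⟩
  exact ⟨c, hsub hc₁, hc₂⟩

theorem LocConv.joined {X E : Type} [TopologicalSpace X] [NormedAddCommGroup E] [NormedSpace ℝ E]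
    {Ψ : X → E} (hc : Continuous Ψ) {U : Set X} (h : LocConv Ψ U) {a b : X} (ha : a ∈ U)
    (hb : b ∈ U) : IsPreconnected (U ∩ Ψ ⁻¹' segment ℝ (Ψ a) (Ψ b)) :=
  h.preimage (convex_segment _ _).isPreconnected
    (h.convex.segment_subset (mem_image_of_mem _ ha) (mem_image_of_mem _ hb))

namespace LG

section basic

variable {X E : Type} [TopologicalSpace X] [NormedAddCommGroup E] [NormedSpace ℝ E] {Ψ : X → E}

/-- joined by a preconnected set over `B` -/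
def J (Ψ : X → E) (B : Set E) (x y : X) : Prop :=
  ∃ S, IsPreconnected S ∧ x ∈ S ∧ y ∈ S ∧ Ψ '' S ⊆ B

/-- joined over the segment -/
def R (Ψ : X → E) (x y : X) : Prop := J Ψ (segment ℝ (Ψ x) (Ψ y)) x y

/-- saturation along connected parts of fibres -/
def Sat (Ψ : X → E) (U : Set X) : Set X := {y | ∃ y' ∈ U, J Ψ {Ψ y'} y' y}

/-- in the saturation of one locally convex chart -/
def Q (Ψ : X → E) (x y : X) : Prop := ∃ U, LocConv Ψ U ∧ x ∈ Sat Ψ U ∧ y ∈ Sat Ψ U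

omit [NormedAddCommGroup E] [NormedSpace ℝ E] in
theorem J.mono {B B' : Set E} {x y : X} (h : J Ψ B x y) (hB : B ⊆ B') : J Ψ B' x y := by
  obtain ⟨S, h1, h2, h3, h4⟩ := h
  exact ⟨S, h1, h2, h3, h4.trans hB⟩

omit [NormedAddCommGroup E] [NormedSpace ℝ E] in
theorem J.symm {B : Set E} {x y : X} (h : J Ψ B x y) : J Ψ B y x := by
  obtain ⟨S, h1, h2, h3, h4⟩ := h
  exact ⟨S, h1, h3, h2, h4⟩

omit [NormedAddCommGroup E] [NormedSpace ℝ E] in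
theorem J.trans {B : Set E} {x y z : X} (h : J Ψ B x y) (h' : J Ψ B y z) : J Ψ B x z := by
  obtain ⟨S, h1, h2, h3, h4⟩ := h
  obtain ⟨S', h1', h2', h3', h4'⟩ := h'
  refine ⟨S ∪ S', h1.union y h3 h2' h1', Or.inl h2, Or.inr h3', ?_⟩
  rw [image_union]
  exact union_subset h4 h4'

omit [NormedAddCommGroup E] [NormedSpace ℝ E] in
theorem J.refl {B : Set E} {x : X} (h : Ψ x ∈ B) : J Ψ B x x :=
  ⟨{x}, isPreconnected_singleton, rfl, rfl, by simpa using h⟩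

omit [NormedAddCommGroup E] [NormedSpace ℝ E] in
theorem J.left {B : Set E} {x y : X} (h : J Ψ B x y) : Ψ x ∈ B := by
  obtain ⟨S, -, h2, -, h4⟩ := h
  exact h4 (mem_image_of_mem _ h2)

omit [NormedAddCommGroup E] [NormedSpace ℝ E] in
theorem J.right {B : Set E} {x y : X} (h : J Ψ B x y) : Ψ y ∈ B := h.symm.left

theorem R.toJ {B : Set E} (hB : Convex ℝ B) {x y : X} (h : R Ψ x y) (hx : Ψ x ∈ B)
    (hy : Ψ y ∈ B) : J Ψ B x y := J.mono h (hB.segment_subset hx hy)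

theorem R.symm {x y : X} (h : R Ψ x y) : R Ψ y x := by
  unfold R at *
  rw [segment_symm]
  exact h.symm

theorem R.glue {x y z : X} (h : R Ψ x y) (h' : R Ψ y z) (hy : Ψ y ∈ segment ℝ (Ψ x) (Ψ z)) :
    R Ψ x z :=
  (h.toJ (convex_segment _ _) (left_mem_segment _ _ _) hy).trans
    (h'.toJ (convex_segment _ _) hy (right_mem_segment _ _ _))

theorem R.of_mem {U : Set X} (h : LocConv Ψ U) {x y : X} (hx : x ∈ U) (hy : y ∈ U) : R Ψ x y :=
  ⟨U ∩ Ψ ⁻¹' segment ℝ (Ψ x) (Ψ y), h.preimage (convex_segment _ _).isPreconnected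
    (h.convex.segment_subset (mem_image_of_mem _ hx) (mem_image_of_mem _ hy)),
    ⟨hx, left_mem_segment _ _ _⟩, ⟨hy, right_mem_segment _ _ _⟩, by
      rintro _ ⟨s, hs, rfl⟩
      exact hs.2⟩

theorem fib_of_mem {U : Set X} (h : LocConv Ψ U) {x y : X} (hx : x ∈ U) (hy : y ∈ U)
    (e : Ψ x = Ψ y) : J Ψ {Ψ x} x y := by
  have := R.of_mem h hx hy
  unfold R at this
  rwa [← e, segment_same] at this

omit [NormedAddCommGroup E] [NormedSpace ℝ E] in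
theorem sat_of_fib {U : Set X} {x y : X} (hx : x ∈ Sat Ψ U) (h : J Ψ {Ψ x} x y) :
    y ∈ Sat Ψ U := by
  obtain ⟨x', hx', hj⟩ := hx
  have e : Ψ x = Ψ x' := hj.right
  rw [e] at h
  exact ⟨x', hx', hj.trans h⟩

omit [NormedAddCommGroup E] [NormedSpace ℝ E] in
theorem subset_sat {U : Set X} : U ⊆ Sat Ψ U := fun x hx => ⟨x, hx, J.refl rfl⟩

theorem R_of_sat {U : Set X} (h : LocConv Ψ U) {x y : X} (hx : x ∈ Sat Ψ U) (hy : y ∈ Sat Ψ U) :
    R Ψ x y := by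
  obtain ⟨x', hx', hj⟩ := hx
  obtain ⟨y', hy', hk⟩ := hy
  have e : Ψ x = Ψ x' := hj.right
  have e' : Ψ y = Ψ y' := hk.right
  have h0 := R.of_mem h hx' hy'
  unfold R at *
  rw [e, e']
  refine ((hj.symm.mono ?_).trans h0).trans (hk.mono ?_)
  · simpa using left_mem_segment ℝ _ _
  · simpa using right_mem_segment ℝ _ _

theorem Q.toR {x y : X} (h : Q Ψ x y) : R Ψ x y := by
  obtain ⟨U, hU, hx, hy⟩ := h
  exact R_of_sat hU hx hy

theorem Q.split {x y : X} (h : Q Ψ x y) {p : E} (hp : p ∈ segment ℝ (Ψ x) (Ψ y)) :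
    ∃ m, Ψ m = p ∧ R Ψ x m ∧ R Ψ m y := by
  obtain ⟨U, hU, hx, hy⟩ := h
  have him : ∀ z ∈ Sat Ψ U, Ψ z ∈ Ψ '' U := by
    rintro z ⟨z', hz', hj⟩
    exact ⟨z', hz', (show Ψ z = Ψ z' from hj.right).symm⟩
  obtain ⟨m, hm, e⟩ := hU.convex.segment_subset (him x hx) (him y hy) hp
  exact ⟨m, e, R_of_sat hU hx (subset_sat hm), R_of_sat hU (subset_sat hm) hy⟩

theorem sat_nhds_step (hc : Continuous Ψ) {U V : Set X} (hV : LocConv Ψ V) {u v : X} (hu : u ∈ V)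
    (hv : v ∈ V) (e : Ψ u = Ψ v) (h : Sat Ψ U ∈ 𝓝 u) : Sat Ψ U ∈ 𝓝 v := by
  have h1 := eventually_nhdsWithin_iff.1 (hV.opn u hu _ h)
  rw [e] at h1
  have h2 := (hc.tendsto v).eventually h1
  filter_upwards [h2, hV.isOpen.mem_nhds hv] with w hw hwV
  obtain ⟨w', ⟨hw1, hw2⟩, e'⟩ := hw (mem_image_of_mem _ hwV)
  exact sat_of_fib hw1 (fib_of_mem hV hw2 hwV e')

theorem sat_nhds (hc : Continuous Ψ) {D : Set E} (hl : ∀ x, Ψ x ∈ D → ∃ U, x ∈ U ∧ LocConv Ψ U)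
    {U : Set X} (hU : IsOpen U) {y : X} (hy : y ∈ Sat Ψ U) (hD : Ψ y ∈ D) : Sat Ψ U ∈ 𝓝 y := by
  obtain ⟨y', hy', S, hS, h1, h2, h3⟩ := hy
  have hv : ∀ s ∈ S, Ψ s = Ψ y' := fun s hs => h3 (mem_image_of_mem _ hs)
  refine hS.induction₂' (fun u v => Sat Ψ U ∈ 𝓝 u → Sat Ψ U ∈ 𝓝 v) ?_ ?_ h1 h2
    (mem_of_superset (hU.mem_nhds hy') subset_sat)
  · intro u hu
    obtain ⟨V, huV, hV⟩ := hl u (by rw [hv u hu, ← hv y h2]; exact hD)
    filter_upwards [mem_nhdsWithin_of_mem_nhds (hV.isOpen.mem_nhds huV), self_mem_nhdsWithin]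
      with v hvV hvS
    have e : Ψ u = Ψ v := by rw [hv u hu, hv v hvS]
    exact ⟨sat_nhds_step hc hV huV hvV e, sat_nhds_step hc hV hvV huV e.symm⟩
  · intro x y z _ _ _ h h' hx
    exact h' (h hx)

theorem local_sep [T2Space X] (hc : Continuous Ψ) {D : Set E} (hK : IsCompact (Ψ ⁻¹' D))
    (hl : ∀ x, Ψ x ∈ D → ∃ U, x ∈ U ∧ LocConv Ψ U) {z : X} (hz : Ψ z ∈ D) :
    ∃ η > 0, ∃ O ∈ 𝓝 z, ∃ U, LocConv Ψ U ∧ ∀ w ∈ O, ∀ y,
      J Ψ (D ∩ Metric.ball (Ψ z) η) w y → y ∈ Sat Ψ U := by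
  obtain ⟨U, hzU, hU⟩ := hl z hz
  have hKc : IsClosed (Ψ ⁻¹' {Ψ z}) := isClosed_singleton.preimage hc
  have hKs : Ψ ⁻¹' {Ψ z} ⊆ Ψ ⁻¹' D := by
    intro x hx
    have : Ψ x = Ψ z := hx
    simpa [this] using hz
  have hK' : IsCompact (Ψ ⁻¹' {Ψ z}) := hK.of_isClosed_subset hKc hKs
  have hF : IsClosed (Ψ ⁻¹' {Ψ z} ∩ interior (Sat Ψ U)) := by
    rw [← closure_subset_iff_isClosed]
    intro y hy
    have hyK : y ∈ Ψ ⁻¹' {Ψ z} := hKc.closure_subset_iff.2 inter_subset_left hy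
    refine ⟨hyK, ?_⟩
    obtain ⟨V, hyV, hV⟩ := hl y (hKs hyK)
    obtain ⟨f, hfV, hfK, hf⟩ := mem_closure_iff.1 hy V hV.isOpen hyV
    rw [mem_interior_iff_mem_nhds] at hf ⊢
    exact sat_nhds_step hc hV hfV hyV ((show Ψ f = Ψ z from hfK).trans (show Ψ y = Ψ z from hyK).symm) hf
  have hG : IsClosed (Ψ ⁻¹' {Ψ z} \ interior (Sat Ψ U)) := hKc.sdiff isOpen_interior
  obtain ⟨O₁, O₂, h₁, h₂, hs₁, hs₂, hd⟩ := SeparatedNhds.of_isCompact_isCompact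
    (hK'.of_isClosed_subset hF inter_subset_left) (hK'.of_isClosed_subset hG sdiff_subset)
    (disjoint_sdiff_right.mono_left inter_subset_right)
  set O := O₁ ∩ interior (Sat Ψ U) with hO
  have hOo : IsOpen O := h₁.inter isOpen_interior
  have hC : IsClosed (Ψ '' (Ψ ⁻¹' D \ (O ∪ O₂))) :=
    ((hK.diff (hOo.union h₂)).image hc).isClosed
  have hzC : Ψ z ∈ (Ψ '' (Ψ ⁻¹' D \ (O ∪ O₂)))ᶜ := by
    rintro ⟨x, ⟨-, hx⟩, e⟩
    apply hx
    by_cases hi : x ∈ interior (Sat Ψ U)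
    · exact Or.inl ⟨hs₁ ⟨e, hi⟩, hi⟩
    · exact Or.inr (hs₂ ⟨e, hi⟩)
  obtain ⟨η, hη, hb⟩ := Metric.mem_nhds_iff.1 (hC.isOpen_compl.mem_nhds hzC)
  have hzi : z ∈ interior (Sat Ψ U) :=
    mem_interior_iff_mem_nhds.2 (mem_of_superset (hU.isOpen.mem_nhds hzU) subset_sat)
  refine ⟨η, hη, O, hOo.mem_nhds ⟨hs₁ ⟨rfl, hzi⟩, hzi⟩, U, hU, ?_⟩
  rintro w hw y ⟨S, hS, hwS, hyS, hB⟩
  have hsub : S ⊆ O ∪ O₂ := by
    intro s hs
    by_contra hn
    have := hB (mem_image_of_mem _ hs)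
    exact hb this.2 ⟨s, ⟨this.1, hn⟩, rfl⟩
  have := hS.subset_left_of_subset_union hOo h₂ (hd.mono_left inter_subset_left) hsub ⟨w, hwS, hw⟩
  exact interior_subset (this hyS).2

theorem uniform [T2Space X] (hc : Continuous Ψ) {D : Set E} (hK : IsCompact (Ψ ⁻¹' D))
    (hl : ∀ x, Ψ x ∈ D → ∃ U, x ∈ U ∧ LocConv Ψ U) :
    ∃ ε > 0, ∀ w y z, J Ψ (D ∩ Metric.ball (Ψ w) ε) w y → J Ψ (D ∩ Metric.ball (Ψ w) ε) w z →
      Q Ψ y z := by
  have : ∃ ε > 0, ∀ w ∈ Ψ ⁻¹' D, ∀ y z, J Ψ (D ∩ Metric.ball (Ψ w) ε) w y →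
      J Ψ (D ∩ Metric.ball (Ψ w) ε) w z → Q Ψ y z := by
    refine hK.induction_on (p := fun s => ∃ ε > 0, ∀ w ∈ s, ∀ y z,
      J Ψ (D ∩ Metric.ball (Ψ w) ε) w y → J Ψ (D ∩ Metric.ball (Ψ w) ε) w z → Q Ψ y z)
      ⟨1, one_pos, by simp⟩ ?_ ?_ ?_
    · rintro s t hst ⟨ε, hε, h⟩
      exact ⟨ε, hε, fun w hw => h w (hst hw)⟩
    · rintro s t ⟨ε, hε, h⟩ ⟨ε', hε', h'⟩
      refine ⟨min ε ε', lt_min hε hε', ?_⟩
      rintro w (hw | hw) y z hy hz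
      · have hs := inter_subset_inter_right D (Metric.ball_subset_ball (x := Ψ w) (min_le_left ε ε'))
        exact h w hw y z (hy.mono hs) (hz.mono hs)
      · have hs := inter_subset_inter_right D (Metric.ball_subset_ball (x := Ψ w) (min_le_right ε ε'))
        exact h' w hw y z (hy.mono hs) (hz.mono hs)
    · intro x hx
      obtain ⟨η, hη, O, hO, U, hU, h⟩ := local_sep hc hK hl hx
      refine ⟨O ∩ Ψ ⁻¹' Metric.ball (Ψ x) (η / 2), mem_nhdsWithin_of_mem_nhds (inter_mem hO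
        (hc.continuousAt.preimage_mem_nhds (Metric.ball_mem_nhds _ (half_pos hη)))), η / 2,
        half_pos hη, ?_⟩
      rintro w ⟨hw, hw'⟩ y z hy hz
      have hs : D ∩ Metric.ball (Ψ w) (η / 2) ⊆ D ∩ Metric.ball (Ψ x) η := by
        refine inter_subset_inter_right D (Metric.ball_subset_ball' ?_)
        have : dist (Ψ w) (Ψ x) < η / 2 := hw'
        linarith
      exact ⟨U, hU, h w hw y (hy.mono hs), h w hw z (hz.mono hs)⟩
  obtain ⟨ε, hε, h⟩ := this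
  exact ⟨ε, hε, fun w y z hy hz => h w hy.left.1 y z hy hz⟩

/-- a short step -/
def Step (Ψ : X → E) (D : Set E) (δ : ℝ) (x y : X) : Prop :=
  Ψ x ∈ D ∧ Ψ y ∈ D ∧ R Ψ x y ∧ dist (Ψ x) (Ψ y) ≤ δ

theorem isClosed_step [T2Space X] (hc : Continuous Ψ) {D : Set E} (hD : Convex ℝ D)
    (hK : IsCompact (Ψ ⁻¹' D)) (hl : ∀ x, Ψ x ∈ D → ∃ U, x ∈ U ∧ LocConv Ψ U) {δ : ℝ} (hδ : 0 < δ)
    (hu : ∀ w y z, J Ψ (D ∩ Metric.ball (Ψ w) (2 * δ)) w y →
      J Ψ (D ∩ Metric.ball (Ψ w) (2 * δ)) w z → Q Ψ y z) :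
    IsClosed {q : X × X | Step Ψ D δ q.1 q.2} := by
  rw [← closure_subset_iff_isClosed]
  rintro ⟨x, y⟩ hq
  have h1 : IsClosed {q : X × X | Ψ q.1 ∈ D ∧ Ψ q.2 ∈ D ∧ dist (Ψ q.1) (Ψ q.2) ≤ δ} :=
    (hK.isClosed.preimage continuous_fst).inter ((hK.isClosed.preimage continuous_snd).inter
      (isClosed_le ((hc.comp continuous_fst).dist (hc.comp continuous_snd)) continuous_const))
  obtain ⟨hx, hy, hxy⟩ := h1.closure_subset_iff.2 (fun q hq => ⟨hq.1, hq.2.1, hq.2.2.2⟩) hq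
  refine ⟨hx, hy, ?_, hxy⟩
  obtain ⟨U, hxU, hU⟩ := hl x hx
  obtain ⟨V, hyV, hV⟩ := hl y hy
  have ho : IsOpen ((U ∩ Ψ ⁻¹' Metric.ball (Ψ x) δ) ×ˢ V) :=
    (hU.isOpen.inter (Metric.isOpen_ball.preimage hc)).prod hV.isOpen
  obtain ⟨⟨x', y'⟩, ⟨⟨hx', hx''⟩, hy'⟩, hs⟩ :=
    mem_closure_iff.1 hq _ ho ⟨⟨hxU, Metric.mem_ball_self hδ⟩, hyV⟩
  obtain ⟨hx'D, hy'D, hR, hd⟩ := hs
  have hB : Convex ℝ (D ∩ Metric.ball (Ψ x) (2 * δ)) := hD.inter (convex_ball _ _)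
  have d1 : dist (Ψ x') (Ψ x) < δ := hx''
  have m0 : Ψ x ∈ D ∩ Metric.ball (Ψ x) (2 * δ) := ⟨hx, Metric.mem_ball_self (by linarith)⟩
  have m1 : Ψ x' ∈ D ∩ Metric.ball (Ψ x) (2 * δ) := ⟨hx'D, by
    rw [Metric.mem_ball]; linarith⟩
  have m2 : Ψ y' ∈ D ∩ Metric.ball (Ψ x) (2 * δ) := ⟨hy'D, by
    rw [Metric.mem_ball]
    have := dist_triangle (Ψ y') (Ψ x') (Ψ x)
    rw [dist_comm (Ψ y') (Ψ x')] at this
    dsimp only at hd
    linarith⟩
  have m3 : Ψ y ∈ D ∩ Metric.ball (Ψ x) (2 * δ) := ⟨hy, by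
    rw [Metric.mem_ball, dist_comm]
    dsimp only at hxy
    linarith⟩
  exact (hu x x y (J.refl m0) ((((R.of_mem hU hxU hx').toJ hB m0 m1).trans (hR.toJ hB m1 m2)).trans
    ((R.of_mem hV hy' hyV).toJ hB m2 m3))).toR

theorem exists_chain (hc : Continuous Ψ) {D : Set E}
    (hl : ∀ x, Ψ x ∈ D → ∃ U, x ∈ U ∧ LocConv Ψ U) {δ : ℝ} (hδ : 0 < δ) {a b : X}
    (h : J Ψ D a b) : ∃ (n : ℕ) (c : ℕ → X), c 0 = a ∧ c n = b ∧ (∀ i, Ψ (c i) ∈ D) ∧
      ∀ i < n, Step Ψ D δ (c i) (c (i + 1)) := by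
  have ha := h.left
  obtain ⟨S, hS, haS, hbS, hB⟩ := h
  have h1 : Relation.ReflTransGen (Step Ψ D δ) a b := by
    refine hS.induction₂' (Relation.ReflTransGen (Step Ψ D δ)) ?_ ?_ haS hbS
    · intro u hu
      have huD := hB (mem_image_of_mem _ hu)
      obtain ⟨V, huV, hV⟩ := hl u huD
      filter_upwards [mem_nhdsWithin_of_mem_nhds (hV.isOpen.mem_nhds huV), self_mem_nhdsWithin,
        mem_nhdsWithin_of_mem_nhds
          (hc.continuousAt.preimage_mem_nhds (Metric.closedBall_mem_nhds (Ψ u) hδ))]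
        with v hvV hvS hv
      have hvD := hB (mem_image_of_mem _ hvS)
      have hd : dist (Ψ v) (Ψ u) ≤ δ := hv
      exact ⟨.single ⟨huD, hvD, R.of_mem hV huV hvV, by rwa [dist_comm]⟩,
        .single ⟨hvD, huD, R.of_mem hV hvV huV, hd⟩⟩
    · intro x y z _ _ _ h h'
      exact h.trans h'
  clear hbS
  induction h1 with
  | refl => exact ⟨0, fun _ => a, rfl, rfl, fun _ => ha, by simp⟩
  | @tail y z _ hs ih =>
    obtain ⟨n, c, h0, hn, hD, hst⟩ := ih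
    refine ⟨n + 1, fun i => if i ≤ n then c i else z, by simpa using h0, by simp, ?_, ?_⟩
    · intro i
      dsimp only
      split_ifs
      · exact hD i
      · exact hs.2.1
    · intro i hi
      dsimp only
      rcases Nat.lt_succ_iff_lt_or_eq.1 hi with h' | rfl
      · rw [if_pos h'.le, if_pos (Nat.succ_le_of_lt h')]
        exact hst i h'
      · rw [if_pos le_rfl, if_neg (by omega), hn]
        exact hs

end basic

theorem straight {X E : Type} [TopologicalSpace X] [T2Space X] [NormedAddCommGroup E]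
    [InnerProductSpace ℝ E] {Ψ : X → E} (hc : Continuous Ψ) {D : Set E} (hD : Convex ℝ D)
    (hK : IsCompact (Ψ ⁻¹' D)) (hl : ∀ x, Ψ x ∈ D → ∃ U, x ∈ U ∧ LocConv Ψ U) {a b : X}
    (h : J Ψ D a b) : R Ψ a b := by
  obtain ⟨ε, hε, hu⟩ := uniform hc hK hl
  obtain ⟨δ, rfl⟩ : ∃ δ, ε = 2 * δ := ⟨ε / 2, by ring⟩
  have hδ : 0 < δ := by linarith
  obtain ⟨n, c₀, hc₀⟩ := exists_chain hc hl hδ h
  set C : Set (ℕ → X) := {c | c 0 = a ∧ c n = b ∧ (∀ i, Ψ (c i) ∈ D) ∧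
    ∀ i < n, Step Ψ D δ (c i) (c (i + 1))} with hC
  have hcl := isClosed_step hc hD hK hl hδ hu
  have hCc : IsCompact C := by
    refine (isCompact_univ_pi fun _ : ℕ => hK).of_isClosed_subset ?_ (fun c hc i _ => hc.2.2.1 i)
    refine (isClosed_eq (continuous_apply 0) continuous_const).inter
      ((isClosed_eq (continuous_apply n) continuous_const).inter (IsClosed.inter ?_ ?_))
    · show IsClosed {c : ℕ → X | ∀ i, Ψ (c i) ∈ D}
      rw [ofPred_forall]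
      exact isClosed_iInter fun i => hK.isClosed.preimage (f := fun c : ℕ → X => c i) (continuous_apply i)
    · show IsClosed {c : ℕ → X | ∀ i < n, Step Ψ D δ (c i) (c (i + 1))}
      simp only [ofPred_forall]
      exact isClosed_iInter fun i => isClosed_iInter fun _ =>
        hcl.preimage (f := fun c : ℕ → X => (c i, c (i + 1))) (by fun_prop)
  set en : (ℕ → X) → ℝ := fun c => ∑ i ∈ Finset.range n, ‖Ψ (c (i + 1)) - Ψ (c i)‖ ^ 2 with hen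
  have henc : Continuous en := by
    refine continuous_finsetSum _ fun i _ => ?_
    have h1 := hc.comp (continuous_apply (A := fun _ : ℕ => X) (i + 1))
    have h2 := hc.comp (continuous_apply (A := fun _ : ℕ => X) i)
    exact (h1.sub h2).norm.pow 2
  obtain ⟨c, ⟨h0, hn, hcD, hst⟩, hmin⟩ := hCc.exists_isMinOn ⟨c₀, hc₀⟩ henc.continuousOn
  have hap : ∀ i, i + 1 < n → Ψ (c (i + 2)) - Ψ (c (i + 1)) = Ψ (c (i + 1)) - Ψ (c i) := by
    intro i hi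
    obtain ⟨-, -, r1, d1⟩ := hst i (by omega)
    obtain ⟨-, -, r2, d2⟩ := hst (i + 1) hi
    have hB : Convex ℝ (D ∩ Metric.ball (Ψ (c (i + 1))) (2 * δ)) := hD.inter (convex_ball _ _)
    have m1 : Ψ (c (i + 1)) ∈ D ∩ Metric.ball (Ψ (c (i + 1))) (2 * δ) :=
      ⟨hcD _, Metric.mem_ball_self hε⟩
    have hq := hu (c (i + 1)) (c i) (c (i + 2))
      (r1.symm.toJ hB m1 ⟨hcD _, by rw [Metric.mem_ball]; linarith⟩)
      (r2.toJ hB m1 ⟨hcD _, by rw [Metric.mem_ball, dist_comm]; linarith⟩)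
    obtain ⟨m, hm, s1, s2⟩ := hq.split (midpoint_mem_segment (𝕜 := ℝ) _ _)
    have hmD : Ψ m ∈ D := by
      rw [hm]
      exact hD.segment_subset (hcD _) (hcD _) (midpoint_mem_segment _ _)
    have dd : dist (Ψ (c i)) (Ψ (c (i + 2))) ≤ 2 * δ := by
      have := dist_triangle (Ψ (c i)) (Ψ (c (i + 1))) (Ψ (c (i + 2)))
      linarith
    set c' : ℕ → X := fun j => if j = i + 1 then m else c j with hc'
    have e0 : c' i = c i := by simp [hc']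
    have e1 : c' (i + 1) = m := by simp [hc']
    have e2 : c' (i + 2) = c (i + 2) := by simp [hc']
    have eo : ∀ j, j ≠ i + 1 → c' j = c j := fun j hj => by simp [hc', hj]
    have hmem : c' ∈ C := by
      refine ⟨by rw [eo 0 (by omega), h0], by rw [eo n (by omega), hn], ?_, ?_⟩
      · intro j
        by_cases hj : j = i + 1
        · rw [hj, e1]; exact hmD
        · rw [eo j hj]; exact hcD j
      · intro j hj
        by_cases h1 : j = i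
        · rw [h1, e0, e1]
          refine ⟨hcD _, hmD, s1, ?_⟩
          rw [hm, dist_left_midpoint]
          simp only [Real.norm_ofNat]
          linarith
        by_cases h2 : j = i + 1
        · rw [h2, e1, e2]
          refine ⟨hmD, hcD _, s2, ?_⟩
          rw [hm, dist_midpoint_right]
          simp only [Real.norm_ofNat]
          linarith
        · rw [eo j h2, eo (j + 1) (by omega)]
          exact hst j hj
    have hle : en c ≤ en c' := hmin hmem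
    have hsp : ∀ f : ℕ → ℝ, ∑ j ∈ Finset.range n, f j =
        f i + f (i + 1) + ∑ j ∈ ((Finset.range n).erase i).erase (i + 1), f j := by
      intro f
      rw [add_assoc, Finset.add_sum_erase _ _ (by simp; omega),
        Finset.add_sum_erase _ _ (by simp; omega)]
    simp only [hen] at hle
    rw [hsp, hsp fun j => ‖Ψ (c' (j + 1)) - Ψ (c' j)‖ ^ 2] at hle
    have hrest : ∑ j ∈ ((Finset.range n).erase i).erase (i + 1), ‖Ψ (c' (j + 1)) - Ψ (c' j)‖ ^ 2 =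
        ∑ j ∈ ((Finset.range n).erase i).erase (i + 1), ‖Ψ (c (j + 1)) - Ψ (c j)‖ ^ 2 := by
      refine Finset.sum_congr rfl fun j hj => ?_
      simp only [Finset.mem_erase] at hj
      rw [eo j hj.1, eo (j + 1) (by omega)]
    rw [hrest, e0, e1, show i + 1 + 1 = i + 2 from rfl, e2, hm] at hle
    set u := Ψ (c (i + 1)) - Ψ (c i) with hu'
    set v := Ψ (c (i + 2)) - Ψ (c (i + 1)) with hv'
    have f1 : midpoint ℝ (Ψ (c i)) (Ψ (c (i + 2))) - Ψ (c i) = (1 / 2 : ℝ) • (u + v) := by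
      rw [hu', hv', midpoint_eq_smul_add]
      simp only [invOf_eq_inv]
      module
    have f2 : Ψ (c (i + 2)) - midpoint ℝ (Ψ (c i)) (Ψ (c (i + 2))) = (1 / 2 : ℝ) • (u + v) := by
      rw [hu', hv', midpoint_eq_smul_add]
      simp only [invOf_eq_inv]
      module
    rw [f1, f2, norm_smul] at hle
    have hp := parallelogram_law_with_norm ℝ u v
    have hz : ‖u - v‖ ^ 2 ≤ 0 := by
      have : ‖(1 / 2 : ℝ)‖ = 1 / 2 := by norm_num
      rw [this] at hle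
      nlinarith
    have : ‖u - v‖ = 0 := by
      have := norm_nonneg (u - v)
      nlinarith
    exact (sub_eq_zero.1 (norm_eq_zero.1 this)).symm
  have hlin : ∀ i, i < n → Ψ (c (i + 1)) - Ψ (c i) = Ψ (c 1) - Ψ (c 0) := by
    intro i
    induction i with
    | zero => intro _; rfl
    | succ k ih => intro hk; rw [hap k hk, ih (by omega)]
  have hval : ∀ i, i ≤ n → Ψ (c i) = Ψ (c 0) + (i : ℝ) • (Ψ (c 1) - Ψ (c 0)) := by
    intro i
    induction i with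
    | zero => intro _; simp
    | succ k ih =>
      intro hk
      have := hlin k (by omega)
      rw [sub_eq_iff_eq_add.1 this, ih (by omega)]
      push_cast
      module
  have hR : ∀ i, i ≤ n → R Ψ (c 0) (c i) := by
    intro i
    induction i with
    | zero => intro _; exact J.refl (left_mem_segment _ _ _)
    | succ k ih =>
      intro hk
      refine (ih (by omega)).glue (hst k (by omega)).2.2.1 ?_
      have hk1 : (0 : ℝ) < (k : ℝ) + 1 := by positivity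
      refine ⟨1 / ((k : ℝ) + 1), k / ((k : ℝ) + 1), by positivity, by positivity,
        by field_simp; ring, ?_⟩
      rw [hval (k + 1) hk, hval k (by omega)]
      push_cast
      match_scalars <;> (field_simp; try ring)
  rw [← h0, ← hn]
  exact hR n le_rfl

end LG

theorem local_global {X E : Type} [TopologicalSpace X] [TopologicalSpace.MetrizableSpace X]
    [NormedAddCommGroup E] [InnerProductSpace ℝ E] [FiniteDimensional ℝ E] {Ψ : X → E}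
    (hc : Continuous Ψ) {D : Set E} (hD : Convex ℝ D)
    (hp : ∀ D' ⊆ D, IsCompact D' → IsCompact (Ψ ⁻¹' D'))
    (hl : ∀ x, Ψ x ∈ D → ∃ U, x ∈ U ∧ LocConv Ψ U) {a b : X}
    (hab : b ∈ connectedComponentIn (Ψ ⁻¹' D) a) :
    ∃ S, IsPreconnected S ∧ a ∈ S ∧ b ∈ S ∧ Ψ '' S ⊆ segment ℝ (Ψ a) (Ψ b) := by
  have ha : a ∈ Ψ ⁻¹' D := connectedComponentIn_nonempty_iff.1 ⟨b, hab⟩
  have hsub := connectedComponentIn_subset (Ψ ⁻¹' D) a
  have h1 : ∃ F : Set E, F.Finite ∧ F ⊆ D ∧ LG.J Ψ (convexHull ℝ F) a b := by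
    refine isPreconnected_connectedComponentIn.induction₂'
      (fun x y => ∃ F : Set E, F.Finite ∧ F ⊆ D ∧ LG.J Ψ (convexHull ℝ F) x y) ?_ ?_
      (mem_connectedComponentIn ha) hab
    · intro u hu
      obtain ⟨V, huV, hV⟩ := hl u (hsub hu)
      filter_upwards [mem_nhdsWithin_of_mem_nhds (hV.isOpen.mem_nhds huV), self_mem_nhdsWithin]
        with v hvV hvS
      have hj : LG.J Ψ (convexHull ℝ {Ψ u, Ψ v}) u v := by
        rw [convexHull_pair]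
        exact LG.R.of_mem hV huV hvV
      have hs : ({Ψ u, Ψ v} : Set E) ⊆ D := pair_subset (hsub hu) (hsub hvS)
      exact ⟨⟨_, toFinite _, hs, hj⟩, ⟨_, toFinite _, hs, hj.symm⟩⟩
    · rintro x y z - - - ⟨F, hF, hFD, hj⟩ ⟨F', hF', hFD', hj'⟩
      exact ⟨F ∪ F', hF.union hF', union_subset hFD hFD',
        (hj.mono (convexHull_mono subset_union_left)).trans
          (hj'.mono (convexHull_mono subset_union_right))⟩
  obtain ⟨F, hF, hFD, hj⟩ := h1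
  have hs : convexHull ℝ F ⊆ D := convexHull_min hFD hD
  exact LG.straight hc (convex_convexHull ℝ F) (hp _ hs (hF.isCompact_convexHull ℝ))
    (fun x hx => hl x (hs hx)) hj

end Pool.Agent.Lib.MP_d52947_gt
end
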