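import Mathlib

namespace Pool.Agent.Lib.MP_d52947_gt

open Filter Topology MeasureTheory Module
open scoped RealInnerProductSpace

namespace Moser

open Set Metric

theorem flow {V : Type} [NormedAddCommGroup V] [NormedSpace ℝ V] [CompleteSpace V]
    (Y : ℝ → V → V) {a : ℝ} (ha : 0 < a)
    (hL : ∀ t ∈ Icc (0 : ℝ) 1, ∀ x ∈ closedBall (0 : V) a, ∀ y ∈ closedBall (0 : V) a,
      ‖Y t x - Y t y‖ ≤ 1 / 4 * ‖x - y‖)
    (hc : ∀ x ∈ closedBall (0 : V) a, ContinuousOn (fun t => Y t x) (Icc 0 1))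
    (h0 : ∀ t ∈ Icc (0 : ℝ) 1, Y t 0 = 0) :
    ∃ α : V → ℝ → V, (∀ x ∈ closedBall (0 : V) (a / 2), α x 0 = x ∧
      (∀ t, α x t ∈ closedBall (0 : V) a) ∧
      ∀ t ∈ Icc (0 : ℝ) 1, HasDerivWithinAt (α x) (Y t (α x t)) (Icc 0 1) t) ∧ α 0 1 = 0 ∧
      ∀ x ∈ closedBall (0 : V) (a / 2), ∀ y ∈ closedBall (0 : V) (a / 2),
        ‖α x 1 - α y 1 - (x - y)‖ ≤ 1 / 2 * ‖x - y‖ := by
  classical
  have hpl : IsPicardLindelof Y (tmin := 0) (tmax := 1) ⟨0, by simp⟩ (0 : V) (NNReal.mk a ha.le)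
      (NNReal.mk (a / 2) (by positivity)) (NNReal.mk (a / 4) (by positivity)) (1 / 4) := by
    refine ⟨fun t ht => ?_, hc, fun t ht x hx => ?_, ?_⟩
    · refine LipschitzOnWith.of_dist_le_mul fun x hx y hy => ?_
      rw [dist_eq_norm, dist_eq_norm]
      simpa using hL t ht x hx y hy
    · have h1 := hL t ht x hx 0 (mem_closedBall_self ha.le)
      rw [h0 t ht, sub_zero, sub_zero] at h1
      have h2 : ‖x‖ ≤ a := mem_closedBall_zero_iff.1 hx
      change ‖Y t x‖ ≤ a / 4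
      linarith
    · change a / 4 * max (1 - 0) (0 - 0) ≤ a - a / 2
      norm_num
      linarith
  have key : ∀ x ∈ closedBall (0 : V) (a / 2), ∃ β : ℝ → V, β 0 = x ∧
      (∀ t, β t ∈ closedBall (0 : V) a) ∧
      ∀ t ∈ Icc (0 : ℝ) 1, HasDerivWithinAt β (Y t (β t)) (Icc 0 1) t := by
    intro x hx
    obtain ⟨β, hβ⟩ := ODE.FunSpace.exists_isFixedPt_next hpl (x := x) hx
    refine ⟨β.compProj, ?_, fun t => β.compProj_mem_closedBall hpl.mul_max_le, fun t ht => ?_⟩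
    · have := ODE.FunSpace.compProj_val (α := β) (t := ⟨0, by simp⟩)
      refine this.trans ?_
      rw [← hβ]
      exact ODE.FunSpace.next_apply₀ hpl hx β
    · apply ODE.hasDerivWithinAt_picard_Icc (t₀ := 0) (by simp) hpl.continuousOn_uncurry
        β.continuous_compProj.continuousOn
        (fun _ _ => β.compProj_mem_closedBall hpl.mul_max_le) x ht |>.congr_of_mem _ ht
      intro t' ht'
      nth_rw 1 [← hβ]
      rw [ODE.FunSpace.compProj_of_mem ht']
      rfl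
  choose! α hα using key
  have hder : ∀ x ∈ closedBall (0 : V) (a / 2), ∀ t ∈ Ico (0 : ℝ) 1,
      HasDerivWithinAt (α x) (Y t (α x t)) (Ici t) t := fun x hx t ht =>
    ((hα x hx).2.2 t (Ico_subset_Icc_self ht)).mono_of_mem_nhdsWithin
      (Icc_mem_nhdsGE_of_mem ht)
  have hcont : ∀ x ∈ closedBall (0 : V) (a / 2), ContinuousOn (α x) (Icc 0 1) := fun x hx =>
    HasDerivWithinAt.continuousOn (hα x hx).2.2
  have h00 : (0 : V) ∈ closedBall (0 : V) (a / 2) := mem_closedBall_self (by positivity)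
  refine ⟨α, hα, ?_, fun x hx y hy => ?_⟩
  · refine eq_zero_of_abs_deriv_le_mul_abs_self_of_eq_zero_right (K := 1 / 4) (hcont 0 h00)
      (hder 0 h00) (hα 0 h00).1 (fun t ht => ?_) 1 (by simp)
    have h1 := hL t (Ico_subset_Icc_self ht) _ ((hα 0 h00).2.1 t) 0 (mem_closedBall_self ha.le)
    rwa [h0 t (Ico_subset_Icc_self ht), sub_zero, sub_zero] at h1
  · have hg := norm_le_gronwallBound_of_norm_deriv_right_le
      (f := fun t => α x t - α y t - (x - y)) (f' := fun t => Y t (α x t) - Y t (α y t))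
      (δ := 0) (K := 1 / 4) (ε := 1 / 4 * ‖x - y‖) (a := 0) (b := 1)
      (((hcont x hx).sub (hcont y hy)).sub continuousOn_const)
      (fun t ht => ((hder x hx t ht).sub (hder y hy t ht)).sub_const _)
      (by simp [(hα x hx).1, (hα y hy).1])
      (fun t ht => by
        have h1 := hL t (Ico_subset_Icc_self ht) _ ((hα x hx).2.1 t) _ ((hα y hy).2.1 t)
        have h2 : ‖α x t - α y t‖ ≤ ‖α x t - α y t - (x - y)‖ + ‖x - y‖ := by
          simpa using norm_add_le (α x t - α y t - (x - y)) (x - y)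
        linarith) 1 (by simp)
    refine hg.trans ?_
    rw [gronwallBound_of_K_ne_0 (by norm_num)]
    have he : Real.exp (1 / 4) ≤ 3 / 2 := by
      have h1 := Real.add_one_le_exp (-(1 / 4))
      have h2 : Real.exp (1 / 4) * Real.exp (-(1 / 4)) = 1 := by
        rw [← Real.exp_add]; simp
      have h3 := Real.exp_pos (1 / 4)
      nlinarith
    have hn := norm_nonneg (x - y)
    simp only [sub_zero, mul_one, zero_mul, zero_add]
    have : 1 / 4 * ‖x - y‖ / (1 / 4) = ‖x - y‖ := by field_simp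
    rw [this]
    nlinarith

theorem homeo {V : Type} [NormedAddCommGroup V] [NormedSpace ℝ V] [CompleteSpace V]
    (f : V → V) {s : Set V} (hs : IsOpen s)
    (h : ∀ x ∈ s, ∀ y ∈ s, ‖f x - f y - (x - y)‖ ≤ 1 / 2 * ‖x - y‖) :
    ∃ φ : OpenPartialHomeomorph V V, φ.source = s ∧ (∀ x, φ x = f x) ∧
      LipschitzOnWith 2 φ φ.source ∧ LipschitzOnWith 2 φ.symm φ.target := by
  have hf : ApproximatesLinearOn f
      ((ContinuousLinearEquiv.refl ℝ V : V ≃L[ℝ] V) : V →L[ℝ] V) s (1 / 2) := by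
    intro x hx y hy
    simpa using h x hx y hy
  have hc : Subsingleton V ∨ (1 / 2 : NNReal) <
      ‖((ContinuousLinearEquiv.refl ℝ V : V ≃L[ℝ] V).symm : V →L[ℝ] V)‖₊⁻¹ := by
    rcases subsingleton_or_nontrivial V with h1 | h1
    · exact Or.inl h1
    · right
      have : ‖((ContinuousLinearEquiv.refl ℝ V : V ≃L[ℝ] V).symm : V →L[ℝ] V)‖₊ = 1 := by
        simp
      rw [this]
      norm_num
  refine ⟨hf.toOpenPartialHomeomorph f s hc hs, rfl, fun _ => rfl, ?_, ?_⟩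
  · refine LipschitzOnWith.of_dist_le_mul fun x hx y hy => ?_
    rw [dist_eq_norm, dist_eq_norm]
    have h1 := h x hx y hy
    have h2 : ‖f x - f y‖ ≤ ‖f x - f y - (x - y)‖ + ‖x - y‖ := by
      simpa using norm_add_le (f x - f y - (x - y)) (x - y)
    have h3 := norm_nonneg (x - y)
    change ‖f x - f y‖ ≤ 2 * ‖x - y‖
    linarith
  · refine LipschitzOnWith.of_dist_le_mul fun x hx y hy => ?_
    set φ := hf.toOpenPartialHomeomorph f s hc hs
    have hx' := φ.map_target hx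
    have hy' := φ.map_target hy
    have h1 := h _ hx' _ hy'
    have e1 : f (φ.symm x) = x := φ.right_inv hx
    have e2 : f (φ.symm y) = y := φ.right_inv hy
    rw [e1, e2] at h1
    rw [dist_eq_norm, dist_eq_norm]
    have h2 : ‖φ.symm x - φ.symm y‖ ≤ ‖x - y‖ + ‖x - y - (φ.symm x - φ.symm y)‖ := by
      simpa using norm_sub_le (x - y) (x - y - (φ.symm x - φ.symm y))
    change ‖φ.symm x - φ.symm y‖ ≤ 2 * ‖x - y‖
    linarith

theorem solve {V W : Type} [NormedAddCommGroup V] [NormedSpace ℝ V] [FiniteDimensional ℝ V]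
    [NormedAddCommGroup W] [NormedSpace ℝ W]
    (hsj : ∀ M : V →L[ℝ] W, Function.Injective M → Function.Surjective M)
    (M0 : V →L[ℝ] W) (hM : Function.Injective M0) (N : V → V →L[ℝ] W) (c : V → W)
    {R C : ℝ} (hR : 0 < R) (hC : 0 < C)
    (hN : ∀ x ∈ closedBall (0 : V) R, ∀ y ∈ closedBall (0 : V) R, ‖N x - N y‖ ≤ C * ‖x - y‖)
    (hN0 : N 0 = 0)
    (hc : ∀ a ≤ R, ∀ x ∈ closedBall (0 : V) a, ∀ y ∈ closedBall (0 : V) a,
      ‖c x - c y‖ ≤ C * a * ‖x - y‖) (hc0 : c 0 = 0) :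
    ∃ a, 0 < a ∧ a ≤ R ∧ ∃ Y : ℝ → V → V,
      (∀ t ∈ Icc (0 : ℝ) 1, ∀ x ∈ closedBall (0 : V) a, M0 (Y t x) + t • N x (Y t x) = c x) ∧
      (∀ t ∈ Icc (0 : ℝ) 1, ∀ x ∈ closedBall (0 : V) a, ∀ y ∈ closedBall (0 : V) a,
        ‖Y t x - Y t y‖ ≤ 1 / 4 * ‖x - y‖) ∧
      (∀ x ∈ closedBall (0 : V) a, ContinuousOn (fun t => Y t x) (Icc 0 1)) ∧
      ∀ t ∈ Icc (0 : ℝ) 1, Y t 0 = 0 := by
  obtain ⟨m, hm, hmM⟩ : ∃ m : ℝ, 0 < m ∧ ∀ w, m * ‖w‖ ≤ ‖M0 w‖ := by
    obtain ⟨K, hK, hA⟩ := LinearMap.exists_antilipschitzWith (M0 : V →ₗ[ℝ] W)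
      (LinearMap.ker_eq_bot.2 hM)
    have hK' : (0 : ℝ) < K := hK
    refine ⟨(K : ℝ)⁻¹, inv_pos.2 hK', fun w => ?_⟩
    have h1 := hA.le_mul_dist w 0
    simp only [dist_zero_right, map_zero, ContinuousLinearMap.coe_coe] at h1
    rw [inv_mul_le_iff₀ hK']
    exact h1
  set a := min R (m / (16 * C)) with ha
  have ha0 : 0 < a := lt_min hR (by positivity)
  have haR : a ≤ R := min_le_left _ _
  have haC : C * a ≤ m / 16 := by
    have h1 : a ≤ m / (16 * C) := min_le_right _ _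
    calc C * a ≤ C * (m / (16 * C)) := by gcongr
      _ = m / 16 := by field_simp
  have hsub : closedBall (0 : V) a ⊆ closedBall 0 R := closedBall_subset_closedBall haR
  have h0a : (0 : V) ∈ closedBall (0 : V) a := mem_closedBall_self ha0.le
  have hNb : ∀ x ∈ closedBall (0 : V) a, ‖N x‖ ≤ m / 16 := fun x hx => by
    have h1 := hN x (hsub hx) 0 (hsub h0a)
    rw [hN0, sub_zero, sub_zero] at h1
    have h2 : ‖x‖ ≤ a := mem_closedBall_zero_iff.1 hx
    calc ‖N x‖ ≤ C * ‖x‖ := h1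
      _ ≤ C * a := by gcongr
      _ ≤ m / 16 := haC
  have hcb : ∀ x ∈ closedBall (0 : V) a, ‖c x‖ ≤ m / 16 * ‖x‖ := fun x hx => by
    have h1 := hc a haR x hx 0 h0a
    rw [hc0, sub_zero, sub_zero] at h1
    exact h1.trans (by gcongr)
  have hlow : ∀ t ∈ Icc (0 : ℝ) 1, ∀ x ∈ closedBall (0 : V) a, ∀ w,
      m / 2 * ‖w‖ ≤ ‖M0 w + t • N x w‖ := fun t ht x hx w => by
    have h1 := hmM w
    have h2 : ‖t • N x w‖ ≤ m / 16 * ‖w‖ := by
      rw [norm_smul, Real.norm_of_nonneg ht.1]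
      calc t * ‖N x w‖ ≤ 1 * (‖N x‖ * ‖w‖) := by
            gcongr
            · exact ht.2
            · exact (N x).le_opNorm w
        _ ≤ m / 16 * ‖w‖ := by rw [one_mul]; gcongr; exact hNb x hx
    have h3 : ‖M0 w‖ ≤ ‖M0 w + t • N x w‖ + ‖t • N x w‖ := by
      simpa using norm_sub_le (M0 w + t • N x w) (t • N x w)
    have h4 := norm_nonneg w
    nlinarith
  have hex : ∀ t ∈ Icc (0 : ℝ) 1, ∀ x ∈ closedBall (0 : V) a,
      ∃ w, M0 w + t • N x w = c x := fun t ht x hx => by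
    refine hsj (M0 + t • N x) ?_ (c x)
    rw [injective_iff_map_eq_zero]
    intro w hw
    have h1 := hlow t ht x hx w
    have h2 : M0 w + t • N x w = 0 := hw
    rw [h2, norm_zero] at h1
    have h3 : ‖w‖ ≤ 0 := by
      by_contra h
      push Not at h
      nlinarith
    exact norm_le_zero_iff.1 h3
  choose! Y hY using hex
  have hYb : ∀ t ∈ Icc (0 : ℝ) 1, ∀ x ∈ closedBall (0 : V) a, ‖Y t x‖ ≤ ‖x‖ :=
    fun t ht x hx => by
      have h1 := hlow t ht x hx (Y t x)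
      rw [hY t ht x hx] at h1
      have h2 := hcb x hx
      have h3 := norm_nonneg x
      nlinarith
  refine ⟨a, ha0, haR, Y, hY, fun t ht x hx y hy => ?_, fun x hx => ?_, fun t ht => ?_⟩
  · have h1 := hlow t ht x hx (Y t x - Y t y)
    have e : M0 (Y t x - Y t y) + t • N x (Y t x - Y t y)
        = (c x - c y) - t • (N x - N y) (Y t y) := by
      rw [← hY t ht x hx, ← hY t ht y hy]
      simp only [map_sub, sub_apply, smul_sub]
      abel
    rw [e] at h1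
    have h2 := hc a haR x hx y hy
    have h3 : ‖t • (N x - N y) (Y t y)‖ ≤ C * a * ‖x - y‖ := by
      rw [norm_smul, Real.norm_of_nonneg ht.1]
      have h4 : ‖Y t y‖ ≤ a := (hYb t ht y hy).trans (mem_closedBall_zero_iff.1 hy)
      calc t * ‖(N x - N y) (Y t y)‖ ≤ 1 * (‖N x - N y‖ * ‖Y t y‖) := by
            gcongr
            · exact ht.2
            · exact (N x - N y).le_opNorm _
        _ ≤ 1 * (C * ‖x - y‖ * a) := by
            gcongr
            exact hN x (hsub hx) y (hsub hy)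
        _ = C * a * ‖x - y‖ := by ring
    have h4 := norm_sub_le (c x - c y) (t • (N x - N y) (Y t y))
    have h5 : C * a * ‖x - y‖ ≤ m / 16 * ‖x - y‖ := by gcongr
    have h6 : m / 2 * ‖Y t x - Y t y‖ ≤ m / 2 * (1 / 4 * ‖x - y‖) := by linarith
    exact le_of_mul_le_mul_left h6 (by positivity)
  · refine (LipschitzOnWith.of_dist_le_mul (K := NNReal.mk a ha0.le)
      fun t ht s hs => ?_).continuousOn
    have h1 := hlow t ht x hx (Y t x - Y s x)
    have e : M0 (Y t x - Y s x) + t • N x (Y t x - Y s x) = -((t - s) • N x (Y s x)) := by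
      have e1 := hY t ht x hx
      rw [← hY s hs x hx] at e1
      simp only [map_sub, smul_sub, sub_smul]
      have e2 : M0 (Y t x) = M0 (Y s x) + s • N x (Y s x) - t • N x (Y t x) := by
        rw [← e1]; abel
      rw [e2]
      abel
    rw [e, norm_neg, norm_smul] at h1
    have h4 : ‖Y s x‖ ≤ a := (hYb s hs x hx).trans (mem_closedBall_zero_iff.1 hx)
    have h2 : ‖N x (Y s x)‖ ≤ m / 16 * a :=
      ((N x).le_opNorm _).trans (by gcongr; exact hNb x hx)
    rw [dist_eq_norm, dist_eq_norm]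
    change _ ≤ a * ‖t - s‖
    have h3 : ‖t - s‖ * ‖N x (Y s x)‖ ≤ ‖t - s‖ * (m / 16 * a) := by gcongr
    have h5 : 0 ≤ ‖t - s‖ * (m * a) := by positivity
    have h6 : m / 2 * ‖Y t x - Y s x‖ ≤ m / 2 * (a * ‖t - s‖) := by nlinarith
    exact le_of_mul_le_mul_left h6 (by positivity)
  · have h1 := hYb t ht 0 h0a
    rw [norm_zero] at h1
    exact norm_le_zero_iff.1 h1

theorem surj_of_inj {V : Type} [NormedAddCommGroup V] [NormedSpace ℝ V] [FiniteDimensional ℝ V]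
    (M : V →L[ℝ] V →L[ℝ] ℝ) (h : Function.Injective M) : Function.Surjective M := by
  have e : finrank ℝ V = finrank ℝ (V →L[ℝ] ℝ) := by
    rw [← (LinearMap.toContinuousLinearMap : (V →ₗ[ℝ] ℝ) ≃ₗ[ℝ] V →L[ℝ] ℝ).finrank_eq]
    exact Subspace.dual_finrank_eq.symm
  exact (LinearMap.injective_iff_surjective_of_finrank_eq_finrank (f := (M : V →ₗ[ℝ] V →L[ℝ] ℝ))
    e).1 h

theorem inj_of_flip {V : Type} [NormedAddCommGroup V] [InnerProductSpace ℝ V]
    [FiniteDimensional ℝ V] (M : V →L[ℝ] V →L[ℝ] ℝ) (h : ∀ u, (∀ y, M y u = 0) → u = 0) :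
    Function.Injective M := by
  have h1 : Function.Surjective M.flip := by
    refine surj_of_inj _ ?_
    rw [injective_iff_map_eq_zero]
    intro u hu
    refine h u fun y => ?_
    have := congrArg (fun f : V →L[ℝ] ℝ => f y) hu
    simpa using this
  rw [injective_iff_map_eq_zero]
  intro y hy
  obtain ⟨u, hu⟩ := h1 (innerSL ℝ y)
  have h2 := congrArg (fun f : V →L[ℝ] ℝ => f y) hu
  simp only [ContinuousLinearMap.flip_apply, hy, zero_apply,
    innerSL_apply_apply] at h2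
  exact inner_self_eq_zero.1 h2.symm

theorem symm {V E : Type} [NormedAddCommGroup V] [NormedSpace ℝ V]
    [NormedAddCommGroup E] [InnerProductSpace ℝ E] (θ : E) (A : V →L[ℝ] V)
    (Ψ : V → E) (ω : V → V →L[ℝ] V →L[ℝ] ℝ) (hω : ContDiffAt ℝ 1 ω 0) (hΨ : ContDiffAt ℝ 2 Ψ 0)
    (hm : ∀ᶠ v in 𝓝 0, ∀ u, ⟪θ, fderiv ℝ Ψ v u⟫ = ω v (A v) u) (u u' : V) :
    ω 0 (A u) u' = ω 0 (A u') u := by
  have hs : IsSymmSndFDerivAt ℝ Ψ 0 := hΨ.isSymmSndFDerivAt (by simp)
  have hD : HasFDerivAt (fderiv ℝ Ψ) (fderiv ℝ (fderiv ℝ Ψ) 0) 0 :=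
    ((hΨ.fderiv_right (m := 1) (by norm_num)).differentiableAt (by simp)).hasFDerivAt
  have hW : HasFDerivAt ω (fderiv ℝ ω 0) 0 := (hω.differentiableAt (by simp)).hasFDerivAt
  have key : ∀ u u', ⟪θ, fderiv ℝ (fderiv ℝ Ψ) 0 u' u⟫ = ω 0 (A u') u := fun u u' => by
    have h1 := (innerSL ℝ θ).hasFDerivAt.comp (0 : V) (hD.clm_apply (hasFDerivAt_const u (0 : V)))
    have h2 := (hW.clm_apply A.hasFDerivAt).clm_apply (hasFDerivAt_const u (0 : V))
    have h3 := h1.unique (h2.congr_of_eventuallyEq (hm.mono fun v hv => hv u))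
    have h4 := congrArg (fun f : V →L[ℝ] ℝ => f u') h3
    simpa using h4
  rw [← key, ← key, hs.eq]

theorem proj {V ι : Type} [NormedAddCommGroup V] [InnerProductSpace ℝ V] [FiniteDimensional ℝ V]
    (A : ι → V →L[ℝ] V) (hskew : ∀ θ x y, ⟪A θ x, y⟫ = -⟪x, A θ y⟫) :
    ∃ P : V →L[ℝ] V, (∀ θ v, P (A θ v) = A θ v) ∧ (∀ θ v, A θ (v - P v) = 0) ∧
      (∀ v, P (P v) = P v) ∧ (∀ v, ‖v - P v‖ ≤ ‖v‖) ∧
      (∀ u v, ⟪P u, v - P v⟫ = 0) ∧
      ∀ K : Submodule ℝ V, (∀ θ v, A θ v ∈ K) → ∀ v, P v ∈ K := by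
  set V1 : Submodule ℝ V := Submodule.span ℝ {w | ∃ θ v, A θ v = w} with hV1
  have hmem : ∀ θ v, A θ v ∈ V1 := fun θ v => Submodule.subset_span ⟨θ, v, rfl⟩
  have horth : ∀ v, v - V1.starProjection v ∈ V1ᗮ := fun v => V1.sub_starProjection_mem_orthogonal v
  refine ⟨V1.starProjection, fun θ v => Submodule.starProjection_eq_self_iff.2 (hmem θ v),
    fun θ v => ?_, fun v => Submodule.starProjection_eq_self_iff.2 (V1.starProjection_apply_mem v),
    fun v => ?_, fun u v => ?_, fun K hK v => ?_⟩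
  · refine (inner_self_eq_zero (𝕜 := ℝ)).1 ?_
    rw [hskew, Submodule.inner_left_of_mem_orthogonal (hmem _ _) (horth v), neg_zero]
  · rw [← Submodule.starProjection_orthogonal_val]
    exact Submodule.norm_starProjection_apply_le _ v
  · exact Submodule.inner_right_of_mem_orthogonal (V1.starProjection_apply_mem u) (horth v)
  · have : V1 ≤ K := Submodule.span_le.2 (by rintro _ ⟨θ, v, rfl⟩; exact hK θ v)
    exact this (V1.starProjection_apply_mem v)

theorem ftc {V : Type} [NormedAddCommGroup V] [NormedSpace ℝ V] (f : V → ℝ)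
    (g : V → V →L[ℝ] ℝ) {s : Set V} (hf : ∀ v ∈ s, HasFDerivAt f (g v) v)
    (hg : ContinuousOn g s) (p y : V) (hp : ∀ t ∈ Icc (0 : ℝ) 1, p + t • y ∈ s) :
    f (p + y) - f p = ∫ t in (0 : ℝ)..1, g (p + t • y) y := by
  have h1 : ∀ t ∈ uIcc (0 : ℝ) 1, HasDerivAt (fun t : ℝ => f (p + t • y)) (g (p + t • y) y) t := by
    intro t ht
    rw [uIcc_of_le zero_le_one] at ht
    have h2 : HasDerivAt (fun t : ℝ => p + t • y) y t := by
      simpa using ((hasDerivAt_id t).smul_const y).const_add p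
    exact (hf _ (hp t ht)).comp_hasDerivAt t h2
  have h2 : ContinuousOn (fun t : ℝ => g (p + t • y) y) (uIcc 0 1) := by
    rw [uIcc_of_le zero_le_one]
    exact (hg.comp (by fun_prop) hp).clm_apply continuousOn_const
  rw [intervalIntegral.integral_eq_sub_of_hasDerivAt h1 h2.intervalIntegrable]
  simp

theorem pth_le {V : Type} [NormedAddCommGroup V] [NormedSpace ℝ V] (P : V →L[ℝ] V)
    (hP : ∀ v, ‖v - P v‖ ≤ ‖v‖) (v : V) {t : ℝ} (ht : t ∈ Icc (0 : ℝ) 1) :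
    ‖v - P v + t • P v‖ ≤ ‖v‖ := by
  have e : v - P v + t • P v = (1 - t) • (v - P v) + t • v := by module
  rw [e]
  refine (norm_add_le _ _).trans ?_
  rw [norm_smul, norm_smul, Real.norm_of_nonneg ht.1, Real.norm_of_nonneg (sub_nonneg.2 ht.2)]
  have h1 := hP v
  have h2 := sub_nonneg.2 ht.2
  nlinarith

theorem pth_cont {V W : Type} [NormedAddCommGroup V] [NormedSpace ℝ V]
    [NormedAddCommGroup W] [NormedSpace ℝ W] (P : V →L[ℝ] V)
    (hP : ∀ v, ‖v - P v‖ ≤ ‖v‖) (N : V → V →L[ℝ] W) {R : ℝ}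
    (hN : ContinuousOn N (closedBall 0 R)) {v : V} (hv : v ∈ closedBall (0 : V) R) :
    IntervalIntegrable (fun t : ℝ => t • N (v - P v + t • P v) v) volume 0 1 := by
  refine ContinuousOn.intervalIntegrable ?_
  rw [uIcc_of_le zero_le_one]
  refine continuousOn_id.smul ((hN.comp (by fun_prop) fun t ht => ?_).clm_apply continuousOn_const)
  exact mem_closedBall_zero_iff.2 ((pth_le P hP v ht).trans (mem_closedBall_zero_iff.1 hv))

theorem clip {V W : Type} [NormedAddCommGroup V] [NormedSpace ℝ V]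
    [NormedAddCommGroup W] [NormedSpace ℝ W] (P : V →L[ℝ] V)
    (hP : ∀ v, ‖v - P v‖ ≤ ‖v‖) (N : V → V →L[ℝ] W) {R C : ℝ} (hC : 0 < C)
    (hN' : ContinuousOn N (closedBall 0 R))
    (hN : ∀ x ∈ closedBall (0 : V) R, ∀ y ∈ closedBall (0 : V) R, ‖N x - N y‖ ≤ C * ‖x - y‖)
    (hN0 : N 0 = 0) {a : ℝ} (ha : a ≤ R) {x y : V} (hx : x ∈ closedBall (0 : V) a)
    (hy : y ∈ closedBall (0 : V) a) :
    ‖(∫ t in (0 : ℝ)..1, t • N (x - P x + t • P x) x) -
      ∫ t in (0 : ℝ)..1, t • N (y - P y + t • P y) y‖ ≤ 2 * C * a * ‖x - y‖ := by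
  have hsub : closedBall (0 : V) a ⊆ closedBall 0 R := closedBall_subset_closedBall ha
  have hxa : ‖x‖ ≤ a := mem_closedBall_zero_iff.1 hx
  have hya : ‖y‖ ≤ a := mem_closedBall_zero_iff.1 hy
  have ha0 : 0 ≤ a := (norm_nonneg x).trans hxa
  rw [← intervalIntegral.integral_sub (pth_cont P hP N hN' (hsub hx))
    (pth_cont P hP N hN' (hsub hy))]
  refine (intervalIntegral.norm_integral_le_of_norm_le_const (C := 2 * C * a * ‖x - y‖)
    fun t ht => ?_).trans (by simp)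
  rw [uIoc_of_le zero_le_one] at ht
  have ht' : t ∈ Icc (0 : ℝ) 1 := Ioc_subset_Icc_self ht
  set p := x - P x + t • P x with hp
  set q := y - P y + t • P y with hq
  have hpa : ‖p‖ ≤ a := (pth_le P hP x ht').trans hxa
  have hqa : ‖q‖ ≤ a := (pth_le P hP y ht').trans hya
  have hpq : ‖p - q‖ ≤ ‖x - y‖ := by
    have e : p - q = (x - y) - P (x - y) + t • P (x - y) := by
      rw [hp, hq, map_sub]; module
    rw [e]
    exact pth_le P hP _ ht'
  have h1 := hN p (hsub (mem_closedBall_zero_iff.2 hpa)) q (hsub (mem_closedBall_zero_iff.2 hqa))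
  have h2 := hN q (hsub (mem_closedBall_zero_iff.2 hqa)) 0 (hsub (mem_closedBall_self ha0))
  rw [hN0, sub_zero, sub_zero] at h2
  have e : t • N p x - t • N q y = t • ((N p - N q) x + N q (x - y)) := by
    simp only [sub_apply, map_sub, smul_add, smul_sub]
    abel
  rw [e, norm_smul, Real.norm_of_nonneg ht'.1]
  have h3 : ‖(N p - N q) x‖ ≤ C * ‖x - y‖ * a :=
    ((N p - N q).le_opNorm x).trans (by gcongr; exact h1.trans (by gcongr))
  have h4 : ‖N q (x - y)‖ ≤ C * a * ‖x - y‖ :=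
    ((N q).le_opNorm _).trans (by gcongr; exact h2.trans (by gcongr))
  calc t * ‖(N p - N q) x + N q (x - y)‖ ≤ 1 * (C * ‖x - y‖ * a + C * a * ‖x - y‖) := by
        gcongr
        · exact ht'.2
        · exact (norm_add_le _ _).trans (add_le_add h3 h4)
    _ = 2 * C * a * ‖x - y‖ := by ring

theorem exists_T {V : Type} [NormedAddCommGroup V] [NormedSpace ℝ V]
    (P : V →L[ℝ] V) : ∃ T : (V →L[ℝ] V →L[ℝ] ℝ) →L[ℝ] V →L[ℝ] V →L[ℝ] ℝ,
      ∀ B y u, T B y u = B (P u) (P y) :=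
  ⟨((ContinuousLinearMap.compL ℝ V V (V →L[ℝ] ℝ)).flip P).comp
    ((ContinuousLinearMap.flipₗᵢ ℝ V V ℝ).toContinuousLinearEquiv.toContinuousLinearMap.comp
      ((ContinuousLinearMap.compL ℝ V V (V →L[ℝ] ℝ)).flip P)), fun _ _ _ => rfl⟩

theorem const_of_deriv {W : Type} [NormedAddCommGroup W] [NormedSpace ℝ W] {h : ℝ → W}
    (hh : ∀ t ∈ Icc (0 : ℝ) 1, HasDerivWithinAt h 0 (Icc 0 1) t) : h 1 = h 0 :=
  constant_of_has_deriv_right_zero (HasDerivWithinAt.continuousOn hh)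
    (fun t ht => (hh t (Ico_subset_Icc_self ht)).mono_of_mem_nhdsWithin
      (Icc_mem_nhdsGE_of_mem ht)) 1 (by simp)

theorem ident {V : Type} [NormedAddCommGroup V] [NormedSpace ℝ V] (A P : V →L[ℝ] V)
    (ω N : V → V →L[ℝ] V →L[ℝ] ℝ) (f : V → ℝ) {R : ℝ}
    (hPA : ∀ v, P (A v) = A v) (hAP : ∀ v, A (v - P v) = 0) (hQ : ∀ v, ‖v - P v‖ ≤ ‖v‖)
    (hωP : ∀ u v, ω 0 (P u) (v - P v) = 0)
    (hN : ∀ w y u, N w y u = ω w (P u) (P y) - ω 0 (P u) (P y))
    (hNc : ContinuousOn N (closedBall 0 R)) (hωc : ContinuousOn ω (closedBall 0 R))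
    (hf : ∀ v ∈ closedBall (0 : V) R, HasFDerivAt f (ω v (A v)) v) (hf0 : f 0 = 0)
    {v : V} (hv : v ∈ closedBall (0 : V) R) :
    f v = 1 / 2 * ω 0 (A v) v + (∫ t in (0 : ℝ)..1, t • N (v - P v + t • P v) v) (A v) := by
  have hvR : ‖v‖ ≤ R := mem_closedBall_zero_iff.1 hv
  have hg : ContinuousOn (fun v => ω v (A v)) (closedBall 0 R) :=
    hωc.clm_apply A.continuous.continuousOn
  have h1 := ftc f _ hf hg 0 (v - P v) fun t ht => by
    rw [zero_add, mem_closedBall_zero_iff, norm_smul, Real.norm_of_nonneg ht.1]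
    have h2 := hQ v
    have h3 := norm_nonneg (v - P v)
    nlinarith [ht.1, ht.2]
  have h2 := ftc f _ hf hg (v - P v) (P v) fun t ht =>
    mem_closedBall_zero_iff.2 ((pth_le P hQ v ht).trans hvR)
  simp only [zero_add, map_smul, hAP, smul_zero, map_zero, zero_apply,
    intervalIntegral.integral_zero, hf0, sub_zero] at h1
  rw [h1, sub_add_cancel, sub_zero] at h2
  have hI := pth_cont P hQ N hNc hv
  have hAv : A (P v) = A v := by
    have := hAP v
    rw [map_sub, sub_eq_zero] at this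
    exact this.symm
  have hω0 : ω 0 (A v) (P v) = ω 0 (A v) v := by
    have := hωP (A v) v
    rw [hPA, map_sub, sub_eq_zero] at this
    exact this.symm
  have e : ∀ t : ℝ, ω (v - P v + t • P v) (A (v - P v + t • P v)) (P v)
      = t * ω 0 (A v) v + (t • N (v - P v + t • P v) v) (A v) := fun t => by
    rw [map_add A, hAP, zero_add, map_smul A, hAv, map_smul, smul_apply, smul_apply, hN, hPA, hω0]
    simp only [smul_eq_mul]
    ring
  have hI' : IntervalIntegrable (fun t : ℝ => (t • N (v - P v + t • P v) v) (A v)) volume 0 1 :=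
    ⟨hI.1.apply_continuousLinearMap _, hI.2.apply_continuousLinearMap _⟩
  rw [h2, ContinuousLinearMap.intervalIntegral_apply hI]
  simp_rw [e]
  rw [intervalIntegral.integral_add (by exact Continuous.intervalIntegrable (by fun_prop) _ _) hI',
    intervalIntegral.integral_mul_const, integral_id]
  norm_num

end Moser

open Set Metric in
theorem moser {V E : Type} [NormedAddCommGroup V] [InnerProductSpace ℝ V] [FiniteDimensional ℝ V]
    [NormedAddCommGroup E] [InnerProductSpace ℝ E] [FiniteDimensional ℝ E] (S : Submodule ℝ E)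
    (A : S →ₗ[ℝ] V →L[ℝ] V) (hskew : ∀ θ x y, ⟪A θ x, y⟫ = -⟪x, A θ y⟫)
    (Ψ : V → E) (ω : V → V →L[ℝ] V →L[ℝ] ℝ) (hω : ContDiffAt ℝ 1 ω 0) (hΨ : ContDiffAt ℝ 2 Ψ 0)
    (hm : ∀ᶠ v in 𝓝 0, ∀ (θ : S) u, ⟪(θ : E), fderiv ℝ Ψ v u⟫ = ω v (A θ v) u)
    (l : V →L[ℝ] E) (hlS : ∀ v, l v ∈ Sᗮ)
    (hl : ∀ᶠ v in 𝓝 0, ∀ e ∈ Sᗮ, ⟪e, Ψ v - Ψ 0⟫ = ⟪e, l v⟫) (hlA : ∀ θ v, l (A θ v) = 0)
    (hnd : ∀ u, (∀ u', ω 0 u u' = 0) → u = 0) :
    (∀ θ u u', ω 0 (A θ u) u' = ω 0 (A θ u') u) ∧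
    ∃ (φ : OpenPartialHomeomorph V V) (c : NNReal), 0 ∈ φ.source ∧ φ 0 = 0 ∧
      LipschitzOnWith c φ φ.source ∧ LipschitzOnWith c φ.symm φ.target ∧
      ∀ v ∈ φ.source, DifferentiableAt ℝ Ψ (φ v) ∧ (∀ e ∈ Sᗮ, ⟪e, Ψ (φ v) - Ψ 0⟫ = ⟪e, l v⟫) ∧
        ∀ θ : S, ⟪(θ : E), Ψ (φ v) - Ψ 0⟫ = 1 / 2 * ω 0 (A θ v) v := by
  have hsym : ∀ θ u u', ω 0 (A θ u) u' = ω 0 (A θ u') u := fun θ =>
    Moser.symm (θ : E) (A θ) Ψ ω hω hΨ (hm.mono fun v hv => hv θ)
  refine ⟨hsym, ?_⟩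
  obtain ⟨P, hPA, hAP, hPP, hQ, hPQ, hK⟩ := Moser.proj (fun θ : S => A θ) hskew
  have hPQ0 : ∀ v, P (v - P v) = 0 := fun v => by rw [map_sub, hPP, sub_self]
  have hωP : ∀ u v, ω 0 (P u) (v - P v) = 0 := fun u v =>
    hK (LinearMap.ker ((ω 0).flip (v - P v) : V →ₗ[ℝ] ℝ)) (fun θ w => by
      change ω 0 (A θ w) (v - P v) = 0
      rw [hsym, hAP, map_zero, zero_apply]) u
  have hlP : ∀ v, l (P v) = 0 := hK (LinearMap.ker (l : V →ₗ[ℝ] E)) hlA
  obtain ⟨T, hT⟩ := Moser.exists_T P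
  set N : V → V →L[ℝ] V →L[ℝ] ℝ := fun v => T (ω v) - T (ω 0) with hNdef
  have hN : ∀ w y u, N w y u = ω w (P u) (P y) - ω 0 (P u) (P y) := fun w y u => by
    simp only [hNdef, sub_apply, hT]
  have hN0 : N 0 = 0 := by ext y u; simp [hN]
  have hNd : ContDiffAt ℝ 1 N 0 :=
    ((ContinuousLinearMap.contDiff (𝕜 := ℝ) (E := V →L[ℝ] V →L[ℝ] ℝ) (F := V →L[ℝ] V →L[ℝ] ℝ)
      T).contDiffAt.comp 0 hω).sub contDiffAt_const
  obtain ⟨K, W, hW, hLip⟩ := hNd.exists_lipschitzOnWith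
  obtain ⟨R, hR, hB⟩ := nhds_basis_closedBall.eventually_iff.1
    ((hω.eventually (by simp)).and ((hΨ.eventually (by simp)).and
      (hm.and (hl.and (eventually_mem_set.2 hW)))))
  have hωc : ContinuousOn ω (closedBall 0 R) := fun v hv =>
    (hB hv).1.continuousAt.continuousWithinAt
  have hΨd : ∀ v ∈ closedBall (0 : V) R, DifferentiableAt ℝ Ψ v := fun v hv =>
    (hB hv).2.1.differentiableAt (by simp)
  have hLip' : LipschitzOnWith K N (closedBall 0 R) := hLip.mono fun v hv => (hB hv).2.2.2.2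
  have hNL : ∀ x ∈ closedBall (0 : V) R, ∀ y ∈ closedBall (0 : V) R,
      ‖N x - N y‖ ≤ (K + 1) * ‖x - y‖ := fun x hx y hy => by
    have h1 := hLip'.norm_sub_le hx hy
    have h2 := norm_nonneg (x - y)
    linarith
  have hf : ∀ θ : S, ∀ v ∈ closedBall (0 : V) R,
      HasFDerivAt (fun v => ⟪(θ : E), Ψ v - Ψ 0⟫) (ω v (A θ v)) v := fun θ v hv => by
    have h1 := (innerSL ℝ (θ : E)).hasFDerivAt.comp v ((hΨd v hv).hasFDerivAt.sub_const (Ψ 0))
    have e : (innerSL ℝ (θ : E)).comp (fderiv ℝ Ψ v) = ω v (A θ v) := by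
      ext u
      exact (hB hv).2.2.1 θ u
    rw [e] at h1
    exact h1
  obtain ⟨J, hJ⟩ : ∃ J : V →L[ℝ] V →L[ℝ] ℝ, ∀ x y, J x y = ⟪x, y⟫ := ⟨innerSL ℝ, fun _ _ => rfl⟩
  obtain ⟨M0, hM0⟩ : ∃ M0 : V →L[ℝ] V →L[ℝ] ℝ,
      ∀ y u, M0 y u = ω 0 (P u) (P y) + ⟪y - P y, u⟫ :=
    ⟨T (ω 0) + J.comp (ContinuousLinearMap.id ℝ V - P), fun y u => by rw [← hT, ← hJ]; rfl⟩
  have hM0i : Function.Injective M0 := Moser.inj_of_flip M0 fun u hu => by
    have h1 := hu (u - P u)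
    rw [hM0, hPQ0, map_zero, zero_add, sub_zero] at h1
    have h2 : u - P u = 0 := by
      refine (inner_self_eq_zero (𝕜 := ℝ)).1 ?_
      rw [inner_sub_right, h1, real_inner_comm, hPQ, sub_self]
    have h3 : u = P u := sub_eq_zero.1 h2
    refine hnd u fun y => ?_
    have h4 := hu y
    rw [hM0, real_inner_comm, h3, hPP, hPQ, add_zero] at h4
    have h5 := hωP u y
    rw [map_sub, h4, sub_zero] at h5
    rw [h3, h5]
  set c : V → V →L[ℝ] ℝ := fun v => -∫ t in (0 : ℝ)..1, t • N (v - P v + t • P v) v with hcdef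
  have hK1 : (0 : ℝ) < K + 1 := by positivity
  obtain ⟨a, ha, haR, Y, hY, hYL, hYc, hY0⟩ := Moser.solve Moser.surj_of_inj M0 hM0i N c
    (C := 2 * (K + 1)) hR (by positivity)
    (fun x hx y hy => (hNL x hx y hy).trans (by gcongr; linarith)) hN0
    (fun a ha x hx y hy => by
      simp only [hcdef]
      rw [neg_sub_neg, norm_sub_rev]
      exact Moser.clip P hQ N hK1 hLip'.continuousOn hNL hN0 ha hx hy) (by simp [hcdef])
  have hsub : closedBall (0 : V) a ⊆ closedBall 0 R := closedBall_subset_closedBall haR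
  have hYP : ∀ t ∈ Icc (0 : ℝ) 1, ∀ x ∈ closedBall (0 : V) a, P (Y t x) = Y t x :=
    fun t ht x hx => by
      have h1 := congrArg (fun f : V →L[ℝ] ℝ => f (Y t x - P (Y t x))) (hY t ht x hx)
      simp only [hcdef, add_apply, smul_apply, neg_apply, hM0, hN, hPQ0, map_zero, zero_apply,
        ContinuousLinearMap.intervalIntegral_apply
          (Moser.pth_cont P hQ N hLip'.continuousOn (hsub hx)), sub_self, smul_zero, zero_add,
        add_zero, intervalIntegral.integral_zero, neg_zero] at h1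
      exact (sub_eq_zero.1 ((inner_self_eq_zero (𝕜 := ℝ)).1 h1)).symm
  obtain ⟨α, hα, hα0, hαL⟩ := Moser.flow Y ha hYL hYc hY0
  obtain ⟨φ, hφs, hφ, hφ1, hφ2⟩ := Moser.homeo (fun x => α x 1) (s := ball (0 : V) (a / 2))
    isOpen_ball fun x hx y hy => hαL x (ball_subset_closedBall hx) y (ball_subset_closedBall hy)
  refine ⟨φ, 2, by rw [hφs]; exact mem_ball_self (by positivity), by rw [hφ]; exact hα0, hφ1, hφ2,
    fun v hv => ?_⟩
  rw [hφs] at hv
  obtain ⟨hv0, hvB, hvd⟩ := hα v (ball_subset_closedBall hv)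
  rw [hφ]
  refine ⟨hΨd _ (hsub (hvB 1)), fun e he => ?_, fun θ => ?_⟩
  · rw [(hB (hsub (hvB 1))).2.2.2.1 e he]
    congr 1
    have h1 : l (α v 1) = l (α v 0) := Moser.const_of_deriv (h := fun t => l (α v t)) fun t ht => by
      have h2 := l.hasFDerivAt.comp_hasDerivWithinAt t (hvd t ht)
      rw [← hYP t ht _ (hvB t), hlP] at h2
      exact h2
    rw [h1, hv0]
  · have hq : ∀ x, HasFDerivAt (fun x => 1 / 2 * ω 0 (A θ x) x) (ω 0 (A θ x)) x := fun x => by
      have h1 := ((((ω 0).comp (A θ)).hasFDerivAt (x := x)).clm_apply (hasFDerivAt_id x)).const_mul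
        (1 / 2 : ℝ)
      refine h1.congr_fderiv ?_
      ext u
      have := hsym θ u x
      simp [this]
      ring
    have h1 := Moser.const_of_deriv (h := fun t => (1 - t) * (1 / 2 * ω 0 (A θ (α v t)) (α v t))
        + t * ⟪(θ : E), Ψ (α v t) - Ψ 0⟫) fun t ht => by
      have d1 := (hq (α v t)).comp_hasDerivWithinAt t (hvd t ht)
      have d2 := (hf θ _ (hsub (hvB t))).comp_hasDerivWithinAt t (hvd t ht)
      have d3 := (((hasDerivWithinAt_id t (Icc (0 : ℝ) 1)).const_sub 1).mul d1).add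
        ((hasDerivWithinAt_id t (Icc (0 : ℝ) 1)).mul d2)
      refine d3.congr_deriv ?_
      have i1 := Moser.ident (A θ) P ω N (fun v => ⟪(θ : E), Ψ v - Ψ 0⟫) (hPA θ) (hAP θ) hQ hωP hN
        hLip'.continuousOn hωc (hf θ) (by simp) (hsub (hvB t))
      have i2 := congrArg (fun f : V →L[ℝ] ℝ => f (A θ (α v t))) (hY t ht _ (hvB t))
      simp only [hcdef, add_apply, smul_apply, neg_apply, hM0, hN, hPA, hYP t ht _ (hvB t),
        sub_self, inner_zero_left, add_zero, smul_eq_mul] at i2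
      simp only [Function.comp_apply, id]
      linarith
    simp only [hv0, sub_self, zero_mul, one_mul, zero_add, sub_zero, add_zero] at h1
    exact h1

end Pool.Agent.Lib.MP_d52947_gt
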