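import Pool.Agent.Lib.MP_d52947_gt.ErgDefs
import Pool.Agent.Lib.MP_d52947_gt.ModelA
import Pool.Agent.Lib.MP_d52947_gt.Moser

-- part Pool.Agent.Lib.MP_d52947_gt.ModelB
section

/-! The linear model of a moment map near a point. -/

set_option linter.unusedSectionVars false

namespace Pool.Agent.Lib.MP_d52947_gt

open Filter Topology Module
open scoped RealInnerProductSpace

namespace Model

section model

variable {V ι : Type} [NormedAddCommGroup V] [InnerProductSpace ℝ V] [FiniteDimensional ℝ V]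
  [Fintype ι] (Vs : ι → Submodule ℝ V)

/-- The orbit map of the linear model. -/
noncomputable def rho (v : V) : V × (ι → ℝ) :=
  (v - ∑ i, (Vs i).starProjection v, fun i => ‖(Vs i).starProjection v‖ ^ 2)

/-- The linear span of the image of the orbit map. -/
noncomputable def TT : Submodule ℝ (V × (ι → ℝ)) := (⨅ i, (Vs i)ᗮ).comap (LinearMap.fst ℝ _ _)

/-- The image of the orbit map. -/
def QQ : Set (V × (ι → ℝ)) := {q | q ∈ TT Vs ∧ ∀ i, 0 ≤ q.2 i}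

theorem mem_TT {q : V × (ι → ℝ)} : q ∈ TT Vs ↔ ∀ i, q.1 ∈ (Vs i)ᗮ := by
  simp [TT]

theorem cont_rho : Continuous (rho Vs) := by
  unfold rho
  fun_prop

theorem conv_QQ : Convex ℝ (QQ Vs) := fun _ hx _ hy _ _ ha hb _ =>
  ⟨(TT Vs).add_mem ((TT Vs).smul_mem _ hx.1) ((TT Vs).smul_mem _ hy.1),
    fun i => add_nonneg (mul_nonneg ha (hx.2 i)) (mul_nonneg hb (hy.2 i))⟩

variable {Vs}

theorem proj_sum (ho : ∀ i j, i ≠ j → Vs i ≤ (Vs j)ᗮ) {x : V} (hx : ∀ i, x ∈ (Vs i)ᗮ)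
    {y : ι → V} (hy : ∀ i, y i ∈ Vs i) (j : ι) : (Vs j).starProjection (x + ∑ i, y i) = y j := by
  rw [map_add, map_sum, (Submodule.starProjection_apply_eq_zero_iff _).2 (hx j), zero_add,
    Finset.sum_eq_single j (fun i _ hi =>
      (Submodule.starProjection_apply_eq_zero_iff _).2 (ho i j hi (hy i)))
      (fun h => absurd (Finset.mem_univ _) h), Submodule.starProjection_eq_self_iff.2 (hy j)]

theorem rho_sum (ho : ∀ i j, i ≠ j → Vs i ≤ (Vs j)ᗮ) {x : V} (hx : ∀ i, x ∈ (Vs i)ᗮ)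
    {y : ι → V} (hy : ∀ i, y i ∈ Vs i) : rho Vs (x + ∑ i, y i) = (x, fun i => ‖y i‖ ^ 2) := by
  simp only [rho, proj_sum ho hx hy, add_sub_cancel_right]

theorem rho_mem (ho : ∀ i j, i ≠ j → Vs i ≤ (Vs j)ᗮ) (v : V) : rho Vs v ∈ QQ Vs := by
  refine ⟨(mem_TT Vs).2 fun j => ?_, fun i => sq_nonneg _⟩
  have := proj_sum ho (x := 0) (fun i => zero_mem _)
    (fun i => (Vs i).starProjection_apply_mem v) j
  rw [zero_add] at this
  rw [← Submodule.starProjection_apply_eq_zero_iff]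
  change (Vs j).starProjection (v - _) = 0
  rw [map_sub, this, sub_self]

theorem exists_sec (hr : ∀ i, 1 < Module.rank ℝ (Vs i)) (ho : ∀ i j, i ≠ j → Vs i ≤ (Vs j)ᗮ)
    (a : V) : ∃ s : V × (ι → ℝ) → V, Continuous s ∧ s (rho Vs a) = a ∧
      ∀ q ∈ QQ Vs, rho Vs (s q) = q := by
  have h1 : ∀ i, ∃ e ∈ Vs i, ‖e‖ = 1 ∧
      ‖(Vs i).starProjection a‖ • e = (Vs i).starProjection a := fun i => by
    by_cases c : (Vs i).starProjection a = 0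
    · have : Nontrivial (Vs i) := rank_pos_iff_nontrivial.1 (zero_lt_one.trans (hr i))
      obtain ⟨e, he⟩ := exists_norm_eq (Vs i) zero_le_one
      exact ⟨e, e.2, he, by simp [c]⟩
    · exact ⟨‖(Vs i).starProjection a‖⁻¹ • (Vs i).starProjection a,
        (Vs i).smul_mem _ ((Vs i).starProjection_apply_mem a), norm_smul_inv_norm c,
        smul_inv_smul₀ (norm_ne_zero_iff.2 c) _⟩
  choose e he1 he2 he3 using h1
  refine ⟨fun q => q.1 + ∑ i, √(q.2 i) • e i, by fun_prop, ?_, fun q hq => ?_⟩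
  · simp only [rho, Real.sqrt_sq (norm_nonneg _), he3, sub_add_cancel]
  · rw [rho_sum ho ((mem_TT Vs).1 hq.1) fun i => (Vs i).smul_mem _ (he1 i)]
    refine Prod.ext rfl (funext fun i => ?_)
    simp only [norm_smul, he2, mul_one, Real.norm_eq_abs, sq_abs, Real.sq_sqrt (hq.2 i)]

theorem fib_conn (hr : ∀ i, 1 < Module.rank ℝ (Vs i)) (ho : ∀ i j, i ≠ j → Vs i ≤ (Vs j)ᗮ)
    {q : V × (ι → ℝ)} (hq : q ∈ QQ Vs) : IsPreconnected (rho Vs ⁻¹' {q}) := by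
  have h1 : IsPreconnected (Set.univ.pi fun i => Metric.sphere (0 : Vs i) √(q.2 i)) :=
    isPreconnected_univ_pi fun i => isPreconnected_sphere (hr i) _ _
  have h2 : Continuous fun y : (i : ι) → Vs i => q.1 + ∑ i, (y i : V) := by fun_prop
  convert h1.image _ h2.continuousOn
  ext v
  constructor
  · intro hv
    have hv' : rho Vs v = q := hv
    refine ⟨fun i => ⟨_, (Vs i).starProjection_apply_mem v⟩, fun i _ => ?_, ?_⟩
    · rw [mem_sphere_zero_iff_norm, ← hv']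
      exact (Real.sqrt_sq (norm_nonneg _)).symm
    · rw [← hv']
      exact sub_add_cancel _ _
  · rintro ⟨y, hy, rfl⟩
    change rho Vs _ = q
    rw [rho_sum ho ((mem_TT Vs).1 hq.1) fun i => (y i).2]
    refine Prod.ext rfl (funext fun i => ?_)
    have := hy i (Set.mem_univ i)
    rw [mem_sphere_zero_iff_norm] at this
    change ‖y i‖ ^ 2 = _
    rw [this, Real.sq_sqrt (hq.2 i)]

theorem pre_conn (hr : ∀ i, 1 < Module.rank ℝ (Vs i)) (ho : ∀ i j, i ≠ j → Vs i ≤ (Vs j)ᗮ)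
    {C : Set (V × (ι → ℝ))} (hC : IsPreconnected C) (hQ : C ⊆ QQ Vs) :
    IsPreconnected (rho Vs ⁻¹' C) := by
  obtain ⟨s, hs, -, h2⟩ := exists_sec hr ho 0
  rcases C.eq_empty_or_nonempty with rfl | ⟨q0, hq0⟩
  · exact isPreconnected_empty
  refine isPreconnected_of_forall (s q0) fun v hv => ⟨s '' C ∪ rho Vs ⁻¹' {rho Vs v}, ?_,
    Or.inl ⟨q0, hq0, rfl⟩, Or.inr rfl, IsPreconnected.union (s (rho Vs v)) ⟨_, hv, rfl⟩
      (h2 _ (hQ hv)) (hC.image s hs.continuousOn) (fib_conn hr ho (hQ hv))⟩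
  rintro w (⟨q, hq, rfl⟩ | hw)
  · change rho Vs (s q) ∈ C
    rwa [h2 q (hQ hq)]
  · change rho Vs w ∈ C
    rwa [show rho Vs w = rho Vs v from hw]

theorem rho_small (Vs : ι → Submodule ℝ V) {W : Set V} (hW : W ∈ 𝓝 (0 : V)) :
    ∃ ε > 0, rho Vs ⁻¹' Metric.ball 0 ε ⊆ W := by
  obtain ⟨δ, hδ, h⟩ := Metric.mem_nhds_iff.1 hW
  set η := δ / (Fintype.card ι + 1) with hη
  have h0 : 0 < η := by positivity
  refine ⟨min η (η ^ 2), by positivity, fun v hv => h ?_⟩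
  have h1 : ‖rho Vs v‖ < min η (η ^ 2) := mem_ball_zero_iff.1 hv
  have h2 : ‖v - ∑ i, (Vs i).starProjection v‖ < η :=
    ((norm_fst_le (rho Vs v)).trans_lt h1).trans_le (min_le_left _ _)
  have h3 : ∀ i, ‖(Vs i).starProjection v‖ ≤ η := fun i => by
    have := (((norm_le_pi_norm (rho Vs v).2 i).trans (norm_snd_le _)).trans_lt h1).trans_le
      (min_le_right _ _)
    exact (pow_lt_pow_iff_left₀ (norm_nonneg _) h0.le two_ne_zero).1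
      ((le_abs_self _).trans_lt this) |>.le
  have h4 : ‖∑ i, (Vs i).starProjection v‖ ≤ Fintype.card ι * η := by
    refine (norm_sum_le _ _).trans ((Finset.sum_le_card_nsmul _ _ η fun i _ => h3 i).trans ?_)
    simp
  have h5 := norm_add_le (v - ∑ i, (Vs i).starProjection v) (∑ i, (Vs i).starProjection v)
  have h6 : η * (Fintype.card ι + 1) = δ := div_mul_cancel₀ _ (by positivity)
  rw [sub_add_cancel] at h5
  rw [mem_ball_zero_iff]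
  linarith

variable {E : Type} [NormedAddCommGroup E] [InnerProductSpace ℝ E] [FiniteDimensional ℝ E]

/-- The linear part of the model. -/
noncomputable def piM (l : V →L[ℝ] E) (lam : ι → E) : V × (ι → ℝ) →ₗ[ℝ] E where
  toFun q := l q.1 + ∑ i, (q.2 i / 2) • lam i
  map_add' a b := by
    simp only [Prod.fst_add, map_add, Prod.snd_add, Pi.add_apply, add_div, add_smul,
      Finset.sum_add_distrib]
    abel
  map_smul' c a := by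
    simp only [Prod.smul_fst, map_smul, Prod.smul_snd, Pi.smul_apply, smul_eq_mul, RingHom.id_apply,
      smul_add, Finset.smul_sum, smul_smul, mul_div_assoc]

theorem inner_piM (l : V →L[ℝ] E) (lam : ι → E) (hl : ∀ i, ∀ y ∈ Vs i, l y = 0) (θ : E) (v : V) :
    ⟪θ, piM l lam (rho Vs v)⟫ =
      ⟪θ, l v⟫ + ∑ i, ‖(Vs i).starProjection v‖ ^ 2 / 2 * ⟪θ, lam i⟫ := by
  change ⟪θ, l (v - ∑ i, (Vs i).starProjection v) + ∑ i, _⟫ = _
  rw [map_sub, map_sum, Finset.sum_eq_zero fun i _ => hl i _ ((Vs i).starProjection_apply_mem v),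
    sub_zero, inner_add_right, inner_sum]
  simp only [real_inner_smul_right, rho]

theorem crit_model (ho : ∀ i j, i ≠ j → Vs i ≤ (Vs j)ᗮ) (l : V →L[ℝ] E) (lam : ι → E)
    (hl : ∀ i, ∀ y ∈ Vs i, l y = 0) (θ : E) (v : V) :
    HasFDerivAt (fun v => ⟪θ, piM l lam (rho Vs v)⟫) (0 : V →L[ℝ] ℝ) v ↔
      (∀ u, ⟪θ, l u⟫ = 0) ∧ ∀ i, (rho Vs v).2 i * ⟪θ, lam i⟫ = 0 := by
  simp only [inner_piM l lam hl]
  obtain ⟨D, h1, h2⟩ : ∃ D : V →L[ℝ] ℝ, HasFDerivAt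
      (fun v => ⟪θ, l v⟫ + ∑ i, ‖(Vs i).starProjection v‖ ^ 2 / 2 * ⟪θ, lam i⟫) D v ∧
      ∀ u, D u = ⟪θ, l u⟫ +
        ∑ i, ⟪(Vs i).starProjection v, (Vs i).starProjection u⟫ * ⟪θ, lam i⟫ := by
    refine ⟨_, ((innerSL ℝ θ).comp l).hasFDerivAt.add (HasFDerivAt.fun_sum fun i _ =>
      (((Vs i).starProjection.hasFDerivAt.norm_sq).mul_const
        (1 / 2 * ⟪θ, lam i⟫)).congr_of_eventuallyEq
        (Eventually.of_forall fun w => by ring)), fun u => ?_⟩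
    simp only [add_apply, ContinuousLinearMap.comp_apply, innerSL_apply_apply,
      sum_apply, smul_apply, smul_eq_mul, nsmul_eq_mul,
      Nat.cast_ofNat]
    congr 1
    exact Finset.sum_congr rfl fun i _ => by ring
  constructor
  · intro h
    have h3 : ∀ u, D u = 0 := fun u => by rw [h1.unique h, zero_apply]
    refine ⟨fun u => ?_, fun j => ?_⟩
    · have h4 := h3 (rho Vs u).1
      have h5 : l (rho Vs u).1 = l u := by
        change l (u - _) = _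
        rw [map_sub, map_sum,
          Finset.sum_eq_zero fun i _ => hl i _ ((Vs i).starProjection_apply_mem u), sub_zero]
      rwa [h2, h5, Finset.sum_eq_zero fun i _ => by
        rw [(Submodule.starProjection_apply_eq_zero_iff _).2 ((mem_TT Vs).1 (rho_mem ho u).1 i),
          inner_zero_right, zero_mul], add_zero] at h4
    · have h4 := h3 ((Vs j).starProjection v)
      have m := (Vs j).starProjection_apply_mem v
      rwa [h2, hl j _ m, inner_zero_right, zero_add, Finset.sum_eq_single j (fun i _ hi => by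
        rw [(Submodule.starProjection_apply_eq_zero_iff _).2 (ho j i hi.symm m),
          inner_zero_right, zero_mul]) (fun h => absurd (Finset.mem_univ _) h),
        Submodule.starProjection_eq_self_iff.2 m, real_inner_self_eq_norm_sq] at h4
  · rintro ⟨h3, h4⟩
    have h5 : D = 0 := ContinuousLinearMap.ext fun u => by
      rw [h2, h3, zero_add, zero_apply]
      refine Finset.sum_eq_zero fun i _ => ?_
      rcases mul_eq_zero.1 (h4 i) with c | c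
      · rw [norm_eq_zero.1 (pow_eq_zero_iff two_ne_zero |>.1 c), inner_zero_left, zero_mul]
      · rw [c, mul_zero]
    exact h5 ▸ h1

theorem model_main (hr : ∀ i, 1 < Module.rank ℝ (Vs i)) (ho : ∀ i j, i ≠ j → Vs i ≤ (Vs j)ᗮ)
    (l : V →L[ℝ] E) (lam : ι → E) (hl : ∀ i, ∀ y ∈ Vs i, l y = 0) (Ψ : V → E)
    (φ : OpenPartialHomeomorph V V) {c : NNReal} (h0 : 0 ∈ φ.source) (φ0 : φ 0 = 0)
    (hL : LipschitzOnWith c φ φ.source) (hL' : LipschitzOnWith c φ.symm φ.target)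
    (hd : ∀ v ∈ φ.source, DifferentiableAt ℝ Ψ (φ v))
    (hM : ∀ v ∈ φ.source, Ψ (φ v) = Ψ 0 + piM l lam (rho Vs v)) {W : Set V} (hW : W ∈ 𝓝 0) :
    ∃ U ⊆ W, 0 ∈ U ∧ LocConv Ψ U ∧ ∀ Δ Z₀ : Submodule ℝ E, ∀ G : Set V,
      G = {v | v ∈ U ∧ Ψ v - Ψ 0 ∈ Δ ∧ ∀ θ ∈ Δᗮ, (∀ u, ⟪θ, fderiv ℝ Ψ v u⟫ = 0) → θ ∈ Z₀} →
      IsPreconnected G ∧ (G.Nonempty → ∀ v ∈ U, Ψ v - Ψ 0 ∈ Δ → v ∈ closure G) := by
  obtain ⟨ε, hε, hsub⟩ := rho_small Vs (Filter.inter_mem (φ.open_source.mem_nhds h0)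
    ((φ.continuousAt h0).preimage_mem_nhds (by rwa [φ0])))
  set B : Set (V × (ι → ℝ)) := Metric.ball 0 ε with hB
  have hsrc : ∀ v, rho Vs v ∈ B → v ∈ φ.source := fun v hv => (hsub hv).1
  have hconn : ∀ C : Set (V × (ι → ℝ)), Convex ℝ C → C ⊆ QQ Vs ∩ B →
      IsPreconnected (φ '' (rho Vs ⁻¹' C)) := fun C hC hs =>
    (pre_conn hr ho hC.isPreconnected fun q hq => (hs hq).1).image _
      (φ.continuousOn.mono fun v hv => hsrc v (hs hv).2)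
  have hP : Convex ℝ (QQ Vs ∩ B) := (conv_QQ Vs).inter (convex_ball _ _)
  have him : ∀ y, y ∈ Ψ '' (φ '' (rho Vs ⁻¹' B)) ↔
      ∃ q ∈ QQ Vs ∩ B, Ψ 0 + piM l lam q = y := by
    intro y
    constructor
    · rintro ⟨_, ⟨v, hv, rfl⟩, rfl⟩
      exact ⟨_, ⟨rho_mem ho v, hv⟩, (hM v (hsrc v hv)).symm⟩
    · rintro ⟨q, hq, rfl⟩
      obtain ⟨s, -, -, h2⟩ := exists_sec hr ho 0
      have m : rho Vs (s q) ∈ B := by
        rw [h2 q hq.1]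
        exact hq.2
      exact ⟨_, ⟨s q, m, rfl⟩, by rw [hM _ (hsrc _ m), h2 q hq.1]⟩
  have hcrit : ∀ v ∈ φ.source, ∀ θ : E, (∀ u, ⟪θ, fderiv ℝ Ψ (φ v) u⟫ = 0) ↔
      (∀ u, ⟪θ, l u⟫ = 0) ∧ ∀ i, (rho Vs v).2 i * ⟪θ, lam i⟫ = 0 := by
    intro v hv θ
    have d1 : HasFDerivAt (fun x => ⟪θ, Ψ x - Ψ 0⟫) ((innerSL ℝ θ).comp (fderiv ℝ Ψ (φ v)))
        (φ v) := (innerSL ℝ θ).hasFDerivAt.comp _ ((hd v hv).hasFDerivAt.sub_const _)
    rw [← crit_model ho l lam hl]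
    constructor
    · intro h
      have d2 : (innerSL ℝ θ).comp (fderiv ℝ Ψ (φ v)) = 0 := ContinuousLinearMap.ext h
      rw [d2] at d1
      refine (crit_comp (φ.open_source.mem_nhds hv) hL d1).congr_of_eventuallyEq ?_
      filter_upwards [φ.open_source.mem_nhds hv] with w hw
      simp only [Function.comp_apply, hM w hw, add_sub_cancel_left]
    · intro h u
      rw [← φ.left_inv hv] at h
      have d2 : HasFDerivAt (fun x => ⟪θ, Ψ x - Ψ 0⟫) (0 : V →L[ℝ] ℝ) (φ v) := by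
        refine (crit_comp (φ.open_target.mem_nhds (φ.map_source hv)) hL' h).congr_of_eventuallyEq ?_
        filter_upwards [φ.open_target.mem_nhds (φ.map_source hv)] with w hw
        have := hM _ (φ.map_target hw)
        rw [φ.right_inv hw] at this
        simp only [Function.comp_apply, this, add_sub_cancel_left]
      exact congrArg (fun D : V →L[ℝ] ℝ => D u) (d1.unique d2)
  refine ⟨φ '' (rho Vs ⁻¹' B), ?_, ⟨0, ?_, φ0⟩, ⟨?_, ?_, fun p => ?_, ?_⟩, ?_⟩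
  · rintro _ ⟨v, hv, rfl⟩
    exact (hsub hv).2
  · have : rho Vs 0 = 0 := Prod.ext (by simp [rho]) (funext fun i => by simp [rho])
    rw [Set.mem_preimage, this]
    exact Metric.mem_ball_self hε
  · exact φ.isOpen_image_of_subset_source (Metric.isOpen_ball.preimage (cont_rho Vs)) hsrc
  · intro x hx y hy a b ha hb hab
    obtain ⟨q, hq, rfl⟩ := (him x).1 hx
    obtain ⟨q', hq', rfl⟩ := (him y).1 hy
    refine (him _).2 ⟨_, hP hq hq' ha hb hab, ?_⟩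
    rw [map_add, map_smul, map_smul, smul_add, smul_add, add_add_add_comm, ← add_smul, hab,
      one_smul]
  · have hc : Convex ℝ ((QQ Vs ∩ B) ∩ piM l lam ⁻¹' {p - Ψ 0}) :=
      hP.inter ((convex_singleton _).linear_preimage _)
    convert hconn _ hc Set.inter_subset_left using 1
    ext x
    constructor
    · rintro ⟨⟨v, hv, rfl⟩, e⟩
      refine ⟨v, ⟨⟨rho_mem ho v, hv⟩, ?_⟩, rfl⟩
      have e' : Ψ (φ v) = p := e
      rw [Set.mem_preimage, Set.mem_singleton_iff, ← e', hM v (hsrc v hv), add_sub_cancel_left]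
    · rintro ⟨v, ⟨hv, e⟩, rfl⟩
      refine ⟨⟨v, hv.2, rfl⟩, ?_⟩
      have e' : piM l lam (rho Vs v) = p - Ψ 0 := e
      rw [Set.mem_preimage, Set.mem_singleton_iff, hM v (hsrc v hv.2), e', add_sub_cancel]
  · rintro _ ⟨a, ha, rfl⟩ W' hW'
    obtain ⟨s, hs, h1, h2⟩ := exists_sec hr ho a
    have n1 : s ⁻¹' (φ ⁻¹' W') ∩ B ∈ 𝓝 (rho Vs a) :=
      Filter.inter_mem (hs.continuousAt.preimage_mem_nhds (by
        rw [h1]
        exact (φ.continuousAt (hsrc a ha)).preimage_mem_nhds hW')) (Metric.isOpen_ball.mem_nhds ha)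
    have n2 := poly_open (piM l lam) (fun i => LinearMap.proj i ∘ₗ LinearMap.snd ℝ V (ι → ℝ))
      (TT Vs) (rho_mem ho a).1 (rho_mem ho a).2 n1
    have n3 : Tendsto (fun y => y - Ψ 0) (𝓝 (Ψ (φ a))) (𝓝 (piM l lam (rho Vs a))) :=
      Continuous.tendsto' (continuous_id.sub continuous_const) _ _ (by
        rw [hM a (hsrc a ha)]
        exact add_sub_cancel_left _ _)
    filter_upwards [self_mem_nhdsWithin, mem_nhdsWithin_of_mem_nhds (n3.eventually n2)]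
      with y hy hy'
    obtain ⟨q, hq, rfl⟩ := (him y).1 hy
    obtain ⟨k, b1, b2, b3, b4⟩ := hy' q hq.1.1 hq.1.2 (add_sub_cancel_left _ _).symm
    have e := h2 k ⟨b1, b2⟩
    have m : rho Vs (s k) ∈ B := by
      rw [e]
      exact b3.2
    exact ⟨φ (s k), ⟨b3.1, s k, m, rfl⟩, by rw [hM _ (hsrc _ m), e, b4, add_sub_cancel]⟩
  · intro Δ Z₀ G hG
    let C : Set (V × (ι → ℝ)) := {q | q ∈ QQ Vs ∩ B ∧ piM l lam q ∈ Δ ∧ ∀ θ ∈ Δᗮ,
      ((∀ u, ⟪θ, l u⟫ = 0) ∧ ∀ i, q.2 i * ⟪θ, lam i⟫ = 0) → θ ∈ Z₀}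
    have hGC : G = φ '' (rho Vs ⁻¹' C) := by
      rw [hG]
      ext x
      constructor
      · rintro ⟨⟨v, hv, rfl⟩, a1, a2⟩
        rw [hM v (hsrc v hv), add_sub_cancel_left] at a1
        exact ⟨v, ⟨⟨rho_mem ho v, hv⟩, a1, fun θ hθ h =>
          a2 θ hθ ((hcrit v (hsrc v hv) θ).2 h)⟩, rfl⟩
      · rintro ⟨v, ⟨hv, a1, a2⟩, rfl⟩
        refine ⟨⟨v, hv.2, rfl⟩, ?_, fun θ hθ h => a2 θ hθ ((hcrit v (hsrc v hv.2) θ).1 h)⟩
        rwa [hM v (hsrc v hv.2), add_sub_cancel_left]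
    have habs : ∀ q ∈ QQ Vs ∩ B, piM l lam q ∈ Δ → ∀ q' ∈ C, ∀ a b : ℝ, 0 ≤ a → 0 < b →
        a + b = 1 → a • q + b • q' ∈ C := by
      intro q hq hΔ q' hq' a b ha hb hab
      refine ⟨hP hq hq'.1 ha hb.le hab, ?_, fun θ hθ h => hq'.2.2 θ hθ ⟨h.1, fun i => ?_⟩⟩
      · rw [map_add, map_smul, map_smul]
        exact Δ.add_mem (Δ.smul_mem _ hΔ) (Δ.smul_mem _ hq'.2.1)
      · rcases mul_eq_zero.1 (h.2 i) with e | e
        · have e' : a * q.2 i + b * q'.2 i = 0 := e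
          have p1 := mul_nonneg ha (hq.1.2 i)
          have p2 := mul_nonneg hb.le (hq'.1.1.2 i)
          rw [(mul_eq_zero.1 (show b * q'.2 i = 0 by linarith)).resolve_left hb.ne', zero_mul]
        · rw [e, mul_zero]
    have hC : Convex ℝ C := convex_iff_forall_pos.2 fun q hq q' hq' a b ha hb hab =>
      habs q hq.1 hq.2.1 q' hq' a b ha.le hb hab
    rw [hGC]
    refine ⟨hconn C hC fun q hq => hq.1, ?_⟩
    rintro ⟨_, v0, hv0, rfl⟩ _ ⟨v, hv, rfl⟩ hΔ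
    rw [hM v (hsrc v hv), add_sub_cancel_left] at hΔ
    obtain ⟨s, hs, h1, h2⟩ := exists_sec hr ho v
    have c1 : rho Vs v ∈ closure C := by
      refine closure_mono ?_ (segment_subset_closure_openSegment
        (left_mem_segment ℝ (rho Vs v) (rho Vs v0)))
      rintro _ ⟨a, b, ha, hb, hab, rfl⟩
      exact habs _ ⟨rho_mem ho v, hv⟩ hΔ _ hv0 a b ha.le hb hab
    have c2 : v ∈ closure (rho Vs ⁻¹' C) := by
      rw [← h1]
      refine map_mem_closure hs c1 fun q hq => ?_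
      rwa [Set.mem_preimage, h2 q hq.1.1]
    exact mem_closure_image (φ.continuousAt (hsrc v hv)) c2

end model

end Model

theorem Model.normal_form_of {V E : Type} [NormedAddCommGroup V] [InnerProductSpace ℝ V]
    [FiniteDimensional ℝ V] [NormedAddCommGroup E] [InnerProductSpace ℝ E] [FiniteDimensional ℝ E]
    (S : Submodule ℝ E) (A : S →ₗ[ℝ] V →L[ℝ] V) (hskew : ∀ θ x y, ⟪A θ x, y⟫ = -⟪x, A θ y⟫)
    (hcomm : ∀ θ θ' x, A θ (A θ' x) = A θ' (A θ x)) (Ψ : V → E) (ω : V →L[ℝ] V →L[ℝ] ℝ)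
    (l : V →L[ℝ] E) (hlS : ∀ v, l v ∈ Sᗮ) (hlA : ∀ θ v, l (A θ v) = 0)
    (hsk : ∀ θ u u', ω (A θ u) u' = -ω u' (A θ u)) (hsym : ∀ θ u u', ω (A θ u) u' = ω (A θ u') u)
    (φ : OpenPartialHomeomorph V V) {c : NNReal} (h0 : 0 ∈ φ.source) (φ0 : φ 0 = 0)
    (hL : LipschitzOnWith c φ φ.source) (hL' : LipschitzOnWith c φ.symm φ.target)
    (h : ∀ v ∈ φ.source, DifferentiableAt ℝ Ψ (φ v) ∧
      (∀ e ∈ Sᗮ, ⟪e, Ψ (φ v) - Ψ 0⟫ = ⟪e, l v⟫) ∧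
        ∀ θ : S, ⟪(θ : E), Ψ (φ v) - Ψ 0⟫ = 1 / 2 * ω (A θ v) v) {W : Set V} (hW : W ∈ 𝓝 0) :
    ∃ U ⊆ W, 0 ∈ U ∧ LocConv Ψ U ∧ ∀ Δ Z₀ : Submodule ℝ E, ∀ G : Set V,
      G = {v | v ∈ U ∧ Ψ v - Ψ 0 ∈ Δ ∧ ∀ θ ∈ Δᗮ, (∀ u, ⟪θ, fderiv ℝ Ψ v u⟫ = 0) → θ ∈ Z₀} →
      IsPreconnected G ∧ (G.Nonempty → ∀ v ∈ U, Ψ v - Ψ 0 ∈ Δ → v ∈ closure G) := by
  obtain ⟨ι, _, Vs, lam, hr, ho, h1, h2, h3⟩ := Model.decomp S A hskew hcomm ω l hlA hsk hsym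
  refine Model.model_main hr ho l lam h2 Ψ φ h0 φ0 hL hL' (fun v hv => (h v hv).1)
    (fun v hv => ?_) hW
  have k1 : ∀ e ∈ Sᗮ, ⟪e, Ψ (φ v) - Ψ 0 - Model.piM l lam (Model.rho Vs v)⟫ = 0 := fun e he => by
    rw [inner_sub_right, (h v hv).2.1 e he, Model.inner_piM l lam h2,
      Finset.sum_eq_zero fun i _ => by
        rw [Submodule.inner_left_of_mem_orthogonal (h1 i) he, mul_zero], add_zero, sub_self]
  have k2 : Ψ (φ v) - Ψ 0 - Model.piM l lam (Model.rho Vs v) ∈ Sᗮ :=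
    (Submodule.mem_orthogonal _ _).2 fun θ hθ => by
      rw [inner_sub_right, (h v hv).2.2 ⟨θ, hθ⟩, Model.inner_piM l lam h2, h3,
        Submodule.inner_right_of_mem_orthogonal hθ (hlS v), zero_add, Finset.mul_sum, sub_eq_zero]
      exact Finset.sum_congr rfl fun i _ => by ring
  have := inner_self_eq_zero.1 (k1 _ k2)
  rwa [sub_sub, sub_eq_zero] at this

end Pool.Agent.Lib.MP_d52947_gt
end

-- part Pool.Agent.Lib.MP_d52947_gt.Model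
section

/-! The local normal form of a moment map. -/

set_option linter.unusedVariables false

namespace Pool.Agent.Lib.MP_d52947_gt

open Filter Topology Module
open scoped RealInnerProductSpace

theorem normal_form {V E : Type} [NormedAddCommGroup V] [InnerProductSpace ℝ V]
    [FiniteDimensional ℝ V] [NormedAddCommGroup E] [InnerProductSpace ℝ E] [FiniteDimensional ℝ E]
    (S : Submodule ℝ E) (A : S →ₗ[ℝ] V →L[ℝ] V) (hskew : ∀ θ x y, ⟪A θ x, y⟫ = -⟪x, A θ y⟫)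
    (hcomm : ∀ θ θ' x, A θ (A θ' x) = A θ' (A θ x))
    (Ψ : V → E) (ω : V → V →L[ℝ] V →L[ℝ] ℝ) (hω : ContDiffAt ℝ 1 ω 0) (hΨ : ContDiffAt ℝ 2 Ψ 0)
    (hm : ∀ᶠ v in 𝓝 0, ∀ (θ : S) u, ⟪(θ : E), fderiv ℝ Ψ v u⟫ = ω v (A θ v) u)
    (l : V →L[ℝ] E) (hlS : ∀ v, l v ∈ Sᗮ)
    (hl : ∀ᶠ v in 𝓝 0, ∀ e ∈ Sᗮ, ⟪e, Ψ v - Ψ 0⟫ = ⟪e, l v⟫) (hlA : ∀ θ v, l (A θ v) = 0)
    (hls : ∀ e ∈ Sᗮ, ∃ v, l v = e) (hnd : ∀ u, (∀ u', ω 0 u u' = 0) → u = 0)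
    (hsk : ∀ θ u u', ω 0 (A θ u) u' = -ω 0 u' (A θ u)) {W : Set V} (hW : W ∈ 𝓝 0) :
    ∃ U ⊆ W, 0 ∈ U ∧ LocConv Ψ U ∧ ∀ Δ Z₀ : Submodule ℝ E, ∀ G : Set V,
      G = {v | v ∈ U ∧ Ψ v - Ψ 0 ∈ Δ ∧ ∀ θ ∈ Δᗮ, (∀ u, ⟪θ, fderiv ℝ Ψ v u⟫ = 0) → θ ∈ Z₀} →
      IsPreconnected G ∧ (G.Nonempty → ∀ v ∈ U, Ψ v - Ψ 0 ∈ Δ → v ∈ closure G) := by
  obtain ⟨hsym, φ, c, h0, φ0, hL, hL', h⟩ := moser S A hskew Ψ ω hω hΨ hm l hlS hl hlA hnd
  exact Model.normal_form_of S A hskew hcomm Ψ (ω 0) l hlS hlA hsk hsym φ h0 φ0 hL hL' h hW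

end Pool.Agent.Lib.MP_d52947_gt
end

-- part Pool.Agent.Lib.MP_d52947_gt.RelA
section

/-! Relative maximal torus theorem and the slice at a group element. -/

set_option linter.unusedSectionVars false

namespace Pool.Agent.Lib.MP_d52947_gt

open Filter Topology Module NormedSpace
open scoped RealInnerProductSpace

namespace Ctx

variable {L : Type} [NormedAddCommGroup L] [InnerProductSpace ℝ L] [FiniteDimensional ℝ L]
  {K : Type} [Group K] [TopologicalSpace K] [IsTopologicalGroup K] [CompactSpace K]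
  [ConnectedSpace K] (C : Ctx L K) {B : Set K} {m s : Submodule ℝ L}

/-- vectors fixed by a set of group elements -/
def FixS (B : Set K) : Submodule ℝ L := ⨅ b ∈ B, C.Fix b

theorem mem_FixS {x : L} : x ∈ C.FixS B ↔ ∀ b ∈ B, C.Ad b x = x := by
  simp only [FixS, Submodule.mem_iInf, mem_Fix]

theorem rel_ad (hm : ∀ x, x ∈ m ↔ ∀ b ∈ B, C.Ad b x = x) {x y : L} (hx : x ∈ m) (hy : y ∈ m) :
    C.ad x y ∈ m := (hm _).2 fun b hb => by rw [C.Ad_ad, (hm x).1 hx b hb, (hm y).1 hy b hb]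

theorem rel_Ad (hm : ∀ x, x ∈ m ↔ ∀ b ∈ B, C.Ad b x = x) {k : K} (hk : ∀ b ∈ B, b * k = k * b)
    {x : L} (hx : x ∈ m) : C.Ad k x ∈ m := (hm _).2 fun b hb => by
  rw [← Ad_mul_apply, hk b hb, Ad_mul_apply, (hm x).1 hx b hb]

theorem rel_comm (hm : ∀ x, x ∈ m ↔ ∀ b ∈ B, C.Ad b x = x) {x : L} (hx : x ∈ m) :
    ∀ b ∈ B, b * C.ex x = C.ex x * b := fun b hb => C.ex_comm (C.mem_Fix.2 ((hm x).1 hx b hb))

theorem Ad_ex_self (x : L) : C.Ad (C.ex x) x = x := C.Ad_ex_fix (C.ad_self x)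

theorem exists_relMax {s₀ : Submodule ℝ L} (h0 : C.IsAb s₀) (h1 : s₀ ≤ m) :
    ∃ s, s₀ ≤ s ∧ ∀ x, x ∈ s ↔ x ∈ m ∧ ∀ y ∈ s, C.ad x y = 0 := by
  obtain ⟨t, h2, h3⟩ := exists_maximal_ge_of_wellFoundedGT (fun t => C.IsAb t ∧ t ≤ m) s₀ ⟨h0, h1⟩
  refine ⟨t, h2, fun x => ⟨fun hx => ⟨h3.1.2 hx, h3.1.1 x hx⟩, fun hx => ?_⟩⟩
  refine h3.2 (y := t ⊔ Submodule.span ℝ {x}) ⟨?_, sup_le h3.1.2 ?_⟩ le_sup_left
    (Submodule.mem_sup_right (Submodule.mem_span_singleton_self x))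
  · intro a ha b hb
    obtain ⟨a, ha', _, h, rfl⟩ := Submodule.mem_sup.1 ha
    obtain ⟨c, rfl⟩ := Submodule.mem_span_singleton.1 h
    obtain ⟨b, hb', _, h, rfl⟩ := Submodule.mem_sup.1 hb
    obtain ⟨d, rfl⟩ := Submodule.mem_span_singleton.1 h
    simp [h3.1.1 a ha' b hb', C.ad_self, hx.2 b hb', C.ad_swap a x, hx.2 a ha']
  · exact (Submodule.span_singleton_le_iff_mem _ _).2 hx.1

theorem isAb_span (x : L) : C.IsAb (Submodule.span ℝ {x}) := fun a ha b hb => by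
  obtain ⟨c, rfl⟩ := Submodule.mem_span_singleton.1 ha
  obtain ⟨d, rfl⟩ := Submodule.mem_span_singleton.1 hb
  simp [C.ad_self]

theorem Ad_perp {a c : K} (h : c * a = a * c) {y : L} (hy : y ∈ (C.Fix a)ᗮ) :
    C.Ad c y ∈ (C.Fix a)ᗮ := fun u hu => by
  rw [C.inner_Ad_right]
  refine hy _ (C.mem_Fix.2 ?_)
  rw [← Ad_mul_apply, ← (show Commute c a from h).inv_left.eq, Ad_mul_apply, C.mem_Fix.1 hu]

end Ctx

namespace Amb

variable {L : Type} [NormedAddCommGroup L] [InnerProductSpace ℝ L] [FiniteDimensional ℝ L]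
  {K : Type} [Group K] [TopologicalSpace K] [IsTopologicalGroup K] [CompactSpace K]
  [ConnectedSpace K] {A : Type} [NormedRing A] [NormedAlgebra ℝ A] [FiniteDimensional ℝ A]
  [CompleteSpace A] [MeasurableSpace A] [BorelSpace A] (C : Amb L K A) {g : ℕ}

include C in
theorem t2 : T2Space K := C.ι_emb.isEmbedding.t2Space

include C in
theorem isClosed_cent (B : Set K) : IsClosed {k : K | ∀ b ∈ B, b * k = k * b} := by
  have := C.t2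
  simp only [Set.ofPred_forall]
  exact isClosed_iInter fun b => isClosed_iInter fun _ => isClosed_eq (by fun_prop) (by fun_prop)

theorem clo_comm {B : Set K} {m : Submodule ℝ L} (hm : ∀ x, x ∈ m ↔ ∀ b ∈ B, C.Ad b x = x)
    {k : K} (hk : k ∈ closure (Subgroup.closure (C.ex '' m) : Set K)) : ∀ b ∈ B, b * k = k * b := by
  refine closure_minimal (t := {k : K | ∀ b ∈ B, b * k = k * b}) (fun k hk => ?_)
    (C.isClosed_cent B) hk
  have : Subgroup.closure (C.ex '' m) ≤ Subgroup.centralizer B := (Subgroup.closure_le _).2 (by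
    rintro _ ⟨x, hx, rfl⟩
    exact C.rel_comm hm hx)
  exact this hk

theorem rel_max {B : Set K} {m : Submodule ℝ L} (hm : ∀ x, x ∈ m ↔ ∀ b ∈ B, C.Ad b x = x)
    {x ρ : L} (hx : x ∈ m) (hρ : ρ ∈ m) :
    ∃ k ∈ closure (Subgroup.closure (C.ex '' m) : Set K),
      (∀ y ∈ m, ⟪C.Ad (C.ex y) (C.Ad k x), ρ⟫ ≤ ⟪C.Ad k x, ρ⟫) ∧ C.ad ρ (C.Ad k x) = 0 := by
  obtain ⟨k, hk, hmax⟩ := (isClosed_closure (s := (Subgroup.closure (C.ex '' m) : Set K))).isCompact.exists_isMaxOn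
    (f := fun k => ⟪C.Ad k x, ρ⟫) ⟨1, subset_closure (Subgroup.one_mem _)⟩
    ((C.cont_Ad.clm_apply continuous_const).inner continuous_const).continuousOn
  have h1 : ∀ y ∈ m, ⟪C.Ad (C.ex y) (C.Ad k x), ρ⟫ ≤ ⟪C.Ad k x, ρ⟫ := fun y hy => by
    rw [← C.Ad_mul_apply]
    exact hmax ((Subgroup.closure (C.ex '' m)).topologicalClosure.mul_mem
      (subset_closure (Subgroup.subset_closure ⟨y, hy, rfl⟩)) hk)
  refine ⟨k, hk, h1, ?_⟩
  have h2 := C.rel_ad hm hρ (C.rel_Ad hm (C.clo_comm hm hk) hx)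
  have h3 := ((C.hasDerivAt_Ad _ (C.Ad k x)).inner ℝ (hasDerivAt_const 0 ρ) :
    HasDerivAt (fun r : ℝ => ⟪C.Ad (C.ex (r • C.ad ρ (C.Ad k x))) (C.Ad k x), ρ⟫) _ 0)
  have h4 := IsLocalMax.hasDerivAt_eq_zero (Eventually.of_forall fun r => by
    simpa [C.ex_zero] using h1 _ (m.smul_mem r h2)) h3
  rw [inner_zero_right, zero_add, C.ad_swap, inner_neg_left, C.inner_ad', neg_eq_zero] at h4
  exact inner_self_eq_zero.1 h4

theorem rel_hunt (B : Set K) {m s : Submodule ℝ L} (hm : ∀ x, x ∈ m ↔ ∀ b ∈ B, C.Ad b x = x)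
    (hs : ∀ x, x ∈ s ↔ x ∈ m ∧ ∀ y ∈ s, C.ad x y = 0) {x : L} (hx : x ∈ m) :
    ∃ k ∈ closure (Subgroup.closure (C.ex '' m) : Set K), C.Ad k x ∈ s := by
  have hab : C.IsAb s := fun a ha => ((hs a).1 ha).2
  obtain ⟨ξ, h1, h2⟩ := C.exists_reg' hab
  obtain ⟨k, hk, -, h3⟩ := C.rel_max hm hx ((hs ξ).1 h1).1
  refine ⟨k, hk, C.WP_ind hab (W := m ⊓ LinearMap.ker (C.ad ξ).toLinearMap)
    (fun η hη y hy => ⟨C.rel_ad hm ((hs η).1 hη).1 hy.1, ?_⟩) s (fun α X Y hX hY h => ?_)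
    ⟨C.rel_Ad hm (C.clo_comm hm hk) hx, h3⟩⟩
  · change C.ad ξ _ = 0
    rw [hab.comm h1 hη, show C.ad ξ y = 0 from hy.2, map_zero]
  · by_cases h0 : α = 0
    · refine (hs X).2 ⟨hX.1, fun y hy => ?_⟩
      rw [C.ad_swap, (h.2 y hy).1, h0]
      simp
    · by_cases h4 : X = 0
      · rw [h4]; exact s.zero_mem
      · exact absurd ((h.2 ξ h1).2.symm.trans hY.2) (smul_ne_zero (h2 α ⟨h0, X, Y, h4, h⟩) h4)

theorem comm_log {B : Set K} {m : Submodule ℝ L} (hm : ∀ x, x ∈ m ↔ ∀ b ∈ B, C.Ad b x = x)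
    {ω ζ : L} (hω : ω ∈ m) (hζ : ζ ∈ m) (h : C.Ad (C.ex ω) ζ = ζ) :
    ∃ ω' ∈ m, C.ex ω' = C.ex ω ∧ C.ad ω' ζ = 0 := by
  have hm' := fun x => C.mem_FixS (B := insert (C.ex ω) B) (x := x)
  have hle : C.FixS (insert (C.ex ω) B) ≤ m := fun x hx =>
    (hm x).2 fun b hb => (hm' x).1 hx b (Or.inr hb)
  have h1 : ∀ x ∈ m, C.Ad (C.ex ω) x = x → x ∈ C.FixS (insert (C.ex ω) B) := fun x hx e =>
    (hm' x).2 (by
      rintro b (rfl | hb)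
      · exact e
      · exact (hm x).1 hx b hb)
  have h2 := h1 ω hω (C.Ad_ex_self ω)
  obtain ⟨s, h3, hs⟩ := C.exists_relMax (C.isAb_span ω)
    ((Submodule.span_singleton_le_iff_mem _ _).2 h2)
  obtain ⟨k, hk, h4⟩ := C.rel_hunt _ hm' hs (h1 ζ hζ h)
  have h5 := C.clo_comm hm' hk
  have h6 : ∀ b ∈ insert (C.ex ω) B, b * k⁻¹ = k⁻¹ * b := fun b hb =>
    (show Commute b k from h5 b hb).inv_right.eq
  refine ⟨C.Ad k⁻¹ ω, hle (C.rel_Ad hm' h6 h2), ?_, ?_⟩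
  · rw [← C.ex_conj, ← h6 _ (Or.inl rfl), mul_inv_cancel_right]
  · rw [← C.Ad_inv_Ad k ζ, ← C.Ad_ad,
      ((hs ω).1 (h3 (Submodule.mem_span_singleton_self ω))).2 _ h4, map_zero]

theorem ex_mul {B : Set K} {m : Submodule ℝ L} (hm : ∀ x, x ∈ m ↔ ∀ b ∈ B, C.Ad b x = x)
    {ω ζ : L} (hω : ω ∈ m) (hζ : ζ ∈ m) (h : C.Ad (C.ex ω) ζ = ζ) :
    ∃ ω' ∈ m, C.ex ω' = C.ex ζ * C.ex ω := by
  obtain ⟨ω', h1, h2, h3⟩ := C.comm_log hm hω hζ h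
  exact ⟨ζ + ω', m.add_mem hζ h1, by rw [C.ex_add _ _ (by rw [C.ad_swap, h3, neg_zero]), h2]⟩

theorem chart_inj : ∃ V ∈ 𝓝 (1 : K), Set.InjOn (fun k => C.P (C.ι k)) V := by
  obtain ⟨c, U, h2, h3⟩ := exists_anti (C.P.contDiff.comp C.contDiff_ej) fun v hv => by
    simpa [C.P_j] using (C.P.hasFDerivAt.comp_hasDerivAt _ (C.deriv_ej v)).unique hv
  refine ⟨_, C.ex_nhds _ h2, ?_⟩
  rintro _ ⟨x, hx, rfl⟩ _ ⟨y, hy, rfl⟩ e
  have := h3 x hx y hy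
  simp only [C.ι_ex] at e
  simp only [Function.comp, e, dist_self, mul_zero, dist_le_zero] at this
  rw [this]

/-- the slice theorem -/
theorem slice (k : K) : ∃ δ > 0, (∀ θ ∈ (C.Fix k)ᗮ, ∀ θ' ∈ (C.Fix k)ᗮ, ∀ ζ ∈ C.Fix k,
    ∀ ζ' ∈ C.Fix k, ‖θ‖ < δ → ‖θ'‖ < δ → ‖ζ‖ < δ → ‖ζ'‖ < δ →
      C.ex θ * (C.ex ζ * k) * (C.ex θ)⁻¹ = C.ex θ' * (C.ex ζ' * k) * (C.ex θ')⁻¹ →
        θ = θ' ∧ ζ = ζ') ∧ ∀ ε > 0, ∀ᶠ μ in 𝓝 k, ∃ θ ∈ (C.Fix k)ᗮ, ∃ ζ ∈ C.Fix k,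
      ‖θ‖ < ε ∧ ‖ζ‖ < ε ∧ μ = C.ex θ * (C.ex ζ * k) * (C.ex θ)⁻¹ := by
  let Φ : (C.Fix k)ᗮ × C.Fix k → K := fun q => C.ex q.1 * (C.ex q.2 * k) * (C.ex q.1)⁻¹
  let G : (C.Fix k)ᗮ × C.Fix k → L := fun q =>
    C.P (exp (C.j q.1) * (exp (C.j q.2) * C.ι k) * exp (C.j (-q.1)) * C.ι k⁻¹)
  have hG : ∀ q, G q = C.P (C.ι (Φ q * k⁻¹)) := fun q => by
    simp only [G, Φ, map_mul, ← C.ι_ex, C.ex_neg]
  have hΦ : Continuous Φ := by
    have := C.cont_ex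
    fun_prop
  have hΦ0 : Φ 0 = k := by simp [Φ, C.ex_zero]
  have hc : ContDiff ℝ 1 G := C.P.contDiff.comp ((((C.contDiff_ej.comp
    ((C.Fix k)ᗮ.subtypeL.contDiff.comp contDiff_fst)).mul ((C.contDiff_ej.comp
      ((C.Fix k).subtypeL.contDiff.comp contDiff_snd)).mul contDiff_const)).mul
        (C.contDiff_ej.comp ((C.Fix k)ᗮ.subtypeL.contDiff.comp contDiff_fst).neg)).mul
          contDiff_const)
  let T : (C.Fix k)ᗮ × C.Fix k →ₗ[ℝ] L := ((1 - C.Ad k).toLinearMap ∘ₗ (C.Fix k)ᗮ.subtype).coprod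
    (C.Fix k).subtype
  have hT : ∀ q, T q = q.1 - C.Ad k q.1 + q.2 := fun q => rfl
  have hd : ∀ q, HasDerivAt (fun r : ℝ => G (r • q)) (T q) 0 := fun q => by
    have := C.P.hasFDerivAt.comp_hasDerivAt _ ((((C.deriv_ej q.1).fun_mul
      ((C.deriv_ej q.2).mul_const (C.ι k))).fun_mul (C.deriv_ej (-q.1))).mul_const (C.ι k⁻¹))
    simp only [smul_neg] at this
    refine this.congr_deriv ?_
    rw [hT, ← C.P_j (_ + _)]
    congr 1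
    simp [C.j_Ad, add_mul, mul_assoc, ι_mul_inv, -map_inv]
    abel
  have hi : ∀ q, T q = 0 → q = 0 := fun q hq => by
    have h1 : ⟪(q.2 : L), T q⟫ = ⟪(q.2 : L), (q.2 : L)⟫ := by
      have h2 : C.Ad k⁻¹ q.2 = q.2 := by
        conv_lhs => rw [← C.mem_Fix.1 q.2.2]
        exact C.Ad_inv_Ad _ _
      rw [hT, inner_add_right, inner_sub_right, C.inner_Ad_right, h2, sub_self, zero_add]
    rw [hq, inner_zero_right, eq_comm, inner_self_eq_zero] at h1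
    rw [hT, h1, add_zero, sub_eq_zero] at hq
    exact Prod.ext (Subtype.ext (inner_self_eq_zero.1 (q.1.2 _ (C.mem_Fix.2 hq.symm))))
      (Subtype.ext h1)
  have hs : Function.Surjective T := (LinearMap.injective_iff_surjective_of_finrank_eq_finrank (by
    rw [finrank_prod, add_comm, Submodule.finrank_add_finrank_orthogonal])).1
      (LinearMap.ker_eq_bot.1 (LinearMap.ker_eq_bot'.2 hi))
  obtain ⟨c, U, h1, h2⟩ := exists_anti hc fun v hv => hi v ((hd v).unique hv)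
  obtain ⟨δ, hδ, h3⟩ := Metric.mem_nhds_iff.1 h1
  refine ⟨δ, hδ, fun θ hθ θ' hθ' ζ hζ ζ' hζ' a1 a2 a3 a4 e => ?_, fun ε hε => ?_⟩
  · have := h2 (⟨θ', hθ'⟩, ⟨ζ', hζ'⟩) (h3 (mem_ball_zero_iff.2 (max_lt a2 a4)))
      (⟨θ, hθ⟩, ⟨ζ, hζ⟩) (h3 (mem_ball_zero_iff.2 (max_lt a1 a3)))
    rw [hG, hG, show Φ (⟨θ, hθ⟩, ⟨ζ, hζ⟩) = Φ (⟨θ', hθ'⟩, ⟨ζ', hζ'⟩) from e, dist_self, mul_zero,
      dist_le_zero] at this
    simpa using this
  · obtain ⟨V, hV, h4⟩ := C.chart_inj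
    have h5 : ∀ᶠ μ in 𝓝 k, μ * k⁻¹ ∈ V :=
      (continuous_mul_const _).continuousAt.preimage_mem_nhds (by simpa using hV)
    have h6 := image_mem_map (m := G) ((hΦ.continuousAt.eventually (hΦ0.symm ▸ h5)).and
      (Metric.ball_mem_nhds (0 : (C.Fix k)ᗮ × C.Fix k) hε))
    rw [map_nhds_of_surj hc fun y => by obtain ⟨v, rfl⟩ := hs y; exact ⟨v, hd v⟩, hG, hΦ0] at h6
    filter_upwards [h5, (by have := C.cont_ι; fun_prop : Continuous fun μ : K =>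
      C.P (C.ι (μ * k⁻¹))).continuousAt.preimage_mem_nhds h6]
    rintro μ a ⟨q, ⟨b1, b2⟩, b3⟩
    rw [hG] at b3
    have b4 := max_lt_iff.1 (mem_ball_zero_iff.1 b2)
    exact ⟨q.1, q.1.2, q.2, q.2.2, b4.1, b4.2, (mul_right_cancel (h4 b1 a b3)).symm⟩

/-- the relative slice theorem -/
theorem rel_slice {B : Set K} {m : Submodule ℝ L} (hm : ∀ x, x ∈ m ↔ ∀ b ∈ B, C.Ad b x = x)
    {k : K} (hk : ∀ b ∈ B, b * k = k * b) {ε : ℝ} (hε : 0 < ε) :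
    ∀ᶠ μ in 𝓝 k, (∀ b ∈ B, b * μ = μ * b) → ∃ θ ∈ m ⊓ (C.Fix k)ᗮ, ∃ ζ ∈ m ⊓ C.Fix k,
      ‖θ‖ < ε ∧ ‖ζ‖ < ε ∧ μ = C.ex θ * (C.ex ζ * k) * (C.ex θ)⁻¹ := by
  obtain ⟨δ, hδ, h1, h2⟩ := C.slice k
  filter_upwards [h2 _ (lt_min hδ hε)]
  rintro μ ⟨θ, hθ, ζ, hζ, a1, a2, rfl⟩ h
  rw [lt_min_iff] at a1 a2
  have h3 : ∀ b ∈ B, C.Ad b θ = θ ∧ C.Ad b ζ = ζ := fun b hb =>
    h1 _ (C.Ad_perp (hk b hb) hθ) _ hθ _ (C.mem_Fix.2 (by
      rw [← C.Ad_mul_apply, ← hk b hb, C.Ad_mul_apply, C.mem_Fix.1 hζ])) _ hζ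
      (by rw [C.norm_Ad]; exact a1.1) a1.1 (by rw [C.norm_Ad]; exact a2.1) a2.1 (by
        rw [← C.ex_conj, ← C.ex_conj, ← mul_inv_eq_iff_eq_mul.2 (h b hb)]
        conv_lhs => rw [← mul_inv_eq_iff_eq_mul.2 (hk b hb)]
        group)
  exact ⟨θ, ⟨(hm θ).2 fun b hb => (h3 b hb).1, hθ⟩, ζ, ⟨(hm ζ).2 fun b hb => (h3 b hb).2, hζ⟩,
    a1.2, a2.2, rfl⟩

theorem conj_mem {B : Set K} {m : Submodule ℝ L} (hm : ∀ x, x ∈ m ↔ ∀ b ∈ B, C.Ad b x = x)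
    {c k : K} (hc : ∀ b ∈ B, b * c = c * b) (hk : k ∈ C.ex '' m) : c * k * c⁻¹ ∈ C.ex '' m := by
  obtain ⟨x, hx, rfl⟩ := hk
  exact ⟨_, C.rel_Ad hm hc hx, (C.ex_conj _ _).symm⟩

theorem ex_local {B : Set K} {m : Submodule ℝ L} (hm : ∀ x, x ∈ m ↔ ∀ b ∈ B, C.Ad b x = x)
    {k : K} (hk : ∀ b ∈ B, b * k = k * b) :
    ∀ᶠ μ in 𝓝 k, (∀ b ∈ B, b * μ = μ * b) → (μ ∈ C.ex '' m ↔ k ∈ C.ex '' m) := by
  filter_upwards [C.rel_slice hm hk one_pos] with μ h h'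
  obtain ⟨θ, hθ, ζ, hζ, -, -, rfl⟩ := h h'
  constructor
  · intro a
    have := C.conj_mem hm (C.rel_comm hm (m.neg_mem hθ.1)) a
    rw [C.ex_neg, show (C.ex θ)⁻¹ * (C.ex θ * (C.ex ζ * k) * (C.ex θ)⁻¹) * (C.ex θ)⁻¹⁻¹ =
      C.ex ζ * k by group] at this
    obtain ⟨ω, h1, h2⟩ := this
    obtain ⟨ω', h3, h4⟩ := C.ex_mul hm h1 (m.neg_mem hζ.1) (by
      rw [h2, C.Ad_mul_apply, map_neg, C.mem_Fix.1 hζ.2, map_neg, C.Ad_ex_self])
    exact ⟨ω', h3, by rw [h4, h2, C.ex_neg, inv_mul_cancel_left]⟩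
  · rintro ⟨ω, h1, rfl⟩
    exact C.conj_mem hm (C.rel_comm hm hθ.1) (C.ex_mul hm h1 hζ.1 (C.mem_Fix.1 hζ.2))

theorem isClosed_ex {B : Set K} {m : Submodule ℝ L} (hm : ∀ x, x ∈ m ↔ ∀ b ∈ B, C.Ad b x = x) :
    IsClosed (C.ex '' m) := by
  have h1 : C.ex '' m ⊆ {k : K | ∀ b ∈ B, b * k = k * b} := by
    rintro _ ⟨x, hx, rfl⟩
    exact C.rel_comm hm hx
  refine isClosed_of_closure_subset fun k hk => ?_
  obtain ⟨μ, h2, h3⟩ := mem_closure_iff_nhds.1 hk _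
    (C.ex_local hm (closure_minimal h1 (C.isClosed_cent B) hk))
  exact (h2 (h1 h3)).1 h3

theorem ex_mul_mem {B : Set K} {m : Submodule ℝ L} (hm : ∀ x, x ∈ m ↔ ∀ b ∈ B, C.Ad b x = x)
    {a b : K} (ha : a ∈ C.ex '' m) (hb : b ∈ C.ex '' m) : a * b ∈ C.ex '' m := by
  obtain ⟨x, hx, rfl⟩ := ha
  have hγ : Continuous fun r : ℝ => C.ex (r • x) * b := by
    have := C.cont_ex
    fun_prop
  have h1 : ∀ r : ℝ, ∀ c ∈ B, c * (C.ex (r • x) * b) = C.ex (r • x) * b * c := fun r c hc => by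
    obtain ⟨y, hy, rfl⟩ := hb
    rw [← mul_assoc, C.rel_comm hm (m.smul_mem r hx) c hc, mul_assoc, C.rel_comm hm hy c hc,
      mul_assoc]
  have h2 : IsClopen {r : ℝ | C.ex (r • x) * b ∈ C.ex '' m} :=
    ⟨(C.isClosed_ex hm).preimage hγ, isOpen_iff_mem_nhds.2 fun r hr =>
      (hγ.continuousAt.eventually (C.ex_local hm (h1 r))).mono fun r' h => (h (h1 r')).2 hr⟩
  have h3 := h2.eq_univ ⟨0, by simpa [C.ex_zero] using hb⟩
  simpa using (h3.ge (Set.mem_univ (1 : ℝ)) : C.ex ((1 : ℝ) • x) * b ∈ C.ex '' m)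

theorem ex_inv_mem {m : Submodule ℝ L} {a : K} (ha : a ∈ C.ex '' m) : a⁻¹ ∈ C.ex '' m := by
  obtain ⟨x, hx, rfl⟩ := ha
  exact ⟨-x, m.neg_mem hx, C.ex_neg x⟩

/-- the relative maximal torus theorem: the exponential map is onto -/
theorem clo_eq {B : Set K} {m : Submodule ℝ L} (hm : ∀ x, x ∈ m ↔ ∀ b ∈ B, C.Ad b x = x) :
    closure (Subgroup.closure (C.ex '' m) : Set K) = C.ex '' m := by
  let H : Subgroup K :=
    { carrier := C.ex '' m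
      mul_mem' := C.ex_mul_mem hm
      one_mem' := ⟨0, m.zero_mem, C.ex_zero⟩
      inv_mem' := C.ex_inv_mem }
  rw [show Subgroup.closure (C.ex '' m) = H from Subgroup.closure_eq H]
  exact (C.isClosed_ex hm).closure_eq

theorem ex_surj : ∀ k, ∃ x, C.ex x = k := fun k => by
  have hm : ∀ x, x ∈ (⊤ : Submodule ℝ L) ↔ ∀ b ∈ (∅ : Set K), C.Ad b x = x := by simp
  have := subset_closure (C.gen_top (Subgroup.closure (C.ex '' (⊤ : Submodule ℝ L)))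
    (fun x => Subgroup.subset_closure ⟨x, trivial, rfl⟩) k)
  rw [C.clo_eq hm] at this
  obtain ⟨x, -, h⟩ := this
  exact ⟨x, h⟩

theorem mem_ex_Fix (k : K) : ∃ x ∈ C.Fix k, C.ex x = k := by
  obtain ⟨x, rfl⟩ := C.ex_surj k
  exact ⟨x, C.mem_Fix.2 (C.Ad_ex_self x), rfl⟩

theorem reg_mem_ex {k : K} (_ : C.Reg k) : ∃ x ∈ C.Fix k, C.ex x = k := C.mem_ex_Fix k

end Amb

end Pool.Agent.Lib.MP_d52947_gt
end

-- part Pool.Agent.Lib.MP_d52947_gt.Rel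
section

/-! Local lifting to a Weyl chamber; regular elements do not separate locally. -/

set_option linter.unusedSectionVars false

namespace Pool.Agent.Lib.MP_d52947_gt

open Filter Topology Module NormedSpace
open scoped RealInnerProductSpace

/-- an isometry preserving a closed convex set has a fixed point in it -/
theorem exists_fix_min {L : Type} [NormedAddCommGroup L] [InnerProductSpace ℝ L]
    [FiniteDimensional ℝ L] {D : Set L} (hne : D.Nonempty) (hc : IsClosed D) (hv : Convex ℝ D)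
    {f : L → L} (hf : ∀ x ∈ D, f x ∈ D) (hn : ∀ x, ‖f x‖ = ‖x‖) : ∃ x ∈ D, f x = x := by
  obtain ⟨x, hx, h1⟩ := hc.exists_infDist_eq_dist hne 0
  have h2 : ∀ y ∈ D, ‖x‖ ≤ ‖y‖ := fun y hy => by
    have := Metric.infDist_le_dist_of_mem (x := (0 : L)) hy
    rwa [h1, dist_zero_left, dist_zero_left] at this
  refine ⟨x, hx, ?_⟩
  have h3 := h2 _ (hv hx (hf x hx) (a := 1 / 2) (b := 1 / 2) (by norm_num) (by norm_num)
    (by norm_num))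
  rw [← smul_add, norm_smul, Real.norm_of_nonneg (by norm_num)] at h3
  have h4 := parallelogram_law_with_norm ℝ x (f x)
  rw [hn] at h4
  have h5 : ‖x - f x‖ * ‖x - f x‖ ≤ 0 := by nlinarith [norm_nonneg x, norm_nonneg (x + f x)]
  have h6 : ‖x - f x‖ = 0 := mul_self_eq_zero.1 (le_antisymm h5 (mul_self_nonneg _))
  exact (sub_eq_zero.1 (norm_eq_zero.1 h6)).symm

/-- locally non-separating dense sets -/
def LN {X : Type} [TopologicalSpace X] (G : Set X) : Prop :=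
  ∀ z, ∀ V ∈ 𝓝 z, ∃ V' ∈ 𝓝 z, V' ⊆ V ∧ IsConnected (V' ∩ G)

section
variable {X : Type} [TopologicalSpace X] {G : Set X}

theorem LN.meets (h : LN G) {z : X} {V : Set X} (hV : V ∈ 𝓝 z) : (V ∩ G).Nonempty := by
  obtain ⟨V', -, h1, h2⟩ := h z V hV
  exact h2.nonempty.mono (Set.inter_subset_inter_left _ h1)

theorem LN.preconn (h : LN G) {O : Set X} (hO : IsOpen O) (hO' : IsPreconnected O) :
    IsPreconnected (O ∩ G) := by
  intro u v hu hv h1 ⟨a, ha⟩ ⟨b, hb⟩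
  by_contra hne
  have ho : ∀ u : Set X, IsOpen {x | ∃ V ∈ 𝓝 x, V ∩ G ⊆ u} := fun u =>
    isOpen_iff_mem_nhds.2 fun x ⟨V, hV, e⟩ =>
      (eventually_eventually_nhds.2 hV).mono fun y hy => ⟨V, hy, e⟩
  obtain ⟨x, hx, ⟨V1, a1, a2⟩, ⟨V2, b1, b2⟩⟩ := hO' _ _ (ho u) (ho v) (fun x hx => by
      obtain ⟨V, h2, h3, h4⟩ := h x O (hO.mem_nhds hx)
      have h5 : V ∩ G ⊆ O ∩ G := Set.inter_subset_inter_left _ h3
      rcases isPreconnected_iff_subset_of_disjoint.1 h4.isPreconnected u v hu hv (h5.trans h1)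
        (Set.not_nonempty_iff_eq_empty.1 fun e => hne (e.mono (Set.inter_subset_inter_left _ h5)))
        with e | e
      · exact Or.inl ⟨V, h2, e⟩
      · exact Or.inr ⟨V, h2, e⟩)
    ⟨a, ha.1.1, u, hu.mem_nhds ha.2, Set.inter_subset_left⟩
    ⟨b, hb.1.1, v, hv.mem_nhds hb.2, Set.inter_subset_left⟩
  obtain ⟨y, ⟨c1, c2, c3⟩, c4⟩ := h.meets (inter_mem (hO.mem_nhds hx) (inter_mem a1 b1))
  exact hne ⟨y, ⟨c1, c4⟩, a2 ⟨c2, c4⟩, b2 ⟨c3, c4⟩⟩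

theorem LN.univ (h : LN G) : LN (Set.univ : Set X) := fun z V hV => by
  obtain ⟨V', h1, h2, h3⟩ := h z V hV
  refine ⟨V' ∩ G ∪ interior V', mem_of_superset (interior_mem_nhds.2 h1) Set.subset_union_right,
    (Set.union_subset Set.inter_subset_left interior_subset).trans h2, ?_⟩
  rw [Set.inter_univ]
  refine h3.subset_closure Set.subset_union_left (Set.union_subset subset_closure fun x hx => ?_)
  refine mem_closure_iff_nhds.2 fun W hW => ?_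
  obtain ⟨y, ⟨a, b⟩, c⟩ := h.meets (inter_mem hW (mem_interior_iff_mem_nhds.1 hx))
  exact ⟨y, a, b, c⟩

theorem LN.open_nhds (h : LN G) {z : X} {V : Set X} (hV : V ∈ 𝓝 z) :
    ∃ O, IsOpen O ∧ IsPreconnected O ∧ z ∈ O ∧ O ⊆ V := by
  have : LocallyConnectedSpace X := locallyConnectedSpace_iff_connected_subsets.2 fun x U hU => by
    obtain ⟨V', h1, h2, h3⟩ := h.univ x U hU
    exact ⟨V', h1, by simpa using h3.isPreconnected, h2⟩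
  obtain ⟨O, h1, h2, h3, h4⟩ := locallyConnectedSpace_iff_subsets_isOpen_isConnected.1 this z V hV
  exact ⟨O, h2, h4.isPreconnected, h3, h1⟩

theorem LN.homeo {Y : Type} [TopologicalSpace Y] (h : LN G) (e : Y ≃ₜ X) : LN (e ⁻¹' G) :=
  fun z V hV => by
    obtain ⟨V', h1, h2, h3⟩ := h (e z) (e.symm ⁻¹' V)
      (e.symm.continuous.continuousAt.preimage_mem_nhds (by simpa using hV))
    refine ⟨e ⁻¹' V', e.continuous.continuousAt.preimage_mem_nhds h1,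
      fun x hx => by simpa using h2 hx, ?_⟩
    rw [← Set.preimage_inter]
    exact e.isConnected_preimage.2 h3

theorem LN.pi {ι : Type} [Finite ι] (h : LN G) (i₀ : ι) : LN {x : ι → X | x i₀ ∈ G} := by
  classical
  intro z V hV
  rw [nhds_pi, mem_pi] at hV
  obtain ⟨I, -, t, ht, hV⟩ := hV
  have h1 : ∀ i, ∃ V' ∈ 𝓝 (z i), V' ⊆ t i ∧
      IsConnected (V' ∩ if i = i₀ then G else Set.univ) := fun i => by
    split_ifs
    · exact h _ _ (ht i)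
    · exact h.univ _ _ (ht i)
  choose W a1 a2 a3 using h1
  refine ⟨Set.univ.pi W, set_pi_mem_nhds Set.finite_univ fun i _ => a1 i,
    fun x hx => hV fun i _ => a2 i (hx i trivial), ?_⟩
  convert isConnected_univ_pi.2 a3 using 1
  ext x
  simp only [Set.mem_inter_iff, Set.mem_pi, Set.mem_univ, true_imp_iff, Set.mem_ofPred_eq]
  refine ⟨fun hx i => ⟨hx.1 i, ?_⟩, fun hx => ⟨fun i => (hx i).1, by simpa using (hx i₀).2⟩⟩
  split_ifs with e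
  · rw [e]; exact hx.2
  · trivial

end

namespace Ctx

variable {L : Type} [NormedAddCommGroup L] [InnerProductSpace ℝ L] [FiniteDimensional ℝ L]
  {K : Type} [Group K] [TopologicalSpace K] [IsTopologicalGroup K] [CompactSpace K]
  [ConnectedSpace K] (C : Ctx L K) {t : Submodule ℝ L} {ξ₀ ρ : L}

theorem sin_of_cos {a : ℝ} (h : Real.cos a = 1) : Real.sin a = 0 := by
  have := Real.sin_sq_add_cos_sq a
  rw [h] at this
  exact pow_eq_zero_iff two_ne_zero |>.1 (by linarith)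

variable {C} in
theorem WP.fix_iff {α X Y ξ : L} (h : C.WP t α X Y) (hα : α ≠ 0) (hX : X ≠ 0) (hξ : ξ ∈ t) :
    X ∈ C.Fix (C.ex ξ) ↔ Real.cos ⟪α, ξ⟫ = 1 := by
  rw [mem_Fix, h.Ad_ex hξ]
  constructor
  · intro e
    have := congrArg (⟪X, ·⟫) e
    simp only [inner_sub_right, real_inner_smul_right, h.perp hα, mul_zero, sub_zero] at this
    exact mul_right_cancel₀ (inner_self_ne_zero.2 hX) (this.trans (one_mul _).symm)
  · intro e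
    rw [e, sin_of_cos e, one_smul, zero_smul, sub_zero]

theorem le_Fix_ex (ht : C.IsMaxAb t) {ξ : L} (hξ : ξ ∈ t) : t ≤ C.Fix (C.ex ξ) := fun _ hy =>
  C.mem_Fix.2 (C.Ad_ex_fix (ht.ab _ hξ _ hy))

theorem reg_cos (ht : C.IsMaxAb t) {ξ : L} (hξ : ξ ∈ t) (h : C.Reg (C.ex ξ)) {α : L}
    (hα : α ∈ C.Wt t) : Real.cos ⟪α, ξ⟫ ≠ 1 := fun e => by
  obtain ⟨h0, X, Y, h1, h2⟩ := hα
  have h3 := (h2.fix_iff h0 h1 hξ).2 e
  have h4 : X ∈ t := (ht X).2 fun y hy => (Reg.maxAb C h).ab _ h3 _ (C.le_Fix_ex ht hξ hy)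
  exact h1 (inner_self_eq_zero.1 (h2.perp_s ht.ab h0 h4))

/-- the chamber of `ρ` for the roots of the centralizer of `ex ξ₀` -/
def Cham (t : Submodule ℝ L) (ξ₀ ρ : L) : Set L :=
  {η | η ∈ t ∧ ∀ α ∈ C.Wt t, Real.cos ⟪α, ξ₀⟫ = 1 → 0 < ⟪α, η⟫ * ⟪α, ρ⟫}

theorem convex_Cham : Convex ℝ (C.Cham t ξ₀ ρ) := fun x hx y hy a b ha hb hab =>
  ⟨t.add_mem (t.smul_mem _ hx.1) (t.smul_mem _ hy.1), fun α hα e => by
    have h1 := hx.2 α hα e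
    have h2 := hy.2 α hα e
    rw [inner_add_right, real_inner_smul_right, real_inner_smul_right, add_mul, mul_assoc, mul_assoc]
    rcases ha.eq_or_lt with rfl | ha
    · rw [zero_add] at hab
      simpa [hab] using h2
    · exact add_pos_of_pos_of_nonneg (mul_pos ha h1) (mul_nonneg hb h2.le)⟩

theorem cham_cen (ht : C.IsMaxAb t) (h0 : ξ₀ ∈ t) {η x : L} (hη : η ∈ C.Cham t ξ₀ ρ)
    (hx : x ∈ C.Fix (C.ex ξ₀)) (h : C.ad η x = 0) : x ∈ t := by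
  refine C.le_of_WP ht (W := C.Fix (C.ex ξ₀) ⊓ LinearMap.ker (C.ad η).toLinearMap)
    (fun ξ hξ y hy => ⟨C.mem_Fix.2 ?_, ?_⟩) (fun α X Y h1 h2 h3 h4 => by_contra fun h5 => ?_) ⟨hx, h⟩
  · rw [C.Ad_ad, C.mem_Fix.1 hy.1, C.mem_Fix.1 (C.le_Fix_ex ht h0 hξ)]
  · change C.ad η _ = 0
    rw [ht.ab.comm hη.1 hξ, show C.ad η y = 0 from hy.2, map_zero]
  · have h6 := hη.2 α ⟨h1, X, Y, h5, h4⟩ ((h4.fix_iff h1 h5 h0).1 h2.1)
    exact smul_ne_zero (left_ne_zero_of_mul h6.ne') h5 ((h4.2 η hη.1).2.symm.trans h3.2)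

theorem exists_eps (ht : C.IsMaxAb t) : ∃ ε > 0, ∀ η ∈ C.Cham t ξ₀ ρ, ‖η‖ ≤ ε →
    ∀ α ∈ C.Wt t, Real.cos ⟪α, ξ₀ + η⟫ ≠ 1 := by
  have h1 : ∀ᶠ η in 𝓝 (0 : L), ∀ α ∈ C.Wt t, |⟪α, η⟫| < 1 ∧
      (Real.cos ⟪α, ξ₀⟫ ≠ 1 → Real.cos ⟪α, ξ₀ + η⟫ ≠ 1) :=
    (eventually_all_finite (C.Wt_finite ht.ab)).2 fun α _ => by
      refine ((by fun_prop : Continuous fun η : L => |⟪α, η⟫|).continuousAt.eventually_lt
        continuousAt_const (by simp)).and ?_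
      by_cases e : Real.cos ⟪α, ξ₀⟫ = 1
      · exact Eventually.of_forall fun _ h => absurd e h
      · exact ((by fun_prop : Continuous fun η : L => Real.cos ⟪α, ξ₀ + η⟫).continuousAt.eventually_ne
          (by simpa using e)).mono fun _ h _ => h
  obtain ⟨ε, hε, h2⟩ := Metric.nhds_basis_closedBall.mem_iff.1 h1
  refine ⟨ε, hε, fun η hη hn α hα => ?_⟩
  have h3 := h2 (mem_closedBall_zero_iff.2 hn) α hα
  by_cases e : Real.cos ⟪α, ξ₀⟫ = 1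
  · rw [inner_add_right, Real.cos_add, e, sin_of_cos e, one_mul, zero_mul, sub_zero]
    exact cos_ne_one (abs_pos.2 (left_ne_zero_of_mul (hη.2 α hα e).ne')) h3.1
  · exact h3.2 e

theorem mem_cham (ht : C.IsMaxAb t) (h0 : ξ₀ ∈ t) (hρ : ∀ α ∈ C.Wt t, ⟪α, ρ⟫ ≠ 0) {η : L}
    (hη : η ∈ t) (h1 : ∀ α ∈ C.Wt t, Real.cos ⟪α, ξ₀⟫ = 1 → 0 ≤ ⟪α, η⟫ * ⟪α, ρ⟫)
    (h2 : C.Reg (C.ex (ξ₀ + η))) : η ∈ C.Cham t ξ₀ ρ := ⟨hη, fun α hα e =>
  (h1 α hα e).lt_of_ne' (mul_ne_zero (fun h => C.reg_cos ht (t.add_mem h0 hη) h2 hα (by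
    rw [inner_add_right, h, add_zero, e])) (hρ α hα))⟩

theorem smul_cham {η : L} (hη : η ∈ C.Cham t ξ₀ ρ) {c : ℝ} (hc : 0 < c) :
    c • η ∈ C.Cham t ξ₀ ρ := ⟨t.smul_mem _ hη.1, fun α hα e => by
  rw [real_inner_smul_right, mul_assoc]; exact mul_pos hc (hη.2 α hα e)⟩

theorem self_cham (h : ρ ∈ t) (hρ : ∀ α ∈ C.Wt t, ⟪α, ρ⟫ ≠ 0) : ρ ∈ C.Cham t ξ₀ ρ :=
  ⟨h, fun α hα _ => mul_self_pos.2 (hρ α hα)⟩

theorem fix_single (z : K) (x : L) : x ∈ C.Fix z ↔ ∀ b ∈ ({z} : Set K), C.Ad b x = x := by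
  simp [mem_Fix]

theorem ex_shift (ht : C.IsMaxAb t) (h0 : ξ₀ ∈ t) {η : L} (hη : η ∈ t) {w : K}
    (hw : C.ex ξ₀ * w = w * C.ex ξ₀) :
    w * C.ex (ξ₀ + η) * w⁻¹ = C.ex (C.Ad w η) * C.ex ξ₀ := by
  rw [add_comm, C.ex_add _ _ (ht.ab _ hη _ h0), ← C.ex_conj, mul_assoc, mul_assoc,
    (show Commute (C.ex ξ₀) w from hw).inv_right.eq]
  simp only [mul_assoc]

end Ctx

namespace Amb

variable {L : Type} [NormedAddCommGroup L] [InnerProductSpace ℝ L] [FiniteDimensional ℝ L]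
  {K : Type} [Group K] [TopologicalSpace K] [IsTopologicalGroup K] [CompactSpace K]
  [ConnectedSpace K] {A : Type} [NormedRing A] [NormedAlgebra ℝ A] [FiniteDimensional ℝ A]
  [CompleteSpace A] [MeasurableSpace A] [BorelSpace A] (C : Amb L K A) {g : ℕ}
  {t : Submodule ℝ L} {ξ₀ ρ : L}

theorem fix_comm {z w : K} (hw : w ∈ C.ex '' C.Fix z) : z * w = w * z := by
  obtain ⟨x, hx, rfl⟩ := hw
  exact C.ex_comm hx

theorem fix_Ad {z w : K} (hw : w ∈ C.ex '' C.Fix z) {x : L} (hx : x ∈ C.Fix z) :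
    C.Ad w x ∈ C.Fix z := C.rel_Ad (C.fix_single z) (by simpa using C.fix_comm hw) hx

theorem cham_exists (ht : C.IsMaxAb t) (h0 : ξ₀ ∈ t) (h1 : ρ ∈ t)
    (hρ : ∀ α ∈ C.Wt t, ⟪α, ρ⟫ ≠ 0) {ζ : L} (hζ : ζ ∈ C.Fix (C.ex ξ₀)) :
    ∃ w ∈ C.ex '' C.Fix (C.ex ξ₀), ∃ η ∈ t, C.Ad w η = ζ ∧
      ∀ α ∈ C.Wt t, Real.cos ⟪α, ξ₀⟫ = 1 → 0 ≤ ⟪α, η⟫ * ⟪α, ρ⟫ := by
  obtain ⟨k, hk, h2, h3⟩ := C.rel_max (C.fix_single _) hζ (C.le_Fix_ex ht h0 h1)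
  rw [C.clo_eq (C.fix_single _)] at hk
  have h4 := C.cham_cen ht h0 (C.self_cham h1 hρ) (C.fix_Ad hk hζ) h3
  refine ⟨k⁻¹, C.ex_inv_mem hk, _, h4, C.Ad_inv_Ad _ _, ?_⟩
  rintro α ⟨hα, X, Y, hX, H⟩ e
  obtain ⟨r, hr⟩ := C.refl_lift H hα hX (H.ad_mem ht)
  have h5 := h2 _ (Submodule.smul_mem _ r ((H.fix_iff hα hX h0).2 e))
  rw [hr _ h4, inner_sub_left, real_inner_smul_left, sub_le_self_iff, div_mul_eq_mul_div,
    le_div_iff₀ (real_inner_self_pos.2 hα)] at h5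
  linarith

theorem cham_unique (ht : C.IsMaxAb t) (h0 : ξ₀ ∈ t) (h1 : ρ ∈ t)
    (hρ : ∀ α ∈ C.Wt t, ⟪α, ρ⟫ ≠ 0) {η η' : L} (hη : η ∈ C.Cham t ξ₀ ρ) (hη' : η' ∈ C.Cham t ξ₀ ρ)
    {u : K} (hu : u ∈ C.ex '' C.Fix (C.ex ξ₀)) (h : C.Ad u η = η') : ∃ τ ∈ t, C.ex τ = u := by
  have hu' := C.ex_inv_mem hu
  have h2 : ∀ y ∈ t, C.Ad u y ∈ t := fun y hy => C.cham_cen ht h0 hη'
    (C.fix_Ad hu (C.le_Fix_ex ht h0 hy)) (by rw [← h, ← C.Ad_ad, ht.ab _ hη.1 _ hy, map_zero])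
  have h3 : ∀ y ∈ t, C.Ad u⁻¹ y ∈ t := fun y hy => C.cham_cen ht h0 hη
    (C.fix_Ad hu' (C.le_Fix_ex ht h0 hy)) (by
      rw [← C.Ad_inv_Ad u η, h, ← C.Ad_ad, ht.ab _ hη'.1 _ hy, map_zero])
  have h4 : ∀ x, x ∈ t ↔ C.Ad u⁻¹ x ∈ t := fun x => ⟨h3 x, fun e => by simpa using h2 _ e⟩
  let P : Set L := {α | α ∈ C.Wt t ∧ Real.cos ⟪α, ξ₀⟫ = 1 ∧ 0 < ⟪α, ρ⟫}
  have h5 : ∀ α ∈ P, C.Ad u⁻¹ α ∈ P := by
    rintro α ⟨hα, e, hp⟩
    have a1 := Ctx.Wt_tr h4 hα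
    obtain ⟨hα0, X, Y, hX, H⟩ := id hα
    have a2 : Real.cos ⟪C.Ad u⁻¹ α, ξ₀⟫ = 1 := ((H.tr h4).fix_iff a1.1 (fun e => hX (by
      rw [← C.Ad_Ad_inv u X, e, map_zero])) h0).1 (C.fix_Ad hu' ((H.fix_iff hα0 hX h0).2 e))
    have a3 := hη.2 _ a1 a2
    rw [← C.inner_Ad_right, h] at a3
    exact ⟨a1, a2, (pos_iff_pos_of_mul_pos a3).1 ((pos_iff_pos_of_mul_pos (hη'.2 α hα e)).2 hp)⟩
  have hP : P.Finite := (C.Wt_finite ht.ab).subset fun _ h => h.1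
  obtain ⟨c, hc⟩ := (hP.image fun α => 1 / ⟪α, ρ⟫).bddAbove
  obtain ⟨y, ⟨a1, a2⟩, a3⟩ := exists_fix_min (D := {y | y ∈ t ∧ ∀ α ∈ P, 1 ≤ ⟪α, y⟫})
    ⟨c • ρ, t.smul_mem _ h1, fun α hα => by
      rw [real_inner_smul_right, ← div_le_iff₀ hα.2.2]; exact hc ⟨α, hα, rfl⟩⟩
    (t.closed_of_finiteDimensional.inter (show IsClosed {y | ∀ α ∈ P, 1 ≤ ⟪α, y⟫} by
      simp only [Set.ofPred_forall]
      exact isClosed_iInter fun α => isClosed_iInter fun _ =>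
        isClosed_le continuous_const (by fun_prop)))
    (fun x hx y hy a b ha hb hab => ⟨t.add_mem (t.smul_mem _ hx.1) (t.smul_mem _ hy.1),
      fun α hα => by
        rw [inner_add_right, real_inner_smul_right, real_inner_smul_right]
        nlinarith [hx.2 α hα, hy.2 α hα]⟩) (f := C.Ad u)
    (fun x hx => ⟨h2 x hx.1, fun α hα => by rw [C.inner_Ad_right]; exact hx.2 _ (h5 α hα)⟩)
    (C.norm_Ad u)
  have a4 : y ∈ C.Cham t ξ₀ ρ := ⟨a1, fun α hα e => by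
    rcases (hρ α hα).lt_or_gt with b | b
    · have := a2 (-α) ⟨C.Wt_neg hα, by rwa [inner_neg_left, Real.cos_neg], by
        rwa [inner_neg_left, neg_pos]⟩
      rw [inner_neg_left] at this
      exact mul_pos_of_neg_of_neg (by linarith) b
    · exact mul_pos (by linarith [a2 α ⟨hα, e, b⟩]) b⟩
  obtain ⟨ω, b1, rfl⟩ := hu
  obtain ⟨ω', b2, b3, b4⟩ := C.comm_log (C.fix_single _) b1 (C.le_Fix_ex ht h0 a1) a3
  exact ⟨ω', C.cham_cen ht h0 a4 b2 (by rw [C.ad_swap, b4, neg_zero]), b3⟩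

theorem exists_data (z : K) : ∃ (t : Submodule ℝ L) (ξ₀ ρ : L), C.IsMaxAb t ∧ ξ₀ ∈ t ∧ ρ ∈ t ∧
    (∀ α ∈ C.Wt t, ⟪α, ρ⟫ ≠ 0) ∧ C.ex ξ₀ = z := by
  obtain ⟨ξ₀, rfl⟩ := C.ex_surj z
  obtain ⟨t, h1, ht⟩ := C.exists_maxAb_ge (C.isAb_span ξ₀)
  obtain ⟨ρ, h2, h3⟩ := C.exists_reg' ht.ab
  exact ⟨t, ξ₀, ρ, ht, h1 (Submodule.mem_span_singleton_self _), h2, h3, rfl⟩

theorem reg_lift (ht : C.IsMaxAb t) (h0 : ξ₀ ∈ t) (h1 : ρ ∈ t)
    (hρ : ∀ α ∈ C.Wt t, ⟪α, ρ⟫ ≠ 0) {ζ : L} (hζ : ζ ∈ C.Fix (C.ex ξ₀)) {c : K}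
    (h : C.Reg (c * (C.ex ζ * C.ex ξ₀) * c⁻¹)) :
    ∃ w ∈ C.ex '' C.Fix (C.ex ξ₀), ∃ η ∈ C.Cham t ξ₀ ρ, ‖η‖ = ‖ζ‖ ∧
      c * (C.ex ζ * C.ex ξ₀) * c⁻¹ = c * w * C.ex (ξ₀ + η) * (c * w)⁻¹ := by
  obtain ⟨w, hw, η, hη, rfl, h2⟩ := C.cham_exists ht h0 h1 hρ hζ
  have h3 : c * (C.ex (C.Ad w η) * C.ex ξ₀) * c⁻¹ = c * w * C.ex (ξ₀ + η) * (c * w)⁻¹ := by
    rw [← C.ex_shift ht h0 hη (C.fix_comm hw)]; group
  refine ⟨w, hw, η, C.mem_cham ht h0 hρ hη h2 ?_, (C.norm_Ad _ _).symm, h3⟩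
  have := h.conj (c * w)⁻¹
  rw [h3] at this
  simpa [mul_assoc] using this

theorem local_lift (z : K) : ∃ (t : Submodule ℝ L) (𝒜 : Set t) (𝒦 : Set K), C.IsMaxAb t ∧
    Convex ℝ 𝒜 ∧ Bornology.IsBounded 𝒜 ∧ IsCompact 𝒦 ∧ (∀ ξ ∈ 𝒜, C.Fix (C.ex ξ) = t) ∧
    (∀ ξ ∈ closure 𝒜, C.Reg (C.ex ξ) → ξ ∈ 𝒜) ∧
    (∀ k ∈ 𝒦, ∀ k' ∈ 𝒦, ∀ ξ ∈ 𝒜, ∀ ξ' ∈ 𝒜, k * C.ex ξ * k⁻¹ = k' * C.ex ξ' * k'⁻¹ →
      ξ = ξ' ∧ ∃ τ ∈ t, k' = k * C.ex τ) ∧
    ∀ᶠ μ in 𝓝 z, C.Reg μ → ∃ k ∈ 𝒦, ∃ ξ ∈ 𝒜, μ = k * C.ex ξ * k⁻¹ := by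
  obtain ⟨t, ξ₀, ρ, ht, h0, h1, hρ, rfl⟩ := C.exists_data z
  obtain ⟨δ, hδ, hu, he⟩ := C.slice (C.ex ξ₀)
  obtain ⟨ε₀, hε₀, hc⟩ := C.exists_eps (ξ₀ := ξ₀) (ρ := ρ) ht
  obtain ⟨ε, hε, a1, a2⟩ : ∃ ε > 0, ε < δ ∧ ε ≤ ε₀ :=
    ⟨min (δ / 2) ε₀, lt_min (half_pos hδ) hε₀, (min_le_left _ _).trans_lt (half_lt_self hδ),
      min_le_right _ _⟩
  refine ⟨t, {ξ | ξ.1 - ξ₀ ∈ C.Cham t ξ₀ ρ ∧ ‖ξ.1 - ξ₀‖ ≤ ε}, (fun q : L × K => C.ex q.1 * q.2) ''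
    ((((C.Fix (C.ex ξ₀))ᗮ : Set L) ∩ Metric.closedBall 0 ε) ×ˢ (C.ex '' C.Fix (C.ex ξ₀))), ht,
    fun x hx y hy a b ha hb hab => ?_, ?_, ?_, fun ξ hξ => ?_, fun ξ hξ hr => ?_, ?_, ?_⟩
  · have e : ((a • x + b • y : t) : L) - ξ₀ = a • (x.1 - ξ₀) + b • (y.1 - ξ₀) := by
      rw [show b = 1 - a by linarith]
      simp only [Submodule.coe_add, Submodule.coe_smul]
      module
    refine ⟨e ▸ C.convex_Cham hx.1 hy.1 ha hb hab, ?_⟩
    rw [e, ← mem_closedBall_zero_iff]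
    exact convex_closedBall 0 ε (mem_closedBall_zero_iff.2 hx.2) (mem_closedBall_zero_iff.2 hy.2)
      ha hb hab
  · exact (Metric.isBounded_closedBall (x := (⟨ξ₀, h0⟩ : t)) (r := ε)).subset fun ξ hξ =>
      mem_closedBall_iff_norm.2 hξ.2
  · exact (((isCompact_closedBall 0 ε).inter_left (Submodule.closed_of_finiteDimensional _)).prod
      (C.isClosed_ex (C.fix_single _)).isCompact).image (by have := C.cont_ex; fun_prop)
  · exact C.Fix_ex ht ξ.2 fun α hα => by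
      simpa using hc _ hξ.1 (hξ.2.trans a2) α hα
  · have b1 : IsClosed {ξ : t | (∀ α ∈ C.Wt t, Real.cos ⟪α, ξ₀⟫ = 1 →
        0 ≤ ⟪α, ξ.1 - ξ₀⟫ * ⟪α, ρ⟫) ∧ ‖ξ.1 - ξ₀‖ ≤ ε} := by
      refine IsClosed.and ?_ (isClosed_le (by fun_prop) continuous_const)
      simp only [Set.ofPred_forall]
      exact isClosed_iInter fun α => isClosed_iInter fun _ => isClosed_iInter fun _ =>
        isClosed_le continuous_const (by fun_prop)
    have b2 := closure_minimal (by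
      exact fun ξ hξ => ⟨fun α hα e => (hξ.1.2 α hα e).le, hξ.2⟩) b1 hξ
    exact ⟨C.mem_cham ht h0 hρ (t.sub_mem ξ.2 h0) b2.1 (by simpa using hr), b2.2⟩
  · rintro _ ⟨⟨θ, w⟩, ⟨⟨b1, b2⟩, b3⟩, rfl⟩ _ ⟨⟨θ', w'⟩, ⟨⟨c1, c2⟩, c3⟩, rfl⟩ ξ hξ ξ' hξ' e
    have d1 := C.ex_shift ht h0 hξ.1.1 (C.fix_comm b3)
    have d2 := C.ex_shift ht h0 hξ'.1.1 (C.fix_comm c3)
    rw [add_sub_cancel] at d1 d2
    obtain ⟨rfl, d3⟩ := hu θ b1 θ' c1 _ (C.fix_Ad b3 (C.le_Fix_ex ht h0 hξ.1.1)) _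
      (C.fix_Ad c3 (C.le_Fix_ex ht h0 hξ'.1.1)) ((mem_closedBall_zero_iff.1 b2).trans_lt a1)
      ((mem_closedBall_zero_iff.1 c2).trans_lt a1) (by rw [C.norm_Ad]; exact hξ.2.trans_lt a1)
      (by rw [C.norm_Ad]; exact hξ'.2.trans_lt a1) (by
        rw [← d1, ← d2]
        simpa only [mul_inv_rev, mul_assoc] using e)
    have d4 : C.Ad (w⁻¹ * w') (ξ'.1 - ξ₀) = ξ.1 - ξ₀ := by rw [C.Ad_mul_apply, ← d3, C.Ad_inv_Ad]
    obtain ⟨τ, d5, d6⟩ := C.cham_unique ht h0 h1 hρ hξ'.1 hξ.1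
      (C.ex_mul_mem (C.fix_single _) (C.ex_inv_mem b3) c3) d4
    rw [← d6, C.Ad_ex_fix (ht.ab _ d5 _ hξ'.1.1), sub_left_inj] at d4
    exact ⟨Subtype.ext d4.symm, τ, d5, by rw [d6]; simp only [mul_assoc, mul_inv_cancel_left]⟩
  · filter_upwards [he ε hε]
    rintro _ ⟨θ, b1, ζ, b2, b3, b4, rfl⟩ hr
    obtain ⟨w, hw, η, hη, c1, c2⟩ := C.reg_lift ht h0 h1 hρ b2 hr
    exact ⟨_, ⟨(θ, w), ⟨⟨b1, mem_closedBall_zero_iff.2 b3.le⟩, hw⟩, rfl⟩,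
      ⟨ξ₀ + η, t.add_mem h0 hη.1⟩, by simpa [c1] using ⟨hη, b4.le⟩, c2⟩

theorem ln_reg : LN {k | C.Reg k} := fun z V hV => by
  obtain ⟨t, ξ₀, ρ, ht, h0, h1, hρ, rfl⟩ := C.exists_data z
  obtain ⟨-, -, -, he⟩ := C.slice (C.ex ξ₀)
  obtain ⟨ε₀, hε₀, hc⟩ := C.exists_eps (ξ₀ := ξ₀) (ρ := ρ) ht
  let Φ : L × L → K := fun q => C.ex q.1 * (C.ex q.2 * C.ex ξ₀) * (C.ex q.1)⁻¹
  have hΦ : Continuous Φ := by have := C.cont_ex; fun_prop
  obtain ⟨ε₁, hε₁, h2⟩ := Metric.mem_nhds_iff.1 (hΦ.continuousAt.preimage_mem_nhds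
    (show V ∈ 𝓝 (Φ 0) by simpa [Φ, C.ex_zero] using hV))
  obtain ⟨ε, hε, a1, a2⟩ : ∃ ε > 0, ε ≤ ε₁ ∧ ε ≤ ε₀ :=
    ⟨min ε₁ ε₀, lt_min hε₁ hε₀, min_le_left _ _, min_le_right _ _⟩
  refine ⟨Φ '' (Metric.ball 0 ε ×ˢ ((C.Fix (C.ex ξ₀) : Set L) ∩ Metric.ball 0 ε)), ?_, ?_, ?_⟩
  · filter_upwards [he ε hε]
    rintro _ ⟨θ, -, ζ, b2, b3, b4, rfl⟩
    exact ⟨(θ, ζ), ⟨mem_ball_zero_iff.2 b3, b2, mem_ball_zero_iff.2 b4⟩, rfl⟩
  · rintro _ ⟨q, ⟨b1, -, b2⟩, rfl⟩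
    exact h2 (mem_ball_zero_iff.2 (max_lt ((mem_ball_zero_iff.1 b1).trans_le a1)
      ((mem_ball_zero_iff.1 b2).trans_le a1)))
  · have b1 : (C.Cham t ξ₀ ρ ∩ Metric.ball 0 ε).Nonempty := by
      obtain ⟨c, c1, c2⟩ := (((by fun_prop : Continuous fun c : ℝ => c • ρ).continuousAt.eventually
        (Metric.ball_mem_nhds _ hε)).filter_mono
          (nhdsWithin_le_nhds (a := (0 : ℝ)) (s := Set.Ioi 0))).and self_mem_nhdsWithin |>.exists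
      exact ⟨c • ρ, C.smul_cham (C.self_cham h1 hρ) c2, by simpa using c1⟩
    have b2 : IsConnected (Metric.ball (0 : L) ε ×ˢ (C.Fix (C.ex ξ₀) : Set L) ×ˢ
        (C.Cham t ξ₀ ρ ∩ Metric.ball 0 ε)) := (((convex_ball 0 ε).prod
      ((Submodule.convex _).prod (C.convex_Cham.inter (convex_ball 0 ε)))).isConnected
        ((Metric.nonempty_ball.2 hε).prod (Set.Nonempty.prod ⟨0, Submodule.zero_mem _⟩ b1)))
    convert b2.image (fun q : L × L × L => C.ex q.1 * C.ex q.2.1 * C.ex (ξ₀ + q.2.2) *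
      (C.ex q.1 * C.ex q.2.1)⁻¹) (by have := C.cont_ex; fun_prop) using 1
    ext μ
    constructor
    · rintro ⟨⟨q, ⟨c1, c2, c3⟩, rfl⟩, hr⟩
      obtain ⟨_, ⟨ω, hω, rfl⟩, η, hη, c4, c5⟩ := C.reg_lift ht h0 h1 hρ c2 hr
      exact ⟨(q.1, ω, η), ⟨c1, hω, hη, by rwa [mem_ball_zero_iff, c4, ← mem_ball_zero_iff]⟩, c5.symm⟩
    · rintro ⟨⟨θ, ω, η⟩, ⟨c1, c2, c3, c4⟩, rfl⟩
      rw [mem_ball_zero_iff] at c4
      refine ⟨⟨(θ, C.Ad (C.ex ω) η), ⟨c1, C.fix_Ad ⟨ω, c2, rfl⟩ (C.le_Fix_ex ht h0 c3.1), by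
        rwa [mem_ball_zero_iff, C.norm_Ad]⟩, ?_⟩, Ctx.Reg.conj ?_ _⟩
      · simp only [Φ]
        rw [← C.ex_shift ht h0 c3.1 (C.ex_comm c2)]
        group
      · rw [Ctx.Reg, C.Fix_ex ht (t.add_mem h0 c3.1) (hc η c3 (c4.le.trans a2)), C.finrank_maxAb ht]

theorem mreg_conn (y : Gen (g + 1) → K) {V : Set (Gen (g + 1) → K)} (hV : V ∈ 𝓝 y) :
    ∃ U ∈ 𝓝 y, U ⊆ V ∧
      IsPreconnected {x | x ∈ U ∧ C.Reg (x (0, false)) ∧ C.Reg (Ctx.mu2 x)} := by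
  let c : (Gen (g + 1) → K) → K := fun x =>
    Ctx.val x (List.ofFn fun i : Fin g => hcomm i.succ).prod
  have hc : Continuous c := cont_val _
  have hu : ∀ x a, c (Function.update x (0, false) a) = c x := fun x a => by
    simp only [c, map_list_prod, List.map_ofFn]
    refine congrArg (fun f => (List.ofFn f).prod) (funext fun i => ?_)
    simp [hcomm, Function.update_of_ne, Fin.succ_ne_zero]
  have hb : ∀ (x : Gen (g + 1) → K) a, Function.update x (0, false) a (0, true) = x (0, true) :=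
    fun x a => Function.update_of_ne (by simp) _ _
  let e : (Gen (g + 1) → K) ≃ₜ (Gen (g + 1) → K) :=
    { toFun := fun x => Function.update x (0, false)
        ((c x)⁻¹ * x (0, true) * x (0, false) * (x (0, true))⁻¹)
      invFun := fun x => Function.update x (0, false)
        ((x (0, true))⁻¹ * c x * x (0, false) * x (0, true))
      left_inv := fun x => by
        simp only [hu, hb, Function.update_self, Function.update_idem]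
        rw [Function.update_eq_self_iff]
        group
      right_inv := fun x => by
        simp only [hu, hb, Function.update_self, Function.update_idem]
        rw [Function.update_eq_self_iff]
        group
      continuous_toFun := continuous_id.update _ (by fun_prop)
      continuous_invFun := continuous_id.update _ (by fun_prop) }
  have h1 := C.ln_reg.pi ((0, false) : Gen (g + 1))
  have h2 := h1.homeo e
  obtain ⟨O, a1, a2, a3, a4⟩ := h1.open_nhds hV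
  refine ⟨O, a1.mem_nhds a3, a4, ?_⟩
  convert h2.preconn (a1.inter (C.isOpen_reg.preimage (continuous_apply (0, false))))
    (h1.preconn a1 a2) using 1
  ext x
  have : e x (0, false) = Ctx.mu2 x := by
    have h3 : e x (0, false) = (c x)⁻¹ * x (0, true) * x (0, false) * (x (0, true))⁻¹ :=
      Function.update_self ((0, false) : Gen (g + 1)) _ x
    rw [h3, Ctx.mu2, relator_succ, map_mul]
    change _ = (_ * c x)⁻¹ * _
    simp [hcomm, mul_assoc]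
  simp only [Set.mem_ofPred_eq, Set.mem_inter_iff, Set.mem_preimage, this, and_assoc]

end Amb

end Pool.Agent.Lib.MP_d52947_gt
end
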