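import Pool.Agent.Lib.MP_d52947_gt.ErgDefs
import Pool.Agent.Lib.MP_d52947_gt.KronA
import Pool.Agent.Lib.MP_d52947_gt.Rel
import Pool.Agent.Lib.MP_d52947_gt.LG

-- part Pool.Agent.Lib.MP_d52947_gt.OmND
section

/-! Coefficients and nondegeneracy of the cup product form. -/

namespace Pool.Agent.Lib.MP_d52947_gt

open Module
open scoped RealInnerProductSpace

namespace Ctx

variable {L : Type} [NormedAddCommGroup L] [InnerProductSpace ℝ L] [FiniteDimensional ℝ L]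
  {K : Type} [Group K] [TopologicalSpace K] (C : Ctx L K) {g : ℕ}

/-- left trivialized value of a cocycle -/
noncomputable def hat (x : Gen g → K) (w : Gen g → L) (e : FG g) : L :=
  C.Ad (val x e)⁻¹ (C.cv x e w)

theorem hat_mul_inv (x : Gen g → K) (w : Gen g → L) (e : FG g) (i : Gen g) :
    C.hat x w (e * (.of i)⁻¹) = C.Ad (x i) (C.hat x w e) - w i := by
  simp [hat, cv_mul, cv_inv, Ad_mul_apply, sub_eq_add_neg]

theorem hat_mul (x : Gen g → K) (w : Gen g → L) (e : FG g) (i : Gen g) :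
    C.hat x w (e * .of i) = C.Ad (x i)⁻¹ (C.hat x w e + w i) := by
  simp [hat, cv_mul, Ad_mul_apply]

/-- the coefficients of the functional `om x w` -/
noncomputable def coef (x : Gen g → K) (w : Gen g → L) (p : Gen g) : L :=
  bif p.2 then C.hat x w (preF p.1 * ga p.1) - C.hat x w (preF (p.1 + 1))
  else C.hat x w (preF p.1) - C.hat x w (preF p.1 * ga p.1 * gb p.1 * (ga p.1)⁻¹)

theorem preF_succ' (i : Fin g) :
    preF (g := g) (i + 1) = preF i * ga i * gb i * (ga i)⁻¹ * (gb i)⁻¹ := by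
  rw [preF_succ, hcomm]; simp only [mul_assoc]

theorem om_coef (x : Gen g → K) (w u : Gen g → L) :
    C.om x w u = ∑ p, ⟪C.coef x w p, u p⟫ := by
  rw [om_apply, fundF, Fintype.sum_prod_type]
  refine Finset.sum_congr rfl fun i _ => ?_
  have h1 : ∀ e y, ⟪C.cv x e w, C.Ad (val x e) y⟫ = ⟪C.hat x w e, y⟫ := fun e y =>
    C.inner_Ad_right ..
  have h2 : ∀ z p, ⟪z, C.cv x (FreeGroup.of p)⁻¹ u⟫ = -⟪C.Ad (x p) z, u p⟫ := fun z p => by
    rw [cv_inv, inner_neg_right, C.inner_Ad_right]; simp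
  have h3 : ∀ p, C.Ad (x p) (C.hat x w (.of p)) = w p := fun p => by simp [hat]
  simp only [h1]
  simp only [h2, h3, cv_of, Fintype.sum_bool, coef, cond_true, cond_false, preF_succ']
  rw [hat_mul_inv _ _ _ _ (i, true), hat_mul_inv _ _ _ _ (i, false)]
  simp only [inner_sub_left]
  ring

theorem coef_zero {x : Gen g → K} {w : Gen g → L} {p : Gen g}
    (h : ∀ y, C.om x w (Pi.single p y) = 0) : C.coef x w p = 0 := by
  have := h (C.coef x w p)
  rw [om_coef, Finset.sum_eq_single p (fun q _ hq => by simp [Pi.single_eq_of_ne hq]) (by simp)]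
    at this
  simpa using this

theorem step_fwd {x : Gen g → K} {w : Gen g → L} {i : Fin g} (h : ∀ s, C.coef x w (i, s) = 0)
    (h0 : C.hat x w (preF i) = 0) : (∀ s, w (i, s) = 0) ∧ C.hat x w (preF (i + 1)) = 0 := by
  have h1 := h false
  have h2 := h true
  simp only [coef, cond_true, cond_false, preF_succ', sub_eq_zero] at h1 h2
  rw [hat_mul_inv, ← h1, h0, map_zero, zero_sub, hat_mul, h0, zero_add] at h2
  rw [h0, hat_mul_inv, hat_mul, hat_mul, h0, zero_add, h2] at h1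
  have h3 : w (i, false) = 0 := by simpa using h1
  have h4 : w (i, true) = 0 := by simpa [h3] using h2
  refine ⟨fun s => by cases s; exacts [h3, h4], ?_⟩
  simp [preF_succ', hat_mul_inv, hat_mul, h0, h3, h4]

theorem step_bwd {x : Gen g → K} {w : Gen g → L} {i : Fin g} (h : ∀ s, C.coef x w (i, s) = 0)
    (h0 : C.hat x w (preF (i + 1)) = 0) : (∀ s, w (i, s) = 0) ∧ C.hat x w (preF i) = 0 := by
  have h1 := h false
  have h2 := h true
  simp only [coef, cond_true, cond_false, h0, sub_eq_zero] at h1 h2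
  rw [preF_succ', hat_mul_inv, ← h1, sub_eq_zero] at h0
  rw [hat_mul_inv, hat_mul _ _ _ _ (i, true), h2, zero_add, ← h0, Ad_inv_Ad] at h1
  have h3 : C.hat x w (preF i) + w (i, false) = 0 := by
    simpa [hat_mul] using congrArg (C.Ad (x (i, false))) h2
  have h4 : C.hat x w (preF i) = 0 := by
    have : C.Ad (x (i, false)) (C.hat x w (preF i)) = 0 := by rw [← h3]; exact (eq_sub_iff_add_eq.1 h1).symm
    simpa using congrArg (C.Ad (x (i, false))⁻¹) this
  refine ⟨fun s => ?_, h4⟩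
  cases s
  · simpa [h4] using h3
  · simp [← h0, h4]

theorem zero_fwd {x : Gen g → K} {w : Gen g → L} (m : ℕ)
    (h : ∀ p : Gen g, (p.1 : ℕ) < m → C.coef x w p = 0) :
    (∀ p : Gen g, (p.1 : ℕ) < m → w p = 0) ∧ (m ≤ g → C.hat x w (preF m) = 0) := by
  induction m with
  | zero => simp [preF_zero, hat]
  | succ m ih =>
    obtain ⟨h1, h2⟩ := ih fun p hp => h p (by omega)
    by_cases hm : m < g
    · have := C.step_fwd (i := ⟨m, hm⟩) (fun s => h _ (by simp)) (h2 hm.le)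
      refine ⟨fun p hp => ?_, fun _ => this.2⟩
      rcases (Nat.lt_succ_iff.1 hp).lt_or_eq with h3 | h3
      · exact h1 p h3
      · subst h3; exact this.1 p.2
    · exact ⟨fun p _ => h1 p (by have := p.1.2; omega), fun _ => by omega⟩

theorem zero_bwd {x : Gen g → K} {w : Gen g → L} (hw : w ∈ C.Z1 x) {m : ℕ} (hm : m ≤ g)
    (h : ∀ p : Gen g, m ≤ (p.1 : ℕ) → C.coef x w p = 0) :
    (∀ p : Gen g, m ≤ (p.1 : ℕ) → w p = 0) ∧ C.hat x w (preF m) = 0 := by
  induction hm using Nat.decreasingInduction with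
  | self => exact ⟨fun p hp => by have := p.1.2; omega, by simp [preF_last, hat, C.mem_Z1.1 hw]⟩
  | of_succ m hm ih =>
    obtain ⟨h1, h2⟩ := ih fun p hp => h p (by omega)
    have := C.step_bwd (i := ⟨m, hm⟩) (fun s => h _ (by simp)) h2
    refine ⟨fun p hp => ?_, this.2⟩
    rcases hp.lt_or_eq with h3 | h3
    · exact h1 p h3
    · subst h3; exact this.1 p.2

theorem om_nd {x : Gen g → K} {w : Gen g → L} (h : ∀ u, C.om x w u = 0) : w = 0 :=
  funext fun p => (C.zero_fwd g fun q _ => C.coef_zero fun _ => h _).1 p p.1.2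

theorem exists_om (x : Gen g → K) (ν : (Gen g → L) →ₗ[ℝ] ℝ) : ∃ w, C.om x w = ν :=
  (LinearMap.injective_iff_surjective_of_finrank_eq_finrank (f := C.om x)
    Subspace.dual_finrank_eq.symm).1
    ((injective_iff_map_eq_zero _).2 fun _ h => C.om_nd fun u => by rw [h]; rfl) ν

theorem exists_inner_of_ker {V : Type} [AddCommGroup V] [Module ℝ V] (f : V →ₗ[ℝ] L)
    (ν : V →ₗ[ℝ] ℝ) (h : ∀ u, f u = 0 → ν u = 0) : ∃ η, ∀ u, ν u = ⟪η, f u⟫ := by
  obtain ⟨l, hl⟩ : ν ∈ LinearMap.range f.dualMap := by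
    rw [LinearMap.range_dualMap_eq_dualAnnihilator_ker, Submodule.mem_dualAnnihilator]
    exact h
  refine ⟨(InnerProductSpace.toDual ℝ L).symm l.toContinuousLinearMap, fun u => ?_⟩
  rw [InnerProductSpace.toDual_symm_apply, ← hl]; rfl

theorem eq_del {x : Gen g → K} {w : Gen g → L} (h : ∀ u ∈ C.Z1 x, C.om x w u = 0) :
    ∃ η, C.del x η = w := by
  obtain ⟨η, hη⟩ := exists_inner_of_ker (C.cv x (relator g)) (C.om x w) h
  refine ⟨η, (sub_eq_zero.1 (C.om_nd (x := x) fun u => ?_)).symm⟩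
  rw [map_sub, LinearMap.sub_apply, om_del, hη, sub_self]

theorem mem_Z1_of_om {x : Gen g → K} (hx : val x (relator g) = 1) {w : Gen g → L}
    (h : ∀ η, C.om x w (C.del x η) = 0) : w ∈ C.Z1 x := by
  have := C.om_add_swap x w (C.del x (C.cv x (relator g) w))
  rw [h, om_del, C.mem_Z1.1 (C.del_mem_Z1 hx _), inner_zero_right, zero_add] at this
  exact inner_self_eq_zero.1 this

theorem exists_dualZ {x : Gen g → K} (hx : val x (relator g) = 1) (ν : C.Z1 x →ₗ[ℝ] ℝ)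
    (h : ∀ u ∈ C.B1 x, ν u = 0) : ∃ v, C.omZ x v = ν := by
  obtain ⟨ν', e⟩ := LinearMap.exists_extend ν
  obtain ⟨w, hw⟩ := C.exists_om x ν'
  refine ⟨⟨w, C.mem_Z1_of_om hx fun η => ?_⟩, LinearMap.ext fun u => ?_⟩
  · rw [hw, ← h ⟨_, C.del_mem_Z1 hx η⟩ (C.mem_B1.2 ⟨η, rfl⟩), ← e]; rfl
  · rw [omZ_apply, hw, ← e]; rfl

theorem mem_B1_of_omZ {x : Gen g → K} {v : C.Z1 x} (h : ∀ u, C.omZ x v u = 0) : v ∈ C.B1 x :=
  C.mem_B1.2 (C.eq_del fun u hu => h ⟨u, hu⟩)

end Ctx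

end Pool.Agent.Lib.MP_d52947_gt
end

-- part Pool.Agent.Lib.MP_d52947_gt.Tan
section

/-! Analytic families of tuples and their tangent maps. -/

namespace Pool.Agent.Lib.MP_d52947_gt

open Filter Topology Module NormedSpace
open scoped RealInnerProductSpace

theorem an_inv {V W : Type} [NormedAddCommGroup V] [NormedSpace ℝ V] [FiniteDimensional ℝ V]
    [NormedAddCommGroup W] [NormedSpace ℝ W] [FiniteDimensional ℝ W] {F : V → W} {a : V}
    (hF : AnalyticAt ℝ F a) (hb : Function.Bijective (fderiv ℝ F a)) :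
    ∃ κ : W → V, AnalyticAt ℝ κ (F a) ∧ (∀ᶠ v in 𝓝 a, κ (F v) = v) ∧
      ∀ᶠ w in 𝓝 (F a), F (κ w) = w := by
  let e : V ≃L[ℝ] W := (LinearEquiv.ofBijective (fderiv ℝ F a).toLinearMap hb).toContinuousLinearEquiv
  have h : HasStrictFDerivAt F (e : V →L[ℝ] W) a := hF.hasStrictFDerivAt
  exact ⟨h.localInverse F e a, (h.toOpenPartialHomeomorph F).analyticAt_symm'
    h.mem_toOpenPartialHomeomorph_source hF h.hasFDerivAt.fderiv, h.eventually_left_inverse,
    h.eventually_right_inverse⟩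

theorem an_ev {G A : Type} [Fintype G] [NormedAddCommGroup A] [NormedSpace ℝ A] (i : G)
    (z : G → A) : AnalyticAt ℝ (fun z : G → A => z i) z :=
  (ContinuousLinearMap.proj (R := ℝ) (φ := fun _ : G => A) i).analyticAt z

theorem ift0 {V W : Type} [NormedAddCommGroup V] [NormedSpace ℝ V] [FiniteDimensional ℝ V]
    [NormedAddCommGroup W] [NormedSpace ℝ W] [FiniteDimensional ℝ W] {F : V → W} {a : V}
    (hF : AnalyticAt ℝ F a) (hs : Function.Surjective (fderiv ℝ F a)) (T : Submodule ℝ V)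
    (hT : ∀ v, v ∈ T ↔ fderiv ℝ F a v = 0) :
    ∃ (κ : T → V) (ρ : V →L[ℝ] T), AnalyticAt ℝ κ 0 ∧ κ 0 = a ∧ fderiv ℝ κ 0 = T.subtypeL ∧
      (∀ᶠ w in 𝓝 0, F (κ w) = F a ∧ ρ (κ w - a) = w) ∧
      ∀ᶠ v in 𝓝 a, F v = F a → κ (ρ (v - a)) = v := by
  obtain ⟨S, hS⟩ := T.exists_isCompl
  let ρ : V →L[ℝ] T := (T.linearProjOfIsCompl S hS).toContinuousLinearMap
  have hρ : ∀ w : T, ρ w = w := fun w => Submodule.linearProjOfIsCompl_apply_left hS w
  have h1 : AnalyticAt ℝ (fun v => ρ (v - a)) a := (ρ.analyticAt _).comp (by fun_prop)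
  have h2 : HasFDerivAt (fun v => (F v, ρ (v - a))) ((fderiv ℝ F a).prod ρ) a :=
    hF.differentiableAt.hasFDerivAt.prodMk
      (ρ.hasFDerivAt.comp a ((hasFDerivAt_id a).sub_const a))
  obtain ⟨κ, h3, h4, h5⟩ := an_inv (hF.prod h1) (by
    rw [h2.fderiv]
    refine ⟨(injective_iff_map_eq_zero _).2 fun v hv => ?_, fun p => ?_⟩
    · have := hρ ⟨v, (hT v).2 (congrArg Prod.fst hv)⟩
      exact congrArg Subtype.val (this.symm.trans (congrArg Prod.snd hv))
    · obtain ⟨v, hv⟩ := hs p.1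
      refine ⟨v + (p.2 - ρ v : T), Prod.ext ?_ ?_⟩
      · simpa [-AddSubgroupClass.coe_sub, (hT _).1 (p.2 - ρ v).2] using hv
      · simp [-AddSubgroupClass.coe_sub, hρ])
  simp only [sub_self, map_zero] at h3 h5
  have h6 : κ (F a, 0) = a := by simpa using h4.self_of_nhds
  have h7 : AnalyticAt ℝ (fun w : T => κ (F a, w)) 0 :=
    h3.comp_of_eq (f := fun w : T => (F a, w)) (by fun_prop) rfl
  have h8 : ∀ᶠ w : T in 𝓝 0, F (κ (F a, w)) = F a ∧ ρ (κ (F a, w) - a) = w :=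
    ((Continuous.prodMk_right (F a)).tendsto (0 : T)).eventually h5 |>.mono fun w hw =>
      Prod.ext_iff.1 hw
  refine ⟨fun w => κ (F a, w), ρ, h7, h6, ?_, h8, h4.mono fun v hv h => by rw [← h]; exact hv⟩
  ext1 w
  have h9 := h7.differentiableAt.hasFDerivAt
  have h10 := HasFDerivAt.comp (f := fun w : T => κ (F a, w)) 0 (by rw [h6]; exact h2) h9
  have h11 : HasFDerivAt (fun w : T => (F a, w)) (ContinuousLinearMap.inr ℝ W T) 0 :=
    hasFDerivAt_prodMk_right _ _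
  have h12 := congrArg (· w) (h10.unique (h11.congr_of_eventuallyEq (h8.mono fun w hw =>
    Prod.ext hw.1 hw.2)))
  have := hρ ⟨_, (hT _).2 (congrArg Prod.fst h12)⟩
  exact congrArg Subtype.val (this.symm.trans (congrArg Prod.snd h12))

namespace Amb

variable {L : Type} [NormedAddCommGroup L] [InnerProductSpace ℝ L] [FiniteDimensional ℝ L]
  {K : Type} [Group K] [TopologicalSpace K] [IsTopologicalGroup K] [CompactSpace K]
  [ConnectedSpace K] {A : Type} [NormedRing A] [NormedAlgebra ℝ A] [FiniteDimensional ℝ A]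
  [CompleteSpace A] (C : Amb L K A) {G G' : Type} [Fintype G] [Fintype G']
  {V V' : Type} [NormedAddCommGroup V] [NormedSpace ℝ V] [NormedAddCommGroup V'] [NormedSpace ℝ V']

theorem word_an (w : FreeGroup G) : ∃ W : (G → A) → A, (∀ z, AnalyticAt ℝ W z) ∧
    ∀ x, W (C.emb x) = C.ι (Ctx.val x w) := by
  induction w using FreeGroup.induction_on with
  | C1 => exact ⟨fun _ => 1, fun _ => analyticAt_const, fun x => by simp⟩
  | of i => exact ⟨fun z => z i, an_ev i, fun x => by simp [emb]⟩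
  | inv_of i _ => exact ⟨fun z => C.tr (z i), fun _ => (C.tr.analyticAt _).comp (an_ev i _),
      fun x => by simp [emb, C.tr_ι]⟩
  | mul a b ha hb =>
    obtain ⟨W, h1, h2⟩ := ha
    obtain ⟨W', h1', h2'⟩ := hb
    exact ⟨fun z => W z * W' z, fun z => (h1 z).mul (h1' z), fun x => by simp only [h2, h2', map_mul]⟩

theorem an_ej (y : L) : AnalyticAt ℝ (fun y : L => exp (C.j y)) y :=
  (exp_analytic (𝕂 := ℝ) _).comp (C.j.analyticAt y)

theorem fd_ej : HasFDerivAt (fun η : L => exp (C.j η)) C.j 0 := by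
  have := (hasFDerivAt_exp_zero (𝕂 := ℝ) (𝔸 := A))
  rw [← map_zero C.j] at this
  exact this.comp 0 C.j.hasFDerivAt

theorem exists_lg : ∃ lg : A → L, AnalyticAt ℝ lg 1 ∧ (∀ᶠ η in 𝓝 0, lg (exp (C.j η)) = η) := by
  have h1 : HasFDerivAt (fun η : L => C.P (exp (C.j η))) (C.P ∘L C.j) 0 :=
    C.P.hasFDerivAt.comp 0 C.fd_ej
  obtain ⟨κ, h2, h3, -⟩ := an_inv ((C.P.analyticAt _).comp (C.an_ej 0)) (by
    rw [Function.comp_def, h1.fderiv, show C.P ∘L C.j = ContinuousLinearMap.id ℝ L from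
      ContinuousLinearMap.ext C.P_j]
    exact Function.bijective_id)
  exact ⟨fun y => κ (C.P y), h2.comp_of_eq (C.P.analyticAt _) (by simp), h3⟩

/-- the logarithm near the identity -/
noncomputable def lg : A → L := C.exists_lg.choose

theorem an_lg : AnalyticAt ℝ C.lg 1 := C.exists_lg.choose_spec.1

theorem lg_exp : ∀ᶠ η in 𝓝 0, C.lg (exp (C.j η)) = η := C.exists_lg.choose_spec.2

theorem lg_one : C.lg 1 = 0 := by simpa using C.lg_exp.self_of_nhds

theorem ex_lg : ∀ᶠ k in 𝓝 1, C.ex (C.lg (C.ι k)) = k := by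
  filter_upwards [C.ex_nhds _ C.lg_exp] with _ ⟨η, h, e⟩
  rw [← e, C.ι_ex, h]

theorem fd_lg (η : L) : fderiv ℝ C.lg 1 (C.j η) = η := by
  have h := C.an_lg.differentiableAt.hasFDerivAt
  rw [show (1 : A) = exp (C.j 0) by simp] at h
  have := (h.comp 0 C.fd_ej).unique ((hasFDerivAt_id 0).congr_of_eventuallyEq C.lg_exp)
  simpa using congrArg (· η) this

/-- exponential chart -/
def mvg (x : G → K) (u : G → L) : G → K := fun i => C.ex (u i) * x i

/-- logarithmic coordinates -/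
noncomputable def crd (x : G → K) (z : G → A) : G → L := fun i => C.lg (z i * C.ι (x i)⁻¹)

/-- analytic families of tuples -/
def AnX (X : V → G → K) (w : V) : Prop := AnalyticAt ℝ (fun w => C.emb (X w)) w

/-- the tangent map in the right trivialization -/
noncomputable def tan (X : V → G → K) (w : V) : V →L[ℝ] (G → L) :=
  ContinuousLinearMap.pi fun i => C.P ∘L (ContinuousLinearMap.mul ℝ A).flip (C.ι (X w i)⁻¹) ∘L
    ContinuousLinearMap.proj i ∘L fderiv ℝ (fun w => C.emb (X w)) w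

theorem tan_apply (X : V → G → K) (w e : V) (i : G) :
    C.tan X w e i = C.P (fderiv ℝ (fun w => C.emb (X w)) w e i * C.ι (X w i)⁻¹) := rfl

theorem mvg_zero (x : G → K) : C.mvg x 0 = x := funext fun i => by simp [mvg, C.ex_zero]

theorem anX_mvg (x : G → K) (u : G → L) : C.AnX (C.mvg x) u := by
  refine analyticAt_pi_iff.2 fun i => ?_
  simp only [emb, mvg, map_mul, C.ι_ex]
  exact ((C.an_ej _).comp (f := fun u : G → L => u i) (an_ev i u)).mul analyticAt_const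

theorem crd_self (x : G → K) : C.crd x (C.emb x) = 0 := funext fun i => by
  simp only [crd, emb, ι_mul_inv, lg_one, Pi.zero_apply]

theorem an_crd (x : G → K) : AnalyticAt ℝ (C.crd x) (C.emb x) :=
  analyticAt_pi_iff.2 fun i => C.an_lg.comp_of_eq (f := fun z : G → A => z i * C.ι (x i)⁻¹)
    ((an_ev i _).mul analyticAt_const) (C.ι_mul_inv _)

theorem mvg_crd (x : G → K) : ∀ᶠ y in 𝓝 x, C.mvg x (C.crd x (C.emb y)) = y := by
  have := eventually_all.2 fun i => (show Tendsto (fun y : G → K => y i * (x i)⁻¹) (𝓝 x) (𝓝 1) from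
    Continuous.tendsto' (by fun_prop) _ _ (by simp)).eventually C.ex_lg
  filter_upwards [this] with y hy
  funext i
  simp only [mvg, crd, emb, ← map_mul, hy i, inv_mul_cancel_right]

theorem crd_mvg (x : G → K) : ∀ᶠ u in 𝓝 0, C.crd x (C.emb (C.mvg x u)) = u := by
  have := eventually_all.2 fun i =>
    (show Tendsto (fun u : G → L => u i) (𝓝 0) (𝓝 0) from (continuous_apply i).tendsto _).eventually
      C.lg_exp
  filter_upwards [this] with u hu
  funext i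
  simp only [mvg, crd, emb, ← map_mul, mul_inv_cancel_right, C.ι_ex, hu i]

variable {C} {X : V → G → K} {w : V}

theorem AnX.cont (h : C.AnX X w) : ContinuousAt X w :=
  C.emb_closed.isEmbedding.isInducing.continuousAt_iff.2 h.continuousAt

theorem AnX.comp (h : C.AnX X w) {ζ : V' → V} {n : V'} (hζ : AnalyticAt ℝ ζ n) (e : ζ n = w) :
    C.AnX (fun n => X (ζ n)) n := AnalyticAt.comp_of_eq h hζ e

theorem AnX.congr {Y : V → G → K} (h : C.AnX X w) (e : X =ᶠ[𝓝 w] Y) : C.AnX Y w :=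
  AnalyticAt.congr h (e.mono fun _ h => congrArg C.emb h)

theorem AnX.ev [CompleteSpace V] (h : C.AnX X w) : ∀ᶠ v in 𝓝 w, C.AnX X v := h.eventually_analyticAt

theorem AnX.val (h : C.AnX X w) (e : FreeGroup G) :
    AnalyticAt ℝ (fun w => C.ι (Ctx.val (X w) e)) w := by
  obtain ⟨W, h1, h2⟩ := C.word_an e
  simpa only [Function.comp_def, h2] using (h1 _).comp h

theorem AnX.wd (h : C.AnX X w) (e : G' → FreeGroup G) :
    C.AnX (fun w i => Ctx.val (X w) (e i)) w := analyticAt_pi_iff.2 fun i => h.val (e i)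

theorem AnX.crd (h : C.AnX X w) : AnalyticAt ℝ (fun v => C.crd (X w) (C.emb (X v))) w :=
  (C.an_crd (X w)).comp (f := fun v => C.emb (X v)) h

theorem AnX.an (h : C.AnX X w) {E : Type} [NormedAddCommGroup E] [NormedSpace ℝ E]
    {f : (G → K) → E} (hf : C.An f) : AnalyticAt ℝ (fun w => f (X w)) w := by
  refine ((hf (X w) _ trivial).comp h.crd).congr ?_
  filter_upwards [h.cont.eventually (C.mvg_crd (X w))] with v hv
  exact congrArg f hv

theorem AnX.sec (h : C.AnX X w) (e : V) {O : Set V} (hO : O ∈ 𝓝 w) :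
    ∃ (vs : ℕ → V) (c : ℕ → ℝ), Tendsto vs atTop (𝓝 w) ∧
      C.Sec (X '' O) (X w) (C.tan X w e) (fun n => X (vs n)) c ∧
      ∀ {E : Type} [NormedAddCommGroup E] [NormedSpace ℝ E] {f : V → E} {f' : V →L[ℝ] E},
        HasFDerivAt f f' w → Tendsto (fun n => c n • (f (vs n) - f w)) atTop (𝓝 (f' e)) := by
  have h0 : Tendsto (fun n : ℕ => w + (n : ℝ)⁻¹ • e) atTop (𝓝 w) := by
    simpa using ((tendsto_inv_atTop_nhds_zero_nat (𝕜 := ℝ)).smul_const e).const_add w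
  obtain ⟨N, hN⟩ := eventually_atTop.1 (h0.eventually hO)
  have hs := tendsto_add_atTop_nat N
  have h1 : ∀ {E : Type} [NormedAddCommGroup E] [NormedSpace ℝ E] {f : V → E} {f' : V →L[ℝ] E},
      HasFDerivAt f f' w → Tendsto (fun n : ℕ => ((n + N : ℕ) : ℝ) •
        (f (w + ((n + N : ℕ) : ℝ)⁻¹ • e) - f w)) atTop (𝓝 (f' e)) := fun hf =>
    (hf.lim_real e |>.comp tendsto_natCast_atTop_atTop).comp hs
  have h2 := h.cont.tendsto.comp (h0.comp hs)
  refine ⟨_, _, h0.comp hs, ⟨fun n => ⟨_, hN _ (Nat.le_add_left N n), rfl⟩, h2, fun i => ?_⟩, h1⟩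
  have h3 := tendsto_pi_nhds.1 (h1 h.differentiableAt.hasFDerivAt) i
  rw [tan_apply, ← C.sec_mem (k := fun n => X (w + ((n + N : ℕ) : ℝ)⁻¹ • e) i * (X w i)⁻¹)
    (c := fun n => ((n + N : ℕ) : ℝ)), mul_assoc, ι_inv_mul, mul_one]
  · exact h3
  · simpa using (tendsto_pi_nhds.1 h2 i).mul_const (X w i)⁻¹
  · refine (h3.mul_const (C.ι (X w i)⁻¹)).congr fun n => ?_
    simp only [Pi.smul_apply, Pi.sub_apply, emb]
    rw [smul_mul_assoc, sub_mul, ι_mul_inv, map_mul]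

theorem AnX.fd_val (h : C.AnX X w) (e : FreeGroup G) (v : V) :
    fderiv ℝ (fun w => C.ι (Ctx.val (X w) e)) w v =
      C.j (C.cv (X w) e (C.tan X w v)) * C.ι (Ctx.val (X w) e) := by
  obtain ⟨vs, c, -, h1, h2⟩ := h.sec v univ_mem
  exact tendsto_nhds_unique (h2 (h.val e).differentiableAt.hasFDerivAt) (h1.word e)

theorem AnX.fd (h : C.AnX X w) (v : V) :
    fderiv ℝ (fun w => C.emb (X w)) w v = C.tv (X w) (C.tan X w v) := by
  obtain ⟨vs, c, -, h1, h2⟩ := h.sec v univ_mem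
  exact tendsto_nhds_unique (h2 h.differentiableAt.hasFDerivAt) (tendsto_pi_nhds.2 h1.sec)

theorem tan_eq {v : V} {u : G → L} (e : fderiv ℝ (fun w => C.emb (X w)) w v = C.tv (X w) u) :
    C.tan X w v = u := funext fun i => by
  rw [tan_apply, e, tv_apply, mul_assoc, ι_mul_inv, mul_one, C.P_j]

theorem AnX.tan_wd (h : C.AnX X w) (e : G' → FreeGroup G) (v : V) (i : G') :
    C.tan (fun w i => Ctx.val (X w) (e i)) w v i = C.cv (X w) (e i) (C.tan X w v) := by
  refine congrFun (tan_eq (u := fun i => C.cv (X w) (e i) (C.tan X w v)) (funext fun i => ?_)) i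
  rw [tv_apply, ← h.fd_val]
  exact congrArg (· v) (fderiv_apply (h.wd e).differentiableAt i).symm

theorem AnX.tan_comp {ζ : V' → V} {n : V'} (h : C.AnX X (ζ n)) (hζ : DifferentiableAt ℝ ζ n) (v : V') :
    C.tan (fun n => X (ζ n)) n v = C.tan X (ζ n) (fderiv ℝ ζ n v) := by
  refine tan_eq ?_
  rw [← h.fd]
  exact congrArg (· v) (fderiv_comp n h.differentiableAt hζ)

theorem tan_congr {Y : V → G → K} (e : X =ᶠ[𝓝 w] Y) : C.tan X w = C.tan Y w := by
  ext v i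
  rw [tan_apply, tan_apply, e.self_of_nhds, Filter.EventuallyEq.fderiv_eq
    (e.mono fun _ h => congrArg C.emb h)]

theorem AnX.an_tan [CompleteSpace V] (h : C.AnX X w) (v : V) :
    AnalyticAt ℝ (fun w => C.tan X w v) w := analyticAt_pi_iff.2 fun i => by
  simp only [tan_apply]
  refine (C.P.analyticAt _).comp (AnalyticAt.mul ?_ (by simpa using h.val (.of i)⁻¹))
  exact ((ContinuousLinearMap.proj i ∘L ContinuousLinearMap.apply ℝ (G → A) v).analyticAt _).comp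
    h.fderiv

theorem AnX.cont_tan [FiniteDimensional ℝ V] (h : C.AnX X w) : ContinuousAt (C.tan X) w := by
  have := FiniteDimensional.complete ℝ V
  refine continuousAt_clm_apply.2 fun v => (h.an_tan v).continuousAt

theorem tan_mvg (C : Amb L K A) (x : G → K) (u : G → L) : C.tan (C.mvg x) 0 u = u := by
  refine tan_eq (funext fun i => ?_)
  have h1 : HasFDerivAt (fun u : G → L => exp (C.j (u i)) * C.ι (x i)) _ 0 :=
    (C.fd_ej.comp (f := fun u : G → L => u i) 0 (hasFDerivAt_apply i 0)).mul_const' _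
  rw [mvg_zero, tv_apply]
  refine (congrArg (· u) (fderiv_apply (C.anX_mvg x 0).differentiableAt i)).symm.trans ?_
  simp only [emb, mvg, map_mul, C.ι_ex]
  rw [h1.fderiv]; simp

theorem AnX.fd_crd (h : C.AnX X w) (v : V) :
    fderiv ℝ (fun u => C.crd (X w) (C.emb (X u))) w v = C.tan X w v := by
  have h1 := h.crd.differentiableAt
  rw [tan_congr (Y := fun u => C.mvg (X w) (C.crd (X w) (C.emb (X u))))
    (h.cont.eventually (C.mvg_crd (X w)) |>.mono fun _ h => h.symm),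
    AnX.tan_comp (C.anX_mvg _ _) h1, crd_self, tan_mvg]

theorem AnX.nhds_le [CompleteSpace V] (h : C.AnX X w) (hs : Function.Surjective (C.tan X w)) :
    𝓝 (X w) ≤ map X (𝓝 w) := by
  have h1 := h.crd.hasStrictFDerivAt.map_nhds_eq_of_surj
    (LinearMap.range_eq_top.2 fun u => (hs u).imp fun v hv => (h.fd_crd v).trans hv)
  intro S hS
  have h2 : (fun u => C.crd (X w) (C.emb (X u))) '' {u | X u ∈ S ∧
      C.mvg (X w) (C.crd (X w) (C.emb (X u))) = X u} ∈ 𝓝 (C.crd (X w) (C.emb (X w))) := by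
    refine h1.ge (image_mem_map ?_)
    exact (show ∀ᶠ u in 𝓝 w, X u ∈ S from hS).and (h.cont.eventually (C.mvg_crd (X w)))
  filter_upwards [((C.an_crd (X w)).continuousAt.comp C.cont_emb.continuousAt).eventually h2,
    C.mvg_crd (X w)] with y ⟨u, ⟨h3, h4⟩, h5⟩ h6
  simp only [Function.comp] at h5
  rwa [← h6, ← h5, h4]

end Amb

end Pool.Agent.Lib.MP_d52947_gt
end

-- part Pool.Agent.Lib.MP_d52947_gt.SecA
section

/-! Algebra of the regular cross-section: moment identity, nondegeneracy, transversality. -/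

set_option linter.unusedSectionVars false

namespace Pool.Agent.Lib.MP_d52947_gt

open Module
open scoped RealInnerProductSpace

namespace Ctx

variable {L : Type} [NormedAddCommGroup L] [InnerProductSpace ℝ L] [FiniteDimensional ℝ L]
  {K : Type} [Group K] [TopologicalSpace K] [IsTopologicalGroup K] [CompactSpace K]
  [ConnectedSpace K] (C : Ctx L K) {g : ℕ} {t : Submodule ℝ L} {y : Gen (g + 1) → K}

/-- the two boundary words -/
def bw (g : ℕ) (s : Bool) : FG (g + 1) := bif s then (relator _)⁻¹ * ga 0 else ga 0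

/-- the two boundary holonomies -/
def bv (y : Gen (g + 1) → K) : Bool → K := fun s => val y (bw g s)

theorem bv_false (y : Gen (g + 1) → K) : bv y false = y (0, false) := by simp [bv, bw]

theorem bv_true (y : Gen (g + 1) → K) : bv y true = mu2 y := by simp [bv, bw, mu2]

theorem val_rel (y : Gen (g + 1) → K) : val y (relator _) = bv y false * (bv y true)⁻¹ := by
  simp [bv, bw]

/-- their differentials -/
noncomputable def bd (y : Gen (g + 1) → K) : (Gen (g + 1) → L) →ₗ[ℝ] (Bool → L) :=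
  LinearMap.pi fun s => C.cv y (bw g s)

theorem bd_apply (u : Gen (g + 1) → L) (s : Bool) : C.bd y u s = C.cv y (bw g s) u := rfl

theorem bd_false (u : Gen (g + 1) → L) : C.bd y u false = u (0, false) := by simp [bd, bw]

theorem bd_true (u : Gen (g + 1) → L) : C.bd y u true =
    C.Ad (val y (relator _))⁻¹ (u (0, false) - C.cv y (relator _) u) := by
  simp [bd, bw, cv_mul, cv_inv, neg_add_eq_sub]

/-- both boundary holonomies have centralizer `t` -/
def Gd (t : Submodule ℝ L) (y : Gen (g + 1) → K) : Prop := ∀ s, C.Fix (bv y s) = t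

theorem le_Fix_mul {k k' : K} (h : t ≤ C.Fix k) (h' : t ≤ C.Fix k') : t ≤ C.Fix (k * k') :=
  fun z hz => by rw [mem_Fix, Ad_mul_apply, C.mem_Fix.1 (h' hz), C.mem_Fix.1 (h hz)]

theorem sx_perp {k : K} (h : t ≤ C.Fix k) {η : L} (hη : η ∈ tᗮ) : C.Ad k η ∈ tᗮ := fun z hz => by
  rw [inner_Ad_right, C.mem_Fix.1 (C.Fix_inv k ▸ h hz), hη z hz]

theorem mem_of_Ad {k : K} (h : t ≤ C.Fix k) {η : L} (hη : C.Ad k η ∈ t) : η ∈ t := by
  rwa [← C.Ad_inv_Ad k η, C.mem_Fix.1 (C.Fix_inv k ▸ h hη)]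

theorem fix_of_sub {k : K} {z : L} (h : z - C.Ad k z ∈ C.Fix k) : z ∈ C.Fix k := by
  have := C.pj_of_mem h
  rw [pj_sub_Ad, eq_comm, sub_eq_zero] at this
  exact C.mem_Fix.2 this.symm

variable {C}

theorem Gd.a (h : C.Gd t y) : C.Fix (y (0, false)) = t := bv_false y ▸ h false

theorem Gd.r (h : C.Gd t y) : t ≤ C.Fix (val y (relator _)) := by
  rw [val_rel]
  exact C.le_Fix_mul (h false).ge (by rw [Fix_inv]; exact (h true).ge)

theorem Gd.r' (h : C.Gd t y) : t ≤ C.Fix (val y (relator _))⁻¹ := h.r.trans (C.Fix_inv _).ge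

theorem Gd.cv_mem (h : C.Gd t y) {u : Gen (g + 1) → L} (hu : ∀ s, C.bd y u s ∈ t) :
    C.cv y (relator _) u ∈ t := by
  have h1 := hu true
  have h2 := hu false
  rw [bd_true] at h1
  rw [bd_false] at h2
  simpa using sub_mem h2 (C.mem_of_Ad h.r' h1)

variable (C t) in
/-- the generating vector fields of the action of the torus -/
noncomputable def Wv (y : Gen (g + 1) → K) : WithLp 2 (t × t) →ₗ[ℝ] (Gen (g + 1) → L) where
  toFun θ := C.del y (-θ.snd) + C.twv y (-θ.snd - θ.fst)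
  map_add' θ θ' := by
    simp only [WithLp.add_snd, WithLp.add_fst, Submodule.coe_add, neg_add, map_add, map_sub,
      map_neg]
    abel
  map_smul' c θ := by
    simp only [WithLp.smul_snd, WithLp.smul_fst, Submodule.coe_smul, map_sub, map_neg, map_smul,
      RingHom.id_apply, smul_add, smul_sub, smul_neg]

theorem Wv_apply (θ : WithLp 2 (t × t)) :
    C.Wv t y θ = C.del y (-θ.snd) + C.twv y (-θ.snd - θ.fst) := rfl

theorem Gd.tw_mem (h : C.Gd t y) (θ : WithLp 2 (t × t)) :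
    -(θ.snd : L) - θ.fst ∈ C.Fix (y (0, false)) := h.a.ge (sub_mem (neg_mem θ.snd.2) θ.fst.2)

theorem Gd.om_Wv (h : C.Gd t y) (θ : WithLp 2 (t × t)) (v : Gen (g + 1) → L) :
    C.om y (C.Wv t y θ) v = ⟪(θ.fst : L), C.bd y v false⟫ + ⟪(θ.snd : L), C.bd y v true⟫ := by
  rw [Wv_apply, map_add, LinearMap.add_apply, om_del, C.om_twv y (h.tw_mem θ), bd_false, bd_true,
    inner_Ad_right, inv_inv, C.mem_Fix.1 (h.r θ.snd.2)]
  simp only [inner_sub_left, inner_sub_right, inner_neg_left]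
  ring

theorem Gd.bd_Wv (h : C.Gd t y) (θ : WithLp 2 (t × t)) : C.bd y (C.Wv t y θ) = 0 := by
  funext s
  have h1 : C.bd y (C.twv y (-θ.snd - θ.fst)) s = 0 := by
    cases s
    · rw [bd_false, twv_a]
    · rw [bd_true, twv_a, C.mem_Z1.1 (C.twv_mem y (h.tw_mem θ)), sub_zero, map_zero]
  rw [Wv_apply, map_add, Pi.add_apply, h1, bd_apply, cv_del, add_zero, Pi.zero_apply, sub_eq_zero]
  exact (C.mem_Fix.1 ((h s).ge (neg_mem θ.snd.2))).symm

theorem rel_eq : relator (g + 1) = hcomm 0 * wl (List.ofFn Fin.succ) := by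
  rw [relator_succ, wl, List.map_ofFn]; rfl

variable (C) in
/-- conjugation of the first boundary -/
noncomputable def X1 (y : Gen (g + 1) → K) (θ : L) : Gen (g + 1) → L :=
  Pi.single (0, false) (θ - C.Ad (y (0, false)) θ) - C.twv y θ

theorem X1_a (θ : L) : C.X1 y θ (0, false) = θ - C.Ad (y (0, false)) θ := by simp [X1, twv_a]

theorem X1_b (θ : L) : C.X1 y θ (0, true) = -C.Ad (y (0, true)) θ := by simp [X1, twv_b]

theorem X1_succ (θ : L) (j : Fin g) (s : Bool) : C.X1 y θ (j.succ, s) = 0 := by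
  simp [X1, twv_succ, Fin.succ_ne_zero]

theorem cv_rel_of {u : Gen (g + 1) → L} (h : ∀ (j : Fin g) s, u (j.succ, s) = 0) :
    C.cv y (relator _) u = C.cv y (hcomm 0) u := by
  rw [rel_eq, cv_mul, C.cv_wl_zero, map_zero, add_zero]
  intro i hi s
  obtain ⟨j, rfl⟩ := List.mem_ofFn.1 hi
  exact h j s

theorem cv_X1 (θ : L) : C.cv y (relator _) (C.X1 y θ) = θ - C.Ad (y (0, false)) θ := by
  rw [cv_rel_of (X1_succ θ), cv_hcomm]
  simp only [X1_a, X1_b, Ad_mul_apply, map_sub, map_neg, Ad_inv_Ad]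
  abel

theorem om_X1 (θ : L) (v : Gen (g + 1) → L) : C.om y (C.X1 y θ) v =
    ⟪θ - C.Ad (y (0, false)) θ, C.cv y (relator _) v⟫ + ⟪C.Ad (y (0, false)) θ, v (0, false)⟫ := by
  rw [← cv_X1, ← om_add_swap, add_assoc, left_eq_add, om_apply, fundF, Fin.sum_univ_succ,
    Finset.sum_eq_zero fun j _ => by simp [cv_inv, X1_succ]]
  simp only [Fin.val_zero, preF_zero, one_mul, cv_mul, cv_inv, cv_of, cv_one, X1_a, X1_b,
    map_mul, map_inv, FreeGroup.lift_apply_of, ContinuousLinearMap.mul_apply, inner_zero_left,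
    map_neg, map_sub, inner_neg_right, inner_neg_left, inner_add_left, inner_sub_right,
    C.inner_Ad, Ad_inv_Ad, Ad_Ad_inv, neg_neg, real_inner_comm (v (0, false))]
  ring

theorem Gd.nd (h : C.Gd t y) {u : Gen (g + 1) → L} (hu : ∀ s, C.bd y u s ∈ t)
    (h0 : ∀ v, (∀ s, C.bd y v s ∈ t) → C.om y u v = 0) : u = 0 := by
  let q : Bool → (Gen (g + 1) → L) →ₗ[ℝ] L := fun s =>
    (tᗮ.starProjection : L →ₗ[ℝ] L) ∘ₗ C.cv y (bw g s)
  obtain ⟨η, hη⟩ := exists_inner_of_ker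
    ((WithLp.linearEquiv 2 ℝ (L × L)).symm.toLinearMap ∘ₗ (q false).prod (q true)) (C.om y u)
    fun v hv => h0 v fun s => by
      rw [← t.orthogonal_orthogonal, ← Submodule.starProjection_apply_eq_zero_iff]
      cases s
      exacts [congr(($hv).fst), congr(($hv).snd)]
  obtain ⟨η₁, h1, e1⟩ : ∃ η₁ ∈ tᗮ, ∀ z, ⟪η.fst, tᗮ.starProjection z⟫ = ⟪η₁, z⟫ :=
    ⟨_, tᗮ.starProjection_apply_mem _, fun z =>
      (Submodule.inner_starProjection_left_eq_right ..).symm⟩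
  obtain ⟨η₂, h2, e2⟩ : ∃ η₂ ∈ tᗮ, ∀ z, ⟪η.snd, tᗮ.starProjection z⟫ = ⟪η₂, z⟫ :=
    ⟨_, tᗮ.starProjection_apply_mem _, fun z =>
      (Submodule.inner_starProjection_left_eq_right ..).symm⟩
  have h3 := C.sx_perp h.r h2
  set a := y (0, false)
  have ha : t ≤ C.Fix a := h.a.ge
  set θ := C.Ad a⁻¹ (η₁ + C.Ad (val y (relator _)) η₂) with hθ
  have h4 : θ ∈ tᗮ := C.sx_perp (C.Fix_inv a ▸ ha) (add_mem h1 h3)
  set ζ := -(θ - C.Ad a θ) - C.Ad (val y (relator _)) η₂ with hζ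
  have h5 : ζ ∈ tᗮ := sub_mem (neg_mem (sub_mem h4 (C.sx_perp ha h4))) h3
  have e : u = C.X1 y θ + C.del y ζ := sub_eq_zero.1 (C.om_nd (x := y) fun v => by
    rw [map_sub, LinearMap.sub_apply, hη, map_add, LinearMap.add_apply, om_X1, om_del,
      WithLp.prod_inner_apply, sub_eq_zero]
    refine (congrArg₂ _ (e1 (C.bd y v false)) (e2 (C.bd y v true))).trans ?_
    rw [bd_false, bd_true, inner_Ad_right, inv_inv, hζ, hθ, Ad_Ad_inv]
    simp only [inner_sub_left, inner_add_left, inner_neg_left, inner_sub_right]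
    ring)
  have h6 : θ + ζ = 0 := (Submodule.disjoint_def.1 t.orthogonal_disjoint) _ (by
    rw [← h.a]
    refine C.fix_of_sub ?_
    have := hu false
    rw [bd_false, e, Pi.add_apply, X1_a, del_apply, ← h.a] at this
    convert this using 1
    rw [map_add]; abel) (add_mem h4 h5)
  have h7 : θ = 0 := (Submodule.disjoint_def.1 t.orthogonal_disjoint) _ (by
    have := h.cv_mem hu
    rw [e, map_add, cv_X1, cv_del, eq_neg_of_add_eq_zero_right h6, val_rel, bv_false] at this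
    rw [← h true, ← Fix_inv]
    refine C.fix_of_sub ?_
    rw [Fix_inv, h true]
    refine C.mem_of_Ad ha ?_
    convert neg_mem this using 1
    simp only [map_sub, map_neg, Ad_mul_apply]
    abel) h4
  rw [h7, zero_add] at h6
  rw [e, h6, h7]
  simp [X1]

theorem Gd.tr (h : C.Gd t y) {η : L}
    (h0 : ∀ v : Gen (g + 1) → L, v (0, false) = 0 → ⟪η, C.bd y v true⟫ = 0) : η ∈ t := by
  set ζ := C.Ad (val y (relator _)) η with hζ
  have h1 : ∀ v : Gen (g + 1) → L, v (0, false) = 0 → ⟪ζ, C.cv y (relator _) v⟫ = 0 := fun v hv => by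
    have := h0 v hv
    rwa [bd_true, hv, inner_Ad_right, inv_inv, zero_sub, inner_neg_right, neg_eq_zero] at this
  have h2 : C.Ad (y (0, false))⁻¹ ζ = C.Ad (val y (hcomm 0))⁻¹ ζ := ext_inner_right ℝ fun z => by
    have := h1 (Pi.single (0, true) z) (by simp)
    rw [cv_rel_of fun j s => by simp [Fin.succ_ne_zero], cv_hcomm] at this
    rw [← inner_Ad_right, ← inner_Ad_right, ← sub_eq_zero, ← inner_sub_right, ← this]
    simp [hcomm]
  have h3 : C.Ad (val y (hcomm 0))⁻¹ ζ ∈ C.cen y (List.ofFn Fin.succ) :=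
    C.mem_cen_of_perp y (List.nodup_ofFn.2 (Fin.succ_injective g)) fun u hu => by
      have h4 := hu 0 (by simp)
      have := h1 u (h4 _)
      rw [rel_eq, cv_mul, cv_hcomm] at this
      rw [← inner_Ad_right, ← this]
      simp [h4]
  have h4 := (C.cen_perp y 0 h3).2
  have h5 : C.Ad (val y (hcomm 0))⁻¹ ζ = η := by
    have : C.Ad (val y (wl (List.ofFn Fin.succ))) η = C.Ad (val y (hcomm 0))⁻¹ ζ := by
      rw [hζ, rel_eq, map_mul, Ad_mul_apply, Ad_inv_Ad]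
    rw [← h4] at this
    simpa using (congrArg (C.Ad (val y (wl (List.ofFn Fin.succ)))⁻¹) this).symm
  rw [h5, hζ, val_rel, bv_false, Ad_mul_apply, Ad_inv_Ad] at h2
  rw [← h true, ← Fix_inv]
  exact C.mem_Fix.2 h2

section Stab

variable {θ : WithLp 2 (t × t)}

theorem stab_b (hθ : C.Wv t y θ = 0) : C.Ad (y (0, true)) θ.fst = -θ.snd := by
  have := congrFun hθ (0, true)
  rw [Wv_apply, Pi.add_apply, del_apply, twv_b, map_sub, Pi.zero_apply] at this
  linear_combination (norm := abel1) -this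

theorem stab_succ (hθ : C.Wv t y θ = 0) (j : Fin g) (s : Bool) :
    C.Ad (y (j.succ, s)) (-θ.snd) = -θ.snd := by
  have := congrFun hθ (j.succ, s)
  rw [Wv_apply, Pi.add_apply, del_apply, twv_succ, add_zero, Pi.zero_apply, sub_eq_zero] at this
  exact this.symm

theorem Gd.cv_ad (ht : C.IsAb t) (h : C.Gd t y) (hθ : C.Wv t y θ = 0) {u : Gen (g + 1) → L}
    (hu : ∀ s, C.bd y u s ∈ t) : C.cv y (relator _) (fun i => C.ad (-θ.snd) (u i)) = 0 := by
  have h1 : u (0, false) ∈ t := C.bd_false u ▸ hu false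
  have hq := neg_mem θ.snd.2
  have ha : ∀ z ∈ t, C.Ad (y (0, false)) z = z := fun z hz => C.mem_Fix.1 (h.a.ge hz)
  have ha' : ∀ z ∈ t, C.Ad (y (0, false))⁻¹ z = z := fun z hz =>
    C.mem_Fix.1 ((C.Fix_inv _).ge (h.a.ge hz))
  have hb : C.Ad (y (0, true))⁻¹ (-θ.snd) = θ.fst := by rw [← stab_b hθ, Ad_inv_Ad]
  have h2 : C.Ad (val y (hcomm 0)) (-θ.snd) = -θ.snd := by
    simp only [hcomm, map_mul, map_inv, FreeGroup.lift_apply_of, ContinuousLinearMap.mul_apply, hb,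
      ha' _ θ.fst.2, stab_b hθ, ha _ hq]
  rw [← ht _ hq _ (h.cv_mem hu), rel_eq, cv_mul, cv_mul, (C.cv_wl_comm y u _ ?_).1, map_add,
    C.Ad_ad, h2, cv_hcomm, cv_hcomm]
  · have h3 : C.ad (-θ.snd) (C.Ad (y (0, false) * y (0, true) * (y (0, false))⁻¹)
        (u (0, false))) = 0 := by
      rw [Ad_mul_apply, ha' _ h1, ← ha _ hq, ← stab_b hθ, ← Ad_mul_apply, ← C.Ad_ad,
        ht _ θ.fst.2 _ h1, map_zero]
    have h4 : C.Ad (y (0, false) * y (0, true) * (y (0, false))⁻¹ * (y (0, true))⁻¹) (-θ.snd) =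
        -θ.snd := by simpa only [hcomm, map_mul, map_inv, FreeGroup.lift_apply_of] using h2
    rw [map_sub, map_sub, map_add, h3, ht _ hq _ h1, map_zero, C.Ad_ad, C.Ad_ad, h4, ha _ hq]
  · intro i hi s z
    obtain ⟨j, rfl⟩ := List.mem_ofFn.1 hi
    rw [C.Ad_ad, stab_succ hθ]

theorem Gd.bd_ad (ht : C.IsAb t) (h : C.Gd t y) (hθ : C.Wv t y θ = 0) {u : Gen (g + 1) → L}
    (hu : ∀ s, C.bd y u s ∈ t) : C.bd y (fun i => C.ad (-θ.snd) (u i)) = 0 := by
  have h1 := ht _ (neg_mem θ.snd.2) _ (C.bd_false u ▸ hu false)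
  funext s
  cases s
  · rw [bd_false, h1, Pi.zero_apply]
  · rw [bd_true, h.cv_ad ht hθ hu, h1, sub_zero, map_zero, Pi.zero_apply]

end Stab

variable (C) in
/-- the action of a one-parameter subgroup of the torus -/
def flw (y : Gen (g + 1) → K) (θ : WithLp 2 (t × t)) (s : ℝ) : Gen (g + 1) → K :=
  cjg (C.ex (s • -θ.snd)) (tb y (C.ex (s • (-θ.snd - θ.fst))))

theorem flw_zero (θ : WithLp 2 (t × t)) : C.flw y θ 0 = y := by
  funext i; simp [flw, cjg, C.ex_zero, tb_one]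

theorem Gd.bv_flw (h : C.Gd t y) (θ : WithLp 2 (t × t)) (s : ℝ) : bv (C.flw y θ s) = bv y := by
  funext b
  have h1 : val (tb y (C.ex (s • (-θ.snd - θ.fst)))) (bw g b) = bv y b := by
    have := val_tb (C.ex_comm (Submodule.smul_mem _ s (h.tw_mem θ)))
    cases b <;> simp [bw, bv, this, tb_a]
  refine (val_conj _ _ _).trans ?_
  rw [h1, ← C.ex_comm ((h b).ge (t.smul_mem s (neg_mem θ.snd.2))), mul_inv_cancel_right]

theorem Gd.flw_fix (ht : C.IsAb t) (h : C.Gd t y) {θ : WithLp 2 (t × t)} (hθ : C.Wv t y θ = 0)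
    (s : ℝ) : C.flw y θ s = y := by
  have hq := t.smul_mem s (neg_mem θ.snd.2)
  funext p
  refine gen_cases1 (P := fun p => C.flw y θ s p = y p) ?_ ?_ (fun j b => ?_) p
  · rw [flw, cjg, tb_a, ← C.ex_comm (h.a.ge hq), mul_inv_cancel_right]
  · have h1 : C.ex (s • (-θ.snd - θ.fst)) * (C.ex (s • -θ.snd))⁻¹ = (C.ex (s • θ.fst))⁻¹ := by
      rw [← ex_neg, ← ex_neg, ← C.ex_add _ _
        (ht _ (t.smul_mem s (sub_mem (neg_mem θ.snd.2) θ.fst.2)) _ (neg_mem hq))]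
      congr 1
      module
    have h2 := C.ex_conj (y (0, true)) (s • θ.fst)
    rw [map_smul, stab_b hθ] at h2
    rw [flw, cjg, tb_b, mul_assoc, mul_assoc, h1, ← h2]
    group
  · rw [flw, cjg, tb_succ, ← C.ex_comm (a := y (j.succ, b))
      (C.mem_Fix.2 (by rw [map_smul, stab_succ hθ])), mul_inv_cancel_right]

variable (t) in
/-- projection to the dual of the torus -/
noncomputable def Phi : (Bool → L) →L[ℝ] WithLp 2 (t × t) :=
  (WithLp.prodContinuousLinearEquiv 2 ℝ t t).symm.toContinuousLinearMap ∘L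
    (t.orthogonalProjection ∘L ContinuousLinearMap.proj false).prod
      (t.orthogonalProjection ∘L ContinuousLinearMap.proj true)

theorem inner_Phi (θ : WithLp 2 (t × t)) (z : Bool → L) :
    ⟪θ, Phi t z⟫ = ⟪(θ.fst : L), z false⟫ + ⟪(θ.snd : L), z true⟫ := by
  rw [WithLp.prod_inner_apply, ← t.inner_orthogonalProjection_eq_of_mem_left,
    ← t.inner_orthogonalProjection_eq_of_mem_left]
  rfl

/-- components of a pair -/
def cp (p : t × t) (s : Bool) : L := bif s then p.2 else p.1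

theorem cp_mem (p : t × t) (s : Bool) : cp p s ∈ t := by cases s; exacts [p.1.2, p.2.2]

theorem cp_Phi {z : Bool → L} (h : ∀ s, z s ∈ t) (s : Bool) : cp (Phi t z).ofLp s = z s := by
  cases s <;> exact Submodule.starProjection_eq_self_iff.2 (h _)

theorem cp_add (p q : t × t) (s : Bool) : cp (p + q) s = cp p s + cp q s := by cases s <;> rfl

theorem cp_inj {p q : t × t} (h : ∀ s, cp p s = cp q s) : p = q :=
  Prod.ext (Subtype.ext (h false)) (Subtype.ext (h true))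

theorem cont_cp : Continuous (cp : t × t → Bool → L) := continuous_pi fun s => by
  cases s <;> simp only [cp, cond_true, cond_false] <;> fun_prop

theorem mem_NS {m : (Gen (g + 1) → K) × t × t} : m ∈ C.NS g t ↔
    ∀ s, bv m.1 s = C.ex (cp m.2 s) ∧ C.Fix (C.ex (cp m.2 s)) = t := by
  simp only [Bool.forall_bool, bv_false, bv_true, cp, cond_true, cond_false, NS, Set.mem_setOf_eq]
  tauto

theorem NS_gd (m : C.NS g t) : C.Gd t m.1.1 := fun s => by
  rw [(mem_NS.1 m.2 s).1, (mem_NS.1 m.2 s).2]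

theorem Gd.surj₁ (h : C.Gd t y) {e : WithLp 2 (t × t)} (he : e ∈ (LinearMap.ker (C.Wv t y))ᗮ) :
    ∃ v, (∀ s, C.bd y v s ∈ t) ∧ Phi t (C.bd y v) = e := by
  let T : Submodule ℝ (Gen (g + 1) → L) := ⨅ s, t.comap (C.cv y (bw g s))
  have hT : ∀ v, v ∈ T ↔ ∀ s, C.bd y v s ∈ t := fun v => by simp [T, bd_apply]
  have : (T.map ((Phi t).toLinearMap ∘ₗ C.bd y))ᗮ ≤ LinearMap.ker (C.Wv t y) := fun θ hθ =>
    h.nd (fun s => by rw [h.bd_Wv]; exact zero_mem _) fun v hv => by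
      rw [h.om_Wv, ← inner_Phi, real_inner_comm]
      exact hθ _ ⟨v, (hT v).2 hv, rfl⟩
  have := Submodule.orthogonal_le this he
  rw [Submodule.orthogonal_orthogonal] at this
  obtain ⟨v, h1, h2⟩ := this
  exact ⟨v, (hT v).1 h1, h2⟩

theorem Gd.surj₂ (h : C.Gd t y) (a : Bool → L) : ∃ v, ∀ s, C.bd y v s - a s ∈ t := by
  have : ((LinearMap.ker (LinearMap.proj (0, false))).map (C.cv y (bw g true)))ᗮ ≤ t :=
    fun η hη => h.tr fun v hv => by rw [real_inner_comm]; exact hη _ ⟨v, hv, rfl⟩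
  have := Submodule.orthogonal_le this (t.sub_starProjection_mem_orthogonal
    (a true - C.bd y (Pi.single (0, false) (a false)) true))
  rw [Submodule.orthogonal_orthogonal] at this
  obtain ⟨v, h1, h2⟩ := this
  refine ⟨Pi.single (0, false) (a false) + v, fun s => ?_⟩
  cases s
  · simp [bd_false, show v (0, false) = 0 from h1]
  · rw [map_add, Pi.add_apply, C.bd_apply v, h2]
    convert neg_mem (t.starProjection_apply_mem
      (a true - C.bd y (Pi.single (0, false) (a false)) true)) using 1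
    abel

theorem fix_eq (ht : C.IsMaxAb t) {ζ : L} (hζ : ζ ∈ t) (h : C.Reg (C.ex ζ)) : C.Fix (C.ex ζ) = t :=
  (Submodule.eq_of_le_of_finrank_eq (fun _ hz => C.mem_Fix.2 (C.Ad_ex_fix (ht.ab _ hζ _ hz)))
    ((C.finrank_maxAb ht).trans h.symm)).symm

theorem Wv_anti {θ : WithLp 2 (t × t)} (h : (θ.snd : L) = -θ.fst) :
    C.Wv t y θ = 0 ↔ (θ.fst : L) ∈ C.cen y (List.finRange _) := by
  rw [Wv_apply, h, neg_neg, sub_self, map_zero, add_zero, funext_iff, mem_cen]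
  simp only [del_apply, Pi.zero_apply, sub_eq_zero, List.mem_finRange, forall_true_left,
    Prod.forall, eq_comm (a := (θ.fst : L))]

end Ctx

end Pool.Agent.Lib.MP_d52947_gt
end

-- part Pool.Agent.Lib.MP_d52947_gt.SecB
section

/-! Charts of the regular cross-section: analytic lemmas. -/

set_option linter.unusedSectionVars false

namespace Pool.Agent.Lib.MP_d52947_gt

open Filter Topology Module
open scoped RealInnerProductSpace

theorem sx_clm {D E F : Type} [NormedAddCommGroup D] [NormedSpace ℝ D] [NormedAddCommGroup E]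
    [NormedSpace ℝ E] [FiniteDimensional ℝ E] [NormedAddCommGroup F] [NormedSpace ℝ F]
    {f : D → E →L[ℝ] F} {a : D} (h : ∀ y, AnalyticAt ℝ (fun x => f x y) a) : AnalyticAt ℝ f a := by
  let e₁ : E ≃L[ℝ] Fin (finrank ℝ E) → ℝ :=
    ContinuousLinearEquiv.ofFinrankEq (finrank_fin_fun ℝ).symm
  let e₂ := (e₁.arrowCongr (1 : F ≃L[ℝ] F)).trans (ContinuousLinearEquiv.piRing _)
  rw [← Function.id_comp f, ← e₂.symm_comp_self]
  exact (e₂.symm.analyticAt _).comp (analyticAt_pi_iff.2 fun i => h _)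

theorem sx_transfer {V N : Type} [TopologicalSpace V] [TopologicalSpace N] {φ : V → N} {ψ : N → V}
    {a : V} (h1 : ∀ᶠ w in 𝓝 a, ContinuousAt φ w ∧ ψ (φ w) = w)
    (h2 : ∀ᶠ m in 𝓝 (φ a), ContinuousAt ψ m ∧ φ (ψ m) = m) :
    ∃ W ∈ 𝓝 a, ∀ U ⊆ W, IsOpen U → IsOpen (φ '' U) := by
  obtain ⟨O, h3, h4, h5⟩ := eventually_nhds_iff.1 h2
  refine ⟨_, h1.and (h1.self_of_nhds.1.eventually (h4.mem_nhds h5)), fun U hU ho => ?_⟩
  convert ContinuousOn.isOpen_inter_preimage (f := ψ)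
    (fun m hm => (h3 m hm).1.continuousWithinAt) h4 ho using 1
  ext m
  constructor
  · rintro ⟨w, hw, rfl⟩
    exact ⟨(hU hw).2, by rwa [Set.mem_preimage, (hU hw).1.2]⟩
  · exact fun hm => ⟨_, hm.2, (h3 m hm.1).2⟩

theorem LocConv.image {V N E : Type} [TopologicalSpace V] [TopologicalSpace N]
    [NormedAddCommGroup E] [NormedSpace ℝ E] {φ : V → N} {U : Set V} {Ψ : V → E} {Ψ' : N → E}
    (h : LocConv Ψ U) (hc : ∀ w ∈ U, ContinuousAt φ w) (ho : IsOpen (φ '' U))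
    (e : ∀ w ∈ U, Ψ' (φ w) = Ψ w) : LocConv Ψ' (φ '' U) := by
  have h1 : Ψ' '' (φ '' U) = Ψ '' U := by rw [Set.image_image]; exact Set.image_congr e
  refine ⟨ho, h1 ▸ h.convex, fun p => ?_, ?_⟩
  · convert (h.fibre p).image φ fun w hw => (hc w hw.1).continuousWithinAt using 1
    ext m
    constructor
    · rintro ⟨⟨w, hw, rfl⟩, h2⟩
      exact ⟨w, ⟨hw, (e w hw).symm.trans h2⟩, rfl⟩
    · rintro ⟨w, hw, rfl⟩
      exact ⟨⟨w, hw.1, rfl⟩, (e w hw.1).trans hw.2⟩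
  · rintro _ ⟨w, hw, rfl⟩ W hW
    rw [h1, e w hw]
    refine mem_of_superset (h.opn w hw _ (hc w hw hW)) ?_
    rintro _ ⟨v, hv, rfl⟩
    exact ⟨φ v, ⟨hv.1, v, hv.2, rfl⟩, e v hv.2⟩

namespace Amb

open Ctx

variable {L : Type} [NormedAddCommGroup L] [InnerProductSpace ℝ L] [FiniteDimensional ℝ L]
  {K : Type} [Group K] [TopologicalSpace K] [IsTopologicalGroup K] [CompactSpace K]
  [ConnectedSpace K] {A : Type} [NormedRing A] [NormedAlgebra ℝ A] [FiniteDimensional ℝ A]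
  [CompleteSpace A] {C : Amb L K A} {G : Type} [Fintype G] {g : ℕ} {t : Submodule ℝ L}
  {V : Type} [NormedAddCommGroup V] [NormedSpace ℝ V] {w : V}

theorem AnX.sx_cv {X : V → G → K} (h : C.AnX X w) {u : V → G → L} (hu : AnalyticAt ℝ u w)
    (e : FreeGroup G) : AnalyticAt ℝ (fun w => C.cv (X w) e (u w)) w := by
  have h1 : ∀ (e : FreeGroup G) {f : V → L}, AnalyticAt ℝ f w →
      AnalyticAt ℝ (fun w => C.Ad (Ctx.val (X w) e) (f w)) w := fun e _ hf =>
    ((ContinuousLinearMap.id ℝ (L →L[ℝ] L)).analyticAt_bilinear _).comp₂ (h.an (an_word e)) hf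
  induction e using FreeGroup.induction_on with
  | C1 => simpa using analyticAt_const
  | of i => simpa using analyticAt_pi_iff.1 hu i
  | inv_of i hi => simpa only [cv_inv, ← map_inv] using (h1 _ hi).fun_neg
  | mul a b ha hb => simpa only [cv_mul] using ha.fun_add (h1 _ hb)

theorem AnX.sx_om {X : V → Gen g → K} (h : C.AnX X w) {u v : V → Gen g → L}
    (hu : AnalyticAt ℝ u w) (hv : AnalyticAt ℝ v w) :
    AnalyticAt ℝ (fun w => C.om (X w) (u w) (v w)) w := by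
  have h1 : ∀ a b : FG g, AnalyticAt ℝ
      (fun w => ⟪C.cv (X w) a (u w), C.Ad (Ctx.val (X w) a) (C.cv (X w) b (v w))⟫) w := fun a b =>
    ((innerSL ℝ).analyticAt_bilinear _).comp₂ (h.sx_cv hu a)
      (((ContinuousLinearMap.id ℝ (L →L[ℝ] L)).analyticAt_bilinear _).comp₂ (h.an (an_word a))
        (h.sx_cv hv b))
  simp only [om_apply, fundF]
  exact Finset.analyticAt_fun_sum _ fun i _ =>
    (((((h1 _ _).add (h1 _ _)).add (h1 _ _)).add (h1 _ _)).sub (h1 _ _)).sub (h1 _ _)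

theorem tan_torus (ht : C.IsAb t) {Y : V → G → K} {Y₀ : G → K} {ζ : V → G → L}
    (hζ : DifferentiableAt ℝ ζ w) (e : ∀ᶠ v in 𝓝 w, C.mvg Y₀ (ζ v) = Y v ∧ ∀ i, ζ v i ∈ t) (u : V) :
    C.tan Y w u = fderiv ℝ ζ w u := by
  have h0 := e.self_of_nhds
  rw [tan_congr (Y := fun v => C.mvg (Y w) (ζ v - ζ w)) (e.mono fun v hv => funext fun i => by
    simp only [← hv.1, ← h0.1, mvg]
    rw [← mul_assoc, Pi.sub_apply, ← C.ex_add _ _
      (ht _ (sub_mem (hv.2 i) (h0.2 i)) _ (h0.2 i)), sub_add_cancel]),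
    AnX.tan_comp (ζ := fun v => ζ v - ζ w) (C.anX_mvg _ _) (hζ.sub_const _), sub_self, tan_mvg,
    fderiv_sub_const]

theorem flw_word (y : Gen (g + 1) → K) (θ : WithLp 2 (t × t)) :
    C.AnX (C.flw y θ) 0 ∧ C.tan (C.flw y θ) 0 1 = C.Wv t y θ := by
  let z : Gen (g + 1) ⊕ Bool → K := Sum.elim y fun _ => 1
  let u : Gen (g + 1) ⊕ Bool → L := Sum.elim 0 fun s => bif s then -θ.snd - θ.fst else -θ.snd
  let e : Gen (g + 1) → FreeGroup (Gen (g + 1) ⊕ Bool) := fun i => .of (.inr false) *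
    (.of (.inl i) * if i = (0, true) then .of (.inr true) else 1) * (FreeGroup.of (.inr false))⁻¹
  have h1 : C.flw y θ = fun (s : ℝ) i => val (C.mvg z (s • u)) (e i) := by
    funext s p
    by_cases hp : p = (0, true)
    · simp [flw, cjg, tb, e, hp, mvg, z, u, C.ex_zero]
    · simp [flw, cjg, tb, e, hp, mvg, z, u, C.ex_zero]
  have h2 : C.AnX (fun s : ℝ => C.mvg z (s • u)) 0 :=
    (C.anX_mvg z _).comp (ζ := fun s : ℝ => s • u) (by fun_prop) rfl
  have h3 : C.tan (fun s : ℝ => C.mvg z (s • u)) 0 1 = u := by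
    rw [AnX.tan_comp (ζ := fun s : ℝ => s • u) (C.anX_mvg z _) (by fun_prop), zero_smul, tan_mvg,
      fderiv_smul_const (by fun_prop)]
    simp
  rw [h1]
  refine ⟨h2.wd e, funext fun p => ?_⟩
  rw [h2.tan_wd, h3, zero_smul, mvg_zero, Wv_apply, Pi.add_apply, del_apply]
  by_cases hp : p = (0, true)
  · simp [e, hp, cv_mul, cv_inv, z, u, twv_b]
    abel
  · simp [e, hp, cv_mul, cv_inv, z, u, twv]

theorem flw_mvg (x : Gen (g + 1) → K) (v : Gen (g + 1) → L) (θ : WithLp 2 (t × t)) (s : ℝ) :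
    C.flw (C.mvg x v) θ s = C.mvg (C.flw x θ s) fun i => C.Ad (C.ex (s • -θ.snd)) (v i) := by
  funext p
  by_cases hp : p = (0, true)
  · simp only [flw, cjg, tb, hp, mvg, Function.update_self, ← C.ex_conj]; group
  · simp only [flw, cjg, tb, mvg, Function.update_of_ne hp, ← C.ex_conj]; group

variable (C) in
/-- logarithmic coordinates of the boundary holonomies -/
noncomputable def sxL (x y : Gen (g + 1) → K) : Bool → L := C.crd (bv x) (C.emb (bv y))

theorem cont_bv : Continuous (bv : (Gen (g + 1) → K) → Bool → K) :=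
  continuous_pi fun _ => cont_val _

theorem mvg_Lam (x : Gen (g + 1) → K) : ∀ᶠ y in 𝓝 x, C.mvg (bv x) (C.sxL x y) = bv y :=
  (cont_bv.tendsto x).eventually (C.mvg_crd (bv x))

theorem to_NS (ht : C.IsMaxAb t) (n : C.NS g t) : ∀ᶠ y in 𝓝 n.1.1, (∀ s, C.sxL n.1.1 y s ∈ t) →
    (y, (C.PsiN g t n + Phi t (C.sxL n.1.1 y)).ofLp) ∈ C.NS g t := by
  have h1 : ∀ᶠ y in 𝓝 n.1.1, ∀ s, C.Reg (bv y s) := eventually_all.2 fun s =>
    ((continuous_apply s).comp cont_bv).tendsto _ (C.isOpen_reg.mem_nhds (by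
      change finrank ℝ (C.Fix (bv n.1.1 s)) = _
      rw [NS_gd n s, C.finrank_maxAb ht]))
  filter_upwards [h1, mvg_Lam (C := C) n.1.1] with y h2 h3 h4
  refine mem_NS.2 fun s => ?_
  have h5 : bv y s = C.ex (cp (C.PsiN g t n + Phi t (C.sxL n.1.1 y)).ofLp s) := by
    rw [WithLp.ofLp_add, cp_add, cp_Phi h4, add_comm, C.ex_add _ _ (ht.ab _ (h4 s) _ (cp_mem _ s)),
      ← h3, mvg, (mem_NS.1 n.2 s).1]
    rfl
  exact ⟨h5, fix_eq ht (cp_mem _ s) (h5 ▸ h2 s)⟩

theorem of_NS (ht : C.IsMaxAb t) (n : C.NS g t) : ∀ᶠ m in 𝓝 n, (∀ s, C.sxL n.1.1 m.1.1 s ∈ t) ∧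
    (C.PsiN g t n + Phi t (C.sxL n.1.1 m.1.1)).ofLp = m.1.2 := by
  have h1 : Tendsto (fun m : C.NS g t => cp m.1.2 - cp n.1.2) (𝓝 n) (𝓝 0) :=
    Continuous.tendsto' ((cont_cp.comp (by fun_prop)).sub continuous_const) _ _ (sub_self _)
  filter_upwards [h1.eventually (C.crd_mvg (bv n.1.1))] with m hm
  have h2 : C.mvg (bv n.1.1) (cp m.1.2 - cp n.1.2) = bv m.1.1 := funext fun s => by
    rw [mvg, (mem_NS.1 n.2 s).1, (mem_NS.1 m.2 s).1, Pi.sub_apply, ← C.ex_add _ _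
      (ht.ab _ (sub_mem (cp_mem _ s) (cp_mem _ s)) _ (cp_mem _ s)), sub_add_cancel]
  rw [h2] at hm
  have h3 : ∀ s, C.sxL n.1.1 m.1.1 s ∈ t := fun s => by
    rw [sxL, hm]; exact sub_mem (cp_mem _ s) (cp_mem _ s)
  refine ⟨h3, cp_inj fun s => ?_⟩
  rw [WithLp.ofLp_add, cp_add, cp_Phi h3, sxL, hm]
  exact add_sub_cancel _ _

theorem AnX.sx_Lam {X : V → Gen (g + 1) → K} (h : C.AnX X w) :
    AnalyticAt ℝ (fun v => C.sxL (X w) (X v)) w ∧
      ∀ u, fderiv ℝ (fun v => C.sxL (X w) (X v)) w u = C.bd (X w) (C.tan X w u) :=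
  ⟨(h.wd (bw g)).crd, fun u => ((h.wd (bw g)).fd_crd u).trans (funext (h.tan_wd _ u))⟩

/-- the moment identity along the cross-section -/
theorem AnX.sx_mom (ht : C.IsAb t) {X : V → Gen (g + 1) → K} (h : C.AnX X w) (hg : C.Gd t (X w))
    {x : Gen (g + 1) → K} (hd : DifferentiableAt ℝ (fun v => C.sxL x (X v)) w)
    (e : ∀ᶠ v in 𝓝 w, C.mvg (bv x) (C.sxL x (X v)) = bv (X v) ∧ ∀ s, C.sxL x (X v) s ∈ t)
    (c θ : WithLp 2 (t × t)) (u : V) :
    ⟪θ, fderiv ℝ (fun v => c + Phi t (C.sxL x (X v))) w u⟫ =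
      C.om (X w) (C.Wv t (X w) θ) (C.tan X w u) := by
  rw [fderiv_const_add, fderiv_fun_comp w (Phi t).differentiableAt hd, (Phi t).fderiv, hg.om_Wv,
    ← inner_Phi,
    ContinuousLinearMap.comp_apply, ← tan_torus ht hd e]
  exact congrArg (fun z => ⟪θ, Phi t z⟫) (funext (h.tan_wd _ u))

end Amb

end Pool.Agent.Lib.MP_d52947_gt
end

-- part Pool.Agent.Lib.MP_d52947_gt.SecC
section

/-! The adapted chart of the regular cross-section. -/

set_option linter.unusedSectionVars false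

namespace Pool.Agent.Lib.MP_d52947_gt

open Filter Topology Module
open scoped RealInnerProductSpace

namespace Amb

open Ctx

variable {L : Type} [NormedAddCommGroup L] [InnerProductSpace ℝ L] [FiniteDimensional ℝ L]
  {K : Type} [Group K] [TopologicalSpace K] [IsTopologicalGroup K] [CompactSpace K]
  [ConnectedSpace K] {A : Type} [NormedRing A] [NormedAlgebra ℝ A] [FiniteDimensional ℝ A]
  [CompleteSpace A] (C : Amb L K A) {g : ℕ} {t : Submodule ℝ L}

theorem sx_B {G S : Type} [Fintype G] [AddCommGroup S] [Module ℝ S]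
    {T : Submodule ℝ (PiLp 2 fun _ : G => L)} (q : S → L) (h1 : ∀ a b, q (a + b) = q a + q b)
    (h2 : ∀ (c : ℝ) a, q (c • a) = c • q a)
    (h : ∀ θ (w : T), WithLp.toLp 2 (fun i => C.ad (q θ) (w.1 i)) ∈ T) :
    ∃ B : S →ₗ[ℝ] T →L[ℝ] T, ∀ θ w, (B θ w).1.ofLp = fun i => C.ad (q θ) (w.1 i) :=
  ⟨LinearMap.toContinuousLinearMap.toLinearMap ∘ₗ LinearMap.mk₂ ℝ (fun θ w => (⟨_, h θ w⟩ : T))
    (fun _ _ _ => by ext; simp [h1]) (fun _ _ _ => by ext; simp [h2])
    (fun _ _ _ => by ext; simp) (fun _ _ _ => by ext; simp), fun _ _ => rfl⟩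

theorem sx_chart (ht : C.IsAb t) {x : Gen (g + 1) → K} (hg : C.Gd t x) :
    ∃ (T : Submodule ℝ (PiLp 2 fun _ : Gen (g + 1) => L)) (Z : T → Gen (g + 1) → K)
      (ψ : (Gen (g + 1) → K) → T) (B : LinearMap.ker (C.Wv t x) →ₗ[ℝ] T →L[ℝ] T)
      (l : T →L[ℝ] WithLp 2 (t × t)), C.AnX Z 0 ∧ Z 0 = x ∧ (∀ w, C.tan Z 0 w = w.1.ofLp) ∧
      (∀ v, v ∈ T ↔ ∀ s, C.bd x v.ofLp s ∈ t) ∧
      (∀ θ w, (B θ w).1.ofLp = fun i => C.ad (-θ.1.snd) (w.1 i)) ∧
      (∀ w, l w = (LinearMap.ker (C.Wv t x))ᗮ.starProjection (Phi t (C.bd x w.1.ofLp))) ∧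
      (∀ᶠ y in 𝓝 x, ContinuousAt ψ y ∧ ((∀ s, C.sxL x y s ∈ t) → Z (ψ y) = y)) ∧
      (∀ᶠ w in 𝓝 0, (∀ s, C.sxL x (Z w) s ∈ t) ∧ ψ (Z w) = w ∧
        l w = (LinearMap.ker (C.Wv t x))ᗮ.starProjection (Phi t (C.sxL x (Z w)))) ∧
      ∀ᶠ w in 𝓝 0, C.Gd t (Z w) → (∀ θ, ∃ u, C.tan Z w u = C.Wv t (Z w) θ) ∧
        ∀ θ, C.tan Z w (B θ w) = C.Wv t (Z w) θ := by
  let o := PiLp.continuousLinearEquiv 2 ℝ fun _ : Gen (g + 1) => L
  let X : (PiLp 2 fun _ : Gen (g + 1) => L) → Gen (g + 1) → K := fun v => C.mvg x (o v)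
  have hX : ∀ v, C.AnX X v := fun v => (C.anX_mvg x _).comp (o.analyticAt v) rfl
  have X0 : X 0 = x := by simp only [X, map_zero, mvg_zero]
  have tX : ∀ v, C.tan X 0 v = o v := fun v => by
    rw [AnX.tan_comp (C.anX_mvg x _) o.differentiableAt, map_zero, tan_mvg, o.fderiv]; rfl
  obtain ⟨aΛ, dΛ⟩ := (hX 0).sx_Lam
  simp only [X0, tX] at aΛ dΛ
  have Λ0 : C.sxL x (X 0) = 0 := by rw [X0, sxL, crd_self]
  set S := LinearMap.ker (C.Wv t x)
  let Q : (Bool → L) →L[ℝ] (Bool → tᗮ) := ContinuousLinearMap.pi fun s =>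
    tᗮ.orthogonalProjection ∘L ContinuousLinearMap.proj s
  have hQ : ∀ z, Q z = 0 ↔ ∀ s, z s ∈ t := fun z => by
    simp [Q, funext_iff]
  let P : (Bool → L) →L[ℝ] Sᗮ := Sᗮ.orthogonalProjection ∘L Phi t
  let T : Submodule ℝ (PiLp 2 fun _ : Gen (g + 1) => L) :=
    LinearMap.ker (Q.toLinearMap ∘ₗ C.bd x ∘ₗ o.toLinearMap)
  have hT : ∀ v, v ∈ T ↔ ∀ s, C.bd x (o v) s ∈ t := fun v => hQ _
  have dQ : ∀ v, fderiv ℝ (fun v => Q (C.sxL x (X v))) 0 v = Q (C.bd x (o v)) := fun v => by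
    rw [fderiv_fun_comp 0 Q.differentiableAt aΛ.differentiableAt, Q.fderiv, ← dΛ]; rfl
  have dP : ∀ v, fderiv ℝ (fun v => P (C.sxL x (X v))) 0 v = P (C.bd x (o v)) := fun v => by
    rw [fderiv_fun_comp 0 P.differentiableAt aΛ.differentiableAt, P.fderiv, ← dΛ]; rfl
  obtain ⟨κ, ρ, aκ, aρ, κ0, ρ0, dκ, h1, h2, h3⟩ := ift ((Q.analyticAt _).comp aΛ)
    ((P.analyticAt _).comp aΛ) (by simp [Λ0]) (by simp [Λ0]) (fun a b => by
      obtain ⟨v, hv⟩ := hg.surj₂ fun s => a s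
      obtain ⟨v', h1, h2⟩ := hg.surj₁ (b - P (C.bd x v)).2
      refine ⟨o.symm (v + v'), (dQ _).trans ?_, (dP _).trans ?_⟩
      · have : Q (fun s => a s) = a := funext fun s => by simp [Q]
        rw [o.apply_symm_apply, map_add, map_add, (hQ _).2 h1, add_zero, ← this, ← sub_eq_zero,
          ← map_sub]
        exact (hQ _).2 hv
      · rw [o.apply_symm_apply, map_add, map_add, ← eq_sub_iff_add_eq']
        simp only [P, ContinuousLinearMap.comp_apply, h2]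
        exact Submodule.orthogonalProjection_mem_subspace_eq_self _) T
    fun v => Iff.rfl.trans (Eq.congr_left (dQ v).symm)
  simp only [Function.comp_def, dP, hQ] at h1 h2 h3
  have hB0 : ∀ (θ : S) (w : T), C.bd x (fun i => C.ad (-θ.1.snd) (w.1 i)) = 0 := fun θ w =>
    hg.bd_ad ht θ.2 ((hT _).1 w.2)
  obtain ⟨B, hB⟩ := C.sx_B (T := T) (fun θ : S => -θ.1.snd) (fun _ _ => by simp [add_comm])
    (fun _ _ => by simp) fun θ w => (hT _).2 fun s => (congrFun (hB0 θ w) s).symm ▸ zero_mem t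
  have aZ : C.AnX (fun w => X (κ w)) 0 := (hX _).comp aκ rfl
  have cκ : Tendsto κ (𝓝 0) (𝓝 0) := κ0 ▸ aκ.continuousAt.tendsto
  have cZ : Tendsto (fun w => X (κ w)) (𝓝 0) (𝓝 x) := by
    simpa only [κ0, X0] using aZ.cont.tendsto
  have cψ : Tendsto (fun y => o.symm (C.crd x (C.emb y))) (𝓝 x) (𝓝 0) := by
    simpa only [Function.comp_def, crd_self, map_zero] using (o.symm.continuous.continuousAt.comp
      ((C.an_crd x).continuousAt.comp C.cont_emb.continuousAt)).tendsto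
  have acrd := (C.cont_emb.tendsto x).eventually (C.an_crd x).eventually_analyticAt
  have e1 : ∀ᶠ w in 𝓝 0, o.symm (C.crd x (C.emb (X (κ w)))) = κ w := by
    filter_upwards [((o.continuous.tendsto' _ _ (map_zero o)).comp cκ).eventually (C.crd_mvg x)]
      with w hw
    exact o.symm_apply_eq.2 hw
  refine ⟨T, fun w => X (κ w), fun y => ρ (o.symm (C.crd x (C.emb y))), B,
    Sᗮ.subtypeL ∘L P ∘L LinearMap.toContinuousLinearMap (C.bd x) ∘L o.toContinuousLinearMap ∘L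
      T.subtypeL, aZ, by simp only [κ0, X0], fun w => ?_, hT, hB, fun w => rfl, ?_, ?_, ?_⟩
  · rw [AnX.tan_comp (hX _) aκ.differentiableAt, κ0, tX, dκ]; rfl
  · filter_upwards [cψ.eventually aρ.eventually_analyticAt, acrd, cψ.eventually h2, C.mvg_crd x]
      with y a1 a2 a3 a4
    refine ⟨a1.continuousAt.comp (f := fun y => o.symm (C.crd x (C.emb y)))
      (o.symm.continuous.continuousAt.comp (a2.continuousAt.comp C.cont_emb.continuousAt)),
      fun h => ?_⟩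
    simp only [X, o.apply_symm_apply, a4] at a3
    simp only [X, a3 h, o.apply_symm_apply, a4]
  · filter_upwards [h1, e1] with w a1 a2
    refine ⟨a1.1, by rw [a2, a1.2], ?_⟩
    have := (h3 (κ w)).1
    rw [a1.2] at this
    exact congrArg Subtype.val this
  filter_upwards [h1, e1, aZ.ev, cκ.eventually aρ.eventually_analyticAt,
    cκ.eventually h2.eventually_nhds, cZ.eventually acrd,
    cZ.eventually (C.mvg_crd x).eventually_nhds] with w a1 a2 a3 a4 a5 a6 a7 hw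
  have hL : ∀ θ s, C.sxL x (C.flw (X (κ w)) θ s) = C.sxL x (X (κ w)) := fun θ s => by
    rw [sxL, hw.bv_flw, sxL]
  have fl : ∀ θ (v : ℝ → PiLp 2 fun _ : Gen (g + 1) => L) v', HasDerivAt v v' 0 → v 0 = κ w →
      (∀ᶠ s in 𝓝 0, X (v s) = C.flw (X (κ w)) θ s) → ∃ u, HasDerivAt (fun s => ρ (v s)) u 0 ∧
        C.tan (fun w => X (κ w)) w u = C.Wv t (X (κ w)) θ := fun θ v v' b1 b2 b3 => by
    have b4 := a4.differentiableAt.hasFDerivAt.comp_hasDerivAt_of_eq 0 b1 b2.symm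
    have b5 : ρ (v 0) = w := by rw [b2, a1.2]
    refine ⟨_, b4, ?_⟩
    rw [← (flw_word _ θ).2, ← tan_congr (X := fun s => X (κ (ρ (v s)))),
      AnX.tan_comp (X := fun w => X (κ w)) (ζ := fun s => ρ (v s)) (b5 ▸ a3) b4.differentiableAt,
      b5]
    · exact congrArg _ b4.deriv.symm
    · filter_upwards [b3, b1.continuousAt.eventually (b2 ▸ a5)] with s c1 c2
      rw [c2 (by rw [c1, hL]; exact a1.1), c1]
  refine ⟨fun θ => ?_, fun θ => ?_⟩
  · have b1 := (flw_word (C := C) (X (κ w)) θ).1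
    have b2 : AnalyticAt ℝ (fun s => o.symm (C.crd x (C.emb (C.flw (X (κ w)) θ s)))) 0 :=
      (o.symm.analyticAt _).comp (a6.comp_of_eq b1 (by rw [flw_zero]))
    obtain ⟨u, -, hu⟩ := fl θ _ _ b2.differentiableAt.hasDerivAt
      (by rw [flw_zero, a2]) (by
        filter_upwards [b1.cont.eventually (by rwa [flw_zero])] with s hs
        simpa only [X, o.apply_symm_apply] using hs)
    exact ⟨u, hu⟩
  · have b1 : HasDerivAt (fun s : ℝ => o.symm fun i => C.Ad (C.ex (s • -θ.1.snd)) ((κ w) i))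
        (o.symm fun i => C.ad (-θ.1.snd) ((κ w) i)) 0 :=
      o.symm.hasFDerivAt.comp_hasDerivAt 0 (hasDerivAt_pi.2 fun i => C.hasDerivAt_Ad _ _)
    have b2 : ∀ s : ℝ, X (o.symm fun i => C.Ad (C.ex (s • -θ.1.snd)) ((κ w) i)) =
        C.flw (X (κ w)) θ.1 s := fun s => by
      simp only [X, o.apply_symm_apply, flw_mvg, hg.flw_fix ht θ.2]; rfl
    obtain ⟨u, b3, hu⟩ := fl θ _ _ b1 (by ext; simp [C.ex_zero, o]) (.of_forall b2)
    let D : T →L[ℝ] Sᗮ :=
      P ∘L LinearMap.toContinuousLinearMap (C.bd x) ∘L o.toContinuousLinearMap ∘L T.subtypeL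
    have b4 : D u = 0 := (D.hasFDerivAt.comp_hasDerivAt 0 b3).unique
      ((hasDerivAt_const _ (P (C.sxL x (X (κ w))))).congr_of_eventuallyEq (.of_forall fun s =>
        (h3 _).1.trans (by rw [b2, hL])))
    have b5 : ∀ z : T, D (B θ z) = 0 := fun z => by
      change P (C.bd x (B θ z).1.ofLp) = 0
      rw [hB, hB0, map_zero]
    have b6 : D (u - B θ w) = 0 := by rw [map_sub, b4, b5, sub_zero]
    have b7 := (((T.subtypeL.hasFDerivAt.comp_hasDerivAt 0 b3).sub b1).inner ℝ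
      (hasDerivAt_const _ (u - B θ w).1)).unique ((hasDerivAt_const _ (0 : ℝ)).congr_of_eventuallyEq
        (.of_forall fun s => (h3 _).2 _ (u - B θ w).2 b6))
    have b8 := (h3 (κ w)).2 _ (B θ (u - B θ w)).2 (b5 _)
    rw [a1.2] at b8
    have b9 : ⟪(B θ w).1 - o.symm fun i => C.ad (-θ.1.snd) ((κ w) i), (u - B θ w).1⟫ = 0 := by
      rw [← neg_eq_zero, ← b8, PiLp.inner_apply, PiLp.inner_apply, ← Finset.sum_neg_distrib]
      refine Finset.sum_congr rfl fun i _ => ?_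
      rw [show (B θ (u - B θ w)).1 i = _ from congrFun (hB θ _) i, ← neg_eq_iff_eq_neg.2 (C.inner_ad ..),
        PiLp.sub_apply, PiLp.sub_apply, map_sub, show (B θ w).1 i = _ from congrFun (hB θ _) i]
      rfl
    rw [inner_zero_right, zero_add] at b7
    have b10 : u - B θ w = 0 := Subtype.ext (inner_self_eq_zero (𝕜 := ℝ).1 (by
      rw [← sub_eq_zero.2 (b7.trans b9.symm), ← inner_sub_left, sub_sub_sub_cancel_right]
      rfl))
    rw [← hu, eq_of_sub_eq_zero b10]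

end Amb

end Pool.Agent.Lib.MP_d52947_gt
end

-- part Pool.Agent.Lib.MP_d52947_gt.Sec
section

/-! Local convexity of the moment map of the regular cross-section. -/

set_option linter.unusedSectionVars false

namespace Pool.Agent.Lib.MP_d52947_gt

open Filter Topology Module
open scoped RealInnerProductSpace

theorem sx_bil {V : Type} [NormedAddCommGroup V] [InnerProductSpace ℝ V] [FiniteDimensional ℝ V]
    (f : V → V →ₗ[ℝ] V →ₗ[ℝ] ℝ) (h : ∀ u v, AnalyticAt ℝ (fun w => f w u v) 0)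
    (hnd : ∀ u, (∀ v, f 0 u v = 0) → u = 0) : ∃ ω : V → V →L[ℝ] V →L[ℝ] ℝ,
      (∀ w u v, ω w u v = f w u v) ∧ ContDiffAt ℝ 1 ω 0 ∧
      ∀ᶠ w in 𝓝 0, ∀ u, (∀ v, f w u v = 0) → u = 0 := by
  obtain ⟨ω, hω⟩ : ∃ ω : V → V →L[ℝ] V →L[ℝ] ℝ, ∀ w u v, ω w u v = f w u v :=
    ⟨fun w => LinearMap.toContinuousLinearMap (LinearMap.toContinuousLinearMap.toLinearMap ∘ₗ f w),
      fun _ _ _ => rfl⟩
  have aω : AnalyticAt ℝ ω 0 := sx_clm fun u => sx_clm fun v => by simpa only [hω] using h u v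
  refine ⟨ω, hω, aω.contDiffAt, ?_⟩
  filter_upwards [aω.continuousAt.eventually (ContinuousLinearMap.isOpen_injective.mem_nhds
    ((injective_iff_map_eq_zero _).2 fun u hu => hnd u fun v => by rw [← hω, hu]; rfl))] with w a u hu
  exact (injective_iff_map_eq_zero _).1 a u (ContinuousLinearMap.ext fun v => (hω ..).trans (hu v))

namespace Amb

open Ctx

variable {L : Type} [NormedAddCommGroup L] [InnerProductSpace ℝ L] [FiniteDimensional ℝ L]
  {K : Type} [Group K] [TopologicalSpace K] [IsTopologicalGroup K] [CompactSpace K]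
  [ConnectedSpace K] {A : Type} [NormedRing A] [NormedAlgebra ℝ A] [FiniteDimensional ℝ A]
  [CompleteSpace A] [MeasurableSpace A] [BorelSpace A] (C : Amb L K A) {g : ℕ}

theorem sec_local {t : Submodule ℝ L} (ht : C.IsMaxAb t) (n : C.NS g t) :
    ∃ U, n ∈ U ∧ LocConv (C.PsiN g t) U ∧ (n.1.2.1 = n.1.2.2 → ∀ G : Set (C.NS g t),
      G = {m | m ∈ U ∧ m.1.2.1 = m.1.2.2 ∧ C.cen m.1.1 (List.finRange _) ≤ C.Z} →
      IsPreconnected G ∧ (G.Nonempty → ∀ m ∈ U, m.1.2.1 = m.1.2.2 → m ∈ closure G)) := by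
  have hg := NS_gd n
  obtain ⟨T, Z, ψ, B, l, aZ, Z0, tZ, hT, hB, hl, e1, e2, e3⟩ := C.sx_chart ht.ab hg
  obtain ⟨Ψ, hΨ⟩ : ∃ Ψ : T → WithLp 2 (t × t),
    Ψ = fun w => C.PsiN g t n + Phi t (C.sxL n.1.1 (Z w)) := ⟨_, rfl⟩
  obtain ⟨ω, hω, aω, hnd⟩ := sx_bil (fun w => (C.om (Z w)).compl₁₂ (C.tan Z w).toLinearMap
    (C.tan Z w).toLinearMap) (fun u v => aZ.sx_om (aZ.an_tan u) (aZ.an_tan v)) fun u hu =>
      Subtype.ext ((WithLp.ofLp_eq_zero 2).1 (hg.nd ((hT _).1 u.2) fun v hv => by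
        simpa [Z0, tZ] using hu ⟨WithLp.toLp 2 v, (hT _).2 hv⟩))
  simp only [LinearMap.compl₁₂_apply, ContinuousLinearMap.coe_coe] at hω hnd
  have aΛ : AnalyticAt ℝ (fun w => C.sxL n.1.1 (Z w)) 0 := Z0 ▸ aZ.sx_Lam.1
  have aΨ : AnalyticAt ℝ Ψ 0 := hΨ ▸ analyticAt_const.add (((Phi t).analyticAt _).comp aΛ)
  have Ψ0 : Ψ 0 = C.PsiN g t n := by simp only [hΨ, Z0, sxL, crd_self, map_zero, add_zero]
  have cZ : Tendsto Z (𝓝 0) (𝓝 n.1.1) := Z0 ▸ aZ.cont.tendsto
  have eN : ∀ᶠ w in 𝓝 0, (Z w, (Ψ w).ofLp) ∈ C.NS g t := by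
    filter_upwards [cZ.eventually (to_NS ht n), e2] with w a b using hΨ ▸ a b.1
  have mom : ∀ᶠ w in 𝓝 0, ∀ θ u, ⟪θ, fderiv ℝ Ψ w u⟫ =
      C.om (Z w) (C.Wv t (Z w) θ) (C.tan Z w u) := by
    filter_upwards [aZ.ev, eN, aΛ.eventually_analyticAt,
      ((cZ.eventually (mvg_Lam (C := C) _)).and (e2.mono fun w h => h.1)).eventually_nhds]
      with w a1 a2 a3 a4 θ u using hΨ ▸ a1.sx_mom ht.ab (NS_gd ⟨_, a2⟩) a3.differentiableAt a4 _ θ u
  have crit : ∀ᶠ w in 𝓝 0, ∀ θ, (∀ u, ⟪θ, fderiv ℝ Ψ w u⟫ = 0) ↔ C.Wv t (Z w) θ = 0 := by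
    filter_upwards [mom, e3, eN, hnd] with w a1 a2 a3 a4 θ
    refine ⟨fun h => ?_, fun h u => by rw [a1, h]; simp⟩
    obtain ⟨u, hu⟩ := (a2 (NS_gd ⟨_, a3⟩)).1 θ
    rw [← hu, a4 u fun v => by rw [hu, ← a1, h], map_zero]
  obtain ⟨φ, hφ⟩ : ∃ φ : T → C.NS g t, ∀ w, (Z w, (Ψ w).ofLp) ∈ C.NS g t →
      (φ w).1 = (Z w, (Ψ w).ofLp) := by
    classical
    exact ⟨fun w => if h : (Z w, (Ψ w).ofLp) ∈ C.NS g t then ⟨_, h⟩ else n,
      fun w h => by simp only [dif_pos h]⟩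
  have φ0 : φ 0 = n := Subtype.ext (by rw [hφ 0 eN.self_of_nhds, Z0, Ψ0]; rfl)
  have cφ : ∀ᶠ w in 𝓝 0, ContinuousAt φ w ∧ ψ (φ w).1.1 = w := by
    filter_upwards [eN.eventually_nhds, aZ.ev, aΨ.eventually_analyticAt, e2] with w a1 a2 a3 a4
    refine ⟨IsInducing.subtypeVal.continuousAt_iff.2 ((a2.cont.prodMk
      ((WithLp.prod_continuous_ofLp 2 _ _).continuousAt.comp a3.continuousAt)).congr
        (a1.mono fun v hv => (hφ v hv).symm)), ?_⟩
    rw [hφ w a1.self_of_nhds, a4.2.1]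
  obtain ⟨W, hW, hW'⟩ := sx_transfer (ψ := fun m : C.NS g t => ψ m.1.1) cφ (by
    have c : Continuous fun m : C.NS g t => m.1.1 := by fun_prop
    rw [φ0]
    filter_upwards [(c.tendsto n).eventually e1, of_NS ht n] with m a1 a2
    have : (Z (ψ m.1.1), (Ψ (ψ m.1.1)).ofLp) = m.1 := by
      simp only [hΨ, a1.2 a2.1, a2.2]
    exact ⟨a1.1.comp (f := fun m : C.NS g t => m.1.1) c.continuousAt,
      Subtype.ext ((hφ _ (by rw [this]; exact m.2)).trans this)⟩)
  have hB' : ∀ θ w i, (B θ w).1 i = C.ad (-θ.1.snd) (w.1 i) := fun θ w => congrFun (hB θ w)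
  obtain ⟨U, hU, U0, hc, hG⟩ := normal_form _ B (fun θ u v => by
      simp only [Submodule.coe_inner, PiLp.inner_apply, hB', ← Finset.sum_neg_distrib, C.inner_ad])
    (fun θ θ' u => Subtype.ext (PiLp.ext fun i => by
      simp only [hB']; exact ht.ab.comm (neg_mem θ.1.snd.2) (neg_mem θ'.1.snd.2) _))
    Ψ ω aω aΨ.contDiffAt (by
      filter_upwards [mom, e3, eN] with w a1 a2 a3 θ u
      rw [a1, hω, (a2 (NS_gd ⟨_, a3⟩)).2])
    l (fun v => hl v ▸ Submodule.starProjection_apply_mem _ _) (by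
      filter_upwards [e2] with w a e he
      rw [a.2.2, ← Submodule.inner_starProjection_left_eq_right,
        Submodule.starProjection_eq_self_iff.2 he, Ψ0, hΨ, add_sub_cancel_left])
    (fun θ v => by rw [hl, hB, hg.bd_ad ht.ab θ.2 ((hT _).1 v.2), map_zero, map_zero])
    (fun e he => by
      obtain ⟨v, h1, h2⟩ := hg.surj₁ he
      exact ⟨⟨WithLp.toLp 2 v, (hT _).2 h1⟩, by
        rw [hl, h2, Submodule.starProjection_eq_self_iff.2 he]⟩)
    (fun u hu => hnd.self_of_nhds u fun v => hω 0 u v ▸ hu v)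
    (fun θ u u' => by
      rw [hω, hω, ← add_eq_zero_iff_eq_neg, om_add_swap, Z0, tZ, hB,
        hg.cv_ad ht.ab θ.2 ((hT _).1 u.2), inner_zero_left])
    (inter_mem hW (eN.and (cφ.and crit)))
  have hU1 : ∀ w ∈ U, (φ w).1 = (Z w, (Ψ w).ofLp) := fun w hw => hφ w (hU hw).2.1
  have hU2 : ∀ w ∈ U, ContinuousAt φ w := fun w hw => (hU hw).2.2.1.1
  refine ⟨φ '' U, ⟨0, U0, φ0⟩, hc.image hU2 (hW' U (fun w hw => (hU hw).1) hc.isOpen)
    fun w hw => by rw [PsiN, hU1 w hw], fun hn G hG' => ?_⟩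
  let Δ : Submodule ℝ (WithLp 2 (t × t)) :=
    LinearMap.eqLocus (WithLp.fstₗ 2 ℝ t t) (WithLp.sndₗ 2 ℝ t t)
  have hΔ : ∀ w ∈ U, Ψ w - Ψ 0 ∈ Δ ↔ (φ w).1.2.1 = (φ w).1.2.2 := fun w hw => by
    rw [hU1 w hw, Ψ0]
    change (Ψ w).fst - n.1.2.1 = (Ψ w).snd - n.1.2.2 ↔ _
    rw [hn, sub_left_inj]; rfl
  have hΔ' : ∀ θ, θ ∈ Δᗮ ↔ (θ.snd : L) = -θ.fst := fun θ => by
    refine ⟨fun h => ?_, fun h e he => ?_⟩
    · have := h (WithLp.toLp 2 (θ.fst + θ.snd, θ.fst + θ.snd)) rfl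
      rw [WithLp.prod_inner_apply, ← inner_add_right] at this
      exact eq_neg_of_add_eq_zero_right (congrArg Subtype.val (inner_self_eq_zero.1 this))
    · rw [WithLp.prod_inner_apply, show e.ofLp.1 = e.ofLp.2 from he,
        show θ.ofLp.2 = -θ.ofLp.1 from Subtype.ext h, inner_neg_right, add_neg_cancel]
  obtain ⟨h1, h2⟩ := hG Δ (C.Z.comap (t.subtype ∘ₗ WithLp.fstₗ 2 ℝ t t)) _ rfl
  have h3 : ∀ w ∈ U, (∀ θ ∈ Δᗮ, (∀ u, ⟪θ, fderiv ℝ Ψ w u⟫ = 0) →
      θ ∈ C.Z.comap (t.subtype ∘ₗ WithLp.fstₗ 2 ℝ t t)) ↔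
      C.cen (φ w).1.1 (List.finRange _) ≤ C.Z := fun w hw => by
    rw [hU1 w hw]
    refine ⟨fun h ζ hζ => ?_, fun h θ b1 b2 =>
      h ((Wv_anti ((hΔ' θ).1 b1)).1 (((hU hw).2.2.2 θ).1 b2))⟩
    have b1 : ζ ∈ t := (NS_gd ⟨_, (hU hw).2.1⟩).a.le (C.mem_Fix.2 (hζ 0 (List.mem_finRange _) false))
    exact h (WithLp.toLp 2 (⟨ζ, b1⟩, -⟨ζ, b1⟩)) ((hΔ' _).2 rfl)
      (((hU hw).2.2.2 _).2 ((Wv_anti rfl).2 hζ))
  have h4 : G = φ '' {v | v ∈ U ∧ Ψ v - Ψ 0 ∈ Δ ∧ ∀ θ ∈ Δᗮ, (∀ u, ⟪θ, fderiv ℝ Ψ v u⟫ = 0) →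
      θ ∈ C.Z.comap (t.subtype ∘ₗ WithLp.fstₗ 2 ℝ t t)} := by
    rw [hG']
    ext m
    constructor
    · rintro ⟨⟨w, hw, rfl⟩, b1, b2⟩
      exact ⟨w, ⟨hw, (hΔ w hw).2 b1, (h3 w hw).2 b2⟩, rfl⟩
    · rintro ⟨w, ⟨hw, b1, b2⟩, rfl⟩
      exact ⟨⟨w, hw, rfl⟩, (hΔ w hw).1 b1, (h3 w hw).1 b2⟩
  rw [h4]
  refine ⟨h1.image φ fun w hw => (hU2 w hw.1).continuousWithinAt, ?_⟩
  rintro hne _ ⟨w, hw, rfl⟩ b
  exact mem_closure_image (hU2 w hw) (h2 hne.of_image w hw ((hΔ w hw).2 b))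

end Amb

end Pool.Agent.Lib.MP_d52947_gt
end

-- part Pool.Agent.Lib.MP_d52947_gt.Conn
section

namespace Pool.Agent.Lib.MP_d52947_gt

open Filter Topology MeasureTheory Module
open scoped RealInnerProductSpace

namespace Amb

variable {L : Type} [NormedAddCommGroup L] [InnerProductSpace ℝ L] [FiniteDimensional ℝ L]
  {K : Type} [Group K] [TopologicalSpace K] [IsTopologicalGroup K] [CompactSpace K]
  [ConnectedSpace K] {A : Type} [NormedRing A] [NormedAlgebra ℝ A] [FiniteDimensional ℝ A]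
  [CompleteSpace A] [MeasurableSpace A] [BorelSpace A] (C : Amb L K A) {g : ℕ}

theorem conn
    (hd : Ctx.Rep0 (g + 1) K ⊆ closure {x | x ∈ Ctx.Rep0 (g + 1) K ∧ C.Reg (x (0, false))})
    {y x x' : Gen (g + 1) → K} (hx : x ∈ connectedComponentIn (Ctx.Rep0 (g + 1) K) y)
    (hx' : x' ∈ connectedComponentIn (Ctx.Rep0 (g + 1) K) y) (h1 : x ∈ C.Rirr (g + 1))
    (h2 : x' ∈ C.Rirr (g + 1)) (h3 : C.Reg (x (0, false))) (_h4 : C.Reg (x' (0, false))) :
    ∃ S ⊆ C.Rirr (g + 1), IsPreconnected S ∧ x ∈ S ∧ x' ∈ S :=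
  Conn.conn_of C (fun hc _ h _ _ ha hb => LocConv.joined hc h ha hb)
    (fun hc _ hD hp hl _ _ hab => local_global hc hD hp hl hab) (fun ht n => C.sec_local ht n)
    C.local_lift (fun y _ hV => C.mreg_conn y hV) hd hx hx' h1 h2 h3

end Amb

end Pool.Agent.Lib.MP_d52947_gt
end
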