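import Pool.Agent.Lib.MP_d52947_gt.ErgDefs
import Pool.Agent.Lib.MP_d52947_gt.KronA

-- part Pool.Agent.Lib.MP_d52947_gt.Kron
section

/-! Invariance under the Dehn twist implies invariance under the twist flow. -/

namespace Pool.Agent.Lib.MP_d52947_gt

open Filter Topology MeasureTheory Module NormedSpace
open scoped RealInnerProductSpace

namespace Ctx

variable {L : Type} [NormedAddCommGroup L] [InnerProductSpace ℝ L] [FiniteDimensional ℝ L]
  {K : Type} [Group K] [TopologicalSpace K] [IsTopologicalGroup K] [CompactSpace K]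
  [ConnectedSpace K] (C : Ctx L K)

/-- the powers of a regular element are dense in its torus -/
def Kn (a : K) : Prop :=
  C.Reg a → ∀ η ∈ C.Fix a, η ∈ closure {ζ | ζ ∈ C.Fix a ∧ ∃ m : ℕ, C.ex ζ = a ^ m}

theorem Kn.conj {C : Ctx L K} {a : K} (h : C.Kn a) (c : K) : C.Kn (c * a * c⁻¹) := fun h1 η h2 => by
  have h3 := h (by simpa [mul_assoc] using h1.conj c⁻¹) (C.Ad c⁻¹ η)
    ((C.Ad_mem_Fix_conj (c := c)).1 (by simpa using h2))
  rw [← C.Ad_Ad_inv c η]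
  refine map_mem_closure (C.Ad c).continuous h3 ?_
  rintro ζ ⟨h4, m, h5⟩
  exact ⟨C.Ad_mem_Fix_conj.2 h4, m, by rw [← C.ex_conj, h5, conj_pow]⟩

theorem Fix_ex_mul {a : K} (ha : C.Reg a) {p : L} (hp : p ∈ C.Fix a) (h : C.Reg (C.ex p * a)) :
    C.Fix (C.ex p * a) = C.Fix a :=
  (Submodule.eq_of_le_of_finrank_le (fun y hy => C.mem_Fix.2 (by
    rw [Ad_mul_apply, C.mem_Fix.1 hy, C.Ad_ex_fix ((Reg.maxAb _ ha).ab _ hp _ hy)]))
    (h.trans ha.symm).le).symm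

theorem ae_Kn [MeasurableSpace L] [BorelSpace L] {a : K} (ha : C.Reg a)
    (μ : Measure (C.Fix a)) [μ.IsAddHaarMeasure] : ∀ᵐ p : C.Fix a ∂μ, C.Kn (C.ex p * a) := by
  have hab := (Reg.maxAb _ ha).ab
  obtain ⟨D, hD, hd⟩ := TopologicalSpace.exists_countable_dense (C.Fix a)
  have key : ∀ (τ : C.Fix a) (n : ℕ), ∀ᵐ p : C.Fix a ∂μ, C.Reg (C.ex p * a) →
      ∃ ζ ∈ C.Fix a, dist (τ : L) ζ < 1 / (n + 1) ∧ ∃ m : ℕ, C.ex ζ = (C.ex p * a) ^ m := by
    intro τ n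
    have hε : (0 : ℝ) < 1 / (n + 1) := by positivity
    generalize (1 : ℝ) / (n + 1) = ε at hε
    refine Kron.porous_null μ (O := {p : C.Fix a | C.Reg (C.ex p * a)})
      (C.isOpen_reg.preimage ((C.cont_ex.comp continuous_subtype_val).mul
        continuous_const)).measurableSet (fun p hp => by_contra fun h => hp fun h' => absurd h' h)
      (‖τ‖ / (ε / 2)) fun p hp => ?_
    obtain ⟨m, ζ, h1, h2, h3⟩ := C.exists_pow_ex (C.ex p * a)
    rw [C.Fix_ex_mul ha p.2 hp] at h3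
    have h4 : Tendsto (fun k => ((m k : ℝ))⁻¹) atTop (𝓝[>] 0) :=
      tendsto_inv_atTop_nhdsGT_zero.comp (tendsto_natCast_atTop_atTop.comp h1)
    refine ⟨fun k => p + (m k : ℝ)⁻¹ • τ, fun k => ε / 2 * (m k : ℝ)⁻¹, ?_, ?_⟩
    · refine tendsto_nhdsWithin_iff.2 ⟨?_, (tendsto_nhdsWithin_iff.1 h4).2.mono fun k hk =>
        mul_pos (half_pos hε) hk⟩
      simpa using (tendsto_nhdsWithin_iff.1 h4).1.const_mul (ε / 2)
    filter_upwards [h1.eventually (eventually_gt_atTop 0),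
      h2.norm.eventually (gt_mem_nhds (a := ε / 2) (by simpa using hε))] with k h5 h6
    have h7 : (0 : ℝ) < m k := by exact_mod_cast h5
    refine ⟨?_, Set.eq_empty_of_forall_notMem fun q hq => hq.1 fun _ =>
      ⟨(m k : ℝ) • ((q : L) - p) + ζ k, Submodule.add_mem _
        (Submodule.smul_mem _ _ (Submodule.sub_mem _ q.2 p.2)) (h3 k).1, ?_, m k, ?_⟩⟩
    · rw [Metric.mem_closedBall, dist_self_add_right, norm_smul, Real.norm_of_nonneg (by positivity)]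
      exact le_of_eq (by field_simp)
    · have h8 : ‖(q : L) - (p + (m k : ℝ)⁻¹ • τ)‖ ≤ ε / 2 * (m k : ℝ)⁻¹ := by
        simpa [dist_eq_norm] using hq.2
      have h9 : (τ : L) - ((m k : ℝ) • ((q : L) - p) + ζ k) =
          -((m k : ℝ) • ((q : L) - (p + (m k : ℝ)⁻¹ • τ)) + ζ k) := by
        match_scalars <;> field_simp
      rw [dist_eq_norm, h9, norm_neg]
      refine (norm_add_le _ _).trans_lt ?_
      rw [norm_smul, Real.norm_of_nonneg h7.le]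
      have := mul_le_mul_of_nonneg_left h8 h7.le
      rw [show (m k : ℝ) * (ε / 2 * (m k : ℝ)⁻¹) = ε / 2 by field_simp] at this
      linarith
    · have h8 := Submodule.sub_mem _ q.2 p.2
      have h9 : C.ex q * a = C.ex ((q : L) - p) * (C.ex p * a) := by
        rw [← mul_assoc, ← C.ex_add _ _ (hab _ h8 _ p.2), sub_add_cancel]
      rw [C.ex_add _ _ (hab _ (Submodule.smul_mem _ _ h8) _ (h3 k).1), (h3 k).2, C.ex_nsmul, h9]
      exact (Commute.mul_pow (C.ex_comm ((C.Fix_ex_mul ha p.2 hp).ge h8)).symm _).symm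
  filter_upwards [(ae_ball_iff hD).2 fun τ _ => ae_all_iff.2 (key τ)] with p hp h η hη
  rw [C.Fix_ex_mul ha p.2 h] at hη ⊢
  refine Metric.mem_closure_iff.2 fun ε hε => ?_
  obtain ⟨τ, h1, h2⟩ := Metric.mem_closure_iff.1 (hd ⟨η, hη⟩) (ε / 2) (half_pos hε)
  obtain ⟨n, hn⟩ := exists_nat_one_div_lt (half_pos hε)
  obtain ⟨ζ, h3, h4, h5⟩ := hp τ h1 n h
  refine ⟨ζ, ⟨h3, h5⟩, (dist_triangle η τ ζ).trans_lt ?_⟩
  have : dist η τ < ε / 2 := h2
  linarith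

end Ctx

namespace Amb

variable {L : Type} [NormedAddCommGroup L] [InnerProductSpace ℝ L] [FiniteDimensional ℝ L]
  {K : Type} [Group K] [TopologicalSpace K] [IsTopologicalGroup K] [CompactSpace K]
  [ConnectedSpace K] {A : Type} [NormedRing A] [NormedAlgebra ℝ A] [FiniteDimensional ℝ A]
  [CompleteSpace A] [MeasurableSpace A] [BorelSpace A] (C : Amb L K A) {g : ℕ}

theorem torus_cover {a : K} (ha : C.Reg a) : ∀ᶠ b in 𝓝 a, ∃ θ ∈ (C.Fix a)ᗮ, ∃ p ∈ C.Fix a,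
    b = C.ex θ * (C.ex p * a) * (C.ex θ)⁻¹ := by
  have h1 : C.cs (fun _ => a) = C.Fix a := by
    ext y; simp [Ctx.mem_cs, Ctx.mem_Fix]
  have h2 : C.Sm (fun _ : Gen 1 => a) := ⟨Ctx.val_one.2 rfl, by
    rw [show C.cen _ _ = _ from h1]; exact (Ctx.Reg.maxAb _ ha).ab, fun h => by omega⟩
  filter_upwards [(continuous_pi fun _ => continuous_id).continuousAt.eventually
    (f := fun (b : K) (_ : Gen 1) => b) (C.local_cover h2)] with b hb
  obtain ⟨θ, p, e⟩ := hb (Ctx.val_one.2 rfl)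
  exact ⟨θ, h1 ▸ θ.2, p.1, h1 ▸ p.1.2, congrFun e (0, false)⟩

variable [MeasurableSpace L] [BorelSpace L]

theorem Kn_null : μH[(finrank ℝ L : ℕ)] (C.ι '' {a | ¬ C.Kn a}) = 0 := by
  have := C.ι_emb.isEmbedding.secondCountableTopology
  set S := {a | ¬ C.Kn a}
  have hS : ∀ a ∈ S, C.Reg a := fun a ha => by_contra fun h => ha fun h' => absurd h' h
  obtain ⟨T, h1, h2, h3⟩ := TopologicalSpace.countable_cover_nhdsWithin (s := S)
    fun a ha => inter_mem_nhdsWithin S (C.torus_cover (hS a ha))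
  refine measure_mono_null (Set.image_mono h3) ?_
  rw [Set.image_iUnion₂]
  refine (measure_biUnion_null_iff h2).2 fun a ha => ?_
  refine measure_mono_null ?_ (null_prod_image (E := (C.Fix a)ᗮ) (X := C.Fix a) _
    (ae_iff.1 (C.ae_Kn (hS a (h1 ha)) Measure.addHaar))
    (Θ := fun q => exp (C.j q.2) * (exp (C.j q.1) * C.ι a) * exp (C.j (-q.2)))
    (((C.contDiff_ej.comp ((C.Fix a)ᗮ.subtypeL.contDiff.comp contDiff_snd)).mul
      ((C.contDiff_ej.comp ((C.Fix a).subtypeL.contDiff.comp contDiff_fst)).mul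
        contDiff_const)).mul
      (C.contDiff_ej.comp ((C.Fix a)ᗮ.subtypeL.contDiff.comp contDiff_snd).neg))
    (C.Fix a).finrank_add_finrank_orthogonal.symm)
  rintro _ ⟨b, ⟨h4, θ, h5, p, h6, rfl⟩, rfl⟩
  exact ⟨(⟨p, h6⟩, ⟨θ, h5⟩), ⟨fun H => h4 (H.conj _), trivial⟩, by
    simp only [map_mul, ← C.ι_ex, C.ex_neg]⟩

theorem generic_Kn : C.Generic fun h : Fin 2 → K => C.Kn (h 0) := fun h => by
  have h1 : ∀ᵐ ξ : L, C.Kn (C.ex ξ * h 0) := by
    refine (Kron.pull_an volume (F := fun ξ => exp (C.j ξ) * C.ι (h 0)) (x₀ := 0)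
      (fun ξ _ => (((exp_analytic (𝕂 := ℝ) _).comp (C.j.analyticAt ξ))).mul analyticAt_const)
      (fun v hv => ?_) C.Kn_null).mono fun ξ hξ => by_contra fun H =>
        hξ ⟨_, H, by rw [map_mul, C.ι_ex]⟩
    have := HasFDerivAt.comp_hasDerivAt_of_eq (0 : ℝ) (((C.contDiff_ej.mul
      (contDiff_const (c := C.ι (h 0)))).differentiable one_ne_zero 0).hasFDerivAt)
      ((hasDerivAt_id (0 : ℝ)).smul_const v) (by simp)
    rw [one_smul, hv] at this
    exact C.eq_zero_of_j_mul (((C.deriv_ej v).mul_const (C.ι (h 0))).unique this)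
  exact (Measure.quasiMeasurePreserving_eval (fun _ : Fin 2 => (volume : Measure L)) 0).ae h1

omit [MeasurableSpace L] [BorelSpace L] in
theorem ae_Rr {Q : (Gen (g + 2) → A) → Prop} :
    (∀ᵐ z ∂(μH[C.d0 (g + 2)] : Measure (Gen (g + 2) → A)).restrict (C.emb '' C.Rr g), Q z) ↔
      C.Nul (C.d0 (g + 2)) {x | x ∈ C.Rr g ∧ ¬ Q (C.emb x)} := by
  rw [ae_iff, Measure.restrict_apply' C.meas_Rr, Nul]
  refine Eq.congr_left (congrArg _ (Set.ext fun z => ⟨?_, ?_⟩))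
  · rintro ⟨h, x, hx, rfl⟩
    exact ⟨x, ⟨hx, h⟩, rfl⟩
  · rintro ⟨x, hx, rfl⟩
    exact ⟨hx.2, x, hx.1, rfl⟩

theorem flow_ae (f : (Gen (g + 2) → A) → ℝ) (hf : Measurable f)
    (hi : ∀ φ : AutR (g + 2), C.Ae fun x => f (C.emb (Ctx.act φ.1.toMonoidHom x)) = f (C.emb x))
    (θ : L) : C.Ae fun x : Gen (g + 2) → K => f (C.emb (C.fl θ x)) = f (C.emb x) := by
  have hpt := C.exists_pt.choose_spec.choose_spec.1
  have h1 : ∀ k x, C.pw k x ∈ C.Fix k := fun k x => by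
    rw [C.pw_eq]; exact Submodule.smul_mem _ _ (C.pj_mem k x)
  let tA : (Gen (g + 2) → A) → A → Gen (g + 2) → A := fun z t =>
    Function.update z (0, true) (z (0, true) * t)
  have htA : ∀ x t, tA (C.emb x) (C.ι t) = C.emb (Ctx.tb x t) := fun x t => by
    simp only [tA, emb, Ctx.tb, ← map_mul]
    exact (Function.comp_update C.ι x _ _).symm
  have hc : ContDiff ℝ 1 fun p : (Gen (g + 2) → A) × A => tA p.1 p.2 := by
    refine contDiff_pi.2 fun i => ?_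
    by_cases hi : i = (0, true)
    · subst hi
      simp only [tA, Function.update_self]; fun_prop
    · simp only [tA, Function.update_of_ne hi]; fun_prop
  let W : (Gen (g + 2) → A) × L → Gen (g + 2) → A := fun p =>
    tA p.1 (exp (C.j (C.exists_pt.choose (C.Adx (p.1 (0, false))) p.2)))
  have hW : ContDiff ℝ 1 W := hc.comp (contDiff_fst.prodMk (contDiff_exp.comp
    (C.j.contDiff.comp (((contDiffOn_univ.1 hpt.contDiffOn_of_completeSpace).comp
      (C.contDiff_Adx.comp (by fun_prop))).clm_apply contDiff_snd))))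
  have hfl : ∀ ξ x, W (C.emb x, ξ) = C.emb (C.fl ξ x) := fun ξ x => by
    simp only [W, ← htA, Ctx.fl, Ctx.pw, C.ι_ex, ← C.Adx_ι]; rfl
  have hR : ∀ ξ, ∀ x ∈ C.Rr g, C.fl ξ x ∈ C.Rr g := fun ξ x hx =>
    C.tb_mem_Rr hx (C.ex_comm (h1 _ _))
  have hadd : ∀ x ∈ C.Rr g, ∀ ξ η, C.fl η (C.fl ξ x) = C.fl (ξ + η) x := fun x hx ξ η => by
    simp only [Ctx.fl, Ctx.tb_tb, Ctx.tb_a, map_add]
    rw [C.ex_add _ _ ((Ctx.Reg.maxAb _ hx.2.2 _).1 (h1 _ _) _ (h1 _ _))]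
  have hz : ∀ x : Gen (g + 2) → K, C.fl 0 x = x := fun x => by
    simp [Ctx.fl, C.ex_zero, Ctx.tb_one]
  have hN : ∀ (P : (Gen (g + 2) → K) → Prop) ξ, C.Nul (C.d0 (g + 2)) {x | x ∈ C.Rr g ∧ ¬ P x} →
      C.Nul (C.d0 (g + 2)) {x | x ∈ C.Rr g ∧ ¬ P (C.fl ξ x)} := fun P ξ h =>
    (h.image (f := C.fl (-ξ)) (W := fun z => W (z, -ξ)) (hW.comp (by fun_prop)) (hfl _)).mono
      fun x hx => ⟨C.fl ξ x, ⟨hR _ _ hx.1, hx.2⟩, by rw [hadd x hx.1, add_neg_cancel, hz]⟩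
  let Q : (Gen (g + 2) → A) → Prop := fun z => ∀ m : ℕ, f (tA z (z (0, false) ^ m)) = f z
  have hQ : ∀ x, Q (C.emb x) ↔ ∀ m : ℕ, f (C.emb (Ctx.tb x (x (0, false) ^ m))) = f (C.emb x) :=
    fun x => by simp only [Q, ← htA, map_pow]; rfl
  have hQm : MeasurableSet {z | Q z} := by
    simp only [Q, Set.ofPred_forall]
    exact MeasurableSet.iInter fun m => measurableSet_eq_fun (hf.comp
      (hc.continuous.comp (f := fun z : Gen (g + 2) → A => (z, z (0, false) ^ m))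
        (by fun_prop)).measurable) hf
  have : SigmaFinite ((μH[C.d0 (g + 2)] : Measure (Gen (g + 2) → A)).restrict (C.emb '' C.Rr g)) :=
    sigmaFinite_of_tan_le C.meas_Rr (by
      rintro _ ⟨x, hx, rfl⟩
      refine ⟨(C.Z1 x).map (C.tv x), (finrank_map_tv _ _).trans
        (C.finrank_Z1_irr (C.Rr_sub hx)).le, fun w hw => ?_⟩
      obtain ⟨u, xs, c, hs, rfl⟩ := C.exists_sec hw
      exact ⟨u, hs.cv_eq_zero fun n => (hs.mem n).1.trans hx.1.symm, rfl⟩)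
  have h2 : C.Nul (C.d0 (g + 2)) {x | x ∈ C.Rr g ∧ ¬ Q (C.emb x)} :=
    Nul.mono (Ae.all fun m : ℕ => hi (tau ^ m)) fun x hx => ⟨C.Rr_sub hx.1, fun H => hx.2 (by
      simpa only [hQ, Ctx.act_tau_pow] using H)⟩
  have h3 := (Measure.ae_ae_comm (μ := (μH[C.d0 (g + 2)] : Measure (Gen (g + 2) → A)).restrict
    (C.emb '' C.Rr g)) (ν := (volume : Measure L)) (p := fun z ξ => Q (W (z, ξ)))
    (hW.continuous.measurable hQm)).2 (Eventually.of_forall fun ξ => C.ae_Rr.2 (by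
      simpa only [hfl] using hN (fun x => Q (C.emb x)) ξ h2))
  have h4 : ∀ᵐ z ∂(μH[C.d0 (g + 2)] : Measure (Gen (g + 2) → A)).restrict (C.emb '' C.Rr g),
      ∀ᵐ ξ : L, f (W (W (z, ξ), θ)) = f (W (z, ξ)) := by
    refine C.ae_Rr.2 (((C.ae_Rr.1 h3).union (C.ae_pair (g := g) (P := fun a _ => C.Kn a)
      C.generic_Kn)).mono fun x hx => by_contra fun H => hx.2 ?_)
    have h5 : ∀ᵐ ξ : L, Q (W (C.emb x, ξ)) := by_contra fun h => H (Or.inl ⟨hx.1, h⟩)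
    have h6 : C.Kn (x (0, false)) := by_contra fun h => H (Or.inr ⟨C.Rr_sub hx.1, h⟩)
    have hl := C.reg_iff_lw.1 hx.1.2.2
    obtain ⟨η, h7, h8⟩ := mem_closure_iff_seq_limit.1 (h6 hx.1.2.2 _ (h1 _ θ))
    refine (Kron.shift_eq volume (G := fun ξ => f (W (C.emb x, ξ)))
      (hf.comp (hW.continuous.comp (by fun_prop)).measurable)
      (h8.const_smul (C.lw (x (0, false)))⁻¹) fun n => h5.mono fun ξ hξ => ?_).mono fun ξ hξ => ?_
    · obtain ⟨m, hm⟩ := (h7 n).2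
      rw [hfl, hQ] at hξ
      simp only [hfl, ← hadd x hx.1, ← hξ m]
      congr 2
      simp only [Ctx.fl, Ctx.tb_a, C.pw_eq, smul_apply, map_smul,
        smul_smul, inv_mul_cancel₀ hl, one_smul, C.pj_of_mem (h7 n).1, hm]
    · simp only [hfl, ← hadd x hx.1] at hξ ⊢
      rw [← hξ]
      congr 2
      simp only [Ctx.fl, Ctx.tb_a, C.pw_eq, smul_apply, map_smul,
        smul_smul, mul_inv_cancel₀ hl, inv_mul_cancel₀ hl, one_smul, one_mul, C.pj_pj]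
  rw [Measure.ae_ae_comm (p := fun z ξ => f (W (W (z, ξ), θ)) = f (W (z, ξ)))
    (measurableSet_eq_fun (hf.comp (hW.continuous.comp (f := fun p => (W p, θ))
      (hW.continuous.prodMk continuous_const)).measurable)
      (hf.comp hW.continuous.measurable))] at h4
  obtain ⟨ξ, hξ⟩ := h4.exists
  have h5 := hN (fun x => f (C.emb (C.fl θ (C.fl ξ x))) = f (C.emb (C.fl ξ x))) (-ξ)
    (by simpa only [hfl] using C.ae_Rr.1 hξ)
  refine ((C.ae_irr 1).and (C.ae_pair (P := fun a _ => C.Reg a)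
    (C.generic_a.mono fun _ h => h.1))).of_imp (h5.mono fun x hx => ?_)
  have h6 : x ∈ C.Rr g := ⟨hx.1.1, hx.2.1.1, hx.2.1.2⟩
  refine ⟨h6, ?_⟩
  rw [hadd x h6 (-ξ) ξ, neg_add_cancel, hz]
  exact hx.2.2

end Amb

end Pool.Agent.Lib.MP_d52947_gt
end

-- part Pool.Agent.Lib.MP_d52947_gt.CalcB
section

/-! Functions that are locally almost everywhere constant: gluing, walls and flows. -/

namespace Pool.Agent.Lib.MP_d52947_gt

open Filter Topology MeasureTheory Module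

set_option linter.unusedSectionVars false

section
variable {V : Type} [NormedAddCommGroup V] [NormedSpace ℝ V] [FiniteDimensional ℝ V]
  [MeasurableSpace V] [BorelSpace V] (μ : Measure V) [μ.IsAddHaarMeasure]

theorem lc_glue {f : V → ℝ} {S : Set V} (hS : IsPreconnected S) (h : ∀ w ∈ S, LC μ f w) :
    ∃ c, ∀ᵐ u ∂μ, u ∈ S → f u = c := by
  rcases S.eq_empty_or_nonempty with rfl | ⟨w₀, hw₀⟩
  · exact ⟨0, by simp⟩
  choose! g U hU hg using h
  have huniq : ∀ (w : V) (c c' : ℝ) (A B : Set V), A ∈ 𝓝 w → B ∈ 𝓝 w →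
      (∀ᵐ u ∂μ, u ∈ A → f u = c) → (∀ᵐ u ∂μ, u ∈ B → f u = c') → c = c' := by
    intro w c c' A B hA hB h1 h2
    have hpos : μ (A ∩ B) ≠ 0 := (μ.measure_pos_of_mem_nhds (inter_mem hA hB)).ne'
    obtain ⟨u, hu, hu1, hu2⟩ := Measure.exists_mem_of_measure_ne_zero_of_ae hpos
      (ae_restrict_of_ae (h1.and h2))
    rw [← hu1 hu.1, hu2 hu.2]
  have hc : ∀ w ∈ S, g w₀ = g w := fun w hw =>
    hS.induction₂' (fun x y => g x = g y) (fun x hx => by
      filter_upwards [mem_nhdsWithin_of_mem_nhds (eventually_mem_nhds_iff.2 (hU x hx)),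
        self_mem_nhdsWithin] with y hy hyS
      have := huniq y _ _ _ _ hy (hU y hyS) (hg x hx) (hg y hyS)
      exact ⟨this, this.symm⟩) (fun _ _ _ _ _ _ h1 h2 => h1.trans h2) hw₀ hw
  refine ⟨g w₀, ?_⟩
  rw [ae_iff]
  refine measure_null_of_locally_null _ fun x hx => ?_
  simp only [Set.mem_ofPred_eq, Classical.not_imp] at hx
  refine ⟨_, inter_mem_nhdsWithin _ (hU x hx.1), measure_mono_null ?_ (ae_iff.1 (hg x hx.1))⟩
  rintro u ⟨hu1, hu2⟩
  simp only [Set.mem_ofPred_eq, Classical.not_imp] at hu1 ⊢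
  exact ⟨hu2, hc x hx.1 ▸ hu1.2⟩

omit [FiniteDimensional ℝ V] [MeasurableSpace V] [BorelSpace V] in
/-- An analytic function vanishing on a nonempty set has a derivative of some order that
vanishes on the set, with nonzero differential at some point of the set. -/
theorem CalcB.exists_smooth {F : V → ℝ} {O W : Set V} (hO' : IsPreconnected O)
    (hF : AnalyticOnNhd ℝ F O) {w₀ : V} (hw : w₀ ∈ O) (h0 : F w₀ ≠ 0) (hWO : W ⊆ O)
    (hW : ∀ w ∈ W, F w = 0) {w₁ : V} (hw₁ : w₁ ∈ W) :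
    ∃ G : V → ℝ, AnalyticOnNhd ℝ G O ∧ (∀ w ∈ W, G w = 0) ∧ ∃ w ∈ W, fderiv ℝ G w ≠ 0 := by
  classical
  have hex : ∃ n, ∃ w ∈ W, iteratedFDeriv ℝ n F w ≠ 0 := by
    by_contra hc
    push Not at hc
    obtain ⟨p, r, hp⟩ := hF w₁ (hWO hw₁)
    refine h0 (hF.eqOn_zero_of_preconnected_of_eventuallyEq_zero hO' (hWO hw₁) ?_ hw)
    filter_upwards [Metric.eball_mem_nhds w₁ hp.r_pos] with y hy
    have h1 := hp.hasSum_iteratedFDeriv (y := y - w₁) (by
      rwa [Metric.mem_eball, edist_eq_enorm_sub, sub_zero, ← edist_eq_enorm_sub])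
    simp only [hc _ w₁ hw₁, zero_apply, smul_zero, add_sub_cancel] at h1
    exact h1.unique hasSum_zero
  obtain ⟨w, hwW, hne⟩ := Nat.find_spec hex
  have hmin := fun k (hk : k < Nat.find hex) => Nat.find_min hex hk
  generalize Nat.find hex = n at hne hmin
  rcases n with _ | k
  · refine absurd ?_ hne
    ext m
    simp [hW w hwW]
  obtain ⟨m, hm⟩ : ∃ m, iteratedFDeriv ℝ (k + 1) F w m ≠ 0 := by
    by_contra hc
    push Not at hc
    exact hne (ContinuousMultilinearMap.ext hc)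
  have hA := hF.iteratedFDeriv k
  refine ⟨fun u => iteratedFDeriv ℝ k F u (Fin.tail m), fun u hu => ?_, fun u hu => ?_,
    w, hwW, fun hz => hm ?_⟩
  · exact ((ContinuousMultilinearMap.apply ℝ (fun _ : Fin k => V) ℝ (Fin.tail m)).analyticAt
      _).comp (hA u hu)
  · have := hmin k k.lt_succ_self
    push Not at this
    simp [this u hu]
  · rw [iteratedFDeriv_succ_apply_left, ← fderiv_continuousMultilinear_apply_const_apply
      (hA w (hWO hwW)).differentiableAt, hz]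
    rfl

/-- If the bad set lies in a smooth hypersurface and misses points of it near `w`, then `w` is
not bad. -/
theorem CalcB.lc_of_hyp {f G : V → ℝ} {w : V} (hG : ContDiffAt ℝ 1 G w)
    (hd : fderiv ℝ G w ≠ 0) (h0 : G w = 0) (h : ∀ᶠ u in 𝓝 w, G u ≠ 0 → LC μ f u)
    (h' : ∃ᶠ u in 𝓝 w, G u = 0 ∧ LC μ f u) : LC μ f w := by
  have := FiniteDimensional.complete ℝ V
  set ν := fderiv ℝ G w with hν
  obtain ⟨e, he⟩ : ∃ e, ν e = 1 := by
    obtain ⟨e, he⟩ : ∃ e, ν e ≠ 0 := by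
      by_contra hc
      push Not at hc
      exact hd (ContinuousLinearMap.ext hc)
    exact ⟨(ν e)⁻¹ • e, by simp [inv_mul_cancel₀ he]⟩
  set Θ : V → V := fun u => (u - w) + (G u - ν (u - w)) • e with hΘ
  have hΘν : ∀ u, ν (Θ u) = G u := fun u => by simp [hΘ, he]
  have hΘw : Θ w = 0 := by simp [hΘ, h0]
  have hΘc : ContDiffAt ℝ 1 Θ w := by
    refine ContDiffAt.add (by fun_prop) (ContDiffAt.smul (hG.sub ?_) contDiffAt_const)
    exact ν.contDiff.contDiffAt.comp w (by fun_prop)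
  have hΘd : HasFDerivAt Θ
      ((ContinuousLinearEquiv.refl ℝ V : V ≃L[ℝ] V) : V →L[ℝ] V) w := by
    have h1 : HasFDerivAt (fun u => u - w) (ContinuousLinearMap.id ℝ V) w :=
      (hasFDerivAt_id w).sub_const w
    have h2 : HasFDerivAt (fun u => G u - ν (u - w)) (ν - ν.comp (ContinuousLinearMap.id ℝ V)) w :=
      (hG.differentiableAt one_ne_zero).hasFDerivAt.sub (ν.hasFDerivAt.comp w h1)
    refine (h1.add (h2.smul_const e)).congr_fderiv ?_
    ext v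
    simp
  set φ := hΘc.toOpenPartialHomeomorph Θ hΘd one_ne_zero with hφ
  have hφc : ∀ u, φ u = Θ u := fun u => rfl
  have hws : w ∈ φ.source := hΘc.mem_toOpenPartialHomeomorph_source hΘd one_ne_zero
  have h0t : (0 : V) ∈ φ.target := hΘw ▸ φ.map_source hws
  have hs0 : φ.symm 0 = w := by rw [← hΘw]; exact φ.left_inv hws
  have hinv : ContDiffAt ℝ 1 φ.symm 0 := hΘw ▸ hΘc.to_localInverse hΘd one_ne_zero
  have hev : ∀ᶠ y in 𝓝 (0 : V), y ∈ φ.target ∧ DifferentiableAt ℝ φ.symm y ∧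
      (G (φ.symm y) ≠ 0 → LC μ f (φ.symm y)) := by
    refine (φ.open_target.eventually_mem h0t).and (Eventually.and ?_ ?_)
    · exact (hinv.eventually (by simp)).mono fun y hy => hy.differentiableAt one_ne_zero
    · exact (hinv.continuousAt.tendsto.eventually (hs0.symm ▸ h) :)
  obtain ⟨r, hr, hball⟩ := Metric.eventually_nhds_iff_ball.1 hev
  have hGy : ∀ y ∈ Metric.ball (0 : V) r, G (φ.symm y) = ν y := fun y hy => by
    rw [← hΘν, ← hφc, φ.right_inv (hball y hy).1]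
  have hB : φ.source ∩ φ ⁻¹' Metric.ball 0 r ∈ 𝓝 w :=
    inter_mem (φ.open_source.mem_nhds hws) ((φ.continuousAt hws).preimage_mem_nhds
      (by rw [hφc, hΘw]; exact Metric.ball_mem_nhds 0 hr))
  obtain ⟨u, ⟨hu0, hu1⟩, hus, hub⟩ := (h'.and_eventually hB).exists
  have hνy : ν (φ u) = 0 := by rw [hφc, hΘν, hu0]
  have hhalf : ∀ s : ℝ, s = 1 ∨ s = -1 →
      IsPreconnected (insert (φ u) (Metric.ball (0 : V) r ∩ {y | 0 < s * ν y})) := by
    intro s hs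
    have hs2 : s * s = 1 := by rcases hs with rfl | rfl <;> norm_num
    have hconv : Convex ℝ (Metric.ball (0 : V) r ∩ {y | 0 < s * ν y}) :=
      (convex_ball _ _).inter (convex_halfSpace_gt (f := fun y => s * ν y)
        ⟨fun x y => by rw [map_add, mul_add], fun c x => by
          rw [map_smul, smul_eq_mul, smul_eq_mul]; ring⟩ 0)
    refine hconv.isPreconnected.subset_closure (Set.subset_insert _ _)
      (Set.insert_subset ?_ subset_closure)
    have ht : Tendsto (fun t : ℝ => φ u + t • s • e) (𝓝 0) (𝓝 (φ u)) := by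
      have : Continuous fun t : ℝ => φ u + t • s • e := by fun_prop
      simpa using this.tendsto 0
    have ht' := ht.mono_left (nhdsWithin_le_nhds (s := Set.Ioi 0))
    refine mem_closure_of_tendsto ht' ?_
    filter_upwards [ht'.eventually (Metric.isOpen_ball.mem_nhds hub), self_mem_nhdsWithin]
      with t h1 h2
    refine ⟨h1, ?_⟩
    simp only [Set.mem_ofPred_eq, map_add, map_smul, hνy, he, smul_eq_mul, mul_one, zero_add]
    rw [mul_left_comm, hs2, mul_one]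
    exact h2
  have hpre := (hhalf 1 (Or.inl rfl)).union (φ u) (Set.mem_insert _ _) (Set.mem_insert _ _)
    (hhalf (-1) (Or.inr rfl))
  set T := insert (φ u) (Metric.ball (0 : V) r ∩ {y | 0 < 1 * ν y}) ∪
    insert (φ u) (Metric.ball (0 : V) r ∩ {y | 0 < -1 * ν y}) with hT
  have hTb : ∀ y ∈ T, y ∈ Metric.ball (0 : V) r ∧ (y = φ u ∨ ν y ≠ 0) := by
    rintro y ((rfl | hy) | (rfl | hy))
    · exact ⟨hub, Or.inl rfl⟩
    · exact ⟨hy.1, Or.inr fun hz => by simpa [hz] using hy.2⟩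
    · exact ⟨hub, Or.inl rfl⟩
    · exact ⟨hy.1, Or.inr fun hz => by simpa [hz] using hy.2⟩
  obtain ⟨c, hc⟩ := lc_glue μ (f := f) (hpre.image φ.symm fun y hy =>
    (hball y (hTb y hy).1).2.1.continuousAt.continuousWithinAt) (by
      rintro _ ⟨y, hy, rfl⟩
      obtain ⟨h1, rfl | h2⟩ := hTb y hy
      · rwa [φ.left_inv hus]
      · exact (hball y h1).2.2 (by rwa [hGy y h1]))
  have hnull : μ (φ.symm '' (Metric.ball (0 : V) r ∩ (LinearMap.ker (ν : V →ₗ[ℝ] ℝ) : Set V))) =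
      0 := by
    refine addHaar_image_eq_zero_of_differentiableOn_of_addHaar_eq_zero μ
      (fun y hy => (hball y hy.1).2.1.differentiableWithinAt)
      (measure_mono_null Set.inter_subset_right (μ.addHaar_submodule _ fun htop => ?_))
    have : e ∈ LinearMap.ker (ν : V →ₗ[ℝ] ℝ) := htop ▸ Submodule.mem_top
    simp [he] at this
  refine ⟨c, _, hB, ?_⟩
  filter_upwards [hc, compl_mem_ae_iff.2 hnull] with x h1 h2 hx
  refine h1 ⟨φ x, ?_, φ.left_inv hx.1⟩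
  rcases lt_trichotomy (ν (φ x)) 0 with h3 | h3 | h3
  · exact Or.inr (Or.inr ⟨hx.2, by simpa using h3⟩)
  · exact absurd ⟨φ x, ⟨hx.2, h3⟩, φ.left_inv hx.1⟩ h2
  · exact Or.inl (Or.inr ⟨hx.2, by simpa using h3⟩)

theorem wall {f F : V → ℝ} {O : Set V} (hO : IsOpen O) (hO' : IsPreconnected O)
    (hF : AnalyticOnNhd ℝ F O) {w₀ : V} (hw : w₀ ∈ O) (h0 : F w₀ ≠ 0)
    (h : ∀ w ∈ O, F w ≠ 0 → LC μ f w) {w₁ : V} (hw₁ : w₁ ∈ O) (h1 : ¬ LC μ f w₁) :
    ∃ (G : V → ℝ) (w : V), w ∈ O ∧ AnalyticAt ℝ G w ∧ fderiv ℝ G w ≠ 0 ∧ G w = 0 ∧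
      ∀ᶠ u in 𝓝 w, (¬ LC μ f u ↔ G u = 0) := by
  obtain ⟨G, hG, hGW, w, hwW, hd⟩ := CalcB.exists_smooth (W := {w | w ∈ O ∧ ¬ LC μ f w}) hO' hF
    hw h0 (fun _ hx => hx.1) (fun x hx => by_contra fun hc => hx.2 (h x hx.1 hc)) ⟨hw₁, h1⟩
  have hev : ∀ᶠ u in 𝓝 w, G u ≠ 0 → LC μ f u := by
    filter_upwards [hO.mem_nhds hwW.1] with u hu hne
    by_contra hc
    exact hne (hGW u ⟨hu, hc⟩)
  refine ⟨G, w, hwW.1, hG w hwW.1, hd, hGW w hwW, ?_⟩
  have hno : ¬ ∃ᶠ u in 𝓝 w, G u = 0 ∧ LC μ f u := fun hfr =>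
    hwW.2 (CalcB.lc_of_hyp μ (hG w hwW.1).contDiffAt hd (hGW w hwW) hev hfr)
  filter_upwards [hev, not_frequently.1 hno] with u h2 h3
  exact ⟨fun h4 => by_contra fun h5 => h4 (h2 h5), fun h4 h5 => h3 ⟨h4, h5⟩⟩

theorem lc_of_flow {E : Type} [NormedAddCommGroup E] [NormedSpace ℝ E] [FiniteDimensional ℝ E]
    {f : V → ℝ} (hf : Measurable f) {Φ : E × V → V} {w₀ : V} (hΦ : ContDiffAt ℝ 1 Φ (0, w₀))
    (h0 : Φ (0, w₀) = w₀) (hs : ∀ v, ∃ e, fderiv ℝ Φ (0, w₀) (e, 0) = v)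
    {U : Set V} (hU : U ∈ 𝓝 w₀) (hi : ∀ᶠ s in 𝓝 (0 : E), ∀ᵐ w ∂μ, w ∈ U → f (Φ (s, w)) = f w) :
    LC μ f w₀ := by
  classical
  have := FiniteDimensional.complete ℝ V
  set D := fderiv ℝ Φ (0, w₀) with hD
  obtain ⟨σ₀, hσ₀⟩ := LinearMap.exists_rightInverse_of_surjective
    ((D : E × V →ₗ[ℝ] V).comp (LinearMap.inl ℝ E V)) (LinearMap.range_eq_top.2 hs)
  set σ : V →L[ℝ] E := LinearMap.toContinuousLinearMap σ₀ with hσ
  have hσD : ∀ v, D (σ v, 0) = v := fun v => LinearMap.congr_fun hσ₀ v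
  set P : V × V →L[ℝ] E × V := σ.prodMap (ContinuousLinearMap.id ℝ V) with hP
  have hP0 : P (0, w₀) = (0, w₀) := by simp [hP]
  have hΦ' : ContDiffAt ℝ 1 Φ (P (0, w₀)) := hP0.symm ▸ hΦ
  set Θ : V × V → V × V := fun p => (Φ (P p), p.2) with hΘ
  have hΘc : ContDiffAt ℝ 1 Θ (0, w₀) :=
    (hΦ'.comp (0, w₀) P.contDiff.contDiffAt).prodMk contDiffAt_snd
  have hΘd : HasStrictFDerivAt Θ ((D.comp P).prod (ContinuousLinearMap.snd ℝ V V)) (0, w₀) := by
    refine HasStrictFDerivAt.prodMk ?_ hasStrictFDerivAt_snd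
    have h1 : HasStrictFDerivAt Φ D (P (0, w₀)) := hP0.symm ▸ hΦ.hasStrictFDerivAt one_ne_zero
    exact h1.comp (0, w₀) P.hasStrictFDerivAt
  have hmap : map Θ (𝓝 (0, w₀)) = 𝓝 (w₀, w₀) := by
    rw [hΘd.map_nhds_eq_of_surj]
    · simp only [hΘ, hP0, h0]
    · refine LinearMap.range_eq_top.2 fun q => ⟨(q.1 - D (0, q.2), q.2), Prod.ext ?_ rfl⟩
      change D (σ (q.1 - D (0, q.2)), q.2) = q.1
      rw [show (σ (q.1 - D (0, q.2)), q.2) = (σ (q.1 - D (0, q.2)), 0) + (0, q.2) by simp,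
        map_add, hσD, sub_add_cancel]
  have hev : ∀ᶠ p in 𝓝 ((0, w₀) : V × V), DifferentiableAt ℝ Θ p ∧ p.2 ∈ U ∧
      ∀ᵐ w ∂μ, w ∈ U → f (Φ (σ p.1, w)) = f w := by
    refine ((hΘc.eventually (by simp)).mono fun y hy => hy.differentiableAt one_ne_zero).and
      (Eventually.and (continuous_snd.continuousAt.eventually_mem hU) ?_)
    have : Tendsto (fun p : V × V => σ p.1) (𝓝 (0, w₀)) (𝓝 0) := by
      have h1 : Continuous fun p : V × V => σ p.1 := by fun_prop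
      simpa using h1.tendsto (0, w₀)
    exact this.eventually hi
  obtain ⟨B, hB, hBo, hB0⟩ := eventually_nhds_iff.1 hev
  have hm : Measurable (B.piecewise Θ fun _ => 0) :=
    ContinuousOn.measurable_piecewise
      (fun p hp => (hB p hp).1.continuousAt.continuousWithinAt) continuousOn_const
      hBo.measurableSet
  set N : Set (V × V) := B ∩ {p | f (B.piecewise Θ (fun _ => 0) p).1 = f p.2}ᶜ with hN
  have hNm : MeasurableSet N := hBo.measurableSet.inter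
    (measurableSet_eq_fun (hf.comp hm.fst) (hf.comp measurable_snd)).compl
  have hN0 : μ.prod μ N = 0 := by
    rw [Measure.measure_prod_null hNm]
    refine Eventually.of_forall fun v => ?_
    by_cases hv : ∃ w, (v, w) ∈ B
    · obtain ⟨w, hw⟩ := hv
      refine measure_mono_null (fun x hx => ?_) (ae_iff.1 (hB _ hw).2.2)
      have h2 := hx.2
      simp only [Set.mem_compl_iff, Set.mem_ofPred_eq, Set.piecewise_eq_of_mem _ _ _ hx.1] at h2
      exact fun h3 => h2 (h3 (hB _ hx.1).2.1)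
    · have : Prod.mk v ⁻¹' N = ∅ := Set.eq_empty_of_forall_notMem fun w hw => hv ⟨w, hw.1⟩
      simp [this]
  have hI : μ.prod μ (Θ '' N) = 0 :=
    addHaar_image_eq_zero_of_differentiableOn_of_addHaar_eq_zero _
      (fun p hp => (hB p hp.1).1.differentiableWithinAt) hN0
  have hnb : Θ '' B ∈ 𝓝 (w₀, w₀) := hmap ▸ image_mem_map (hBo.mem_nhds hB0)
  rw [nhds_prod_eq] at hnb
  obtain ⟨A, hA, hAB⟩ := mem_prod_self_iff.1 hnb
  obtain ⟨x, hx, hx'⟩ := Measure.exists_mem_of_measure_ne_zero_of_ae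
    (μ.measure_pos_of_mem_nhds hA).ne'
    (ae_restrict_of_ae (Measure.ae_ae_of_ae_prod (compl_mem_ae_iff.2 hI)))
  refine ⟨f x, A, hA, hx'.mono fun u hu huA => ?_⟩
  obtain ⟨p, hp, hpe⟩ := hAB (Set.mk_mem_prod hx huA)
  by_contra hne
  refine hu ⟨p, ⟨hp, fun h3 => hne ?_⟩, hpe⟩
  simp only [Set.mem_ofPred_eq, Set.piecewise_eq_of_mem _ _ _ hp, hpe] at h3
  rw [h3, show p.2 = u from congrArg Prod.snd hpe]

end

end Pool.Agent.Lib.MP_d52947_gt
end

-- part Pool.Agent.Lib.MP_d52947_gt.FVCA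
section

/-! Algebraic part of the first variation lemma. -/

namespace Pool.Agent.Lib.MP_d52947_gt

open Filter Topology MeasureTheory Module
open scoped RealInnerProductSpace

namespace FVC

set_option linter.unusedSectionVars false
set_option linter.deprecated false

variable {L : Type} [NormedAddCommGroup L] [InnerProductSpace ℝ L] [FiniteDimensional ℝ L]
  {K : Type} [Group K] [TopologicalSpace K] [IsTopologicalGroup K] [CompactSpace K]
  [ConnectedSpace K] (C : Ctx L K) {s t : Submodule ℝ L}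

/-- roots in the support of a vector -/
def supp (t : Submodule ℝ L) (b : L) : Set L :=
  {α | α ∈ C.Wt t ∧ ∃ X Y, C.WP t α X Y ∧ ⟪b, X⟫ ≠ 0}

theorem ad_ad_zero {θ z : L} (h : C.ad θ (C.ad θ z) = 0) : C.ad θ z = 0 := by
  rw [← inner_self_eq_zero (𝕜 := ℝ), C.inner_ad, h, inner_zero_right, neg_zero]

theorem exists_inj (hs : C.IsAb s) {Q : Submodule ℝ L} (hQ : ∀ θ ∈ s, ∀ y ∈ Q, C.ad θ y ∈ Q)
    (hf : ∀ θ ∈ s, (∀ y ∈ Q, C.ad θ y = 0) → θ = 0) :
    ∃ x ∈ Q, ∀ θ ∈ s, C.ad θ x = 0 → θ = 0 := by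
  obtain ⟨U, ⟨x, hx, rfl⟩, h2⟩ := exists_minimal_of_wellFoundedLT
    (fun U : Submodule ℝ L => ∃ x ∈ Q, U = s ⊓ LinearMap.ker (C.ad.flip x).toLinearMap)
    ⟨_, 0, Q.zero_mem, rfl⟩
  refine ⟨x, hx, fun θ hθ h => hf θ hθ fun y hy => ad_ad_zero C ?_⟩
  have h3 : s ⊓ LinearMap.ker (C.ad.flip (x + C.ad θ y)).toLinearMap ≤
      s ⊓ LinearMap.ker (C.ad.flip x).toLinearMap := fun η hη => ⟨hη.1, by
    have h4 : C.ad η x + C.ad η (C.ad θ y) = 0 := by simpa using hη.2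
    have h5 : ⟪C.ad η x, C.ad η (C.ad θ y)⟫ = 0 := by
      rw [hs.comm hη.1 hθ, real_inner_comm, C.inner_ad, hs.comm hθ hη.1, h, map_zero,
        inner_zero_right, neg_zero]
    have h6 := congrArg (⟪C.ad η x, ·⟫) h4
    simp only [inner_add_right, h5, add_zero, inner_zero_right, inner_self_eq_zero] at h6
    exact h6⟩
  have h4 := h2 ⟨_, Q.add_mem hx (hQ θ hθ y hy), rfl⟩ h3 ⟨hθ, h⟩
  simpa [h] using h4.2

theorem finrank_lt (hs : C.IsAb s) (h0 : s ≠ ⊥) {Q : Submodule ℝ L}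
    (hQ : ∀ θ ∈ s, ∀ y ∈ Q, C.ad θ y ∈ Q) (hf : ∀ θ ∈ s, (∀ y ∈ Q, C.ad θ y = 0) → θ = 0) :
    finrank ℝ s < finrank ℝ Q := by
  obtain ⟨x, hx, h⟩ := exists_inj C hs hQ hf
  have h1 : finrank ℝ (s.map (C.ad.flip x).toLinearMap) = finrank ℝ s := by
    have := ((C.ad.flip x).toLinearMap.domRestrict s).finrank_range_add_finrank_ker
    rw [LinearMap.range_domRestrict, LinearMap.ker_eq_bot'.2 fun θ hθ =>
      Subtype.ext (h θ θ.2 hθ), finrank_bot, add_zero] at this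
    exact this
  rw [← h1]
  refine Submodule.finrank_lt_finrank_of_lt (lt_of_le_of_ne ?_ fun e => h0 ?_)
  · rintro _ ⟨θ, hθ, rfl⟩
    exact hQ θ hθ x hx
  · obtain ⟨θ, hθ, h2⟩ := e.ge hx
    have h3 : C.ad θ x = x := h2
    have h4 : x = 0 := by
      have := C.inner_ad θ x x
      rw [h3] at this
      exact inner_self_eq_zero.1 (by linarith : ⟪x, x⟫ = 0)
    exact eq_bot_iff.2 fun η hη => h η hη (by simp [h4])

theorem faithful (I : C.Ideals) (i : Fin I.N) {β θ : L} (hβ : I.p i β = β) (h0 : β ≠ 0)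
    (hθ : I.p i θ = θ) (h : ∀ y, C.ad β (C.ad θ y) = 0) : θ = 0 := by
  let c : Submodule ℝ L :=
    { carrier := {z | I.p i z = z ∧ ∀ y, C.ad z (C.ad θ y) = 0}
      zero_mem' := by simp
      add_mem' := fun ha hb => ⟨by rw [map_add, ha.1, hb.1], fun y => by simp [ha.2, hb.2]⟩
      smul_mem' := fun r x ha => ⟨by rw [map_smul, ha.1], fun y => by simp [ha.2]⟩ }
  have h1 : ∀ u, ∀ z ∈ c, C.ad u z ∈ c := fun u z hz => ⟨by rw [I.p_ad, hz.1], fun y => by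
    let R := LinearMap.range (C.ad θ).toLinearMap
    obtain ⟨v, hv⟩ := R.starProjection_apply_mem u
    have h2 : C.ad θ (u - R.starProjection u) = 0 := by
      rw [← inner_self_eq_zero (𝕜 := ℝ), C.inner_ad, real_inner_comm, neg_eq_zero]
      exact R.sub_starProjection_mem_orthogonal u _ ⟨_, rfl⟩
    set w := u - R.starProjection u with hw
    have h3 : u = w + C.ad θ v := by rw [hw, ← hv]; simp
    have h4 := C.jac w z (C.ad θ y)
    have h5 := C.jac θ w y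
    rw [h2] at h5
    rw [hz.2, show C.ad w (C.ad θ y) = C.ad θ (C.ad w y) by simpa using h5.symm, hz.2] at h4
    rw [h3, map_add, ContinuousLinearMap.add_apply, C.ad_swap (C.ad θ v), hz.2]
    simpa using h4.symm⟩
  rcases I.simple i c (fun x hx => hx.1) h1 with h2 | h2
  · exact absurd (h2.le (show β ∈ c from ⟨hβ, h⟩)) h0
  · have h3 := (h2 θ).2
    rw [hθ] at h3
    rw [← hθ]
    exact I.p_Z i θ (C.mem_Z.2 (ContinuousLinearMap.ext fun y => ad_ad_zero C (h3 y)))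

theorem supp_zero {β θ α : L} (hθ : θ ∈ t) (h : C.ad θ β = 0) (hα : α ∈ supp C t β) :
    ⟪α, θ⟫ = 0 := by
  obtain ⟨-, X, Y, h1, h2⟩ := hα
  have := C.inner_ad θ β Y
  rw [h, (h1.2 θ hθ).2, inner_zero_left, real_inner_smul_right, eq_comm, neg_eq_zero] at this
  exact (mul_eq_zero.1 this).resolve_right h2

theorem rank_split (I : C.Ideals) (i : Fin I.N) (t : Submodule ℝ L) {β : L} (hβ : I.p i β = β) :
    finrank ℝ (t.map (C.ad.flip β).toLinearMap) + finrank ℝ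
      (t.map (I.p i).toLinearMap ⊓ LinearMap.ker (C.ad.flip β).toLinearMap : Submodule ℝ L) =
      finrank ℝ (t.map (I.p i).toLinearMap) := by
  have e1 := ((C.ad.flip β).toLinearMap.domRestrict
    (t.map (I.p i).toLinearMap)).finrank_range_add_finrank_ker
  rw [LinearMap.range_domRestrict, LinearMap.ker_domRestrict,
    ← Submodule.finrank_map_subtype_eq, Submodule.map_comap_subtype, ← Submodule.map_comp] at e1
  have e2 : (C.ad.flip β).toLinearMap ∘ₗ (I.p i).toLinearMap = (C.ad.flip β).toLinearMap := by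
    ext y
    change C.ad (I.p i y) β = C.ad y β
    rw [← C.ad_p, hβ]
  rwa [e2] at e1

/-- the algebraic data at a point of maximal support -/
structure Dat (I : C.Ideals) (i : Fin I.N) (t : Submodule ℝ L) (β : L) (Q : Submodule ℝ L) :
    Prop where
  mx : C.IsMaxAb t
  pβ : I.p i β = β
  ne : β ≠ 0
  rk : finrank ℝ Q ≤ finrank ℝ (t.map (I.p i).toLinearMap)
  hW : ∀ a ∈ t, C.ad a β ∈ Q
  hX : ∀ α X Y, α ∉ supp C t β → α ≠ 0 → C.WP t α X Y → C.ad β X ∈ Q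

variable {C} {I : C.Ideals} {i : Fin I.N} {β : L} {Q : Submodule ℝ L}

theorem Dat.stab (H : Dat C I i t β Q) {θ : L} (hθ : θ ∈ t) (hi : I.p i θ = θ)
    (h : C.ad θ β = 0) : θ = 0 := by
  by_contra hne
  set s := t.map (I.p i).toLinearMap ⊓ LinearMap.ker (C.ad.flip β).toLinearMap with hs
  have hs' : ∀ η ∈ s, η ∈ t ∧ I.p i η = η ∧ C.ad η β = 0 := by
    rintro _ ⟨⟨η, h1, rfl⟩, h2⟩
    exact ⟨H.mx.p_mem I i η h1, I.p_idem i η, h2⟩
  have hab : C.IsAb s := fun x hx y hy => H.mx.ab x (hs' x hx).1 y (hs' y hy).1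
  have hc : ∀ η ∈ s, ∀ y, C.ad η (C.ad β y) = C.ad β (C.ad η y) := fun η hη y => by
    rw [C.jac, (hs' η hη).2.2]; simp
  let R := Submodule.span ℝ {z | ∃ η ∈ s, ∃ y, z = C.ad β (C.ad η y)}
  let W := t.map (C.ad.flip β).toLinearMap
  have h1 := finrank_lt C hab (Q := R) (fun e => hne (e.le (show θ ∈ s from ⟨⟨θ, hθ, hi⟩, h⟩)))
    (fun η hη => Submodule.span_le (p := R.comap (C.ad η).toLinearMap).2 (by
      rintro _ ⟨ζ, hζ, y, rfl⟩
      exact Submodule.subset_span ⟨η, hη, _, hc η hη _⟩))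
    fun η hη hR => faithful C I i H.pβ H.ne (hs' η hη).2.1 fun y => by
      have := hR _ (Submodule.subset_span ⟨η, hη, y, rfl⟩)
      rw [← hc η hη] at this ⊢
      exact ad_ad_zero C this
  have h2 : R ≤ Q := Submodule.span_le.2 (by
    rintro _ ⟨η, hη, y, rfl⟩
    refine C.WP_top H.mx.ab (Q.comap ((C.ad β).toLinearMap ∘ₗ (C.ad η).toLinearMap))
      (fun α X Y G => ?_) y
    change C.ad β (C.ad η X) ∈ Q
    rw [(G.2 η (hs' η hη).1).1, ← smul_neg, map_smul]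
    by_cases ha : α = 0
    · simp [ha]
    by_cases hb : α ∈ supp C t β
    · simp [supp_zero C (hs' η hη).1 (hs' η hη).2.2 hb]
    · exact Q.smul_mem _ (H.hX α _ _ hb ha G.rot))
  have h3 : R ≤ Wᗮ := Submodule.span_le.2 (by
    rintro _ ⟨η, hη, y, rfl⟩ _ ⟨a, ha, rfl⟩
    change ⟪C.ad a β, _⟫ = 0
    rw [← hc η hη, real_inner_comm, C.inner_ad, H.mx.ab.comm (hs' η hη).1 ha, (hs' η hη).2.2]
    simp)
  have h4 : W ≤ Q := by
    rintro _ ⟨a, ha, rfl⟩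
    exact H.hW a ha
  have h5 := Submodule.finrank_add_inf_finrank_orthogonal h4
  have h6 := Submodule.finrank_mono (le_inf h3 h2)
  have h7 := rank_split C I i t H.pβ
  have h8 := H.rk
  change finrank ℝ W + finrank ℝ s = _ at h7
  omega

theorem Dat.eq (H : Dat C I i t β Q) {y : L} (hy : y ∈ Q) :
    ∃ a ∈ t, I.p i a = a ∧ C.ad a β = y := by
  have h7 := rank_split C I i t H.pβ
  have h1 : t.map (I.p i).toLinearMap ⊓ LinearMap.ker (C.ad.flip β).toLinearMap = ⊥ := by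
    rw [eq_bot_iff]
    rintro _ ⟨⟨η, h1, rfl⟩, h2⟩
    exact H.stab (H.mx.p_mem I i η h1) (I.p_idem i η) h2
  rw [h1, finrank_bot, add_zero] at h7
  obtain ⟨a, ha, rfl⟩ := (Submodule.eq_of_le_of_finrank_le (S₁ := t.map (C.ad.flip β).toLinearMap)
    (by rintro _ ⟨a, ha, rfl⟩; exact H.hW a ha) (H.rk.trans h7.ge)).ge hy
  exact ⟨_, H.mx.p_mem I i a ha, I.p_idem i a, by rw [← C.ad_p, H.pβ]; rfl⟩

theorem Dat.full (H : Dat C I i t β Q) {α : L} (hα : α ∈ C.Wt t) (hi : I.p i α = α) :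
    α ∈ supp C t β := by
  by_contra hn
  obtain ⟨h0, X, Y, hX, G⟩ := hα
  obtain ⟨a, ha, ha', h1⟩ := H.eq (H.hX α X Y hn h0 G)
  obtain ⟨b, hb, hb', h2⟩ := H.eq (H.hX α _ _ hn h0 G.rot.rot.rot)
  rw [neg_neg] at h2
  have h3 : C.ad β (X + a) = 0 := by rw [map_add, C.ad_swap β a, h1, add_neg_cancel]
  have h4 : C.ad β (Y + b) = 0 := by rw [map_add, C.ad_swap β b, h2, add_neg_cancel]
  have h5 := C.jac β (X + a) (Y + b)
  rw [h3, h4] at h5
  simp only [map_add, ContinuousLinearMap.add_apply, G.ad_eq h0 (G.ad_mem H.mx), C.ad_swap X b,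
    (G.2 a ha).2, (G.2 b hb).1, H.mx.ab a ha b hb, map_zero, ContinuousLinearMap.zero_apply,
    neg_neg, add_zero, map_neg, map_smul] at h5
  have h6 := H.stab (θ := ⟪X, X⟫ • α + ⟪α, a⟫ • a + ⟪α, b⟫ • b)
    (t.add_mem (t.add_mem (t.smul_mem _ G.1) (t.smul_mem _ ha)) (t.smul_mem _ hb))
    (by simp [hi, ha', hb']) (by
      simp only [map_add, map_smul, ContinuousLinearMap.add_apply, ContinuousLinearMap.smul_apply,
        h1, h2, C.ad_swap α β]
      linear_combination (norm := module) h5)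
  have h7 := congrArg (⟪α, ·⟫) h6
  simp only [inner_add_right, real_inner_smul_right, inner_zero_right] at h7
  have := mul_pos (real_inner_self_pos.2 hX) (real_inner_self_pos.2 h0)
  nlinarith [mul_self_nonneg ⟪α, a⟫, mul_self_nonneg ⟪α, b⟫]

theorem Dat.fin (H : Dat C I i t β Q) (hβ : β ∈ tᗮ) {ν : L} (hi : I.p i ν = ν) (hν : ν ∈ tᗮ)
    (hQ : ∀ a ∈ t, C.ad a ν ∈ Q) : ∃ c : ℝ, ν = c • β := by
  have h1 : ∀ θ, ∃ a, θ ∈ t → a ∈ t ∧ C.ad a β = C.ad θ ν := fun θ => by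
    by_cases h : θ ∈ t
    · obtain ⟨a, h1, -, h2⟩ := H.eq (hQ θ h)
      exact ⟨a, fun _ => ⟨h1, h2⟩⟩
    · exact ⟨0, fun h' => absurd h' h⟩
  choose A hA using h1
  have h2 : ∀ α X Y, C.WP t α X Y → ∀ θ ∈ t, ⟪α, A θ⟫ * ⟪β, X⟫ = ⟪α, θ⟫ * ⟪ν, X⟫ :=
    fun α X Y G θ hθ => by
    have := congrArg (⟪·, Y⟫) (hA θ hθ).2
    simpa [C.inner_ad, (G.2 θ hθ).2, (G.2 _ (hA θ hθ).1).2, real_inner_smul_right] using this
  let c : L → ℝ := fun α => ⟪α, A α⟫ / ⟪α, α⟫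
  have h3 : ∀ α X Y, α ≠ 0 → C.WP t α X Y → ⟪ν, X⟫ = c α * ⟪β, X⟫ := fun α X Y h0 G => by
    have := h2 α X Y G α G.1
    have h := inner_self_ne_zero (𝕜 := ℝ).2 h0
    simp only [c]
    field_simp
    linarith
  have h4 : ∀ α ∈ C.Wt t, I.p i α = α → ∀ θ ∈ t, ⟪α, A θ⟫ = c α * ⟪α, θ⟫ := fun α hα e θ hθ => by
    obtain ⟨-, X, Y, G, h⟩ := H.full hα e
    refine mul_right_cancel₀ h ?_
    rw [h2 α X Y G θ hθ, h3 α X Y hα.1 G]; ring
  obtain ⟨c₀, hc⟩ : ∃ c₀, ∀ α ∈ C.Wt t, I.p i α = α → c α = c₀ := by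
    by_cases h : ∃ α ∈ C.Wt t, I.p i α = α
    swap
    · exact ⟨0, fun α a b => absurd ⟨α, a, b⟩ h⟩
    obtain ⟨α₀, a₀, b₀⟩ := h
    refine ⟨c α₀, fun α a b => (C.Wt_irred I H.mx.ab (H.mx.p_mem I) i
      {γ | (γ ∈ C.Wt t ∧ I.p i γ = γ) ∧ c γ = c α₀} (fun _ h => h.1) ⟨α₀, ⟨a₀, b₀⟩, rfl⟩
      (fun γ hγ δ hδ h => ?_) α a b).2⟩
    have h5 : I.p i δ = δ := by
      obtain ⟨j, hj⟩ := C.Wt_ideal I (H.mx.p_mem I) hδ
      by_contra e
      refine h ?_
      rw [← hγ.1.2, ← hj, I.p_symm, I.p_orth i j (fun e' => e (e' ▸ hj)), inner_zero_right]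
    refine ⟨⟨hδ, h5⟩, Eq.trans ?_ hγ.2⟩
    have h6 := h4 _ (C.Wt_refl H.mx hγ.1.1 hδ) (by simp [h5, hγ.1.2])
    have hγt := C.Wt_mem hγ.1.1
    have hδt := C.Wt_mem hδ
    have h7 : (2 * ⟪γ, δ⟫ / ⟪γ, γ⟫) ≠ 0 :=
      div_ne_zero (mul_ne_zero two_ne_zero h) (inner_self_ne_zero.2 hγ.1.1.1)
    generalize 2 * ⟪γ, δ⟫ / ⟪γ, γ⟫ = m at h6 h7
    generalize c (δ - m • γ) = d at h6
    have h8 : (d - c δ) • δ = (m * (d - c γ)) • γ := by
      have h9 : (d - c δ) • δ - (m * (d - c γ)) • γ ∈ t :=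
        t.sub_mem (t.smul_mem _ hδt) (t.smul_mem _ hγt)
      have := h6 _ h9
      rw [inner_sub_left, inner_sub_left, real_inner_smul_left, real_inner_smul_left,
        h4 δ hδ h5 _ h9, h4 γ hγ.1.1 hγ.1.2 _ h9] at this
      rw [← sub_eq_zero, ← inner_self_eq_zero (𝕜 := ℝ), inner_sub_left, real_inner_smul_left,
        real_inner_smul_left]
      linarith
    by_cases e : d = c δ
    · rw [e, sub_self, zero_smul, eq_comm, smul_eq_zero, or_iff_left hγ.1.1.1, mul_eq_zero,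
        or_iff_right h7, sub_eq_zero] at h8
      exact h8
    · have h9 := congrArg (⟪·, A δ⟫) h8
      have h10 := congrArg (⟪·, δ⟫) h8
      simp only [real_inner_smul_left, h4 δ hδ h5 δ hδt, h4 γ hγ.1.1 hγ.1.2 δ hδt] at h9 h10
      refine mul_left_cancel₀ (mul_ne_zero (sub_ne_zero.2 e) (inner_self_ne_zero (𝕜 := ℝ).2 hδ.1)) ?_
      linear_combination h9 - c γ * h10
  refine ⟨c₀, ?_⟩
  rw [← sub_eq_zero, ← inner_self_eq_zero (𝕜 := ℝ)]
  refine tᗮ.sub_mem hν (tᗮ.smul_mem _ hβ) _ (C.mem_of_perp_roots H.mx fun α X Y h0 G => ?_)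
  by_cases e : I.p i X = 0
  · rw [← hi, ← H.pβ, ← map_smul, ← map_sub, I.p_symm, e, inner_zero_right]
  · rw [inner_sub_left, real_inner_smul_left, h3 α X Y h0 G,
      hc α ⟨h0, X, Y, fun h => e (by simp [h]), G⟩ (G.ideal (H.mx.p_mem I) e), sub_self]

end FVC

end Pool.Agent.Lib.MP_d52947_gt
end

-- part Pool.Agent.Lib.MP_d52947_gt.Erg1A
section

/-! Genus one: local structure of the space of commuting pairs at an arbitrary point. -/

namespace Pool.Agent.Lib.MP_d52947_gt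

open Filter Topology Module NormedSpace
open scoped RealInnerProductSpace

namespace E1

section
variable {L : Type} [NormedAddCommGroup L] [InnerProductSpace ℝ L] [FiniteDimensional ℝ L]
  {K : Type} [Group K] [TopologicalSpace K] [IsTopologicalGroup K] [CompactSpace K]
  [ConnectedSpace K] (C : Ctx L K)

theorem gen_el {s : Submodule ℝ L} (hs : C.IsAb s) :
    ∃ ξ ∈ s, ∀ v, C.ad ξ v = 0 → ∀ η ∈ s, C.ad η v = 0 := by
  obtain ⟨ξ, h1, h2⟩ := C.exists_reg' hs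
  refine ⟨ξ, h1, fun v hv η hη => C.WP_ind hs (W := LinearMap.ker (C.ad ξ).toLinearMap)
    (fun η hη y hy => ?_) (LinearMap.ker (C.ad η).toLinearMap) (fun α X Y _ h4 h5 => ?_) hv⟩
  · change C.ad ξ _ = 0
    rw [hs.comm h1 hη, show C.ad ξ y = 0 from hy, map_zero]
  · change C.ad η X = 0
    by_cases h3 : α = 0
    · rw [(h5.2 η hη).1, h3]; simp
    by_cases h : X = 0
    · rw [h, map_zero]
    exact absurd ((h5.2 ξ h1).2.symm.trans h4) (smul_ne_zero (h2 α ⟨h3, X, Y, h, h5⟩) h)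

theorem ev_Ad {P : L → Prop} (h : ∀ᶠ q in 𝓝 0, P q) : ∀ᶠ q in 𝓝 0, ∀ c, P (C.Ad c q) := by
  obtain ⟨δ, hδ, hb⟩ := Metric.mem_nhds_iff.1 h
  filter_upwards [Metric.ball_mem_nhds 0 hδ] with q hq c
  exact hb (by rwa [mem_ball_zero_iff, C.norm_Ad, ← mem_ball_zero_iff])

theorem ev_comm : ∀ᶠ q in 𝓝 0, ∀ k, Commute k (C.ex q) → C.Ad k q = q := by
  obtain ⟨U, hU, hi⟩ := C.ex_inj
  filter_upwards [hU, ev_Ad C hU] with q h1 h2 k hk
  exact hi (h2 k) h1 (by rw [← C.ex_conj, hk.eq, mul_inv_cancel_right])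

theorem comm_ex {k : K} {q : L} (h : C.Ad k q = q) : Commute k (C.ex q) := C.ex_comm (C.mem_Fix.2 h)

theorem ev_fix (k : K) : ∀ᶠ q in 𝓝 0, C.Ad k q = q → ∀ v, C.Ad (C.ex q * k) v = v →
    C.Ad k v = v ∧ C.ad q v = 0 := by
  obtain ⟨c, hc, h1⟩ := ((1 - C.Ad k).toLinearMap ∘ₗ (C.Fix k)ᗮ.subtype).exists_antilipschitzWith
    (LinearMap.ker_eq_bot'.2 fun v hv => Subtype.ext (inner_self_eq_zero.1 (v.2 _ hv)))
  have h2 : ∀ᶠ q in 𝓝 0, c * ‖C.Ad (C.ex q) - 1‖ < 1 :=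
    (show Continuous fun q => c * ‖C.Ad (C.ex q) - 1‖ from continuous_const.mul
      ((C.cont_Ad.comp C.cont_ex).sub continuous_const).norm).continuousAt.eventually_lt
      continuousAt_const (by simp [C.ex_zero])
  filter_upwards [h2, ev_comm C] with q a b hq v hv
  have h3 : C.Ad (C.ex q * k) (v - C.Ad k v) = v - C.Ad k v := by
    rw [map_sub, hv, ← C.Ad_mul_apply, ((comm_ex C hq).symm.mul_left (Commute.refl k)).eq,
      C.Ad_mul_apply, hv]
  have h4 := h1.le_mul_norm (by simp) ⟨_, C.pj_eq_zero_iff.1 (C.pj_sub_Ad k v)⟩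
  change ‖v - C.Ad k v‖ ≤ c * ‖v - C.Ad k v - C.Ad k (v - C.Ad k v)‖ at h4
  have h5 := (C.Ad (C.ex q) - 1).le_opNorm (C.Ad k (v - C.Ad k v))
  rw [ContinuousLinearMap.sub_apply, ← C.Ad_mul_apply, h3, C.norm_Ad,
    ContinuousLinearMap.one_apply] at h5
  have h6 : v - C.Ad k v = 0 := by_contra fun h => by
    have := norm_pos_iff.2 h
    have h7 := mul_le_mul_of_nonneg_left h5 c.2
    change (c : ℝ) * _ ≤ (c : ℝ) * _ at h7
    nlinarith
  have h7 := (sub_eq_zero.1 h6).symm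
  refine ⟨h7, ?_⟩
  rw [C.Ad_mul_apply, h7] at hv
  have h8 := C.hasDerivAt_Ad v q
  rw [show (fun t : ℝ => C.Ad (C.ex (t • v)) q) = fun _ => q from funext fun t =>
    b _ (comm_ex C (by rw [map_smul, hv])).symm] at h8
  rw [C.ad_swap, h8.unique (hasDerivAt_const _ _), neg_zero]

theorem exists_max (m : Submodule ℝ L) :
    ∃ s ≤ m, C.IsAb s ∧ ∀ x ∈ m, (∀ y ∈ s, C.ad y x = 0) → x ∈ s := by
  obtain ⟨t, -, h2⟩ := exists_maximal_ge_of_wellFoundedGT (fun s => s ≤ m ∧ C.IsAb s) ⊥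
    ⟨bot_le, by simp [Ctx.IsAb]⟩
  refine ⟨t, h2.1.1, h2.1.2, fun x h hx => ?_⟩
  refine h2.2 (y := t ⊔ Submodule.span ℝ {x})
    ⟨sup_le h2.1.1 ((Submodule.span_singleton_le_iff_mem _ _).2 h), ?_⟩ le_sup_left
    (Submodule.mem_sup_right (Submodule.mem_span_singleton_self x))
  intro a ha b hb
  obtain ⟨a, ha', _, h, rfl⟩ := Submodule.mem_sup.1 ha
  obtain ⟨c, rfl⟩ := Submodule.mem_span_singleton.1 h
  obtain ⟨b, hb', _, h, rfl⟩ := Submodule.mem_sup.1 hb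
  obtain ⟨d, rfl⟩ := Submodule.mem_span_singleton.1 h
  simp [h2.1.2 a ha' b hb', C.ad_self, hx b hb', C.ad_swap x b, hx a ha']

theorem hunt2 [T2Space K] (z : Gen 1 → K) {s : Submodule ℝ L} (h1 : s ≤ C.cs z) (h2 : C.IsAb s)
    (h3 : ∀ x ∈ C.cs z, (∀ y ∈ s, C.ad y x = 0) → x ∈ s) {w : Gen 1 → L} (hw : ∀ i, w i ∈ C.cs z)
    (hc : ∀ i j, C.ad (w i) (w j) = 0) : ∃ k, ∀ i, Commute k (z i) ∧ C.Ad k (w i) ∈ s := by
  obtain ⟨ξ, a1, a2⟩ := gen_el C h2
  obtain ⟨ξ', a3, a4⟩ := gen_el C (s := Submodule.span ℝ (Set.range w)) fun x hx y hy => by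
    refine Submodule.span_le (p := LinearMap.ker (C.ad.flip y).toLinearMap).2 ?_ hx
    rintro _ ⟨i, rfl⟩
    refine Submodule.span_le (p := LinearMap.ker (C.ad (w i)).toLinearMap).2 ?_ hy
    rintro _ ⟨j, rfl⟩
    exact hc i j
  have a5 : IsClosed {k | ∀ i, k * z i = z i * k} := by
    rw [Set.setOf_forall]
    exact isClosed_iInter fun i => isClosed_eq (by fun_prop) (by fun_prop)
  obtain ⟨k, hk', hk⟩ := a5.isCompact.exists_isMaxOn (f := fun k => ⟪C.Ad k ξ', ξ⟫) ⟨1, by simp⟩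
    ((C.cont_Ad.clm_apply continuous_const).inner continuous_const).continuousOn
  have a6 : ∀ x ∈ C.cs z, C.Ad k x ∈ C.cs z := fun x hx => C.mem_cs.2 fun i => by
    rw [← C.Ad_mul_apply, ← hk' i, C.Ad_mul_apply, C.mem_cs.1 hx]
  have a7 : ξ' ∈ C.cs z := Submodule.span_le.2 (by rintro _ ⟨i, rfl⟩; exact hw i) a3
  have a8 : C.ad ξ (C.Ad k ξ') ∈ C.cs z := C.mem_cs.2 fun i => by
    rw [C.Ad_ad, C.mem_cs.1 (h1 a1), C.mem_cs.1 (a6 _ a7)]
  have a9 : C.ad ξ (C.Ad k ξ') = 0 := by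
    set y := C.ad ξ (C.Ad k ξ')
    have b3 := ((C.hasDerivAt_Ad y (C.Ad k ξ')).inner ℝ (hasDerivAt_const 0 ξ))
    have b4 := IsLocalMax.hasDerivAt_eq_zero (Eventually.of_forall fun r => by
      simpa [C.ex_zero] using hk (a := C.ex (r • y) * k) fun i =>
        ((C.comm_cs (Submodule.smul_mem _ r a8) i).symm.mul_left (hk' i)).eq) b3
    rw [inner_zero_right, zero_add, C.ad_swap, inner_neg_left, C.inner_ad', neg_eq_zero] at b4
    exact inner_self_eq_zero.1 b4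
  refine ⟨k, fun i => ⟨hk' i, h3 _ (a6 _ (hw i)) fun η hη => ?_⟩⟩
  have b1 := a4 (C.Ad k⁻¹ η) (by
    have := congrArg (C.Ad k⁻¹) (a2 _ a9 η hη)
    rwa [C.Ad_ad, C.Ad_inv_Ad, map_zero, C.ad_swap, neg_eq_zero] at this) _
    (Submodule.subset_span ⟨i, rfl⟩)
  have := congrArg (C.Ad k) b1
  rwa [C.Ad_ad, C.Ad_Ad_inv, map_zero, C.ad_swap, neg_eq_zero] at this

/-- slice parametrization -/
def sl (k : K) (θ ζ : L) : K := C.ex θ * (C.ex ζ * k) * (C.ex θ)⁻¹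

theorem conj_sl {a k : K} (h : Commute a k) (θ ζ : L) :
    a * sl C k θ ζ * a⁻¹ = sl C k (C.Ad a θ) (C.Ad a ζ) := by
  simp only [sl, ← C.ex_conj, mul_inv_rev, inv_inv, mul_assoc, inv_mul_cancel_left]
  rw [← mul_assoc k a, ← h.eq, mul_assoc a k, inv_mul_cancel_left]

end

variable {L : Type} [NormedAddCommGroup L] [InnerProductSpace ℝ L] [FiniteDimensional ℝ L]
  {K : Type} [Group K] [TopologicalSpace K] [IsTopologicalGroup K] [CompactSpace K]
  [ConnectedSpace K] {A : Type} [NormedRing A] [NormedAlgebra ℝ A] [FiniteDimensional ℝ A]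
  [CompleteSpace A] [MeasurableSpace A] [BorelSpace A] (C : Amb L K A)

theorem loc_surj {X : Type} [NormedAddCommGroup X] [NormedSpace ℝ X] [FiniteDimensional ℝ X]
    {F : X → K} (hF : ContDiff ℝ 1 fun v => C.ι (F v)) {k : K} (h0 : F 0 = k)
    (h : ∀ y, ∃ v, HasDerivAt (fun t : ℝ => C.ι (F (t • v))) (C.j y * C.ι k) 0)
    {P : X → Prop} (hP : ∀ᶠ v in 𝓝 0, P v) : ∀ᶠ y in 𝓝 k, ∃ v, P v ∧ y = F v := by
  let κ : A → L := fun z => C.P (z * C.ι k⁻¹)
  have hκ : ContDiff ℝ 1 κ := C.P.contDiff.comp (by fun_prop)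
  have h1 := map_nhds_of_surj (hκ.comp hF) fun y => (h y).imp fun v hv =>
    (C.P.hasFDerivAt.comp_hasDerivAt _ (hv.mul_const _)).congr_deriv (by
      rw [mul_assoc, C.ι_mul_inv, mul_one, C.P_j])
  obtain ⟨c, U, h2, h3⟩ := exists_anti (C.P.contDiff.comp C.contDiff_ej) fun v hv => by
    simpa [C.P_j] using (C.P.hasFDerivAt.comp_hasDerivAt _ (C.deriv_ej v)).unique hv
  have h6 : Continuous F := C.ι_emb.isEmbedding.continuous_iff.2 hF.continuous
  have h8 : ∀ᶠ y in 𝓝 k, y * k⁻¹ ∈ C.ex '' U :=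
    (continuous_mul_right _).continuousAt.preimage_mem_nhds (by simpa using C.ex_nhds _ h2)
  have h9 := image_mem_map (m := κ ∘ fun v => C.ι (F v))
    ((h6.continuousAt.eventually (h0.symm ▸ h8)).and hP)
  rw [h1, Function.comp_apply, h0] at h9
  filter_upwards [h8, (hκ.continuous.comp C.cont_ι).continuousAt.preimage_mem_nhds h9]
  rintro y ⟨ξ, c1, c2⟩ ⟨q, ⟨⟨ξ', c3, c4⟩, b2⟩, c5⟩
  simp only [Function.comp, κ, ← map_mul, ← c2, ← c4, C.ι_ex] at c5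
  have c6 := h3 ξ c1 ξ' c3
  simp only [Function.comp, c5, dist_self, mul_zero, dist_le_zero] at c6
  exact ⟨q, b2, mul_right_cancel (c2.symm.trans (c6 ▸ c4))⟩

theorem ι_sl (k : K) (θ ζ : L) : C.ι (sl C.toCtx k θ ζ) =
    exp (C.j θ) * (exp (C.j ζ) * C.ι k) * exp (C.j (-θ)) := by
  simp only [sl, map_mul, ← C.ι_ex, C.ex_neg]

theorem cd_sl (k : K) :
    ContDiff ℝ 1 fun v : (C.Fix k)ᗮ × C.Fix k => C.ι (sl C.toCtx k v.1 v.2) := by
  simp only [ι_sl]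
  exact ((C.contDiff_ej.comp ((C.Fix k)ᗮ.subtypeL.contDiff.comp contDiff_fst)).mul
    ((C.contDiff_ej.comp ((C.Fix k).subtypeL.contDiff.comp contDiff_snd)).mul contDiff_const)).mul
    (C.contDiff_ej.comp ((C.Fix k)ᗮ.subtypeL.contDiff.comp contDiff_fst).neg)

theorem deriv_sl (k : K) (θ ζ : L) : HasDerivAt (fun t : ℝ => C.ι (sl C.toCtx k (t • θ) (t • ζ)))
    (C.j (θ - C.Ad k θ + ζ) * C.ι k) 0 := by
  have := ((C.deriv_ej θ).fun_mul ((C.deriv_ej ζ).mul_const (C.ι k))).fun_mul (C.deriv_ej (-θ))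
  simp only [smul_neg] at this
  simp only [ι_sl]
  refine this.congr_deriv ?_
  simp [C.j_Ad, add_mul, sub_mul, mul_assoc, C.ι_inv_mul, -map_inv]
  abel

theorem ev_pair {S T : Submodule ℝ L} {P : L → Prop} (hP : ∀ᶠ v in 𝓝 0, P v) :
    ∀ᶠ v : S × T in 𝓝 0, P v.1 ∧ P v.2 :=
  ((continuous_subtype_val.comp continuous_fst).continuousAt.eventually hP).and
    ((continuous_subtype_val.comp continuous_snd).continuousAt.eventually hP)

theorem slice_ex (k : K) {P : L → Prop} (hP : ∀ᶠ v in 𝓝 0, P v) :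
    ∀ᶠ y in 𝓝 k, ∃ θ ∈ (C.Fix k)ᗮ, ∃ ζ ∈ C.Fix k, P θ ∧ P ζ ∧ y = sl C.toCtx k θ ζ := by
  refine (loc_surj C (cd_sl C k) (by simp [sl, C.ex_zero]) (fun y => ?_) (ev_pair hP)).mono
    fun y ⟨v, a, b⟩ => ⟨_, v.1.2, _, v.2.2, a.1, a.2, b⟩
  obtain ⟨η, e⟩ := C.exists_sub_Ad (k := k) (y := y - C.pj k y) (by rw [map_sub, C.pj_pj, sub_self])
  refine ⟨(⟨η - C.pj k η, C.pj_eq_zero_iff.1 (by rw [map_sub, C.pj_pj, sub_self])⟩,
    ⟨_, C.pj_mem k y⟩), (deriv_sl C k _ _).congr_deriv ?_⟩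
  rw [map_sub (C.Ad k), C.mem_Fix.1 (C.pj_mem k η), sub_sub_sub_cancel_right, ← e, sub_add_cancel]

theorem slice_un (k : K) : ∃ U ∈ 𝓝 (0 : L), ∀ θ ∈ (C.Fix k)ᗮ, ∀ ζ ∈ C.Fix k, ∀ θ' ∈ (C.Fix k)ᗮ,
    ∀ ζ' ∈ C.Fix k, θ ∈ U → ζ ∈ U → θ' ∈ U → ζ' ∈ U → sl C.toCtx k θ ζ = sl C.toCtx k θ' ζ' →
      θ = θ' ∧ ζ = ζ' := by
  obtain ⟨c, U, h1, h2⟩ := exists_anti (cd_sl C k) fun v hv => by
    have h3 := C.eq_zero_of_j_mul ((deriv_sl C k v.1 v.2).unique hv)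
    have h4 := congrArg (C.pj k) h3
    rw [map_add, C.pj_sub_Ad, zero_add, map_zero, C.pj_of_mem v.2.2] at h4
    rw [h4, add_zero, sub_eq_zero] at h3
    exact Prod.ext (Subtype.ext (inner_self_eq_zero.1 (v.1.2 _ (C.mem_Fix.2 h3.symm))))
      (Subtype.ext h4)
  obtain ⟨δ, hδ, hb⟩ := Metric.mem_nhds_iff.1 h1
  refine ⟨_, Metric.ball_mem_nhds 0 hδ, fun θ a ζ b θ' a' ζ' b' c1 c2 c3 c4 e => ?_⟩
  rw [mem_ball_zero_iff] at c1 c2 c3 c4
  have := h2 (⟨θ', a'⟩, ⟨ζ', b'⟩) (hb (mem_ball_zero_iff.2 (max_lt c3 c4))) (⟨θ, a⟩, ⟨ζ, b⟩)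
    (hb (mem_ball_zero_iff.2 (max_lt c1 c2)))
  simpa [e] using this

theorem dec_ex (k : K) {P : L → Prop} (hP : ∀ᶠ v in 𝓝 0, P v) :
    ∀ᶠ y in 𝓝 1, ∃ θ ∈ (C.Fix k)ᗮ, ∃ ζ ∈ C.Fix k, P θ ∧ y = C.ex θ * C.ex ζ := by
  refine (loc_surj C (F := fun v : (C.Fix k)ᗮ × C.Fix k => C.ex v.1 * C.ex v.2) ?_
    (by simp [C.ex_zero]) (fun y => ?_) (ev_pair hP)).mono
    fun y ⟨v, a, b⟩ => ⟨_, v.1.2, _, v.2.2, a.1, b⟩
  · simp only [map_mul, C.ι_ex]
    exact (C.contDiff_ej.comp ((C.Fix k)ᗮ.subtypeL.contDiff.comp contDiff_fst)).mul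
      (C.contDiff_ej.comp ((C.Fix k).subtypeL.contDiff.comp contDiff_snd))
  refine ⟨(⟨y - C.pj k y, C.pj_eq_zero_iff.1 (by rw [map_sub, C.pj_pj, sub_self])⟩,
    ⟨_, C.pj_mem k y⟩), ?_⟩
  simp only [map_mul, C.ι_ex]
  refine ((C.deriv_ej _).fun_mul (C.deriv_ej _)).congr_deriv ?_
  simp

theorem slice_comm (k : K) : ∃ U ∈ 𝓝 (0 : L), ∀ᶠ u in 𝓝 1, ∀ ζ ∈ C.Fix k, ∀ ζ' ∈ C.Fix k,
    (∀ c, C.Ad c ζ ∈ U) → ζ' ∈ U → u * (C.ex ζ * k) * u⁻¹ = C.ex ζ' * k → Commute k u := by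
  obtain ⟨U, h1, h2⟩ := slice_un C k
  refine ⟨U, h1, (dec_ex C k h1).mono ?_⟩
  rintro _ ⟨θ, a, τ, b, c, rfl⟩ ζ d ζ' d' e e' h
  have h3 : Commute k (C.ex τ) := C.ex_comm b
  have h4 := (h2 θ a (C.Ad (C.ex τ) ζ) (C.mem_Fix.2 (by
    rw [← C.Ad_mul_apply, h3.eq, C.Ad_mul_apply, C.mem_Fix.1 d])) 0 (Submodule.zero_mem _) ζ' d' c (e _)
    (mem_of_mem_nhds h1) e' (by
      simp only [sl, C.ex_zero, ← h, ← C.ex_conj, mul_inv_rev, mul_assoc, one_mul, inv_one, mul_one]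
      rw [← mul_assoc k, h3.inv_right.eq, mul_assoc])).1
  rwa [h4, C.ex_zero, one_mul]

theorem slice_rel (k : K) {P : L → Prop} (hP : ∀ᶠ v in 𝓝 0, P v) :
    ∀ᶠ y in 𝓝 k, ∀ a, Commute a k → Commute a y → ∃ θ ζ, C.Ad a θ = θ ∧ C.Ad a ζ = ζ ∧
      C.Ad k ζ = ζ ∧ P ζ ∧ y = sl C.toCtx k θ ζ := by
  obtain ⟨U, h1, h2⟩ := slice_un C k
  refine (slice_ex C k (hP.and (Eventually.and h1 (ev_Ad C.toCtx h1)))).mono ?_
  rintro _ ⟨θ, b1, ζ, b2, b3, b4, rfl⟩ a h3 h4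
  have h5 := h2 (C.Ad a θ) (C.pj_eq_zero_iff.1 (by
      rw [C.pj_Ad_comm h3.eq, C.pj_eq_zero_iff.2 b1, map_zero])) (C.Ad a ζ) (C.mem_Fix.2 (by
    rw [← C.Ad_mul_apply, ← h3.eq, C.Ad_mul_apply, C.mem_Fix.1 b2])) θ b1 ζ b2 (b3.2.2 a) (b4.2.2 a)
    b3.2.1 b4.2.1 (by rw [← conj_sl _ h3, h4.eq, mul_inv_cancel_right])
  exact ⟨θ, ζ, h5.1, h5.2, C.mem_Fix.1 b2, b4.1, rfl⟩

theorem near_pair {z : Gen 1 → K} (hz : Ctx.val z (relator 1) = 1) :
    ∀ᶠ y in 𝓝 z, Ctx.val y (relator 1) = 1 → ∃ c w, (∀ i, w i ∈ C.cs z) ∧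
      (∀ i j, C.ad (w i) (w j) = 0) ∧ y = Ctx.cj c (C.mv z w) := by
  set a := z (0, false) with ha
  set b := z (0, true) with hb
  have hab : Commute a b := Ctx.comm_one hz _ _
  obtain ⟨U, h1, h2⟩ := slice_comm C a
  have h3 := (slice_rel C b (ev_fix C.toCtx b)).and
    ((continuous_mul_right b⁻¹).continuousAt.eventually (by simpa using h2))
  have h7 : Tendsto (fun w : L × K => (C.ex w.1)⁻¹ * w.2 * C.ex w.1) (𝓝 0 ×ˢ 𝓝 b) (𝓝 b) := by
    rw [← nhds_prod_eq]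
    exact Continuous.tendsto' (((C.cont_ex.comp continuous_fst).inv.mul continuous_snd).mul
      (C.cont_ex.comp continuous_fst)) _ _ (by simp [C.ex_zero])
  obtain ⟨P, h4, Q, h5, h6⟩ := eventually_prod_iff.1 (h7.eventually h3)
  filter_upwards [(continuous_apply (0, false)).continuousAt.eventually (slice_ex C a
    (h4.and (ev_Ad C.toCtx ((ev_comm C.toCtx).and h1)))),
    (continuous_apply (0, true)).continuousAt.eventually h5]
  rintro y ⟨θ, -, p, b1, b2, b3, b4⟩ b5 hy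
  obtain ⟨b6, b7⟩ := h6 b2.1 b5
  set b' := (C.ex θ)⁻¹ * y (0, true) * C.ex θ with hb'
  clear_value b'
  have c1 : Commute b' (C.ex p * a) := by
    have := (Ctx.comm_one hy (0, true) (0, false)).conj (C.ex θ)⁻¹
    simpa only [b4, sl, inv_inv, mul_assoc, inv_mul_cancel_left, inv_mul_cancel, mul_one, hb']
      using this
  have c2 : Commute a b' := by
    have := b7 (C.Ad b p) (C.mem_Fix.2 (by
      rw [← C.Ad_mul_apply, hab.eq, C.Ad_mul_apply, C.mem_Fix.1 b1])) p b1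
      (fun c => by rw [← C.Ad_mul_apply]; exact (b3.2 _).2) (C.Ad_one_apply p ▸ (b3.2 1).2) (by
        rw [← C.ex_conj, ← mul_inv_eq_iff_eq_mul.2 c1.eq]
        simp only [mul_assoc, inv_mul_cancel_left, mul_inv_rev, inv_inv]
        rw [← mul_assoc a b, hab.eq, mul_assoc b a, inv_mul_cancel_left])
    simpa using this.mul_right hab
  obtain ⟨θ', q, d1, d2, d3, d4, d5⟩ := b6 a hab c2
  have c3 : Commute a (C.ex θ') := comm_ex _ d1
  have c4 : C.ex p * a = C.ex θ' * (C.ex (C.Ad (C.ex θ')⁻¹ p) * a) * (C.ex θ')⁻¹ := by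
    rw [← C.ex_conj]
    simp only [mul_assoc, inv_inv, mul_inv_cancel_left]
    rw [← mul_assoc (C.ex θ'), ← c3.eq, mul_inv_cancel_right]
  set p' := C.Ad (C.ex θ')⁻¹ p with hp'
  have c5 : C.Ad a p' = p' := by
    rw [hp', ← C.Ad_mul_apply, c3.inv_right.eq, C.Ad_mul_apply, C.mem_Fix.1 b1]
  have c6 : Commute (C.ex q * b) (C.ex p' * a) := by
    rw [c4, d5, sl] at c1
    simpa only [inv_inv, mul_assoc, inv_mul_cancel_left, inv_mul_cancel, mul_one] using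
      c1.conj (C.ex θ')⁻¹
  have c7 := d4 d3 p' ((b3.2 _).1 _ (by
    simpa using c6.mul_right ((comm_ex _ d2).mul_right hab).symm.inv_right))
  refine ⟨C.ex θ * C.ex θ', fun i => bif i.2 then q else p', gen_one (C.mem_cs.2 (gen_one c5 c7.1))
    (C.mem_cs.2 (gen_one d2 d3)), gen_one (gen_one (C.ad_self _) ?_) (gen_one c7.2 (C.ad_self _)),
    funext (gen_one ?_ ?_)⟩
  · rw [C.ad_swap]; exact neg_eq_zero.2 c7.2
  · rw [b4, sl, c4]
    simp [Ctx.cj, Ctx.mv, mul_assoc, ha]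
  · rw [show y (0, true) = C.ex θ * b' * (C.ex θ)⁻¹ by simp [hb', mul_assoc], d5, sl]
    simp [Ctx.cj, Ctx.mv, mul_assoc, hb]

theorem loc_cl {z : Gen 1 → K} (hz : Ctx.val z (relator 1) = 1) :
    ∃ᶠ x in 𝓝 z, C.Sm x ∧ ∀ᶠ y in 𝓝 z, Ctx.val y (relator 1) = 1 →
      ∃ c w, (∀ i, w i ∈ C.cs x) ∧ y = Ctx.cj c (C.mv x w) := by
  have := C.ι_emb.isEmbedding.t2Space
  obtain ⟨s, h1, h2, h3⟩ := exists_max C.toCtx (C.cs z)
  obtain ⟨ξ, h4, h5⟩ := gen_el C.toCtx h2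
  have h6 : Tendsto (fun t : ℝ => C.mv z fun _ => t • ξ) (𝓝[≠] 0) (𝓝 z) :=
    tendsto_nhdsWithin_of_tendsto_nhds (Continuous.tendsto' (continuous_pi fun i =>
      (C.cont_ex.comp (by fun_prop)).mul continuous_const) _ _ (funext fun i => by
        simp [C.ex_zero]))
  refine h6.frequently (Eventually.frequently ?_)
  have h7 : Tendsto (fun t : ℝ => t • ξ) (𝓝[≠] 0) (𝓝 0) :=
    tendsto_nhdsWithin_of_tendsto_nhds (Continuous.tendsto' (by fun_prop) _ _ (by simp))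
  filter_upwards [self_mem_nhdsWithin,
    h7.eventually (eventually_all.2 fun i => ev_fix C.toCtx (z i))] with t a b
  have c1 := s.smul_mem t h4
  have c2 : C.cs (C.mv z fun _ => t • ξ) = s := by
    refine le_antisymm (fun v hv => ?_) fun v hv => C.mem_cs.2 fun i => ?_
    · have := fun i => b i (C.mem_cs.1 (h1 c1) i) v (C.mem_cs.1 hv i)
      refine h3 v (C.mem_cs.2 fun i => (this i).1) (h5 v ?_)
      simpa [show t ≠ 0 from a] using (this (0, true)).2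
    · rw [Ctx.mv, C.Ad_mul_apply, C.mem_cs.1 (h1 hv), C.Ad_ex_fix (h2 _ c1 _ hv)]
  refine ⟨⟨Ctx.val_one.2 ?_, by rw [show C.cen _ _ = _ from c2]; exact h2, fun h => by omega⟩,
    (near_pair C hz).mono fun y hy h => ?_⟩
  · exact (((Commute.refl _).mul_right (C.comm_cs (h1 c1) _).symm).mul_left
      ((C.comm_cs (h1 c1) _).mul_right (Ctx.comm_one hz _ _))).eq
  obtain ⟨c, w, d1, d2, rfl⟩ := hy h
  obtain ⟨k, hk⟩ := hunt2 C.toCtx z h1 h2 h3 d1 d2
  refine ⟨c * k⁻¹, fun i => C.Ad k (w i) - t • ξ, fun i => c2 ▸ s.sub_mem (hk i).2 c1,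
    funext fun i => ?_⟩
  simp only [Ctx.cj, Ctx.mv]
  rw [← mul_assoc (C.ex (_ - _)), ← C.ex_add _ _ (h2 _ (s.sub_mem (hk i).2 c1) _ c1), sub_add_cancel,
    ← C.ex_conj]
  simp only [mul_assoc, inv_mul_cancel_left, mul_inv_rev, inv_inv]
  rw [← mul_assoc (z i) k, ← (hk i).1.eq, mul_assoc, inv_mul_cancel_left]

end E1

end Pool.Agent.Lib.MP_d52947_gt
end

-- part Pool.Agent.Lib.MP_d52947_gt.Erg1
section

/-! Ergodicity in genus one. -/

namespace Pool.Agent.Lib.MP_d52947_gt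

open Filter Topology MeasureTheory Module
open scoped RealInnerProductSpace

namespace E1

variable {L : Type} [NormedAddCommGroup L] [InnerProductSpace ℝ L] [FiniteDimensional ℝ L]
  {K : Type} [Group K] [TopologicalSpace K] [IsTopologicalGroup K] [CompactSpace K]
  [ConnectedSpace K] {A : Type} [NormedRing A] [NormedAlgebra ℝ A] [FiniteDimensional ℝ A]
  [CompleteSpace A] [MeasurableSpace A] [BorelSpace A] (C : Amb L K A)
  [MeasurableSpace L] [BorelSpace L] {f : (Gen 1 → A) → ℝ}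

/-- almost everywhere constant along the torus family -/
def Cst (f : (Gen 1 → A) → ℝ) (x : Gen 1 → K) (c : ℝ) : Prop :=
  ∀ᵐ p ∂(Measure.addHaar.prod Measure.addHaar), f (C.emb (C.mv x (sv (C.cs x) p))) = c

theorem meas_mv (hf : Measurable f) (x : Gen 1 → K) :
    Measurable fun p => f (C.emb (C.mv x (sv (C.cs x) p))) := hf.comp (Continuous.measurable (by
  have := (C.contDiff_Th x).continuous.comp
    ((continuous_const (y := 0)).prodMk (sv (C.cs x)).continuous)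
  simp only [Function.comp_def, C.Th_eq, C.ex_zero] at this
  exact this.congr fun p => congrArg _ (funext fun i => by simp [Ctx.cj])))

theorem exists_cst (hf : Measurable f)
    (hK : ∀ x, C.Sm x → ∀ c, f (C.emb (Ctx.cj c x)) = f (C.emb x))
    (hi : ∀ φ : AutR 1, C.AeS fun x => f (C.emb (Ctx.act φ.1.toMonoidHom x)) = f (C.emb x))
    {x : Gen 1 → K} (hx : C.Sm x) : ∃ c, Cst C f x c := by
  set μ : Measure (C.cs x) := Measure.addHaar
  have : (μ.prod μ).IsAddHaarMeasure := Measure.prod.instIsAddHaarMeasure _ _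
  let G : (Gen 1 → K) → (Gen 1 → L) [⋀^Fin 0]→ₗ[ℝ] ℝ := fun y =>
    AlternatingMap.constOfIsEmpty ℝ _ _ (f (C.emb y))
  let β : C.cs x × C.cs x → (Gen 1 → C.cs x) [⋀^Fin 0]→ₗ[ℝ] ℝ := fun p =>
    (G (C.mv x (sv _ p))).compLinearMap ((C.cs x).subtype.compLeft _)
  have hm : ∀ v, Measurable (β · v) := fun v => meas_mv C hf x
  have h1 : ∀ φ, ∀ᵐ p ∂μ.prod μ, C.Inv G φ (C.mv x (sv _ p)) := fun φ =>
    (C.ae_down (hi φ) (fun y c hy H => by
      have h2 : C.Sm (Ctx.act φ.1.toMonoidHom y) :=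
        ⟨(Ctx.val_act_rel φ y).trans hy.1, by rw [Ctx.cen_act]; exact hy.2.1, fun h => by omega⟩
      rwa [hK y hy, show Ctx.act φ.1.toMonoidHom (Ctx.cj c y) = Ctx.cj c (Ctx.act φ.1.toMonoidHom y)
        from funext fun i => Ctx.val_conj c y _, hK _ h2] at H) hx (μ.prod μ)).mono fun p hp _ => hp
  have hs := fun {P : _ → Prop} (h : ∀ᵐ p ∂μ.prod μ, P p) =>
    (Measure.measurePreserving_swap (μ := μ) (ν := μ)).quasiMeasurePreserving.ae h
  obtain ⟨-, h3⟩ := Ctx.twist hx μ (by simp) gen_one tau_a tau_b (sv _) (fun _ => rfl) (fun _ => rfl)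
    β (fun _ => rfl) hm fun m => h1 _
  obtain ⟨-, h5⟩ := Ctx.twist hx μ (by simp) (fun a b => gen_one b a) tauB_b tauB_a
    (fun p => sv _ p.swap) (fun _ => rfl) (fun _ => rfl) (fun p => β p.swap) (fun _ => rfl)
    (fun v => (hm v).comp measurable_swap) fun m => hs (h1 _)
  exact ae_const (μ.prod μ) (hm 0) fun d => by
    filter_upwards [ae_shift _ (h3 d.2) (d.1, 0), hs (h5 d.1)] with p a b
    simp only [Prod.fst_add, Prod.snd_add, add_zero, Prod.swap_prod_mk, Prod.fst_swap,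
      Prod.snd_swap, Prod.swap_swap] at a b
    have : β (p + d) = β p := a.trans (by rw [← b]; congr 1; ext <;> simp)
    exact DFunLike.congr_fun this 0

theorem cst_eq (hf : Measurable f)
    (hK : ∀ x, C.Sm x → ∀ c, f (C.emb (Ctx.cj c x)) = f (C.emb x)) {x y : Gen 1 → K} (hx : C.Sm x)
    (hy : C.Sm y) {k : K} {w : Gen 1 → L} (hw : ∀ i, w i ∈ C.cs x) (e : y = Ctx.cj k (C.mv x w))
    {c c' : ℝ} (h : Cst C f x c) (h' : Cst C f y c') : c = c' := by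
  have h1 : C.Sm (C.mv x w) := by simpa only [e, Ctx.cj_cj] using hy.cj k⁻¹
  have h2 : C.cs (C.mv x w) = C.cs x := by
    refine le_antisymm ?_ (hx.le_cs hw)
    have := h1.le_cs (w := -w) fun i => hx.le_cs hw (Submodule.neg_mem _ (hw i))
    rwa [hx.mv_mv hw (w' := -w) fun i => Submodule.neg_mem _ (hw i), neg_add_cancel,
      show C.mv x 0 = x from funext fun i => by simp [Ctx.mv, C.ex_zero]] at this
  have h3 : C.cs y = (C.cs x).map (C.Ad k).toLinearMap := by rw [e, C.cs_cj, h2]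
  let r : C.cs x →ₗ[ℝ] C.cs y := (C.Ad k).toLinearMap.restrict fun ξ h => h3.ge ⟨ξ, h, rfl⟩
  have h4 : Function.Surjective r := fun ξ => by
    obtain ⟨η, a, b⟩ := h3.le ξ.2
    exact ⟨⟨η, a⟩, Subtype.ext b⟩
  set μ : Measure (C.cs x) := Measure.addHaar
  set ν : Measure (C.cs y) := Measure.addHaar
  have : (μ.prod μ).IsAddHaarMeasure := Measure.prod.instIsAddHaarMeasure _ _
  have : (ν.prod ν).IsAddHaarMeasure := Measure.prod.instIsAddHaarMeasure _ _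
  have h5 := (ae_comp_linearMap_mem_iff (r.prodMap r) (μ.prod μ) (ν.prod ν) (h4.prodMap h4)
    (measurableSet_eq_fun (meas_mv C hf y) measurable_const)).2 h'
  let z : C.cs x × C.cs x := (⟨_, hw (0, false)⟩, ⟨_, hw (0, true)⟩)
  obtain ⟨p, b1, b2, b3⟩ := (h5.and (ae_shift _ (h.and (Ctx.ae_cs hx (μ.prod μ))) z)).exists
  rw [← b2, ← hK _ b3.2 k, ← show _ = c' from b1]
  have b4 : ∀ (u : C.cs x) i, k * (C.ex (u + w i) * x i) * k⁻¹ = C.ex (C.Ad k u) * y i := fun u i => by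
    rw [C.ex_add _ _ (hx.2.1 _ u.2 _ (hw i)), ← C.ex_conj, e]
    simp [Ctx.cj, Ctx.mv, mul_assoc]
  exact congrArg (fun t => f (C.emb t)) (funext (gen_one (b4 p.1 _) (b4 p.2 _)))

end E1

namespace Amb

variable {L : Type} [NormedAddCommGroup L] [InnerProductSpace ℝ L] [FiniteDimensional ℝ L]
  {K : Type} [Group K] [TopologicalSpace K] [IsTopologicalGroup K] [CompactSpace K]
  [ConnectedSpace K] {A : Type} [NormedRing A] [NormedAlgebra ℝ A] [FiniteDimensional ℝ A]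
  [CompleteSpace A] [MeasurableSpace A] [BorelSpace A] (C : Amb L K A) {g : ℕ}

variable [MeasurableSpace L] [BorelSpace L]

theorem erg_one (f : (Gen 1 → A) → ℝ) (hf : Measurable f)
    (hK : ∀ x, C.Sm x → ∀ c, f (C.emb (Ctx.cjg c x)) = f (C.emb x))
    (hi : ∀ φ : AutR 1, C.AeS fun x => f (C.emb (Ctx.act φ.1.toMonoidHom x)) = f (C.emb x))
    (y : Gen 1 → K) : ∃ c, C.AeS fun x =>
      x ∈ connectedComponentIn (Ctx.Rep0 1 K) y → f (C.emb x) = c := by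
  have h0 : ∀ x, C.mv x 0 = x := fun x => funext fun i => by simp [Ctx.mv, C.ex_zero]
  have h0' : ∀ x : Gen 1 → K, Ctx.cj 1 x = x := fun x => funext fun i => by simp [Ctx.cj]
  have hc := fun {x} => E1.exists_cst C hf hK hi (x := x)
  have he := fun {x y} => E1.cst_eq C hf hK (x := x) (y := y)
  let Gd : (Gen 1 → K) → ℝ → Prop := fun z c => ∀ᶠ x in 𝓝 z, C.Sm x → E1.Cst C f x c
  have h1 : ∀ z ∈ Ctx.Rep0 1 K, ∃ c, Gd z c := fun z hz => by
    obtain ⟨x, a, b⟩ := (E1.loc_cl C hz).exists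
    obtain ⟨c, d⟩ := hc a
    refine ⟨c, b.mono fun u hu hs => ?_⟩
    obtain ⟨k, w, e1, e2⟩ := hu hs.1
    obtain ⟨c', d'⟩ := hc hs
    rwa [he a hs e1 e2 d d']
  have h2 : ∀ z ∈ Ctx.Rep0 1 K, ∀ c c', Gd z c → Gd z c' → c = c' := fun z hz c c' a b => by
    obtain ⟨x, ⟨d, -⟩, e1, e2⟩ := ((E1.loc_cl C hz).and_eventually (a.and b)).exists
    exact he d d (w := 0) (fun _ => Submodule.zero_mem _) (by rw [h0, h0']) (e1 d) (e2 d)
  have h3 : ∀ c, C.AeS fun x => E1.Cst C f x c → f (C.emb x) = c := fun c => by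
    refine C.ae_up (fun x hx => ?_) fun x k hx H H' => ?_
    · obtain ⟨c', d⟩ := hc hx
      have : ((Measure.addHaar (G := C.cs x)).prod (Measure.addHaar (G := C.cs x))).IsAddHaarMeasure :=
        Measure.prod.instIsAddHaarMeasure _ _
      filter_upwards [d, Ctx.ae_cs hx (Measure.addHaar.prod Measure.addHaar)] with p a b H
      exact a.trans (he hx b.2 (sv_mem p) (h0' _).symm d H)
    · obtain ⟨c', d⟩ := hc hx
      rw [he hx (hx.cj k) (w := 0) (fun _ => Submodule.zero_mem _) (by rw [h0]) d H'] at d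
      exact (hK x hx k).trans (H d)
  by_cases hy : y ∈ Ctx.Rep0 1 K
  swap
  · exact ⟨0, fun d => Nul.mono (S' := ∅) (by simp [Nul]) fun x hx => by
      simp [connectedComponentIn_eq_empty hy] at hx⟩
  obtain ⟨c, h4⟩ := h1 y hy
  refine ⟨c, fun d => (h3 c d).mono fun x hx => ⟨hx.1, hx.2.1, fun H => hx.2.2 fun hm => H ?_⟩⟩
  refine (isPreconnected_connectedComponentIn.induction₂' (fun z z' => ∀ c, Gd z c → Gd z' c)
    (fun z hz => ?_) (fun _ _ _ _ _ _ a b c d => b c (a c d)) (mem_connectedComponentIn hy) hm c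
    h4).self_of_nhds hx.1
  have h5 := connectedComponentIn_subset _ _ hz
  obtain ⟨c₀, h6⟩ := h1 z h5
  filter_upwards [self_mem_nhdsWithin, mem_nhdsWithin_of_mem_nhds h6.eventually_nhds] with z' a b
  exact ⟨fun c d => h2 z h5 _ _ h6 d ▸ b,
    fun c d => h2 z' (connectedComponentIn_subset _ _ a) _ _ b d ▸ h6⟩

end Amb

end Pool.Agent.Lib.MP_d52947_gt
end
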