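import Pool.Agent.Lib.MP_d52947_gt.FV2
import Pool.Agent.Lib.MP_d52947_gt.Rel
import Pool.Agent.Lib.MP_d52947_gt.Erg1
import Pool.Agent.Lib.MP_d52947_gt.Conn

-- part Pool.Agent.Lib.MP_d52947_gt.R1
section

/-! Regularity of curves along families. -/

namespace Pool.Agent.Lib.MP_d52947_gt

open Filter Topology Module MeasureTheory
open scoped RealInnerProductSpace

theorem comm_shift {K : Type} [Group K] {e a b : K} (ha : Commute a e) (hb : Commute b e) :
    e * a * (e * b) * (e * a)⁻¹ * (e * b)⁻¹ = a * b * a⁻¹ * b⁻¹ := by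
  have := (((ha.mul_left hb).mul_left ha.inv_left).mul_left hb.inv_left).mul_right
    (((ha.mul_left hb).mul_left ha.inv_left).mul_left hb.inv_left)
  calc _ = e * (a * e) * b * a⁻¹ * (b * e)⁻¹ * e⁻¹ := by group
    _ = (e * e) * (a * b * a⁻¹ * b⁻¹) * (e * e)⁻¹ := by rw [ha.eq, hb.eq]; group
    _ = _ := by rw [← this.eq]; group

namespace Ctx

variable {L : Type} [NormedAddCommGroup L] [InnerProductSpace ℝ L] [FiniteDimensional ℝ L]
  {K : Type} [Group K] [TopologicalSpace K] [IsTopologicalGroup K] [CompactSpace K]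
  [ConnectedSpace K] (C : Ctx L K) {g : ℕ}

/-- the derived algebra -/
def der (m : Submodule ℝ L) : Submodule ℝ L :=
  Submodule.span ℝ {η | ∃ y ∈ m, ∃ z ∈ m, C.ad y z = η}

theorem ad_der {m : Submodule ℝ L} {y z : L} (hy : y ∈ m) (hz : z ∈ m) : C.ad y z ∈ C.der m :=
  Submodule.subset_span ⟨y, hy, z, hz, rfl⟩

theorem perp_der {m : Submodule ℝ L} {d : L} (h : ∀ y ∈ m, ∀ z ∈ m, ⟪C.ad y z, d⟫ = 0) :
    d ∈ (C.der m)ᗮ := by
  rw [← Submodule.span_singleton_le_iff_mem, ← Submodule.isOrtho_iff_le, Submodule.isOrtho_comm,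
    der, Submodule.isOrtho_span]
  rintro _ ⟨y, a, z, b, rfl⟩ _ rfl
  exact h y a z b

theorem alg0 {m n : Submodule ℝ L} (hm : ∀ y ∈ m, ∀ z ∈ m, C.ad y z ∈ m) (hnm : n ≤ m)
    (hn : ∀ y ∈ n, ∀ z ∈ n, C.ad y z ∈ n) {k : K} {f : L →ₗ[ℝ] ℝ}
    (h : ∀ η ∈ C.der m, f η = 0 → ∃ ζ ∈ n, C.Ad k ζ - ζ = η) {y : L} (hy : y ∈ m) :
    ∃ ζ ∈ n, ∀ z ∈ m, C.ad y z = C.ad ζ z := by
  set s := C.der m
  have hs : s ≤ m := Submodule.span_le.2 (by rintro _ ⟨y, a, z, b, rfl⟩; exact hm y a z b)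
  have hc : ∀ c ∈ m ⊓ sᗮ, ∀ z ∈ m, C.ad c z = 0 := fun c a z b => by
    rw [← inner_self_eq_zero (𝕜 := ℝ), C.ad_swap c z, inner_neg_neg, C.inner_ad, real_inner_comm,
      a.2 _ (C.ad_der b (hm z b c a.1)), neg_zero]
  let N : Submodule ℝ L := n ⊓ s.comap (C.Ad k - 1 : L →L[ℝ] L).toLinearMap
  let T := (C.Ad k - 1 : L →L[ℝ] L).toLinearMap.domRestrict N
  let P := s.starProjection.toLinearMap.domRestrict N
  have h1 : LinearMap.ker P ≤ LinearMap.ker T := fun ζ a => by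
    have b : (ζ : L) ∈ sᗮ := (Submodule.starProjection_apply_eq_zero_iff _).1 a
    have c : ⟪T ζ, ζ⟫ = 0 := b _ ζ.2.2
    have d : C.Ad k ζ = T ζ + ζ := by simp [T]
    have e := C.inner_Ad k ζ ζ
    rw [d, real_inner_add_add_self, c] at e
    exact (inner_self_eq_zero (𝕜 := ℝ)).1 (by linarith)
  have h2 : finrank ℝ s ≤ finrank ℝ (LinearMap.range P) + 1 := by
    have a := T.finrank_range_add_finrank_ker
    have b := P.finrank_range_add_finrank_ker
    have c := Submodule.finrank_mono h1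
    have d := (f.domRestrict s).finrank_range_add_finrank_ker
    have e : finrank ℝ (LinearMap.range (f.domRestrict s)) ≤ 1 :=
      (Submodule.finrank_le _).trans (by simp)
    have e' : (LinearMap.ker (f.domRestrict s)).map s.subtype ≤ LinearMap.range T := by
      rintro _ ⟨η, a, rfl⟩
      obtain ⟨ζ, b, c⟩ := h η η.2 a
      exact ⟨⟨ζ, b, show C.Ad k ζ - ζ ∈ s from c ▸ η.2⟩, c⟩
    have e'' := Submodule.finrank_mono e'
    rw [Submodule.finrank_map_subtype_eq] at e''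
    omega
  let E := n ⊔ m ⊓ sᗮ
  have hE : E ≤ m := sup_le hnm inf_le_left
  have h3 : Eᗮ ⊓ m ≤ (LinearMap.range P)ᗮ ⊓ s := fun d ⟨a, b⟩ => by
    have c : d ∈ s := by
      have e := s.sub_starProjection_mem_orthogonal d
      have e' := a _ (Submodule.mem_sup_right ⟨m.sub_mem b (hs (s.starProjection_apply_mem d)), e⟩)
      have : d - s.starProjection d = 0 := by
        rw [← inner_self_eq_zero (𝕜 := ℝ), inner_sub_right, e', real_inner_comm,
          e _ (s.starProjection_apply_mem d), sub_zero]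
      exact sub_eq_zero.1 this ▸ s.starProjection_apply_mem d
    refine ⟨?_, c⟩
    rintro _ ⟨ζ, rfl⟩
    change ⟪s.starProjection ζ, d⟫ = 0
    rw [Submodule.inner_starProjection_left_eq_right, Submodule.starProjection_eq_self_iff.2 c]
    exact a _ (Submodule.mem_sup_left ζ.2.1)
  have h4 : finrank ℝ (Eᗮ ⊓ m : Submodule ℝ L) ≤ 1 := by
    have a := Submodule.finrank_add_inf_finrank_orthogonal (K₁ := LinearMap.range P) (K₂ := s)
      (by rintro _ ⟨ζ, rfl⟩; exact s.starProjection_apply_mem _)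
    have b := Submodule.finrank_mono h3
    omega
  obtain ⟨v, hv⟩ := finrank_le_one_iff.1 h4
  have h5 : ∀ d ∈ Eᗮ ⊓ m, ∀ d' ∈ Eᗮ ⊓ m, ∃ c c' : ℝ, d = c • (v : L) ∧ d' = c' • (v : L) :=
    fun d a d' b => by
      obtain ⟨c, e⟩ := hv ⟨d, a⟩
      obtain ⟨c', e'⟩ := hv ⟨d', b⟩
      exact ⟨c, c', (congrArg Subtype.val e).symm, (congrArg Subtype.val e').symm⟩
  have h6 : ∀ d ∈ Eᗮ ⊓ m, ∀ e ∈ E, C.ad e d = 0 := fun d a e b0 => by
    obtain ⟨ζ, b, c, b', rfl⟩ := Submodule.mem_sup.1 b0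
    rw [map_add, ContinuousLinearMap.add_apply, hc c b' d a.2, add_zero]
    obtain ⟨r, r', e, e'⟩ := h5 d a (C.ad ζ d) ⟨fun e b0 => by
      obtain ⟨ζ', b', c, b'', rfl⟩ := Submodule.mem_sup.1 b0
      rw [real_inner_comm, C.inner_ad, map_add, C.ad_swap ζ c, hc c b'' ζ (hnm b), neg_zero,
        add_zero, real_inner_comm, a.1 _ (Submodule.mem_sup_left (hn _ b _ b')), neg_zero],
      hm _ (hnm b) _ a.2⟩
    have := C.inner_ad ζ d d
    rw [real_inner_comm (C.ad ζ d), e', e, real_inner_smul_left, real_inner_smul_right] at this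
    rcases eq_or_ne r 0 with rfl | hr
    · simp [e]
    · rw [e', ← inner_self_eq_zero (𝕜 := ℝ), real_inner_smul_left, real_inner_smul_right]
      have : r * (r' * ⟪(v : L), (v : L)⟫) = 0 := by linarith
      rw [(mul_eq_zero.1 this).resolve_left hr, mul_zero]
  have h7 : ∀ y ∈ m, y - E.starProjection y ∈ Eᗮ ⊓ m := fun y a =>
    ⟨E.sub_starProjection_mem_orthogonal y, m.sub_mem a (hE (E.starProjection_apply_mem y))⟩
  have h8 : ∀ d ∈ Eᗮ ⊓ m, d = 0 := fun d a => by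
    refine (inner_self_eq_zero (𝕜 := ℝ)).1 (a.1 d (Submodule.mem_sup_right ⟨a.2, ?_⟩))
    refine C.perp_der fun y b z _ => ?_
    obtain ⟨r, r', e, e'⟩ := h5 d a _ (h7 y b)
    rw [C.inner_ad, sub_eq_iff_eq_add.1 e', map_add, ContinuousLinearMap.add_apply,
      h6 d a _ (E.starProjection_apply_mem y), e]
    simp [C.ad_self]
  obtain ⟨ζ, a, c, b, e⟩ := Submodule.mem_sup.1 (E.starProjection_apply_mem y)
  refine ⟨ζ, a, fun z hz => ?_⟩
  rw [sub_eq_zero.1 (h8 _ (h7 y hy)), ← e, map_add, ContinuousLinearMap.add_apply, hc c b z hz,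
    add_zero]

/-- almost all twists by the derived algebra of `Fix a₀` are coboundaries -/
def Deg (x : Gen (g + 1) → K) : Prop := ∃ f : L →ₗ[ℝ] ℝ, ∀ η ∈ C.der (C.Fix (x (0, false))),
  f η = 0 → ∀ u ∈ C.Z1 x, ⟪η, u (0, false)⟫ = 0

theorem Fix_ad {k : K} {y z : L} (hy : y ∈ C.Fix k) (hz : z ∈ C.Fix k) : C.ad y z ∈ C.Fix k := by
  rw [mem_Fix] at *; rw [C.Ad_ad, hy, hz]

theorem Deg.alg {C : Ctx L K} {x : Gen (g + 1) → K} (h : C.Deg x) {y : L}
    (hy : y ∈ C.Fix (x (0, false))) : ∃ ζ, (∀ p ≠ (0, true), C.Ad (x p) ζ = ζ) ∧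
      ∀ z ∈ C.Fix (x (0, false)), C.ad y z = C.ad ζ z := by
  obtain ⟨f, h⟩ := h
  let n : Submodule ℝ L := ⨅ p ∈ {p : Gen (g + 1) | p ≠ (0, true)}, C.Fix (x p)
  have hn : ∀ ζ, ζ ∈ n ↔ ∀ p ≠ (0, true), C.Ad (x p) ζ = ζ := fun ζ => by simp [n, mem_Fix]
  obtain ⟨ζ, a, b⟩ := C.alg0 (n := n) (fun _ a _ b => C.Fix_ad a b)
    (fun ζ a => C.mem_Fix.2 ((hn ζ).1 a _ (by simp)))
    (fun y a z b => (hn _).2 fun p c => by rw [C.Ad_ad, (hn _).1 a p c, (hn _).1 b p c])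
    (k := (x (0, true))⁻¹) (f := f) (fun η a b => by
      have c : η ∈ C.Fix (x (0, false)) :=
        Submodule.span_le.2 (by rintro _ ⟨y, a, z, b, rfl⟩; exact C.Fix_ad a b) a
      obtain ⟨ζ, e⟩ := C.eq_del (w := C.twv x η) fun u hu => by
        rw [C.om_twv x c, h η a b u hu, neg_zero]
      refine ⟨ζ, (hn ζ).2 fun p hp => ?_, ?_⟩
      · have := congrFun e p
        rw [del_apply, show C.twv x η p = 0 from Pi.single_eq_of_ne hp _] at this
        exact (sub_eq_zero.1 this).symm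
      · have := congrArg (C.Ad (x (0, true))⁻¹) (congrFun e (0, true))
        simpa [del_apply, twv_b, ← Ad_mul_apply] using this) hy
  exact ⟨ζ, (hn ζ).1 a, b⟩

theorem Deg.ab {C : Ctx L K} {x : Gen (g + 2) → K} (h : C.Deg x)
    (h' : C.Deg (act rot.1.toMonoidHom x)) (hc : ∀ ζ ∈ C.cen x (List.finRange _),
      ∀ y ∈ C.Fix (x (0, false)), C.ad ζ y = 0) : C.IsAb (C.Fix (x (0, false))) := by
  intro y hy z hz
  obtain ⟨ζ, a, b⟩ := h.alg hy
  obtain ⟨ζ', a', b'⟩ := h.alg hz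
  have e : C.ad y z = C.ad ζ ζ' := by
    rw [b z hz, C.ad_swap, b' ζ (C.mem_Fix.2 (a _ (by simp))), ← C.ad_swap]
  set c := val x (hcomm 0)
  have hr : ∀ i s, act rot.1.toMonoidHom x (i, s) = c * x (i + 1, s) * c⁻¹ := fun i s => by
    simp [act, rot_of, c]
  have m1 : ∀ ζ, (∀ p ≠ (0, true), C.Ad (x p) ζ = ζ) →
      C.Ad c ζ ∈ C.Fix (act rot.1.toMonoidHom x (0, false)) := fun ζ a => by
    rw [hr, Ad_mem_Fix_conj, mem_Fix]; exact a _ (by simp)
  obtain ⟨θ, d, e1⟩ := h'.alg (m1 ζ a)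
  obtain ⟨θ', d', e2⟩ := h'.alg (m1 ζ' a')
  have e3 : C.Ad c (C.ad ζ ζ') = C.ad θ θ' := by
    rw [C.Ad_ad, e1 _ (m1 ζ' a'), C.ad_swap, e2 θ (C.mem_Fix.2 (d _ (by simp))), ← C.ad_swap]
  have e4 : C.ad y z ∈ C.cen x (List.finRange _) := fun i _ s => by
    rw [e]
    by_cases hp : (i, s) = (0, true)
    · have hl : (Fin.last (g + 1), true) ≠ (0, true) := by simp
      have : C.ad θ θ' ∈ C.Fix (act rot.1.toMonoidHom x (Fin.last _, true)) :=
        C.Fix_ad (C.mem_Fix.2 (d _ hl)) (C.mem_Fix.2 (d' _ hl))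
      rw [hp, ← mem_Fix]
      rwa [← e3, hr, Ad_mem_Fix_conj, Fin.last_add_one] at this
    · rw [C.Ad_ad, a _ hp, a' _ hp]
  rw [← inner_self_eq_zero (𝕜 := ℝ), C.inner_ad, C.ad_swap y, hc _ e4 y hy]
  simp

end Ctx

namespace Amb

variable {L : Type} [NormedAddCommGroup L] [InnerProductSpace ℝ L] [FiniteDimensional ℝ L]
  {K : Type} [Group K] [TopologicalSpace K] [IsTopologicalGroup K] [CompactSpace K]
  [ConnectedSpace K] {A : Type} [NormedRing A] [NormedAlgebra ℝ A] [FiniteDimensional ℝ A]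
  [CompleteSpace A] {C : Amb L K A} {g : ℕ}
  {V : Type} [NormedAddCommGroup V] [NormedSpace ℝ V] [FiniteDimensional ℝ V]

theorem reg_of_ab {k : K} (h : C.IsAb (C.Fix k)) : C.Reg k := by
  borelize A
  obtain ⟨ξ, a, rfl⟩ := C.mem_ex_Fix k
  obtain ⟨t, b, ht⟩ := C.exists_maxAb_ge h
  rw [Ctx.reg_iff, ← C.finrank_maxAb ht]
  exact Submodule.finrank_mono b

theorem Sec.fix {G : Type} [Fintype G] {S : Set (G → K)} {x u xs c} (h : C.Sec S x u xs c) {i : G}
    (hd : ∀ y ∈ S, finrank ℝ (C.Fix (x i)) ≤ finrank ℝ (C.Fix (y i))) :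
    u i ∈ (C.der (C.Fix (x i)))ᗮ := by
  refine C.perp_der fun ζ hζ ζ' hζ' => ?_
  obtain ⟨z, hz, hz'⟩ := ker_cont (A := 1 - C.Ad (x i)) (B := fun n => 1 - C.Ad (xs n i))
    (tendsto_const_nhds.sub ((C.cont_Ad.tendsto _).comp ((continuous_apply i).tendsto _ |>.comp
      h.lim))) (fun n => hd _ (h.mem n)) (ζ := ζ) hζ
  have h1 := (tendsto_const_nhds (x := ζ')).inner (𝕜 := ℝ) (h.Ad i hz)
  rw [C.mem_Fix.1 hζ, real_inner_comm, C.ad_swap, inner_neg_left, C.inner_ad, neg_neg,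
    real_inner_comm] at h1
  refine tendsto_nhds_unique h1 (tendsto_const_nhds.congr' (hz'.mono fun n hn => ?_))
  have h2 : C.Ad (xs n i) (z n) = z n := C.mem_Fix.1 hn
  have h3 : C.Ad (x i)⁻¹ ζ' = ζ' := C.mem_Fix.1 (by rwa [C.Fix_inv])
  simp only [h2, real_inner_smul_right, inner_sub_right, C.inner_Ad_right, h3, sub_self, mul_zero]

theorem AnX.fix {G : Type} [Fintype G] {X : V → G → K} {w : V} (h : C.AnX X w) {i : G}
    (hd : ∀ᶠ v in 𝓝 w, finrank ℝ (C.Fix (X w i)) ≤ finrank ℝ (C.Fix (X v i))) (e : V) :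
    C.tan X w e i ∈ (C.der (C.Fix (X w i)))ᗮ := by
  obtain ⟨_, _, -, H, -⟩ := h.sec e hd
  exact H.fix (by rintro _ ⟨v, a, rfl⟩; exact a)

theorem Hyp.deg {X : V → Gen (g + 2) → K} {O : Set V} (h : C.Hyp X O) {w : V} (hw : w ∈ O)
    (hd : ∀ v ∈ O, finrank ℝ (C.Fix (X w (0, false))) ≤ finrank ℝ (C.Fix (X v (0, false)))) :
    C.Deg (X w) := by
  obtain ⟨v, h1, h2, -⟩ := h.dual w hw
  obtain ⟨u₀, h3⟩ := not_forall.1 (mt C.mem_B1_of_omZ h1)
  refine ⟨innerₗ L (u₀.1 (0, false)), fun η a b u hu => ?_⟩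
  obtain ⟨e, he⟩ := (h2 (u - (C.om (X w) v u / C.omZ (X w) v u₀) • u₀.1)).2
    ⟨sub_mem hu (Submodule.smul_mem _ _ u₀.2), by
      rw [map_sub, map_smul, smul_eq_mul, ← C.omZ_apply _ v u₀, div_mul_cancel₀ _ h3, sub_self]⟩
  have := (h.an w hw).fix (i := (0, false)) (mem_of_superset (h.isOpen.mem_nhds hw) hd) e η a
  rwa [he, Pi.sub_apply, Pi.smul_apply, inner_sub_right, real_inner_smul_right,
    real_inner_comm (u₀.1 _), show ⟪u₀.1 (0, false), η⟫ = 0 from b, mul_zero, sub_zero] at this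

theorem Hyp.reg [MeasurableSpace V] [BorelSpace V] (μ : Measure V) [μ.IsAddHaarMeasure]
    {X : V → Gen (g + 2) → K} {O : Set V} (h : C.Hyp X O) :
    ∀ᵐ w ∂μ, w ∈ O → ∀ φ : AutR (g + 2), C.Reg (Ctx.val (X w) (φ.1 (ga 0))) := by
  have h1 : ∀ {X : V → Gen (g + 2) → K}, C.Hyp X O → ∀ᵐ w ∂μ, w ∈ O → C.Deg (X w) := fun h => by
    filter_upwards [ae_min μ h.isOpen h.conn h.an
      (fun x => (1 - C.Ad (x (0, false)) : L →L[ℝ] L).toLinearMap)
      fun v => (Ctx.An.const v).sub ((C.an_Ad _).app (Ctx.An.const v))] with w a b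
    exact h.deg b (a b)
  have h2 : ∀ φ : AutR (g + 2), ∀ᵐ w ∂μ, w ∈ O → C.Reg (Ctx.val (X w) (φ.1 (ga 0))) := fun φ => by
    filter_upwards [h1 (h.act φ), h1 ((h.act φ).act rot)] with w a b c
    exact reg_of_ab ((a c).ab (b c) fun ζ d y _ => by
      rw [C.mem_Z.1 (((h.act φ).irr w c).2 d)]; rfl)
  filter_upwards [ae_all_iff.2 h2] with w a b φ using a φ b

theorem loc_deg {x : Gen (g + 1) → K} (hx : x ∈ Ctx.Rep0 (g + 1) K)
    (hd : ∀ᶠ y in 𝓝 x, y ∈ Ctx.Rep0 (g + 1) K →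
      finrank ℝ (C.Fix (x (0, false))) ≤ finrank ℝ (C.Fix (y (0, false)))) :
    C.Deg x ∧ ∀ ζ ∈ C.cen x (List.finRange _), ∀ y ∈ C.Fix (x (0, false)), C.ad ζ y = 0 := by
  have h1 : ∀ ζ ∈ C.cen x (List.finRange _), ∀ y ∈ C.Fix (x (0, false)), C.ad ζ y = 0 := by
    intro ζ a y b
    have hζ : ∀ p, ζ ∈ C.Fix (x p) := fun p => C.mem_Fix.2 (a p.1 (List.mem_finRange _) p.2)
    let l : ℝ →L[ℝ] (Gen (g + 1) → L) := ContinuousLinearMap.toSpanSingleton ℝ fun _ => ζ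
    have an : C.AnX (fun r => C.mvg x (l r)) 0 := (C.anX_mvg x _).comp (l.analyticAt 0) rfl
    have e0 : C.mvg x (l 0) = x := by rw [map_zero, mvg_zero]
    have := an.fix (i := (0, false)) (by
      filter_upwards [(e0 ▸ an.cont.tendsto : Tendsto _ _ (𝓝 x)).eventually hd] with r hr
      rw [e0]
      refine hr (Eq.trans ?_ hx)
      simp only [relator, map_list_prod, List.map_ofFn]
      congr 2
      funext i
      have := fun p => C.ex_comm ((C.Fix (x p)).smul_mem r (hζ p))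
      simp only [Function.comp, hcomm, map_mul, map_inv, FreeGroup.lift_apply_of, mvg, l,
        ContinuousLinearMap.toSpanSingleton_apply, Pi.smul_apply]
      exact comm_shift (this _) (this _)) 1
    rw [(C.anX_mvg x _).tan_comp l.differentiableAt, l.fderiv, map_zero, tan_mvg, mvg_zero] at this
    have c := this _ (C.ad_der b (C.Fix_ad (hζ _) b))
    simp only [l, ContinuousLinearMap.toSpanSingleton_apply, one_smul] at c
    rw [C.inner_ad, C.ad_swap y, inner_neg_right, neg_neg] at c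
    exact (inner_self_eq_zero (𝕜 := ℝ)).1 c
  let H : Submodule ℝ L := ⨅ ζ ∈ C.cen x (List.finRange _), LinearMap.ker (C.ad ζ).toLinearMap
  have hH : ∀ y, y ∈ H ↔ ∀ ζ ∈ C.cen x (List.finRange _), C.ad ζ y = 0 := fun y => by simp [H]
  have hm : C.Fix (x (0, false)) ≤ H := fun y a => (hH y).2 fun ζ b => h1 ζ b y a
  obtain ⟨T, X, ρ, a, e0, -, b, -, c, -⟩ := C.chart hx rfl hH fun ζ a =>
    hm (C.mem_Fix.2 (a _ (List.mem_finRange _) _))
  refine ⟨⟨0, fun η d _ u hu => ?_⟩, h1⟩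
  obtain ⟨e, he⟩ := (b fun i => H.starProjection (u i)).2 ⟨by
    rw [Ctx.mem_Z1, C.cv_proj le_rfl hH, C.mem_Z1.1 hu, map_zero],
    fun i => H.starProjection_apply_mem _⟩
  have := a.fix (i := (0, false)) (by
    filter_upwards [(e0 ▸ a.cont.tendsto : Tendsto _ _ (𝓝 x)).eventually hd, c] with v d e
    rw [e0]
    exact d e.1) e η (by rw [e0]; exact d)
  rwa [he, ← Submodule.inner_starProjection_left_eq_right, Submodule.starProjection_eq_self_iff.2
    (hm (Submodule.span_le.2 (by rintro _ ⟨y, a, z, b, rfl⟩; exact C.Fix_ad a b) d))] at this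

theorem dense (C : Amb L K A) : Ctx.Rep0 (g + 2) K ⊆
    closure {x | x ∈ Ctx.Rep0 (g + 2) K ∧ C.Reg (x (0, false))} := by
  intro x₀ hx₀
  rw [mem_closure_iff]
  intro U hU hx
  let T : AutR (g + 2) → (Gen (g + 2) → K) → Gen (g + 2) → K := fun φ => Ctx.act φ.1.toMonoidHom
  have hT : ∀ φ, Continuous (T φ) := fun φ => continuous_pi fun i => cont_val _
  let F : (Gen (g + 2) → K) → ℕ := fun x => finrank ℝ (C.Fix (x (0, false)))
  have hF : ∀ x, ∀ᶠ y in 𝓝 x, F y ≤ F x := fun x => (isOpen_ker_le (f := fun y : Gen (g + 2) → K =>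
    1 - C.Ad (y (0, false))) (continuous_const.sub (C.cont_Ad.comp (continuous_apply _))) _).mem_nhds
      (le_refl (F x))
  obtain ⟨x, ⟨a, b⟩, c⟩ := (measure fun x => F x + F (T rot x)).wf.has_min
    (U ∩ Ctx.Rep0 (g + 2) K) ⟨x₀, hx, hx₀⟩
  have d : ∀ᶠ y in 𝓝 x, y ∈ Ctx.Rep0 (g + 2) K → F x ≤ F y ∧ F (T rot x) ≤ F (T rot y) := by
    filter_upwards [hU.mem_nhds a, hF x, ((hT rot).tendsto x).eventually (hF _)] with y h1 h2 h3 h4
    have : ¬ F y + F (T rot y) < F x + F (T rot x) := c y ⟨h1, h4⟩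
    omega
  have e := loc_deg (C := C) b (d.mono fun y h h' => (h h').1)
  refine ⟨x, a, b, reg_of_ab (e.1.ab (loc_deg ((Ctx.val_act_rel _ _).trans b) ?_).1 e.2)⟩
  have := ((hT rot⁻¹).tendsto (T rot x))
  rw [show T rot⁻¹ (T rot x) = x from Ctx.act_act _ _] at this
  filter_upwards [this.eventually d] with y h1 h2
  have := (h1 ((Ctx.val_act_rel _ _).trans h2)).2
  rwa [show T rot (T rot⁻¹ y) = y from Ctx.act_act rot⁻¹ y] at this

end Amb

end Pool.Agent.Lib.MP_d52947_gt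
end

-- part Pool.Agent.Lib.MP_d52947_gt.R2
section

/-! All handles are irreducible along an invariant hypersurface. -/

namespace Pool.Agent.Lib.MP_d52947_gt

open Filter Topology Module MeasureTheory
open scoped RealInnerProductSpace

theorem psi'_one {g : ℕ} (s : Bool) : (psi' (g := g + 1)).1 (.of (1, s)) = .of (1, s) :=
  aut1_of ..

namespace Ctx

variable {L : Type} [NormedAddCommGroup L] [InnerProductSpace ℝ L] [FiniteDimensional ℝ L]
  {K : Type} [Group K] [TopologicalSpace K] [IsTopologicalGroup K] [CompactSpace K]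
  [ConnectedSpace K] (C : Ctx L K) {g : ℕ}

theorem exists_delta (x : Gen (g + 2) → K) {θ : L}
    (hθ : θ ∈ C.Fix (val x ((chi * psi' : AutR (g + 2)).1 (ga 0)))) : ∃ u : C.Z1 x,
      u.1 (1, false) = C.Ad (x (1, false)) θ - θ ∧ u.1 (1, true) = C.Ad (x (1, true)) θ ∧
      ∀ v : C.Z1 x, C.dI x ((chi * psi' : AutR (g + 2)).1 (ga 0)) v = 0 → C.om x v u = 0 := by
  obtain ⟨u, hu⟩ := (C.pbZ (chi * psi') x).surjective (C.twZ _ θ)
  have h := congrArg Subtype.val hu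
  rw [pbZ_coe, twZ_coe, C.pj_of_mem (by exact hθ)] at h
  have e2 : C.cv x ((chi * psi' : AutR (g + 2)).1 (gb 0)) u =
    C.Ad (val x ((chi * psi' : AutR (g + 2)).1 (gb 0))) θ := 
      (congrFun h (0, true)).trans (C.twv_b _ _)
  have e3 : C.cv x ((chi * psi' : AutR (g + 2)).1 (ga 1)) u = 0 :=
    (congrFun h (1, false)).trans (C.twv_a _ _ _)
  have e4 : C.cv x ((chi * psi' : AutR (g + 2)).1 (gb 1)) u = 0 :=
    (congrFun h (1, true)).trans (C.twv_succ _ _ 0 _)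
  rw [AutR.mul_apply, psi'_one] at e3 e4
  rw [chi_c] at e3
  rw [chi_d, cv_mul] at e4
  have e5 : C.cv x (ga 1) u = C.cv x gam u - C.Ad (x (1, false)) (C.cv x gam u) := by
    have := C.cv_conj x u gam (gam⁻¹ * ga 1 * gam)
    rw [e3, show gam * (gam⁻¹ * ga 1 * gam) * gam⁻¹ = ga 1 by group] at this
    simpa using this
  have e6 : C.cv x gam u = -θ := by
    have : (gam : FG (g + 2)) = ga 1 * ((chi * psi' : AutR (g + 2)).1 (gb 0))⁻¹ := by
      simp only [AutR.mul_apply, psi'_b, map_mul, map_inv, chi_a, chi_b, gam]; group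
    have := congrArg (C.cv x · u) this
    simp only [cv_mul, cv_inv, e2, e5, ← Ad_mul_apply, inv_mul_cancel, map_one,
      ContinuousLinearMap.one_apply, FreeGroup.lift_apply_of] at this
    have := congrArg (C.Ad (x (1, false))⁻¹) (show C.Ad (x (1, false)) (C.cv x gam u) =
      C.Ad (x (1, false)) (-θ) by linear_combination (norm := module) this)
    simpa [← Ad_mul_apply] using this
  refine ⟨u, ?_, ?_, fun v hv => ?_⟩
  · simpa [e6, neg_add_eq_sub] using e5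
  · simpa [e6, ← sub_eq_add_neg, sub_eq_zero] using e4
  · rw [← omZ_apply, ← C.omZ_pbZ (chi * psi'), hu, omZ_skew, omZ_twZ, dI_pbZ, hv]; simp

theorem cen_le_Fix {x : Gen (g + 2) → K} {v : C.Z1 x}
    (h : ∀ u ∈ C.Z1 x, C.om x v u = 0 → C.Cond x [1] u)
    (h1 : C.Reg (val x ((chi * psi' : AutR (g + 2)).1 (ga 0))))
    (h2 : C.dI x ((chi * psi' : AutR (g + 2)).1 (ga 0)) v = 0) (h3 : C.Reg (x (1, false))) :
    C.cen x [1] ≤ C.Fix (x (0, true)) := by
  intro ζ hζ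
  have ha := hζ 1 (by simp) false
  have hb : C.Ad (x (1, true))⁻¹ ζ = ζ :=
    C.mem_Fix.1 (by rw [C.Fix_inv]; exact C.mem_Fix.2 (hζ 1 (by simp) true))
  have h4 : ∀ θ, C.pj (x (1, false))⁻¹ (C.ad θ ζ) = 0 := fun θ => by
    rw [pj_inv, pj_eq_zero_iff]
    intro y hy
    rw [real_inner_comm, C.ad_swap, inner_neg_left, C.inner_ad, (Reg.maxAb C h3).ab _ (C.mem_Fix.2 ha) _ hy]
    simp
  have := (Reg.maxAb C h1 ζ).2 fun θ hθ => by
    obtain ⟨u, a, b, c⟩ := C.exists_delta x hθ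
    obtain ⟨y, e⟩ := C.exists_sub_Ad (k := (x (1, false))⁻¹)
      (y := -(C.ad θ ζ - C.Ad (x (1, true))⁻¹ (C.ad θ ζ))) (by
        rw [map_neg, map_sub, C.Ad_ad, hb, h4, h4, sub_self, neg_zero])
    have := h u u.2 (c v h2) ζ hζ 1 (by simp) y (C.ad θ ζ) (by rw [← e, neg_add_cancel])
    have e1 : C.ad (C.Ad (x (1, false)) θ) ζ = C.Ad (x (1, false)) (C.ad θ ζ) := by
      rw [C.Ad_ad, ha]
    have e2 : C.ad (C.Ad (x (1, true)) θ) ζ = C.Ad (x (1, true)) (C.ad θ ζ) := by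
      rw [C.Ad_ad, hζ 1 (by simp) true]
    rw [a, b, map_sub, ContinuousLinearMap.sub_apply, e1, e2, inner_sub_right, inner_Ad_right,
      inner_Ad_right] at this
    have e3 := congrArg (⟪·, C.ad θ ζ⟫) e
    simp only [inner_neg_left, inner_sub_left] at e3
    rw [C.ad_swap, neg_eq_zero]
    exact (inner_self_eq_zero (𝕜 := ℝ)).1 (by linarith)
  rw [AutR.mul_apply, psi'_a, map_inv, chi_b, map_inv, Fix_inv, mem_Fix] at this
  have := congrArg (C.Ad (x (1, false))) this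
  rw [← Ad_mul_apply, ha, map_mul (val x), map_inv, FreeGroup.lift_apply_of,
    mul_inv_cancel_left, FreeGroup.lift_apply_of] at this
  exact C.mem_Fix.2 this

theorem all_act {P : K → Prop} {x : Gen (g + 1) → K} (h : ∀ ψ : AutR (g + 1), P (val x (ψ.1 (ga 0))))
    (φ ψ : AutR (g + 1)) : P (val (act φ.1.toMonoidHom x) (ψ.1 (ga 0))) := by
  rw [val_act]; exact h (φ * ψ)

theorem ker_two (x : Gen g → K) (j : Fin g) : LinearMap.ker ((1 - C.Ad (x (j, false))) +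
    (1 - C.Ad (x (j, true))) : L →L[ℝ] L).toLinearMap = C.cen x [j] := by
  ext v
  simp only [LinearMap.mem_ker, mem_cen, List.mem_singleton, forall_eq, Bool.forall_bool]
  refine ⟨fun h => ?_, fun h => by simp [h.1, h.2]⟩
  have h1 := congrArg (⟪v, ·⟫) h
  have h2 : ∀ k, ⟪C.Ad k v - v, C.Ad k v - v⟫ = 2 * ⟪v, v - C.Ad k v⟫ := fun k => by
    rw [real_inner_sub_sub_self, C.inner_Ad, inner_sub_right, real_inner_comm v (C.Ad k v)]; ring
  have a := real_inner_self_nonneg (x := C.Ad (x (j, false)) v - v)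
  have b := real_inner_self_nonneg (x := C.Ad (x (j, true)) v - v)
  simp only [ContinuousLinearMap.coe_coe, ContinuousLinearMap.add_apply, inner_add_right,
    ContinuousLinearMap.sub_apply, ContinuousLinearMap.one_apply, inner_zero_right] at h1
  constructor <;> rw [← sub_eq_zero, ← inner_self_eq_zero (𝕜 := ℝ)] <;> rw [h2] at * <;> linarith

end Ctx

namespace Amb

variable {L : Type} [NormedAddCommGroup L] [InnerProductSpace ℝ L] [FiniteDimensional ℝ L]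
  {K : Type} [Group K] [TopologicalSpace K] [IsTopologicalGroup K] [CompactSpace K]
  [ConnectedSpace K] {A : Type} [NormedRing A] [NormedAlgebra ℝ A] [FiniteDimensional ℝ A]
  [CompleteSpace A] {C : Amb L K A} {g : ℕ}
  {V : Type} [NormedAddCommGroup V] [NormedSpace ℝ V] [FiniteDimensional ℝ V]

theorem Hyp.handles [MeasurableSpace V] [BorelSpace V] (μ : Measure V) [μ.IsAddHaarMeasure]
    {X : V → Gen (g + 2) → K} {O : Set V} (h : C.Hyp X O)
    (hr : ∀ᵐ w ∂μ, w ∈ O → ∀ φ : AutR (g + 2), C.Reg (Ctx.val (X w) (φ.1 (ga 0)))) :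
    ∀ᵐ w ∂μ, w ∈ O → ∀ j, C.cen (X w) [j] ≤ C.Z := by
  have h1 : ∀ {X : V → Gen (g + 2) → K}, C.Hyp X O → ∀ᵐ w ∂μ, w ∈ O →
      (∀ φ : AutR (g + 2), C.Reg (Ctx.val (X w) (φ.1 (ga 0)))) →
        C.cen (X w) [1] ≤ C.Fix (X w (0, true)) := fun {X} h => by
    filter_upwards [ae_min μ h.isOpen h.conn h.an (fun x => ((1 - C.Ad (x (1, false))) +
      (1 - C.Ad (x (1, true))) : L →L[ℝ] L).toLinearMap) fun v =>
      ((Ctx.An.const v).sub ((C.an_Ad _).app (Ctx.An.const v))).add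
        ((Ctx.An.const v).sub ((C.an_Ad _).app (Ctx.An.const v)))] with w a b c
    · obtain ⟨v, -, h2, h3⟩ := h.dual w b
      refine C.cen_le_Fix (v := v) (fun u d e => ?_) (c _) (h3 _ (c _)) ?_
      · obtain ⟨e', rfl⟩ := (h2 u).2 ⟨d, e⟩
        borelize A
        obtain ⟨_, _, -, H, -⟩ := (h.an w b).sec e' (h.isOpen.mem_nhds b)
        refine H.cond ?_
        rintro _ ⟨w', d, rfl⟩
        rw [← Ctx.ker_two, ← Ctx.ker_two]
        exact a b w' d
      · have := (c rot).conj (Ctx.val (X w) (hcomm 0))⁻¹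
        simpa [rot_of, mul_assoc] using this
  have h2 : ∀ φ : AutR (g + 2), ∀ᵐ w ∂μ, w ∈ O → C.cen (Ctx.act φ.1.toMonoidHom (X w)) [1] ≤
      C.cen (Ctx.act φ.1.toMonoidHom (X w)) [0] := fun φ => by
    filter_upwards [h1 (h.act φ), h1 ((h.act φ).act psi'), hr] with w a b c d ζ e
    have a' := C.mem_Fix.1 (a d (Ctx.all_act (c d) φ) e)
    have b' := C.mem_Fix.1 (b d (Ctx.all_act (Ctx.all_act (c d) φ) psi') (x := ζ) fun i hi s => by
        rw [List.mem_singleton.1 hi, Ctx.act, MulEquiv.coe_toMonoidHom, psi'_one,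
          FreeGroup.lift_apply_of]
        exact e 1 (by simp) s)
    generalize Ctx.act φ.1.toMonoidHom (X w) = y at *
    intro i hi s
    rw [List.mem_singleton.1 hi]
    cases s
    · rw [← C.mem_Fix, ← C.Ad_mem_Fix_conj (c := y (0, true)), a', C.mem_Fix]
      simpa [Ctx.act, psi'_b] using b'
    · exact a'
  filter_upwards [ae_all_iff.2 h2] with w a b
  have h3 : ∀ i, C.cen (X w) [i + 1] ≤ C.cen (X w) [i] := fun i ζ c => by
    obtain ⟨φ, k, e⟩ := exists_rot i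
    have h4 : ∀ j ζ, C.Ad (Ctx.val (X w) k) ζ ∈ C.cen (Ctx.act φ.1.toMonoidHom (X w)) [j] ↔
        ζ ∈ C.cen (X w) [j + i] := fun j ζ => by
      simp only [Ctx.mem_cen, Ctx.act, MulEquiv.coe_toMonoidHom, e, ← C.mem_Fix,
        map_mul (Ctx.val (X w)), map_inv, C.Ad_mem_Fix_conj, List.mem_singleton, forall_eq, FreeGroup.lift_apply_of]
    simpa using (h4 0 ζ).1 (a φ b ((h4 1 ζ).2 (add_comm i 1 ▸ c)))
  have h5 : ∀ j, C.cen (X w) [j] ≤ C.cen (X w) [0] := fun j => by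
    induction j using Fin.induction with
    | zero => rfl
    | succ j ih => exact Fin.coeSucc_eq_succ ▸ (h3 _).trans ih
  have h6 : ∀ j, C.cen (X w) [Fin.last _] ≤ C.cen (X w) [j] := fun j => by
    induction j using Fin.reverseInduction with
    | last => rfl
    | cast j ih => exact ih.trans (Fin.coeSucc_eq_succ ▸ h3 _)
  intro j ζ c
  refine (h.irr w b).2 fun i _ => h6 i ?_ i (by simp)
  exact h3 _ (by rw [Fin.last_add_one]; exact h5 j c)

end Amb

end Pool.Agent.Lib.MP_d52947_gt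
end

-- part Pool.Agent.Lib.MP_d52947_gt.Fam
section

/-! Saturated families: existence, and the cases of one and three generators. -/

namespace Pool.Agent.Lib.MP_d52947_gt

open Filter Topology Module MeasureTheory
open scoped RealInnerProductSpace

namespace Ctx

variable {L : Type} [NormedAddCommGroup L] [InnerProductSpace ℝ L] [FiniteDimensional ℝ L]
  {K : Type} [Group K] [TopologicalSpace K] [IsTopologicalGroup K] [CompactSpace K]
  [ConnectedSpace K] (C : Ctx L K) {g : ℕ}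

/-- the velocity of the class of `e` vanishes, if `e` is regular -/
def Prp (x : Gen g → K) (w : Gen g → L) (e : FG g) : Prop :=
  C.Reg (val x e) → C.cv x e w ∈ (C.Fix (val x e))ᗮ

variable {C}

theorem Prp.inv {x : Gen g → K} {w : Gen g → L} {e : FG g} (h : C.Prp x w e⁻¹) : C.Prp x w e :=
  fun H => by
    have := C.pj_eq_zero_iff.2 (h (by rwa [Reg, map_inv, Fix_inv]))
    rwa [cv_inv, map_inv, map_neg, pj_Ad, pj_inv, neg_eq_zero, pj_eq_zero_iff] at this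

theorem Prp.conj {x : Gen g → K} {w : Gen g → L} {e e' : FG g} (h : C.Prp x w e') (k : FG g)
    (he : e' = k * e * k⁻¹) : C.Prp x w e := fun H => by
  subst he
  have := C.pj_eq_zero_iff.2 (h (by simpa using H.conj (val x k)))
  rw [cv_conj, add_sub_right_comm, map_add, pj_sub_Ad, zero_add, map_mul, map_mul, map_inv,
    pj_conj] at this
  exact C.pj_eq_zero_iff.1 (by simpa using congrArg (C.Ad (val x k)⁻¹) this)

theorem coef_eq {x : Gen g → K} {w : Gen g → L} {p : Gen g} {z : L}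
    (h : ∀ y, C.om x w (Pi.single p y) = ⟪z, y⟫) : C.coef x w p = z :=
  ext_inner_right ℝ fun y => by
    rw [← h, om_coef, Finset.sum_eq_single p (fun q _ hq => by simp [Pi.single_eq_of_ne hq])
      (by simp), Pi.single_eq_same]

/-- the values on the first handle are determined by the coefficients -/
theorem handle0 {x : Gen (g + 1) → K} {w : Gen (g + 1) → L} {ν₀ ν₁ : L}
    (h0 : C.coef x w (0, false) = ν₀) (h1 : C.coef x w (0, true) = ν₁) :
    w (0, false) = ν₀ + C.Ad (x (0, false)) (C.Ad (x (0, true))⁻¹ ν₁ - ν₀) ∧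
    w (0, true) = ν₁ - C.Ad (x (0, true)) ν₀ - C.Ad (x (0, false))⁻¹ (w (0, false)) ∧
    C.hat x w (preF 1) = -C.Ad (x (0, true)) ν₀ - w (0, true) := by
  have z : C.hat x w (preF (0 : Fin (g + 1))) = 0 := by simp [preF_zero, hat]
  have e := preF_succ' (0 : Fin (g + 1))
  simp only [coef, cond_true, cond_false, z, zero_sub, neg_eq_iff_eq_neg] at h0 h1
  have h2 : C.hat x w (preF ((0 : Fin (g + 1)) + 1)) = -C.Ad (x (0, true)) ν₀ - w (0, true) := by
    rw [e, hat_mul_inv, h0, map_neg]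
  rw [h2, hat_mul, z, zero_add] at h1
  have h3 : C.Ad (x (0, false))⁻¹ (w (0, false)) + w (0, true) = ν₁ - C.Ad (x (0, true)) ν₀ := by
    rw [← h1]; abel
  rw [hat_mul_inv, hat_mul, hat_mul, z, zero_add, h3, map_sub, Ad_inv_Ad] at h0
  exact ⟨by linear_combination (norm := module) -h0, by rw [← h3]; abel, h2⟩

/-- cocycles vanishing on the generators `s` -/
noncomputable def Zs (C : Ctx L K) (x : Gen g → K) {m : ℕ} (s : Fin m → Gen g) :
    Submodule ℝ (Gen g → L) :=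
  (LinearMap.ker (LinearMap.funLeft ℝ L s ∘ₗ (C.Z1 x).subtype)).map (C.Z1 x).subtype

theorem mem_Zs {x : Gen g → K} {m : ℕ} {s : Fin m → Gen g} {u : Gen g → L} :
    u ∈ C.Zs x s ↔ u ∈ C.Z1 x ∧ ∀ t, u (s t) = 0 :=
  ⟨fun ⟨v, h, e⟩ => e ▸ ⟨v.2, congrFun h⟩, fun h => ⟨⟨u, h.1⟩, funext h.2, rfl⟩⟩

theorem finrank_Zs {x : Gen g → K} (hx : x ∈ C.Rirr g) {j : Fin g} (hj : C.cen x [j] ≤ C.Z) {m : ℕ}
    {s : Fin m → Gen g} (hs : Function.Injective s) (hsj : ∀ t, (s t).1 ≠ j) :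
    finrank ℝ (Fin m → L) + finrank ℝ (C.Zs x s) = C.d0 g := by
  rw [Zs, Submodule.finrank_map_subtype_eq, ← C.finrank_Z1_irr hx,
    ← (LinearMap.funLeft ℝ L s ∘ₗ (C.Z1 x).subtype).finrank_range_add_finrank_ker,
    LinearMap.range_eq_top.2, finrank_top]
  intro y
  obtain ⟨u, h1, h2⟩ := C.surj_res hj hs hsj y
  exact ⟨⟨u, h1⟩, funext h2⟩

end Ctx

namespace Amb

variable {L : Type} [NormedAddCommGroup L] [InnerProductSpace ℝ L] [FiniteDimensional ℝ L]
  {K : Type} [Group K] [TopologicalSpace K] [IsTopologicalGroup K] [CompactSpace K]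
  [ConnectedSpace K] {A : Type} [NormedRing A] [NormedAlgebra ℝ A] [FiniteDimensional ℝ A]
  [CompleteSpace A] {C : Amb L K A} {g : ℕ}
  {V : Type} [NormedAddCommGroup V] [NormedSpace ℝ V] [FiniteDimensional ℝ V]

section
variable {G G' : Type} [Fintype G] [Fintype G'] {X : V → G → K} {w : V}

theorem res_eq (X : V → G → K) (s : G' → G) :
    (fun w => X w ∘ s) = fun w t => Ctx.val (X w) (.of (s t)) := by
  ext; simp

theorem AnX.res (h : C.AnX X w) (s : G' → G) : C.AnX (fun w => X w ∘ s) w := by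
  rw [res_eq]; exact h.wd _

theorem AnX.tan_res (h : C.AnX X w) (s : G' → G) (e : V) :
    C.tan (fun w => X w ∘ s) w e = C.tan X w e ∘ s := by
  rw [res_eq]
  exact funext fun t => (h.tan_wd _ e t).trans (C.cv_of ..)

end

theorem fam0 {X : V → Gen (g + 2) → K} {m : ℕ} {s : Fin m → Gen (g + 2)}
    (hs : Function.Injective s) {j : Fin (g + 2)} (hsj : ∀ t, (s t).1 ≠ j)
    (hj : C.cen (X 0) [j] ≤ C.Z)
    (H : ∀ᶠ w in 𝓝 0, C.AnX X w ∧ X w ∈ C.Rirr (g + 2) ∧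
      ¬ Function.Surjective (C.tan (fun w => X w ∘ s) w) ∧ ∃ v : C.Z1 (X w),
      (∀ u, (∃ e, C.tan X w e = u) ↔ u ∈ C.Z1 (X w) ∧ C.om (X w) v u = 0) ∧
      ∀ φ : AutR (g + 2), C.Reg (Ctx.val (X w) (φ.1 (ga 0))) → C.dI (X w) (φ.1 (ga 0)) v = 0) :
    ∃ (ν : Fin m → L) (N : Submodule ℝ V) (Y : N → Gen (g + 2) → K), Y 0 = X 0 ∧ C.Fam s ν Y := by
  obtain ⟨a0, i0, n0, v0, d0, -⟩ := H.self_of_nhds
  have as := a0.res s
  have HJ : ∀ᶠ w in 𝓝 0, C.cen (X w) [j] ≤ C.Z := a0.cont.eventually ((C.isOpen_cen _).mem_nhds hj)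
  set y := fun w => C.crd (X 0 ∘ s) (C.emb (X w ∘ s)) with hy
  have ay : AnalyticAt ℝ y 0 := as.crd
  have fy : ∀ e, fderiv ℝ y 0 e = C.tan X 0 e ∘ s := fun e => (as.fd_crd e).trans (a0.tan_res s e)
  obtain ⟨ν, hν⟩ := Ctx.exists_inner_of_ker (L := PiLp 2 fun _ : Fin m => L)
    ((WithLp.linearEquiv 2 ℝ _).symm.toLinearMap ∘ₗ LinearMap.funLeft ℝ L s ∘ₗ
      (C.Z1 (X 0)).subtype) (C.omZ (X 0) v0) fun u₁ h1 => by_contra fun h2 => n0 fun z => by
    obtain ⟨u, h3, h4⟩ := C.surj_res hj hs hsj z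
    have h5 : ∀ t, u₁.1 (s t) = 0 := fun t => congrArg (· t) h1
    rw [Ctx.omZ_apply] at h2
    obtain ⟨e, he⟩ := (d0 (u - (C.om (X 0) v0 u / C.om (X 0) v0 u₁) • u₁)).2
      ⟨Submodule.sub_mem _ h3 (Submodule.smul_mem _ _ u₁.2), by
        rw [map_sub, map_smul, smul_eq_mul, div_mul_cancel₀ _ h2, sub_self]⟩
    exact ⟨e, by rw [a0.tan_res, he]; ext t; simp [h4, h5]⟩
  let ν' : (Fin m → L) →L[ℝ] ℝ := ∑ t, innerSL ℝ (ν t) ∘L ContinuousLinearMap.proj t
  have e1 : ∀ z, ν' z = ∑ t, ⟪ν t, z t⟫ := fun z => by simp [ν']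
  have e2 : ∀ u ∈ C.Z1 (X 0), C.om (X 0) v0 u = ν' (u ∘ s) := fun u hu => by
    rw [e1]
    exact (hν ⟨u, hu⟩).trans (PiLp.inner_apply _ _)
  have h0 : ∀ z, ν' z = 0 ↔ ∃ e, fderiv ℝ y 0 e = z := fun z => by
    refine ⟨fun h => ?_, ?_⟩
    · obtain ⟨u, h3, h4⟩ := C.surj_res hj hs hsj z
      obtain ⟨e, he⟩ := (d0 u).2 ⟨h3, by rw [e2 u h3, ← h]; exact congrArg ν' (funext h4)⟩
      exact ⟨e, by rw [fy, he]; exact funext h4⟩
    · rintro ⟨e, rfl⟩
      have := (d0 _).1 ⟨e, rfl⟩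
      rw [fy, ← e2 _ this.1, this.2]
  have y0 : y 0 = 0 := C.crd_self _
  have hm : ∀ᶠ w in 𝓝 0, C.mvg (X 0 ∘ s) (y w) = X w ∘ s := as.cont.eventually (C.mvg_crd _)
  have := FiniteDimensional.complete ℝ V
  have h1 : ∀ᶠ w in 𝓝 0, ¬ Function.Surjective (fderiv ℝ y w) := by
    have h2 := (C.anX_mvg (X 0 ∘ s) 0).cont_tan.eventually
      (ContinuousLinearMap.isOpen_injective.mem_nhds fun u v huv => by
        rwa [tan_mvg, tan_mvg] at huv)
    filter_upwards [H, hm.eventually_nhds, ay.eventually_analyticAt,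
      (y0 ▸ ay.continuousAt.tendsto).eventually h2] with w b1 b2 b3 b4 b5
    refine b1.2.2.1 fun z => ?_
    obtain ⟨z', rfl⟩ := (LinearMap.injective_iff_surjective
      (f := (C.tan (C.mvg (X 0 ∘ s)) (y w)).toLinearMap)).1 b4 z
    obtain ⟨e, rfl⟩ := b5 z'
    exact ⟨e, by
      rw [← tan_congr b2, AnX.tan_comp (C.anX_mvg _ _) b3.differentiableAt]; rfl⟩
  obtain ⟨z₀, hz₀⟩ : ∃ z, ν' z ≠ 0 := by
    by_contra! h
    exact h1.self_of_nhds fun z => (h0 z).1 (h z)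
  obtain ⟨ζ, z1, z2, z3, z4⟩ := sat ay ν' h0 h1 (LinearMap.ker (fderiv ℝ y 0).toLinearMap)
    fun _ => Iff.rfl
  have tz : Tendsto ζ (𝓝 0) (𝓝 0) := by simpa only [z2] using z1.continuousAt.tendsto
  have aY : C.AnX (fun n => X (ζ n)) 0 := a0.comp z1 z2
  have c1 : ∀ᶠ n in 𝓝 0, X (ζ n) ∘ s = X 0 ∘ s := by
    filter_upwards [z4, tz.eventually hm] with n b1 b2
    rw [← b2, b1.1, y0, mvg_zero]
  have c2 : ∀ᶠ n in 𝓝 0, LinearMap.range (C.tan (fun n => X (ζ n)) n).toLinearMap ≤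
      C.Zs (X (ζ n)) s := by
    filter_upwards [aY.ev, (tz.eventually H).eventually_nhds, c1.eventually_nhds] with n b1 b2 b3
    rintro _ ⟨e, rfl⟩
    refine Ctx.mem_Zs.2 ⟨b1.tan_mem (b2.mono fun v hv => hv.2.1.1.trans
      b2.self_of_nhds.2.1.1.symm) e, fun t => ?_⟩
    exact (C.cv_of ..).symm.trans (b1.tan_mem (e := .of (s t)) (b3.mono fun v hv => by
      simpa using congrFun (hv.trans b3.self_of_nhds.symm) t) e)
  have c3 : C.Zs (X 0) s ≤ LinearMap.range (C.tan (fun n => X (ζ n)) 0).toLinearMap := by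
    intro u hu
    rw [Ctx.mem_Zs] at hu
    have b1 : u ∘ s = 0 := funext hu.2
    obtain ⟨e, he⟩ := (d0 u).2 ⟨hu.1, by rw [e2 u hu.1, b1, map_zero]⟩
    refine ⟨⟨e, (fy e).trans (by rw [he, b1])⟩, ?_⟩
    rw [ContinuousLinearMap.coe_coe, AnX.tan_comp (by rwa [z2]) z1.differentiableAt, z2, z3]
    exact he
  refine ⟨fun t => ν t, _, fun n => X (ζ n), congrArg X z2, aY, ?_⟩
  filter_upwards [tz.eventually H, tz.eventually HJ, z4, c1, c2, aY.cont_tan.eventually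
    ((isOpen_ker_le continuous_id (finrank ℝ (LinearMap.ker
      (C.tan (fun n => X (ζ n)) 0).toLinearMap))).mem_nhds (le_refl (_ : ℕ)))] with n ⟨b1, b2, _, v, b3, b4⟩ b5 b6 b7 b8 b9
  refine ⟨b2, fun t => by rw [z2]; exact congrFun b7 t, fun u hu hu' => ?_, ?_⟩
  · refine (Submodule.eq_of_le_of_finrank_le b8 ?_).ge (Ctx.mem_Zs.2 ⟨hu, hu'⟩)
    have k1 := Ctx.finrank_Zs b2 b5 hs hsj
    have k2 := Ctx.finrank_Zs i0 hj hs hsj
    have k3 := Submodule.finrank_mono c3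
    have k4 := (C.tan (fun n => X (ζ n)) n).toLinearMap.finrank_range_add_finrank_ker
    have k5 := (C.tan (fun n => X (ζ n)) 0).toLinearMap.finrank_range_add_finrank_ker
    simp only [id] at b9
    omega
  · obtain ⟨w, hw⟩ := C.exists_om (X (ζ n)) (ν'.toLinearMap ∘ₗ LinearMap.funLeft ℝ L s)
    have k1 : ∀ u, C.om (X (ζ n)) w u = ν' (u ∘ s) := fun u => by rw [hw]; rfl
    obtain ⟨c, hc⟩ := Ctx.exists_inner_of_ker (L := ℝ) (C.omZ (X (ζ n)) v)
      (C.om (X (ζ n)) w ∘ₗ (C.Z1 _).subtype) fun u hu => by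
        obtain ⟨e, he⟩ := (b3 u).2 ⟨u.2, hu⟩
        refine (k1 u).trans ?_
        rw [← he, ← b1.tan_res, ← (b1.res s).fd_crd, b7]
        exact b6.2 e
    obtain ⟨η, hη⟩ := C.eq_del (x := X (ζ n)) (w := w - c • v) fun u hu => by
      have := hc ⟨u, hu⟩
      simp only [LinearMap.comp_apply, Submodule.subtype_apply, Ctx.omZ_apply, RCLike.inner_apply,
        conj_trivial] at this
      rw [map_sub, map_smul, LinearMap.sub_apply, LinearMap.smul_apply, this, smul_eq_mul, mul_comm,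
        sub_self]
    rw [eq_sub_iff_add_eq] at hη
    refine ⟨w, hη ▸ Submodule.add_mem _ (C.del_mem_Z1 b2.1 η) (Submodule.smul_mem _ _ v.2),
      fun h => hz₀ ?_, fun u => (k1 u).trans (e1 _), fun φ hφ => C.pj_eq_zero_iff.1 ?_⟩
    · obtain ⟨u, -, hu⟩ := C.surj_res hj hs hsj z₀
      rw [← show u ∘ s = z₀ from funext hu, ← k1, h, map_zero, LinearMap.zero_apply]
    · rw [← hη, map_add, map_add, Ctx.cv_del, Ctx.pj_sub_Ad, zero_add, map_smul, map_smul,
        ← Ctx.dI_apply, b4 φ hφ, smul_zero]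

theorem Hyp.fam {X : V → Gen (g + 2) → K} {O : Set V} (h : C.Hyp X O) {m : ℕ}
    {s : Fin m → Gen (g + 2)} (hs : Function.Injective s) {j : Fin (g + 2)}
    (hsj : ∀ t, (s t).1 ≠ j) {w₀ : V} (hw : w₀ ∈ O) (hj : C.cen (X w₀) [j] ≤ C.Z)
    (hn : ∀ w ∈ O, ¬ Function.Surjective (C.tan (fun w => X w ∘ s) w)) :
    ∃ (ν : Fin m → L) (N : Submodule ℝ V) (Y : N → Gen (g + 2) → K), Y 0 = X w₀ ∧ C.Fam s ν Y := by
  have := fam0 (X := fun w => X (w₀ + w)) hs hsj (by simpa using hj) ?_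
  · simpa only [add_zero] using this
  filter_upwards [((continuous_const_add w₀).tendsto' 0 w₀ (add_zero _)).eventually
    (h.isOpen.mem_nhds hw)] with w hw
  have h1 : ∀ e, C.tan (fun w => X (w₀ + w)) w e = C.tan X (w₀ + w) e := fun e => by
    rw [(h.an _ hw).tan_comp (by fun_prop), fderiv_const_add, fderiv_id']; rfl
  have h2 : C.AnX (fun w => X (w₀ + w)) w := (h.an _ hw).comp (by fun_prop) rfl
  obtain ⟨v, -, h3, h4⟩ := h.dual _ hw
  refine ⟨h2, h.irr _ hw, fun H => hn _ hw fun z => (H z).imp fun e he => ?_, v,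
    by simpa only [h1] using h3, h4⟩
  rw [(h.an _ hw).tan_res, ← h1, ← h2.tan_res, he]

theorem open_var {S : Set K} {k : K} (hS : S ∈ 𝓝 k) {β : L}
    (h : ∀ k ∈ S, C.Reg k → β ∈ (C.Fix k)ᗮ) : β = 0 := by
  obtain ⟨O, h1, h2, h3⟩ := mem_nhds_iff.1 hS
  obtain ⟨k, h4, h5⟩ : ∃ k ∈ O, C.Reg k := by
    obtain ⟨t, ht⟩ := C.exists_maxAb
    obtain ⟨a, ha, -⟩ := C.exists_reg_Fix ht
    have h6 := C.an_lw (f := fun x : Unit → K => x ()) (Ctx.an_Ad ())
    obtain ⟨ξ, hξ⟩ := h6.chart_ne (h₀ := fun _ => a) (C.reg_iff_lw.1 ha) fun _ => k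
    by_contra! H
    refine hξ ((h6 fun _ => k).eqOn_zero_of_preconnected_of_eventuallyEq_zero isPreconnected_univ
      (z₀ := 0) trivial ?_ trivial)
    have h7 : Continuous fun η : Unit → L => C.ex (η ()) * k :=
      (C.cont_ex.comp (continuous_apply ())).mul continuous_const
    filter_upwards [(h7.tendsto' 0 k (by simp [C.ex_zero])).eventually (h2.mem_nhds h3)] with η hη
    exact not_not.1 fun h7 => H _ hη (C.reg_iff_lw.2 h7)
  refine inner_self_eq_zero.1 (h k (h1 h4) h5 β ((Ctx.Reg.maxAb _ h5 β).2 fun θ hθ => ?_))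
  refine ext_inner_left ℝ fun ξ => ?_
  have h6 := ((C.hasDerivAt_Ad ξ θ).inner ℝ (hasDerivAt_const 0 β)).unique
    ((hasDerivAt_const 0 (0 : ℝ)).congr_of_eventuallyEq ?_)
  · rw [inner_zero_right, zero_add, C.ad_swap, inner_neg_left, C.inner_ad', neg_eq_zero] at h6
    rw [h6, inner_zero_right]
  · have h7 : Continuous fun r : ℝ => C.ex (r • ξ) := C.cont_ex.comp (by fun_prop)
    have h8 : Continuous fun r : ℝ => C.ex (r • ξ) * k * (C.ex (r • ξ))⁻¹ :=
      (h7.mul continuous_const).mul h7.inv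
    filter_upwards [(h8.tendsto' 0 k (by simp [C.ex_zero])).eventually (h2.mem_nhds h4)] with r hr
    exact h _ (h1 hr) (h5.conj _) _ (C.Ad_mem_Fix_conj.2 hθ)

/-- free variation of a generator outside `s` -/
theorem Fam.kill {m : ℕ} {s : Fin m → Gen (g + 2)} {ν : Fin m → L} {Y : V → Gen (g + 2) → K}
    (h : C.Fam s ν Y) (hs : Function.Injective s) {p : Gen (g + 2)} (hp : p ∉ Set.range s)
    {j : Fin (g + 2)} (hj : C.cen (Y 0) [j] ≤ C.Z) (hsj : ∀ t, (s t).1 ≠ j) (hpj : p.1 ≠ j)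
    (c d : K) {β : L}
    (H : ∀ᶠ n in 𝓝 0, C.Reg (c * Y n p * d) → β ∈ (C.Fix (c * Y n p * d))ᗮ) : β = 0 := by
  have := FiniteDimensional.complete ℝ V
  have h1 := (h.an.res fun _ : Unit => p).nhds_le fun z => by
    obtain ⟨u, h2, h3⟩ := C.surj_res hj (s := Fin.cons p s) (Fin.cons_injective_of_injective hp hs)
      (fun t => Fin.cases hpj hsj t) (Fin.cons (z ()) 0)
    obtain ⟨e, he⟩ := h.ev.self_of_nhds.2.2.1 u h2 fun t => h3 t.succ
    exact ⟨e, by rw [h.an.tan_res, he]; exact funext fun _ => h3 0⟩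
  have h2 : ∀ᶠ x : Unit → K in 𝓝 fun _ => Y 0 p,
      C.Reg (c * x () * d) → β ∈ (C.Fix (c * x () * d))ᗮ := h1 H
  refine open_var (k := c * Y 0 p * d) (S := {k | C.Reg k → β ∈ (C.Fix k)ᗮ}) ?_ fun _ h => h
  filter_upwards [((show Continuous fun (k : K) (_ : Unit) => c⁻¹ * k * d⁻¹ by fun_prop).tendsto'
    (c * Y 0 p * d) _ (by ext; simp [mul_assoc])).eventually h2] with k hk
  simpa [mul_assoc] using hk

theorem Fam.one {ν : Fin 1 → L} {Y : V → Gen (g + 2) → K} (h : C.Fam ![(0, false)] ν Y)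
    (hj : C.cen (Y 0) [1] ≤ C.Z) : False := by
  have h1 : ∀ᶠ n in 𝓝 0, ∃ w, w ≠ 0 ∧ w = -C.twv (Y n) (ν 0) ∧ C.Prp (Y n) w (gb 0) := by
    filter_upwards [h.ev] with n ⟨_, _, _, w, b1, b2, b3, b4⟩
    simp only [Fin.sum_univ_one, Matrix.cons_val_zero] at b3
    have b5 : ν 0 ∈ C.Fix (Y n (0, false)) := by
      rw [← C.Fix_inv, C.mem_Fix]
      refine ext_inner_right ℝ fun η => ?_
      have := C.om_add_swap (Y n) w (C.del (Y n) η)
      rw [b3, C.om_del, C.mem_Z1.1 b1, inner_zero_right, inner_zero_left, add_zero, C.del_apply,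
        inner_sub_right, C.inner_Ad_right, sub_eq_zero] at this
      exact this.symm
    refine ⟨w, b2, eq_neg_of_add_eq_zero_left (C.om_nd (x := Y n) fun u => ?_), Ctx.Prp.inv ?_⟩
    · rw [map_add, LinearMap.add_apply, b3, C.om_twv _ b5, add_neg_cancel]
    · exact psi'_a (g := g + 1) ▸ b4 psi'
  have h2 : ν 0 = 0 := h.kill (p := (0, true)) (Function.injective_of_subsingleton _) (by simp) hj
    (by simp) (by simp) 1 1 (h1.mono fun n ⟨w, _, b1, b2⟩ b3 => by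
      rw [one_mul, mul_one] at b3 ⊢
      have := C.pj_eq_zero_iff.2 (b2 (by simpa using b3))
      rw [b1, map_neg, map_neg, C.cv_of, C.twv_b, FreeGroup.lift_apply_of, C.pj_Ad,
        neg_eq_zero] at this
      exact C.pj_eq_zero_iff.1 this)
  obtain ⟨w, b1, b2, -⟩ := h1.self_of_nhds
  exact b1 (by rw [b2, h2, map_zero, neg_zero])

theorem Fam.three {ν : Fin 3 → L} {Y : V → Gen (g + 1 + 2) → K}
    (h : C.Fam ![(0, false), (0, true), (1, false)] ν Y) (hj : C.cen (Y 0) [2] ≤ C.Z) : False := by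
  obtain ⟨a, ha⟩ : ∃ a, Y 0 (0, false) = a := ⟨_, rfl⟩
  obtain ⟨b, hb⟩ : ∃ b, Y 0 (0, true) = b := ⟨_, rfl⟩
  obtain ⟨a', ha'⟩ : ∃ a', Y 0 (1, false) = a' := ⟨_, rfl⟩
  obtain ⟨α, hα⟩ : ∃ α, ν 0 + C.Ad a (C.Ad b⁻¹ (ν 1) - ν 0) = α := ⟨_, rfl⟩
  obtain ⟨β, hβ⟩ : ∃ β, ν 1 - C.Ad b (ν 0) - C.Ad a⁻¹ α = β := ⟨_, rfl⟩
  obtain ⟨κ, hκ⟩ : ∃ κ, -C.Ad b (ν 0) - β = κ := ⟨_, rfl⟩
  have n01 : (0 : Fin (g + 1 + 2)) ≠ 1 := Fin.zero_ne_one
  have n02 : (0 : Fin (g + 1 + 2)) ≠ 2 := (Fin.succ_ne_zero (1 : Fin (g + 2))).symm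
  have n12 : (1 : Fin (g + 1 + 2)) ≠ 2 := fun h =>
    Fin.zero_ne_one (Fin.succ_injective _ (show Fin.succ 0 = Fin.succ (1 : Fin (g + 2)) from h))
  have h1 : ∀ᶠ n in 𝓝 0, ∃ w, w ≠ 0 ∧ Y n (0, false) = a ∧ Y n (0, true) = b ∧
      w (0, false) = α ∧ w (0, true) = β ∧ w (1, false) = -κ ∧
      w (1, true) = C.Ad (Y n (1, true)) (κ - ν 2) ∧ κ - ν 2 = C.Ad a' (κ - ν 2) + κ ∧
      (∀ p : Gen (g + 1 + 2), 2 ≤ (p.1 : ℕ) → w p = 0) ∧ C.Prp (Y n) w (gb 1) ∧
      C.Prp (Y n) w (gb 0 * gb 1) ∧ C.Prp (Y n) w (ga 0 * (gb 0)⁻¹ * gb 1 * gb 0) := by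
    filter_upwards [h.ev] with n ⟨_, b0, _, w, b1, b2, b3, b4⟩
    simp only [Fin.sum_univ_three, Matrix.cons_val] at b3
    have c0 : Y n (0, false) = a := (b0 0).trans ha
    have c1 : Y n (0, true) = b := (b0 1).trans hb
    have c2 : Y n (1, false) = a' := (b0 2).trans ha'
    obtain ⟨d0, d1, d2⟩ := Ctx.handle0 (C := C.toCtx) (x := Y n) (w := w) (ν₀ := ν 0) (ν₁ := ν 1)
      (Ctx.coef_eq fun y => by simp [b3, n01.symm]) (Ctx.coef_eq fun y => by simp [b3])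
    rw [c0, c1, hα] at d0
    rw [c0, c1, d0, hβ] at d1
    rw [c1, d1, hκ] at d2
    obtain ⟨d3, d4⟩ := C.zero_bwd b1 (m := 2) (by omega) fun p hp => C.coef_zero fun y => by
      have : ∀ (i : Fin (g + 1 + 2)) s, (i : ℕ) < 2 → Pi.single (M := fun _ => L) p y (i, s) = 0 := fun i s hi =>
        Pi.single_eq_of_ne (fun e => by rw [← e] at hp; exact hp.not_gt hi) _
      rw [b3, this 0 _ (by simp), this 0 _ (by simp), this 1 _ (by simp)]
      simp
    have d5 : C.coef (Y n) w (1, false) = ν 2 := Ctx.coef_eq fun y => by simp [b3, n01]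
    have d6 : C.coef (Y n) w (1, true) = 0 := C.coef_zero fun y => by simp [b3, n01]
    have e := Ctx.preF_succ' (1 : Fin (g + 1 + 2))
    simp only [Ctx.coef, cond_true, cond_false, Fin.val_one, Nat.reduceAdd] at d5 d6 e
    rw [d4, sub_zero] at d6
    have d7 := congrArg (C.Ad (Y n (1, false))) d6
    rw [C.hat_mul, C.Ad_Ad_inv, map_zero, d2] at d7
    rw [d2, sub_eq_iff_eq_add', ← sub_eq_iff_eq_add, eq_comm] at d5
    rw [e, C.hat_mul_inv, d5, sub_eq_zero] at d4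
    rw [C.hat_mul_inv, C.hat_mul _ _ _ (1, true), d6, zero_add, ← d4, C.Ad_inv_Ad, c2,
      eq_neg_of_add_eq_zero_right d7, sub_neg_eq_add] at d5
    have p1 : (psi' (g := g + 2)).1 (gb 1) = gb 1 := aut1_of ..
    refine ⟨w, b2, c0, c1, d0, d1, eq_neg_of_add_eq_zero_right d7, d4.symm, d5.symm, d3,
      (Ctx.Prp.conj (b4 (rot * psi')) (hcomm 0) ?_).inv,
      (Ctx.Prp.conj (b4 (psi1 * chi * psi')) (gb 1) ?_).inv,
      (Ctx.Prp.conj (b4 (psi' * psi1 * chi * psi')) (gb 1 * gb 0) ?_).inv⟩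
    · simp only [AutR.mul_apply, psi'_a, map_inv, rot_of, zero_add]
      group
    · simp only [AutR.mul_apply, psi'_a, map_inv, map_mul, chi_b, psi1_b, psi1_c]
      group
    · simp only [AutR.mul_apply, psi'_a, map_inv, map_mul, chi_b, psi1_b, psi1_c, psi'_b, p1]
      group
  have kill := h.kill (p := (1, true)) (fun i j => by
      fin_cases i <;> fin_cases j <;> simp [n01, n01.symm]) (by simp) hj
    (fun t => by fin_cases t; exacts [n02, n02, n12]) n12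
  have s1 : κ - ν 2 = 0 := kill 1 1 (h1.mono fun n ⟨w, _, _, _, _, _, _, b1, _, _, b2, _⟩ b3 => by
    rw [one_mul, mul_one] at b3 ⊢
    have := C.pj_eq_zero_iff.2 (b2 (by simpa using b3))
    rw [C.cv_of, b1, FreeGroup.lift_apply_of, C.pj_Ad] at this
    exact C.pj_eq_zero_iff.1 this)
  simp only [s1, map_zero, zero_add] at h1
  have s2 : β = 0 := kill b 1 (h1.mono fun n ⟨w, _, _, b0, _, b1, _, b2, _, _, _, b3, _⟩ b4 => by
    simpa [C.cv_mul, b0, b1, b2] using b3 (by simpa [b0] using b4))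
  have s3 : α = 0 := kill (a * b⁻¹) b
    (h1.mono fun n ⟨w, _, b0, b0', b1, b1', _, b2, _, _, _, _, b3⟩ b4 => by
      simpa [C.cv_mul, C.cv_inv, b0, b0', b1, b1', b2, s2] using b3 (by simpa [b0, b0'] using b4))
  obtain ⟨w, b0, -, -, b1, b2, b3, b4, b5, b6, -⟩ := h1.self_of_nhds
  exact b0 (funext (gen_cases2 (b1.trans s3) (b2.trans s2) (by rw [b3, ← b5, neg_zero]; rfl) b4
    fun j s => b6 _ (by simp)))

end Amb

end Pool.Agent.Lib.MP_d52947_gt
end

-- part Pool.Agent.Lib.MP_d52947_gt.Erg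
section

/-! Ergodicity on the components of the representation variety. -/

namespace Pool.Agent.Lib.MP_d52947_gt

open Filter Topology Module MeasureTheory

namespace Amb

variable {L : Type} [NormedAddCommGroup L] [InnerProductSpace ℝ L] [FiniteDimensional ℝ L]
  {K : Type} [Group K] [TopologicalSpace K] [IsTopologicalGroup K] [CompactSpace K]
  [ConnectedSpace K] {A : Type} [NormedRing A] [NormedAlgebra ℝ A] [FiniteDimensional ℝ A]
  [CompleteSpace A] {C : Amb L K A} {g : ℕ}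
  {V : Type} [NormedAddCommGroup V] [NormedSpace ℝ V] [FiniteDimensional ℝ V]

theorem res_eq' {G G' : Type} (X : V → G → K) (s : G' → G) :
    (fun w => X w ∘ s) = fun w i => Ctx.val (X w) (.of (s i)) := by
  funext w i; simp

theorem AnX.tan_res' {G G' : Type} [Fintype G] [Fintype G'] {X : V → G → K} {w : V}
    (h : C.AnX X w) (s : G' → G) (e : V) (i : G') :
    C.tan (fun w => X w ∘ s) w e i = C.tan X w e (s i) := by
  rw [res_eq', h.tan_wd]; simp

section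
variable [MeasurableSpace V] [BorelSpace V] (μ : Measure V) [μ.IsAddHaarMeasure]
  {X : V → Gen (g + 2) → K} {O : Set V}

theorem Hyp.pt (h : C.Hyp X O) {P : V → Prop} (hP : ∀ᵐ w ∂μ, w ∈ O → P w) : ∃ w ∈ O, P w :=
  Measure.exists_mem_of_measure_ne_zero_of_ae (h.isOpen.measure_ne_zero μ h.ne)
    ((ae_restrict_iff' h.isOpen.measurableSet).2 hP)

theorem Hyp.sub (h : C.Hyp X O) {m : ℕ} {s : Fin m → Gen (g + 2)} (hs : Function.Injective s)
    {j : Fin (g + 2)} (hsj : ∀ t, (s t).1 ≠ j) {Q : (Gen (g + 2) → K) → Prop}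
    (hQ : ∀ᵐ w ∂μ, w ∈ O → Q (X w)) (hF : ∀ ν (N : Submodule ℝ V) (Y : N → Gen (g + 2) → K),
      C.Fam s ν Y → Q (Y 0) → (∀ j, C.cen (Y 0) [j] ≤ C.Z) → False) :
    ∃ w ∈ O, Function.Surjective (C.tan (fun w => X w ∘ s) w) := by
  by_contra! hn
  obtain ⟨w, a, b, c⟩ := h.pt μ (P := fun w => Q (X w) ∧ ∀ j, C.cen (X w) [j] ≤ C.Z) (by
    filter_upwards [hQ, h.handles μ (h.reg μ)] with w a b c using ⟨a c, b c⟩)
  obtain ⟨ν, N, Y, d, e⟩ := h.fam hs hsj a (c j) hn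
  exact hF ν N Y e (d ▸ b) (d ▸ c)

variable [MeasurableSpace L] [BorelSpace L]

theorem Hyp.pull (h : C.Hyp X O) {m : ℕ} {s : Fin m → Gen (g + 2)}
    (hs : ∃ w ∈ O, Function.Surjective (C.tan (fun w => X w ∘ s) w))
    {P : (Fin m → K) → Prop} (hP : C.Generic P) : ∀ᵐ w ∂μ, w ∈ O → P (X w ∘ s) := by
  obtain ⟨w, a, b⟩ := hs
  exact generic_pull μ h.isOpen h.conn (fun w hw => res_eq' X s ▸ (h.an w hw).wd _) a b hP

theorem Hyp.all (h : C.Hyp X O) {P : (Gen (g + 2) → K) → Prop}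
    (hP : ∀ X : V → Gen (g + 2) → K, C.Hyp X O → ∀ᵐ w ∂μ, w ∈ O → P (X w)) :
    ∀ᵐ w ∂μ, w ∈ O → ∀ φ : AutR (g + 2), P (Ctx.act φ.1.toMonoidHom (X w)) := by
  filter_upwards [ae_all_iff.2 fun φ => hP _ (h.act φ)] with w a b φ using a φ b

theorem Hyp.gr (h : C.Hyp X O) (I : C.Ideals) : ∀ᵐ w ∂μ, w ∈ O → C.Gr I (X w (0, false)) :=
  h.pull μ (h.sub μ (s := ![(0, false)]) (Function.injective_of_subsingleton _) (j := 1)
    (by intro a; fin_cases a; simp) (Q := fun _ => True) (by simp)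
    fun _ _ _ a _ b => a.one (b 1)) (generic_Gr I)

include μ in
theorem Hyp.sub3 {X : V → Gen (g + 1 + 2) → K} (h : C.Hyp X O) : ∃ w ∈ O, Function.Surjective
    (C.tan (fun w => X w ∘ ![(0, false), (0, true), (1, false)]) w) :=
  h.sub μ (by intro a b; fin_cases a <;> fin_cases b <;> simp) (j := 2) (by
    intro a; fin_cases a <;> simp [Fin.ext_iff, Nat.mod_eq_of_lt]) (Q := fun _ => True) (by simp)
    fun _ _ _ a _ b => a.three (b 2)

theorem Hyp.pair (h : C.Hyp X O) {P : K → K → Prop}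
    (hP : C.Generic fun h : Fin 2 → K => P (h 0) (h 1)) :
    ∀ᵐ w ∂μ, w ∈ O → P (X w (0, false)) (X w (0, true)) := by
  refine h.pull μ (s := ![(0, false), (0, true)]) ?_ hP
  rcases g with _ | g
  · obtain ⟨I⟩ := C.exists_ideals
    refine h.sub μ (by intro a b; fin_cases a <;> fin_cases b <;> simp) (j := 1)
      (by intro a; fin_cases a <;> simp) (Q := fun x => ∀ φ : AutR (0 + 2),
        C.Reg (Ctx.val x (φ.1 (ga 0))) ∧ C.Gr I (Ctx.val x (φ.1 (ga 0)))) ?_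
      fun _ _ _ a b c => a.two I b c
    filter_upwards [h.reg μ, h.all μ (P := fun x => C.Gr I (x (0, false)))
      fun _ h => h.gr μ I] with w a b c φ using ⟨a c φ, b c φ⟩
  · obtain ⟨w, a, b⟩ := h.sub3 μ
    refine ⟨w, a, fun y => (b ![y 0, y 1, 0]).imp fun e he => funext fun i => ?_⟩
    have := fun i => ((h.an w a).tan_res' _ e i).symm.trans (congrFun he i)
    rw [(h.an w a).tan_res']
    fin_cases i
    exacts [this 0, this 1]

end

theorem Hyp.elim {X : V → Gen (g + 2) → K} {O : Set V} (h : C.Hyp X O) : False := by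
  borelize V L
  obtain ⟨I⟩ := C.exists_ideals
  let μ : Measure V := Measure.addHaar
  have hS : Closed (g := g) fun _ => True := by constructor <;> simp
  have h1 := h.all μ (P := fun x => C.GoodPair I (x (0, false)) (x (0, true)))
    fun _ h => h.pair μ (C.generic_pair I)
  obtain ⟨w, a, b, c⟩ := h.pt μ (P := fun w => (∀ φ : AutR (g + 2),
      C.Reg (Ctx.val (X w) (φ.1 (ga 0)))) ∧ ∀ v, (∀ φ : AutR (g + 2), True →
        C.dI (X w) (φ.1 (ga 0)) v = 0) → v ∈ C.B1 (X w)) (by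
    rcases g with _ | g
    · obtain ⟨Pf, h2, h3⟩ := C.generic_two
      filter_upwards [h.reg μ, h1, h.all μ (P := fun x => Pf (x (0, false)) (x (0, true)))
        fun _ h => h.pair μ h2] with w a b c d
      exact ⟨a d, fun v hv => Ctx.cob_of_step hS (b d) hv fun φ hφ ζ =>
        Ctx.step2 (h.irr w d).1 hS (b d) h3 (c d) hv hφ⟩
    · filter_upwards [h.reg μ, h1, h.all μ (P := fun x => ∀ η ∈ C.Fix (x (0, false)),
          η - C.Ad (x (0, true)) η ∈ (C.Fix (x (1, false)))ᗮ → η ∈ C.Z)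
          fun _ h => h.pull μ (h.sub3 μ) C.generic_triple,
        h.all μ (P := fun x => C.cen x [0] ≤ C.Z) fun _ h =>
          (h.handles μ (h.reg μ)).mono fun _ a b => a b 0] with w a b c e d
      refine ⟨a d, fun v hv => Ctx.cob_of_step hS (b d) hv fun φ hφ ζ =>
        Ctx.step3 hS (b d) (c d) (fun φ η ha hb => e d φ fun i hi s => ?_) hv hφ⟩
      rw [List.mem_singleton.1 hi]
      cases s
      exacts [C.mem_Fix.1 ha, C.mem_Fix.1 hb])
  obtain ⟨v, h2, -, h3⟩ := h.dual w a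
  exact h2 (c v fun φ _ => h3 φ (b φ))

variable (C) [MeasurableSpace A] [BorelSpace A] [MeasurableSpace L] [BorelSpace L]

theorem erg (hg : 1 ≤ g) (f : (Gen g → A) → ℝ) (hf : Measurable f)
    (hK : ∀ x, C.Sm x → ∀ c, f (C.emb (Ctx.cjg c x)) = f (C.emb x))
    (hi : ∀ φ : AutR g, C.AeS fun x => f (C.emb (Ctx.act φ.1.toMonoidHom x)) = f (C.emb x))
    (y : Gen g → K) : ∃ c, C.AeS fun x =>
      x ∈ connectedComponentIn (Ctx.Rep0 g K) y → f (C.emb x) = c := by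
  obtain _ | _ | g := g
  · omega
  · exact C.erg_one f hf hK hi y
  obtain ⟨v, h1, h2⟩ := loc_const (C := C) (fun _ _ _ h => h.elim) f hf
    (fun x hx => hK x (C.sm_iff.2 hx)) fun φ => C.aeS_iff.1 (hi φ)
  have h3 := C.ae_pair (g := g) (P := fun a _ => C.Reg a) (C.generic_a.mono fun _ h => h.1)
  by_cases h : ∃ x ∈ connectedComponentIn (Ctx.Rep0 (g + 2) K) y, x ∈ C.Rirr (g + 2) ∧
    C.Reg (x (0, false))
  · obtain ⟨x₀, a, b, c⟩ := h
    refine ⟨v x₀, C.aeS_iff.2 ((h1.and h3).mono fun x hx h d => h.1.trans ?_)⟩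
    obtain ⟨S, e1, e2, e3, e4⟩ := C.conn C.dense d a hx b h.2 c
    have := Subtype.preconnectedSpace e2
    exact (((IsLocallyConstant.iff_eventually_eq fun z : S => v z).2 fun z =>
      (continuous_subtype_val.tendsto z).eventually (h2 z (e1 z.2)) |>.mono
        fun z' hz => hz (e1 z'.2)).apply_eq_of_preconnectedSpace ⟨x, e3⟩ ⟨x₀, e4⟩)
  · exact ⟨0, C.aeS_iff.2 (h3.mono fun x hx a b => absurd ⟨x, b, hx, a⟩ h)⟩

end Amb

end Pool.Agent.Lib.MP_d52947_gt
end
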