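import Pool.Agent.Lib.MP_d52947_gt.High
import Pool.Agent.Lib.MP_d52947_gt.ModelA
import Pool.Agent.Lib.MP_d52947_gt.OneA

-- part Pool.Agent.Lib.MP_d52947_gt.Coef
section

/-! Measurable invariant coefficients. -/

namespace Pool.Agent.Lib.MP_d52947_gt

open Filter Topology Module MeasureTheory
open scoped RealInnerProductSpace

namespace Ctx

variable {L : Type} [NormedAddCommGroup L] [InnerProductSpace ℝ L] [FiniteDimensional ℝ L]
  {K : Type} [Group K] [TopologicalSpace K] [IsTopologicalGroup K] [CompactSpace K]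
  [ConnectedSpace K] (C : Ctx L K) {g k : ℕ}

theorem cont_cv {G : Type} [Fintype G] (w : FreeGroup G) :
    Continuous fun p : (G → K) × (G → L) => C.cv p.1 w p.2 := by
  induction w using FreeGroup.induction_on with
  | C1 => simpa using continuous_const
  | of i => simp only [cv_of]; fun_prop
  | inv_of i hi =>
    simp only [cv_inv]
    exact ((C.cont_Ad.comp ((Amb.cont_val _).comp continuous_fst).inv).clm_apply hi).neg
  | mul a b ha hb =>
    simp only [cv_mul]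
    exact ha.add ((C.cont_Ad.comp ((Amb.cont_val _).comp continuous_fst)).clm_apply hb)

theorem cont_om : Continuous fun p : (Gen g → K) × (Gen g → L) × (Gen g → L) =>
    C.om p.1 p.2.1 p.2.2 := by
  have h : ∀ a b : FG g, Continuous fun p : (Gen g → K) × (Gen g → L) × (Gen g → L) =>
      ⟪C.cv p.1 a p.2.1, C.Ad (val p.1 a) (C.cv p.1 b p.2.2)⟫ := fun a b =>
    ((C.cont_cv a).comp (f := fun p : (Gen g → K) × (Gen g → L) × (Gen g → L) => (p.1, p.2.1))
      (by fun_prop)).inner ((C.cont_Ad.comp ((Amb.cont_val _).comp continuous_fst)).clm_apply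
      ((C.cont_cv b).comp (f := fun p : (Gen g → K) × (Gen g → L) × (Gen g → L) => (p.1, p.2.2))
        (by fun_prop)))
  simp only [om_apply, fundF]
  exact continuous_finset_sum _ fun i _ =>
    (((((h _ _).add (h _ _)).add (h _ _)).add (h _ _)).sub (h _ _)).sub (h _ _)

/-- index set of the wedge products -/
abbrev JI (I : C.Ideals) (k : ℕ) :=
  Σ m : Fin (k + 1), (Fin m × Bool ≃ Fin k) × (Fin m → C.QI I)

/-- the wedge products -/
noncomputable def wJ (I : C.Ideals) (x : Gen g → K) (i : C.JI I k) (u : Fin k → Gen g → L) : ℝ :=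
  wedge i.2.1 (fun j => C.omQ I x (i.2.2 j)) u

theorem cont_wJ (I : C.Ideals) (i : C.JI I k) :
    Continuous fun p : (Gen g → K) × (Fin k → Gen g → L) => C.wJ I p.1 i p.2 := by
  refine continuous_finset_sum _ fun σ _ => continuous_const.mul
    (continuous_finset_prod _ fun j _ => ?_)
  exact C.cont_om.comp (f := fun p : (Gen g → K) × (Fin k → Gen g → L) =>
    (p.1, fun s => C.Q I (i.2.2 j) (p.2 _ s), p.2 _)) (by fun_prop)

theorem wJ_multi (I : C.Ideals) (x : Gen g → K) (i : C.JI I k) :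
    ∃ β : MultilinearMap ℝ (fun _ : Fin k => Gen g → L) ℝ, ∀ u, β u = C.wJ I x i u :=
  alt_ext_wedge i.2.1 fun j => C.om x ∘ₗ (C.Q I (i.2.2 j) : L →ₗ[ℝ] L).compLeft _

theorem Concl.sol {I : C.Ideals} {x : Gen g → K} {β : (Gen g → L) [⋀^Fin k]→ₗ[ℝ] ℝ}
    (h : C.Concl I x β) : ∃ f : C.JI I k → ℝ, ∀ u : Fin k → C.Z1 x,
      β (fun j => u j) = ∑ i, f i * C.wJ I x i fun j => u j := by
  have : (C.res x β : (Fin k → C.Z1 x) → ℝ) ∈ Submodule.span ℝ
      (Set.range fun (i : C.JI I k) (u : Fin k → C.Z1 x) => C.wJ I x i fun j => u j) := by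
    refine Submodule.span_mono ?_ h
    rintro _ ⟨m, e, c, rfl⟩
    have hm : m < k + 1 := by
      have := Fintype.card_congr e
      simp at this; omega
    exact ⟨⟨⟨m, hm⟩, e, c⟩, rfl⟩
  obtain ⟨f, hf⟩ := (Submodule.mem_span_range_iff_exists_fun ℝ).1 this
  exact ⟨f, fun u => by simpa [res_apply] using (congrFun hf u).symm⟩

end Ctx

theorem multi_eq_zero {V ι : Type} [AddCommGroup V] [Module ℝ V] [Fintype ι] {k : ℕ}
    (b : Basis ι ℝ V) (p : V →ₗ[ℝ] V) (β : MultilinearMap ℝ (fun _ : Fin k => V) ℝ) :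
    (∀ r : Fin k → ι, β (fun j => p (b (r j))) = 0) ↔ ∀ u : Fin k → V, β (fun j => p (u j)) = 0 :=
  ⟨fun h u => congrArg (· u) (Basis.ext_multilinear (fun _ => b)
    (f := β.compLinearMap fun _ => p) (g := 0) h), fun h _ => h _⟩

namespace Amb

variable {L : Type} [NormedAddCommGroup L] [InnerProductSpace ℝ L] [FiniteDimensional ℝ L]
  {K : Type} [Group K] [TopologicalSpace K] [IsTopologicalGroup K] [CompactSpace K]
  [ConnectedSpace K] {A : Type} [NormedRing A] [NormedAlgebra ℝ A] [FiniteDimensional ℝ A]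
  [CompleteSpace A] [MeasurableSpace A] [BorelSpace A] (C : Amb L K A) {g k : ℕ}
  [MeasurableSpace L] [BorelSpace L]

theorem exists_coef (I : C.Ideals) (F : (Gen g → A) → (Gen g → L) [⋀^Fin k]→ₗ[ℝ] ℝ)
    (hF : ∀ v, Measurable (F · v)) : ∃ f : C.JI I k → (Gen g → A) → ℝ, (∀ i, Measurable (f i)) ∧
      (∀ x, C.Concl I x (F (C.emb x)) → ∀ u : Fin k → C.Z1 x,
        F (C.emb x) (fun j => u j) = ∑ i, f i (C.emb x) * C.wJ I x i fun j => u j) ∧
      ∀ x y (e : C.Z1 x → C.Z1 y), Function.Surjective e →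
        (∀ q u v, C.omQ I y q (e u) (e v) = C.omQ I x q u v) →
        (∀ u : Fin k → C.Z1 x, F (C.emb y) (fun j => e (u j)) = F (C.emb x) fun j => u j) →
        ∀ i, f i (C.emb y) = f i (C.emb x) := by
  classical
  let : MeasurableSpace (Gen g → K) := borel _
  have : BorelSpace (Gen g → K) := ⟨rfl⟩
  have hme := (C.emb_closed (G := Gen g)).measurableEmbedding
  let T := PiLp.continuousLinearEquiv 2 ℝ fun _ : Gen g => L
  let D : (Gen g → K) → PiLp 2 (fun _ : Gen g => L) →L[ℝ] L := fun x =>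
    LinearMap.toContinuousLinearMap (C.cv x (relator g) ∘ₗ T.toLinearMap)
  let p : (Gen g → K) → (Gen g → L) →ₗ[ℝ] (Gen g → L) := fun x =>
    T.toLinearMap ∘ₗ (LinearMap.ker (D x).toLinearMap).starProjection.toLinearMap ∘ₗ
      T.symm.toLinearMap
  have hp1 : ∀ x v, p x v ∈ C.Z1 x := fun x v =>
    (LinearMap.ker (D x).toLinearMap).starProjection_apply_mem (T.symm v)
  have hp2 : ∀ x, ∀ v ∈ C.Z1 x, p x v = v := fun x v hv =>
    (congrArg T (Submodule.starProjection_eq_self_iff.2 (show T.symm v ∈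
      LinearMap.ker (D x).toLinearMap from hv))).trans (T.apply_symm_apply v)
  have hp3 : ∀ v, Measurable fun x => p x v := fun v =>
    T.continuous.measurable.comp (meas_proj (fun w => ((C.cont_cv (relator g)).comp
      (f := fun x => (x, T w)) (by fun_prop)).measurable) _)
  let b := finBasis ℝ (Gen g → L)
  let M : (Gen g → K) → EuclideanSpace ℝ (C.JI I k) →L[ℝ] ((Fin k → Fin _) → ℝ) := fun x =>
    ContinuousLinearMap.pi fun r => ∑ i, C.wJ I x i (fun j => p x (b (r j))) • EuclideanSpace.proj i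
  let c : (Gen g → K) → (Fin k → Fin _) → ℝ := fun x r => F (C.emb x) fun j => p x (b (r j))
  have hM : ∀ x (β : (Gen g → L) [⋀^Fin k]→ₗ[ℝ] ℝ) f, M x f = (fun r => β fun j => p x (b (r j))) ↔
      ∀ u : Fin k → C.Z1 x, β (fun j => u j) = ∑ i, f i * C.wJ I x i fun j => u j := by
    intro x β f
    choose γ hγ using C.wJ_multi (k := k) I x
    have h1 := multi_eq_zero b (p x) (β.toMultilinearMap - ∑ i, f i • γ i)
    simp only [MultilinearMap.sub_apply, MultilinearMap.sum_apply, MultilinearMap.smul_apply, hγ,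
      sub_eq_zero, AlternatingMap.coe_multilinearMap, smul_eq_mul] at h1
    rw [funext_iff]
    refine Iff.trans (forall_congr' fun r => ?_) (h1.trans ⟨fun h u => ?_, fun h u => ?_⟩)
    · simp [M, mul_comm, eq_comm]
    · simpa only [hp2 x _ (u _).2] using h fun j => u j
    · exact h fun j => ⟨_, hp1 x (u j)⟩
  refine ⟨fun i => Function.extend C.emb (fun x => ms (M x) (c x) i) 0, fun i => ?_,
    fun x hx => ?_, fun x y e he h1 h2 i => ?_⟩
  · refine hme.measurable_extend ((EuclideanSpace.proj i).continuous.measurable.comp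
      (meas_ms' (fun f => measurable_pi_lambda _ fun r => ?_) (measurable_pi_lambda _ fun r => ?_)))
      measurable_const
    · simp only [M, ContinuousLinearMap.pi_apply, ContinuousLinearMap.sum_apply,
        ContinuousLinearMap.smul_apply]
      exact Finset.measurable_sum _ fun i _ => ((C.cont_wJ I i).measurable.comp
        (measurable_id.prodMk (measurable_pi_lambda _ fun j => hp3 _))).smul_const _
    · exact meas_alt (α := fun x => F (C.emb x)) (fun v => (hF v).comp hme.measurable)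
        fun j => hp3 _
  · simp only [C.emb_inj.extend_apply]
    obtain ⟨f, hf⟩ := hx.sol
    exact (hM x _ _).1 (ms_sol ⟨WithLp.toLp 2 f, (hM x _ _).2 hf⟩)
  · simp only [C.emb_inj.extend_apply]
    have h3 : ∀ i (u : Fin k → C.Z1 x), C.wJ I y i (fun j => e (u j)) = C.wJ I x i fun j => u j :=
      fun i u => by simp only [Ctx.wJ, wedge, h1]
    rw [ms_congr (A' := M x) (b' := c x) (fun f => ?_) fun f => ?_]
    · refine (hM y 0 f).trans (Iff.trans ?_ (hM x 0 f).symm)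
      rw [(Function.Surjective.piMap fun _ : Fin k => he).forall]
      simp only [Pi.map_apply, h3, AlternatingMap.zero_apply]
    · rw [hM, hM, (Function.Surjective.piMap fun _ : Fin k => he).forall]
      simp only [Pi.map_apply, h3, h2]

end Amb

end Pool.Agent.Lib.MP_d52947_gt
end

-- part Pool.Agent.Lib.MP_d52947_gt.Bridge
section

/-! Representations of the surface group and tuples. -/

namespace Pool.Agent.Lib.MP_d52947_gt

open Module
open scoped RealInnerProductSpace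

variable {g : ℕ}

/-- the quotient map -/
abbrev mkS : FG g →* Surf g := PresentedGroup.mk _

theorem mkS_rel : mkS (relator g) = 1 := PresentedGroup.one_of_mem rfl

/-- descending a homomorphism -/
def desc {G : Type} [Group G] (f : FG g →* G) (h : f (relator g) = 1) : Surf g →* G :=
  PresentedGroup.toGroup (f := fun i => f (.of i)) (by
    rintro r rfl
    rwa [show FreeGroup.lift (fun i => f (.of i)) = f from FreeGroup.ext_hom _ _ fun i => by simp])

theorem desc_mk {G : Type} [Group G] (f : FG g →* G) (h) (w : FG g) : desc f h (mkS w) = f w :=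
  DFunLike.congr_fun (show (desc f h).comp mkS = f from
    FreeGroup.ext_hom _ _ fun i => by
      change desc f h (PresentedGroup.of i) = _
      rw [desc, PresentedGroup.toGroup.of]) w

/-- the induced endomorphism -/
def bar0 (φ : AutR g) : Surf g →* Surf g :=
  desc (mkS.comp φ.1.toMonoidHom) ((congrArg mkS φ.2).trans mkS_rel)

theorem bar0_mk (φ : AutR g) (w : FG g) : bar0 φ (mkS w) = mkS (φ.1 w) :=
  desc_mk (mkS.comp φ.1.toMonoidHom) _ w

theorem bar0_inv (φ : AutR g) : (bar0 φ⁻¹).comp (bar0 φ) = MonoidHom.id _ := by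
  refine MonoidHom.ext fun s => ?_
  obtain ⟨w, rfl⟩ := PresentedGroup.mk_surjective _ s
  rw [MonoidHom.comp_apply, bar0_mk, bar0_mk, ← AutR.mul_apply, inv_mul_cancel]
  rfl

/-- the induced automorphism -/
def bar (φ : AutR g) : Surf g ≃* Surf g :=
  MonoidHom.toMulEquiv (bar0 φ) (bar0 φ⁻¹) (bar0_inv φ) (by simpa using bar0_inv φ⁻¹)

theorem bar_mk (φ : AutR g) (w : FG g) : bar φ (mkS w) = mkS (φ.1 w) := bar0_mk φ w

theorem isMod_bar (φ : AutR g) : IsMod (bar φ) := fun σ h => by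
  rw [fund_eq, fund_eq]
  simp only [bar_mk]
  exact fundF_comp (σ := fun v w => σ (mkS v) (mkS w))
    ⟨by simpa using h.1, fun a b c => by simpa using h.2 (mkS a) (mkS b) (mkS c)⟩
    φ.1.toMonoidHom φ.2

namespace Ctx

variable {L : Type} [NormedAddCommGroup L] [InnerProductSpace ℝ L] [FiniteDimensional ℝ L]
  {K : Type} [Group K] [TopologicalSpace K] [IsTopologicalGroup K] [CompactSpace K]
  [ConnectedSpace K] (C : Ctx L K)

/-- the tuple of a representation -/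
def tup (ρ : Surf g →* K) : Gen g → K := fun i => ρ (.of i)

theorem val_tup (ρ : Surf g →* K) (w : FG g) : val (tup ρ) w = ρ (mkS w) :=
  DFunLike.congr_fun (show val (tup ρ) = ρ.comp mkS from
    FreeGroup.ext_hom _ _ fun i => by simp [tup]; rfl) w

theorem tup_rel (ρ : Surf g →* K) : val (tup ρ) (relator g) = 1 := by
  rw [val_tup, mkS_rel, map_one]

theorem tup_inj : Function.Injective (tup : (Surf g →* K) → _) := fun _ _ h =>
  PresentedGroup.ext (congrFun h)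

theorem exists_tup {x : Gen g → K} (hx : val x (relator g) = 1) : ∃ ρ, tup ρ = x :=
  ⟨desc (val x) hx, funext fun i => (desc_mk _ _ (.of i)).trans (by simp)⟩

theorem tup_bar (φ : AutR g) (ρ : Surf g →* K) :
    tup (ρ.comp (bar φ).toMonoidHom) = act φ.1.toMonoidHom (tup ρ) :=
  funext fun i => (congrArg ρ (bar_mk φ (.of i))).trans (val_tup ρ _).symm

/-- cocycles on the surface group -/
def Coc (ρ : Surf g →* K) (u : Surf g → L) : Prop := ∀ x y, u (x * y) = u x + C.Ad (ρ x) (u y)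

variable {C}

theorem Coc.comp {ρ : Surf g →* K} {u : Surf g → L} (h : C.Coc ρ u) (ψ : Surf g ≃* Surf g) :
    C.Coc (ρ.comp ψ.toMonoidHom) fun x => u (ψ x) := fun a b => by
  simp only [map_mul, h (ψ a)]; rfl

theorem Coc.cv {ρ : Surf g →* K} {u : Surf g → L} (h : C.Coc ρ u) (w : FG g) :
    C.cv (tup ρ) w (fun i => u (.of i)) = u (mkS w) :=
  C.coc_ext (x := tup ρ) (f := fun w => C.cv (tup ρ) w fun i => u (.of i)) (f' := fun w => u (mkS w))
    (C.cv_mul _ _) (fun a b => by rw [map_mul, h, val_tup]) (fun i => by simp; rfl) w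

theorem Coc.mem {ρ : Surf g →* K} {u : Surf g → L} (h : C.Coc ρ u) :
    (fun i => u (.of i)) ∈ C.Z1 (tup ρ) := by
  rw [mem_Z1, h.cv, mkS_rel]
  simpa using h 1 1

theorem exists_coc {ρ : Surf g →* K} (v : C.Z1 (tup ρ)) :
    ∃ u, C.Coc ρ u ∧ (fun i => u (.of i)) = v := by
  let f : FG g →* C.SD :=
    { toFun := fun w => ⟨C.cv (tup ρ) w v, val (tup ρ) w⟩
      map_one' := by simp; rfl
      map_mul' := fun a b => by rw [SD.mul_def, cv_mul, map_mul] }
  have hf : f (relator g) = 1 := by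
    change (⟨_, _⟩ : C.SD) = ⟨0, 1⟩
    rw [C.mem_Z1.1 v.2, tup_rel]
  refine ⟨fun s => (desc f hf s).v, fun a b => ?_, funext fun i =>
    (congrArg SD.v (desc_mk f hf (.of i))).trans (C.cv_of _ _ i)⟩
  obtain ⟨a, rfl⟩ := PresentedGroup.mk_surjective _ a
  simp only [map_mul, SD.mul_def, desc_mk, ← val_tup]
  rfl

theorem omQ_coc (I : C.Ideals) (q : C.QI I) {ρ : Surf g →* K} {u v : Surf g → L} (hu : C.Coc ρ u)
    (hv : C.Coc ρ v) : C.omQ I (tup ρ) q (fun i => u (.of i)) (fun i => v (.of i)) =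
      fund fun x y => ⟪C.Q I q (u x), C.Ad (ρ x) (v y)⟫ := by
  rw [fund_eq, omQ, om_apply]
  simp only [C.cv_comm_map _ _ _ (C.Q_Ad I q), hu.cv, hv.cv, val_tup]

theorem omQ_mod (I : C.Ideals) (q : C.QI I) {ρ : Surf g →* K} {u v : Surf g → L} (hu : C.Coc ρ u)
    (hv : C.Coc ρ v) {ψ : Surf g ≃* Surf g} (hψ : IsMod ψ) :
    C.omQ I (tup (ρ.comp ψ.toMonoidHom)) q (fun i => u (ψ (.of i))) (fun i => v (ψ (.of i))) =
      C.omQ I (tup ρ) q (fun i => u (.of i)) (fun i => v (.of i)) := by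
  rw [omQ_coc I q hu hv, omQ_coc I q (hu.comp ψ) (hv.comp ψ)]
  refine hψ (fun x y => ⟪C.Q I q (u x), C.Ad (ρ x) (v y)⟫) ⟨?_, fun a b c => ?_⟩
  · have : u 1 = 0 := by simpa using hu 1 1
    simp [this]
  · simp only [hu a b, hv b c, map_mul, map_add, inner_add_left, inner_add_right, Q_Ad,
      ContinuousLinearMap.mul_apply, C.inner_Ad]
    ring

theorem exists_mod (I : C.Ideals) (ρ : Surf g →* K) {ψ : Surf g ≃* Surf g} (hψ : IsMod ψ) :
    ∃ e : C.Z1 (tup ρ) → C.Z1 (tup (ρ.comp ψ.toMonoidHom)), Function.Surjective e ∧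
      (∀ q u v, C.omQ I (tup (ρ.comp ψ.toMonoidHom)) q (e u) (e v) = C.omQ I (tup ρ) q u v) ∧
      ∀ v, ∃ u, C.Coc ρ u ∧ (fun i => u (.of i)) = v.1 ∧ (fun i => u (ψ (.of i))) = (e v).1 := by
  choose c h1 h2 using exists_coc (C := C) (ρ := ρ)
  refine ⟨fun v => ⟨fun i => c v (ψ (.of i)), ((h1 v).comp ψ).mem⟩,
    fun v => ?_, fun q u v => ?_, fun v => ⟨_, h1 v, h2 v, rfl⟩⟩
  · obtain ⟨u, hu, e⟩ := exists_coc v
    have h3 : C.Coc ρ fun x => u (ψ.symm x) := fun a b => by simp [map_mul, hu (ψ.symm a)]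
    refine ⟨⟨_, h3.mem⟩, Subtype.ext (funext fun i => ?_)⟩
    obtain ⟨w, hw⟩ := PresentedGroup.mk_surjective _ (ψ (.of i))
    simp only [← hw]
    rw [← (h1 _).cv, h2, h3.cv, hw, MulEquiv.symm_apply_apply, ← e]
  · rw [omQ_mod I q (h1 u) (h1 v) hψ, h2, h2]

theorem val_conj {G : Type} (c : K) (x : G → K) (w : FreeGroup G) :
    val (fun i => c * x i * c⁻¹) w = c * val x w * c⁻¹ :=
  DFunLike.congr_fun (show val (fun i => c * x i * c⁻¹) = (MulAut.conj c).toMonoidHom.comp (val x)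
    from FreeGroup.ext_hom _ _ fun i => by simp) w

theorem cv_conjT {G : Type} (c : K) (x : G → K) (u : G → L) (w : FreeGroup G) :
    C.cv (fun i => c * x i * c⁻¹) w (fun i => C.Ad c (u i)) = C.Ad c (C.cv x w u) :=
  C.coc_ext (x := fun i => c * x i * c⁻¹) (f := fun w => C.cv _ w fun i => C.Ad c (u i))
    (f' := fun w => C.Ad c (C.cv x w u)) (C.cv_mul _ _)
    (fun a b => by simp [cv_mul, val_conj]) (fun i => by simp) w

theorem omQ_conj (I : C.Ideals) (q : C.QI I) (c : K) (x : Gen g → K) (u v : Gen g → L) :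
    C.omQ I (fun i => c * x i * c⁻¹) q (fun i => C.Ad c (u i)) (fun i => C.Ad c (v i)) =
      C.omQ I x q u v := by
  simp only [omQ, om_apply, Q_Ad, cv_conjT c x (fun s => C.Q I q (u s)), cv_conjT, val_conj,
    Ad_mul_apply, Ad_inv_Ad, C.inner_Ad]

variable (C)

/-- smooth points -/
def Sm (x : Gen g → K) : Prop := val x (relator g) = 1 ∧ C.IsAb (C.cen x (List.finRange g)) ∧
  (2 ≤ g → C.cen x (List.finRange g) ≤ C.Z)

end Ctx

namespace Amb

variable {L : Type} [NormedAddCommGroup L] [InnerProductSpace ℝ L] [FiniteDimensional ℝ L]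
  {K : Type} [Group K] [TopologicalSpace K] [IsTopologicalGroup K] [CompactSpace K]
  [ConnectedSpace K] {A : Type} [NormedRing A] [NormedAlgebra ℝ A] [FiniteDimensional ℝ A]
  [CompleteSpace A] [MeasurableSpace A] [BorelSpace A] (C : Amb L K A) {k : ℕ}

/-- almost everywhere on the smooth locus -/
def AeS (P : (Gen g → K) → Prop) : Prop :=
  ∀ d, C.Nul d {x | C.Sm x ∧ finrank ℝ (C.Z1 x) = d ∧ ¬ P x}

theorem sm_iff {x : Gen (g + 2) → K} : C.Sm x ↔ x ∈ C.Rirr (g + 2) :=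
  ⟨fun h => ⟨h.1, h.2.2 (by omega)⟩, fun h => ⟨h.1, fun a ha b _ => by
    rw [C.mem_Z.1 (h.2 ha)]; rfl, fun _ => h.2⟩⟩

theorem aeS_iff {P : (Gen (g + 2) → K) → Prop} : C.AeS P ↔ C.Ae P := by
  refine ⟨fun h => (h _).mono fun x hx => ⟨C.sm_iff.2 hx.1, C.finrank_Z1_irr hx.1, hx.2⟩,
    fun h d => ?_⟩
  by_cases hd : d = C.d0 (g + 2)
  · exact hd ▸ Nul.mono h fun x hx => ⟨C.sm_iff.1 hx.1, hx.2.2⟩
  · convert (show C.Nul d (∅ : Set (Gen (g + 2) → K)) by simp [Nul])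
    exact Set.eq_empty_of_forall_notMem fun x hx =>
      hd (hx.2.1.symm.trans (C.finrank_Z1_irr (C.sm_iff.1 hx.1)))

variable [MeasurableSpace L] [BorelSpace L]

theorem aeS_high (I : C.Ideals)
    (F : (Gen (g + 2) → A) → (Gen (g + 2) → L) [⋀^Fin k]→ₗ[ℝ] ℝ) (hF : ∀ v, Measurable (F · v))
    (hor : ∀ x, C.Sm x → C.Hor (F ∘ C.emb) x) (hi : ∀ φ, C.AeS (C.Inv (F ∘ C.emb) φ)) :
    C.AeS fun x => C.Concl I x (F (C.emb x)) :=
  C.aeS_iff.2 (((C.ae_high I F hF fun x hx => hor x (C.sm_iff.2 hx)).and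
    (Ae.all fun φ => C.aeS_iff.1 (hi φ)).act).mono fun _ _ h => h.1 h.2)

end Amb

end Pool.Agent.Lib.MP_d52947_gt
end

-- part Pool.Agent.Lib.MP_d52947_gt.OneB
section

/-! Genus one: the algebra at a point. -/

namespace Pool.Agent.Lib.MP_d52947_gt

open Filter Topology Module
open scoped RealInnerProductSpace

theorem rel_one : relator 1 = hcomm 0 := by simp [relator]

theorem gen_one {P : Gen 1 → Prop} (ha : P (0, false)) (hb : P (0, true)) (p : Gen 1) : P p :=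
  gen_cases1 (g := 0) ha hb (fun j => j.elim0) p

namespace Ctx

variable {L : Type} [NormedAddCommGroup L] [InnerProductSpace ℝ L] [FiniteDimensional ℝ L]
  {K : Type} [Group K] [TopologicalSpace K] [IsTopologicalGroup K] [CompactSpace K]
  [ConnectedSpace K] (C : Ctx L K) {k : ℕ}

/-- centralizer of a pair -/
abbrev cs (x : Gen 1 → K) : Submodule ℝ L := C.cen x (List.finRange 1)

theorem mem_cs {x : Gen 1 → K} {θ : L} : θ ∈ C.cs x ↔ ∀ i, C.Ad (x i) θ = θ :=
  ⟨fun h i => h i.1 (List.mem_finRange _) i.2, fun h i _ s => h (i, s)⟩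

theorem val_one {x : Gen 1 → K} :
    val x (relator 1) = 1 ↔ x (0, false) * x (0, true) = x (0, true) * x (0, false) := by
  simp [rel_one, hcomm, mul_inv_eq_iff_eq_mul]

theorem comm_one {x : Gen 1 → K} (hx : val x (relator 1) = 1) (i j : Gen 1) : Commute (x i) (x j) := by
  revert i j
  exact gen_one (gen_one (Commute.refl _) (val_one.1 hx)) (gen_one (val_one.1 hx).symm (Commute.refl _))

theorem mem_Z1_cs {x : Gen 1 → K} {u : Gen 1 → L} (h : ∀ i, u i ∈ C.cs x) : u ∈ C.Z1 x := by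
  have h1 := fun i => C.mem_cs.1 (h i)
  have h2 : ∀ i j, C.Ad (x j)⁻¹ (u i) = u i := fun i j => by rw [← h1 i j, Ad_inv_Ad, h1]
  simp [mem_Z1, rel_one, cv_hcomm, h1, h2]

theorem om_cs {x : Gen 1 → K} {u : Gen 1 → L} (h : ∀ i, u i ∈ C.cs x) (v : Gen 1 → L) :
    C.om x u v = ⟪u (0, false), v (0, true)⟫ - ⟪u (0, true), v (0, false)⟫ := by
  have h1 := fun i => C.mem_cs.1 (h i)
  have h2 : ∀ i j, C.Ad (x j)⁻¹ (u i) = u i := fun i j => by rw [← h1 i j, Ad_inv_Ad, h1]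
  simp only [om_apply, fundF, Fin.sum_univ_one, Fin.val_zero, preF_zero, one_mul, cv_mul, cv_inv,
    cv_of, cv_one, map_mul, map_inv, FreeGroup.lift_apply_of, ContinuousLinearMap.mul_apply,
    inner_zero_left, map_neg, inner_neg_right, map_add, inner_Ad_right, inv_inv, h1, h2,
    inner_add_left, inner_neg_left, map_one, inv_one, ContinuousLinearMap.one_apply, zero_add, map_zero]
  ring

/-- cocycles with values in the centralizer -/
noncomputable def Es (x : Gen 1 → K) (i : Gen 1) : L →ₗ[ℝ] C.Z1 x :=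
  LinearMap.codRestrict _ (LinearMap.single ℝ (fun _ => L) i ∘ₗ (C.cs x).starProjection.toLinearMap)
    fun y => C.mem_Z1_cs fun j => by
      by_cases h : j = i
      · simp [h]
      · simp [h]

theorem Es_coe (x : Gen 1 → K) (i : Gen 1) (y : L) :
    (C.Es x i y).1 = Pi.single i ((C.cs x).starProjection y) := rfl

theorem Es_mem (x : Gen 1 → K) (i j : Gen 1) (y : L) : (C.Es x i y).1 j ∈ C.cs x := by
  by_cases h : j = i
  · simp [h, Es_coe]
  · simp [h, Es_coe]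

theorem proj_proj (x : Gen 1 → K) (y : L) :
    (C.cs x).starProjection ((C.cs x).starProjection y) = (C.cs x).starProjection y :=
  Submodule.starProjection_eq_self_iff.2 (Submodule.starProjection_apply_mem _ _)

theorem proj_del (x : Gen 1 → K) (η : L) (i : Gen 1) :
    (C.cs x).starProjection (η - C.Ad (x i) η) = 0 :=
  (Submodule.starProjection_apply_eq_zero_iff _).2 (Submodule.orthogonal_le
    (fun _ h => C.mem_Fix.2 (C.mem_cs.1 h i)) (C.pj_eq_zero_iff.1 (C.pj_sub_Ad _ η)))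

theorem finrank_Z1_one (x : Gen 1 → K) : finrank ℝ (C.Z1 x) = finrank ℝ L + finrank ℝ (C.cs x) := by
  have := C.finrank_Z1 x
  unfold cs; omega

theorem mem_B1_of_proj {x : Gen 1 → K} (hx : val x (relator 1) = 1) {u : C.Z1 x}
    (h : ∀ i, (C.cs x).starProjection (u.1 i) = 0) : u ∈ C.B1 x := by
  let f : C.Z1 x →ₗ[ℝ] (Gen 1 → C.cs x) :=
    (C.cs x).orthogonalProjection.toLinearMap.compLeft _ ∘ₗ (C.Z1 x).subtype
  have h1 := f.finrank_range_add_finrank_ker
  have h2 := (C.del x).finrank_range_add_finrank_ker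
  rw [LinearMap.range_eq_top.2 fun y => ⟨⟨fun i => y i, C.mem_Z1_cs fun i => (y i).2⟩, by
    ext i; simp [f]⟩, finrank_top, finrank_pi_fintype, finrank_Z1_one] at h1
  rw [show LinearMap.ker (C.del x) = C.cs x by
    ext; simp only [mem_cs, LinearMap.mem_ker, funext_iff, del_apply, Pi.zero_apply, sub_eq_zero]
    simp only [eq_comm]] at h2
  refine (Submodule.eq_of_le_of_finrank_le (S₂ := LinearMap.ker f) (fun v hv => ?_) ?_).ge
    (funext fun i => Subtype.ext (h i))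
  · obtain ⟨η, e⟩ := hv
    exact funext fun i => Subtype.ext (by
      simpa [f, ← show C.del x η = v.1 from e, del_apply] using C.proj_del x η i)
  · rw [B1, ← Submodule.finrank_map_subtype_eq _ (Submodule.comap _ _), Submodule.map_comap_subtype, inf_eq_right.2 (by
      rintro _ ⟨η, rfl⟩; exact C.del_mem_Z1 hx η)]
    simp at h1
    omega

theorem sub_mem_B1 {x : Gen 1 → K} (hx : val x (relator 1) = 1) (u : C.Z1 x) :
    u - (C.Es x (0, false) (u.1 (0, false)) + C.Es x (0, true) (u.1 (0, true))) ∈ C.B1 x :=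
  C.mem_B1_of_proj hx (gen_one (by simp [Es_coe, proj_proj]) (by simp [Es_coe, proj_proj]))

theorem pj_cs {x : Gen 1 → K} (hx : val x (relator 1) = 1) (u : C.Z1 x) (i : Gen 1) :
    C.pj (x i) (u.1 i) = (C.cs x).starProjection (u.1 i) := by
  obtain ⟨η, e⟩ := C.sub_mem_B1 hx u
  have h1 : η - C.Ad (x i) η = u.1 i - (C.cs x).starProjection (u.1 i) := by
    refine (C.del_apply x η i).symm.trans ((congrFun e i).trans ?_)
    revert i
    exact gen_one (by simp [Es_coe]) (by simp [Es_coe])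
  have h2 := C.pj_sub_Ad (x i) η
  rwa [h1, map_sub, sub_eq_zero, C.pj_of_mem (C.mem_Fix.2 (C.mem_cs.1
    ((C.cs x).starProjection_apply_mem _) i))] at h2

theorem omZ_Ea (x : Gen 1 → K) (y : L) (v : C.Z1 x) :
    C.omZ x (C.Es x (0, false) y) v = ⟪(C.cs x).starProjection y, v.1 (0, true)⟫ := by
  rw [omZ_apply, C.om_cs (C.Es_mem x _ · y)]; simp [Es_coe]

theorem omZ_Eb (x : Gen 1 → K) (y : L) (v : C.Z1 x) :
    C.omZ x (C.Es x (0, true) y) v = -⟪(C.cs x).starProjection y, v.1 (0, false)⟫ := by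
  rw [omZ_apply, C.om_cs (C.Es_mem x _ · y)]; simp [Es_coe]

/-- a component of a cocycle -/
noncomputable def co (x : Gen 1 → K) (i : Gen 1) : C.Z1 x →ₗ[ℝ] L :=
  LinearMap.proj i ∘ₗ (C.Z1 x).subtype

variable {C}

theorem point_one {I : C.Ideals} {x : Gen 1 → K} (hx : C.Sm x) {α : C.Z1 x [⋀^Fin k]→ₗ[ℝ] ℝ}
    (hor : ∀ (u : Fin k → C.Z1 x) j, u j ∈ C.B1 x → α u = 0)
    (h1 : C.Es x (0, true) ∘ₗ C.co x (0, false) ∈ stab α)
    (h2 : C.Es x (0, false) ∘ₗ C.co x (0, true) ∈ stab α)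
    (hr : ∀ γ ∈ C.Wt (C.cs x), ∀ v, α (fun j => v j -
      (2 * (⟪γ, (v j).1 (0, false)⟫ / ⟪γ, γ⟫)) • C.Es x (0, false) γ -
      (2 * (⟪γ, (v j).1 (0, true)⟫ / ⟪γ, γ⟫)) • C.Es x (0, true) γ) = α v) :
    (α : (Fin k → C.Z1 x) → ℝ) ∈ Submodule.span ℝ
      {w | ∃ (m : ℕ) (e : Fin m × Bool ≃ Fin k) (c : Fin m → C.QI I),
        w = wedge e fun j (u v : C.Z1 x) => C.omQ I x (c j) u v} := by
  have hP := fun y => (C.cs x).inner_starProjection_left_eq_right y
  have hrad : ∀ v, (∀ u, C.omZ x v u = 0) → v ∈ C.B1 x := fun v hv =>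
    C.mem_B1_of_proj hx.1 (gen_one (ext_inner_left ℝ fun y => by
      simpa [omZ_skew _ _ v, omZ_Eb, hP] using hv (C.Es x (0, true) y)) (ext_inner_left ℝ fun y => by
      simpa [omZ_skew _ _ v, omZ_Ea, hP] using hv (C.Es x (0, false) y)))
  have h3 : ∀ {γ}, γ ∈ C.Wt (C.cs x) → (C.cs x).starProjection γ = γ := fun h =>
    Submodule.starProjection_eq_self_iff.2 (C.Wt_mem h)
  have h4 : ∀ γ ∈ C.Wt (C.cs x), ∀ i, spX (C.omZ x) (C.Es x i γ) (C.Es x i γ) ∈ stab α := by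
    intro γ hγ
    have h5 := inner_self_ne_zero (𝕜 := ℝ).2 hγ.1
    let l : Gen 1 → C.Z1 x →ₗ[ℝ] ℝ := fun i => ⟪γ, γ⟫⁻¹ • innerₗ L γ ∘ₗ C.co x i
    have hl : ∀ i u, l i u = ⟪γ, u.1 i⟫ / ⟪γ, γ⟫ := fun i u => by simp [l, co, div_eq_inv_mul]
    refine gen_one ?_ ?_
    · convert (stab α).smul_mem (2 * ⟪γ, γ⟫) (refl_nil (l := l (0, false)) (m := l (0, true))
        (h := C.Es x (0, false) γ) (z := C.Es x (0, true) γ)
        (by simp [hl, Es_coe]) (by simp [hl, Es_coe, h3 hγ, hγ.1]) (by simp [hl, Es_coe, h3 hγ, hγ.1])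
        (by simp [hl, Es_coe]) (by simpa only [hl] using hr γ hγ)) using 1
      ext1 u
      simp only [spX_apply, omZ_Ea, h3 hγ, LinearMap.smul_apply, LinearMap.smulRight_apply, hl]
      match_scalars; field_simp; ring
    · convert (stab α).smul_mem (-2 * ⟪γ, γ⟫) (refl_nil (l := l (0, true)) (m := l (0, false))
        (h := C.Es x (0, true) γ) (z := C.Es x (0, false) γ)
        (by simp [hl, Es_coe]) (by simp [hl, Es_coe, h3 hγ, hγ.1]) (by simp [hl, Es_coe, h3 hγ, hγ.1])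
        (by simp [hl, Es_coe]) (by simpa only [hl, sub_right_comm] using hr γ hγ)) using 1
      ext1 u
      simp only [spX_apply, omZ_Eb, h3 hγ, LinearMap.smul_apply, LinearMap.smulRight_apply, hl]
      match_scalars; field_simp; ring
  have hsI : ∀ i, ∀ ξ ∈ C.cs x, I.p i ξ ∈ C.cs x := fun i ξ h =>
    C.mem_cs.2 fun j => by rw [← I.p_Ad, C.mem_cs.1 h]
  have hs : ∀ i h, C.pZ I x i h = h → spX (C.omZ x) h h ∈ stab α := by
    intro i h hh
    let R := Submodule.span ℝ {γ ∈ C.Wt (C.cs x) | I.p i γ = γ}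
    have hR : ∀ j, (C.cs x).starProjection (h.1 j) ∈ R := fun j => by
      have a1 : R ≤ C.cs x ⊓ LinearMap.eqLocus (I.p i).toLinearMap .id :=
        Submodule.span_le.2 fun γ hγ => ⟨C.Wt_mem hγ.1, hγ.2⟩
      set y := (C.cs x).starProjection (h.1 j) with hy
      have a2 : I.p i y = y := by
        rw [hy, ← proj_comm _ (hsI i) fun y hy z hz => by rw [← I.p_symm, hy _ (hsI i z hz)]]
        exact congrArg _ (congrFun (congrArg Subtype.val hh) j)
      have a3 := a1 (R.starProjection_apply_mem y)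
      have a4 : I.p i (y - R.starProjection y) = y - R.starProjection y := by
        rw [map_sub, a2, show I.p i _ = _ from a3.2]; rfl
      rw [I.p_Z i _ (C.mem_Z_of_Wt hx.2.1 (Submodule.sub_mem _ ((C.cs x).starProjection_apply_mem _) a3.1)
        fun γ hγ => ?_), eq_comm, sub_eq_zero] at a4
      · rw [a4]; exact R.starProjection_apply_mem y
      obtain ⟨l, hl⟩ := C.Wt_ideal I hsI hγ
      by_cases e : l = i
      · exact R.sub_starProjection_mem_orthogonal y γ (Submodule.subset_span ⟨hγ, e ▸ hl⟩)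
      · rw [← a4, ← I.p_symm, ← hl, I.p_orth i l (Ne.symm e), inner_zero_left]
    obtain ⟨U, a1, a2⟩ : ∃ U, Full (C.omZ x) (stab α) U ∧ ∀ γ ∈ C.Wt (C.cs x), I.p i γ = γ →
        ∀ j, C.Es x j γ ∈ U := by
      by_cases h0 : ∃ γ ∈ C.Wt (C.cs x), I.p i γ = γ
      swap
      · exact ⟨⊥, full_of_sq _ fun z hz => by simp [show z = 0 from hz, spX], fun γ a b => (h0 ⟨γ, a, b⟩).elim⟩
      obtain ⟨γ, a, b⟩ := h0
      obtain ⟨U, c1, c2, c3⟩ := exists_full_max (fun _ hX _ hY => stab_lie hX hY) (C.omZ_skew x)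
        (U₀ := Submodule.span ℝ {C.Es x (0, false) γ}) (full_of_sq _ fun z hz => by
          obtain ⟨c, rfl⟩ := Submodule.mem_span_singleton.1 hz
          rw [spX_smul, spX_comm, spX_smul]
          exact Submodule.smul_mem _ _ (Submodule.smul_mem _ _ (h4 γ a _)))
      have c4 : ∀ {γ δ}, γ ∈ C.Wt (C.cs x) → δ ∈ C.Wt (C.cs x) → ⟪γ, δ⟫ ≠ 0 →
          (C.Es x (0, false) γ ∈ U → C.Es x (0, true) δ ∈ U) ∧
            (C.Es x (0, true) γ ∈ U → C.Es x (0, false) δ ∈ U) := fun a b c =>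
        ⟨fun d => c3 _ (h4 _ b _) ⟨_, d, by simpa [omZ_Ea, Es_coe, h3 a, h3 b] using c⟩,
          fun d => c3 _ (h4 _ b _) ⟨_, d, by simpa [omZ_Eb, Es_coe, h3 a, h3 b] using c⟩⟩
      have c5 := c1 (Submodule.mem_span_singleton_self _)
      refine ⟨U, c2, fun δ d e => (C.Wt_irred I hx.2.1 hsI i
        {γ | (∀ j, C.Es x j γ ∈ U) ∧ γ ∈ C.Wt (C.cs x) ∧ I.p i γ = γ} (fun _ h => h.2)
        ⟨γ, gen_one c5 ((c4 a a (inner_self_ne_zero.2 a.1)).1 c5), a, b⟩ (fun γ hγ δ hδ h =>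
          ⟨gen_one ((c4 hγ.2.1 hδ h).2 (hγ.1 _)) ((c4 hγ.2.1 hδ h).1 (hγ.1 _)), hδ, ?_⟩) δ d e).1⟩
      obtain ⟨l, hl⟩ := C.Wt_ideal I hsI hδ
      by_cases e : l = i
      · exact e ▸ hl
      · exact absurd (by rw [← hl, ← I.p_symm, ← hγ.2.2, I.p_orth l i e, inner_zero_left]) h
    have a3 : ∀ j, C.Es x j (h.1 j) ∈ U := fun j => by
      rw [show C.Es x j (h.1 j) = C.Es x j ((C.cs x).starProjection (h.1 j)) from
        Subtype.ext (by simp [Es_coe, proj_proj])]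
      exact Submodule.span_le (p := U.comap (C.Es x j)).2 (fun γ hγ => a2 γ hγ.1 hγ.2 j) (hR j)
    have a4 := C.sub_mem_B1 hx.1 h
    have a5 := U.add_mem (a3 (0, false)) (a3 (0, true))
    refine stab_of_sub (mem_stab_of_range hor fun u => ?_) (a1 _ a5 _ a5)
    have a6 := C.omZ_B1 a4 u
    generalize C.Es x (0, false) _ + _ = z at a4 a6
    rw [map_sub, LinearMap.sub_apply, sub_eq_zero] at a6
    convert Submodule.smul_mem _ (2 * C.omZ x z u) a4 using 1
    simp only [LinearMap.sub_apply, spX_apply, a6]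
    module
  refine point_final hor hrad hs (full_top_of_gens (g := 0) (S := (stab α).comap (C.Lam x))
    (fun X hX Y hY => ?_) (gen_one ?_ ?_) fun i => i.elim0)
  · rw [Submodule.mem_comap, map_sub, Lam_mul, Lam_mul]; exact stab_lie hX hY
  · refine Lam_curve hor hrad hs (e := (gb 0)⁻¹) (T := C.Es x (0, false)) ⟨fun ξ v => ?_, ?_⟩
      (LinearMap.ext fun w => by simp [omV_single_a])
    · rw [dI_inv]; simp [omZ_Ea, dI_apply, C.pj_cs hx.1, hP]
    · convert (stab α).smul_mem (-1 : ℝ) h2 using 1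
      exact LinearMap.ext fun v => Subtype.ext (by rw [LinearMap.comp_apply, dI_inv]; simp [dI_apply, C.pj_cs hx.1, Es_coe, co, proj_proj])
  · refine Lam_curve hor hrad hs (e := ga 0) (T := C.Es x (0, true)) ⟨fun ξ v => ?_, ?_⟩
      (LinearMap.ext fun w => by simp [omV_single_b])
    · simp [omZ_Eb, dI_apply, C.pj_cs hx.1, hP]
    · convert h1 using 1
      exact LinearMap.ext fun v => Subtype.ext (by simp [dI_apply, C.pj_cs hx.1, Es_coe, co, proj_proj])

theorem exists_refl_pt {x : Gen 1 → K} (hx : C.Sm x) {γ : L} (hγ : γ ∈ C.Wt (C.cs x)) :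
    ∃ (c : K) (σ : Gen 1 → L), (∀ i, σ i ∈ C.cs x ∧ C.ex (σ i) * x i * c = c * (C.ex (σ i) * x i)) ∧
      ∀ ξ ∈ C.cs x, C.Ad c ξ = ξ - (2 * ⟪γ, ξ⟫ / ⟪γ, γ⟫) • γ := by
  have h1 := inner_self_ne_zero (𝕜 := ℝ).2 hγ.1
  have h2 := C.mem_cs.1 (C.Wt_mem hγ)
  have hc : ∀ i j y, C.Ad (x i) (C.Ad (x j) y) = C.Ad (x j) (C.Ad (x i) y) := fun i j y => by
    rw [← Ad_mul_apply, ← Ad_mul_apply, comm_one hx.1 i j]
  have ha : ∀ i y, C.Ad (x i) (C.ad γ y) = C.ad γ (C.Ad (x i) y) := fun i y => by rw [C.Ad_ad, h2]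
  let W : Submodule ℝ L :=
    { carrier := {y | ∃ Y, C.WP (C.cs x) γ y Y}
      add_mem' := fun ⟨_, a⟩ ⟨_, b⟩ => ⟨_, a.add b⟩
      zero_mem' := ⟨0, C.Wt_mem hγ, by simp⟩
      smul_mem' := fun c _ ⟨_, a⟩ => ⟨_, a.smul c⟩ }
  obtain ⟨U, a1, a2, a3, a4⟩ := exists_min (W := W)
    (P := fun U => (∀ i, ∀ y ∈ U, C.Ad (x i) y ∈ U) ∧ ∀ y ∈ U, C.ad γ y ∈ U)
    ⟨fun i y ⟨Y, a⟩ => ⟨_, a.map _ fun ξ h y => by rw [C.Ad_ad, C.mem_cs.1 h]⟩, fun y ⟨Y, a⟩ => by
      rw [(a.2 γ a.1).1, ← smul_neg]; exact W.smul_mem _ ⟨_, a.rot⟩⟩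
    (by obtain ⟨X, Y, a, b⟩ := hγ.2; exact (Submodule.ne_bot_iff _).2 ⟨X, ⟨Y, b⟩, a⟩)
  have sc : ∀ S : L →L[ℝ] L, (∀ u v, ⟪S u, v⟫ = ⟪u, S v⟫) → (∀ y ∈ U, S y ∈ U) →
      (∀ i y, S (C.Ad (x i) y) = C.Ad (x i) (S y)) → (∀ y, S (C.ad γ y) = C.ad γ (S y)) →
      ∃ c : ℝ, ∀ y ∈ U, S y = c • y := fun S b1 b2 b3 b4 => by
    obtain ⟨c, y, b5, b6, b7⟩ := exists_eig a3 S b1 b2
    rcases a4 (U ⊓ LinearMap.eqLocus S.toLinearMap (c • .id)) inf_le_left
      ⟨fun i y hy => ⟨a2.1 i y hy.1, (b3 i y).trans ((congrArg _ hy.2).trans (map_smul _ _ _))⟩,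
        fun y hy => ⟨a2.2 y hy.1, (b4 y).trans ((congrArg _ hy.2).trans (map_smul _ _ _))⟩⟩ with h | h
    · exact absurd (h.le ⟨b5, b7⟩) b6
    · exact ⟨c, fun y hy => (h.ge hy).2⟩
  obtain ⟨X, hX, h0⟩ := Submodule.exists_mem_ne_zero_of_ne_bot a3
  obtain ⟨Y, H⟩ := a1 hX
  have key : ∀ i, ∃ σ ∈ C.cs x, C.Ad (C.ex σ * x i) X = X ∧ C.Ad (x i) (C.ad X Y) = C.ad X Y := by
    intro i
    have hc' := fun j => C.comm_inv (S := C.Ad (x j)) (hc j i)
    have ha' := C.comm_inv (S := C.ad γ) fun y => (ha i y).symm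
    obtain ⟨c₁, b1⟩ := sc (C.Ad (x i) + C.Ad (x i)⁻¹)
      (fun u v => by simp [inner_add_left, inner_add_right, inner_Ad_left, add_comm])
      (fun y hy => U.add_mem (a2.1 i y hy) (C.norm_inv (a2.1 i) y hy))
      (fun j y => by simp [hc i j, hc']) fun y => by simp [ha, ha']
    obtain ⟨c₂, b2⟩ := sc (C.ad γ * (C.Ad (x i) - C.Ad (x i)⁻¹))
      (fun u v => by
        simp [inner_sub_left, inner_sub_right, inner_Ad_left, C.inner_ad, ha, ← ha']; ring)
      (fun y hy => a2.2 _ (U.sub_mem (a2.1 i y hy) (C.norm_inv (a2.1 i) y hy)))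
      (fun j y => by simp [hc i j, hc', ha]) fun y => by simp [ha, ha']
    have b3 := b1 X hX
    have b4 := congrArg (C.ad γ) (b2 X hX)
    simp only [ContinuousLinearMap.add_apply, ContinuousLinearMap.mul_apply,
      ContinuousLinearMap.sub_apply, map_sub, ← ha, ha', H.2 γ H.1, map_neg, map_smul] at b3 b4
    obtain ⟨p, q, b5⟩ : ∃ p q : ℝ, C.Ad (x i) X = p • X - q • Y :=
      ⟨c₁ / 2, -c₂ / (2 * ⟪γ, γ⟫), smul_right_injective L (mul_ne_zero h1 h1) (by
        have : ⟪γ, γ⟫ * ⟪γ, γ⟫ * (-c₂ / (2 * ⟪γ, γ⟫)) = -c₂ * ⟪γ, γ⟫ / 2 := by field_simp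
        simp only [smul_sub, smul_smul, this]
        linear_combination (norm := module) (⟪γ, γ⟫ * ⟪γ, γ⟫ / 2) • b3 - (1 / 2 : ℝ) • b4)⟩
    have b6 : C.Ad (x i) Y = q • X + p • Y := smul_right_injective L h1 (by
      have := ha i X
      simp only [b5, H.2 γ H.1, map_neg, map_smul, map_sub] at this
      linear_combination (norm := module) -this)
    have b7 : p ^ 2 + q ^ 2 = 1 := mul_right_cancel₀ (inner_self_ne_zero (𝕜 := ℝ).2 h0) (by
      have := C.inner_Ad (x i) X X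
      simp only [b5, inner_sub_left, inner_sub_right, real_inner_smul_left, real_inner_smul_right,
        H.perp hγ.1, real_inner_comm X Y, ← H.same H hγ.1] at this
      linear_combination this)
    have b8 : ‖(⟨p, q⟩ : ℂ)‖ = 1 := by
      rw [Complex.norm_def, Complex.normSq_mk, show p * p + q * q = 1 by linarith, Real.sqrt_one]
    have b9 := Complex.cos_arg (x := ⟨p, q⟩) (norm_ne_zero_iff.1 (by simp [b8]))
    have b10 := Complex.sin_arg ⟨p, q⟩
    have hσ := (C.cs x).smul_mem (-(Complex.arg ⟨p, q⟩) / ⟪γ, γ⟫) H.1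
    have c1 := H.Ad_ex hσ
    have c2 := H.rot.Ad_ex hσ
    rw [map_neg, neg_eq_iff_eq_neg] at c2
    simp only [real_inner_smul_right, div_mul_cancel₀ _ h1, Real.cos_neg, Real.sin_neg, b9, b10, b8,
      div_one] at c1 c2
    refine ⟨_, hσ, ?_, ?_⟩
    · rw [Ad_mul_apply, b5, map_sub, map_smul, map_smul, c1, c2]
      linear_combination (norm := module) b7 • X
    · simp only [C.Ad_ad, b5, b6, map_sub, map_add, map_smul, ContinuousLinearMap.sub_apply,
        ContinuousLinearMap.smul_apply, C.ad_self, C.ad_swap Y X]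
      linear_combination (norm := module) b7 • C.ad X Y
  choose σ b1 b2 b3 using key
  obtain ⟨t, ht⟩ := C.refl_lift H hγ.1 h0 (C.mem_cs.2 b3)
  exact ⟨_, σ, fun i => ⟨b1 i, C.ex_comm (Submodule.smul_mem _ t (C.mem_Fix.2 (b2 i)))⟩, ht⟩

variable (C)

theorem exists_log_cs (x : Gen 1 → K) :
    ∀ᶠ k in 𝓝 (1 : K), (∀ i, x i * k = k * x i) → ∃ ζ ∈ C.cs x, ‖ζ‖ < 1 ∧ C.ex ζ = k := by
  obtain ⟨U, hU, hi⟩ := C.ex_inj
  obtain ⟨δ, hδ, hb⟩ := Metric.mem_nhds_iff.1 hU
  filter_upwards [C.ex_nhds _ (Metric.ball_mem_nhds 0 (lt_min hδ one_pos))]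
  rintro _ ⟨ζ, hζ, rfl⟩ h
  rw [mem_ball_zero_iff, lt_min_iff] at hζ
  refine ⟨ζ, C.mem_cs.2 fun i => hi (hb ?_) (hb ?_) ?_, hζ.2, rfl⟩
  · rw [mem_ball_zero_iff, norm_Ad]; exact hζ.1
  · rw [mem_ball_zero_iff]; exact hζ.1
  · rw [← C.ex_conj, h, mul_inv_cancel_right]

theorem comm_cs {x : Gen 1 → K} {z : L} (hz : z ∈ C.cs x) (i : Gen 1) : Commute (x i) (C.ex z) :=
  C.ex_comm (C.mem_Fix.2 (C.mem_cs.1 hz i))

theorem exists_pow_cs {x : Gen 1 → K} (hx : val x (relator 1) = 1) (i : Gen 1) :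
    ∃ N : ℕ, N ≠ 0 ∧ ∃ ζ ∈ C.cs x, C.ex ζ = x i ^ N := by
  obtain ⟨m, h1, h2⟩ := ((mapClusterPt_iff_frequently.1 (mapClusterPt_one_atTop_pow (x i)) _
    (C.exists_log_cs x)).and_eventually (eventually_ne_atTop 0)).exists
  obtain ⟨ζ, h3, -, h4⟩ := h1 fun j => (comm_one hx j i).pow_right m
  exact ⟨m, h2, ζ, h3, h4⟩

theorem cocompact_cs {x : Gen 1 → K} (hx : C.IsAb (C.cs x)) :
    ∃ R : ℝ, ∀ z ∈ C.cs x, ∃ r ∈ C.cs x, ‖r‖ ≤ R ∧ C.ex r = C.ex z := by
  by_contra h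
  push Not at h
  choose z h1 h2 using fun n : ℕ => h n
  obtain ⟨c, -, hc⟩ := isCompact_univ.exists_mapClusterPt (f := atTop) (u := fun n => C.ex (z n))
    (by simp)
  obtain ⟨V, hV, h3⟩ := exists_nhds_split_inv (C.exists_log_cs x)
  have h4 := mapClusterPt_iff_frequently.1 hc ((· * c⁻¹) ⁻¹' V)
    ((continuous_mul_right _).continuousAt.preimage_mem_nhds (by simpa using hV))
  obtain ⟨n, hn⟩ := h4.exists
  obtain ⟨m, hm, h5⟩ := (h4.and_eventually (tendsto_natCast_atTop_atTop.eventually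
    (eventually_ge_atTop (‖z n‖ + 1)))).exists
  obtain ⟨ζ, h6, h7, h8⟩ := h3 _ hm _ hn fun i => by
    rw [mul_div_mul_right_eq_div, div_eq_mul_inv]
    exact (C.comm_cs (h1 m) i).mul_right (C.comm_cs (h1 n) i).inv_right
  refine h2 m (ζ + z n) (Submodule.add_mem _ h6 (h1 n)) (by linarith [norm_add_le ζ (z n)]) ?_
  rw [C.ex_add _ _ (hx _ h6 _ (h1 n)), h8, mul_div_mul_right_eq_div, div_mul_cancel]

end Ctx

end Pool.Agent.Lib.MP_d52947_gt
end

-- part Pool.Agent.Lib.MP_d52947_gt.OneC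
section

/-! Genus one: local structure of the space of commuting pairs. -/

namespace Pool.Agent.Lib.MP_d52947_gt

open Filter Topology Module MeasureTheory NormedSpace
open scoped RealInnerProductSpace

/-- a pair of vectors as a tuple -/
noncomputable def sv {L : Type} [NormedAddCommGroup L] [NormedSpace ℝ L] (s : Submodule ℝ L) :
    s × s →L[ℝ] (Gen 1 → L) := ContinuousLinearMap.pi fun i =>
  s.subtypeL ∘L bif i.2 then ContinuousLinearMap.snd ℝ s s else ContinuousLinearMap.fst ℝ s s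

theorem sv_mem {L : Type} [NormedAddCommGroup L] [NormedSpace ℝ L] {s : Submodule ℝ L} (p : s × s) :
    ∀ i, sv s p i ∈ s := gen_one p.1.2 p.2.2

namespace Ctx

variable {L : Type} [NormedAddCommGroup L] [InnerProductSpace ℝ L] [FiniteDimensional ℝ L]
  {K : Type} [Group K] [TopologicalSpace K] [IsTopologicalGroup K] [CompactSpace K]
  [ConnectedSpace K] (C : Ctx L K)

/-- moving a pair -/
def mv (x : Gen 1 → K) (w : Gen 1 → L) : Gen 1 → K := fun i => C.ex (w i) * x i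

/-- conjugating a pair -/
def cj (c : K) (x : Gen 1 → K) : Gen 1 → K := fun i => c * x i * c⁻¹

theorem cj_cj (c : K) (x : Gen 1 → K) : cj c⁻¹ (cj c x) = x := funext fun i => by simp [cj, mul_assoc]

theorem cs_cj (c : K) (x : Gen 1 → K) : C.cs (cj c x) = (C.cs x).map (C.Ad c).toLinearMap := by
  ext y
  simp only [mem_cs, Submodule.mem_map, ← mem_Fix]
  exact ⟨fun h => ⟨C.Ad c⁻¹ y, fun i => (C.Ad_mem_Fix_conj (c := c)).1 (by simpa [cj] using h i), by simp⟩,
    fun ⟨z, h, e⟩ i => e ▸ C.Ad_mem_Fix_conj.2 (h i)⟩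

variable {C}

theorem Sm.cj {x : Gen 1 → K} (h : C.Sm x) (c : K) : C.Sm (cj c x) := by
  refine ⟨(val_conj c x _).trans (by simp [h.1]), ?_, fun h => by omega⟩
  rw [show C.cen _ _ = _ from C.cs_cj c x]
  rintro _ ⟨a, ha, rfl⟩ _ ⟨b, hb, rfl⟩
  exact (C.Ad_ad c a b).symm.trans (by rw [h.2.1 a ha b hb, map_zero])

theorem Sm.comm_mv {x : Gen 1 → K} (h : C.Sm x) {w : Gen 1 → L} (hw : ∀ i, w i ∈ C.cs x) (i j) :
    Commute (C.mv x w i) (C.mv x w j) := by
  have : Commute (C.ex (w i)) (C.ex (w j)) :=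
    C.ex_comm (C.mem_Fix.2 (C.Ad_ex_fix (h.2.1 _ (hw i) _ (hw j))))
  exact (this.mul_right (C.comm_cs (hw i) j).symm).mul_left
    ((C.comm_cs (hw j) i).mul_right (comm_one h.1 i j))

theorem Sm.le_cs {x : Gen 1 → K} (h : C.Sm x) {w : Gen 1 → L} (hw : ∀ i, w i ∈ C.cs x) :
    C.cs x ≤ C.cs (C.mv x w) := fun y hy => C.mem_cs.2 fun i => by
  rw [mv, Ad_mul_apply, C.mem_cs.1 hy, C.Ad_ex_fix (h.2.1 _ (hw i) _ hy)]

theorem Sm.mv_mv {x : Gen 1 → K} (h : C.Sm x) {w w' : Gen 1 → L} (hw : ∀ i, w i ∈ C.cs x)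
    (hw' : ∀ i, w' i ∈ C.cs x) : C.mv (C.mv x w) w' = C.mv x (w' + w) := funext fun i => by
  simp only [mv, Pi.add_apply, C.ex_add _ _ (h.2.1 _ (hw' i) _ (hw i)), mul_assoc]

theorem ae_cs [MeasurableSpace L] [BorelSpace L] {x : Gen 1 → K} (h : C.Sm x)
    (ν : Measure (C.cs x × C.cs x)) [ν.IsAddHaarMeasure] :
    ∀ᵐ p ∂ν, C.cs (C.mv x (sv _ p)) = C.cs x ∧ C.Sm (C.mv x (sv _ p)) := by
  have h1 : ∀ y : Gen 1 → K, ⨅ n : L × Gen 1, LinearMap.ker (innerₗ L n.1 ∘ₗ
      (1 - C.Ad (y n.2)).toLinearMap) = C.cs y := fun y => by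
    ext v
    simp only [Submodule.mem_iInf, mem_cs, ← mem_Fix]
    exact ⟨fun H i => inner_self_eq_zero.1 (H (_, i)), fun H n => by
      simp [show v - C.Ad (y n.2) v = 0 from H n.2]⟩
  filter_upwards [ae_rank ν (fun (n : L × Gen 1) p => innerₗ L n.1 ∘ₗ
    (1 - C.Ad (C.mv x (sv _ p) n.2)).toLinearMap) (fun n v p _ => (((An.const n.1).inner
      (((An.const 1).sub (an_Ad n.2)).app (An.const v))) x _ trivial).comp
        ((sv (C.cs x)).analyticAt p)) 0] with p hp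
  rw [h1, h1, show C.mv x (sv _ 0) = x from funext fun i => by simp [mv, C.ex_zero]] at hp
  have h2 := (Submodule.eq_of_le_of_finrank_le (h.le_cs (sv_mem p)) hp).symm
  exact ⟨h2, val_one.2 (h.comm_mv (sv_mem p) _ _), by rw [show C.cen _ _ = _ from h2]; exact h.2.1,
    fun h => by omega⟩

end Ctx

namespace Amb

variable {L : Type} [NormedAddCommGroup L] [InnerProductSpace ℝ L] [FiniteDimensional ℝ L]
  {K : Type} [Group K] [TopologicalSpace K] [IsTopologicalGroup K] [CompactSpace K]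
  [ConnectedSpace K] {A : Type} [NormedRing A] [NormedAlgebra ℝ A] [FiniteDimensional ℝ A]
  [CompleteSpace A] [MeasurableSpace A] [BorelSpace A] (C : Amb L K A)

/-- ambient parametrization -/
noncomputable def Th (x : Gen 1 → K) (q : L × (Gen 1 → L)) : Gen 1 → A := fun i =>
  exp (C.j q.1) * (exp (C.j (q.2 i)) * C.ι (x i)) * exp (C.j (-q.1))

theorem Th_eq (x : Gen 1 → K) (q : L × (Gen 1 → L)) :
    C.Th x q = C.emb (Ctx.cj (C.ex q.1) (C.mv x q.2)) := funext fun i => by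
  simp only [Th, emb, Ctx.cj, Ctx.mv, map_mul, ← C.ι_ex, C.ex_neg]

theorem contDiff_ej : ContDiff ℝ 1 fun y : L => exp (C.j y) := contDiff_exp.comp C.j.contDiff

theorem contDiff_Th (x : Gen 1 → K) : ContDiff ℝ 1 (C.Th x) := contDiff_pi.2 fun i =>
  ((C.contDiff_ej.comp contDiff_fst).mul ((C.contDiff_ej.comp (by fun_prop)).mul contDiff_const)).mul
    (C.contDiff_ej.comp contDiff_fst.neg)

theorem deriv_ej (y : L) : HasDerivAt (fun t : ℝ => exp (C.j (t • y))) (C.j y) 0 := by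
  simpa using hasDerivAt_exp0 (C.j y)

theorem deriv_Th (x : Gen 1 → K) (θ : L) (w : Gen 1 → L) :
    HasDerivAt (fun t : ℝ => C.Th x (t • θ, t • w)) (C.tv x (C.del x θ + w)) 0 :=
  hasDerivAt_pi.2 fun i => by
    have := ((C.deriv_ej θ).fun_mul ((C.deriv_ej (w i)).mul_const (C.ι (x i)))).fun_mul
      (C.deriv_ej (-θ))
    simp only [smul_neg] at this
    refine this.congr_deriv ?_
    simp [tv_apply, Ctx.del_apply, C.j_Ad, add_mul, sub_mul, mul_assoc, ι_inv_mul, -map_inv]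
    abel

theorem local_cover {x : Gen 1 → K} (hx : C.Sm x) : ∀ᶠ y in 𝓝 x, Ctx.val y (relator 1) = 1 →
    ∃ (θ : (C.cs x)ᗮ) (p : C.cs x × C.cs x), y = Ctx.cj (C.ex θ) (C.mv x (sv _ p)) := by
  obtain ⟨W, hW⟩ := (C.Z1 x).exists_isCompl
  let κ : (Gen 1 → A) → Gen 1 → L := fun z i => C.P (z i * C.ι (x i)⁻¹)
  have hκ : ContDiff ℝ 1 κ := contDiff_pi.2 fun i => C.P.contDiff.comp (by fun_prop)
  let lw : (C.cs x × C.cs x) × W →L[ℝ] (Gen 1 → L) := (sv _).coprod W.subtypeL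
  let lq : (C.cs x)ᗮ × (C.cs x × C.cs x) × W →L[ℝ] L × (Gen 1 → L) := (C.cs x)ᗮ.subtypeL.prodMap lw
  have h1 := map_nhds_of_surj (hκ.comp ((C.contDiff_Th x).comp lq.contDiff)) fun u => by
    obtain ⟨z, hz, w, hw, rfl⟩ := Submodule.mem_sup.1 (hW.sup_eq_top.ge (Submodule.mem_top (x := u)))
    obtain ⟨η, e⟩ := C.sub_mem_B1 hx.1 ⟨z, hz⟩
    refine ⟨(⟨_, (C.cs x).sub_starProjection_mem_orthogonal η⟩, ((C.cs x).orthogonalProjection
      (z (0, false)), (C.cs x).orthogonalProjection (z (0, true))), ⟨w, hw⟩), ?_⟩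
    simp only [Function.comp, map_smul]
    refine hasDerivAt_pi.2 fun i => (C.P.hasFDerivAt.comp_hasDerivAt _
      ((hasDerivAt_pi.1 (C.deriv_Th x _ _) i).mul_const _)).congr_deriv ?_
    have h2 := congrFun e i
    rw [tv_apply, mul_assoc, ι_mul_inv, mul_one, C.P_j]
    simp only [Ctx.del_apply, lq, lw, Pi.add_apply, ContinuousLinearMap.coe_prodMap', Prod.map,
      Submodule.subtypeL_apply, ContinuousLinearMap.coprod_apply] at h2 ⊢
    rw [map_sub, C.mem_cs.1 ((C.cs x).starProjection_apply_mem η), sub_sub_sub_cancel_right, h2]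
    clear h2
    revert i
    exact gen_one (by simp [Ctx.Es_coe, sv, ← add_assoc]) (by simp [Ctx.Es_coe, sv, ← add_assoc])
  obtain ⟨c, U₁, h2, h3⟩ := exists_anti (C.P.contDiff.comp C.contDiff_ej) fun v hv => by
    simpa [C.P_j] using (C.P.hasFDerivAt.comp_hasDerivAt _ (C.deriv_ej v)).unique hv
  let G : (Gen 1 → L) → L := fun w => C.P ((exp (C.j (w (0, false))) * C.ι (x (0, false)) *
    (exp (C.j (w (0, true))) * C.ι (x (0, true))) - exp (C.j (w (0, true))) * C.ι (x (0, true)) *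
    (exp (C.j (w (0, false))) * C.ι (x (0, false)))) * C.ι (x (0, false) * x (0, true))⁻¹)
  have hG : ∀ w, Commute (C.mv x w (0, false)) (C.mv x w (0, true)) → G w = 0 := fun w h => by
    have := h.eq
    simp only [Ctx.mv] at this
    simp only [G, ← C.ι_ex, ← map_mul]
    rw [this]; simp
  have he : ∀ i, ContDiff ℝ 1 fun w : Gen 1 → L => exp (C.j (w i)) * C.ι (x i) := fun i =>
    (C.contDiff_ej.comp (by fun_prop)).mul contDiff_const
  obtain ⟨c', U₂, h4, h5⟩ := exists_anti (g := fun q : (C.cs x × C.cs x) × W => (q.1, G (lw q)))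
    (contDiff_fst.prodMk ((C.P.contDiff.comp ((((he _).mul (he _)).sub ((he _).mul (he _))).mul
      contDiff_const)).comp lw.contDiff)) fun v hv => by
      have h6 := fun i => (C.deriv_ej (lw v i)).mul_const (C.ι (x i))
      have h7 := ((((hasDerivAt_id (0 : ℝ)).smul_const v.1).prodMk (C.P.hasFDerivAt.comp_hasDerivAt _
        ((((h6 (0, false)).fun_mul (h6 (0, true))).fun_sub ((h6 (0, true)).fun_mul
          (h6 (0, false)))).mul_const (C.ι (x (0, false) * x (0, true))⁻¹)))).unique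
            (by simpa only [G, map_smul, Pi.smul_apply, Prod.smul_fst, id, Function.comp_def]
              using hv))
      have h8 : v.1 = 0 := by simpa using congrArg Prod.fst h7
      refine Prod.ext h8 (Subtype.ext ((Submodule.disjoint_def.1 hW.disjoint) _ ?_ v.2.2))
      have h9 := congrArg Prod.snd h7
      have h10 := (Ctx.comm_one hx.1 (0, false) (0, true)).eq
      have h11 : ∀ i, lw v i = v.2.1 i := fun i => by simp [lw, h8]
      have h12 : ∀ a b : K, ∀ y z : L, (C.j y * C.ι a * C.ι b + C.ι a * (C.j z * C.ι b)) * C.ι (a * b)⁻¹ =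
          C.j (y + C.Ad a z) := fun a b y z => by
        simp only [map_add, C.j_Ad, add_mul, mul_assoc, ← map_mul]
        simp
      simp only [h11, zero_smul, map_zero, exp_zero, one_mul, sub_mul, h12] at h9
      rw [h10, h12, ← map_sub, C.P_j] at h9
      rw [Ctx.mem_Z1, rel_one, Ctx.cv_hcomm, h10, ← show _ = (0 : L) from h9]
      simp
      abel
  have h6 : Continuous fun q => Ctx.cj (C.ex (lq q).1) (C.mv x (lq q).2) :=
    C.emb_closed.isEmbedding.continuous_iff.2 (by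
      simpa only [Function.comp_def, Th_eq] using ((C.contDiff_Th x).comp lq.contDiff).continuous)
  have h7 : Ctx.cj (C.ex (lq 0).1) (C.mv x (lq 0).2) = x := funext fun i => by
    simp [Ctx.cj, Ctx.mv, C.ex_zero]
  have h8 : ∀ᶠ y in 𝓝 x, ∀ i, y i * (x i)⁻¹ ∈ C.ex '' U₁ := eventually_all.2 fun i =>
    ((continuous_apply i).mul continuous_const).continuousAt.preimage_mem_nhds
      (by simpa using C.ex_nhds _ h2)
  have h9 := image_mem_map (m := κ ∘ C.Th x ∘ lq) ((h6.continuousAt.eventually (h7.symm ▸ h8)).and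
    ((show ∀ᶠ q : (C.cs x)ᗮ × (C.cs x × C.cs x) × W in 𝓝 0, q.2 ∈ U₂ from
      continuous_snd.continuousAt.preimage_mem_nhds h4).and
      (show ∀ᶠ q : (C.cs x)ᗮ × (C.cs x × C.cs x) × W in 𝓝 0, (q.2.1, 0) ∈ U₂ from
        (by fun_prop : Continuous fun q : (C.cs x)ᗮ × (C.cs x × C.cs x) × W =>
          (q.2.1, (0 : W))).continuousAt.preimage_mem_nhds h4)))
  rw [h1, Function.comp_apply, Function.comp_apply, Th_eq, h7] at h9
  filter_upwards [h8, (hκ.continuous.comp C.cont_emb).continuousAt.preimage_mem_nhds h9]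
  rintro y a ⟨q, ⟨b1, b2, b3⟩, b4⟩ hy
  have h10 : y = Ctx.cj (C.ex (lq q).1) (C.mv x (lq q).2) := funext fun i => by
    obtain ⟨ξ, c1, c2⟩ := a i
    obtain ⟨ξ', c3, c4⟩ := b1 i
    have c5 := congrFun b4 i
    simp only [Function.comp, Th_eq, κ, emb, ← map_mul, ← c2, ← c4, C.ι_ex] at c5
    have c6 := h3 ξ c1 ξ' c3
    simp only [Function.comp, c5, dist_self, mul_zero, dist_le_zero] at c6
    exact mul_right_cancel (c2.symm.trans (c6 ▸ c4))
  have h11 := h5 _ b2 _ b3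
  rw [h10] at hy
  replace hy := (Ctx.val_conj _ _ _).symm.trans hy
  rw [mul_inv_eq_one, mul_eq_left] at hy
  rw [hG (lw q.2) (Ctx.val_one.1 hy), hG _ (by
    simpa [lw] using hx.comm_mv (sv_mem q.2.1) _ _), dist_self, mul_zero, dist_le_zero] at h11
  exact ⟨q.1, q.2.1, h10.trans (by
    rw [show (lq q).2 = lw q.2 from rfl, ← h11]; simp [lw, lq])⟩

variable [MeasurableSpace L] [BorelSpace L]

theorem down_local {x : Gen 1 → K} {s : Submodule ℝ L} (hs : C.cs x = s) (ν : Measure (s × s))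
    [ν.IsAddHaarMeasure] : ∃ U ∈ 𝓝 (0 : s × s), ∀ T : Set (s × s), C.Nul (finrank ℝ L + finrank ℝ s)
      {y | ∃ c, ∃ p ∈ T, y = Ctx.cj c (C.mv x (sv _ p))} → ν (T ∩ U) = 0 := by
  subst hs
  let lq : (C.cs x)ᗮ × C.cs x × C.cs x →L[ℝ] L × (Gen 1 → L) := (C.cs x)ᗮ.subtypeL.prodMap (sv _)
  obtain ⟨c, U, h1, h2⟩ := exists_anti ((C.contDiff_Th x).comp lq.contDiff) fun v hv => by
    have h3 := fun i => C.eq_zero_of_j_mul (congrFun ((C.deriv_Th x v.1 (sv _ v.2)).unique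
      (by simp only [Function.comp, map_smul] at hv; exact hv)) i)
    have h4 : ∀ i, sv _ v.2 i = 0 := fun i => by
      simpa [Ctx.del_apply, ← map_sub, C.proj_del,
        Submodule.starProjection_eq_self_iff.2 (sv_mem v.2 i)] using
        congrArg (C.cs x).starProjection (h3 i)
    refine Prod.ext (Subtype.ext (inner_self_eq_zero.1 (v.1.2 _ (C.mem_cs.2 fun i => ?_))))
      (Prod.ext (Subtype.ext (h4 (0, false))) (Subtype.ext (h4 (0, true))))
    exact (sub_eq_zero.1 (by simpa [h4, Ctx.del_apply] using h3 i)).symm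
  obtain ⟨U₁, h3, U₂, h4, h5⟩ := mem_nhds_prod_iff.1 h1
  refine ⟨U₂, h4, fun T hT => ?_⟩
  have : (Measure.addHaar (G := (C.cs x)ᗮ)).prod ν |>.IsAddHaarMeasure :=
    Measure.prod.instIsAddHaarMeasure _ _
  have h6 := le_of_anti (T := U₁ ×ˢ (T ∩ U₂)) (fun z hz z' hz' => h2 z (h5 ⟨hz.1, hz.2.2⟩) z'
    (h5 ⟨hz'.1, hz'.2.2⟩)) (finrank ℝ L + finrank ℝ (C.cs x))
  rw [measure_mono_null (by
    rintro _ ⟨q, hq, rfl⟩
    exact ⟨_, ⟨C.ex q.1, _, hq.2.1, rfl⟩, (C.Th_eq x (lq q)).symm⟩) hT, mul_zero, nonpos_iff_eq_zero,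
    show finrank ℝ L + finrank ℝ (C.cs x) = finrank ℝ ((C.cs x)ᗮ × C.cs x × C.cs x) by
      have := (C.cs x).finrank_add_finrank_orthogonal
      simp only [finrank_prod]; omega, haus_null_iff (Measure.addHaar.prod ν),
    Measure.prod_prod] at h6
  exact (mul_eq_zero.1 h6).resolve_left (Measure.measure_pos_of_mem_nhds _ h3).ne'

theorem ae_down {P : (Gen 1 → K) → Prop} (h : C.AeS P)
    (hP : ∀ x c, C.Sm x → P (Ctx.cj c x) → P x) {x : Gen 1 → K} (hx : C.Sm x)
    (ν : Measure (C.cs x × C.cs x)) [ν.IsAddHaarMeasure] : ∀ᵐ p ∂ν, P (C.mv x (sv _ p)) := by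
  let N := {p | (C.cs (C.mv x (sv _ p)) = C.cs x ∧ C.Sm (C.mv x (sv (C.cs x) p))) ∧
    ¬ P (C.mv x (sv _ p))}
  have h1 : ν N = 0 := measure_null_of_locally_null N fun p hp => by
    obtain ⟨U, h2, h3⟩ := C.down_local hp.1.1 ν
    refine ⟨(· + -p) ⁻¹' ((· + p) ⁻¹' N ∩ U), ?_, (measure_preimage_add_right _ _ _).trans
      (h3 _ ((h _).mono ?_))⟩
    · filter_upwards [self_mem_nhdsWithin, mem_nhdsWithin_of_mem_nhds
        ((continuous_add_right (-p)).continuousAt.preimage_mem_nhds (by simpa using h2))] with q a b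
      exact ⟨by simpa using a, b⟩
    rintro _ ⟨c, q, hq, rfl⟩
    rw [hx.mv_mv (sv_mem p) (sv_mem q), ← map_add]
    exact ⟨hq.1.2.cj c, by rw [Ctx.finrank_Z1_one, Ctx.cs_cj, Ctx.finrank_map_Ad, hq.1.1],
      fun H => hq.2 (hP _ c hq.1.2 H)⟩
  filter_upwards [Ctx.ae_cs hx ν, compl_mem_ae_iff.2 h1] with p a b
  exact by_contra fun c => b ⟨a, c⟩

theorem ae_up {P : (Gen 1 → K) → Prop}
    (h : ∀ x, C.Sm x → ∀ᵐ p ∂(Measure.addHaar.prod Measure.addHaar), P (C.mv x (sv (C.cs x) p)))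
    (hP : ∀ x c, C.Sm x → P x → P (Ctx.cj c x)) : C.AeS P := fun d => by
  have := (C.emb_closed (G := Gen 1)).isEmbedding.secondCountableTopology
  set S := {x : Gen 1 → K | C.Sm x ∧ finrank ℝ (C.Z1 x) = d ∧ ¬ P x}
  obtain ⟨T, h1, h2, h3⟩ := TopologicalSpace.countable_cover_nhdsWithin (s := S)
    fun x hx => inter_mem_nhdsWithin S (C.local_cover hx.1)
  have := h2.to_subtype
  rw [Set.biUnion_eq_iUnion] at h3
  refine (Nul.iUnion fun x : T => ?_).mono h3
  refine measure_mono_null ?_ (null_prod_image (E := (C.cs x)ᗮ) _ (ae_iff.1 (h x (h1 x.2).1))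
    ((C.contDiff_Th x).comp (((C.cs x)ᗮ.subtypeL.contDiff.comp contDiff_snd).prodMk
      ((sv _).contDiff.comp contDiff_fst))) (by
        have := (C.cs x).finrank_add_finrank_orthogonal
        rw [← (h1 x.2).2.1, Ctx.finrank_Z1_one, finrank_prod]; omega))
  rintro _ ⟨y, ⟨a, b⟩, rfl⟩
  obtain ⟨θ, p, rfl⟩ := b a.1.1
  exact ⟨(p, θ), ⟨fun H => a.2.2 (hP _ _ (by simpa only [Ctx.cj_cj] using a.1.cj (C.ex θ)⁻¹) H), trivial⟩, C.Th_eq _ _⟩

end Amb

end Pool.Agent.Lib.MP_d52947_gt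
end

-- part Pool.Agent.Lib.MP_d52947_gt.One
section

/-! The theorem in genus one, abstract form. -/

namespace Pool.Agent.Lib.MP_d52947_gt

open Filter Topology Module MeasureTheory
open scoped RealInnerProductSpace

/-- the elementary nilpotent map -/
noncomputable def nn (s : Type) [AddCommGroup s] [Module ℝ s] (i j : Gen 1) :
    (Gen 1 → s) →ₗ[ℝ] (Gen 1 → s) := LinearMap.single ℝ (fun _ => s) j ∘ₗ LinearMap.proj i

namespace Ctx

variable {L : Type} [NormedAddCommGroup L] [InnerProductSpace ℝ L] [FiniteDimensional ℝ L]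
  {K : Type} [Group K] [TopologicalSpace K] [IsTopologicalGroup K] [CompactSpace K]
  [ConnectedSpace K] {C : Ctx L K} {k : ℕ}
  {G : (Gen 1 → K) → (Gen 1 → L) [⋀^Fin k]→ₗ[ℝ] ℝ}

theorem cj_mem {x : Gen 1 → K} (c : K) (u : C.Z1 x) : (fun i => C.Ad c (u.1 i)) ∈ C.Z1 (cj c x) :=
  C.mem_Z1.2 ((cv_conjT c x _ _).trans (by rw [C.mem_Z1.1 u.2, map_zero]))

/-- conjugation invariance -/
def Eqv (C : Ctx L K) (G : (Gen 1 → K) → (Gen 1 → L) [⋀^Fin k]→ₗ[ℝ] ℝ) : Prop :=
  ∀ x, C.Sm x → ∀ c (u : Fin k → C.Z1 x),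
    G (cj c x) (fun j i => C.Ad c ((u j).1 i)) = G x fun j => u j

theorem inv_cj (h : C.Eqv G) (φ : AutR 1) (x c) (hx : C.Sm x) (H : C.Inv G φ (cj c x)) :
    C.Inv G φ x := fun u => by
  have h1 := H fun j => ⟨_, cj_mem c (u j)⟩
  have h2 : C.Sm (act φ.1.toMonoidHom x) :=
    ⟨(val_act_rel φ x).trans hx.1, by rw [cen_act]; exact hx.2.1, fun h => by omega⟩
  simp only [res_apply, pbZ_coe] at h1 ⊢
  rw [h x hx] at h1
  rw [← h1]
  refine (h _ h2 c fun j => C.pbZ φ x (u j)).symm.trans ?_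
  congr 1
  · exact congrArg G (funext fun i => (val_conj c x _).symm)
  · exact funext fun j => funext fun i => (cv_conjT c x _ _).symm

theorem concl_cj (h : C.Eqv G) (I : C.Ideals) (x c) (hx : C.Sm x)
    (H : C.Concl I (cj c x) (G (cj c x))) : C.Concl I x (G x) := by
  have := Submodule.apply_mem_span_image_of_mem_span (LinearMap.funLeft ℝ ℝ
    fun (u : Fin k → C.Z1 x) j => (⟨_, cj_mem c (u j)⟩ : C.Z1 (cj c x))) H
  refine Submodule.span_mono ?_ (Set.mem_of_eq_of_mem (funext fun u => (h x hx c u).symm) this)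
  rintro _ ⟨_, ⟨m, e, q, rfl⟩, rfl⟩
  exact ⟨m, e, q, funext fun u => Finset.sum_congr rfl fun σ _ => congrArg _
    (Finset.prod_congr rfl fun j _ => omQ_conj I _ c x _ _)⟩

theorem point_one' {I : C.Ideals} {x : Gen 1 → K} (hx : C.Sm x) {s : Submodule ℝ L} (hs : C.cs x = s)
    (hor : C.Hor G x) {β : (Gen 1 → s) [⋀^Fin k]→ₗ[ℝ] ℝ}
    (hβ : (G x).compLinearMap (s.subtype.compLeft _) = β)
    (h1 : nn s (0, false) (0, true) ∈ stab β) (h2 : nn s (0, true) (0, false) ∈ stab β)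
    (hr : ∀ γ ∈ C.Wt s, ∀ v w : Fin k → Gen 1 → s,
      (∀ j i, (w j i : L) = v j i - (2 * ⟪γ, v j i⟫ / ⟪γ, γ⟫) • γ) → β w = β v) :
    C.Concl I x (G x) := by
  subst hs hβ
  let e : C.Z1 x →ₗ[ℝ] (Gen 1 → C.cs x) :=
    (C.cs x).orthogonalProjection.toLinearMap.compLeft _ ∘ₗ (C.Z1 x).subtype
  have he : ∀ u, (G x).compLinearMap ((C.cs x).subtype.compLeft _) (fun j => e (u j)) =
      C.res x (G x) u := fun u =>
    Eq.trans (congrArg (G x) (funext fun j => funext (gen_one (by simp [e, Es_coe])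
      (by simp [e, Es_coe])))) (eq_of_sub_mem hor fun j => C.sub_mem_B1 hx.1 (u j)).symm
  have h3 : ∀ i j u, e ((C.Es x j ∘ₗ C.co x i) u) = nn _ i j (e u) := fun i j u => funext fun l =>
    Subtype.ext (by by_cases h : l = j <;> simp [e, nn, co, Es_coe, h, proj_proj])
  refine point_one hx hor (Kills.conj e he (h3 _ _) h1) (Kills.conj e he (h3 _ _) h2) fun γ hγ v => ?_
  rw [← he, ← he]
  have h4 := Submodule.starProjection_eq_self_iff.2 (C.Wt_mem hγ)
  refine hr γ hγ _ _ fun j => gen_one ?_ ?_ <;>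
    simp [e, Es_coe, h4, ← (C.cs x).inner_starProjection_left_eq_right, mul_div_assoc]

theorem twist [MeasurableSpace L] [BorelSpace L] {x : Gen 1 → K} (hx : C.Sm x)
    (μ : Measure (C.cs x)) [μ.IsAddHaarMeasure] {i i' : Gen 1} (h0 : i ≠ i')
    (hc : ∀ {P : Gen 1 → Prop}, P i → P i' → ∀ j, P j) {φ : AutR 1} (h1 : φ.1 (.of i) = .of i)
    (h2 : φ.1 (.of i') = .of i' * .of i) (ι : C.cs x × C.cs x → Gen 1 → L) (h3 : ∀ p, ι p i = p.1)
    (h4 : ∀ p, ι p i' = p.2) (β : C.cs x × C.cs x → (Gen 1 → C.cs x) [⋀^Fin k]→ₗ[ℝ] ℝ)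
    (hβ : ∀ p, β p = (G (C.mv x (ι p))).compLinearMap ((C.cs x).subtype.compLeft _))
    (hm : ∀ v, Measurable (β · v)) (hi : ∀ m, ∀ᵐ p ∂μ.prod μ, C.Inv G (φ ^ m) (C.mv x (ι p))) :
    (∀ᵐ p ∂μ.prod μ, nn _ i i' ∈ stab (β p)) ∧ ∀ δ, ∀ᵐ p ∂μ.prod μ, β (p.1, p.2 + δ) = β p := by
  have h5 : ∀ n : ℕ, (φ ^ n).1 (.of i) = .of i ∧ (φ ^ n).1 (.of i') = .of i' * .of i ^ n := fun n => by
    induction n with
    | zero => simp
    | succ n ih =>
      rw [pow_succ, Subgroup.coe_mul, MulAut.mul_apply, MulAut.mul_apply, h1, h2, map_mul, ih.1, ih.2,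
        pow_succ, mul_assoc]
      exact ⟨rfl, rfl⟩
  have h6 : ∀ p j, ι p j ∈ C.cs x := fun p => hc (h3 p ▸ p.1.2) (h4 p ▸ p.2.2)
  obtain ⟨N, hN, ζ, h7, h8⟩ := C.exists_pow_cs hx.1 i
  obtain ⟨R, hR⟩ := C.cocompact_cs hx.2.1
  have h9 : ∀ a b : C.cs x, C.ex (a + b) = C.ex a * C.ex b := fun a b =>
    C.ex_add _ _ (hx.2.1 _ a.2 _ b.2)
  refine shear μ β hm _ (fun u => by simp [nn, h0]) hN ⟨ζ, h7⟩ (R := R) (fun z => ?_) fun m => ?_
  · obtain ⟨r, a, b, c⟩ := hR z z.2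
    refine ⟨⟨r, a⟩, b, fun ξ η => ?_⟩
    rw [hβ, hβ, show C.mv x _ = C.mv x (ι (ξ, η + ⟨r, a⟩)) from funext (hc (by simp [mv, h3])
      (by simp only [mv, h4, Submodule.coe_add, h9, ← c]; rw [← h9 η ⟨r, a⟩]))]
  filter_upwards [hi (m * N)] with p hp v
  have h10 := fun j l => hx.le_cs (h6 p) (v j l).2
  have h11 := fun j l => C.mem_cs.1 (h10 j l)
  refine Eq.trans ?_ ((hp fun j => ⟨fun l => v j l, C.mem_Z1_cs (h10 j)⟩).trans (by rw [hβ]; rfl))
  rw [hβ, res_apply, AlternatingMap.compLinearMap_apply]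
  congr 1
  · refine congrArg G (funext (hc ?_ ?_))
    · simp only [act, MulEquiv.coe_toMonoidHom, h5, FreeGroup.lift_apply_of, mv, h3]
    · have := (C.comm_cs (h6 p i) i).symm
      simp only [act, MulEquiv.coe_toMonoidHom, h5, map_mul, map_pow, FreeGroup.lift_apply_of, mv, h3, h4,
        Submodule.coe_add, Submodule.coe_smul] at this ⊢
      have a := Submodule.smul_mem _ (N : ℝ) p.1.2
      have b := Submodule.smul_mem _ (m : ℝ) (Submodule.add_mem _ a h7)
      rw [mul_comm m, pow_mul, this.mul_pow, ← h8, ← C.ex_nsmul, ← C.ex_add _ _ (hx.2.1 _ a _ h7),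
        ← C.ex_nsmul, mul_assoc, (C.comm_cs b i').eq, ← mul_assoc, C.ex_add _ _ (hx.2.1 _ p.2.2 _ b)]
  · refine funext fun j => funext (hc ?_ ?_)
    · rw [pbZ_coe, pb_apply, MulEquiv.coe_toMonoidHom, (h5 _).1]
      simp [nn, h0]
    · rw [pbZ_coe, pb_apply, MulEquiv.coe_toMonoidHom, (h5 _).2, cv_mul,
        C.cv_pow (by simp [mem_Fix, h11])]
      simp [nn, h11]

end Ctx

namespace Amb

variable {L : Type} [NormedAddCommGroup L] [InnerProductSpace ℝ L] [FiniteDimensional ℝ L]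
  {K : Type} [Group K] [TopologicalSpace K] [IsTopologicalGroup K] [CompactSpace K]
  [ConnectedSpace K] {A : Type} [NormedRing A] [NormedAlgebra ℝ A] [FiniteDimensional ℝ A]
  [CompleteSpace A] [MeasurableSpace A] [BorelSpace A] (C : Amb L K A) {k : ℕ}
  [MeasurableSpace L] [BorelSpace L]

theorem aeS_one (I : C.Ideals)
    (F : (Gen 1 → A) → (Gen 1 → L) [⋀^Fin k]→ₗ[ℝ] ℝ) (hF : ∀ v, Measurable (F · v))
    (hor : ∀ x, C.Sm x → C.Hor (F ∘ C.emb) x)
    (hK : ∀ x, C.Sm x → ∀ c (u : Fin k → C.Z1 x),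
      F (C.emb fun i => c * x i * c⁻¹) (fun j i => C.Ad c ((u j).1 i)) = F (C.emb x) fun j => u j)
    (hi : ∀ φ, C.AeS (C.Inv (F ∘ C.emb) φ)) :
    C.AeS fun x => C.Concl I x (F (C.emb x)) := by
  have hE : C.Eqv (F ∘ C.emb) := hK
  refine C.ae_up (fun x hx => ?_) fun x c hx H => Ctx.concl_cj hE I _ c⁻¹ (hx.cj c) (by
    rwa [Ctx.cj_cj])
  set μ : Measure (C.cs x) := Measure.addHaar
  have : (μ.prod μ).IsAddHaarMeasure := Measure.prod.instIsAddHaarMeasure _ _
  let β : C.cs x × C.cs x → (Gen 1 → C.cs x) [⋀^Fin k]→ₗ[ℝ] ℝ := fun p =>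
    (F (C.emb (C.mv x (sv _ p)))).compLinearMap ((C.cs x).subtype.compLeft _)
  have hm : ∀ v, Measurable (β · v) := fun v => (hF _).comp (Continuous.measurable (by
    have := (C.contDiff_Th x).continuous.comp 
      ((continuous_const (y := 0)).prodMk (sv (C.cs x)).continuous)
    simp only [Function.comp_def, Th_eq, C.ex_zero] at this
    exact this.congr fun p => congrArg _ (funext fun i => by simp [Ctx.cj])))
  have h1 := fun φ => C.ae_down (hi φ) (Ctx.inv_cj hE φ) hx (μ.prod μ)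
  have hs := fun {P : _ → Prop} (h : ∀ᵐ p ∂μ.prod μ, P p) =>
    (Measure.measurePreserving_swap (μ := μ) (ν := μ)).quasiMeasurePreserving.ae h
  obtain ⟨h2, h3⟩ := Ctx.twist hx μ (by simp) gen_one tau_a tau_b (sv _) (fun _ => rfl) (fun _ => rfl)
    β (fun _ => rfl) hm fun m => h1 _
  obtain ⟨h4, h5⟩ := Ctx.twist hx μ (by simp) (fun a b => gen_one b a) tauB_b tauB_a
    (fun p => sv _ p.swap) (fun _ => rfl) (fun _ => rfl) (fun p => β p.swap) (fun _ => rfl)
    (fun v => (hm v).comp measurable_swap) fun m => hs (h1 _)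
  choose f hf using fun r : Fin k → Fin _ => ae_const (μ.prod μ)
    (hm fun j => finBasis ℝ (Gen 1 → C.cs x) (r j)) fun d => by
      filter_upwards [ae_shift _ (h3 d.2) (d.1, 0), hs (h5 d.1)] with p a b
      simp only [Prod.fst_add, Prod.snd_add, add_zero, Prod.swap_prod_mk, Prod.fst_swap,
        Prod.snd_swap, Prod.swap_swap, Prod.mk_add_mk] at a b
      exact DFunLike.congr_fun (a.trans (by rw [← b]; congr 1; ext <;> simp)) _
  obtain ⟨p₀, h6⟩ := (eventually_all.2 hf).exists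
  have h7 : ∀ᵐ p ∂μ.prod μ, β p = β p₀ := (eventually_all.2 hf).mono fun p hp =>
    (finBasis ℝ _).ext_alternating fun r _ => (hp r).trans (h6 r).symm
  filter_upwards [h2, hs h4, h7, Ctx.ae_cs hx (μ.prod μ)] with p a1 a2 a3 a4
  refine Ctx.point_one' a4.2 a4.1 (hor _ a4.2) (β := β p) rfl a1 a2 fun γ hγ v w hw => ?_
  obtain ⟨c, σ, b1, b2⟩ := Ctx.exists_refl_pt hx hγ
  let r : C.cs x →ₗ[ℝ] C.cs x := (C.Ad c).toLinearMap.restrict fun ξ h => by
    rw [ContinuousLinearMap.coe_coe, b2 ξ h]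
    exact Submodule.sub_mem _ h (Submodule.smul_mem _ _ (C.Wt_mem hγ))
  let z : C.cs x × C.cs x := (⟨_, (b1 (0, false)).1⟩, ⟨_, (b1 (0, true)).1⟩)
  have b3 := Measure.LinearMap.quasiMeasurePreserving (μ.prod μ) (r.prodMap r)
    (LinearMap.det_eq_zero_iff_ker_ne_bot.not_left.2 (by
      have : LinearMap.ker r = ⊥ := LinearMap.ker_eq_bot'.2 fun y h => Subtype.ext (by
        simpa [r] using congrArg (C.Ad c⁻¹) (congrArg Subtype.val h))
      rw [LinearMap.ker_prodMap, this, Submodule.prod_bot]))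
  obtain ⟨q, b4, b5, b6⟩ := ((ae_shift _ (b3.ae (ae_shift _ h7 z)) (-z)).and
    (h7.and (Ctx.ae_cs hx (μ.prod μ)))).exists
  have b7 := hE _ b6.2 c fun j => ⟨fun i => v j i, C.mem_Z1_cs fun i => b6.1.ge (v j i).2⟩
  have b8 : ∀ (y : C.cs x) i, c * (C.ex y * x i) * c⁻¹ = C.ex (C.Ad c (y + -σ i) + σ i) * x i :=
    fun y i => by
      have h := Submodule.add_mem _ y.2 (Submodule.neg_mem _ (b1 i).1)
      rw [C.ex_add (C.Ad c (y + -σ i)) _ (hx.2.1 _ (r ⟨_, h⟩).2 _ (b1 i).1), ← C.ex_conj, mul_assoc _ (C.ex _) (x i),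
        ← neg_add_cancel_right (y : L) (σ i), C.ex_add _ _ (hx.2.1 _ h _ (b1 i).1), neg_add_cancel_right]
      simp only [mul_assoc, mul_right_inj]
      rw [eq_inv_mul_iff_mul_eq, ← mul_assoc (C.ex _), ← mul_assoc c, ← (b1 i).2, mul_inv_cancel_right]
  rw [show Ctx.cj c (C.mv x (sv _ q)) = C.mv x (sv _ (r.prodMap r (q + -z) + z)) from
    funext (gen_one (b8 q.1 _) (b8 q.2 _))] at b7
  rw [a3]
  refine (DFunLike.congr_fun b4 w).symm.trans (Eq.trans ?_ (b7.trans (DFunLike.congr_fun b5 v)))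
  exact congrArg _ (funext fun j => funext fun i => (hw j i).trans (b2 _ (v j i).2).symm)

end Amb

end Pool.Agent.Lib.MP_d52947_gt
end

-- part Pool.Agent.Lib.MP_d52947_gt.ErgDefs
section

/-! Definitions for the ergodicity theorem. -/

namespace Pool.Agent.Lib.MP_d52947_gt

open Filter Topology MeasureTheory

/-- local convexity data for a map on an open set -/
structure LocConv {X E : Type} [TopologicalSpace X] [NormedAddCommGroup E] [NormedSpace ℝ E]
    (Ψ : X → E) (U : Set X) : Prop where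
  isOpen : IsOpen U
  convex : Convex ℝ (Ψ '' U)
  fibre : ∀ p, IsPreconnected (U ∩ Ψ ⁻¹' {p})
  opn : ∀ a ∈ U, ∀ W ∈ 𝓝 a, Ψ '' (W ∩ U) ∈ 𝓝[Ψ '' U] (Ψ a)

/-- `f` is almost everywhere constant near `w` -/
def LC {V : Type} [TopologicalSpace V] [MeasurableSpace V] (μ : Measure V) (f : V → ℝ) (w : V) :
    Prop := ∃ c, ∃ U ∈ 𝓝 w, ∀ᵐ u ∂μ, u ∈ U → f u = c

namespace Ctx
variable {L : Type} [NormedAddCommGroup L] [InnerProductSpace ℝ L] [FiniteDimensional ℝ L]
  {K : Type} [Group K] [TopologicalSpace K] [IsTopologicalGroup K] [CompactSpace K]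
  [ConnectedSpace K] (C : Ctx L K) {g : ℕ}

/-- the representation variety -/
def Rep0 (g : ℕ) (K : Type) [Group K] : Set (Gen g → K) := {x | val x (relator g) = 1}

/-- simultaneous conjugation -/
def cjg {G : Type} (c : K) (x : G → K) : G → K := fun i => c * x i * c⁻¹

/-- the twist flow along the first generator -/
noncomputable def fl (θ : L) (x : Gen (g + 1) → K) : Gen (g + 1) → K :=
  tb x (C.ex (C.pw (x (0, false)) θ))

/-- the second boundary holonomy -/
def mu2 (x : Gen (g + 1) → K) : K := (val x (relator _))⁻¹ * x (0, false)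

/-- the regular cross-section -/
def NS (g : ℕ) (t : Submodule ℝ L) : Set ((Gen (g + 1) → K) × t × t) :=
  {n | n.1 (0, false) = C.ex n.2.1 ∧ mu2 n.1 = C.ex n.2.2 ∧ C.Fix (C.ex n.2.1) = t ∧
    C.Fix (C.ex n.2.2) = t}

/-- its moment map -/
def PsiN (g : ℕ) (t : Submodule ℝ L) (n : C.NS g t) : WithLp 2 (t × t) := WithLp.toLp 2 n.1.2

end Ctx

end Pool.Agent.Lib.MP_d52947_gt
end
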