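import Pool.Agent.Lib.MP_d52947_gt.Erg1
import Pool.Agent.Lib.MP_d52947_gt.Rel

/-! The first variation lemma. -/

namespace Pool.Agent.Lib.MP_d52947_gt

open Filter Topology MeasureTheory Module NormedSpace
open scoped RealInnerProductSpace

namespace FVC

set_option linter.unusedSectionVars false
set_option linter.deprecated false

section
variable {L : Type} [NormedAddCommGroup L] [InnerProductSpace ℝ L] [FiniteDimensional ℝ L]
  {K : Type} [Group K] [TopologicalSpace K] [IsTopologicalGroup K] [CompactSpace K]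
  [ConnectedSpace K] (C : Ctx L K) {N : Type} [NormedAddCommGroup N] [NormedSpace ℝ N]
  [FiniteDimensional ℝ N]

/-- torus chart of a family of group elements -/
structure Ch (I : C.Ideals) (i : Fin I.N) (p : N → K) (n₁ : N) (x : N → L) (x' : N →L[ℝ] L)
    (Q : Submodule ℝ L) : Prop where
  der : HasStrictFDerivAt x x' n₁
  zero : x n₁ = 0
  eq : ∀ᶠ n in 𝓝 n₁, p n = C.ex (x n - C.pj (p n₁) (x n)) * (p n₁ * C.ex (C.pj (p n₁) (x n))) *
    (C.ex (x n - C.pj (p n₁) (x n)))⁻¹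
  reg : ∀ᶠ n in 𝓝 n₁, C.Reg (p n)
  mem : ∀ y, I.p i y = y → (∀ e, ⟪x' e, y⟫ = 0) → y ∈ Q
  rk : finrank ℝ Q ≤ finrank ℝ ((C.Fix (p n₁)).map (I.p i).toLinearMap)

variable {C} {I : C.Ideals} {i : Fin I.N} {p : N → K} {n₁ : N} {x : N → L} {x' : N →L[ℝ] L}
  {Q : Submodule ℝ L}

theorem Ch.reg₁ (H : Ch C I i p n₁ x x' Q) : C.Reg (p n₁) := H.reg.self_of_nhds

theorem Ch.mx (H : Ch C I i p n₁ x x' Q) : C.IsMaxAb (C.Fix (p n₁)) := Ctx.Reg.maxAb C H.reg₁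

theorem Ch.fix (H : Ch C I i p n₁ x x' Q) : ∀ᶠ n in 𝓝 n₁, ∀ a, a ∈ C.Fix (p n₁) ↔
    C.Ad (C.ex (x n - C.pj (p n₁) (x n))) a ∈ C.Fix (p n) := by
  filter_upwards [H.eq, H.reg] with n h1 h2 a
  have h3 : C.Reg (p n₁ * C.ex (C.pj (p n₁) (x n))) := by
    have := h2.conj (C.ex (x n - C.pj (p n₁) (x n)))⁻¹
    rw [h1] at this
    simpa [mul_assoc] using this
  have h4 : C.Fix (p n₁) = C.Fix (p n₁ * C.ex (C.pj (p n₁) (x n))) :=
    Submodule.eq_of_le_of_finrank_le (fun y hy => by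
      rw [Ctx.mem_Fix, Ctx.Ad_mul_apply, C.Ad_ex_fix (H.mx.ab _ (C.pj_mem _ _) _ hy),
        C.mem_Fix.1 hy]) (h3.le.trans H.reg₁.ge)
  conv_rhs => rw [h1]
  rw [C.Ad_mem_Fix_conj, ← h4]

theorem Ch.hasF (H : Ch C I i p n₁ x x' Q) (γ u : L) :
    HasFDerivAt (fun n => ⟪γ, C.Ad (C.ex (x n - C.pj (p n₁) (x n))) u⟫)
      (innerSL ℝ γ ∘L C.ad.flip u ∘L (1 - C.pj (p n₁)) ∘L x') n₁ := by
  have := FiniteDimensional.complete ℝ L
  have h1 := (C.ad ∘L (1 - C.pj (p n₁))).hasFDerivAt.comp n₁ H.der.hasFDerivAt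
  have h2 := hasFDerivAt_exp_zero (𝕂 := ℝ) (𝔸 := L →L[ℝ] L)
  rw [show (0 : L →L[ℝ] L) = ((C.ad ∘L (1 - C.pj (p n₁))) ∘ x) n₁ by simp [H.zero]] at h2
  have h3 := (innerSL ℝ γ ∘L ContinuousLinearMap.apply ℝ L u).hasFDerivAt.comp n₁ (h2.comp n₁ h1)
  refine (h3.congr_fderiv ?_).congr_of_eventuallyEq (Eventually.of_forall fun n => ?_)
  · ext e; simp
  · simp [C.Ad_ex]

theorem Ch.perp (H : Ch C I i p n₁ x x' Q) {γ u : L} (hγ : I.p i γ = γ)
    (h : ∀ᶠ n in 𝓝 n₁, ⟪γ, C.Ad (C.ex (x n - C.pj (p n₁) (x n))) u⟫ = 0)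
    (h' : ∀ a ∈ C.Fix (p n₁), ⟪γ, C.ad a u⟫ = 0) : C.ad γ u ∈ Q := by
  have h1 := (H.hasF γ u).unique ((hasFDerivAt_const (0 : ℝ) n₁).congr_of_eventuallyEq h)
  refine H.mem _ (by rw [I.p_ad, C.ad_p, hγ]) fun e => ?_
  have h2 := congrArg (· e) h1
  simp only [ContinuousLinearMap.comp_apply, ContinuousLinearMap.sub_apply,
    ContinuousLinearMap.one_apply, ContinuousLinearMap.flip_apply, map_sub, innerSL_apply_apply,
    ContinuousLinearMap.zero_apply, h' _ (C.pj_mem _ _), sub_zero] at h2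
  rw [C.ad_swap, inner_neg_right, real_inner_comm, C.inner_ad, C.ad_swap, inner_neg_right, h2]
  simp

theorem Ch.perpW (H : Ch C I i p n₁ x x' Q) {γ : L} (hγ : I.p i γ = γ)
    (h : ∀ᶠ n in 𝓝 n₁, γ ∈ (C.Fix (p n))ᗮ) : ∀ a ∈ C.Fix (p n₁), C.ad a γ ∈ Q := fun a ha => by
  rw [C.ad_swap]
  refine Q.neg_mem (H.perp hγ ?_ fun b hb => by rw [H.mx.ab b hb a ha, inner_zero_right])
  filter_upwards [H.fix, h] with n h1 h2
  rw [real_inner_comm]
  exact h2 _ ((h1 a).1 ha)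

theorem supp_fin {t : Submodule ℝ L} (ht : C.IsMaxAb t) (β : L) : (supp C t β).Finite :=
  (C.Wt_finite ht.ab).subset fun _ h => h.1

theorem Ch.supp_le (H : Ch C I i p n₁ x x' Q) (β : L) : ∀ᶠ n in 𝓝 n₁,
    supp C (C.Fix (p n₁)) β ⊆
      supp C (C.Fix (p n₁)) (C.Ad (C.ex (x n - C.pj (p n₁) (x n)))⁻¹ β) ∧
    (supp C (C.Fix (p n₁)) (C.Ad (C.ex (x n - C.pj (p n₁) (x n)))⁻¹ β)).ncard ≤
      (supp C (C.Fix (p n)) β).ncard := by
  refine Eventually.and ((eventually_all_finite (supp_fin H.mx β)).2 ?_) ?_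
  · rintro α ⟨h1, X, Y, h2, h3⟩
    filter_upwards [(H.hasF β X).continuousAt.eventually_ne (y := 0)
      (by simpa [H.zero, C.ex_zero] using h3)] with n hn
    exact ⟨h1, X, Y, h2, by rwa [← C.inner_Ad_right]⟩
  · filter_upwards [H.fix, H.reg] with n h1 h2
    refine Set.ncard_le_ncard_of_injOn (C.Ad (C.ex (x n - C.pj (p n₁) (x n)))) ?_
      (fun a _ b _ h => by simpa using congrArg (C.Ad (C.ex (x n - C.pj (p n₁) (x n)))⁻¹) h)
      (supp_fin (Ctx.Reg.maxAb C h2) β)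
    rintro α ⟨h3, X, Y, h4, h5⟩
    exact ⟨Ctx.Wt_tr h1 h3, _, _, h4.tr h1, by rwa [C.inner_Ad_right]⟩

theorem Ch.cnt_le (H : Ch C I i p n₁ x x' Q) (β : L) : ∀ᶠ n in 𝓝 n₁,
    (supp C (C.Fix (p n₁)) β).ncard ≤ (supp C (C.Fix (p n)) β).ncard :=
  (H.supp_le β).mono fun _ h => (Set.ncard_le_ncard h.1 (supp_fin H.mx _)).trans h.2

theorem Ch.dat (H : Ch C I i p n₁ x x' Q) {β : L} (hβ : I.p i β = β) (h0 : β ≠ 0)
    (hperp : ∀ᶠ n in 𝓝 n₁, β ∈ (C.Fix (p n))ᗮ)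
    (hm : ∀ᶠ n in 𝓝 n₁, (supp C (C.Fix (p n)) β).ncard ≤ (supp C (C.Fix (p n₁)) β).ncard) :
    Dat C I i (C.Fix (p n₁)) β Q := by
  refine ⟨H.mx, hβ, h0, H.rk, H.perpW hβ hperp, fun α X Y h1 h2 G => ?_⟩
  by_cases hX : X = 0
  · simp [hX]
  have hα : α ∈ C.Wt (C.Fix (p n₁)) := ⟨h2, X, Y, hX, G⟩
  refine H.perp hβ ?_ fun a ha => ?_
  · filter_upwards [H.supp_le β, hm] with n a b
    rw [Set.eq_of_subset_of_ncard_le a.1 (a.2.trans b) (supp_fin H.mx _)] at h1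
    rw [C.inner_Ad_right]
    by_contra h
    exact h1 ⟨hα, X, Y, G, h⟩
  · rw [(G.2 a ha).1, ← smul_neg, real_inner_smul_right,
      not_not.1 fun h => h1 ⟨hα, _, _, G.rot, h⟩, mul_zero]

theorem Ad_ex_p {ζ : L} (h : I.p i ζ = 0) (y : L) : C.Ad (C.ex ζ) (I.p i y) = I.p i y :=
  C.Ad_ex_fix (by rw [C.ad_p, h]; simp)

theorem p_pj (k : K) (y : L) : I.p i (C.pj k y) = C.pj k (I.p i y) :=
  (C.pj_comm (I.p i) (I.p_Ad i) (I.p_symm i) k y).symm

theorem Ch.tr_zero (H : Ch C I i p n₁ x x' Q) {β : L} (HD : Dat C I i (C.Fix (p n₁)) β Q)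
    (hperp : ∀ᶠ n in 𝓝 n₁, β ∈ (C.Fix (p n))ᗮ) (D : L →ₗ[ℝ] L) (hD : ∀ x, D (I.p i x) = D x)
    (hG : ∀ᶠ n in 𝓝 n₁, LinearMap.trace ℝ L (D ∘ₗ (C.Ad (p n)).toLinearMap) = 0) :
    ∀ᶠ τ in 𝓝 (0 : L), τ ∈ C.Fix (p n₁) →
      LinearMap.trace ℝ L (D ∘ₗ (C.Ad (p n₁ * C.ex τ)).toLinearMap) = 0 := by
  have := FiniteDimensional.complete ℝ L
  have := FiniteDimensional.complete ℝ N
  let W := (C.Fix (p n₁)).map (C.ad.flip β).toLinearMap
  have := FiniteDimensional.complete ℝ W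
  have hW : ∀ w : W, I.p i w = w ∧ C.pj (p n₁) w = 0 := by
    rintro ⟨_, a, ha, rfl⟩
    refine ⟨show I.p i (C.ad a β) = C.ad a β by rw [I.p_ad, HD.pβ], C.pj_eq_zero_iff.2 fun b hb => ?_⟩
    change ⟪b, C.ad a β⟫ = 0
    rw [real_inner_comm, C.inner_ad, H.mx.ab a ha b hb]; simp
  obtain ⟨c, U, hU, h1⟩ := exists_anti (g := fun w : W => C.pj (p n₁) (exp (C.ad w) β))
    ((C.pj (p n₁)).contDiff.comp ((Amb.contDiff_exp.comp
      (C.ad ∘L W.subtypeL).contDiff).clm_apply contDiff_const)) fun v hv => by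
      have h2 := (C.pj (p n₁)).hasFDerivAt.comp_hasDerivAt (0 : ℝ) (C.hasDerivAt_Ad v β)
      simp only [C.Ad_ex] at h2
      have h3 := h2.unique hv
      obtain ⟨_, a, ha, rfl⟩ := v
      have h4 := C.pj_eq_zero_iff.1 h3 a ha
      change ⟪a, C.ad (C.ad a β) β⟫ = 0 at h4
      rw [real_inner_comm, C.ad_swap, inner_neg_left, C.inner_ad, C.ad_swap β a, neg_neg,
        inner_neg_right, neg_eq_zero, inner_self_eq_zero] at h4
      exact Subtype.ext h4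
  let l : W × L →L[ℝ] L := W.subtypeL.coprod (1 - I.p i)
  have h2 : HasStrictFDerivAt (fun q : N × W × L => x q.1 + l q.2) (x'.coprod l) (n₁, 0) := by
    refine ((H.der.comp (n₁, (0 : W × L)) hasStrictFDerivAt_fst).add
      (l ∘L ContinuousLinearMap.snd ℝ N (W × L)).hasStrictFDerivAt).congr_fderiv ?_
    refine ContinuousLinearMap.ext fun q => ?_
    simp
  have h3 := h2.map_nhds_eq_of_surj (by
    rw [← Submodule.orthogonal_eq_bot_iff, eq_bot_iff]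
    intro y hy
    have h4 : I.p i y = y := by
      have := hy _ ⟨(0, 0, y - I.p i y), rfl⟩
      simp only [l, ContinuousLinearMap.coe_coe, ContinuousLinearMap.coprod_apply, map_zero, map_sub,
        zero_add, ContinuousLinearMap.sub_apply, ContinuousLinearMap.one_apply, I.p_idem, sub_self,
        sub_zero] at this
      rw [eq_comm, ← sub_eq_zero, ← inner_self_eq_zero (𝕜 := ℝ), inner_sub_right, this, ← I.p_symm,
        map_sub, I.p_idem]
      simp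
    obtain ⟨a, ha, -, h5⟩ := HD.eq (H.mem y h4 fun e => by simpa using hy _ ⟨(e, 0), rfl⟩)
    simpa [l] using hy _ ⟨(0, ⟨y, a, ha, h5⟩, 0), rfl⟩)
  have h4 := image_mem_map (m := fun q : N × W × L => x q.1 + l q.2)
    (((continuous_fst.tendsto (n₁, (0 : W × L))).eventually
      (H.eq.and (H.fix.and (hperp.and hG)))).and
      (show ∀ᶠ q : N × W × L in 𝓝 (n₁, 0), q.2.1 ∈ U from
        (by fun_prop : Continuous fun q : N × W × L => q.2.1).continuousAt.preimage_mem_nhds hU))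
  rw [h3, H.zero, map_zero, add_zero] at h4
  filter_upwards [h4]
  rintro τ ⟨⟨n, w, z⟩, ⟨⟨a1, a2, a3, a4⟩, a5⟩, b⟩ hτ
  simp only [l, ContinuousLinearMap.coprod_apply, Submodule.subtypeL_apply,
    ContinuousLinearMap.sub_apply, ContinuousLinearMap.one_apply] at a1 a2 a3 a4 a5 b
  have b1 : I.p i (z - I.p i z) = 0 := by rw [map_sub, I.p_idem, sub_self]
  generalize z - I.p i z = ζ at b b1
  have b2 : C.pj (p n₁) (x n) = τ + -C.pj (p n₁) ζ := by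
    rw [← C.pj_of_mem hτ, ← b, map_add, map_add, (hW w).2]; abel
  have b3 : x n - C.pj (p n₁) (x n) = -(w + (ζ - C.pj (p n₁) ζ)) := by
    rw [b2, ← b]; abel
  have b4 : I.p i (C.pj (p n₁) ζ) = 0 := by rw [p_pj, b1, map_zero]
  have b5 : I.p i (ζ - C.pj (p n₁) ζ) = 0 := by rw [map_sub, b1, b4, sub_zero]
  rw [b3, C.ex_neg] at a1 a2
  have b6 : w = 0 := by
    have := h1 w a5 0 (mem_of_mem_nhds hU)
    rw [show C.pj (p n₁) (exp (C.ad w) β) = C.pj (p n₁) (exp (C.ad (0 : W)) β) from ?_, dist_self,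
      mul_zero, dist_le_zero] at this
    · exact this.symm
    simp only [Submodule.coe_zero, map_zero, exp_zero, ContinuousLinearMap.one_apply]
    rw [C.pj_eq_zero_iff.2 hperp.self_of_nhds, C.pj_eq_zero_iff]
    intro a ha
    have := a3 _ ((a2 a).1 ha)
    rwa [C.inner_Ad_left, inv_inv, C.ex_add _ _ (by
      rw [C.ad_swap, ← (hW w).1, C.ad_p, b5]; simp), Ctx.Ad_mul_apply, ← HD.pβ, Ad_ex_p b5,
      HD.pβ, C.Ad_ex] at this
  rw [← a4]
  congr 1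
  ext y
  simp only [LinearMap.comp_apply, ContinuousLinearMap.coe_coe]
  rw [← hD, eq_comm, ← hD, I.p_Ad, I.p_Ad, a1, b2, b6, Submodule.coe_zero, zero_add, inv_inv,
    C.ex_add τ _ (H.mx.ab _ hτ _ (Submodule.neg_mem _ (C.pj_mem _ _)))]
  simp only [Ctx.Ad_mul_apply]
  rw [Ad_ex_p b5, Ad_ex_p (by rw [map_neg, b4, neg_zero]), ← I.p_Ad, ← I.p_Ad, ← C.ex_neg,
    Ad_ex_p (by rw [map_neg, b5, neg_zero])]

theorem tr_ad {k : K} (hk : C.Reg k) (hx : ∃ x ∈ C.Fix k, C.ex x = k) (D : L →ₗ[ℝ] L)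
    (h : ∀ᶠ τ in 𝓝 (0 : L), τ ∈ C.Fix k →
      LinearMap.trace ℝ L (D ∘ₗ (C.Ad (k * C.ex τ)).toLinearMap) = 0) :
    ∀ a ∈ C.Fix k, LinearMap.trace ℝ L (D ∘ₗ (C.ad a).toLinearMap) = 0 := fun a ha => by
  have := FiniteDimensional.complete ℝ L
  let φ : (L →L[ℝ] L) →L[ℝ] ℝ := LinearMap.toContinuousLinearMap
    (LinearMap.trace ℝ L ∘ₗ LinearMap.llcomp ℝ L L L D ∘ₗ ContinuousLinearMap.coeLM ℝ)
  have hφ : ∀ T, φ T = LinearMap.trace ℝ L (D ∘ₗ T.toLinearMap) := fun T => rfl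
  have h1 : ∀ b ∈ C.Fix k, φ (C.Ad (k * C.ex b)) = 0 := fun b hb => by
    have h2 : AnalyticOnNhd ℝ (fun r : ℝ => φ (C.Ad k * exp (r • C.ad b))) Set.univ := fun r _ =>
      (φ.analyticAt _).comp (analyticAt_const.mul ((exp_analytic (𝕂 := ℝ) _).comp
        (f := fun r : ℝ => r • C.ad b) (by fun_prop)))
    have h3 := h2.eqOn_zero_of_preconnected_of_eventuallyEq_zero isPreconnected_univ
      (z₀ := 0) trivial (by
        filter_upwards [((by fun_prop : Continuous fun r : ℝ => r • b).tendsto' 0 0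
          (by simp)).eventually h] with r hr
        have := hr (Submodule.smul_mem _ r hb)
        rwa [← hφ, map_mul, C.Ad_ex, map_smul] at this)
    simpa only [map_mul, C.Ad_ex, one_smul, Pi.zero_apply] using h3 (Set.mem_univ 1)
  obtain ⟨x, hx, e⟩ := hx
  have h2 : ∀ r : ℝ, φ (exp (r • C.ad a)) = 0 := fun r => by
    have := h1 (-x + r • a) (Submodule.add_mem _ (Submodule.neg_mem _ hx) (Submodule.smul_mem _ r ha))
    rwa [C.ex_add _ _ ((Ctx.Reg.maxAb C hk).ab _ (Submodule.neg_mem _ hx) _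
      (Submodule.smul_mem _ r ha)), C.ex_neg, e, mul_inv_cancel_left, C.Ad_ex, map_smul] at this
  have h3 := φ.hasFDerivAt.comp_hasDerivAt (0 : ℝ) (hasDerivAt_exp0 (C.ad a))
  rw [show (φ ∘ fun r : ℝ => exp (r • C.ad a)) = fun _ => 0 from funext h2] at h3
  exact h3.unique (hasDerivAt_const _ _)

theorem rk_reg {q k : K} (hq : C.Reg q) (hk : C.Reg k) :
    finrank ℝ ((C.Fix q).map (I.p i).toLinearMap) ≤ finrank ℝ ((C.Fix k).map (I.p i).toLinearMap) := by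
  obtain ⟨c, hc⟩ := C.maxAb_conj (Ctx.Reg.maxAb C hq) (Ctx.Reg.maxAb C hk)
  rw [← C.finrank_map_Ad c]
  refine Submodule.finrank_mono ?_
  rintro _ ⟨_, ⟨y, hy, rfl⟩, rfl⟩
  exact ⟨_, (hc y).1 hy, I.p_Ad i c y⟩

theorem cnt_bdd (β : L) : ∃ B, ∀ k, C.Reg k → (supp C (C.Fix k) β).ncard ≤ B := by
  obtain ⟨t, ht⟩ := C.exists_maxAb
  refine ⟨(C.Wt t).ncard, fun k hk => ?_⟩
  obtain ⟨c, hc⟩ := C.maxAb_conj (Ctx.Reg.maxAb C hk) ht
  exact Set.ncard_le_ncard_of_injOn (C.Ad c) (fun α h => Ctx.Wt_tr hc h.1)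
    (fun a _ b _ h => by simpa using congrArg (C.Ad c⁻¹) h) (C.Wt_finite ht.ab)

theorem inj_M (k : K) : Function.Injective ((1 - C.Ad k) * (1 - C.pj k) + C.pj k : L →L[ℝ] L) := by
  refine (injective_iff_map_eq_zero _).2 fun z hz => ?_
  have h2 : z - C.pj k z - C.Ad k (z - C.pj k z) + C.pj k z = 0 := by simpa using hz
  have h3 := congrArg (C.pj k) h2
  rw [map_add, Ctx.pj_sub_Ad, Ctx.pj_pj, zero_add, map_zero] at h3
  rw [h3, sub_zero, add_zero, sub_eq_zero] at h2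
  rw [← C.pj_of_mem (C.mem_Fix.2 h2.symm), h3]

end

variable {L : Type} [NormedAddCommGroup L] [InnerProductSpace ℝ L] [FiniteDimensional ℝ L]
  {K : Type} [Group K] [TopologicalSpace K] [IsTopologicalGroup K] [CompactSpace K]
  [ConnectedSpace K] {A : Type} [NormedRing A] [NormedAlgebra ℝ A] [FiniteDimensional ℝ A]
  [CompleteSpace A] [MeasurableSpace A] [BorelSpace A] (C : Amb L K A)
  {N : Type} [NormedAddCommGroup N] [NormedSpace ℝ N] [FiniteDimensional ℝ N]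

theorem cont_p {p : N → K} {n₁ : N} (hp : ContDiffAt ℝ 1 (fun n => C.ι (p n)) n₁) :
    ContinuousAt p n₁ := C.ι_emb.isInducing.continuousAt_iff.2 hp.continuousAt

theorem chart (I : C.Ideals) (i : Fin I.N) {p : N → K} {n₁ : N}
    (hp : ContDiffAt ℝ 1 (fun n => C.ι (p n)) n₁) (hreg : C.Reg (p n₁)) {V : Submodule ℝ L} {q : K}
    (hq : C.Reg q)
    (hV : finrank ℝ (V.map (I.p i).toLinearMap) ≤ finrank ℝ ((C.Fix q).map (I.p i).toLinearMap))
    (hT : ∀ η ∈ Vᗮ, ∃ e, fderiv ℝ (fun n => C.ι (p n)) n₁ e = C.j η * C.ι (p n₁)) :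
    ∃ x x' Q, Ch C.toCtx I i p n₁ x x' Q := by
  have := FiniteDimensional.complete ℝ L
  set k := p n₁ with hk
  let M : L ≃L[ℝ] L := (LinearEquiv.ofInjectiveEndo
    ((1 - C.Ad k) * (1 - C.pj k) + C.pj k : L →L[ℝ] L).toLinearMap
    (inj_M k)).toContinuousLinearEquiv
  have hM : ∀ v, M v = v - C.pj k v - C.Ad k (v - C.pj k v) + C.pj k v := fun v => rfl
  let g : L → K := fun y => C.ex (y - C.pj k y) * (k * C.ex (C.pj k y)) * (C.ex (y - C.pj k y))⁻¹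
  let Φ : L → L := fun y => C.P (exp (C.j ((1 - C.pj k) y)) * (C.ι k * exp (C.j (C.pj k y))) *
    exp (C.j (-(1 - C.pj k) y)) * C.ι k⁻¹)
  have hΦ : ∀ y, Φ y = C.P (C.ι (g y * k⁻¹)) := fun y => by
    simp only [Φ, g, map_mul, ← C.ι_ex, C.ex_neg]; rfl
  have h1 : ContDiff ℝ 1 Φ := C.P.contDiff.comp ((((C.contDiff_ej.comp (1 - C.pj k).contDiff).mul
    (contDiff_const.mul (C.contDiff_ej.comp (C.pj k).contDiff))).mul
    (C.contDiff_ej.comp (1 - C.pj k).contDiff.neg)).mul contDiff_const)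
  have h2 : HasStrictFDerivAt Φ (M : L →L[ℝ] L) 0 := by
    have h := h1.contDiffAt.hasStrictFDerivAt (x := 0) one_ne_zero
    refine h.congr_fderiv (ContinuousLinearMap.ext fun v => ?_)
    have h3 := HasFDerivAt.comp_hasDerivAt_of_eq (0 : ℝ) h.hasFDerivAt
      ((hasDerivAt_id (0 : ℝ)).smul_const v) (by simp)
    have h4 := C.P.hasFDerivAt.comp_hasDerivAt (0 : ℝ) ((((C.deriv_ej ((1 - C.pj k) v)).fun_mul
      ((C.deriv_ej (C.pj k v)).const_mul (C.ι k))).fun_mul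
      (C.deriv_ej (-(1 - C.pj k) v))).mul_const (C.ι k⁻¹))
    rw [one_smul] at h3
    refine h3.unique ((h4.congr_deriv ?_).congr_of_eventuallyEq (Eventually.of_forall fun r => by
      simp only [Φ, Function.comp_def, map_smul, smul_neg, id]))
    have h5 := C.mem_Fix.1 (C.pj_mem k v)
    have h6 : ∀ y, C.j y * C.ι k * C.ι k⁻¹ = C.j y := fun y => by
      rw [mul_assoc, C.ι_mul_inv, mul_one]
    simp only [zero_smul, C.j.map_zero, exp_zero, mul_one, one_mul, add_mul, h6, ← C.j_Ad,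
      ← map_add, C.P_j, h5]
    simp [hM, h5]
    abel
  have h3 := hp.hasStrictFDerivAt one_ne_zero
  let R : A →L[ℝ] L := C.P ∘L (ContinuousLinearMap.mul ℝ A).flip (C.ι k⁻¹)
  have hR : ∀ k', R (C.ι k') = C.P (C.ι (k' * k⁻¹)) := fun k' => by simp [R]
  have h4 := R.hasStrictFDerivAt.comp n₁ h3
  have hg : g 0 = k := by simp [g, C.ex_zero]
  have h5 : R (C.ι (p n₁)) = Φ 0 := by rw [hR, hΦ, hg]
  have h6 := h2.to_localInverse
  have h7 := h2.eventually_right_inverse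
  have h8 := h2.localInverse_apply_image
  rw [← h5] at h6 h7 h8
  have h9 := h6.comp n₁ h4
  obtain ⟨U, hU, h10⟩ := C.chart_inj
  have h11 : Continuous g := ((C.cont_ex.comp (by fun_prop)).mul (continuous_const.mul
    (C.cont_ex.comp (by fun_prop)))).mul (C.cont_ex.comp (by fun_prop)).inv
  refine ⟨_, _, (V.map (I.p i).toLinearMap).map (ContinuousLinearMap.adjoint
    (M : L →L[ℝ] L)).toLinearMap, h9, h8, ?_,
    (cont_p C hp).eventually (C.isOpen_reg.mem_nhds hreg), fun y hy h => ?_,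
    (Submodule.finrank_map_le _ _).trans (hV.trans (rk_reg hq hreg))⟩
  · filter_upwards [h4.continuousAt.eventually h7,
      ((cont_p C hp).mul (continuousAt_const (y := k⁻¹))).preimage_mem_nhds (t := U)
        (by simpa [hk] using hU),
      ((h11.continuousAt.comp h9.continuousAt).mul
        (continuousAt_const (y := k⁻¹))).preimage_mem_nhds (t := U)
        (by simpa [h8, hg] using hU)] with n a b c
    exact mul_right_cancel (h10 b c ((hR _).symm.trans (a.symm.trans (hΦ _))))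
  · let u := ContinuousLinearMap.adjoint (M.symm : L →L[ℝ] L) y
    have hu : ∀ v, ⟪u, M v⟫ = ⟪y, v⟫ := fun v => by
      simp [u, ContinuousLinearMap.adjoint_inner_left]
    refine ⟨_, ⟨u, ?_, rfl⟩, ext_inner_right ℝ fun v => ?_⟩
    · rw [← V.orthogonal_orthogonal]
      intro η hη
      obtain ⟨e, he⟩ := hT η hη
      have := h e
      simp only [ContinuousLinearMap.comp_apply, he, R, ContinuousLinearMap.flip_apply,
        ContinuousLinearMap.mul_apply', mul_assoc, C.ι_mul_inv, mul_one, C.P_j] at this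
      rw [← M.apply_symm_apply η, real_inner_comm, hu, real_inner_comm]
      exact this
    · simp only [ContinuousLinearMap.coe_coe, ContinuousLinearMap.adjoint_inner_left,
        ContinuousLinearEquiv.coe_coe]
      rw [I.p_symm, show I.p i (M v) = M (I.p i v) by
        simp only [hM, map_add, map_sub, I.p_Ad, p_pj], hu, ← I.p_symm, hy]

end FVC

namespace Amb

variable {L : Type} [NormedAddCommGroup L] [InnerProductSpace ℝ L] [FiniteDimensional ℝ L]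
  {K : Type} [Group K] [TopologicalSpace K] [IsTopologicalGroup K] [CompactSpace K]
  [ConnectedSpace K] {A : Type} [NormedRing A] [NormedAlgebra ℝ A] [FiniteDimensional ℝ A]
  [CompleteSpace A] [MeasurableSpace A] [BorelSpace A] (C : Amb L K A) {g : ℕ}

open FVC in
theorem fv_core (I : C.Ideals) (i : Fin I.N) {N : Type} [NormedAddCommGroup N] [NormedSpace ℝ N]
    [FiniteDimensional ℝ N] (p : N → K) (hp : ContDiffAt ℝ 1 (fun n => C.ι (p n)) 0)
    (hreg : C.Reg (p 0))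
    (hT : ∀ᶠ n in 𝓝 0, ∃ (V : Submodule ℝ L) (q : K), C.Reg q ∧ (∀ x ∈ V, I.p i x ∈ V) ∧
      finrank ℝ (V.map (I.p i).toLinearMap) ≤ finrank ℝ ((C.Fix q).map (I.p i).toLinearMap) ∧
      ∀ η ∈ Vᗮ, ∃ e, fderiv ℝ (fun n => C.ι (p n)) n e = C.j η * C.ι (p n))
    {β : L} (hβ : I.p i β = β) (h0 : β ≠ 0) (hperp : ∀ᶠ n in 𝓝 0, β ∈ (C.Fix (p n))ᗮ)
    (D : L →ₗ[ℝ] L) (hD : ∀ x, D (I.p i x) = D x)
    (hG : ∀ᶠ n in 𝓝 0, LinearMap.trace ℝ L (D ∘ₗ (C.Ad (p n)).toLinearMap) = 0) :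
    ∃ c : ℝ, ∀ τ, LinearMap.trace ℝ L (D ∘ₗ (C.ad τ).toLinearMap) = c * ⟪β, τ⟫ := by
  have := FiniteDimensional.complete ℝ L
  have h1 : ∀ᶠ n in 𝓝 (0 : N), ∃ x x' Q, Ch C.toCtx I i p n x x' Q := by
    filter_upwards [hp.eventually (by simp), hT,
      (cont_p C hp).eventually (C.isOpen_reg.mem_nhds hreg)]
    rintro n a ⟨V, q, b1, -, b2, b3⟩ c
    exact chart C I i a c b1 b2 b3
  obtain ⟨O, h2, hO, h3⟩ := eventually_nhds_iff.1 (h1.and (hperp.and hG))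
  obtain ⟨B, hB⟩ := cnt_bdd (C := C.toCtx) β
  have h4 : BddAbove ((fun n => (supp C.toCtx (C.Fix (p n)) β).ncard) '' O) := ⟨B, by
    rintro _ ⟨n, hn, rfl⟩
    obtain ⟨x, x', Q, H⟩ := (h2 n hn).1
    exact hB _ H.reg₁⟩
  obtain ⟨n₁, hn₁, h5⟩ := Nat.sSup_mem (Set.Nonempty.image _ ⟨0, h3⟩) h4
  have h6 : ∀ n ∈ O, (supp C.toCtx (C.Fix (p n)) β).ncard ≤
      (supp C.toCtx (C.Fix (p n₁)) β).ncard := fun n hn => (le_csSup h4 ⟨n, hn, rfl⟩).trans h5.ge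
  have h7 : ∀ n ∈ O, ∀ᶠ m in 𝓝 n, β ∈ (C.Fix (p m))ᗮ := fun n hn =>
    mem_of_superset (hO.mem_nhds hn) fun m hm => (h2 m hm).2.1
  let φ : L →L[ℝ] ℝ := LinearMap.toContinuousLinearMap
    (LinearMap.trace ℝ L ∘ₗ LinearMap.llcomp ℝ L L L D ∘ₗ ContinuousLinearMap.coeLM ℝ ∘ₗ
      C.ad.toLinearMap)
  obtain ⟨ν, hν⟩ : ∃ ν : L, ∀ τ, ⟪ν, τ⟫ = LinearMap.trace ℝ L (D ∘ₗ (C.ad τ).toLinearMap) :=
    ⟨(InnerProductSpace.toDual ℝ L).symm φ, fun τ => InnerProductSpace.toDual_symm_apply⟩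
  have h8 : I.p i ν = ν := ext_inner_right ℝ fun τ => by
    rw [I.p_symm, hν, hν]
    congr 1
    ext y
    simp only [LinearMap.comp_apply, ContinuousLinearMap.coe_coe]
    rw [← C.ad_p, ← I.p_ad, hD]
  obtain ⟨x, x', Q, H⟩ := (h2 n₁ hn₁).1
  have h9 : ∀ᶠ n in 𝓝 n₁, ν ∈ (C.Fix (p n))ᗮ := by
    filter_upwards [hO.mem_nhds hn₁, H.cnt_le β] with n hn h a ha
    obtain ⟨x, x', Q, H⟩ := (h2 n hn).1
    rw [real_inner_comm, hν]
    exact tr_ad H.reg₁ (C.mem_ex_Fix _) D (H.tr_zero (H.dat hβ h0 (h7 n hn)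
      (mem_of_superset (hO.mem_nhds hn) fun m hm => (h6 m hm).trans h)) (h7 n hn) D hD
      (mem_of_superset (hO.mem_nhds hn) fun m hm => (h2 m hm).2.2)) a ha
  obtain ⟨c, hc⟩ := (H.dat hβ h0 (h7 n₁ hn₁) (mem_of_superset (hO.mem_nhds hn₁) h6)).fin
    (h2 n₁ hn₁).2.1 h8 h9.self_of_nhds (H.perpW h8 h9)
  exact ⟨c, fun τ => by rw [← hν, hc, real_inner_smul_left]⟩

end Amb

end Pool.Agent.Lib.MP_d52947_gt
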