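import Pool.Agent.Lib.MP_d52947_gt.Conn
import Pool.Agent.Lib.MP_d52947_gt.KronA
import Pool.Agent.Lib.MP_d52947_gt.Erg1
import Pool.Agent.Lib.MP_d52947_gt.FVC

-- part Pool.Agent.Lib.MP_d52947_gt.Chart
section

/-! Analytic charts of the representation variety. -/

namespace Pool.Agent.Lib.MP_d52947_gt

open Filter Topology Module NormedSpace MeasureTheory
open scoped RealInnerProductSpace

namespace Ctx

variable {L : Type} [NormedAddCommGroup L] [InnerProductSpace ℝ L] [FiniteDimensional ℝ L]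
  {K : Type} [Group K] [TopologicalSpace K] [IsTopologicalGroup K] [CompactSpace K]
  [ConnectedSpace K] (C : Ctx L K) {g : ℕ}

theorem small_fix : ∀ᶠ η in 𝓝 (0 : L), ∀ ζ, C.Ad (C.ex η) ζ = ζ → C.ad ζ η = 0 := by
  obtain ⟨U, hU, h⟩ := C.ex_inj
  obtain ⟨ε, hε, h1⟩ := Metric.mem_nhds_iff.1 hU
  filter_upwards [Metric.ball_mem_nhds 0 hε] with η hη ζ h2
  refine (C.hasDerivAt_Ad ζ η).unique ((hasDerivAt_const _ η).congr_of_eventuallyEq
    (Eventually.of_forall fun s => h (h1 ?_) (h1 hη) ?_))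
  · simpa [C.norm_Ad] using hη
  · rw [← C.ex_conj, ← C.ex_comm (C.mem_Fix.2 (by rw [map_smul, h2])), mul_inv_cancel_right]

theorem perp_Ad {W : Submodule ℝ L} {k : K} (h : ∀ y ∈ W, C.Ad k⁻¹ y ∈ W) :
    ∀ y ∈ Wᗮ, C.Ad k y ∈ Wᗮ := fun y hy z hz => by
  rw [C.inner_Ad_right]; exact hy _ (h z hz)

theorem cv_proj {x : Gen g → K} {n h : Submodule ℝ L} (hn : n ≤ C.cen x (List.finRange g))
    (hh : ∀ y, y ∈ h ↔ ∀ ζ ∈ n, C.ad ζ y = 0) (u : Gen g → L) (e : FG g) :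
    C.cv x e (fun i => h.starProjection (u i)) = h.starProjection (C.cv x e u) := by
  have h1 : ∀ e, ∀ y ∈ h, C.Ad (val x e) y ∈ h := fun e y hy => (hh _).2 fun ζ hζ => by
    rw [← C.mem_cen_all.1 (hn hζ) e, ← C.Ad_ad, (hh y).1 hy ζ hζ, map_zero]
  exact C.coc_ext (x := x) (f := fun e => C.cv x e fun i => h.starProjection (u i))
    (f' := fun e => h.starProjection (C.cv x e u)) (C.cv_mul x _) (fun v w => by
      rw [cv_mul, map_add, proj_comm (C.Ad (val x v)) (h1 v)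
        (C.perp_Ad (by simpa using h1 v⁻¹))]) (by simp) e

end Ctx

namespace Amb

variable {L : Type} [NormedAddCommGroup L] [InnerProductSpace ℝ L] [FiniteDimensional ℝ L]
  {K : Type} [Group K] [TopologicalSpace K] [IsTopologicalGroup K] [CompactSpace K]
  [ConnectedSpace K] {A : Type} [NormedRing A] [NormedAlgebra ℝ A] [FiniteDimensional ℝ A]
  [CompleteSpace A] (C : Amb L K A) {g : ℕ}

theorem chart {x : Gen g → K} (hx : Ctx.val x (relator g) = 1) {n h : Submodule ℝ L}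
    (hn : C.cen x (List.finRange g) = n) (hh : ∀ y, y ∈ h ↔ ∀ ζ ∈ n, C.ad ζ y = 0) (hnh : n ≤ h) :
    ∃ (T : Submodule ℝ ((Gen g → h) × n)) (X : T → Gen g → K) (ρ : (Gen g → A) → T),
      C.AnX X 0 ∧ X 0 = x ∧ Function.Injective (C.tan X 0) ∧
      (∀ u, (∃ w, C.tan X 0 w = u) ↔ u ∈ C.Z1 x ∧ ∀ i, u i ∈ h) ∧ AnalyticAt ℝ ρ (C.emb x) ∧
      (∀ᶠ w in 𝓝 0, Ctx.val (X w) (relator g) = 1 ∧ ρ (C.emb (X w)) = w) ∧
      ∀ᶠ y in 𝓝 x, Ctx.val y (relator g) = 1 → (∀ i, C.crd x (C.emb y) i ∈ h) →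
        X (ρ (C.emb y)) = y := by
  let inc : (Gen g → h) × n →L[ℝ] (Gen g → L) := ContinuousLinearMap.pi fun i =>
    h.subtypeL ∘L ContinuousLinearMap.proj i ∘L ContinuousLinearMap.fst ℝ _ _
  let zz : (Gen g → h) × n →L[ℝ] L := n.subtypeL ∘L ContinuousLinearMap.snd ℝ _ _
  let Y : (Gen g → h) × n → Gen g → K := fun v => C.mvg x (inc v)
  have hY : ∀ v, C.AnX Y v := fun v => (C.anX_mvg x _).comp (inc.analyticAt v) rfl
  have Y0 : Y 0 = x := by simp only [Y, map_zero, mvg_zero]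
  have tY : ∀ v, C.tan Y 0 v = inc v := fun v => by
    rw [AnX.tan_comp (C.anX_mvg _ _) inc.differentiableAt, map_zero, tan_mvg, inc.fderiv]
  let k : (Gen g → h) × n → K := fun v => Ctx.val (Y v) (relator g) * C.ex (zz v)
  have k0 : k 0 = 1 := by simp [k, Y0, hx, C.ex_zero]
  have hk : ∀ v, AnalyticAt ℝ (fun v => C.ι (k v)) v := fun v => by
    simp only [k, map_mul, C.ι_ex]
    exact ((hY v).val _).mul ((C.an_ej _).comp (zz.analyticAt v))
  have hk' : ∀ v, fderiv ℝ (fun v => C.ι (k v)) 0 v = C.j (C.cv x (relator g) (inc v) + zz v) := by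
    intro v
    have h1 := ((hY 0).val (relator g)).differentiableAt.hasFDerivAt.fun_mul'
      (HasFDerivAt.comp (g := fun η => exp (C.j η)) 0 (by rw [map_zero]; exact C.fd_ej)
        zz.hasFDerivAt)
    simp only [k, map_mul, C.ι_ex]
    refine (congrArg (· v) h1.fderiv).trans ?_
    simp [(hY 0).fd_val, Y0, hx, tY, add_comm]
  let F : (Gen g → h) × n → h := fun v => h.orthogonalProjection (C.lg (C.ι (k v)))
  have h1 := C.an_lg.comp_of_eq (hk 0) (by rw [k0, map_one])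
  have hF : AnalyticAt ℝ F 0 := (h.orthogonalProjection.analyticAt _).comp h1
  have hc : ∀ v, C.cv x (relator g) (inc v) ∈ h ⊓ nᗮ := fun v => by
    refine ⟨?_, ((C.range_cv x).trans (congrArg _ hn)).le ⟨_, rfl⟩⟩
    rw [show inc v = fun i => h.starProjection (inc v i) from funext fun i =>
      (Submodule.starProjection_eq_self_iff.2 (v.1 i).2).symm, C.cv_proj hn.ge hh]
    exact h.starProjection_apply_mem _
  have hF' : ∀ v, (fderiv ℝ F 0 v : L) = C.cv x (relator g) (inc v) + zz v := fun v => by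
    have h2 := h.orthogonalProjection.hasFDerivAt.comp 0 (HasFDerivAt.comp (g := C.lg) 0
      (by rw [k0, map_one]; exact C.an_lg.differentiableAt.hasFDerivAt)
      (hk 0).differentiableAt.hasFDerivAt)
    rw [show fderiv ℝ F 0 = _ from h2.fderiv]
    simp only [ContinuousLinearMap.comp_apply, hk', fd_lg]
    exact Submodule.starProjection_eq_self_iff.2 (h.add_mem (hc v).1 (hnh v.2.2))
  have hT : ∀ v, fderiv ℝ F 0 v = 0 ↔ inc v ∈ C.Z1 x ∧ v.2 = 0 := fun v => by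
    rw [Subtype.ext_iff, hF', Ctx.mem_Z1]
    refine ⟨fun H => ?_, fun H => by simp [H.1, zz, H.2]⟩
    have h2 : zz v = 0 := by
      have := (hc v).2 _ v.2.2
      rw [eq_neg_of_add_eq_zero_left H, inner_neg_right, neg_eq_zero] at this
      exact inner_self_eq_zero.1 this
    exact ⟨by simpa [h2] using H, Subtype.ext h2⟩
  obtain ⟨κ, ρ, h2, h3, h4, h5, h6⟩ := ift0 hF (fun y => by
    obtain ⟨u, hu⟩ : (y : L) - n.starProjection y ∈ LinearMap.range (C.cv x (relator g)) := by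
      rw [C.range_cv, hn]; exact n.sub_starProjection_mem_orthogonal _
    refine ⟨(fun i => h.orthogonalProjection (u i), n.orthogonalProjection y), Subtype.ext ?_⟩
    rw [hF', show inc _ = fun i => h.starProjection (u i) from rfl, C.cv_proj hn.ge hh, hu,
      Submodule.starProjection_eq_self_iff.2 (h.sub_mem y.2 (hnh (n.starProjection_apply_mem _)))]
    exact sub_add_cancel _ _) (LinearMap.ker (fderiv ℝ F 0).toLinearMap) fun v => Iff.rfl
  have F0 : F 0 = 0 := by simp [F, k0, lg_one]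
  simp only [F0, sub_zero] at h5 h6
  have tκ : Tendsto κ (𝓝 0) (𝓝 0) := by simpa only [h3] using h2.continuousAt.tendsto
  have hcen : ∀ v, n ≤ C.cen (Y v) (List.finRange g) := fun v θ hθ i hi s => by
    rw [show Y v (i, s) = C.ex (v.1 (i, s)) * x (i, s) from rfl, C.Ad_mul_apply, hn.ge hθ i hi s,
      C.Ad_ex_fix]
    rw [C.ad_swap, (hh _).1 (v.1 _).2 θ hθ, neg_zero]
  have h7 : ∀ᶠ v in 𝓝 0, F v = 0 → k v = 1 := by
    have tk : Tendsto k (𝓝 0) (𝓝 1) := k0 ▸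
      (C.ι_emb.isEmbedding.isInducing.continuousAt_iff.2 (hk 0).continuousAt).tendsto
    have tl : Tendsto (fun v => C.lg (C.ι (k v))) (𝓝 0) (𝓝 0) := by
      simpa [Function.comp_def, k0, lg_one] using h1.continuousAt.tendsto
    filter_upwards [tk.eventually C.ex_lg, tl.eventually C.small_fix] with v a1 a2 a3
    have a4 : C.lg (C.ι (k v)) ∈ h := (hh _).2 fun ζ hζ => a2 ζ (by
      rw [a1, C.Ad_mul_apply, C.Ad_ex_fix, C.mem_cen_all.1 (hcen v hζ)]
      exact (hh ζ).1 (hnh hζ) _ v.2.2)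
    rw [← a1, ← Submodule.starProjection_eq_self_iff.2 a4,
      show h.starProjection _ = 0 from congrArg Subtype.val a3, C.ex_zero]
  have h8 := (tκ.eventually h7).mp (h5.mono fun w a b => b a.1)
  have h9 : ∀ᶠ w in 𝓝 0, zz (κ w) = 0 := by
    obtain ⟨ε, hε, a1⟩ := Metric.eventually_nhds_iff_ball.1
      (h2.eventually_analyticAt.and h8.eventually_nhds)
    filter_upwards [Metric.ball_mem_nhds 0 hε] with w hw
    refine (Metric.isOpen_ball.is_const_of_fderiv_eq_zero (𝕜 := ℝ) (f := fun w => zz (κ w))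
      (convex_ball _ _).isPreconnected (fun v hv => ((zz.analyticAt _).comp
        (a1 v hv).1).differentiableAt.differentiableWithinAt) (fun v hv => ?_) hw
        (Metric.mem_ball_self hε)).trans (by rw [h3, map_zero])
    ext1 e
    have a2 := ((zz.analyticAt _).comp (a1 v hv).1).differentiableAt.hasFDerivAt
    have a3 := ((hY _).comp (a1 v hv).1 rfl).tan_wd (fun _ : Unit => relator g) e ()
    rw [tan_congr (Y := fun w => C.mvg (fun _ : Unit => C.ex (-zz (κ v)))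
      fun _ => zz (κ v) - zz (κ w)) ((a1 v hv).2.mono fun w hw => funext fun _ => by
        simp only [mvg]
        rw [eq_inv_of_mul_eq_one_left hw, ← C.ex_add, ← C.ex_neg, sub_add_eq_add_sub,
          add_neg_cancel, zero_sub]
        exact (hh _).1 (hnh (n.neg_mem (κ v).2.2)) _ (n.sub_mem (κ v).2.2 (κ w).2.2)),
      AnX.tan_comp (ζ := fun w _ => zz (κ v) - zz (κ w)) (C.anX_mvg _ _)
        (differentiableAt_pi.2 fun _ =>
        (a2.const_sub _).differentiableAt), sub_self, show (fun _ : Unit => (0 : L)) = 0 from rfl,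
      tan_mvg, show fderiv ℝ (fun w (_ : Unit) => zz (κ v) - zz (κ w)) v = _ from
        (hasFDerivAt_pi.2 fun _ => a2.const_sub (zz (κ v))).fderiv] at a3
    have a4 : fderiv ℝ (zz ∘ κ) v e ∈ n := by
      rw [fderiv_comp v zz.differentiableAt (a1 v hv).1.differentiableAt, zz.fderiv]
      exact (fderiv ℝ κ v e).2.2
    have a5 := (C.cen_perp _ (C.tan (fun w => Y (κ w)) v e) (hcen (κ v) a4)).1
    rw [← relator_eq_wl, ← a3] at a5
    simpa [Function.comp_def] using a5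
  let pr : (Gen g → L) →L[ℝ] (Gen g → h) × n := (ContinuousLinearMap.pi fun i =>
    h.orthogonalProjection ∘L ContinuousLinearMap.proj i).prod 0
  have hpr : ∀ v, zz v = 0 → pr (inc v) = v := fun v hv =>
    Prod.ext (funext fun i => by simp [pr, inc]) (Subtype.ext hv.symm)
  have tX : ∀ w, C.tan (fun w => Y (κ w)) 0 w = inc w := fun w => by
    rw [AnX.tan_comp (hY _) h2.differentiableAt, h3, tY, h4]; rfl
  refine ⟨_, fun w => Y (κ w), fun z => ρ (pr (C.crd x z)), (hY _).comp h2 rfl, (congrArg Y h3).trans Y0,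
    (injective_iff_map_eq_zero _).2 fun w hw => Subtype.ext ?_, fun u => ⟨?_, fun hu => ?_⟩,
    ((ρ ∘L pr).analyticAt _).comp (C.an_crd x), ?_, ?_⟩
  · rw [← hpr w (congrArg Subtype.val ((hT _).1 w.2).2), ← tX, hw, map_zero]; rfl
  · rintro ⟨w, rfl⟩
    rw [tX]; exact ⟨((hT _).1 w.2).1, fun i => (w.1.1 i).2⟩
  · exact ⟨⟨(fun i => ⟨u i, hu.2 i⟩, 0), (hT _).2 ⟨hu.1, rfl⟩⟩, tX _⟩
  · filter_upwards [h5, h8, h9, ((map_zero inc ▸ inc.continuous.tendsto 0).comp tκ).eventually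
      (C.crd_mvg x)] with w a1 a2 a3 a4
    refine ⟨by simpa [k, a3, C.ex_zero] using a2, ?_⟩
    rw [show C.crd x (C.emb (Y (κ w))) = inc (κ w) from a4, hpr _ a3, a1.2]
  · have t1 : Tendsto (fun y => pr (C.crd x (C.emb y))) (𝓝 x) (𝓝 0) := by
      simpa [Function.comp_def, crd_self] using (pr.continuous.continuousAt.comp
        ((C.an_crd x).continuousAt.comp C.cont_emb.continuousAt)).tendsto
    filter_upwards [t1.eventually h6, C.mvg_crd x] with y a1 a2 a3 a4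
    have a5 : Y (pr (C.crd x (C.emb y))) = y := by
      refine Eq.trans (congrArg (C.mvg x) (funext fun i => ?_)) a2
      exact Submodule.starProjection_eq_self_iff.2 (a4 i)
    rw [a1, a5]
    simp only [F, k, a5, a3]
    simp [zz, pr, C.ex_zero, lg_one]

/-- an analytic chart of the irreducible locus -/
structure Chart (g : ℕ) (X : (Fin (C.d0 g) → ℝ) → Gen g → K)
    (ρ : (Gen g → A) → Fin (C.d0 g) → ℝ) (O : Set (Fin (C.d0 g) → ℝ)) : Prop where
  isOpen : IsOpen O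
  conn : IsPreconnected O
  an : ∀ w ∈ O, C.AnX X w
  irr : ∀ w ∈ O, X w ∈ C.Rirr g
  inj : ∀ w ∈ O, Function.Injective (C.tan X w)
  range : ∀ w ∈ O, ∀ u, (∃ e, C.tan X w e = u) ↔ u ∈ C.Z1 (X w)
  anr : ∀ w ∈ O, AnalyticAt ℝ ρ (C.emb (X w))
  left : ∀ w ∈ O, ρ (C.emb (X w)) = w
  right : ∀ w ∈ O, ∀ᶠ y in 𝓝 (X w), Ctx.val y (relator g) = 1 → X (ρ (C.emb y)) = y

theorem AnX.tan_mem {C : Amb L K A} {V G : Type} [NormedAddCommGroup V] [NormedSpace ℝ V]
    [Fintype G] {X : V → G → K} {w : V} (h : C.AnX X w) {e : FreeGroup G}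
    (he : ∀ᶠ v in 𝓝 w, Ctx.val (X v) e = Ctx.val (X w) e) (v : V) :
    C.cv (X w) e (C.tan X w v) = 0 := by
  refine C.eq_zero_of_j_mul (k := Ctx.val (X w) e) ?_
  rw [← h.fd_val, Filter.EventuallyEq.fderiv_eq (he.mono fun _ h => congrArg C.ι h)]
  simp

theorem exists_chart {x : Gen g → K} (hx : x ∈ C.Rirr g) :
    ∃ X ρ O, C.Chart g X ρ O ∧ 0 ∈ O ∧ X 0 = x := by
  obtain ⟨T, X, ρ, h1, h2, h3, h4, h5, h6, h7⟩ := C.chart hx.1 (n := C.Z) (h := ⊤)
    (le_antisymm hx.2 (C.Z_le_cen _ _)) (fun y => by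
      simp only [Submodule.mem_top, true_iff]
      exact fun ζ hζ => by rw [C.mem_Z.1 hζ]; rfl) le_top
  have hd : finrank ℝ (Fin (C.d0 g) → ℝ) = finrank ℝ T := by
    rw [finrank_fin_fun, ← C.finrank_Z1_irr hx, ← LinearMap.finrank_range_of_inj
      (f := (C.tan X 0).toLinearMap) h3]
    rw [show C.Z1 x = LinearMap.range (C.tan X 0).toLinearMap from Submodule.ext fun u =>
      ⟨fun h => (h4 u).2 ⟨h, fun _ => trivial⟩, fun h => ((h4 u).1 h).1⟩]
  let e := ContinuousLinearEquiv.ofFinrankEq hd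
  let X' := fun w => X (e w)
  have a1 : C.AnX X' 0 := h1.comp (e.analyticAt 0) (map_zero e)
  have a2 : X' 0 = x := by simp only [X', map_zero, h2]
  have te : Tendsto e (𝓝 0) (𝓝 0) := e.continuous.tendsto' _ _ (map_zero e)
  have tX : Tendsto X' (𝓝 0) (𝓝 x) := a2 ▸ a1.cont.tendsto
  have a3 : ∀ᶠ w in 𝓝 0, Function.Injective (C.tan X' w) :=
    a1.cont_tan.eventually (ContinuousLinearMap.isOpen_injective.mem_nhds (by
      intro u v huv
      rw [AnX.tan_comp (by rwa [map_zero]) e.differentiableAt,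
        AnX.tan_comp (by rwa [map_zero]) e.differentiableAt, map_zero, e.fderiv] at huv
      exact e.injective (h3 huv)))
  have a4 : AnalyticAt ℝ (fun z => e.symm (ρ z)) (C.emb x) := (e.symm.analyticAt _).comp h5
  obtain ⟨ε, hε, H⟩ := Metric.eventually_nhds_iff_ball.1 (a1.ev.and (a3.and
    ((te.eventually h6).eventually_nhds.and ((tX.eventually ((C.isOpen_cen _).mem_nhds hx.2)).and
    (((C.cont_emb.tendsto x).comp tX).eventually a4.eventually_analyticAt |>.and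
    (tX.eventually h7.eventually_nhds))))))
  have a5 : ∀ w ∈ Metric.ball 0 ε, X' w ∈ C.Rirr g := fun w hw =>
    ⟨(H w hw).2.2.1.self_of_nhds.1, (H w hw).2.2.2.1⟩
  refine ⟨X', fun z => e.symm (ρ z), Metric.ball 0 ε, ⟨Metric.isOpen_ball,
    (convex_ball _ _).isPreconnected, fun w hw => (H w hw).1, a5, fun w hw => (H w hw).2.1,
    fun w hw u => ?_, fun w hw => (H w hw).2.2.2.2.1, fun w hw => ?_, fun w hw => ?_⟩,
    Metric.mem_ball_self hε, a2⟩
  · rw [← Submodule.eq_of_le_of_finrank_eq (S₁ := LinearMap.range (C.tan X' w).toLinearMap)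
      (S₂ := C.Z1 (X' w))]
    · rfl
    · rintro _ ⟨v, rfl⟩
      exact (H w hw).1.tan_mem ((H w hw).2.2.1.mono fun v hv => hv.1.trans (a5 w hw).1.symm) v
    · rw [LinearMap.finrank_range_of_inj (H w hw).2.1, finrank_fin_fun, C.finrank_Z1_irr (a5 w hw)]
  · rw [(H w hw).2.2.1.self_of_nhds.2, e.symm_apply_apply]
  · exact (H w hw).2.2.2.2.2.mono fun y hy a => by
      simp only [X', e.apply_symm_apply, hy a fun _ => trivial]

variable {C} {X : (Fin (C.d0 g) → ℝ) → Gen g → K} {ρ : (Gen g → A) → Fin (C.d0 g) → ℝ}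
  {O : Set (Fin (C.d0 g) → ℝ)}

theorem Chart.tendsto (h : C.Chart g X ρ O) {w} (hw : w ∈ O) :
    Tendsto (fun y => ρ (C.emb y)) (𝓝 (X w)) (𝓝 w) := by
  simpa only [Function.comp_def, h.left w hw] using
    ((h.anr w hw).continuousAt.comp C.cont_emb.continuousAt).tendsto

variable [MeasurableSpace A] [BorelSpace A]

theorem Chart.nul_iff (h : C.Chart g X ρ O) {S : Set (Fin (C.d0 g) → ℝ)} (hS : S ⊆ O) :
    C.Nul (C.d0 g) (X '' S) ↔ volume S = 0 := by
  rw [← haus_null_iff volume, finrank_fin_fun, Nul, Set.image_image]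
  refine ⟨fun H => measure_mono_null (fun w hw => ?_) (null_image (f := ρ) ?_ H),
    null_image fun w hw => (h.an w (hS hw)).contDiffAt⟩
  · exact ⟨_, ⟨w, hw, rfl⟩, h.left w (hS hw)⟩
  · rintro _ ⟨w, hw, rfl⟩
    exact (h.anr w (hS hw)).contDiffAt

theorem Chart.ae (h : C.Chart g X ρ O) {P : (Gen g → K) → Prop} (hP : C.Ae P) :
    ∀ᵐ w, w ∈ O → P (X w) := by
  rw [ae_iff]
  refine (h.nul_iff fun w hw => (_root_.not_imp.1 hw).1).1 (Nul.mono hP ?_)
  rintro _ ⟨w, hw, rfl⟩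
  exact ⟨h.irr w (_root_.not_imp.1 hw).1, (_root_.not_imp.1 hw).2⟩

end Amb

end Pool.Agent.Lib.MP_d52947_gt
end

-- part Pool.Agent.Lib.MP_d52947_gt.Hyp
section

/-! Invariant hypersurfaces and saturated families. -/

namespace Pool.Agent.Lib.MP_d52947_gt

open Filter Topology Module MeasureTheory
open scoped RealInnerProductSpace

namespace Ctx

variable {L : Type} [NormedAddCommGroup L] [InnerProductSpace ℝ L] [FiniteDimensional ℝ L]
  {K : Type} [Group K] [TopologicalSpace K] (C : Ctx L K)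

/-- the adjoint characters of the simple ideals are not critical at `k` -/
def Gr (I : C.Ideals) (k : K) : Prop := ∀ i, (∃ x, I.p i x ≠ 0) → ∃ τ,
  LinearMap.trace ℝ L ((I.p i).toLinearMap ∘ₗ (C.Ad k).toLinearMap ∘ₗ (C.ad τ).toLinearMap) ≠ 0

end Ctx

namespace Amb

variable {L : Type} [NormedAddCommGroup L] [InnerProductSpace ℝ L] [FiniteDimensional ℝ L]
  {K : Type} [Group K] [TopologicalSpace K] [IsTopologicalGroup K] [CompactSpace K]
  [ConnectedSpace K] {A : Type} [NormedRing A] [NormedAlgebra ℝ A] [FiniteDimensional ℝ A]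
  [CompleteSpace A] (C : Amb L K A) {g : ℕ}
  {V : Type} [NormedAddCommGroup V] [NormedSpace ℝ V] [FiniteDimensional ℝ V]

/-- an analytic hypersurface of the irreducible locus tangent to all twist flows -/
structure Hyp (X : V → Gen (g + 2) → K) (O : Set V) : Prop where
  isOpen : IsOpen O
  conn : IsPreconnected O
  ne : O.Nonempty
  an : ∀ w ∈ O, C.AnX X w
  irr : ∀ w ∈ O, X w ∈ C.Rirr (g + 2)
  dual : ∀ w ∈ O, ∃ v : C.Z1 (X w), v ∉ C.B1 (X w) ∧
    (∀ u, (∃ e, C.tan X w e = u) ↔ u ∈ C.Z1 (X w) ∧ C.om (X w) v u = 0) ∧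
    ∀ φ : AutR (g + 2), C.Reg (Ctx.val (X w) (φ.1 (ga 0))) → C.dI (X w) (φ.1 (ga 0)) v = 0

/-- a family filling a fibre of the projection to the generators `s`, with fixed conormal `ν` -/
structure Fam {m : ℕ} (s : Fin m → Gen (g + 2)) (ν : Fin m → L) (Y : V → Gen (g + 2) → K) :
    Prop where
  an : C.AnX Y 0
  ev : ∀ᶠ n in 𝓝 0, Y n ∈ C.Rirr (g + 2) ∧ (∀ t, Y n (s t) = Y 0 (s t)) ∧
    (∀ u ∈ C.Z1 (Y n), (∀ t, u (s t) = 0) → ∃ e, C.tan Y n e = u) ∧
    ∃ w ∈ C.Z1 (Y n), w ≠ 0 ∧ (∀ u, C.om (Y n) w u = ∑ t, ⟪ν t, u (s t)⟫) ∧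
      ∀ φ : AutR (g + 2), C.Reg (Ctx.val (Y n) (φ.1 (ga 0))) →
        C.cv (Y n) (φ.1 (ga 0)) w ∈ (C.Fix (Ctx.val (Y n) (φ.1 (ga 0))))ᗮ

variable {C} {X : V → Gen (g + 2) → K} {O : Set V}

theorem Hyp.act (h : C.Hyp X O) (φ : AutR (g + 2)) :
    C.Hyp (fun w => Ctx.act φ.1.toMonoidHom (X w)) O := by
  refine ⟨h.isOpen, h.conn, h.ne, fun w hw => (h.an w hw).wd _,
    fun w hw => C.act_mem_Rirr φ (h.irr w hw), fun w hw => ?_⟩
  obtain ⟨v, h1, h2, h3⟩ := h.dual w hw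
  have ht : ∀ e, C.tan (fun w => Ctx.act φ.1.toMonoidHom (X w)) w e =
      C.pb φ.1.toMonoidHom (X w) (C.tan X w e) := fun e => funext ((h.an w hw).tan_wd _ e)
  refine ⟨C.pbZ φ _ v, fun H => h1 (C.mem_B1_of_omZ fun u => ?_), fun u => ⟨?_, fun H => ?_⟩,
    fun ψ H => ?_⟩
  · rw [← C.omZ_pbZ φ]; exact C.omZ_B1 H _
  · rintro ⟨e, rfl⟩
    obtain ⟨a, b⟩ := (h2 _).1 ⟨e, rfl⟩
    rw [ht, Ctx.pbZ_coe, C.om_pb φ.1.toMonoidHom φ.2]
    exact ⟨C.pb_mem_Z1 φ.1.toMonoidHom φ.2 a, b⟩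
  · obtain ⟨u', e⟩ := (C.pbZ φ (X w)).surjective ⟨u, H.1⟩
    obtain ⟨e', a⟩ := (h2 u').2 ⟨u'.2, (C.omZ_pbZ φ _ v u').symm.trans (by rw [e]; exact H.2)⟩
    exact ⟨e', by rw [ht, a, ← Ctx.pbZ_coe, e]⟩
  · rw [Ctx.dI_pbZ]
    exact h3 (φ * ψ) (by rwa [Ctx.val_act] at H)

variable [MeasurableSpace V] [BorelSpace V] (μ : Measure V) [μ.IsAddHaarMeasure]

theorem ae_min {G H : Type} [Fintype G] [AddCommGroup H] [Module ℝ H] [FiniteDimensional ℝ H]
    {X : V → G → K} (hO : IsOpen O) (hO' : IsPreconnected O) (h : ∀ w ∈ O, C.AnX X w)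
    (φ : (G → K) → H →ₗ[ℝ] L) (hφ : ∀ v, C.An fun x => φ x v) :
    ∀ᵐ w ∂μ, w ∈ O → ∀ w' ∈ O, finrank ℝ (LinearMap.ker (φ (X w))) ≤
      finrank ℝ (LinearMap.ker (φ (X w'))) := by
  filter_upwards [ae_rank_on μ hO hO' (fun l w => innerₗ L l ∘ₗ φ (X w))
    fun l v w hw => (h w hw).an ((Ctx.An.const l).inner (hφ v))] with w H a w' b
  have := H a w' b
  rwa [Ctx.iInf_ker_inner, Ctx.iInf_ker_inner] at this

variable [MeasurableSpace L] [BorelSpace L]

theorem generic_pull {G : Type} [Fintype G] {X : V → G → K} (hO : IsOpen O)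
    (hO' : IsPreconnected O) (h : ∀ w ∈ O, C.AnX X w) {w₀ : V} (hw : w₀ ∈ O)
    (hs : Function.Surjective (C.tan X w₀)) {P : (G → K) → Prop} (hP : C.Generic P) :
    ∀ᵐ w ∂μ, w ∈ O → P (X w) := by
  have := FiniteDimensional.complete ℝ V
  have h1 : ∀ w, (⨅ e, LinearMap.ker ((Module.Dual.eval ℝ (G → L)) (C.tan X w e)) :
      Submodule ℝ _) = (LinearMap.range (C.tan X w).toLinearMap).dualAnnihilator := fun w => by
    ext l; simp [Submodule.mem_dualAnnihilator]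
  have h2 : ∀ᵐ w ∂μ, w ∈ O → Function.Surjective (C.tan X w) := by
    filter_upwards [ae_rank_on μ hO hO' (fun e w => Module.Dual.eval ℝ (G → L) (C.tan X w e))
      fun e l w hw => (l.toContinuousLinearMap.analyticAt _).comp ((h w hw).an_tan e)] with w H hw'
    have := H hw' w₀ hw
    rwa [h1, h1, LinearMap.range_eq_top.2 hs, Submodule.dualAnnihilator_top, finrank_bot,
      Nat.le_zero, Submodule.finrank_eq_zero, Submodule.dualAnnihilator_eq_bot_iff,
      LinearMap.range_eq_top] at this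
  have h3 : μ {w | (w ∈ O ∧ Function.Surjective (C.tan X w)) ∧ ¬ P (X w)} = 0 := by
    refine measure_null_of_locally_null _ fun w ⟨⟨a, b⟩, _⟩ => ?_
    obtain ⟨ε, hε, H⟩ := Metric.eventually_nhds_iff_ball.1 ((h w a).crd.eventually_analyticAt.and
      ((h w a).cont.eventually (C.mvg_crd (X w))))
    refine ⟨_, inter_mem_nhdsWithin _ (Metric.ball_mem_nhds w hε), measure_mono_null ?_ (ae_iff.1
      (sub_null μ volume Metric.isOpen_ball (convex_ball _ _).isPreconnected (fun v hv => (H v hv).1)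
      (Metric.mem_ball_self hε) (fun u => (b u).imp fun e he => ((h w a).fd_crd e).trans he)
      (hP (X w))))⟩
    exact fun v hv H' => hv.1.2 ((H v hv.2).2 ▸ H' hv.2)
  filter_upwards [h2, measure_eq_zero_iff_ae_notMem.1 h3] with w a b c
  exact not_not.1 fun d => b ⟨⟨c, a c⟩, d⟩

end Amb

end Pool.Agent.Lib.MP_d52947_gt
end

-- part Pool.Agent.Lib.MP_d52947_gt.WallA
section

/-! Admissible families of transformations of the representation variety. -/

namespace Pool.Agent.Lib.MP_d52947_gt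

open Filter Topology Module MeasureTheory NormedSpace
open scoped RealInnerProductSpace ContDiff

namespace WL

open Amb

variable {L : Type} [NormedAddCommGroup L] [InnerProductSpace ℝ L] [FiniteDimensional ℝ L]
  {K : Type} [Group K] [TopologicalSpace K] [IsTopologicalGroup K] [CompactSpace K]
  [ConnectedSpace K] {A : Type} [NormedRing A] [NormedAlgebra ℝ A] [FiniteDimensional ℝ A]
  [CompleteSpace A] [MeasurableSpace A] [BorelSpace A] (C : Amb L K A) {g : ℕ}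
  (f : (Gen (g + 2) → A) → ℝ)
  {E E' : Type} [NormedAddCommGroup E] [NormedSpace ℝ E] [NormedAddCommGroup E'] [NormedSpace ℝ E']

/-- admissible maps -/
structure AM (T : (Gen (g + 2) → K) → Gen (g + 2) → K) : Prop where
  irr : ∀ x ∈ C.Rirr (g + 2), T x ∈ C.Rirr (g + 2)
  nul : ∀ S, C.Nul (C.d0 (g + 2)) S → C.Nul (C.d0 (g + 2)) (T ⁻¹' S)
  ae : C.Ae fun x => f (C.emb (T x)) = f (C.emb x)

/-- admissible families -/
structure Adm (T : E → (Gen (g + 2) → K) → Gen (g + 2) → K) : Prop where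
  an : ∃ W : E × (Gen (g + 2) → A) → Gen (g + 2) → A, ContDiff ℝ ω W ∧
    ∀ s x, W (s, C.emb x) = C.emb (T s x)
  zero : ∀ x, T 0 x = x
  am : ∀ s, AM C f (T s)

/-- almost everywhere constant near a point -/
def PC (x : Gen (g + 2) → K) (c : ℝ) : Prop :=
  ∃ U ∈ 𝓝 x, C.Nul (C.d0 (g + 2)) {y | y ∈ U ∧ y ∈ C.Rirr (g + 2) ∧ f (C.emb y) ≠ c}

variable {C f}

theorem AM.comp {T T'} (h : AM C f T) (h' : AM C f T') : AM C f fun x => T (T' x) :=
  ⟨fun x hx => h.irr _ (h'.irr x hx), fun S hS => h'.nul _ (h.nul S hS),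
    h'.ae.of_imp ((h'.nul _ h.ae).mono fun x hx =>
      ⟨h'.irr x hx.1, fun e => hx.2.2 (e.trans hx.2.1)⟩)⟩

theorem Adm.anX {T : E → _} (h : Adm C f T) {V : Type} [NormedAddCommGroup V] [NormedSpace ℝ V]
    {Y : V → Gen (g + 2) → K} {σ : V → E} {w : V} (hY : C.AnX Y w) (hσ : AnalyticAt ℝ σ w) :
    C.AnX (fun v => T (σ v) (Y v)) w := by
  obtain ⟨W, h1, h2⟩ := h.an
  simp only [AnX, ← h2]
  exact (h1.analyticOnNhd (s := Set.univ) _ trivial).comp (f := fun v => (σ v, C.emb (Y v)))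
    (hσ.prod hY)

theorem Adm.an0 {T : E → _} (h : Adm C f T) (x) : C.AnX (fun s => T s x) 0 :=
  h.anX (Y := fun _ => x) analyticAt_const analyticAt_id

theorem Adm.pc {T : E → _} (h : Adm C f T) {s x c} (H : PC C f (T s x) c) : PC C f x c := by
  obtain ⟨U, h1, h2⟩ := H
  obtain ⟨W, h3, h4⟩ := h.an
  have h5 : Continuous (T s) := C.emb_closed.isEmbedding.continuous_iff.2 (by
    simpa only [Function.comp_def, h4] using h3.continuous.comp
      ((continuous_const (y := s)).prodMk C.cont_emb))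
  refine ⟨_, h5.continuousAt.preimage_mem_nhds h1, (((h.am s).nul _ h2).union (h.am s).ae).mono
    fun y hy => ?_⟩
  by_cases e : f (C.emb (T s y)) = f (C.emb y)
  · exact Or.inl ⟨hy.1, (h.am s).irr y hy.2.1, e ▸ hy.2.2⟩
  · exact Or.inr ⟨hy.2.1, e⟩

theorem Adm.comp {T : E → _} {T' : E' → _} (h : Adm C f T) (h' : Adm C f T') :
    Adm C f fun (s : E × E') x => T s.1 (T' s.2 x) := by
  obtain ⟨W, h1, h2⟩ := h.an
  obtain ⟨W', h3, h4⟩ := h'.an
  exact ⟨⟨fun p => W (p.1.1, W' (p.1.2, p.2)), h1.comp (contDiff_fst.fst.prodMk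
    (h3.comp (contDiff_fst.snd.prodMk contDiff_snd))), fun s x => by simp only [h2, h4]⟩,
    fun x => by simp [h.zero, h'.zero], fun s => (h.am _).comp (h'.am _)⟩

theorem Adm.tan_mem {T : E → _} (h : Adm C f T) {x} (hx : x ∈ C.Rirr (g + 2)) (e : E) :
    C.tan (fun s => T s x) 0 e ∈ C.Z1 x := by
  have := (h.an0 x).tan_mem (e := relator _) (Eventually.of_forall fun s =>
    ((h.am s).irr x hx).1.trans ((h.am 0).irr x hx).1.symm) e
  rwa [h.zero] at this

theorem nul_of_inv {T : E → (Gen (g + 2) → K) → Gen (g + 2) → K}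
    {W : E × (Gen (g + 2) → A) → Gen (g + 2) → A} (h1 : ContDiff ℝ ω W)
    (h2 : ∀ s x, W (s, C.emb x) = C.emb (T s x)) {s s' : E} (h : ∀ x, T s' (T s x) = x) (S)
    (hS : C.Nul (C.d0 (g + 2)) S) : C.Nul (C.d0 (g + 2)) (T s ⁻¹' S) :=
  (hS.image (W := fun z => W (s', z)) ((h1.of_le le_top).comp (contDiff_const.prodMk contDiff_id))
    (h2 s')).mono fun x hx => ⟨_, hx, h x⟩

omit [MeasurableSpace A] [BorelSpace A] in
theorem tan_line {G : Type} [Fintype G] {Y : E → G → K} (h : C.AnX Y 0) {e : E} {u : G → L}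
    (hu : ∀ i, HasDerivAt (fun t : ℝ => C.ι (Y (t • e) i)) (C.j (u i) * C.ι (Y 0 i)) 0) :
    C.tan Y 0 e = u := tan_eq (by
  have := (HasFDerivAt.comp_hasDerivAt_of_eq (0 : ℝ) h.differentiableAt.hasFDerivAt
    ((hasDerivAt_id (0 : ℝ)).smul_const e) (by simp)).unique (hasDerivAt_pi.2 hu)
  rwa [one_smul] at this)

omit [MeasurableSpace A] [BorelSpace A] in
theorem cd_ej : ContDiff ℝ ω fun y : L => exp (C.j y) :=
  contDiff_omega_iff_analyticOnNhd.2 fun y _ => C.an_ej y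

theorem adm_cj (hK : ∀ x ∈ C.Rirr (g + 2), ∀ c, f (C.emb (Ctx.cjg c x)) = f (C.emb x)) :
    Adm C f (fun η : L => Ctx.cjg (C.ex η)) ∧
      ∀ (x : Gen (g + 2) → K) η, C.tan (fun η : L => Ctx.cjg (C.ex η) x) 0 η = C.del x η := by
  let W : L × (Gen (g + 2) → A) → Gen (g + 2) → A := fun p i =>
    exp (C.j p.1) * p.2 i * exp (C.j (-p.1))
  have h1 : ContDiff ℝ ω W := contDiff_pi.2 fun i =>
    ((cd_ej.comp contDiff_fst).mul (by fun_prop)).mul (cd_ej.comp contDiff_fst.neg)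
  have h2 : ∀ s x, W (s, C.emb x) = C.emb (Ctx.cjg (C.ex s) x) := fun s x => funext fun i => by
    simp only [W, emb, Ctx.cjg, map_mul, ← C.ι_ex, C.ex_neg]
  have h3 : Adm C f (fun η : L => Ctx.cjg (C.ex η)) := by
    refine ⟨⟨W, h1, h2⟩, fun x => funext fun i => by simp [Ctx.cjg, C.ex_zero], fun s =>
      ⟨fun x hx => ⟨(Ctx.val_conj _ x _).trans (by simp [hx.1]), fun θ hθ => ?_⟩,
        nul_of_inv h1 h2 (s' := -s) fun x => funext fun i => by simp [Ctx.cjg, C.ex_neg, mul_assoc],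
        Nul.mono (S' := ∅) (by simp [Nul]) fun x hx => hx.2 (hK x hx.1 _)⟩⟩
    have h4 : C.Ad (C.ex s)⁻¹ θ ∈ C.Z := hx.2 fun i hi b => by
      simpa [Ctx.cjg] using congrArg (C.Ad (C.ex s)⁻¹) (hθ i hi b)
    rw [← C.Ad_Ad_inv (C.ex s) θ, (C.mem_Z_iff _).1 h4]; exact h4
  refine ⟨h3, fun x η => tan_line (h3.an0 x) fun i => ?_⟩
  have := ((C.deriv_ej η).mul_const (C.ι (x i))).fun_mul (C.deriv_ej (-η))
  simp only [smul_neg] at this
  simp only [Ctx.cjg, map_mul, ← C.ex_neg, C.ι_ex]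
  refine this.congr_deriv ?_
  simp [Ctx.del_apply, C.j_Ad, mul_assoc, C.ι_inv_mul, -map_inv, sub_eq_add_neg, add_mul]

variable [MeasurableSpace L] [BorelSpace L]

theorem adm_fl (hf : Measurable f)
    (hi : ∀ φ : AutR (g + 2), C.Ae fun x => f (C.emb (Ctx.act φ.1.toMonoidHom x)) = f (C.emb x)) :
    Adm C f C.fl ∧ ∀ (x : Gen (g + 2) → K) θ,
      C.tan (fun θ => C.fl θ x) 0 θ = C.twv x (C.pw (x (0, false)) θ) := by
  have hpt := C.exists_pt.choose_spec.choose_spec.1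
  have h0 : ∀ k x, C.pw k x ∈ C.Fix k := fun k x => by
    rw [C.pw_eq]; exact Submodule.smul_mem _ _ (C.pj_mem k x)
  let W : L × (Gen (g + 2) → A) → Gen (g + 2) → A := fun p => Function.update p.2 (0, true)
    (p.2 (0, true) * exp (C.j (C.exists_pt.choose (C.Adx (p.2 (0, false))) p.1)))
  have hA : ContDiff ℝ ω C.Adx := contDiff_const.clm_comp
    ((((ContinuousLinearMap.mulLeftRight ℝ A).contDiff).clm_apply C.tr.contDiff).clm_comp contDiff_const)
  have h1 : ContDiff ℝ ω W := contDiff_pi.2 fun i => by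
    by_cases e : i = (0, true)
    · subst e
      simp only [W, Function.update_self]
      exact ContDiff.mul (by fun_prop) (cd_ej.comp (((contDiff_omega_iff_analyticOnNhd.2 hpt).comp
        (hA.comp (by fun_prop))).clm_apply contDiff_fst))
    · simp only [W, Function.update_of_ne e]; fun_prop
  have h2 : ∀ s x, W (s, C.emb x) = C.emb (C.fl s x) := fun s x => by
    simp only [W, emb, C.Adx_ι, ← C.ι_ex, ← map_mul]
    exact (Function.comp_update C.ι x _ _).symm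
  have h3 : Adm C f C.fl := by
    refine ⟨⟨W, h1, h2⟩, fun x => by simp [Ctx.fl, C.ex_zero, Ctx.tb_one], fun s =>
      ⟨fun x hx => ⟨(Ctx.val_tb (C.ex_comm (h0 _ _))).trans hx.1, fun θ hθ => hx.2 fun i hi b => ?_⟩,
        nul_of_inv h1 h2 (s' := -s) fun x => by
          simp [Ctx.fl, Ctx.tb_tb, Ctx.tb_a, C.ex_neg, Ctx.tb_one], C.flow_ae f hf hi s⟩⟩
    have h4 := hθ i hi b
    by_cases e : (i, b) = (0, true)
    · have h5 := hθ 0 (List.mem_finRange _) false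
      rw [Ctx.fl, Ctx.tb_a] at h5
      rw [e, Ctx.fl, Ctx.tb_b, C.Ad_mul_apply, C.Ad_ex_fix] at h4
      · rwa [e]
      by_cases r : C.Reg (x (0, false))
      · exact (Ctx.Reg.maxAb _ r).ab _ (h0 _ _) _ (C.mem_Fix.2 h5)
      · rw [C.pw_eq, not_not.1 (mt C.reg_iff_lw.2 r)]; simp
    · rwa [Ctx.fl, Ctx.tb, Function.update_of_ne e] at h4
  refine ⟨h3, fun x θ => tan_line (h3.an0 x) fun i => ?_⟩
  rw [h3.zero]
  by_cases e : i = (0, true)
  · subst e
    simp only [Ctx.fl, Ctx.tb_b, map_mul, C.ι_ex, map_smul (C.pw _)]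
    refine ((C.deriv_ej _).const_mul _).congr_deriv ?_
    rw [C.twv_b, C.j_Ad, mul_assoc, C.ι_inv_mul, mul_one]
  · simp only [Ctx.fl, Ctx.tb, Function.update_of_ne e]
    exact (hasDerivAt_const _ _).congr_deriv (by simp [Ctx.twv, e])

omit [MeasurableSpace L] [BorelSpace L] in
theorem adm_act
    (hi : ∀ φ : AutR (g + 2), C.Ae fun x => f (C.emb (Ctx.act φ.1.toMonoidHom x)) = f (C.emb x))
    {T : E → _} (h : Adm C f T) (φ : AutR (g + 2)) :
    Adm C f fun s x => Ctx.act (φ⁻¹).1.toMonoidHom (T s (Ctx.act φ.1.toMonoidHom x)) := by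
  have h1 : ∀ φ : AutR (g + 2), AM C f (Ctx.act φ.1.toMonoidHom) := fun φ =>
    ⟨fun x => C.act_mem_Rirr φ, fun S hS => (hS.act (φ⁻¹).1.toMonoidHom).mono fun x hx =>
      ⟨_, hx, Ctx.act_act φ x⟩, hi φ⟩
  have h2 : ∀ φ : AutR (g + 2), ∃ W : (Gen (g + 2) → A) → Gen (g + 2) → A, ContDiff ℝ ω W ∧
      ∀ x, W (C.emb x) = C.emb (Ctx.act φ.1.toMonoidHom x) := fun φ => by
    choose W a b using fun i => C.word_an (φ.1 (.of i))
    exact ⟨fun z i => W i z, contDiff_pi.2 fun i =>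
      contDiff_omega_iff_analyticOnNhd.2 fun z _ => a i z, fun x => funext fun i => b i x⟩
  obtain ⟨W, a, b⟩ := h.an
  obtain ⟨W₁, a1, b1⟩ := h2 φ
  obtain ⟨W₂, a2, b2⟩ := h2 φ⁻¹
  exact ⟨⟨fun p => W₂ (W (p.1, W₁ p.2)), a2.comp (a.comp (contDiff_fst.prodMk
    (a1.comp contDiff_snd))), fun s x => by simp only [b1, b, b2]⟩,
    fun x => by rw [h.zero, Ctx.act_act], fun s => (h1 _).comp ((h.am s).comp (h1 φ))⟩

theorem dual (hf : Measurable f)
    (hK : ∀ x ∈ C.Rirr (g + 2), ∀ c, f (C.emb (Ctx.cjg c x)) = f (C.emb x))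
    (hi : ∀ φ : AutR (g + 2), C.Ae fun x => f (C.emb (Ctx.act φ.1.toMonoidHom x)) = f (C.emb x))
    {x : Gen (g + 2) → K} (hx : x ∈ C.Rirr (g + 2)) (ν : C.Z1 x →ₗ[ℝ] ℝ)
    (h : ∀ T : L → _, Adm C f T → ∀ e (u : C.Z1 x), C.tan (fun s => T s x) 0 e = u → ν u = 0) :
    ∃ v, C.omZ x v = ν ∧ ∀ φ : AutR (g + 2), C.Reg (Ctx.val x (φ.1 (ga 0))) →
      C.dI x (φ.1 (ga 0)) v = 0 := by
  obtain ⟨v, hv⟩ := C.exists_dualZ hx.1 ν fun u ⟨η, e⟩ =>
    h _ (adm_cj hK).1 η u (((adm_cj hK).2 x η).trans e)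
  refine ⟨v, hv, fun φ r => ext_inner_left ℝ fun θ => ?_⟩
  obtain ⟨h1, h2⟩ := adm_fl hf hi
  have h3 := adm_act hi h1 φ
  have h4 := h _ h3 θ ⟨_, h3.tan_mem hx θ⟩ rfl
  have h5 := funext ((h3.an0 x).tan_wd (fun i => φ.1 (.of i)) θ)
  rw [h3.zero, tan_congr (Y := fun θ => C.fl θ (Ctx.act φ.1.toMonoidHom x))
    (Eventually.of_forall fun s => inv_inv φ ▸ Ctx.act_act φ⁻¹ _), h2] at h5
  rw [← hv, ← C.omZ_pbZ φ, C.omZ_skew, Ctx.omZ_apply, Ctx.pbZ_coe] at h4
  change -C.om _ (fun i => C.cv x (φ.1 (.of i)) _) _ = 0 at h4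
  rw [← h5, C.om_twv _ (by rw [C.pw_eq]; exact Submodule.smul_mem _ _ (C.pj_mem _ _)), neg_neg,
    C.pw_eq, smul_apply, real_inner_smul_left, C.inner_pj] at h4
  rw [inner_zero_right]
  exact (mul_eq_zero.1 h4).resolve_left (C.reg_iff_lw.1 r)

end WL

end Pool.Agent.Lib.MP_d52947_gt
end

-- part Pool.Agent.Lib.MP_d52947_gt.Wall
section

/-! Invariant functions are locally constant on the irreducible locus when there are no walls. -/

namespace Pool.Agent.Lib.MP_d52947_gt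

open Filter Topology Module MeasureTheory NormedSpace
open scoped RealInnerProductSpace ContDiff

namespace WL

open Amb

variable {L : Type} [NormedAddCommGroup L] [InnerProductSpace ℝ L] [FiniteDimensional ℝ L]
  {K : Type} [Group K] [TopologicalSpace K] [IsTopologicalGroup K] [CompactSpace K]
  [ConnectedSpace K] {A : Type} [NormedRing A] [NormedAlgebra ℝ A] [FiniteDimensional ℝ A]
  [CompleteSpace A] [MeasurableSpace A] [BorelSpace A] {C : Amb L K A} {g : ℕ}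
  {f : (Gen (g + 2) → A) → ℝ}
  {E : Type} [NormedAddCommGroup E] [NormedSpace ℝ E]
  {X : (Fin (C.d0 (g + 2)) → ℝ) → Gen (g + 2) → K}
  {ρ : (Gen (g + 2) → A) → Fin (C.d0 (g + 2)) → ℝ} {O : Set (Fin (C.d0 (g + 2)) → ℝ)}

theorem lc_iff (h : C.Chart (g + 2) X ρ O) {F : (Fin (C.d0 (g + 2)) → ℝ) → ℝ}
    (hF : ∀ w ∈ O, F w = f (C.emb (X w))) {w} (hw : w ∈ O) :
    LC volume F w ↔ ∃ c, PC C f (X w) c := by
  refine exists_congr fun c => ⟨fun ⟨U, h1, h2⟩ => ⟨_, ((h.tendsto hw).eventually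
    (inter_mem h1 (h.isOpen.mem_nhds hw))).and (h.right w hw), Nul.mono ((h.nul_iff
      (S := {u | u ∈ O ∧ u ∈ U ∧ F u ≠ c}) fun _ a => a.1).2 (measure_mono_null
        (t := {u | ¬ (u ∈ U → F u = c)}) (fun u a b => a.2.2 (b a.2.1)) (ae_iff.1 h2))) fun y ⟨⟨a, b⟩, d, e⟩ =>
          ⟨_, ⟨a.2, a.1, by rwa [hF _ a.2, b d.1]⟩, b d.1⟩⟩, fun ⟨U, h1, h2⟩ =>
    ⟨_, inter_mem ((h.an w hw).cont.preimage_mem_nhds h1) (h.isOpen.mem_nhds hw), ae_iff.2
      ((h.nul_iff fun u a => (_root_.not_imp.1 a).1.2).1 (h2.mono ?_))⟩⟩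
  rintro _ ⟨u, a, rfl⟩
  obtain ⟨b, d⟩ := _root_.not_imp.1 a
  exact ⟨b.1, h.irr u b.2, hF u b.2 ▸ d⟩

theorem pc_unique {x} (hx : x ∈ C.Rirr (g + 2)) {c c'} (h : PC C f x c) (h' : PC C f x c') :
    c = c' := by
  obtain ⟨X, ρ, O, H, h0, rfl⟩ := C.exists_chart hx
  obtain ⟨U, h1, h2⟩ := h
  obtain ⟨U', h3, h4⟩ := h'
  by_contra e
  refine (Measure.measure_pos_of_mem_nhds volume (inter_mem ((H.an 0 h0).cont.preimage_mem_nhds
    (inter_mem h1 h3)) (H.isOpen.mem_nhds h0))).ne' ((H.nul_iff Set.inter_subset_right).1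
      ((h2.union h4).mono ?_))
  rintro _ ⟨u, a, rfl⟩
  by_cases b : f (C.emb (X u)) = c
  · exact Or.inr ⟨a.1.2, H.irr u a.2, b ▸ e⟩
  · exact Or.inl ⟨a.1.1, H.irr u a.2, b⟩

theorem curve (h : C.Chart (g + 2) X ρ O) {T : E → _} (hT : Adm C f T) {w} (hw : w ∈ O) :
    AnalyticAt ℝ (fun p : E × _ => ρ (C.emb (T p.1 (X p.2)))) (0, w) ∧
      (∀ᶠ p : E × _ in 𝓝 (0, w), p.2 ∈ O ∧ ρ (C.emb (T p.1 (X p.2))) ∈ O ∧
        X (ρ (C.emb (T p.1 (X p.2)))) = T p.1 (X p.2)) ∧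
      ∀ e, C.tan (fun s => T s (X w)) 0 e =
        C.tan X w (fderiv ℝ (fun p : E × _ => ρ (C.emb (T p.1 (X p.2)))) (0, w) (e, 0)) := by
  have h1 : C.AnX (fun p : E × _ => T p.1 (X p.2)) (0, w) :=
    hT.anX ((h.an w hw).comp analyticAt_snd rfl) analyticAt_fst
  have h2 := (h.anr w hw).comp_of_eq h1 (by simp only [hT.zero])
  have h3 : Tendsto (fun p : E × _ => T p.1 (X p.2)) (𝓝 (0, w)) (𝓝 (X w)) := by
    simpa only [hT.zero] using h1.cont.tendsto
  have h4 : ∀ᶠ p : E × _ in 𝓝 (0, w), p.2 ∈ O ∧ ρ (C.emb (T p.1 (X p.2))) ∈ O ∧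
      X (ρ (C.emb (T p.1 (X p.2)))) = T p.1 (X p.2) := by
    filter_upwards [continuous_snd.continuousAt.eventually (h.isOpen.mem_nhds hw),
      ((h.tendsto hw).comp h3).eventually (h.isOpen.mem_nhds hw), h3.eventually (h.right w hw)]
      with p a b c
    exact ⟨a, b, c ((hT.am _).irr _ (h.irr _ a)).1⟩
  refine ⟨h2, h4, fun e => ?_⟩
  have h5 := HasFDerivAt.comp (f := fun s : E => (s, w)) 0 h2.differentiableAt.hasFDerivAt
    (hasFDerivAt_prodMk_left 0 w)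
  have h6 : ρ (C.emb (T 0 (X w))) = w := by rw [hT.zero, h.left w hw]
  rw [tan_congr (Y := fun s => X (ρ (C.emb (T s (X w)))))
    (((Continuous.prodMk_left w).tendsto 0).eventually h4 |>.mono fun s a => a.2.2.symm),
    AnX.tan_comp (ζ := fun s => ρ (C.emb (T s (X w)))) (h6.symm ▸ h.an w hw) h5.differentiableAt, h6]
  exact congrArg (fun D : E →L[ℝ] _ => C.tan X w (D e)) h5.fderiv

omit [MeasurableSpace A] [BorelSpace A] in
theorem an_cv {G : Type} [Fintype G] (e : FreeGroup G) (u : G → L) :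
    C.An fun x : G → K => C.cv x e u := by
  induction e using FreeGroup.induction_on with
  | C1 => simpa using Ctx.An.const 0
  | of i => simpa using Ctx.An.const _
  | inv_of i _ =>
    simpa [Ctx.cv_inv] using (Ctx.An.const (0 : L)).sub ((Ctx.an_Ad_inv (C := C.toCtx) i).app (Ctx.An.const (u i)))
  | mul a b ha hb => simpa only [Ctx.cv_mul] using ha.add ((Ctx.an_word a).app hb)

/-- the twist flows and the conjugations span the tangent space -/
def Span (C : Amb L K A) (x : Gen (g + 2) → K) : Prop :=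
  ∀ v : C.Z1 x, (∀ φ : AutR (g + 2), C.Reg (Ctx.val x (φ.1 (ga 0))) →
    C.dI x (φ.1 (ga 0)) v = 0) → v ∈ C.B1 x

variable [MeasurableSpace L] [BorelSpace L]

theorem exists_F (h : C.Chart (g + 2) X ρ O) (h0 : 0 ∈ O) :
    ∃ F : (Fin (C.d0 (g + 2)) → ℝ) → ℝ, AnalyticOnNhd ℝ F O ∧ (∃ w ∈ O, F w ≠ 0) ∧
      ∀ w ∈ O, F w ≠ 0 → Span C (X w) := by
  obtain ⟨I⟩ := C.exists_ideals
  obtain ⟨w₀, a1, a2⟩ := Measure.exists_mem_of_measure_ne_zero_of_ae
    (Measure.measure_pos_of_mem_nhds volume (h.isOpen.mem_nhds h0)).ne'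
    ((ae_restrict_iff' h.isOpen.measurableSet).2 (h.ae ((C.ae_cob I).and (C.ae_pair
      (P := fun a _ => C.Reg a) (C.generic_a.mono fun _ h => h.1)).act)))
  let φ : L × Option (AutR (g + 2)) → (Gen (g + 2) → K) → (Gen (g + 2) → L) →ₗ[ℝ] ℝ := fun n x =>
    innerₗ L n.1 ∘ₗ n.2.elim (C.cv x (relator _)) fun ψ =>
      (C.pw (Ctx.val x (ψ.1 (ga 0)))).toLinearMap ∘ₗ C.cv x (ψ.1 (ga 0))
  have b1 : ∀ x u, u ∈ (⨅ n, LinearMap.ker (φ n x) : Submodule ℝ _) ↔ u ∈ C.Z1 x ∧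
      ∀ ψ : AutR (g + 2), C.pw (Ctx.val x (ψ.1 (ga 0))) (C.cv x (ψ.1 (ga 0)) u) = 0 := fun x u => by
    rw [Submodule.mem_iInf]
    refine ⟨fun H => ⟨inner_self_eq_zero.1 (H (_, none)), fun ψ =>
      inner_self_eq_zero.1 (H (_, some ψ))⟩, ?_⟩
    rintro H ⟨l, _ | ψ⟩
    · simp [φ, C.mem_Z1.1 H.1]
    · simp [φ, H.2]
  have b2 : ∀ x ∈ C.Rirr (g + 2), finrank ℝ (LinearMap.range (C.del x)) + finrank ℝ C.Z =
      finrank ℝ L := fun x hx => by
    rw [← (C.del x).finrank_range_add_finrank_ker, show LinearMap.ker (C.del x) = C.Z from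
      le_antisymm (fun θ hθ => hx.2 fun i _ s => (sub_eq_zero.1 (congrFun hθ (i, s))).symm)
        fun θ hθ => funext fun i => sub_eq_zero.2 ((C.mem_Z_iff _).1 hθ _).symm]
  obtain ⟨κ, _, _, a, v, c1, c2⟩ := exists_det (fun n w => φ n (X w)) w₀
  refine ⟨fun w => (Matrix.of fun i j => φ (a i) (X w) (v j)).det, ?_, ⟨w₀, a1, c1⟩,
    fun w hw c u hu => ?_⟩
  · simp only [Matrix.det_apply']
    refine Finset.univ.analyticOnNhd_fun_sum fun σ _ => analyticOnNhd_const.mul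
      (Finset.univ.analyticOnNhd_fun_prod fun i _ w hw => (h.an w hw).an
        (f := fun x => φ (a (σ i)) x (v i)) ?_)
    rcases a (σ i) with ⟨l, _ | ψ⟩
    exacts [(Ctx.An.const l).inner (an_cv _ _),
      (Ctx.An.const l).inner ((C.an_pw (Ctx.an_word _)).app (an_cv _ _))]
  have c3 : (⨅ n, LinearMap.ker (φ n (X w₀)) : Submodule ℝ _) ≤ LinearMap.range (C.del (X w₀)) :=
    fun u hu => a2.1 (fun _ => True) (by constructor <;> simp) ⟨u, ((b1 _ u).1 hu).1⟩ fun ψ _ =>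
      C.pj_eq_zero_iff.2 (Ctx.Reg.pw_zero (a2.2 ψ) (((b1 _ u).1 hu).2 ψ))
  have c4 := (c2 w c).trans (Submodule.finrank_mono c3)
  have c5 := b2 _ (h.irr w hw)
  have c6 := b2 _ (h.irr w₀ a1)
  refine (Submodule.eq_of_le_of_finrank_le (S₁ := LinearMap.range (C.del (X w))) ?_
    (c4.trans (by omega))).ge ((b1 _ u).2 ⟨u.2, fun ψ => ?_⟩)
  · rintro _ ⟨η, rfl⟩
    exact (b1 _ _).2 ⟨C.del_mem_Z1 (h.irr w hw).1 η, fun ψ => by
      rw [C.cv_del]; exact C.pw_zero (C.pj_eq_zero_iff.1 (C.pj_sub_Ad _ _))⟩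
  · by_cases r : C.Reg (Ctx.val (X w) (ψ.1 (ga 0)))
    · exact C.pw_zero (C.pj_eq_zero_iff.1 (hu ψ r))
    · rw [C.pw_eq, not_not.1 (mt C.reg_iff_lw.2 r)]; simp

variable (hf : Measurable f)
  (hK : ∀ x ∈ C.Rirr (g + 2), ∀ c, f (C.emb (Ctx.cjg c x)) = f (C.emb x))
  (hi : ∀ φ : AutR (g + 2), C.Ae fun x => f (C.emb (Ctx.act φ.1.toMonoidHom x)) = f (C.emb x))

include hf hK hi

theorem exists_full {x : Gen (g + 2) → K} (hx : x ∈ C.Rirr (g + 2)) (hs : Span C x) :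
    ∃ (E : Type) (_ : NormedAddCommGroup E) (_ : NormedSpace ℝ E) (_ : FiniteDimensional ℝ E)
      (T : E → _), Adm C f T ∧ ∀ u ∈ C.Z1 x, ∃ e, C.tan (fun s => T s x) 0 e = u := by
  obtain ⟨_, -, ⟨E, _, _, _, T, h1, rfl⟩, h2⟩ := exists_maximal_ge_of_wellFoundedGT
    (fun M : Submodule ℝ (Gen (g + 2) → L) => ∃ (E : Type) (_ : NormedAddCommGroup E)
      (_ : NormedSpace ℝ E) (_ : FiniteDimensional ℝ E) (T : E → _), Adm C f T ∧
        M = LinearMap.range (C.tan (fun s => T s x) 0).toLinearMap) _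
    ⟨L, _, _, inferInstance, _, (adm_cj hK).1, rfl⟩
  refine ⟨E, _, _, inferInstance, T, h1, fun u hu => by_contra fun c => ?_⟩
  obtain ⟨ν, a1, a2⟩ := Submodule.exists_dual_map_eq_bot_of_notMem
    (p := (LinearMap.range (C.tan (fun s => T s x) 0).toLinearMap).comap (C.Z1 x).subtype)
    (x := ⟨u, hu⟩) c inferInstance
  obtain ⟨v, b1, b2⟩ := dual hf hK hi hx ν fun T' h' e u' he => by
    refine a2.le ⟨u', ?_, rfl⟩
    have h3 := (h1.comp h').an0 x
    have h4 := fun e => AnX.tan_comp (ζ := ContinuousLinearMap.inl ℝ E L) (n := 0)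
      (by rwa [map_zero]) (ContinuousLinearMap.differentiableAt _) e
    have h5 := fun e => AnX.tan_comp (ζ := ContinuousLinearMap.inr ℝ E L) (n := 0)
      (by rwa [map_zero]) (ContinuousLinearMap.differentiableAt _) e
    simp only [ContinuousLinearMap.inl_apply, ContinuousLinearMap.inr_apply, h1.zero, h'.zero,
      Prod.mk_zero_zero] at h4 h5
    refine h2 ⟨E × L, _, _, inferInstance, _, h1.comp h', rfl⟩ ?_ ⟨_, (h5 e).symm.trans he⟩
    rintro _ ⟨e, rfl⟩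
    exact ⟨_, (h4 e).symm⟩
  exact a1 (b1 ▸ C.omZ_B1 (hs v b2) _)

theorem lc_of_span (h : C.Chart (g + 2) X ρ O) {F : (Fin (C.d0 (g + 2)) → ℝ) → ℝ}
    (hm : Measurable F) (hF : ∀ w ∈ O, F w = f (C.emb (X w))) {w} (hw : w ∈ O)
    (hs : Span C (X w)) : LC volume F w := by
  obtain ⟨E, _, _, _, T, h1, h2⟩ := exists_full hf hK hi (h.irr w hw) hs
  obtain ⟨h3, h4, h5⟩ := curve h h1 hw
  rw [nhds_prod_eq] at h4
  obtain ⟨P, h6, Q, h7, h8⟩ := eventually_prod_iff.1 h4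
  refine lc_of_flow volume hm h3.contDiffAt (by simp only [h1.zero, h.left w hw]) (fun v => ?_) h7
    (h6.mono fun s hs => (h.ae (h1.am s).ae).mono fun u a b => ?_)
  · obtain ⟨e, he⟩ := h2 _ ((h.range w hw _).1 ⟨v, rfl⟩)
    exact ⟨e, h.inj w hw ((h5 e).symm.trans he)⟩
  · obtain ⟨c1, c2, c3⟩ := h8 hs b
    rw [hF _ c2, c3, hF _ c1, a c1]

theorem exists_pc (hH : ∀ (N : Submodule ℝ (Fin (C.d0 (g + 2)) → ℝ)) (X : N → Gen (g + 2) → K)
    (O : Set N), ¬ C.Hyp X O) {x} (hx : x ∈ C.Rirr (g + 2)) : ∃ c, PC C f x c := by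
  classical
  obtain ⟨X, ρ, O, h, h0, rfl⟩ := C.exists_chart hx
  let F := f ∘ O.piecewise (fun w => C.emb (X w)) 0
  have hm : Measurable F := hf.comp (ContinuousOn.measurable_piecewise
    (fun w hw => (h.an w hw).continuousAt.continuousWithinAt) continuousOn_const
    h.isOpen.measurableSet)
  have hF : ∀ w ∈ O, F w = f (C.emb (X w)) := fun w hw => by simp [F, hw]
  by_contra hc
  obtain ⟨F₀, a1, ⟨w₀, a2, a3⟩, a4⟩ := exists_F h h0
  obtain ⟨G, w₁, b1, b2, b3, b4, b5⟩ := wall volume h.isOpen h.conn a1 a2 a3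
    (fun w hw c => lc_of_span hf hK hi h hm hF hw (a4 w hw c)) h0 (mt (lc_iff h hF h0).1 hc)
  have nz : ∀ {D : (Fin (C.d0 (g + 2)) → ℝ) →L[ℝ] ℝ}, D ≠ 0 → D.toLinearMap ≠ 0 := fun a b =>
    a (ContinuousLinearMap.coe_injective b)
  obtain ⟨κ, r, c1, c2, -, c3, -⟩ := ift0 b2 (LinearMap.surjective (nz b3))
    (LinearMap.ker (fderiv ℝ G w₁).toLinearMap) fun v => Iff.rfl
  have tκ : Tendsto κ (𝓝 0) (𝓝 w₁) := by simpa only [c2] using c1.continuousAt.tendsto
  obtain ⟨ε, hε, H⟩ := Metric.eventually_nhds_iff_ball.1 (c1.eventually_analyticAt.and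
    (c3.eventually_nhds.and (tκ.eventually ((h.isOpen.eventually_mem b1).and
      (b2.eventually_analyticAt.and ((b2.fderiv.continuousAt.eventually_ne b3).and
        b5.eventually_nhds))))))
  refine hH _ (fun n => X (κ n)) (Metric.ball 0 ε) ⟨Metric.isOpen_ball,
    (convex_ball _ _).isPreconnected, ⟨0, Metric.mem_ball_self hε⟩,
    fun n hn => (h.an _ (H n hn).2.2.1).comp (H n hn).1 rfl, fun n hn => h.irr _ (H n hn).2.2.1,
    fun n hn => ?_⟩
  obtain ⟨d1, d2, d3, d4, d5, d6⟩ := H n hn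
  let e : (Fin (C.d0 (g + 2)) → ℝ) ≃ₗ[ℝ] C.Z1 (X (κ n)) := LinearEquiv.ofBijective
    ((C.tan X (κ n)).toLinearMap.codRestrict _ fun v => (h.range _ d3 _).1 ⟨v, rfl⟩)
    ⟨fun a b c => h.inj _ d3 (congrArg Subtype.val c), fun u =>
      ((h.range _ d3 u).2 u.2).imp fun v hv => Subtype.ext hv⟩
  have he : ∀ v, (e v).1 = C.tan X (κ n) v := fun v => rfl
  have e1 : ¬ ∃ c, PC C f (X (κ n)) c := mt (lc_iff h hF d3).2
    (d6.self_of_nhds.2 (d2.self_of_nhds.1.trans b4))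
  obtain ⟨v, e2, e3⟩ := dual hf hK hi (h.irr _ d3) ((fderiv ℝ G (κ n)).toLinearMap ∘ₗ e.symm.toLinearMap)
    fun T hT s u hu => by
      obtain ⟨f1, f2, f3⟩ := curve h hT d3
      have f4 : ρ (C.emb (T 0 (X (κ n)))) = κ n := by rw [hT.zero, h.left _ d3]
      have f5 := HasFDerivAt.comp (f := fun s : L => (s, κ n)) 0 f1.differentiableAt.hasFDerivAt
        (hasFDerivAt_prodMk_left 0 _)
      have f6 := HasFDerivAt.comp (g := G) (g' := fderiv ℝ G (κ n)) 0
        (by rw [Function.comp_apply, f4]; exact d4.differentiableAt.hasFDerivAt) f5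
      have f7 : Tendsto (fun s : L => ρ (C.emb (T s (X (κ n))))) (𝓝 0) (𝓝 (κ n)) := by
        simpa only [Function.comp_def, f4] using f5.continuousAt.tendsto
      have f8 := f6.unique ((hasFDerivAt_const 0 _).congr_of_eventuallyEq (by
        filter_upwards [f7.eventually d6, ((Continuous.prodMk_left (κ n)).tendsto 0).eventually f2]
          with s a b
        exact a.1 fun c => e1 (((lc_iff h hF b.2.1).1 c).imp fun c H => hT.pc (b.2.2 ▸ H))))
      rw [show u = e _ from Subtype.ext (hu.symm.trans (f3 s)), LinearMap.comp_apply,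
        LinearEquiv.coe_coe, e.symm_apply_apply]
      exact congrArg (· s) f8
  have e4 : ∀ u, C.om (X (κ n)) v (C.tan X (κ n) u) = fderiv ℝ G (κ n) u := fun u => by
    simpa [he, Ctx.omZ_apply] using congrArg (· (e u)) e2
  have e5 : LinearMap.range (fderiv ℝ κ n).toLinearMap =
      LinearMap.ker (fderiv ℝ G (κ n)).toLinearMap := by
    have g1 := d1.differentiableAt.hasFDerivAt
    refine Submodule.eq_of_le_of_finrank_eq ?_ ?_
    · rintro _ ⟨u, rfl⟩
      exact congrArg (· u) ((d4.differentiableAt.hasFDerivAt.comp n g1).unique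
        ((hasFDerivAt_const (G w₁) _).congr_of_eventuallyEq (d2.mono fun _ a => a.1)))
    · have g2 := (r.hasFDerivAt.comp n (g1.sub_const w₁)).unique
        ((hasFDerivAt_id n).congr_of_eventuallyEq (d2.mono fun _ a => a.2))
      have g3 := Module.Dual.finrank_ker_add_one_of_ne_zero (nz b3)
      have g4 := Module.Dual.finrank_ker_add_one_of_ne_zero (nz d5)
      rw [LinearMap.finrank_range_of_inj (Function.LeftInverse.injective (g := r)
        fun u => congrArg (· u) g2)]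
      omega
  refine ⟨v, fun c => d5 (ContinuousLinearMap.ext fun u => (e4 u).symm.trans (C.omZ_B1 c (e u))),
    fun u => ?_, e3⟩
  simp only [AnX.tan_comp (h.an _ d3) d1.differentiableAt]
  refine ⟨?_, fun ⟨a, b⟩ => ?_⟩
  · rintro ⟨u, rfl⟩
    exact ⟨(e _).2, (e4 _).trans (e5.le ⟨u, rfl⟩)⟩
  · obtain ⟨u, rfl⟩ := (h.range _ d3 u).2 a
    obtain ⟨u, rfl⟩ := e5.ge ((e4 u).symm.trans b)
    exact ⟨u, rfl⟩

end WL

namespace Amb

variable {L : Type} [NormedAddCommGroup L] [InnerProductSpace ℝ L] [FiniteDimensional ℝ L]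
  {K : Type} [Group K] [TopologicalSpace K] [IsTopologicalGroup K] [CompactSpace K]
  [ConnectedSpace K] {A : Type} [NormedRing A] [NormedAlgebra ℝ A] [FiniteDimensional ℝ A]
  [CompleteSpace A] {C : Amb L K A} {g : ℕ}

theorem loc_const [MeasurableSpace A] [BorelSpace A] [MeasurableSpace L] [BorelSpace L]
    (hH : ∀ (N : Submodule ℝ (Fin (C.d0 (g + 2)) → ℝ)) (X : N → Gen (g + 2) → K) (O : Set N),
      ¬ C.Hyp X O)
    (f : (Gen (g + 2) → A) → ℝ) (hf : Measurable f)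
    (hK : ∀ x ∈ C.Rirr (g + 2), ∀ c, f (C.emb (Ctx.cjg c x)) = f (C.emb x))
    (hi : ∀ φ : AutR (g + 2), C.Ae fun x => f (C.emb (Ctx.act φ.1.toMonoidHom x)) = f (C.emb x)) :
    ∃ v : (Gen (g + 2) → K) → ℝ, C.Ae (fun x => f (C.emb x) = v x) ∧
      ∀ x ∈ C.Rirr (g + 2), ∀ᶠ y in 𝓝 x, y ∈ C.Rirr (g + 2) → v y = v x := by
  choose! v hv using fun x hx => WL.exists_pc hf hK hi hH (x := x) hx
  have h1 : ∀ x ∈ C.Rirr (g + 2), ∀ᶠ y in 𝓝 x, y ∈ C.Rirr (g + 2) → v y = v x := fun x hx => by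
    obtain ⟨U, a, b⟩ := hv x hx
    filter_upwards [eventually_mem_nhds_iff.2 a] with y c d
    exact WL.pc_unique d (hv y d) ⟨U, c, b⟩
  refine ⟨v, ?_, h1⟩
  have := (C.emb_closed (G := Gen (g + 2))).isEmbedding.secondCountableTopology
  choose! U a b using hv
  obtain ⟨T, h2, h3, h4⟩ := TopologicalSpace.countable_cover_nhdsWithin
    (s := {x | x ∈ C.Rirr (g + 2) ∧ ¬ f (C.emb x) = v x})
    fun x hx => inter_mem_nhdsWithin _ (inter_mem (a x hx.1) (h1 x hx.1))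
  have := h3.to_subtype
  rw [Set.biUnion_eq_iUnion] at h4
  refine (Nul.iUnion fun x : T => (b x (h2 x.2).1).mono ?_).mono h4
  exact fun y hy => ⟨hy.2.1, hy.1.1, hy.2.2 hy.1.1 ▸ hy.1.2⟩

end Amb

end Pool.Agent.Lib.MP_d52947_gt
end

-- part Pool.Agent.Lib.MP_d52947_gt.FV2
section

/-! Genus two: the family over a fixed first handle. -/

namespace Pool.Agent.Lib.MP_d52947_gt

open Filter Topology Module MeasureTheory
open scoped RealInnerProductSpace

set_option linter.unusedSectionVars false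

namespace FV2

variable {L : Type} [NormedAddCommGroup L] [InnerProductSpace ℝ L] [FiniteDimensional ℝ L]
  {K : Type} [Group K] [TopologicalSpace K] [IsTopologicalGroup K] [CompactSpace K]
  [ConnectedSpace K] (C : Ctx L K) (I : C.Ideals) (i : Fin I.N)

/-- the differential of the adjoint character of a simple ideal -/
noncomputable def T (k : K) : L →ₗ[ℝ] ℝ where
  toFun τ := LinearMap.trace ℝ L
    ((I.p i).toLinearMap ∘ₗ (C.Ad k).toLinearMap ∘ₗ (C.ad τ).toLinearMap)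
  map_add' a b := by
    rw [← map_add]; congr 1; ext y; simp
  map_smul' a b := by
    rw [RingHom.id_apply, ← map_smul]; congr 1; ext y; simp

theorem T_apply (k : K) (τ : L) : T C I i k τ = LinearMap.trace ℝ L
    ((I.p i).toLinearMap ∘ₗ (C.Ad k).toLinearMap ∘ₗ (C.ad τ).toLinearMap) := rfl

theorem tr_conj (a : K) (M : L →ₗ[ℝ] L) : LinearMap.trace ℝ L
    ((C.Ad a).toLinearMap ∘ₗ M ∘ₗ (C.Ad a⁻¹).toLinearMap) = LinearMap.trace ℝ L M := by
  rw [LinearMap.trace_comp_comm']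
  congr 1; ext y; simp

theorem T_conj (a k : K) (τ : L) : T C I i (a * k * a⁻¹) (C.Ad a τ) = T C I i k τ := by
  rw [T_apply, T_apply, ← tr_conj C a⁻¹]
  congr 1; ext y
  simp [I.p_Ad, ← C.Ad_ad]

theorem T_p (k : K) (τ : L) : T C I i k (I.p i τ) = T C I i k τ := by
  rw [T_apply, T_apply]
  congr 1; ext y
  simp only [LinearMap.coe_comp, ContinuousLinearMap.coe_coe, Function.comp_apply, I.p_Ad, I.p_ad]
  rw [← C.ad_p, I.p_idem]

theorem Gr_conj {k : K} (h : C.Gr I k) (a : K) : C.Gr I (a * k * a⁻¹) := fun i hi =>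
  let ⟨τ, hτ⟩ := h i hi
  ⟨C.Ad a τ, fun H => hτ ((T_conj C I i a k τ).symm.trans H)⟩

theorem p_Fix {k : K} {x : L} (h : x ∈ C.Fix k) : I.p i x ∈ C.Fix k := by
  rw [C.mem_Fix] at h ⊢
  rw [← I.p_Ad, h]

theorem p_perp {k : K} {x : L} (h : x ∈ (C.Fix k)ᗮ) : I.p i x ∈ (C.Fix k)ᗮ := fun y hy => by
  rw [← I.p_symm]; exact h _ (p_Fix C I i hy)

theorem T_zero {a e : K} {β : L} (hβ : β ∈ (C.Fix e)ᗮ) {c : ℝ}
    (h : ∀ τ, T C I i (a * e * a⁻¹) τ - T C I i e τ = c * ⟪β, τ⟫)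
    (hc : ∀ θ, C.Ad a θ = θ → C.Ad e θ = θ → θ ∈ C.Z) (τ : L) : T C I i e τ = 0 := by
  obtain ⟨θ, hθ⟩ : ∃ θ, ∀ τ, T C I i e τ = ⟪θ, τ⟫ :=
    Ctx.exists_inner_of_ker LinearMap.id (T C I i e) fun u hu => by
      rw [show u = 0 from hu, map_zero]
  have h1 : C.Ad e θ = θ := ext_inner_right ℝ fun τ => by
    have := T_conj C I i e e (C.Ad e⁻¹ τ)
    rw [mul_inv_cancel_right, C.Ad_Ad_inv, hθ, hθ] at this
    rw [C.inner_Ad_left, this]
  have h2 : ⟪C.Ad a θ, θ⟫ = ⟪θ, θ⟫ := by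
    have h3 := h θ
    have h4 := T_conj C I i a e (C.Ad a⁻¹ θ)
    rw [C.Ad_Ad_inv] at h4
    rw [h4, hθ, hθ, ← C.inner_Ad_left, real_inner_comm θ β, hβ θ (C.mem_Fix.2 h1), mul_zero] at h3
    exact sub_eq_zero.1 h3
  have h3 : C.Ad a θ = θ := by
    rw [← sub_eq_zero, ← inner_self_eq_zero (𝕜 := ℝ), inner_sub_left, inner_sub_right,
      inner_sub_right, C.inner_Ad, real_inner_comm (C.Ad a θ) θ, h2]
    ring
  rw [← T_p, hθ, ← I.p_symm, I.p_Z i θ (hc θ h3 h1), inner_zero_left]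

end FV2

namespace Amb

variable {L : Type} [NormedAddCommGroup L] [InnerProductSpace ℝ L] [FiniteDimensional ℝ L]
  {K : Type} [Group K] [TopologicalSpace K] [IsTopologicalGroup K] [CompactSpace K]
  [ConnectedSpace K] {A : Type} [NormedRing A] [NormedAlgebra ℝ A] [FiniteDimensional ℝ A]
  [CompleteSpace A] {C : Amb L K A} {g : ℕ}
  {V : Type} [NormedAddCommGroup V] [NormedSpace ℝ V] [FiniteDimensional ℝ V]

theorem generic_Gr [MeasurableSpace L] [BorelSpace L] (I : C.Ideals) :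
    C.Generic fun h : Fin 1 → K => C.Gr I (h 0) := by
  refine Ctx.Generic.all fun i => ?_
  by_cases hi : ∃ x, I.p i x ≠ 0
  swap
  · exact fun _ => Eventually.of_forall fun _ H => absurd H hi
  obtain ⟨x, hx⟩ := hi
  let b := stdOrthonormalBasis ℝ L
  have e : ∀ k, FV2.T C.toCtx I i k (I.p i x) =
      ∑ j, ⟪b j, I.p i (C.Ad k (C.ad (I.p i x) (b j)))⟫ := fun k =>
    LinearMap.trace_eq_sum_inner _ b
  have h1 : C.An fun h : Fin 1 → K => FV2.T C.toCtx I i (h 0) (I.p i x) := by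
    simp only [e]
    exact Ctx.An.sum fun j => (Ctx.An.const _).inner
      (((Ctx.an_Ad 0).app (Ctx.An.const _)).clm (I.p i))
  have h2 : ∃ k, FV2.T C.toCtx I i k (I.p i x) ≠ 0 := by
    by_contra! H
    have h3 : HasDerivAt (fun t : ℝ => FV2.T C.toCtx I i (C.ex (t • I.p i x)) (I.p i x))
        (∑ j, ⟪b j, I.p i (C.ad (I.p i x) (C.ad (I.p i x) (b j)))⟫) 0 := by
      simp only [e]
      exact HasDerivAt.fun_sum fun j _ => ((innerSL ℝ (b j)).hasFDerivAt.comp_hasDerivAt (0 : ℝ)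
        ((I.p i).hasFDerivAt.comp_hasDerivAt (0 : ℝ) (C.hasDerivAt_Ad _ _)))
    simp only [H] at h3
    have h4 := h3.unique (hasDerivAt_const _ _)
    have h5 : ∀ j, ⟪b j, I.p i (C.ad (I.p i x) (C.ad (I.p i x) (b j)))⟫ =
        -‖C.ad (I.p i x) (b j)‖ ^ 2 := fun j => by
      rw [I.p_ad, I.p_ad, C.ad_p I i (I.p i x) (b j), I.p_idem, ← neg_neg ⟪_, _⟫, ← C.inner_ad,
        real_inner_self_eq_norm_sq]
    simp only [h5, Finset.sum_neg_distrib, neg_eq_zero] at h4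
    have h6 := (Finset.sum_eq_zero_iff_of_nonneg fun j _ => by positivity).1 h4
    have h7 : I.p i x ∈ C.Z := C.mem_Z.2 (ContinuousLinearMap.coe_injective
      (b.toBasis.ext fun j => by simpa using h6 j (Finset.mem_univ _)))
    exact hx (by rw [← I.p_idem, I.p_Z i _ h7])
  obtain ⟨k, hk⟩ := h2
  exact (h1.generic (h₀ := fun _ => k) hk).mono fun h H _ => ⟨_, H⟩

theorem fv2_rel {x : Gen (0 + 2) → K} (hx : Ctx.val x (relator (0 + 2)) = 1) :
    Ctx.val x (hcomm 0) * x (1, false) = x (1, true) * x (1, false) * (x (1, true))⁻¹ := by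
  rw [relator_succ, map_mul] at hx
  simp only [List.ofFn_succ, List.ofFn_zero, List.prod_cons, List.prod_nil, mul_one] at hx
  rw [mul_eq_one_iff_eq_inv.1 hx]
  simp [hcomm, mul_assoc]

theorem fv2_vel {x : Gen (0 + 2) → K} {y : L}
    (hy : ∀ θ ∈ C.Fix (x (1, false)), ⟪C.Ad (x (1, false) * x (1, true)) θ - θ, y⟫ = 0) :
    ∃ u ∈ C.Z1 x, u (0, false) = 0 ∧ u (0, true) = 0 ∧ u (1, false) = y := by
  set q := x (1, false)
  set b := x (1, true)
  obtain ⟨z, hz⟩ := C.exists_sub_Ad (k := q⁻¹) (y := C.Ad q⁻¹ y - C.Ad (q * b)⁻¹ y)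
    (C.pj_eq_zero_iff.2 fun θ hθ => by
      rw [C.Fix_inv] at hθ
      have := hy θ hθ
      rw [inner_sub_left] at this
      rw [inner_sub_right, C.inner_Ad_right, C.inner_Ad_right, inv_inv, inv_inv, C.mem_Fix.1 hθ]
      linarith)
  refine ⟨fun p => if p = (1, false) then y else if p = (1, true) then C.Ad b z else 0, ?_,
    by simp, by simp, by simp⟩
  have h1 := congrArg (C.Ad (q * b)) hz
  rw [map_sub, map_sub, C.Ad_Ad_inv] at h1
  rw [C.mem_Z1, relator_succ, C.cv_mul]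
  simp only [List.ofFn_succ, List.ofFn_zero, List.prod_cons, List.prod_nil, mul_one, C.cv_hcomm]
  simp only [← C.Ad_mul_apply] at h1
  have h2 : y + C.Ad q (C.Ad b z) - C.Ad (q * b * q⁻¹) y - C.Ad (q * b * q⁻¹ * b⁻¹) (C.Ad b z) = 0 := by
    rw [← C.Ad_mul_apply, ← C.Ad_mul_apply, inv_mul_cancel_right, eq_add_of_sub_eq h1]
    abel
  simpa [q, b] using congrArg (C.Ad (Ctx.val x (hcomm 0))) h2

theorem fv2_coef {ν : Fin 2 → L} {x : Gen (0 + 2) → K} {w : Gen (0 + 2) → L} (hw : w ∈ C.Z1 x)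
    (h : ∀ u, C.om x w u = ∑ t, ⟪ν t, u (![(0, false), (0, true)] t)⟫) :
    w (0, false) = C.Ad (x (0, false)) (ν 1) ∧ w (0, true) = -C.Ad (x (0, true)) (ν 0) ∧
      ∀ s, w (1, s) = 0 := by
  have c : ∀ p y, ⟪C.coef x w p, y⟫ = ⟪ν 0, (Pi.single p y : Gen (0 + 2) → L) (0, false)⟫ +
      ⟪ν 1, (Pi.single p y : Gen (0 + 2) → L) (0, true)⟫ := fun p y => by
    have := h (Pi.single p y)
    rw [C.om_coef, Finset.sum_eq_single p (fun q _ hq => by simp [Pi.single_eq_of_ne hq]) (by simp)]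
      at this
    simpa using this
  have c0 : C.coef x w (0, false) = ν 0 := ext_inner_right ℝ fun y => by simpa using c (0, false) y
  have c1 : C.coef x w (0, true) = ν 1 := ext_inner_right ℝ fun y => by simpa using c (0, true) y
  obtain ⟨b1, b2⟩ := C.zero_bwd hw (m := 1) (by omega) fun p hp => ext_inner_right ℝ fun y => by
    have h1 : ∀ s, (0, s) ≠ p := fun s e => by rw [← e] at hp; simp at hp
    rw [c, Pi.single_eq_of_ne (h1 _), Pi.single_eq_of_ne (h1 _)]; simp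
  have h0 : C.hat x w (preF 0) = 0 := by simp [preF_zero, Ctx.hat]
  have b3 := b2
  rw [show preF (g := 0 + 2) 1 = _ from Ctx.preF_succ' 0, C.hat_mul_inv] at b3
  simp only [Ctx.coef, cond_true, cond_false, Fin.val_zero, zero_add, b2, h0, C.hat_mul,
    sub_zero, zero_sub] at c0 c1 b3
  refine ⟨by rw [← c1, C.Ad_Ad_inv], ?_, fun s => b1 _ (by simp)⟩
  rw [← c0, map_neg, neg_neg]
  exact (sub_eq_zero.1 b3).symm

theorem fv2_key (I : C.Ideals) {Y : V → Gen (0 + 2) → K} (han : C.AnX Y 0)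
    (hY : ∀ᶠ n in 𝓝 0, Ctx.val (Y n) (relator (0 + 2)) = 1 ∧
      Ctx.val (Y n) (hcomm 0) = Ctx.val (Y 0) (hcomm 0) ∧
      ∀ u ∈ C.Z1 (Y n), u (0, false) = 0 → u (0, true) = 0 → ∃ e, C.tan Y n e = u)
    (hq : C.Reg (Y 0 (1, false))) {a e : K} (hae : Ctx.val (Y 0) (hcomm 0) * e = a * e * a⁻¹)
    (hr : C.Reg (e⁻¹ * Y 0 (1, false))) (hG : C.Gr I e)
    (hc : ∀ θ, C.Ad a θ = θ → C.Ad e θ = θ → θ ∈ C.Z) {β : L} (hβ : β ∈ (C.Fix e)ᗮ)
    (hp : ∀ᶠ n in 𝓝 0, C.Reg (e⁻¹ * Y n (1, false)) → β ∈ (C.Fix (e⁻¹ * Y n (1, false)))ᗮ) :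
    β = 0 := by
  have := FiniteDimensional.complete ℝ V
  borelize A
  have hcq : ContinuousAt (fun n => Y n (1, false)) 0 :=
    (continuous_apply _).continuousAt.comp han.cont
  have h1 : ∀ i, I.p i β = 0 := fun i => by
    by_contra h0
    have ha : AnalyticAt ℝ (fun n => C.ι (e⁻¹ * Y n (1, false))) 0 := by
      simp only [map_mul]
      exact analyticAt_const.mul (by simpa using han.val (ga 1))
    refine Exists.elim (C.fv_core I i (fun n => e⁻¹ * Y n (1, false)) ha.contDiffAt hr ?_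
      (I.p_idem i β) h0 ?_ ((I.p i).toLinearMap ∘ₗ ((C.Ad (a * e * a⁻¹)).toLinearMap -
        (C.Ad e).toLinearMap)) ?_ ?_) fun c H => ?_
    rotate_right
    · obtain ⟨τ, hτ⟩ := hG i ⟨β, h0⟩
      refine hτ (FV2.T_zero C.toCtx I i (FV2.p_perp C.toCtx I i hβ) (c := c) (fun τ => ?_) hc τ)
      rw [← H, FV2.T_apply, FV2.T_apply, ← map_sub]
      congr 1; ext y; simp
    · filter_upwards [hY, han.ev, hcq.eventually (C.isOpen_reg.mem_nhds hq)] with n ⟨_, _, h2⟩ h3 h4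
      let S : L →ₗ[ℝ] L := (C.Ad e⁻¹).toLinearMap ∘ₗ
        ((C.Ad (Y n (1, false) * Y n (1, true))).toLinearMap - LinearMap.id)
      have hS : ∀ x, I.p i (S x) = S (I.p i x) := fun x => by simp [S, I.p_Ad]
      refine ⟨(C.Fix (Y n (1, false))).map S, _, h4, ?_, ?_, fun η hη => ?_⟩
      · rintro _ ⟨x, hx, rfl⟩
        exact ⟨_, FV2.p_Fix C.toCtx I i hx, (hS x).symm⟩
      · rw [← Submodule.map_comp, show (I.p i).toLinearMap ∘ₗ S = S ∘ₗ (I.p i).toLinearMap from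
          LinearMap.ext hS, Submodule.map_comp]
        exact Submodule.finrank_map_le _ _
      · obtain ⟨u, a1, a2, a3, a4⟩ := fv2_vel (C := C) (x := Y n) (y := C.Ad e η) fun θ hθ => by
          rw [C.inner_Ad_right]; exact hη _ ⟨θ, hθ, rfl⟩
        obtain ⟨v, hv⟩ := h2 u a1 a2 a3
        have h5 := h3.fd_val (ga 1) v
        have h6 := (h3.val (ga 1)).differentiableAt.hasFDerivAt.const_mul (C.ι e⁻¹)
        simp only [FreeGroup.lift_apply_of, Ctx.cv_of, hv, a4] at h5 h6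
        refine ⟨v, ?_⟩
        simp only [map_mul]
        rw [h6.fderiv]
        simp [h5, C.j_Ad, ← mul_assoc, C.ι_inv_mul]
    · filter_upwards [hp, (continuousAt_const.mul hcq).eventually (C.isOpen_reg.mem_nhds hr)]
        with n h2 h3 using FV2.p_perp C.toCtx I i (h2 h3)
    · intro x
      simp [I.p_Ad, I.p_idem]
    · filter_upwards [hY] with n ⟨h2, h3, _⟩
      have h4 := fv2_rel h2
      have h5 := FV2.tr_conj C.toCtx (Y n (1, true))
        ((I.p i).toLinearMap ∘ₗ (C.Ad (Y n (1, false))).toLinearMap)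
      rw [← sub_eq_zero, ← map_sub] at h5
      rw [← h5]
      congr 1; ext y
      simp only [LinearMap.coe_comp, ContinuousLinearMap.coe_coe, Function.comp_apply,
        LinearMap.sub_apply, map_sub, ← I.p_Ad, ← C.Ad_mul_apply, ← hae, ← h3, ← mul_assoc,
        mul_inv_cancel_right, mul_inv_cancel, one_mul, h4]
  have h2 := I.p_sum β
  simp only [h1, Finset.sum_const_zero, sub_zero] at h2
  exact inner_self_eq_zero.1 (hβ β (C.Z_le_Fix e h2))

theorem Fam.two (I : C.Ideals) {ν : Fin 2 → L} {Y : V → Gen (0 + 2) → K}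
    (h : C.Fam ![(0, false), (0, true)] ν Y)
    (h1 : ∀ φ : AutR (0 + 2), C.Reg (Ctx.val (Y 0) (φ.1 (ga 0))) ∧
      C.Gr I (Ctx.val (Y 0) (φ.1 (ga 0))))
    (h2 : ∀ j, C.cen (Y 0) [j] ≤ C.Z) : False := by
  set a := Y 0 (0, false) with ha
  set b := Y 0 (0, true) with hb
  have hY : ∀ᶠ n in 𝓝 0, Ctx.val (Y n) (relator (0 + 2)) = 1 ∧
      Ctx.val (Y n) (hcomm 0) = Ctx.val (Y 0) (hcomm 0) ∧
      ∀ u ∈ C.Z1 (Y n), u (0, false) = 0 → u (0, true) = 0 → ∃ e, C.tan Y n e = u := by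
    filter_upwards [h.ev] with n ⟨a1, a2, a3, _⟩
    have e0 : Y n (0, false) = a := a2 0
    have e1 : Y n (0, true) = b := a2 1
    exact ⟨a1.1, by simp [hcomm, e0, e1, ← ha, ← hb],
      fun u hu h3 h4 => a3 u hu (Fin.forall_fin_two.2 ⟨h3, h4⟩)⟩
  have hw : ∀ᶠ n in 𝓝 0, Y n (0, false) = a ∧ Y n (0, true) = b ∧ ∃ w : Gen (0 + 2) → L, w ≠ 0 ∧
      w (0, false) = C.Ad a (ν 1) ∧ w (0, true) = -C.Ad b (ν 0) ∧ (∀ s, w (1, s) = 0) ∧
      ∀ φ : AutR (0 + 2), C.Reg (Ctx.val (Y n) (φ.1 (ga 0))) →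
        C.cv (Y n) (φ.1 (ga 0)) w ∈ (C.Fix (Ctx.val (Y n) (φ.1 (ga 0))))ᗮ := by
    filter_upwards [h.ev] with n ⟨_, a2, _, w, a3, a4, a5, a6⟩
    have e0 : Y n (0, false) = a := a2 0
    have e1 : Y n (0, true) = b := a2 1
    obtain ⟨b1, b2, b3⟩ := fv2_coef a3 a5
    exact ⟨e0, e1, w, a4, e0 ▸ b1, e1 ▸ b2, b3, a6⟩
  have hq : C.Reg (Y 0 (1, false)) := by
    have := (h1 rot).1.conj (Ctx.val (Y 0) (hcomm 0))⁻¹
    rw [rot_of] at this
    simpa [mul_assoc] using this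
  have hc : ∀ θ, C.Ad a θ = θ → C.Ad b θ = θ → θ ∈ C.Z := fun θ h3 h4 =>
    h2 0 (C.mem_cen.2 fun i hi s => by
      rw [List.mem_singleton.1 hi]; cases s; exacts [h3, h4])
  have w1 : (chi * psi' : AutR (0 + 2)).1 (ga 0) = (gb 0)⁻¹ * ga 1 := by
    rw [AutR.mul_apply, psi'_a, map_inv, chi_b, mul_inv_rev, inv_inv]
  have w2 : (psi' * (chi * psi') : AutR (0 + 2)).1 (ga 0) =
      (gb 0 * ga 0 * (gb 0)⁻¹)⁻¹ * ga 1 := by
    rw [AutR.mul_apply, w1, map_mul, map_inv, psi'_b]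
    exact congrArg _ (aut1_of ..)
  have w3 : (psi' * psi' : AutR (0 + 2)).1 (ga 0) = (gb 0 * ga 0 * (gb 0)⁻¹)⁻¹ := by
    rw [AutR.mul_apply, psi'_a, map_inv, psi'_b]
  obtain ⟨-, -, w, b0, b1, b2, b3, b4⟩ := hw.self_of_nhds
  have k0 : ν 0 = 0 := by
    refine fv2_key I h.an hY hq (a := a) (e := b) (by simp [hcomm, ← ha, ← hb]) ?_ ?_ hc ?_ ?_
    · have := (h1 (chi * psi')).1
      rw [w1] at this
      simpa using this
    · have := FV2.Gr_conj C.toCtx I (h1 psi).2 a⁻¹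
      rw [psi_a] at this
      simpa [mul_assoc, ← ha, ← hb] using this
    · have := b4 psi' (h1 psi').1
      rw [psi'_a] at this
      simpa [C.cv_inv, b2, C.Fix_inv, ← hb] using this
    · filter_upwards [hw] with n ⟨_, e1, w, _, _, c2, c3, c4⟩
      have := c4 (chi * psi')
      rw [w1] at this
      simpa [C.cv_inv, C.cv_mul, c2, c3, e1] using this
  have k1 : C.Ad b (ν 1) = 0 := by
    refine fv2_key I h.an hY hq (a := b⁻¹) (e := b * a * b⁻¹)
      (by simp [hcomm, ← ha, ← hb, mul_assoc]) ?_ ?_ (fun θ h3 h4 => ?_) ?_ ?_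
    · have := (h1 (psi' * (chi * psi'))).1
      rw [w2] at this
      simpa using this
    · simpa using FV2.Gr_conj C.toCtx I (h1 1).2 b
    · have h5 : C.Ad b θ = θ := by rw [← h3, C.Ad_Ad_inv, h3]
      refine hc θ ?_ h5
      rw [C.Ad_mul_apply, C.Ad_mul_apply, h3] at h4
      simpa [h3] using congrArg (C.Ad b⁻¹) h4
    · have := b4 (psi' * psi') (h1 _).1
      rw [w3, map_inv, C.Fix_inv] at this
      simpa [C.cv_inv, C.cv_mul, b1, b2, k0, C.Ad_mul_apply, ← ha, ← hb] using this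
    · filter_upwards [hw] with n ⟨e0, e1, w, _, c1, c2, c3, c4⟩
      have := c4 (psi' * (chi * psi'))
      rw [w2] at this
      simpa [C.cv_inv, C.cv_mul, c1, c2, c3, e0, e1, k0, C.Ad_mul_apply] using this
  have k2 : ν 1 = 0 := by simpa using congrArg (C.Ad b⁻¹) k1
  refine b0 (funext (gen_cases2 ?_ ?_ (b3 _) (b3 _) fun j => j.elim0))
  · simp [b1, k2]
  · simp [b2, k0]

end Amb

end Pool.Agent.Lib.MP_d52947_gt
end
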