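import Pool.Agent.Lib.MP_d52947_gt.ModelA
import Pool.Agent.Lib.MP_d52947_gt.AmbB
import Pool.Agent.Lib.MP_d52947_gt.Defs

/-! Closed subgroups of the orthogonal group as an ambient context. -/

namespace Pool.Agent.Lib.MP_d52947_gt

open Filter Topology NormedSpace Matrix
open scoped RealInnerProductSpace

/-- matrices with the Frobenius norm -/
def Mat (n : ℕ) := Matrix (Fin n) (Fin n) ℝ

variable {n : ℕ}

noncomputable instance : NormedRing (Mat n) := Matrix.frobeniusNormedRing
noncomputable instance : NormedAlgebra ℝ (Mat n) := Matrix.frobeniusNormedAlgebra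
instance : FiniteDimensional ℝ (Mat n) :=
  inferInstanceAs (FiniteDimensional ℝ (Matrix (Fin n) (Fin n) ℝ))
instance : CompleteSpace (Mat n) := FiniteDimensional.complete ℝ _
noncomputable instance : MeasurableSpace (Mat n) := borel _
instance : BorelSpace (Mat n) := ⟨rfl⟩

/-- the underlying matrix -/
def Mat.m (X : Mat n) : Matrix (Fin n) (Fin n) ℝ := X

noncomputable instance : InnerProductSpace ℝ (Mat n) where
  inner X Y := (X.mᵀ * Y.m).trace
  norm_sq_eq_re_inner X := by
    have h := Matrix.frobenius_norm_def X.m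
    change ‖X‖ = _ at h
    rw [h, ← Real.sqrt_eq_rpow, Real.sq_sqrt (by positivity), Finset.sum_comm]
    simp [Matrix.trace, Matrix.mul_apply, sq]
  conj_inner_symm X Y := by
    rw [← Matrix.trace_transpose, Matrix.transpose_mul, Matrix.transpose_transpose]; rfl
  add_left X Y Z := by
    rw [← Matrix.trace_add, ← Matrix.add_mul, ← Matrix.transpose_add]; rfl
  smul_left X Y r := by
    change ((r • X.m)ᵀ * Y.m).trace = _
    rw [Matrix.transpose_smul, Matrix.smul_mul, Matrix.trace_smul]; rfl

/-- transposition -/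
noncomputable def Mat.tr : Mat n →L[ℝ] Mat n :=
  LinearMap.toContinuousLinearMap (Matrix.transposeLinearEquiv (Fin n) (Fin n) ℝ ℝ).toLinearMap

theorem Mat.inner_mul_left (a X Y : Mat n) : ⟪a * X, Y⟫ = ⟪X, Mat.tr a * Y⟫ := by
  change ((a.m * X.m)ᵀ * Y.m).trace = (X.mᵀ * (a.mᵀ * Y.m)).trace
  rw [Matrix.transpose_mul, Matrix.mul_assoc]

theorem Mat.inner_mul_right (a X Y : Mat n) : ⟪X * a, Y⟫ = ⟪X, Y * Mat.tr a⟫ := by
  change ((X.m * a.m)ᵀ * Y.m).trace = (X.mᵀ * (Y.m * a.mᵀ)).trace
  rw [Matrix.transpose_mul, Matrix.mul_assoc, Matrix.trace_mul_comm, Matrix.mul_assoc]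

theorem Mat.tr_exp (X : Mat n) : Mat.tr (exp X) = exp (Mat.tr X) := (Matrix.exp_transpose X.m).symm

variable (K : Subgroup (orthogonalGroup (Fin n) ℝ))

/-- the inclusion -/
def iota : K →* Mat n where
  toFun k := mat k
  map_one' := rfl
  map_mul' _ _ := rfl

theorem cont_iota : Continuous (iota K) := continuous_subtype_val.comp continuous_subtype_val

theorem tr_iota (k : K) : Mat.tr (iota K k) = iota K k⁻¹ := rfl

theorem iota_inj : Function.Injective (iota K) := fun _ _ h => Subtype.ext (Subtype.ext h)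

theorem iota_mul_inv (k : K) : iota K k * iota K k⁻¹ = 1 := by rw [← map_mul, mul_inv_cancel, map_one]
theorem iota_inv_mul (k : K) : iota K k⁻¹ * iota K k = 1 := by rw [← map_mul, inv_mul_cancel, map_one]

instance : FirstCountableTopology K :=
  (show IsEmbedding (iota K) from
    IsEmbedding.subtypeVal.comp IsEmbedding.subtypeVal).firstCountableTopology

variable {K}

theorem compact_K (hK : IsClosed (K : Set (orthogonalGroup (Fin n) ℝ))) : CompactSpace K := by
  have h : IsClosedEmbedding (iota K) :=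
    ((isClosed_unitary (R := Matrix (Fin n) (Fin n) ℝ)).isClosedEmbedding_subtypeVal).comp
      hK.isClosedEmbedding_subtypeVal
  refine ⟨?_⟩
  convert h.isCompact_preimage (isCompact_closedBall 0 ‖(1 : Mat n)‖) using 1
  refine (Set.eq_univ_of_forall fun k => ?_).symm
  rw [Set.mem_preimage, mem_closedBall_zero_iff, norm_eq_sqrt_real_inner, norm_eq_sqrt_real_inner,
    ← mul_one (iota K k), Mat.inner_mul_left, mul_one]
  exact (congrArg (fun z : Mat n => √⟪1, z⟫) (iota_inv_mul K k)).le

variable (K) [CompactSpace K]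

/-- the Lie algebra -/
noncomputable abbrev Lie := lieA (cont_iota K)

theorem mem_Lie {X : Mat n} : X ∈ Lie K ↔ X.m ∈ lie K := Iff.rfl

theorem tr_lie (X : Lie K) : Mat.tr (X : Mat n) = -X := by
  have h1 := Mat.tr.hasFDerivAt.comp_hasDerivAt 0 (hasDerivAt_exp0 (X : Mat n))
  refine h1.unique ((hasDerivAt_exp0 (-X : Mat n)).congr_of_eventuallyEq (Eventually.of_forall
    fun t => ?_))
  obtain ⟨k, hk⟩ := X.2 t
  simp only [Function.comp]
  rw [smul_neg, ← exp_neg_eq _ hk, ← hk]; rfl

/-- orthogonal projection on the Lie algebra -/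
noncomputable def PL : Mat n →L[ℝ] Lie K := (Lie K).orthogonalProjection

theorem PL_coe (x : Lie K) : PL K x = x := Submodule.orthogonalProjection_mem_subspace_eq_self x

theorem coe_PL {X : Mat n} (h : X ∈ Lie K) : (PL K X : Mat n) = X :=
  congrArg Subtype.val (PL_coe K ⟨X, h⟩)

/-- bracket -/
noncomputable def adL : Lie K →L[ℝ] Lie K →L[ℝ] Lie K :=
  (ContinuousLinearMap.compL ℝ _ _ _ (PL K)) ∘L
    (((ContinuousLinearMap.mul ℝ (Mat n) - (ContinuousLinearMap.mul ℝ (Mat n)).flip).bilinearComp
      (Lie K).subtypeL (Lie K).subtypeL))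

theorem coe_adL (x y : Lie K) : (adL K x y : Mat n) = x * y - y * x :=
  coe_PL K (lie_mem_lieA _ x.2 y.2)

/-- adjoint action -/
noncomputable def AdL0 (k : K) : Lie K →L[ℝ] Lie K :=
  PL K ∘L ContinuousLinearMap.mulLeftRight ℝ (Mat n) (iota K k) (iota K k⁻¹) ∘L (Lie K).subtypeL

theorem coe_AdL0 (k : K) (y : Lie K) : (AdL0 K k y : Mat n) = iota K k * y * iota K k⁻¹ :=
  coe_PL K (conj_mem_lieA _ k y.2)

/-- exponential -/
noncomputable def exL (x : Lie K) : K := (x.2 1).choose

theorem iota_exL (x : Lie K) : iota K (exL K x) = exp (x : Mat n) := by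
  simpa [exL] using (x.2 1).choose_spec

/-- the ambient context of a closed subgroup of the orthogonal group -/
noncomputable def amb : Amb (Lie K) K (Mat n) where
  ad := adL K
  ad_self x := Subtype.ext (by rw [coe_adL, sub_self]; rfl)
  ad_ad x y := by
    ext z
    simp only [ContinuousLinearMap.sub_apply, ContinuousLinearMap.mul_apply, Submodule.coe_sub,
      coe_adL]
    noncomm_ring
  inner_ad x y z := by
    simp only [Submodule.coe_inner, coe_adL, inner_sub_left, inner_sub_right]
    rw [Mat.inner_mul_left, Mat.inner_mul_right, tr_lie, neg_mul, mul_neg, inner_neg_right,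
      inner_neg_right]
    ring
  Ad :=
    { toFun := AdL0 K
      map_one' := by ext z; simp [coe_AdL0]
      map_mul' := fun a b => by ext z; simp [coe_AdL0, mul_assoc] }
  inner_Ad k x y := by
    simp only [MonoidHom.coe_mk, OneHom.coe_mk, Submodule.coe_inner, coe_AdL0]
    rw [Mat.inner_mul_right, Mat.inner_mul_left]
    simp only [tr_iota, inv_inv, mul_assoc, iota_inv_mul, mul_one]
    rw [← mul_assoc, iota_inv_mul, one_mul]
  Ad_ad k x y := Subtype.ext (by
    simp only [MonoidHom.coe_mk, OneHom.coe_mk, coe_AdL0, coe_adL, mul_assoc, mul_sub, sub_mul]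
    simp only [← mul_assoc (iota K k⁻¹), iota_inv_mul, one_mul])
  cont_Ad := continuous_const.clm_comp (((ContinuousLinearMap.mulLeftRight ℝ (Mat n)).continuous₂.comp
    ((cont_iota K).prodMk ((cont_iota K).comp continuous_inv))).clm_comp continuous_const)
  ex := exL K
  cont_ex := ((cont_iota K).isClosedEmbedding (iota_inj K)).isInducing.continuous_iff.2
    ((cont_exp.comp continuous_subtype_val).congr fun x => (iota_exL K x).symm)
  ex_zero := iota_inj K (by simp [iota_exL])
  ex_add x y h := iota_inj K (by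
    rw [map_mul, iota_exL, iota_exL, iota_exL, Submodule.coe_add, exp_add_comm]
    exact sub_eq_zero.1 ((coe_adL K x y).symm.trans (congrArg Subtype.val h)))
  Ad_ex x := ContinuousLinearMap.ext fun y => Subtype.ext <| (coe_AdL0 K _ y).trans <| Eq.trans
    (by rw [← exp_neg_eq _ (iota_exL K x), ← iota_exL]; rfl)
    (exp_ad_eq (Lie K).subtypeL (adL K x) x (coe_adL K x) y).symm
  ex_conj k x := iota_inj K (by
    rw [map_mul, map_mul, iota_exL, iota_exL, ← exp_conj_ι]; exact congrArg _ (coe_AdL0 K k x).symm)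
  ex_nhds U hU := (lieA_nhds (cont_iota K) (PL K) (PL_coe K) hU).mono fun k ⟨x, hx, h⟩ =>
    ⟨x, hx, iota_inj K (by rw [iota_exL, h])⟩
  ex_inj := by
    obtain ⟨l, -, -, -, h⟩ := exists_loc_inv (hasStrictFDerivAt_exp_zero (𝕂 := ℝ) (𝔸 := Mat n)) exp_zero
    refine ⟨_, continuous_subtype_val.continuousAt.preimage_mem_nhds h, fun x hx y hy e => ?_⟩
    refine Subtype.ext (hx.symm.trans (Eq.trans ?_ hy))
    rw [← iota_exL, ← iota_exL, e]
  ι := iota K
  ι_inj := iota_inj K
  cont_ι := cont_iota K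
  j := (Lie K).subtypeL
  P := PL K
  P_j := PL_coe K
  tr := Mat.tr
  tr_ι := tr_iota K
  ι_ex := iota_exL K
  j_Ad := coe_AdL0 K
  j_ad := coe_adL K

theorem coe_Ad (k : K) (y : Lie K) : ((amb K).Ad k y : Mat n).m = adj k (y : Mat n).m := coe_AdL0 K k y

theorem coe_ad (x y : Lie K) :
    ((amb K).ad x y : Mat n).m = (x : Mat n).m * (y : Mat n).m - (y : Mat n).m * (x : Mat n).m :=
  coe_adL K x y

end Pool.Agent.Lib.MP_d52947_gt
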