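import Pool.Agent.Lib.MP_d52947_gt.ErgDefs
import Pool.Agent.Lib.MP_d52947_gt.MatAmb

/-! The main theorem. -/

namespace Pool.Agent.Lib.MP_d52947_gt

open Module MeasureTheory Matrix Ctx
open scoped RealInnerProductSpace

variable {n g : ℕ}

/-- identification of the ambient spaces -/
noncomputable def toPt : (Gen g → Mat n) ≃L[ℝ] Pt g n :=
  LinearEquiv.toContinuousLinearEquiv
    { toFun := fun z => z
      invFun := fun z => z
      map_add' := fun _ _ => rfl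
      map_smul' := fun _ _ => rfl
      left_inv := fun _ => rfl
      right_inv := fun _ => rfl }

variable {K : Subgroup (orthogonalGroup (Fin n) ℝ)} [CompactSpace K] [ConnectedSpace K]

theorem coords_eq (ρ : Surf g →* K) : coords ρ = toPt ((amb K).emb (tup ρ)) := rfl

theorem coords_inj : Function.Injective (coords : (Surf g →* K) → _) := fun _ _ h =>
  tup_inj ((amb K).emb_inj (toPt.injective h))

/-- inclusion of tuples -/
noncomputable def jP : (Gen g → Lie K) →ₗ[ℝ] Pt g n :=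
  toPt.toLinearMap ∘ₗ (Lie K).subtype.compLeft _

theorem coc_up {ρ : Surf g →* K} {u : Surf g → Lie K} (h : (amb K).Coc ρ u) :
    IsCocycle ρ fun x => (u x : Mat n).m :=
  ⟨fun x => (u x).2, fun x y => by simp only [h x y, ← coe_Ad]; rfl⟩

theorem coc_down {ρ : Surf g →* K} {u : Surf g → Matrix (Fin n) (Fin n) ℝ} (h : IsCocycle ρ u) :
    ∃ v : Surf g → Lie K, (amb K).Coc ρ v ∧ u = fun x => (v x : Mat n).m :=
  ⟨fun x => ⟨u x, h.1 x⟩, fun x y => Subtype.ext ((h.2 x y).trans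
    (congrArg (u x + ·) (coe_Ad K (ρ x) ⟨u y, h.1 y⟩).symm)), rfl⟩

theorem dimZ_eq (ρ : Surf g →* K) : dimZ ρ = finrank ℝ ((amb K).Z1 (tup ρ)) := by
  let T : (amb K).Z1 (tup ρ) →ₗ[ℝ] (Surf g → Matrix (Fin n) (Fin n) ℝ) := LinearMap.pi fun s =>
    (Lie K).subtype ∘ₗ (amb K).cv (tup ρ) (Function.surjInv (PresentedGroup.mk_surjective _) s) ∘ₗ
      Submodule.subtype _
  have hT : ∀ {u} (hu : (amb K).Coc ρ u), T ⟨_, hu.mem⟩ = fun x => (u x : Mat n).m := fun hu =>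
    funext fun s => congrArg (fun y : Lie K => (y : Mat n).m)
      ((hu.cv _).trans (by rw [Function.surjInv_eq (PresentedGroup.mk_surjective _)]))
  have h1 : {u | IsCocycle ρ u} = LinearMap.range T := by
    ext u
    refine ⟨fun h => ?_, ?_⟩
    · obtain ⟨v, hv, rfl⟩ := coc_down h
      exact ⟨_, hT hv⟩
    · rintro ⟨⟨v, hv⟩, rfl⟩
      obtain ⟨u, hu, rfl⟩ := exists_coc ⟨v, hv⟩
      rw [hT hu]; exact coc_up hu
  rw [dimZ, h1, Submodule.span_eq, LinearMap.finrank_range_of_inj]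
  refine (injective_iff_map_eq_zero _).2 ?_
  rintro ⟨v, hv⟩ h
  obtain ⟨u, hu, rfl⟩ := exists_coc ⟨v, hv⟩
  rw [hT hu] at h
  exact Subtype.ext (funext fun i => Subtype.ext (congrFun h _))

theorem mem_cent {ρ : Surf g →* K} {θ : Lie K} :
    (θ : Mat n).m ∈ cent ρ ↔ θ ∈ (amb K).cen (tup ρ) (List.finRange g) := by
  rw [mem_cen_all]
  refine ⟨fun h w => Subtype.ext ((coe_Ad K _ θ).trans (by rw [val_tup]; exact h.2 _)),
    fun h => ⟨θ.2, fun s => ?_⟩⟩
  obtain ⟨w, rfl⟩ := PresentedGroup.mk_surjective _ s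
  rw [← val_tup, ← coe_Ad, h]

theorem smooth_iff {ρ : Surf g →* K} : Smooth ρ ↔ (amb K).Sm (tup ρ) := by
  refine ⟨fun h => ⟨tup_rel ρ, fun a ha b hb => Subtype.ext ((coe_ad K a b).trans
    (sub_eq_zero.2 (h.1 _ (mem_cent.2 ha) _ (mem_cent.2 hb)))), fun hg θ hθ =>
    ((amb K).mem_Z_iff θ).2 fun k => Subtype.ext ((coe_Ad K k θ).trans
      (h.2 hg _ (mem_cent.2 hθ) k))⟩, fun h => ⟨fun a ha b hb => ?_, fun hg a ha k => ?_⟩⟩
  · exact sub_eq_zero.1 ((coe_ad K ⟨a, ha.1⟩ ⟨b, hb.1⟩).symm.trans (congrArg Subtype.val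
      (h.2.1 ⟨a, ha.1⟩ (mem_cent.1 ha) ⟨b, hb.1⟩ (mem_cent.1 hb))))
  · exact (coe_Ad K k ⟨a, ha.1⟩).symm.trans (congrArg Subtype.val
      (((amb K).mem_Z_iff ⟨a, ha.1⟩).1 (h.2.2 hg (mem_cent.1 ha)) k))

theorem ae_iff {P : (Surf g →* K) → Prop} {Q : (Gen g → K) → Prop} (h : ∀ ρ, P ρ ↔ Q (tup ρ)) :
    AE P ↔ (amb K).AeS Q := by
  refine forall_congr' fun d => ?_
  have h1 : coords '' {ρ : Surf g →* K | Smooth ρ ∧ dimZ ρ = d ∧ ¬ P ρ} = toPt '' ((amb K).emb ''
      {x | (amb K).Sm x ∧ finrank ℝ ((amb K).Z1 x) = d ∧ ¬ Q x}) := by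
    ext z
    simp only [smooth_iff, dimZ_eq, h, Set.image_image]
    refine ⟨fun ⟨ρ, h1, h2⟩ => ⟨_, h1, h2⟩, fun ⟨x, h1, h2⟩ => ?_⟩
    obtain ⟨ρ, rfl⟩ := exists_tup h1.1.1
    exact ⟨ρ, h1, h2⟩
  rw [h1]
  refine ⟨fun h => ?_, fun h => null_image (fun _ _ => toPt.contDiff.contDiffAt) h⟩
  have := null_image (f := toPt.symm) (fun _ _ => toPt.symm.contDiff.contDiffAt) h
  rwa [ContinuousLinearEquiv.symm_image_image] at this

theorem ae_mono {P P' : (Surf g →* K) → Prop} (h : AE P) (h' : ∀ ρ, Smooth ρ → P ρ → P' ρ) :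
    AE P' := fun d => by
  refine measure_mono_null (Set.image_mono fun ρ hρ => ?_) (h d)
  exact ⟨hρ.1, hρ.2.1, fun hp => hρ.2.2 (h' ρ hρ.1 hp)⟩

/-- the invariant inner products of the family -/
noncomputable def BQ (I : (amb K).Ideals) (q : (amb K).QI I) :
    Matrix (Fin n) (Fin n) ℝ →ₗ[ℝ] Matrix (Fin n) (Fin n) ℝ →ₗ[ℝ] ℝ :=
  (innerₗ (Lie K)).compl₁₂ (((amb K).Q I q).toLinearMap ∘ₗ (PL K).toLinearMap) (PL K).toLinearMap

theorem BQ_coe (I : (amb K).Ideals) (q) (x y : Lie K) :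
    BQ I q (x : Mat n).m (y : Mat n).m = ⟪(amb K).Q I q x, y⟫ := by
  change ⟪(amb K).Q I q (PL K x), PL K y⟫ = _
  rw [PL_coe, PL_coe]

theorem isInv_BQ (I : (amb K).Ideals) (q) : IsInvInner K (BQ I q) := by
  refine ⟨fun X hX Y hY => ⟨?_, fun k => ?_⟩, fun X hX h => ?_⟩
  · exact (BQ_coe I q ⟨X, hX⟩ ⟨Y, hY⟩).trans (by
      rw [Q_symm, real_inner_comm]; exact (BQ_coe I q ⟨Y, hY⟩ ⟨X, hX⟩).symm)
  · have := BQ_coe I q ((amb K).Ad k ⟨X, hX⟩) ((amb K).Ad k ⟨Y, hY⟩)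
    rw [coe_Ad, coe_Ad, Q_Ad, (amb K).inner_Ad, ← BQ_coe] at this
    exact this
  · exact (BQ_coe I q ⟨X, hX⟩ ⟨X, hX⟩).symm ▸ (amb K).Q_pos I q fun e => h (congrArg Subtype.val e)

theorem omega_BQ (I : (amb K).Ideals) (q) {ρ : Surf g →* K} {u v : Surf g → Lie K}
    (hu : (amb K).Coc ρ u) (hv : (amb K).Coc ρ v) :
    omega (BQ I q) ρ (fun x => (u x : Mat n).m) (fun x => (v x : Mat n).m) =
      (amb K).omQ I (tup ρ) q (fun i => u (.of i)) (fun i => v (.of i)) := by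
  rw [omQ_coc I q hu hv, omega]
  simp only [← coe_Ad, BQ_coe]

theorem main : Main := by
  intro n g hg K hK hK' Y hYm hY k α hα hi
  classical
  have := compact_K hK
  have := isConnected_iff_connectedSpace.1 hK'
  let : MeasurableSpace (Lie K) := borel _
  have : BorelSpace (Lie K) := ⟨rfl⟩
  obtain ⟨I⟩ := (amb K).exists_ideals
  let F : (Gen g → Mat n) → (Gen g → Lie K) [⋀^Fin k]→ₗ[ℝ] ℝ := fun z =>
    if toPt z ∈ coords '' Y then (α (toPt z)).compLinearMap jP else 0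
  have hF : ∀ v, Measurable (F · v) := fun v => by
    have : (F · v) = (coords '' Y).indicator (fun z => α z fun j => jP (v j)) ∘ toPt := by
      funext z
      by_cases h : toPt z ∈ coords '' Y
      · simp only [F, if_pos h, Function.comp, Set.indicator_of_mem h]; rfl
      · simp only [F, if_neg h, Function.comp, Set.indicator_of_notMem h]; rfl
    rw [this]
    exact ((hα.1 _).indicator hYm).comp toPt.continuous.measurable
  have h1 : ∀ ρ ∈ Y, ∀ u : Fin k → Surf g → Lie K, F ((amb K).emb (tup ρ)) (fun j i => u j (.of i)) =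
      ev α ρ fun j x => (u j x : Mat n).m := fun ρ h u => by
    simp only [F, ← coords_eq, if_pos (Set.mem_image_of_mem _ h)]; rfl
  have h0 : ∀ ρ ∉ Y, F ((amb K).emb (tup ρ)) = 0 := fun ρ h => by
    simp only [F, ← coords_eq, coords_inj.mem_set_image, if_neg h]
  have hor : ∀ x, (amb K).Sm x → (amb K).Hor (F ∘ (amb K).emb) x := by
    intro x hx u j ⟨η, hη⟩
    obtain ⟨ρ, rfl⟩ := exists_tup hx.1
    choose v hv e using fun j => exists_coc (u j)
    by_cases h : ρ ∈ Y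
    · simp only [res_apply, Function.comp, ← e, h1 ρ h]
      refine (hα.2 ρ (smooth_iff.2 hx) _ fun j => coc_up (hv j)).1 
        ⟨j, (η : Mat n).m, η.2, fun s => ?_⟩
      obtain ⟨w, rfl⟩ := PresentedGroup.mk_surjective _ s
      beta_reduce
      rw [← (hv j).cv, e, show (u j).1 = _ from hη.symm, cv_del, val_tup]
      exact congrArg ((η : Mat n).m - ·) (coe_Ad K _ η)
    · simp [res_apply, h0 ρ h]
  have hc : ∀ x, (amb K).Sm x → ∀ c (u : Fin k → (amb K).Z1 x),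
      F ((amb K).emb fun i => c * x i * c⁻¹) (fun j i => (amb K).Ad c ((u j).1 i)) =
        F ((amb K).emb x) fun j => u j := by
    intro x hx c u
    obtain ⟨ρ, rfl⟩ := exists_tup hx.1
    choose v hv e using fun j => exists_coc (u j)
    by_cases h : ρ ∈ Y
    · simp only [← e, h1 ρ h]
      refine (h1 (conjRep c ρ) ((hY ρ h).1 c) fun j x => (amb K).Ad c (v j x)).trans ?_
      simp only [coe_Ad]
      exact (hα.2 ρ (smooth_iff.2 hx) _ fun j => coc_up (hv j)).2 c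
    · rw [h0 ρ h]
      refine DFunLike.congr_fun (h0 (conjRep c ρ) fun h' => h ?_) _
      convert (hY _ h').1 c⁻¹
      ext s; simp [conjRep, mul_assoc]
  have hinv : ∀ φ, (amb K).AeS ((amb K).Inv (F ∘ (amb K).emb) φ) := fun φ => by
    refine (ae_iff fun _ => Iff.rfl).1 (ae_mono (hi _ (isMod_bar φ)) fun ρ _ H u => ?_)
    choose v hv e using fun j => exists_coc (u j)
    simp only [res_apply, Function.comp, pbZ_coe, ← tup_bar]
    by_cases h : ρ ∈ Y
    · rw [← funext e, h1 ρ h, ← H h _ fun j => coc_up (hv j),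
        ← h1 _ ((hY ρ h).2 _ (isMod_bar φ)) fun j x => v j (bar φ x)]
      congr 1
      funext j i
      rw [pb_apply, ← e, (hv j).cv]
      exact congrArg _ (bar_mk φ _).symm
    · rw [h0 ρ h, h0 _ fun h' => h ?_]
      · rfl
      · convert (hY _ h').2 _ (isMod_bar φ⁻¹)
        ext s
        exact congrArg (fun t => ((ρ t : K) : orthogonalGroup (Fin n) ℝ).1 _ _)
          ((bar φ).apply_symm_apply _).symm
  have key : (amb K).AeS fun x => (amb K).Concl I x (F ((amb K).emb x)) := by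
    obtain _ | _ | g := g
    · omega
    · exact (amb K).aeS_one I F hF hor hc hinv
    · exact (amb K).aeS_high I F hF hor hinv
  obtain ⟨f, hf, h2, h3⟩ := (amb K).exists_coef I F hF
  let E := (Fintype.equivFin ((amb K).JI I k)).symm
  refine ⟨_, fun i => (E i).1, fun i => (E i).2.1, fun i j => BQ I ((E i).2.2 j),
    fun i z => f (E i) (toPt.symm z), fun i j => isInv_BQ I _, fun i => ⟨(hf _).comp
      toPt.symm.continuous.measurable, fun ρ hρ c => ?_, fun ψ hψ => ae_mono (hi ψ hψ)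
      fun ρ _ H h => ?_⟩, ae_mono ((ae_iff fun _ => Iff.rfl).2 key) fun ρ _ H h u hu => ?_⟩
  · refine h3 (tup ρ) (fun i => c * tup ρ i * c⁻¹) (fun v => ⟨fun i => (amb K).Ad c (v.1 i), ?_⟩)
      (fun v => ⟨⟨fun i => (amb K).Ad c⁻¹ (v.1 i), ?_⟩, ?_⟩) (fun q u v => omQ_conj I q c _ _ _)
      (hc _ (smooth_iff.1 hρ) c) _
    · rw [mem_Z1, cv_conjT, (amb K).mem_Z1.1 v.2, map_zero]
    · have := cv_conjT (C := (amb K).toCtx) c⁻¹ (fun i => c * tup ρ i * c⁻¹) v.1 (relator g)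
      rw [(amb K).mem_Z1.1 v.2, map_zero] at this
      rw [mem_Z1]
      simpa [mul_assoc] using this
    · exact Subtype.ext (funext fun i => by simp)
  · obtain ⟨e, e1, e2, e3⟩ := exists_mod I ρ hψ
    refine h3 (tup ρ) _ e e1 e2 (fun u => ?_) _
    choose v hv e4 e5 using fun j => e3 (u j)
    rw [← funext e4, ← funext e5, h1 ρ h, ← H h _ fun j => coc_up (hv j)]
    exact h1 _ ((hY ρ h).2 _ hψ) fun j x => v j (ψ x)
  · choose v hv e using fun j => coc_down (hu j)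
    rw [funext e, ← h1 ρ h, h2 _ H fun j => ⟨_, (hv j).mem⟩]
    refine (Fintype.sum_equiv E _ _ fun i => ?_).symm
    simp only [wJ, wedge, omega_BQ I _ (hv _) (hv _)]
    rfl

end Pool.Agent.Lib.MP_d52947_gt
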