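import Pool.Agent.Lib.MP_d52947_gt.Final
import Pool.Agent.Lib.MP_d52947_gt.Erg

/-! The full theorem: constant coefficients on a connected component. -/

namespace Pool.Agent.Lib.MP_d52947_gt

open Filter Topology MeasureTheory Module Matrix

namespace Full

open Ctx

variable {n g : ℕ}

theorem isMod_refl : IsMod (MulEquiv.refl (Surf g)) := fun _ _ => rfl

theorem two_comp {σ : Surf g → Surf g → ℝ} (h : IsTwoCocycle σ) (φ : Surf g ≃* Surf g) :
    IsTwoCocycle fun x y => σ (φ x) (φ y) :=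
  ⟨by simpa using h.1, fun x y z => by simpa using h.2 (φ x) (φ y) (φ z)⟩

theorem isMod_trans {φ ψ : Surf g ≃* Surf g} (hφ : IsMod φ) (hψ : IsMod ψ) :
    IsMod (φ.trans ψ) := fun σ h => (hφ _ (two_comp h ψ)).trans (hψ σ h)

theorem isMod_symm {φ : Surf g ≃* Surf g} (hφ : IsMod φ) : IsMod φ.symm := fun σ h => by
  have := hφ _ (two_comp h φ.symm)
  simp only [MulEquiv.symm_apply_apply] at this
  exact this.symm

instance : Countable (Surf g) := (PresentedGroup.mk_surjective _).countable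

instance : Countable (Surf g ≃* Surf g) :=
  Function.Injective.countable (f := fun φ : Surf g ≃* Surf g => fun i => φ (.of i))
    fun _ _ h => MulEquiv.toMonoidHom_injective (PresentedGroup.ext (congrFun h))

variable {K : Subgroup (orthogonalGroup (Fin n) ℝ)}

theorem precomp_trans (φ ψ : Surf g ≃* Surf g) (ρ : Surf g →* K) :
    precomp ψ (precomp φ ρ) = precomp (ψ.trans φ) ρ := rfl

theorem precomp_symm (φ : Surf g ≃* Surf g) (ρ : Surf g →* K) :
    precomp φ.symm (precomp φ ρ) = ρ :=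
  MonoidHom.ext fun s => congrArg ρ (φ.apply_symm_apply s)

theorem precomp_symm' (φ : Surf g ≃* Surf g) (ρ : Surf g →* K) :
    precomp φ (precomp φ.symm ρ) = ρ := precomp_symm φ.symm ρ

theorem coc_comp {ρ : Surf g →* K} {u : Surf g → Matrix (Fin n) (Fin n) ℝ} (h : IsCocycle ρ u)
    (φ : Surf g ≃* Surf g) : IsCocycle (precomp φ ρ) fun x => u (φ x) :=
  ⟨fun _ => h.1 _, fun x y => (congrArg u (map_mul φ x y)).trans (h.2 _ _)⟩

theorem cent_precomp (φ : Surf g ≃* Surf g) (ρ : Surf g →* K) : cent (precomp φ ρ) = cent ρ := by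
  ext ζ
  refine and_congr_right fun _ => ⟨fun h x => ?_, fun h x => h _⟩
  obtain ⟨y, rfl⟩ := φ.surjective x
  exact h y

theorem smooth_precomp (φ : Surf g ≃* Surf g) {ρ : Surf g →* K} (h : Smooth ρ) :
    Smooth (precomp φ ρ) := by
  unfold Smooth at *
  rwa [cent_precomp]

theorem dimZ_precomp (φ : Surf g ≃* Surf g) (ρ : Surf g →* K) : dimZ (precomp φ ρ) = dimZ ρ := by
  let e := LinearEquiv.funCongrLeft ℝ (Matrix (Fin n) (Fin n) ℝ) φ.toEquiv
  have h : {u | IsCocycle (precomp φ ρ) u} = e.toLinearMap '' {u | IsCocycle ρ u} := by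
    ext u
    refine ⟨fun h => ⟨fun x => u (φ.symm x), ?_, ?_⟩, ?_⟩
    · have := coc_comp h φ.symm
      rwa [precomp_symm] at this
    · funext x
      exact congrArg u (φ.symm_apply_apply x)
    · rintro ⟨v, hv, rfl⟩
      exact coc_comp hv φ
  rw [dimZ, h, Submodule.span_image, LinearEquiv.finrank_map_eq, dimZ]

theorem ae_all {ι : Type} [Countable ι] {P : ι → (Surf g →* K) → Prop} (h : ∀ i, AE (P i)) :
    AE fun ρ => ∀ i, P i ρ := fun d => by
  refine measure_mono_null ?_ (measure_iUnion_null fun i => h i d)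
  rintro _ ⟨ρ, ⟨h1, h2, h3⟩, rfl⟩
  obtain ⟨i, hi⟩ := not_forall.1 h3
  exact Set.mem_iUnion.2 ⟨i, ρ, ⟨h1, h2, hi⟩, rfl⟩

theorem ae_and {P Q : (Surf g →* K) → Prop} (h : AE P) (h' : AE Q) : AE fun ρ => P ρ ∧ Q ρ :=
  fun d => by
  refine measure_mono_null ?_ (measure_union_null (h d) (h' d))
  rintro _ ⟨ρ, ⟨h1, h2, h3⟩, rfl⟩
  rcases not_and_or.1 h3 with h3 | h3
  exacts [Or.inl ⟨ρ, ⟨h1, h2, h3⟩, rfl⟩, Or.inr ⟨ρ, ⟨h1, h2, h3⟩, rfl⟩]

theorem ae_imp {p : Prop} {P : (Surf g →* K) → Prop} (h : p → AE P) : AE fun ρ => p → P ρ := by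
  by_cases hp : p
  · simpa [hp] using h hp
  · intro d
    simp [hp]

variable [CompactSpace K] [ConnectedSpace K]

theorem exists_W (φ : Surf g ≃* Surf g) : ∃ W : Pt g n → Pt g n, ContDiff ℝ 1 W ∧
    ∀ ρ : Surf g →* K, W (coords ρ) = coords (precomp φ ρ) := by
  choose w hw using fun i : Gen g => PresentedGroup.mk_surjective _ (φ (.of i))
  choose W h1 h2 using fun i => (amb K).word_smooth (w i)
  refine ⟨fun z => toPt fun i => W i (toPt.symm z), toPt.contDiff.comp
    (contDiff_pi.2 fun i => (h1 i).comp toPt.symm.contDiff), fun ρ => ?_⟩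
  refine congrArg toPt (funext fun i => (h2 i (tup ρ)).trans ?_)
  rw [val_tup]
  exact congrArg (fun s => (amb K).ι (ρ s)) (hw i)

theorem ae_precomp {P : (Surf g →* K) → Prop} (h : AE P) (φ : Surf g ≃* Surf g) :
    AE fun ρ => P (precomp φ ρ) := fun d => by
  obtain ⟨W, h1, h2⟩ := exists_W (K := K) φ.symm
  refine measure_mono_null ?_ (null_image (f := W) (fun _ _ => h1.contDiffAt) (h d))
  rintro _ ⟨ρ, ⟨h3, h4, h5⟩, rfl⟩
  exact ⟨_, ⟨precomp φ ρ, ⟨smooth_precomp φ h3, (dimZ_precomp φ ρ).trans h4, h5⟩, rfl⟩,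
    by rw [h2, precomp_symm]⟩

omit [ConnectedSpace K] in
theorem emb_closed' : IsClosedEmbedding fun x : Gen g → K => toPt ((amb K).emb x) :=
  toPt.toHomeomorph.isClosedEmbedding.comp (amb K).emb_closed

theorem range_coords : Set.range (coords : (Surf g →* K) → Pt g n) =
    (fun x => toPt ((amb K).emb x)) '' Rep0 g K := by
  ext z
  refine ⟨fun ⟨ρ, h⟩ => ⟨tup ρ, tup_rel ρ, h⟩, fun ⟨x, h1, h2⟩ => ?_⟩
  obtain ⟨ρ, rfl⟩ := exists_tup h1
  exact ⟨ρ, h2⟩

theorem closed_range : IsClosed (Set.range (coords : (Surf g →* K) → Pt g n)) := by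
  rw [range_coords]
  exact emb_closed'.isClosedMap _ (isClosed_eq (Amb.cont_val _) continuous_const)

theorem closed_comp {X : Type} [TopologicalSpace X] {F : Set X} (hF : IsClosed F) (x : X) :
    IsClosed (connectedComponentIn F x) := by
  by_cases h : x ∈ F
  · rw [connectedComponentIn_eq_image h]
    exact hF.isClosedEmbedding_subtypeVal.isClosedMap _ isClosed_connectedComponent
  · rw [connectedComponentIn_eq_empty h]
    exact isClosed_empty

theorem mem_comp {ρ₀ ρ : Surf g →* K}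
    (h : coords ρ ∈ connectedComponentIn (Set.range (coords : (Surf g →* K) → _)) (coords ρ₀)) :
    tup ρ ∈ connectedComponentIn (Rep0 g K) (tup ρ₀) := by
  set S := connectedComponentIn (Set.range (coords : (Surf g →* K) → _)) (coords ρ₀)
  have hS : S ⊆ (fun x => toPt ((amb K).emb x)) '' Rep0 g K :=
    range_coords (K := K) ▸ connectedComponentIn_subset _ _
  have h1 : IsPreconnected ((fun x : Gen g → K => toPt ((amb K).emb x)) ⁻¹' S) := by
    rw [← emb_closed'.isInducing.isPreconnected_image,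
      Set.image_preimage_eq_of_subset (hS.trans (Set.image_subset_range _ _))]
    exact isPreconnected_connectedComponentIn
  refine h1.subset_connectedComponentIn (mem_connectedComponentIn ⟨ρ₀, rfl⟩) (fun x hx => ?_) h
  obtain ⟨y, hy, e⟩ := hS hx
  exact emb_closed'.injective e ▸ hy

theorem conj_comp {z : Pt g n} {ρ : Surf g →* K}
    (h : coords ρ ∈ connectedComponentIn (Set.range (coords : (Surf g →* K) → _)) z) (c : K) :
    coords (conjRep c ρ) ∈ connectedComponentIn (Set.range (coords : (Surf g →* K) → _)) z := by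
  rw [connectedComponentIn_eq h]
  have h1 : Continuous fun c : K => coords (conjRep c ρ) :=
    emb_closed'.continuous.comp (f := fun c : K => fun i => c * tup ρ i * c⁻¹) (by fun_prop)
  have h2 : coords ρ ∈ Set.range fun c : K => coords (conjRep c ρ) :=
    ⟨1, congrArg coords (MonoidHom.ext fun s => by simp [conjRep])⟩
  have h3 : (Set.range fun c : K => coords (conjRep c ρ)) ⊆
      Set.range (coords : (Surf g →* K) → _) := fun _ ⟨_, hc⟩ => ⟨_, hc⟩
  exact (isPreconnected_range h1).subset_connectedComponentIn h2 h3 ⟨c, rfl⟩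

end Full

open Full Ctx in
theorem full (n g : ℕ) (hg : 1 ≤ g) (K : Subgroup (orthogonalGroup (Fin n) ℝ))
    (hK : IsClosed (K : Set (orthogonalGroup (Fin n) ℝ)))
    (hK' : IsConnected (K : Set (orthogonalGroup (Fin n) ℝ)))
    (ρ₀ : Surf g →* K) (Y : Set (Surf g →* K))
    (hY : Y = coords ⁻¹' connectedComponentIn (Set.range (coords : (Surf g →* K) → _)) (coords ρ₀))
    (k : ℕ) (α : FormField g n k) (hα : IsForm K α)
    (hi : ∀ φ, IsMod φ → AE fun ρ : Surf g →* K => ρ ∈ Y → ∀ u, (∀ j, IsCocycle ρ (u j)) →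
      ev α (precomp φ ρ) (fun j x => u j (φ x)) = ev α ρ u) :
    ∃ (N : ℕ) (m : Fin N → ℕ) (e : ∀ i, Fin (m i) × Bool ≃ Fin k)
      (B : ∀ i, Fin (m i) → Matrix (Fin n) (Fin n) ℝ →ₗ[ℝ] Matrix (Fin n) (Fin n) ℝ →ₗ[ℝ] ℝ)
      (c : Fin N → ℝ),
      (∀ i j, IsInvInner K (B i j)) ∧
      AE fun ρ : Surf g →* K => ρ ∈ Y → ∀ u, (∀ j, IsCocycle ρ (u j)) →
        ev α ρ u = ∑ i, c i * wedge (e i) (fun j => omega (B i j) ρ) u := by
  classical
  have := compact_K hK
  have := isConnected_iff_connectedSpace.1 hK'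
  let : MeasurableSpace (Lie K) := borel _
  have : BorelSpace (Lie K) := ⟨rfl⟩
  let Y' : Set (Surf g →* K) := {ρ | ∃ φ, IsMod φ ∧ precomp φ ρ ∈ Y}
  have hc : ∀ ρ ∈ Y', ∀ c, conjRep c ρ ∈ Y' := fun ρ ⟨φ, h1, h2⟩ c =>
    ⟨φ, h1, by subst hY; exact conj_comp h2 c⟩
  have hp : ∀ ρ ∈ Y', ∀ ψ, IsMod ψ → precomp ψ ρ ∈ Y' := fun ρ ⟨φ, h1, h2⟩ ψ hψ =>
    ⟨φ.trans ψ.symm, isMod_trans h1 (isMod_symm hψ), by
      rwa [← precomp_trans, precomp_symm]⟩
  have hm : MeasurableSet (coords '' Y') := by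
    choose W h1 h2 using exists_W (g := g) (K := K)
    have : coords '' Y' = ⋃ φ, ⋃ (_ : IsMod φ), Set.range (coords : (Surf g →* K) → _) ∩
        W φ ⁻¹' connectedComponentIn (Set.range (coords : (Surf g →* K) → _)) (coords ρ₀) := by
      ext z
      simp only [Set.mem_iUnion]
      refine ⟨?_, ?_⟩
      · rintro ⟨ρ, ⟨φ, h3, h4⟩, rfl⟩
        exact ⟨φ, h3, ⟨ρ, rfl⟩, by subst hY; rwa [Set.mem_preimage, h2]⟩
      · rintro ⟨φ, h3, ⟨ρ, rfl⟩, h4⟩
        exact ⟨ρ, ⟨φ, h3, by subst hY; rwa [Set.mem_preimage, h2] at h4⟩, rfl⟩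
    rw [this]
    exact MeasurableSet.iUnion fun φ => MeasurableSet.iUnion fun _ => (closed_range.inter
      ((closed_comp closed_range _).preimage (h1 φ).continuous)).measurableSet
  have hi' : ∀ ψ, IsMod ψ → AE fun ρ : Surf g →* K => ρ ∈ Y' → ∀ u, (∀ j, IsCocycle ρ (u j)) →
      ev α (precomp ψ ρ) (fun j x => u j (ψ x)) = ev α ρ u := fun ψ hψ => by
    refine ae_mono (ae_all fun χ => ae_precomp (ae_all fun φ => ae_imp (hi φ)) χ) ?_
    rintro ρ - H ⟨χ, h1, h2⟩ u hu
    have e1 := H χ χ.symm (isMod_symm h1) h2 _ fun j => coc_comp (hu j) χ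
    have e2 := H χ (ψ.trans χ.symm) (isMod_trans hψ (isMod_symm h1)) h2 _
      fun j => coc_comp (hu j) χ
    rw [← precomp_trans, precomp_symm] at e2
    rw [precomp_symm] at e1
    simp only [MulEquiv.trans_apply, MulEquiv.apply_symm_apply] at e1 e2
    exact e2.trans e1.symm
  obtain ⟨N, m, e, B, f, hB, hf, hev⟩ := main n g hg K hK hK' Y' hm
    (fun ρ h => ⟨hc ρ h, hp ρ h⟩) k α hα hi'
  have hF1 : ∀ i, ∀ ρ ∈ Y', (coords '' Y').indicator (f i) (coords ρ) = f i (coords ρ) :=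
    fun i ρ h => Set.indicator_of_mem (Set.mem_image_of_mem _ h) _
  have hF0 : ∀ i, ∀ ρ ∉ Y', (coords '' Y').indicator (f i) (coords ρ) = 0 :=
    fun i ρ h => Set.indicator_of_notMem (by rwa [coords_inj.mem_set_image]) _
  have key : ∀ i, ∃ c, AE fun ρ : Surf g →* K => ρ ∈ Y → f i (coords ρ) = c := fun i => by
    refine Exists.imp (fun c hc' => ?_) ((amb K).erg hg
      (fun z => (coords '' Y').indicator (f i) (toPt z))
      (((hf i).1.indicator hm).comp toPt.continuous.measurable) (fun x hx c => ?_)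
      (fun φ => ?_) (tup ρ₀))
    · refine ae_mono ((ae_iff fun _ => Iff.rfl).2 hc') fun ρ _ H h => ?_
      rw [← hF1 i ρ ⟨_, isMod_refl, h⟩]
      exact H (mem_comp (by subst hY; exact h))
    · obtain ⟨ρ, rfl⟩ := exists_tup hx.1
      change (coords '' Y').indicator (f i) (coords (conjRep c ρ)) =
        (coords '' Y').indicator (f i) (coords ρ)
      by_cases h : ρ ∈ Y'
      · rw [hF1 i _ h, hF1 i _ (hc ρ h c), (hf i).2.1 ρ (smooth_iff.2 hx)]
      · rw [hF0 i _ h, hF0 i _ fun h' => h ?_]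
        have e : conjRep c⁻¹ (conjRep c ρ) = ρ :=
          MonoidHom.ext fun s => by simp [conjRep, mul_assoc]
        exact e ▸ hc _ h' c⁻¹
    · refine (ae_iff fun _ => Iff.rfl).1 (ae_mono ((hf i).2.2 _ (isMod_bar φ)) fun ρ _ H => ?_)
      rw [← tup_bar]
      change (coords '' Y').indicator (f i) (coords (precomp (bar φ) ρ)) =
        (coords '' Y').indicator (f i) (coords ρ)
      by_cases h : ρ ∈ Y'
      · rw [hF1 i _ h, hF1 i _ (hp ρ h _ (isMod_bar φ)), H h]
      · rw [hF0 i _ h, hF0 i _ fun h' => h ?_]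
        have := hp _ h' _ (isMod_symm (isMod_bar φ))
        rwa [precomp_symm] at this
  choose c hc' using key
  refine ⟨N, m, e, B, c, hB, ae_mono (ae_and hev (ae_all hc')) fun ρ _ H h u hu => ?_⟩
  rw [H.1 ⟨_, isMod_refl, h⟩ u hu]
  exact Finset.sum_congr rfl fun i _ => by rw [H.2 i h]

end Pool.Agent.Lib.MP_d52947_gt
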