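import Pool.Agent.Lib.MP_d52947_gt.An

-- part Pool.Agent.Lib.MP_d52947_gt.Lie3
section

/-! Rank, regular elements, the polynomial projection. -/

namespace Pool.Agent.Lib.MP_d52947_gt

open Filter Topology NormedSpace Module MeasureTheory
open scoped RealInnerProductSpace

namespace Ctx
variable {L : Type} [NormedAddCommGroup L] [InnerProductSpace ℝ L] [FiniteDimensional ℝ L]
  {K : Type} [Group K] [TopologicalSpace K] [IsTopologicalGroup K] [CompactSpace K]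
  [ConnectedSpace K] (C : Ctx L K) {s t : Submodule ℝ L}

theorem rank_le (k : K) : C.rank ≤ finrank ℝ (C.Fix k) := ciInf_le (OrderBot.bddBelow _) k

theorem reg_iff {k : K} : C.Reg k ↔ finrank ℝ (C.Fix k) ≤ C.rank :=
  ⟨fun h => h.le, fun h => le_antisymm h (C.rank_le k)⟩

theorem iInf_ker_inner {V : Type} [AddCommGroup V] [Module ℝ V] (f : V →ₗ[ℝ] L) :
    ⨅ v : L, LinearMap.ker (innerₗ L v ∘ₗ f) = LinearMap.ker f := by
  ext x
  simp only [Submodule.mem_iInf, LinearMap.mem_ker, LinearMap.comp_apply, innerₗ_apply_apply]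
  exact ⟨fun h => inner_self_eq_zero.1 (h _), fun h v => by rw [h, inner_zero_right]⟩

theorem finrank_map_Ad (k : K) (W : Submodule ℝ L) :
    finrank ℝ (W.map (C.Ad k).toLinearMap) = finrank ℝ W :=
  (Submodule.equivMapOfInjective _ (fun a b h => by
    simpa using congrArg (C.Ad k⁻¹) h) W).finrank_eq.symm

theorem generic_ker [MeasurableSpace L] [BorelSpace L] {G V : Type} [Fintype G] [AddCommGroup V]
    [Module ℝ V] [FiniteDimensional ℝ V] (φ : (G → K) → V →ₗ[ℝ] L)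
    (hφ : ∀ v, C.An fun h => φ h v) (h₀ : G → K) :
    C.Generic fun h => finrank ℝ (LinearMap.ker (φ h)) ≤ finrank ℝ (LinearMap.ker (φ h₀)) := by
  refine (C.generic_rank (fun v h => innerₗ L v ∘ₗ φ h)
    (fun n v => (An.const n).inner (hφ v)) h₀).mono fun h H => ?_
  rwa [iInf_ker_inner, iInf_ker_inner] at H

theorem finrank_maxAb (ht : C.IsMaxAb t) : finrank ℝ t = C.rank := by
  refine le_antisymm (le_ciInf fun k => ?_) ?_
  · borelize L
    obtain ⟨ξ, hξ⟩ := (C.generic_ker (G := Unit) (fun h => (1 - C.Ad (h ())).toLinearMap)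
      (fun v => ((An.const _).sub (an_Ad ())).app (An.const v)) fun _ => k).exists
    obtain ⟨c, hc⟩ := C.hunt ht (ξ ())
    refine le_trans ?_ hξ
    rw [← C.finrank_map_Ad c⁻¹]
    refine Submodule.finrank_mono ?_
    rintro _ ⟨y, hy, rfl⟩
    refine C.mem_Fix.2 (C.Ad_ex_fix ?_)
    have := congrArg (C.Ad c⁻¹) (ht.ab _ hc _ hy)
    simpa [C.Ad_ad] using this
  · obtain ⟨ξ, -, h⟩ := C.exists_Fix_eq ht
    rw [← h]; exact C.rank_le _

theorem maxAb_of_rank (hs : C.IsAb s) (h : C.rank ≤ finrank ℝ s) : C.IsMaxAb s := by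
  obtain ⟨t, h1, h2⟩ := C.exists_maxAb_ge hs
  rwa [Submodule.eq_of_le_of_finrank_le h1 ((C.finrank_maxAb h2).trans_le h)]

theorem ex_comm {a : K} {η : L} (h : η ∈ C.Fix a) : a * C.ex η = C.ex η * a := by
  have := C.ex_conj a η
  rw [C.mem_Fix.1 h] at this
  rw [← this, inv_mul_cancel_right, this]

theorem pj_Ad_comm {a c : K} (h : c * a = a * c) (y : L) : C.pj a (C.Ad c y) = C.Ad c (C.pj a y) := by
  rw [← pj_conj, h, mul_inv_cancel_right]

theorem Reg.maxAb {k : K} (hk : C.Reg k) : C.IsMaxAb (C.Fix k) := by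
  refine C.maxAb_of_rank (fun ξ hξ y hy => ?_) hk.ge
  have h1 := (isOpen_ker_le (f := fun r : ℝ => (1 - C.Ad (k * C.ex (r • ξ))) * (1 - C.pj k) + C.pj k)
    (((continuous_const.sub (C.cont_Ad.comp (continuous_const.mul (C.cont_ex.comp
      (by fun_prop))))).mul continuous_const).add continuous_const) 0).mem_nhds (x := 0) (by
    rw [Set.mem_setOf_eq, Nat.le_zero, Submodule.finrank_eq_zero, LinearMap.ker_eq_bot']
    intro z hz
    have h2 : z - C.pj k z - C.Ad k (z - C.pj k z) + C.pj k z = 0 := by simpa [C.ex_zero] using hz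
    have h3 := congrArg (C.pj k) h2
    rw [map_add, pj_sub_Ad, pj_pj, zero_add, map_zero] at h3
    rw [h3, sub_zero, add_zero, sub_eq_zero] at h2
    rw [← C.pj_of_mem (C.mem_Fix.2 h2.symm), h3])
  have h2 : ∀ᶠ r : ℝ in 𝓝 0, C.Ad (C.ex (r • ξ)) y = y := by
    filter_upwards [h1] with r hr
    rw [Nat.le_zero, Submodule.finrank_eq_zero, LinearMap.ker_eq_bot'] at hr
    have hc : k * C.ex (r • ξ) * k = k * (k * C.ex (r • ξ)) := by
      rw [mul_assoc, C.ex_comm (Submodule.smul_mem _ r hξ)]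
    have h3 : C.Fix (k * C.ex (r • ξ)) = C.Fix k :=
      Submodule.eq_of_le_of_finrank_le (fun z hz => by
        have := hr (z - C.pj k z) (by
          simp [-map_mul, pj_pj, ← C.pj_Ad_comm hc, C.mem_Fix.1 hz])
        rw [sub_eq_zero.1 this]; exact C.pj_mem _ _) (hk.le.trans (C.rank_le _))
    have h4 := C.mem_Fix.1 (h3.ge hy)
    rwa [C.ex_comm (Submodule.smul_mem _ r hξ), Ad_mul_apply, C.mem_Fix.1 hy] at h4
  exact (C.hasDerivAt_Ad ξ y).unique ((hasDerivAt_const 0 y).congr_of_eventuallyEq h2)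

theorem exists_pt : ∃ (pt : (L →L[ℝ] L) → (L →L[ℝ] L)) (lam : (L →L[ℝ] L) → ℝ),
    AnalyticOnNhd ℝ pt Set.univ ∧ AnalyticOnNhd ℝ lam Set.univ ∧
      (∀ k, pt (C.Ad k) = lam (C.Ad k) • C.pj k) ∧ ∀ k, C.Reg k ↔ lam (C.Ad k) ≠ 0 := by
  have := FiniteDimensional.complete ℝ L
  let S : (L →L[ℝ] L) → (L →L[ℝ] L) := fun T => ContinuousLinearMap.adjoint (1 - T) * (1 - T)
  let D : (L →L[ℝ] L) →L[ℝ] (L →L[ℝ] L) := LinearMap.toContinuousLinearMap
    { toFun := ContinuousLinearMap.adjoint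
      map_add' := map_add _
      map_smul' := fun c T => by simp }
  have hS : AnalyticOnNhd ℝ S Set.univ := fun T _ =>
    ((D.analyticAt _).comp
      (f := fun T : L →L[ℝ] L => 1 - T) (analyticAt_const.sub analyticAt_id)).mul
      (analyticAt_const.sub analyticAt_id)
  let c : ℕ → (L →L[ℝ] L) → ℝ := fun j T => (S T).toLinearMap.charpoly.coeff j
  have hc : ∀ j, AnalyticOnNhd ℝ (c j) Set.univ := fun j => by
    let b := finBasis ℝ L
    refine (AnalyticOnNhd.aeval_mvPolynomial (𝕜 := ℝ) (s := Set.univ)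
      (f := fun T (p : Fin _ × Fin _) => b.coord p.1 (S T (b p.2))) (fun p T _ =>
      ((b.coord p.1).toContinuousLinearMap.analyticAt _).comp
        (((ContinuousLinearMap.apply ℝ L (b p.2)).analyticAt _).comp (hS T trivial)))
      ((Matrix.charpoly.univ ℝ _).coeff j)).congr isOpen_univ fun T _ => ?_
    simp only [c]
    rw [MvPolynomial.aeval_def, ← MvPolynomial.coe_eval₂Hom, Matrix.charpoly.univ_coeff_eval₂Hom,
      ← LinearMap.charpoly_toMatrix _ b]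
    congr 2
    ext i j
    simp [LinearMap.toMatrix_apply]
  have h1 : ∀ k y, S (C.Ad k) y = 0 ↔ y ∈ C.Fix k := fun k y => by
    refine ⟨fun h => ?_, fun h => by simp [S, C.mem_Fix.1 h]⟩
    have := congrArg (⟪·, y⟫) h
    simp only [S, ContinuousLinearMap.mul_apply, ContinuousLinearMap.adjoint_inner_left,
      inner_zero_left, inner_self_eq_zero] at this
    exact this
  have h2 : ∀ T x y, ⟪S T x, y⟫ = ⟪x, S T y⟫ := fun T x y => by
    simp only [S, ContinuousLinearMap.mul_apply, ContinuousLinearMap.adjoint_inner_left,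
      ContinuousLinearMap.adjoint_inner_right]
  have h3 : ∀ k (m : ℕ) y, (S (C.Ad k) ^ (m + 1)) y = 0 → S (C.Ad k) y = 0 := fun k m => by
    induction m with
    | zero => simp
    | succ m ih =>
      intro y hy
      have := ih (S _ y) (by rwa [pow_succ] at hy)
      rw [← inner_self_eq_zero (𝕜 := ℝ), h2, this, inner_zero_right]
  have h4 : ∀ k, (S (C.Ad k)).toLinearMap.charpoly.natTrailingDegree = finrank ℝ (C.Fix k) :=
    fun k => by
    rw [← LinearMap.finrank_maxGenEigenspace_zero_eq]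
    congr 3
    all_goals
      ext y
      simp only [End.mem_maxGenEigenspace, zero_smul, sub_zero, ← h1]
      refine ⟨fun ⟨m, hm⟩ => h3 k m y ?_, fun h => ⟨1, by simpa using h⟩⟩
      rw [pow_succ', ContinuousLinearMap.mul_apply, show (S (C.Ad k) ^ m) y = 0 by
        simpa [Module.End.pow_apply] using hm,
        map_zero]
  refine ⟨fun T => ∑ j ∈ Finset.range (finrank ℝ L + 1), c (j + C.rank) T • S T ^ j, c C.rank,
    Finset.analyticOnNhd_fun_sum _ fun j _ => (hc _).smul (hS.pow j), hc _, fun k => ?_,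
    fun k => ?_⟩
  · obtain ⟨q, hq⟩ := Polynomial.X_pow_dvd_iff.2 fun d (hd : d < C.rank) =>
      Polynomial.coeff_eq_zero_of_lt_natTrailingDegree (hd.trans_le ((C.rank_le k).trans (h4 k).ge))
    have h5 : ∀ j, c (j + C.rank) (C.Ad k) = q.coeff j := fun j => by
      simp only [c, hq, Polynomial.coeff_X_pow_mul]
    have h6 : q.natDegree < finrank ℝ L + 1 := by
      have := (S (C.Ad k)).toLinearMap.charpoly_natDegree
      have h0 := (S (C.Ad k)).toLinearMap.charpoly_monic.ne_zero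
      rw [hq] at this h0
      rw [Polynomial.natDegree_mul (left_ne_zero_of_mul h0) (right_ne_zero_of_mul h0)] at this
      omega
    simp only [h5, ← Polynomial.aeval_eq_sum_range' h6]
    have h7 : Polynomial.aeval (S (C.Ad k)) (S (C.Ad k)).toLinearMap.charpoly = 0 := by
      have := Polynomial.aeval_algHom_apply (⟨ContinuousLinearMap.toLinearMapRingHom, fun _ => rfl⟩ :
        (L →L[ℝ] L) →ₐ[ℝ] (L →ₗ[ℝ] L)) (S (C.Ad k)) (S (C.Ad k)).toLinearMap.charpoly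
      exact ContinuousLinearMap.coe_injective (this.symm.trans (LinearMap.aeval_self_charpoly _))
    rw [hq, map_mul, map_pow, Polynomial.aeval_X] at h7
    have h8 : ∀ y, Polynomial.aeval (S (C.Ad k)) q y ∈ C.Fix k := fun y => (h1 k _).1 (h3 k C.rank _ (by
      rw [pow_succ', ContinuousLinearMap.mul_apply, ← ContinuousLinearMap.mul_apply (_ ^ _), h7]
      simp))
    have h9 : ∀ y ∈ C.Fix k, Polynomial.aeval (S (C.Ad k)) q y = q.coeff 0 • y := fun y hy => by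
      conv_lhs => rw [← q.divX_mul_X_add]
      simp [(h1 k y).2 hy]
    have h10 : ∀ x y, ⟪Polynomial.aeval (S (C.Ad k)) q x, y⟫ =
        ⟪x, Polynomial.aeval (S (C.Ad k)) q y⟫ := by
      clear * - h2
      induction q using Polynomial.induction_on with
      | C a => simp [real_inner_smul_left, real_inner_smul_right]
      | add p q hp hq => simp [inner_add_left, inner_add_right, hp, hq]
      | monomial n a h =>
        intro x y
        rw [pow_succ, ← mul_assoc, map_mul, Polynomial.aeval_X, ContinuousLinearMap.mul_apply, h, h2,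
          ← ContinuousLinearMap.mul_apply]
        congr 2
        have := congrArg (Polynomial.aeval (S (C.Ad k))) (mul_comm Polynomial.X
            (Polynomial.C a * Polynomial.X ^ n))
        rwa [map_mul, map_mul _ (_ * _), Polynomial.aeval_X] at this
    ext y
    refine ext_inner_right ℝ fun z => ?_
    rw [← C.pj_of_mem (h8 y), inner_pj, h10, h9 _ (C.pj_mem k z), ← h5 0, zero_add]
    simp [real_inner_smul_left, real_inner_smul_right, inner_pj]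
  · rw [reg_iff, ← h4]
    refine ⟨fun h => ?_, Polynomial.natTrailingDegree_le_of_ne_zero⟩
    rw [← le_antisymm h ((C.rank_le k).trans (h4 k).ge)]
    exact mt Polynomial.trailingCoeff_eq_zero.1 (S (C.Ad k)).toLinearMap.charpoly_monic.ne_zero

end Ctx

end Pool.Agent.Lib.MP_d52947_gt
end

-- part Pool.Agent.Lib.MP_d52947_gt.Cox
section

/-! Simple roots and a regular lift of a Coxeter element. -/

namespace Pool.Agent.Lib.MP_d52947_gt

open Filter Topology Module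
open scoped RealInnerProductSpace

theorem exists_simple {L : Type} [NormedAddCommGroup L] [InnerProductSpace ℝ L] {Φ : Set L}
    (hΦ : Φ.Finite) (hneg : ∀ α ∈ Φ, -α ∈ Φ)
    (hrefl : ∀ α ∈ Φ, ∀ β ∈ Φ, β - (2 * ⟪α, β⟫ / ⟪α, α⟫) • α ∈ Φ)
    (hred : ∀ α ∈ Φ, ∀ c : ℝ, c • α ∈ Φ → c = 1 ∨ c = -1) {ξ : L} (hξ : ∀ α ∈ Φ, ⟪α, ξ⟫ ≠ 0) :
    ∃ S : Finset L, (∀ α ∈ S, α ∈ Φ ∧ 0 < ⟪α, ξ⟫) ∧ LinearIndependent ℝ (fun α : S => α.1) ∧
      (∀ β ∈ Φ, β ∈ Submodule.span ℝ (S : Set L)) ∧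
      ∀ α ∈ S, ∀ β ∈ Φ, 0 < ⟪β, ξ⟫ → β ≠ α → 0 < ⟪β - (2 * ⟪α, β⟫ / ⟪α, α⟫) • α, ξ⟫ := by
  classical
  obtain ⟨S, ⟨h1, h2⟩, h3⟩ := exists_minimal_of_wellFoundedLT (fun S : Finset L =>
    (∀ α ∈ S, α ∈ Φ ∧ 0 < ⟪α, ξ⟫) ∧ ∀ β ∈ Φ, 0 < ⟪β, ξ⟫ →
      ∃ c : L → ℝ, (∀ γ, 0 ≤ c γ) ∧ β = ∑ γ ∈ S, c γ • γ)
    ⟨hΦ.toFinset.filter (0 < ⟪·, ξ⟫), by simp, fun β h h' => ⟨Pi.single β 1,
      fun γ => by simp [Pi.single_apply]; positivity, by simp [Pi.single_apply, h, h']⟩⟩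
  have key : ∀ α ∈ S, ∀ (a : ℝ) (c : L → ℝ), (∀ γ, 0 ≤ c γ) → a • α = ∑ γ ∈ S.erase α, c γ • γ →
      ∀ γ ∈ S.erase α, c γ = 0 := fun α hα a c hc h => by
    have h4 : a ≤ 0 := by
      by_contra! ha
      refine (h3 (y := S.erase α) ⟨fun γ hγ => h1 γ (Finset.mem_of_mem_erase hγ), fun β h5 h6 => ?_⟩
        (Finset.erase_subset _ _)).not_gt (Finset.erase_ssubset hα)
      obtain ⟨d, h7, h8⟩ := h2 β h5 h6
      refine ⟨fun γ => d γ + d α / a * c γ, fun γ => by have := h7 γ; have := h7 α; have := hc γ; positivity, ?_⟩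
      simp only [add_smul, Finset.sum_add_distrib, mul_smul, ← Finset.smul_sum, ← h]
      rw [smul_smul, div_mul_cancel₀ _ ha.ne', Finset.sum_erase_add _ _ hα, h8]
    have h5 := congrArg (⟪·, ξ⟫) h
    simp only [real_inner_smul_left, sum_inner] at h5
    have h6 := fun γ (hγ : γ ∈ S.erase α) => mul_nonneg (hc γ) (h1 γ (Finset.mem_of_mem_erase hγ)).2.le
    intro γ hγ
    exact (mul_eq_zero.1 ((Finset.sum_eq_zero_iff_of_nonneg h6).1 (le_antisymm
      (h5 ▸ mul_nonpos_of_nonpos_of_nonneg h4 (h1 α hα).2.le) (Finset.sum_nonneg h6)) γ hγ)).resolve_right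
      (h1 γ (Finset.mem_of_mem_erase hγ)).2.ne'
  have hneg' : ∀ β ∈ Φ, ¬ 0 < ⟪β, ξ⟫ → 0 < ⟪-β, ξ⟫ := fun β h h' => by
    rw [inner_neg_left]; exact neg_pos.2 (lt_of_le_of_ne (not_lt.1 h') (hξ β h))
  have h4 : ∀ α ∈ S, ∀ β ∈ Φ, 0 < ⟪β, ξ⟫ → β ≠ α →
      0 < ⟪β - (2 * ⟪α, β⟫ / ⟪α, α⟫) • α, ξ⟫ := fun α hα β hβ h5 h6 => by
    by_contra h7
    have h8 := hrefl α (h1 α hα).1 β hβ
    obtain ⟨c, hc, e⟩ := h2 β hβ h5
    obtain ⟨d, hd, e'⟩ := h2 _ (hneg _ h8) (hneg' _ h8 h7)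
    have h9 := key α hα (2 * ⟪α, β⟫ / ⟪α, α⟫ - c α - d α) (c + d) (fun γ => add_nonneg (hc γ) (hd γ))
      (by
        rw [← Finset.add_sum_erase _ _ hα] at e e'
        simp only [Pi.add_apply, add_smul, Finset.sum_add_distrib]
        linear_combination (norm := module) e + e')
    rw [← Finset.add_sum_erase _ _ hα, Finset.sum_eq_zero fun γ hγ => by
      rw [show c γ = 0 by linarith [h9 γ hγ, hc γ, hd γ, Pi.add_apply c d γ], zero_smul], add_zero] at e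
    rcases hred α (h1 α hα).1 _ (e ▸ hβ) with h | h
    · exact h6 (by rw [e, h, one_smul])
    · linarith [hc α]
  refine ⟨S, h1, LinearMap.BilinForm.linearIndependent_of_pairwise_le_zero (innerₗ L)
    (fun x hx => real_inner_self_pos.2 hx) (innerₗ L ξ) _
    (fun α => by simpa [real_inner_comm] using (h1 α α.2).2) ?_, fun β hβ => ?_, h4⟩
  · rintro ⟨α, hα⟩ ⟨β, hβ⟩ hne
    have hne' : β ≠ α := fun e => hne (Subtype.ext e.symm)
    by_contra! h
    obtain ⟨c, hc, e⟩ := h2 _ (hrefl α (h1 α hα).1 β (h1 β hβ).1)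
      (h4 α hα β (h1 β hβ).1 (h1 β hβ).2 hne')
    have hk : 0 < 2 * ⟪α, β⟫ / ⟪α, α⟫ := div_pos (mul_pos two_pos h) (real_inner_self_pos.2 (by
      rintro rfl; simpa using (h1 0 hα).2))
    have hm := Finset.mem_erase.2 ⟨hne'.symm, hα⟩
    have := key β hβ (1 - c β) (c + Pi.single α (2 * ⟪α, β⟫ / ⟪α, α⟫)) (fun γ => add_nonneg (hc γ)
      (by simp only [Pi.single_apply]; split_ifs <;> positivity)) (by
        rw [← Finset.add_sum_erase _ _ hβ] at e
        simp only [Pi.add_apply, add_smul, Finset.sum_add_distrib, Pi.single_apply, ite_smul,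
          zero_smul, Finset.sum_ite_eq', if_pos hm]
        linear_combination (norm := module) e) α hm
    simp only [Pi.add_apply, Pi.single_eq_same] at this
    linarith [hc α]
  · have : ∀ β ∈ Φ, 0 < ⟪β, ξ⟫ → β ∈ Submodule.span ℝ (S : Set L) := fun β h h' => by
      obtain ⟨c, -, e⟩ := h2 β h h'
      rw [e]
      exact Submodule.sum_mem _ fun γ hγ => Submodule.smul_mem _ _ (Submodule.subset_span hγ)
    by_cases h : 0 < ⟪β, ξ⟫
    · exact this β hβ h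
    · simpa using Submodule.neg_mem _ (this _ (hneg β hβ) (hneg' β hβ h))

namespace Ctx
variable {L : Type} [NormedAddCommGroup L] [InnerProductSpace ℝ L] [FiniteDimensional ℝ L]
  {K : Type} [Group K] [TopologicalSpace K] [IsTopologicalGroup K] [CompactSpace K]
  [ConnectedSpace K] (C : Ctx L K) {s t : Submodule ℝ L}

theorem norm_inv {k : K} (h : ∀ ξ ∈ s, C.Ad k ξ ∈ s) : ∀ ξ ∈ s, C.Ad k⁻¹ ξ ∈ s := fun ξ hξ => by
  have : s.map (C.Ad k).toLinearMap = s := Submodule.eq_of_le_of_finrank_le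
    (Submodule.map_le_iff_le_comap.2 h) (C.finrank_map_Ad k s).ge
  obtain ⟨y, hy, rfl⟩ := this.ge hξ
  simpa using hy

theorem norm_pow {k : K} (h : ∀ ξ ∈ s, C.Ad k ξ ∈ s) (m : ℕ) : ∀ ξ ∈ s, C.Ad (k ^ m) ξ ∈ s := by
  induction m with
  | zero => simp
  | succ m ih => intro ξ hξ; rw [pow_succ, Ad_mul_apply]; exact ih _ (h ξ hξ)

theorem WP.conj {C : Ctx L K} {α X Y : L} (h : C.WP s α X Y) {k : K} (hk : ∀ ξ ∈ s, C.Ad k ξ ∈ s) :
    C.WP s (C.Ad k α) (C.Ad k X) (C.Ad k Y) := ⟨hk _ h.1, fun ξ hξ => by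
  have := h.2 _ (C.norm_inv hk ξ hξ)
  rw [← C.Ad_Ad_inv k ξ, ← C.Ad_ad, ← C.Ad_ad, this.1, this.2, C.inner_Ad]
  simp⟩

theorem Ad_ne_zero {k : K} {X : L} (h : X ≠ 0) : C.Ad k X ≠ 0 := fun e =>
  h (by simpa using congrArg (C.Ad k⁻¹) e)

theorem Wt_conj {α : L} (h : α ∈ C.Wt s) {k : K} (hk : ∀ ξ ∈ s, C.Ad k ξ ∈ s) :
    C.Ad k α ∈ C.Wt s :=
  let ⟨h0, _, _, h1, h2⟩ := h; ⟨C.Ad_ne_zero h0, _, _, C.Ad_ne_zero h1, h2.conj hk⟩

theorem exists_refl (ht : C.IsMaxAb t) {α : L} (h : α ∈ C.Wt t) : ∃ k, (∀ ξ ∈ t, C.Ad k ξ ∈ t) ∧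
    ∀ ξ ∈ t, C.Ad k ξ = ξ - (2 * ⟪α, ξ⟫ / ⟪α, α⟫) • α := by
  obtain ⟨h0, X, Y, h1, h2⟩ := h
  obtain ⟨r, hr⟩ := C.refl_lift h2 h0 h1 (h2.ad_mem ht)
  exact ⟨_, fun ξ hξ => by rw [hr ξ hξ]; exact t.sub_mem hξ (t.smul_mem _ h2.1), hr⟩

theorem Wt_refl (ht : C.IsMaxAb t) {α β : L} (h : α ∈ C.Wt t) (h' : β ∈ C.Wt t) :
    β - (2 * ⟪α, β⟫ / ⟪α, α⟫) • α ∈ C.Wt t := by
  obtain ⟨k, h1, h2⟩ := C.exists_refl ht h
  rw [← h2 β (C.Wt_mem h')]; exact C.Wt_conj h' h1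

theorem exists_cox (ht : C.IsMaxAb t) : ∃ (n : K) (Θ : Finset L), (∀ ξ ∈ t, C.Ad n ξ ∈ t) ∧
    (∀ ξ ∈ t, C.Ad n ξ = ξ → ξ ∈ C.Z) ∧ Θ.card + finrank ℝ C.Z ≤ C.rank ∧
    (∀ β ∈ Θ, β ∈ C.Wt t) ∧ ∀ β ∈ C.Wt t, ∃ m : ℕ, C.Ad (n ^ m) β ∈ Θ := by
  classical
  obtain ⟨ξ₀, -, h0⟩ := C.exists_reg' ht.ab
  obtain ⟨S, h1, h2, h3, h4⟩ := exists_simple (C.Wt_finite ht.ab) (fun _ => C.Wt_neg)
    (fun _ h _ h' => C.Wt_refl ht h h') (fun _ h _ => C.reduced ht h) h0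
  have key : ∀ T : Finset L, T ⊆ S → ∃ (n : K) (Θ : Finset L), (∀ ξ ∈ t, C.Ad n ξ ∈ t) ∧
      (∀ ξ ∈ t, ξ - C.Ad n ξ ∈ Submodule.span ℝ (T : Set L) ∧
        (C.Ad n ξ = ξ → ∀ α ∈ T, ⟪α, ξ⟫ = 0)) ∧ Θ.card ≤ T.card ∧ (∀ β ∈ Θ, β ∈ C.Wt t) ∧
      ∀ β ∈ C.Wt t, 0 < ⟪β, ξ₀⟫ → β ∉ Θ → 0 < ⟪C.Ad n β, ξ₀⟫ := by
    intro T
    induction T using Finset.induction_on with
    | empty => exact fun _ => ⟨1, ∅, by simp, by simp, by simp, by simp, by simp⟩
    | insert α T hα ih =>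
      intro hT
      have hαS := hT (Finset.mem_insert_self _ _)
      obtain ⟨n, Θ, a1, a2, a3, a4, a5⟩ := ih ((Finset.subset_insert _ _).trans hT)
      obtain ⟨k, b1, b2⟩ := C.exists_refl ht (h1 α hαS).1
      refine ⟨k * n, insert (C.Ad n⁻¹ α) Θ, fun ξ hξ => ?_, fun ξ hξ => ⟨?_, fun e => ?_⟩,
        (Finset.card_insert_le _ _).trans (by rw [Finset.card_insert_of_notMem hα]; omega),
        by simpa using ⟨C.Wt_conj (h1 α hαS).1 (C.norm_inv a1), a4⟩, fun β c1 c2 c3 => ?_⟩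
      · rw [Ad_mul_apply]; exact b1 _ (a1 ξ hξ)
      · rw [Ad_mul_apply, b2 _ (a1 ξ hξ), ← sub_add]
        exact Submodule.add_mem _ (Submodule.span_mono (by simp) (a2 ξ hξ).1)
          (Submodule.smul_mem _ _ (Submodule.subset_span (by simp)))
      · rw [Ad_mul_apply, b2 _ (a1 ξ hξ)] at e
        have h5 : 2 * ⟪α, C.Ad n ξ⟫ / ⟪α, α⟫ = 0 := by
          by_contra h
          refine h2.linearIndepOn_id.notMem_span (i := α) (by simpa using hαS) ?_
          have := Submodule.smul_mem _ (-(2 * ⟪α, C.Ad n ξ⟫ / ⟪α, α⟫)⁻¹) (a2 ξ hξ).1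
          nth_rewrite 2 [← e] at this
          rw [sub_sub_cancel_left, neg_smul_neg, inv_smul_smul₀ h] at this
          refine Submodule.span_mono ?_ this
          rintro x hx
          exact ⟨x, ⟨by simpa using hT (Finset.mem_insert_of_mem hx), fun e => hα (e ▸ hx)⟩, rfl⟩
        rw [h5, zero_smul, sub_zero] at e
        rw [e] at h5
        simpa [(h1 α hαS).1.1] using ⟨by simpa [(h1 α hαS).1.1] using h5, (a2 ξ hξ).2 e⟩
      · rw [Finset.mem_insert, not_or] at c3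
        rw [Ad_mul_apply, b2 _ (a1 _ (C.Wt_mem c1))]
        exact h4 α hαS _ (C.Wt_conj c1 a1) (a5 β c1 c2 c3.2) fun e => c3.1 (by simp [← e])
  obtain ⟨n, Θ, a1, a2, a3, a4, a5⟩ := key S le_rfl
  have hZ : ∀ ξ ∈ t, C.Ad n ξ = ξ → ξ ∈ C.Z := fun ξ hξ e => C.mem_Z_of_Wt ht.ab hξ fun β hβ =>
    Submodule.span_le (p := LinearMap.ker (innerₗ L ξ)).2 (fun α hα => by
      simpa [real_inner_comm] using (a2 ξ hξ).2 e α hα) (h3 β hβ) |> (real_inner_comm _ _).trans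
  refine ⟨n, Θ, a1, hZ, ?_, a4, fun β hβ => ?_⟩
  · have h5 : Submodule.span ℝ (S : Set L) ≤ C.Zᗮ := Submodule.span_le.2 fun α hα z hz => by
      rw [real_inner_comm]; exact C.Wt_perp_Z (h1 α hα).1 hz (ht.Z_le hz)
    have h6 := Submodule.finrank_sup_add_finrank_inf_eq (Submodule.span ℝ (S : Set L)) C.Z
    rw [((Submodule.orthogonal_disjoint C.Z).mono_right h5).symm.eq_bot, finrank_bot,
      finrank_span_finset_eq_card h2] at h6
    have h7 := Submodule.finrank_mono (sup_le (Submodule.span_le.2 fun α (hα : α ∈ S) =>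
      C.Wt_mem (h1 α hα).1) ht.Z_le)
    rw [C.finrank_maxAb ht] at h7
    omega
  by_contra! h
  have hm : ∀ m, C.Ad (n ^ m) β ∈ C.Wt t := fun m => C.Wt_conj hβ (C.norm_pow a1 m)
  obtain ⟨p, hp, hp'⟩ : ∃ p, 0 < p ∧ C.Ad (n ^ p) β = β := by
    obtain ⟨a, b, hab, e⟩ := Set.Finite.exists_lt_map_eq_of_forall_mem hm (C.Wt_finite ht.ab)
    refine ⟨b - a, by omega, ?_⟩
    have := congrArg (C.Ad (n ^ a)⁻¹) e
    rw [Ad_inv_Ad, ← Ad_mul_apply, show b = a + (b - a) by omega, pow_add, inv_mul_cancel_left] at this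
    exact this.symm
  have h5 : ∑ m ∈ Finset.range p, C.Ad (n ^ m) β = 0 := by
    have h6 := hZ _ (t.sum_mem fun m (_ : m ∈ Finset.range p) => C.Wt_mem (hm m)) (by
      simp only [map_sum, ← Ad_mul_apply, ← pow_succ']
      have := Finset.sum_range_succ' (fun m => C.Ad (n ^ m) β) p
      rw [Finset.sum_range_succ, hp', pow_zero, Ad_one_apply] at this
      exact (add_right_cancel this).symm)
    rw [← inner_self_eq_zero (𝕜 := ℝ), sum_inner]
    exact Finset.sum_eq_zero fun m _ => C.Wt_perp_Z (hm m) h6 (ht.Z_le h6)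
  have h6 := congrArg (⟪·, ξ₀⟫) h5
  simp only [sum_inner, inner_zero_left] at h6
  have hne : (Finset.range p).Nonempty := ⟨0, by simpa using hp⟩
  by_cases h7 : ∃ m, 0 < ⟪C.Ad (n ^ m) β, ξ₀⟫
  · obtain ⟨m₀, h7⟩ := h7
    have h8 : ∀ m, 0 < ⟪C.Ad (n ^ (m₀ + m)) β, ξ₀⟫ := fun m => by
      induction m with
      | zero => exact h7
      | succ m ih => rw [← add_assoc, pow_succ', Ad_mul_apply]; exact a5 _ (hm _) ih (h _)
    have h9 : ∀ j, C.Ad (n ^ (p * j)) β = β := fun j => by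
      induction j with
      | zero => simp
      | succ j ih => rw [mul_add, mul_one, pow_add, Ad_mul_apply, hp', ih]
    refine (Finset.sum_pos (fun m _ => ?_) hne).ne' h6
    have := h8 (m + (p * m₀ - m₀))
    rwa [show m₀ + (m + (p * m₀ - m₀)) = m + p * m₀ by have := Nat.le_mul_of_pos_left m₀ hp; omega,
      pow_add, Ad_mul_apply, h9] at this
  · push Not at h7
    exact (Finset.sum_neg (fun m _ => lt_of_le_of_ne (h7 m) (h0 _ (hm m))) hne).ne h6

/-- Kostant's lift of a Coxeter element -/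
theorem coxeter (ht : C.IsMaxAb t) :
    ∃ n : K, C.Reg n ∧ (∀ ξ ∈ t, C.Ad n ξ ∈ t) ∧ (∀ ξ ∈ t, C.Ad n ξ = ξ → ξ ∈ C.Z) ∧
      ∀ α X Y, α ≠ 0 → X ≠ 0 → C.WP t α X Y → ∃ z ∈ C.Fix n, ⟪z, X⟫ ≠ 0 ∨ ⟪z, Y⟫ ≠ 0 := by
  obtain ⟨n, Θ, h1, h2, h3, h4, h5⟩ := C.exists_cox ht
  choose X Y hX hW using fun β : Θ => (h4 β β.2).2
  let F := C.Fix n ⊓ C.Zᗮ
  let Van : L → L → L → Prop := fun z z' β => ∀ X Y, C.WP t β X Y →
    ⟪z, X⟫ + ⟪z', Y⟫ = 0 ∧ ⟪z', X⟫ - ⟪z, Y⟫ = 0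
  have v1 : ∀ z z' β X Y, β ≠ 0 → X ≠ 0 → C.WP t β X Y → ⟪z, X⟫ + ⟪z', Y⟫ = 0 →
      ⟪z', X⟫ - ⟪z, Y⟫ = 0 → Van z z' β := fun z z' β X Y a b c d e X' Y' H => by
    obtain ⟨p, q, rfl, rfl⟩ := C.mult_one ht a b c H
    simp only [inner_sub_right, inner_add_right, real_inner_smul_right]
    exact ⟨by linear_combination p * d + q * e, by linear_combination p * e - q * d⟩
  have v2 : ∀ k, (∀ ξ ∈ t, C.Ad k ξ ∈ t) → ∀ z ∈ C.Fix k, ∀ z' ∈ C.Fix k, ∀ β,
      Van z z' (C.Ad k β) → Van z z' β := fun k hk z hz z' hz' β H X Y h => by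
    have := H _ _ (h.conj hk)
    rw [← C.mem_Fix.1 hz, ← C.mem_Fix.1 hz'] at this
    simpa only [C.inner_Ad] using this
  have hp : ∀ m : ℕ, ∀ z ∈ C.Fix n, z ∈ C.Fix (n ^ m) := fun m z hz => by
    induction m with
    | zero => simp [mem_Fix]
    | succ m ih => rw [mem_Fix, pow_succ, Ad_mul_apply, C.mem_Fix.1 hz, C.mem_Fix.1 ih]
  let Ψ : (F × F) →ₗ[ℝ] (Θ → ℝ × ℝ) := LinearMap.pi fun β => LinearMap.prod
    ((innerₗ L (X β) ∘ₗ F.subtype).coprod (innerₗ L (Y β) ∘ₗ F.subtype))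
    ((-innerₗ L (Y β) ∘ₗ F.subtype).coprod (innerₗ L (X β) ∘ₗ F.subtype))
  have hΨ : ∀ p β, Ψ p β = (⟪p.1.1, X β⟫ + ⟪p.2.1, Y β⟫, ⟪p.2.1, X β⟫ - ⟪p.1.1, Y β⟫) := fun p β => by
    simp [Ψ, real_inner_comm, sub_eq_neg_add]
  have hF : ∀ z ∈ F, z ∈ tᗮ := fun z hz => by
    have h6 := h2 _ (t.starProjection_apply_mem z) (by
      rw [← proj_comm _ h1 fun y hy x hx => by
        rw [inner_Ad_right]; exact hy _ (C.norm_inv h1 x hx), C.mem_Fix.1 hz.1])
    rw [← Submodule.starProjection_apply_eq_zero_iff, ← inner_self_eq_zero (𝕜 := ℝ),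
      Submodule.inner_starProjection_left_eq_right,
      Submodule.starProjection_eq_self_iff.2 (t.starProjection_apply_mem z), real_inner_comm]
    exact hz.2 _ h6
  have hinj : Function.Injective Ψ := (injective_iff_map_eq_zero _).2 fun p hp0 => by
    have h6 : ∀ β ∈ C.Wt t, Van p.1 p.2 β := fun β hβ => by
      obtain ⟨m, hm⟩ := h5 β hβ
      have := (hΨ p ⟨_, hm⟩).symm.trans (congrFun hp0 _)
      exact v2 _ (C.norm_pow h1 m) _ (hp m _ p.1.2.1) _ (hp m _ p.2.2.1) _ (v1 _ _ _ _ _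
        (h4 _ hm).1 (hX _) (hW ⟨_, hm⟩) (congrArg Prod.fst this) (congrArg Prod.snd this))
    have h7 : ∀ x, ⟪p.1.1, x⟫ = 0 ∧ ⟪p.2.1, x⟫ = 0 := C.WP_top ht.ab
      (LinearMap.ker (innerₗ L p.1.1) ⊓ LinearMap.ker (innerₗ L p.2.1)) fun α X Y H => by
        change ⟪p.1.1, X⟫ = 0 ∧ ⟪p.2.1, X⟫ = 0
        by_cases hα : α = 0
        · have := (hα ▸ H).zero_mem ht
          exact ⟨Submodule.inner_left_of_mem_orthogonal this (hF _ p.1.2),
            Submodule.inner_left_of_mem_orthogonal this (hF _ p.2.2)⟩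
        by_cases hX : X = 0
        · simp [hX]
        have a := h6 α ⟨hα, X, Y, hX, H⟩ X Y H
        have b := h6 _ (C.Wt_neg ⟨hα, X, Y, hX, H⟩) X _ H.neg
        rw [inner_neg_right, inner_neg_right] at b
        constructor <;> linarith [a.1, a.2, b.1, b.2]
    exact Prod.ext (Subtype.ext (inner_self_eq_zero.1 (h7 _).1))
      (Subtype.ext (inner_self_eq_zero.1 (h7 _).2))
  have h6 := LinearMap.finrank_le_finrank_of_injective hinj
  have h7 := Submodule.finrank_add_inf_finrank_orthogonal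
    (show C.Z ≤ C.Fix n from fun z hz => C.mem_Fix.2 ((C.mem_Z_iff z).1 hz n))
  have h8 := C.rank_le n
  have h9 : finrank ℝ (Θ → ℝ × ℝ) = Θ.card * 2 := by simp [finrank_pi_fintype]
  rw [inf_comm] at h7
  rw [finrank_prod] at h6
  refine ⟨n, C.reg_iff.2 (by simp only [F] at h6; omega), h1, h2, fun α X' Y' a b c => ?_⟩
  by_contra! H
  obtain ⟨m, hm⟩ := h5 α ⟨a, X', Y', b, c⟩
  obtain ⟨p, hp1⟩ := (LinearMap.injective_iff_surjective_of_finrank_eq_finrank (by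
    rw [finrank_prod]; simp only [F] at h6 ⊢; omega)).1 hinj fun _ => (1, 0)
  have := (v2 _ (C.norm_inv (C.norm_pow h1 m)) _ (C.Fix_inv _ ▸ hp m _ p.1.2.1) _
    (C.Fix_inv _ ▸ hp m _ p.2.2.1) _ (by
      rw [Ad_inv_Ad]
      exact v1 _ _ _ _ _ a b c (by simp [H _ p.1.2.1, H _ p.2.2.1])
        (by simp [H _ p.1.2.1, H _ p.2.2.1])) _ _ (hW ⟨_, hm⟩)).1
  exact one_ne_zero ((congrArg Prod.fst ((congrFun hp1 _).symm.trans (hΨ p ⟨_, hm⟩))).trans this)

end Ctx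

end Pool.Agent.Lib.MP_d52947_gt
end

-- part Pool.Agent.Lib.MP_d52947_gt.GenA
section

/-! Generic pairs and triples, first part. -/

namespace Pool.Agent.Lib.MP_d52947_gt

open Filter Topology Module
open scoped RealInnerProductSpace

namespace Ctx
variable {L : Type} [NormedAddCommGroup L] [InnerProductSpace ℝ L] [FiniteDimensional ℝ L]
  {K : Type} [Group K] [TopologicalSpace K] [IsTopologicalGroup K] [CompactSpace K]
  [ConnectedSpace K] (C : Ctx L K) {s t : Submodule ℝ L}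

/-- polynomial projection -/
noncomputable def pw (k : K) : L →L[ℝ] L := C.exists_pt.choose (C.Ad k)

/-- its scalar factor -/
noncomputable def lw (k : K) : ℝ := C.exists_pt.choose_spec.choose (C.Ad k)

theorem pw_eq (k : K) : C.pw k = C.lw k • C.pj k := C.exists_pt.choose_spec.choose_spec.2.2.1 k

theorem reg_iff_lw {k : K} : C.Reg k ↔ C.lw k ≠ 0 := C.exists_pt.choose_spec.choose_spec.2.2.2 k

theorem an_pw {G : Type} [Fintype G] {f : (G → K) → K} (h : C.An fun x => C.Ad (f x)) :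
    C.An fun x => C.pw (f x) := h.comp C.exists_pt.choose_spec.choose_spec.1

theorem an_lw {G : Type} [Fintype G] {f : (G → K) → K} (h : C.An fun x => C.Ad (f x)) :
    C.An fun x => C.lw (f x) := h.comp C.exists_pt.choose_spec.choose_spec.2.1

theorem pw_zero {k : K} {x : L} (h : x ∈ (C.Fix k)ᗮ) : C.pw k x = 0 := by
  simp [pw_eq, C.pj_eq_zero_iff.2 h]

theorem Reg.pw_zero {C : Ctx L K} {k : K} (hk : C.Reg k) {x : L} (h : C.pw k x = 0) :
    x ∈ (C.Fix k)ᗮ := by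
  simpa [pw_eq, C.reg_iff_lw.1 hk, pj_eq_zero_iff] using h

theorem Fix_conj (c k : K) : C.Fix (c * k * c⁻¹) = (C.Fix k).map (C.Ad c).toLinearMap := by
  ext y
  refine ⟨fun h => ⟨C.Ad c⁻¹ y, (C.Ad_mem_Fix_conj (c := c)).1 (by simpa using h), by simp⟩, ?_⟩
  rintro ⟨y, hy, rfl⟩
  exact C.Ad_mem_Fix_conj.2 hy

theorem Reg.conj {C : Ctx L K} {k : K} (hk : C.Reg k) (c : K) : C.Reg (c * k * c⁻¹) := by
  rw [Reg, Fix_conj, finrank_map_Ad]; exact hk

theorem Z_le_Fix (k : K) : C.Z ≤ C.Fix k := fun z hz => C.mem_Fix.2 ((C.mem_Z_iff z).1 hz k)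

theorem exists_reg_Fix (ht : C.IsMaxAb t) : ∃ a, C.Reg a ∧ C.Fix a = t := by
  obtain ⟨ξ, -, h⟩ := C.exists_Fix_eq ht
  exact ⟨_, by rw [Reg, h, C.finrank_maxAb ht], h⟩

theorem mem_of_perp_roots (ht : C.IsMaxAb t) {x : L}
    (h : ∀ α X Y, α ≠ 0 → C.WP t α X Y → ⟪x, X⟫ = 0) : x ∈ t := (ht x).2 fun ξ hξ => by
  rw [ad_swap, neg_eq_zero, ← inner_self_eq_zero (𝕜 := ℝ)]
  refine C.WP_top ht.ab (LinearMap.ker (innerₗ L (C.ad ξ x))) (fun α X Y H => ?_) _
  change ⟪C.ad ξ x, X⟫ = 0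
  rw [C.inner_ad, (H.2 ξ hξ).1, ← smul_neg, real_inner_smul_right]
  by_cases hα : α = 0
  · simp [hα]
  · simp [h α _ _ hα H.rot]

theorem exists_pair (ht : C.IsMaxAb t) {α X Y x : L} (hα : α ≠ 0) (hX : X ≠ 0) (H : C.WP t α X Y)
    (h : ∀ β X' Y', β ≠ α → β ≠ -α → C.WP t β X' Y' → ⟪x, X'⟫ = 0) : ∃ y, C.WP t α x y := by
  have hc := real_inner_self_pos.2 hX
  have H' := (H.smul (⟪x, X⟫ / ⟪X, X⟫)).add (H.rot.smul (-(⟪x, Y⟫ / ⟪X, X⟫)))
  suffices e : (⟪x, X⟫ / ⟪X, X⟫) • X + -(⟪x, Y⟫ / ⟪X, X⟫) • -Y = x from ⟨_, e ▸ H'⟩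
  rw [eq_comm, ← sub_eq_zero, ← inner_self_eq_zero (𝕜 := ℝ)]
  set z := x - ((⟪x, X⟫ / ⟪X, X⟫) • X + -(⟪x, Y⟫ / ⟪X, X⟫) • -Y) with hz
  have h1 : ⟪z, X⟫ = 0 := by
    simp only [hz, inner_sub_left, inner_add_left, real_inner_smul_left, inner_neg_left,
      real_inner_comm X Y, H.perp hα]
    field_simp; ring
  have h2 : ⟪z, Y⟫ = 0 := by
    simp only [hz, inner_sub_left, inner_add_left, real_inner_smul_left, inner_neg_left,
      H.perp hα, ← H.same H hα]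
    field_simp; ring
  refine C.WP_top ht.ab (LinearMap.ker (innerₗ L z)) (fun β X' Y' G => ?_) _
  change ⟪z, X'⟫ = 0
  by_cases e : β = α
  · obtain ⟨a, b, rfl, -⟩ := C.mult_one ht hα hX H (e ▸ G)
    simp [inner_sub_right, real_inner_smul_right, h1, h2]
  by_cases e' : β = -α
  · obtain ⟨a, b, rfl, -⟩ := C.mult_one ht hα hX H (by simpa [e'] using G.neg)
    simp [inner_sub_right, real_inner_smul_right, h1, h2]
  rw [hz, inner_sub_left, h β X' Y' e e' G, real_inner_comm, G.orth' H' e e', sub_zero]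

/-- separating elements of a torus -/
def Sep (t : Submodule ℝ L) (σ : L) : Prop := σ ∈ t ∧ ∀ α ∈ C.Wt t, Real.cos ⟪α, σ⟫ ≠ 1 ∧
  Real.sin ⟪α, σ⟫ ≠ 0 ∧ ∀ β ∈ C.Wt t, Real.cos ⟪α, σ⟫ = Real.cos ⟪β, σ⟫ → β = α ∨ β = -α

theorem exists_dist (hs : C.IsAb s) : ∃ σ ∈ s, ∀ α ∈ C.Wt s, (0 < |⟪α, σ⟫| ∧ |⟪α, σ⟫| < 1) ∧
    ∀ β ∈ C.Wt s, ⟪β, σ⟫ = ⟪α, σ⟫ → β = α := by
  have hf := C.Wt_finite hs
  obtain ⟨ξ, h1, h2⟩ := exists_reg (s := s) (S := C.Wt s ∪ (Set.image2 (· - ·) (C.Wt s) (C.Wt s) \ {0}))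
    (hf.union ((hf.image2 _ hf).subset Set.diff_subset)) (by
      rintro α (h | ⟨⟨a, ha, b, hb, rfl⟩, h⟩)
      · exact ⟨α, C.Wt_mem h, inner_self_ne_zero.2 h.1⟩
      · exact ⟨_, s.sub_mem (C.Wt_mem ha) (C.Wt_mem hb), inner_self_ne_zero.2 h⟩)
  obtain ⟨c, hc, h3⟩ := C.exists_small hs hf (fun α h => h2 α (Or.inl h)) one_pos
  refine ⟨_, s.smul_mem c h1, fun α hα => ⟨h3 α hα, fun β hβ e => by_contra fun h =>
    h2 (β - α) (Or.inr ⟨⟨β, hβ, α, hα, rfl⟩, sub_ne_zero.2 h⟩) ?_⟩⟩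
  rw [real_inner_smul_right, real_inner_smul_right] at e
  rw [inner_sub_left, mul_left_cancel₀ hc.ne' e, sub_self]

theorem exists_sep (hs : C.IsAb s) : ∃ σ, C.Sep s σ := by
  obtain ⟨σ, h1, h2⟩ := C.exists_dist hs
  have := Real.pi_gt_three
  refine ⟨σ, h1, fun α hα => ⟨cos_ne_one (h2 α hα).1.1 (h2 α hα).1.2, fun e => ?_, fun β hβ e => ?_⟩⟩
  · have h3 := abs_lt.1 (h2 α hα).1.2
    rw [Real.sin_eq_zero_iff_of_lt_of_lt (by linarith) (by linarith)] at e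
    simpa [e] using (h2 α hα).1.1
  · rw [← Real.cos_abs, ← Real.cos_abs ⟪β, σ⟫] at e
    rcases abs_eq_abs.1 (Real.injOn_cos ⟨abs_nonneg _, by linarith [(h2 α hα).1.2]⟩
      ⟨abs_nonneg _, by linarith [(h2 β hβ).1.2]⟩ e) with h | h
    · exact Or.inl ((h2 α hα).2 β hβ h.symm)
    · exact Or.inr ((h2 _ (C.Wt_neg hα)).2 β hβ (by rw [inner_neg_left, h, neg_neg]))

theorem inv_of_sep (ht : C.IsMaxAb t) {σ : L} (hσ : C.Sep t σ) {W : Submodule ℝ L}
    (hW : ∀ y ∈ W, C.Ad (C.ex σ) y ∈ W) : ∀ ξ ∈ t, ∀ y ∈ W, C.ad ξ y ∈ W := by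
  let S := C.Ad (C.ex σ) + C.Ad (C.ex σ)⁻¹
  have hS : ∀ x y, ⟪S x, y⟫ = ⟪x, S y⟫ := fun x y => by
    simp only [S, ContinuousLinearMap.add_apply, inner_add_left, inner_add_right, inner_Ad_left,
      inv_inv, add_comm]
  have h1 : ∀ y ∈ W, S y ∈ W := fun y hy => W.add_mem (hW y hy) (C.norm_inv hW y hy)
  have h2 : ∀ α X Y, C.WP t α X Y → S X = (2 * Real.cos ⟪α, σ⟫) • X := fun α X Y H => by
    simp only [S, ContinuousLinearMap.add_apply, ← ex_neg, H.Ad_ex hσ.1, H.Ad_ex (t.neg_mem hσ.1),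
      inner_neg_right, Real.cos_neg, Real.sin_neg]
    module
  let U : Submodule ℝ L := W ⊓ ⨅ ξ : t, W.comap (C.ad ξ).toLinearMap
  have hU : ∀ y, y ∈ U ↔ y ∈ W ∧ ∀ ξ ∈ t, C.ad ξ y ∈ W := fun y => by simp [U]
  have h3 : W ⊓ Uᗮ = ⊥ := by
    by_contra h0
    obtain ⟨c, x, hx, h4, h5⟩ := exists_eig h0 S hS fun y hy => ⟨h1 y hy.1, fun z hz => by
      rw [← hS]
      refine hy.2 _ ((hU _).2 ⟨h1 z hz.1, fun ξ hξ => ?_⟩)
      have := h1 _ (((hU _).1 hz).2 ξ hξ)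
      simpa only [S, ContinuousLinearMap.add_apply, map_add, C.Ad_ad, ← ex_neg,
        C.Ad_ex_fix (ht.ab _ hσ.1 _ hξ), C.Ad_ex_fix (ht.ab _ (t.neg_mem hσ.1) _ hξ)] using this⟩
    refine h4 (inner_self_eq_zero.1 (hx.2 x ((hU x).2 ⟨hx.1, fun ξ hξ => ?_⟩)))
    have h6 : ∀ α X Y, C.WP t α X Y → ⟪x, X⟫ ≠ 0 → c = 2 * Real.cos ⟪α, σ⟫ := fun α X Y H h => by
      have := hS x X
      rw [h5, h2 α X Y H, real_inner_smul_left, real_inner_smul_right] at this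
      exact mul_right_cancel₀ h this
    by_cases h7 : ∀ α X Y, α ≠ 0 → C.WP t α X Y → ⟪x, X⟫ = 0
    · rw [ht.ab ξ hξ x (C.mem_of_perp_roots ht h7)]; exact W.zero_mem
    push Not at h7
    obtain ⟨α, X, Y, a, H, b⟩ := h7
    have hX : X ≠ 0 := by rintro rfl; simp at b
    have hα := hσ.2 α ⟨a, X, Y, hX, H⟩
    obtain ⟨y, hy⟩ := C.exists_pair ht a hX H (x := x) fun β X' Y' e e' G => by_contra fun h => by
      have h8 := mul_left_cancel₀ two_ne_zero ((h6 _ _ _ H b).symm.trans (h6 _ _ _ G h))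
      by_cases hβ : β = 0
      · exact hα.1 (by simpa [hβ] using h8)
      · exact (hα.2.2 β ⟨hβ, X', Y', by rintro rfl; simp at h, G⟩ h8).elim e e'
    have h8 := W.sub_mem (W.smul_mem (Real.cos ⟪α, σ⟫) hx.1) (hW x hx.1)
    rw [hy.Ad_ex hσ.1, sub_sub_cancel, W.smul_mem_iff hα.2.1] at h8
    rw [(hy.2 ξ hξ).1]
    exact W.neg_mem (W.smul_mem _ h8)
  intro ξ hξ y hy
  have : y - U.starProjection y ∈ W ⊓ Uᗮ :=
    ⟨W.sub_mem hy (U.starProjection_apply_mem y).1, U.sub_starProjection_mem_orthogonal y⟩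
  rw [h3, Submodule.mem_bot, sub_eq_zero] at this
  exact ((hU y).1 (this ▸ U.starProjection_apply_mem y)).2 ξ hξ

variable [MeasurableSpace L] [BorelSpace L]

theorem generic_kers {G V ι : Type} [Fintype G] [AddCommGroup V]
    [Module ℝ V] [FiniteDimensional ℝ V] (φ : ι → (G → K) → V →ₗ[ℝ] L)
    (hφ : ∀ i v, C.An fun h => φ i h v) (h₀ : G → K) {W : Submodule ℝ V}
    (hW : ∀ v, (∀ i, φ i h₀ v = 0) → v ∈ W) :
    C.Generic fun h => ∀ U : Submodule ℝ V, finrank ℝ W ≤ finrank ℝ U → (∀ i, ∀ v ∈ U, φ i h v = 0) →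
      ∀ v, (∀ i, φ i h v = 0) → v ∈ U := by
  refine (C.generic_rank (fun (p : ι × L) h => innerₗ L p.2 ∘ₗ φ p.1 h)
    (fun n v => (An.const n.2).inner (hφ n.1 v)) h₀).mono fun h H U h1 h2 v hv => ?_
  rw [Submodule.eq_of_le_of_finrank_le (S₂ := ⨅ p : ι × L, LinearMap.ker (innerₗ L p.2 ∘ₗ φ p.1 h))
    (fun u hu => by simp [h2 _ u hu]) (H.trans (le_trans (Submodule.finrank_mono fun u hu => hW u
      fun i => inner_self_eq_zero.1 ((Submodule.mem_iInf _).1 hu (i, φ i h₀ u))) h1))]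
  simp [hv]

theorem generic_reg {G : Type} [Fintype G] {f : (G → K) → K} (h : C.An fun x => C.Ad (f x))
    {x₀ : G → K} (h0 : C.Reg (f x₀)) : C.Generic fun x => C.Reg (f x) :=
  ((C.an_lw h).generic (C.reg_iff_lw.1 h0)).mono fun _ => C.reg_iff_lw.2

theorem generic_triple : C.Generic fun h : Fin 3 → K =>
    ∀ η ∈ C.Fix (h 0), η - C.Ad (h 1) η ∈ (C.Fix (h 2))ᗮ → η ∈ C.Z := by
  obtain ⟨t, ht⟩ := C.exists_maxAb
  obtain ⟨a, h1, rfl⟩ := C.exists_reg_Fix ht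
  obtain ⟨n, -, h2, h3, -⟩ := C.coxeter ht
  refine (C.generic_kers (fun (i : Bool) h => (bif i then 1 - C.Ad (h 0) else
    C.pw (h 2) * (1 - C.Ad (h 1))).toLinearMap) (fun i v => ?_) ![a, n, a] (W := C.Z) fun v hv => ?_).mono
    fun h H η a b => H C.Z le_rfl (fun i v hv => ?_) η fun i => ?_
  · cases i
    · exact ((C.an_pw (an_Ad 2)).mul ((An.const _).sub (an_Ad 1))).app (An.const v)
    · exact ((An.const _).sub (an_Ad 0)).app (An.const v)
  · have h4 : v ∈ C.Fix a := hv true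
    have h5 := h1.pw_zero (hv false)
    exact h3 v h4 (sub_eq_zero.1 (inner_self_eq_zero.1
      (h5 _ (Submodule.sub_mem _ h4 (h2 v h4))))).symm
  · cases i <;> simp [(C.mem_Z_iff v).1 hv]
  · cases i
    exacts [C.pw_zero b, a]

theorem generic_irr : C.Generic fun h : Fin 2 → K => ∀ η ∈ C.Fix (h 0), η ∈ C.Fix (h 1) → η ∈ C.Z := by
  obtain ⟨t, ht⟩ := C.exists_maxAb
  obtain ⟨a, h1, rfl⟩ := C.exists_reg_Fix ht
  obtain ⟨n, -, h2, h3, -⟩ := C.coxeter ht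
  exact (C.generic_kers (fun i h => (1 - C.Ad (h i)).toLinearMap)
    (fun i v => ((An.const _).sub (an_Ad i)).app (An.const v)) ![a, n] (W := C.Z)
    fun v hv => h3 v (hv 0) (C.mem_Fix.1 (hv 1))).mono fun h H η a b =>
      H C.Z le_rfl (fun i v hv => C.Z_le_Fix _ hv) η (Fin.forall_fin_two.2 ⟨a, b⟩)

theorem generic_hE : C.Generic fun h : Fin 2 → K =>
    ∀ ξ ∈ C.Fix (h 0), ξ ∈ (C.Fix (h 1))ᗮ → ξ = 0 := by
  obtain ⟨t, ht⟩ := C.exists_maxAb
  obtain ⟨a, h1, -⟩ := C.exists_reg_Fix ht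
  refine (C.generic_kers (fun (i : Bool) h => (bif i then 1 - C.Ad (h 0) else
    C.pw (h 1)).toLinearMap) (fun i v => ?_) ![a, a] (W := ⊥) fun v hv => ?_).mono
    fun h H η a b => H ⊥ le_rfl (by simp) η fun i => ?_
  · cases i
    · exact (C.an_pw (an_Ad 1)).app (An.const v)
    · exact ((An.const _).sub (an_Ad 0)).app (An.const v)
  · exact inner_self_eq_zero.1 (h1.pw_zero (hv false) _ (hv true))
  · cases i
    exacts [C.pw_zero b, a]

theorem an_y (n : ℕ) : C.An fun h : Fin 2 → K => C.Ad (h 1 * h 0 ^ n) := by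
  simpa using (an_Ad (C := C) (1 : Fin 2)).mul ((an_Ad 0).pow n)

theorem generic_a : C.Generic fun h : Fin 2 → K => C.Reg (h 0) ∧ ∀ n : ℕ, C.Reg (h 1 * h 0 ^ n) := by
  obtain ⟨t, ht⟩ := C.exists_maxAb
  obtain ⟨a, h1, -⟩ := C.exists_reg_Fix ht
  exact (C.generic_reg (an_Ad 0) (x₀ := ![a, a]) h1).and
    (Generic.all fun n => C.generic_reg (C.an_y n) (x₀ := ![1, a]) (by simpa using h1))

theorem Fix_pow {a : K} {η : L} (h : η ∈ C.Fix a) (n : ℕ) : C.Ad (a ^ n) η = η := by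
  induction n with
  | zero => simp
  | succ n ih => rw [pow_succ, Ad_mul_apply, C.mem_Fix.1 h, ih]

theorem generic_hA : C.Generic fun h : Fin 2 → K => ∀ x,
    (∀ n : ℕ, x ∈ (C.Fix (h 1 * h 0 ^ n))ᗮ) → ∃ η ∈ C.Fix (h 0), x = η - C.Ad (h 1) η := by
  obtain ⟨t, ht⟩ := C.exists_maxAb
  obtain ⟨n, h1, h2, -, h3⟩ := C.coxeter ht
  obtain ⟨σ, hσ⟩ := C.exists_sep ht.ab
  refine ((C.generic_kers (fun (i : ℕ) h => (C.pw (h 1 * h 0 ^ i)).toLinearMap)
    (fun i v => (C.an_pw (C.an_y i)).app (An.const v)) ![n⁻¹ * C.ex σ * n * (C.ex σ)⁻¹, n]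
    (W := t ⊓ C.Zᗮ) fun v hv => ?_).and (C.generic_a.and C.generic_irr)).mono fun h H x hx => ?_
  · have hc : Commute (n⁻¹ * C.ex σ * n) (C.ex σ)⁻¹ := by
      have := C.ex_conj n⁻¹ σ
      rw [inv_inv] at this
      rw [this]
      exact Commute.inv_right (C.ex_comm (C.mem_Fix.2 (C.Ad_ex_fix
        (ht.ab _ (C.norm_inv h2 σ hσ.1) _ hσ.1))))
    let W : Submodule ℝ L := ⨅ i : ℕ, (C.Fix n)ᗮ.comap (C.Ad (C.ex σ ^ i)⁻¹).toLinearMap
    have hW : ∀ y, y ∈ W ↔ ∀ i : ℕ, C.Ad (C.ex σ ^ i)⁻¹ y ∈ (C.Fix n)ᗮ := fun y => by simp [W]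
    have hv' : v ∈ W := (hW v).2 fun i z hz => by
      have h4 := hv i
      simp only [Matrix.cons_val_one, Matrix.cons_val_zero, Matrix.cons_val_fin_one, hc.mul_pow,
        show (n⁻¹ * C.ex σ * n) ^ i = n⁻¹ * C.ex σ ^ i * n by simpa using conj_pow (a := n⁻¹),
        ← mul_assoc, mul_inv_cancel, one_mul, inv_pow] at h4
      rw [← inner_Ad_left]
      exact (h1.conj _).pw_zero h4 _ (C.Ad_mem_Fix_conj.2 hz)
    have h0 : ∀ y ∈ W, y ∈ (C.Fix n)ᗮ := fun y hy => by simpa using (hW y).1 hy 0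
    refine ⟨C.le_of_WP ht (C.inv_of_sep ht hσ (by
      simpa using C.norm_inv (k := (C.ex σ)⁻¹) (s := W) fun y hy => (hW _).2 fun i => by
        rw [← Ad_mul_apply, ← mul_inv_rev, ← pow_succ']; exact (hW y).1 hy _))
      (fun α X Y a b c d => by_contra fun e => ?_) hv',
      Submodule.orthogonal_le (C.Z_le_Fix n) (h0 v hv')⟩
    obtain ⟨z, hz, h4⟩ := h3 α X Y a e d
    exact h4.elim (· (h0 X b z hz)) (· (h0 Y c z hz))
  · obtain ⟨η, h4, h5⟩ := H.1 ((C.Fix (h 0)).map (1 - C.Ad (h 1)).toLinearMap) (by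
      have e1 := ((1 - C.Ad (h 1)).toLinearMap.domRestrict (C.Fix (h 0))).finrank_range_add_finrank_ker
      have e2 := Submodule.finrank_add_inf_finrank_orthogonal ht.Z_le
      have e3 := Submodule.finrank_mono (s := C.Fix (h 0) ⊓ C.Fix (h 1)) (t := C.Z)
        fun y hy => H.2.2 y hy.1 hy.2
      rw [LinearMap.range_domRestrict, LinearMap.ker_domRestrict, H.2.1.1,
        ← Submodule.finrank_map_subtype_eq, Submodule.map_comap_subtype] at e1
      rw [inf_comm, C.finrank_maxAb ht] at e2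
      change _ + finrank ℝ (C.Fix (h 0) ⊓ C.Fix (h 1) : Submodule ℝ L) = _ at e1
      omega) (by
      rintro i _ ⟨η, h4, rfl⟩
      have := C.pj_sub_Ad (h 1 * h 0 ^ i) η
      rw [Ad_mul_apply, C.Fix_pow h4] at this
      exact C.pw_zero (C.pj_eq_zero_iff.1 this)) x fun i => C.pw_zero (hx i)
    exact ⟨η, h4, h5.symm⟩

end Ctx

end Pool.Agent.Lib.MP_d52947_gt
end

-- part Pool.Agent.Lib.MP_d52947_gt.GenB
section

/-! Generic pairs, second part. -/

namespace Pool.Agent.Lib.MP_d52947_gt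

open Filter Topology Module InnerProductSpace
open scoped RealInnerProductSpace

theorem span_open {V X : Type} [NormedAddCommGroup V] [NormedSpace ℝ V] [FiniteDimensional ℝ V]
    {l : Filter X} {s : Set V} (hs : Submodule.span ℝ s = ⊤) {U : X → Submodule ℝ V}
    (h : ∀ v ∈ s, ∃ g : X → V, Tendsto g l (𝓝 v) ∧ ∀ᶠ x in l, g x ∈ U x) : ∀ᶠ x in l, U x = ⊤ := by
  obtain ⟨b, hb, h1, h2⟩ := exists_linearIndependent ℝ s
  have := h2.finite
  have := Fintype.ofFinite b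
  choose g h3 h4 using fun v : b => h v (hb v.2)
  have h5 : Fintype.card b = finrank ℝ V :=
    (finrank_eq_card_basis (Basis.mk h2 (by simp [h1, hs]))).symm
  filter_upwards [(tendsto_pi_nhds.2 h3).eventually
    (isOpen_setOf_linearIndependent.mem_nhds h2), eventually_all.2 h4] with x h6 h7
  rw [eq_top_iff, ← h6.span_eq_top_of_card_eq_finrank' h5, Submodule.span_le]
  rintro _ ⟨v, rfl⟩
  exact h7 v

theorem indep_cos {ι : Type} (θ c : ι → ℝ) (S : Finset ι) (h0 : ∀ i ∈ S, 0 < θ i ∧ θ i < 1)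
    (hi : Set.InjOn θ S)
    (h : ∀ m : ℕ, ∑ i ∈ S, c i / (1 - Real.cos ((1 + 1 / (m + 1)) * θ i)) = 0) : ∀ i ∈ S, c i = 0 := by
  classical
  have hpi := Real.pi_gt_three
  induction S using Finset.induction_on_max_value θ with
  | empty => simp
  | insert a s ha hm ih =>
    have h1 := h0 a (by simp)
    have h2 : ∀ i ∈ s, θ i < θ a := fun i h => (hm i h).lt_of_ne fun e =>
      ha (hi (by simp [h]) (by simp) e ▸ h)
    have h3 : ∀ x y : ℝ, 0 < x → 0 < y → x * y < 2 * Real.pi → 1 - Real.cos (x * y) ≠ 0 :=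
      fun x y hx hy hh e => (mul_pos hx hy).ne' ((Real.cos_eq_one_iff_of_lt_of_lt
        (by linarith [mul_pos hx hy]) hh).1 (sub_eq_zero.1 e).symm)
    have h4 : AnalyticOnNhd ℝ (fun x => c a + (1 - Real.cos (x * θ a)) *
        ∑ i ∈ s, c i / (1 - Real.cos (x * θ i))) (Set.Ioc 0 (2 * Real.pi / θ a)) := fun x hx =>
      analyticAt_const.add (AnalyticAt.mul (by fun_prop) (Finset.analyticAt_fun_sum _ fun i hs =>
        analyticAt_const.div (by fun_prop) (h3 _ _ hx.1 (h0 i (by simp [hs])).1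
          ((mul_lt_mul_of_pos_left (h2 i hs) hx.1).trans_le ((le_div_iff₀ h1.1).1 hx.2)))))
    have h5 : Tendsto (fun m : ℕ => (1 + 1 / (m + 1) : ℝ)) atTop (𝓝[≠] 1) :=
      tendsto_nhdsWithin_iff.2 ⟨by simpa using tendsto_one_div_add_atTop_nhds_zero_nat.const_add (1 : ℝ),
        Eventually.of_forall fun m => by simpa using (by positivity : (m + 1 : ℝ) ≠ 0)⟩
    have h6 := h4.eqOn_zero_of_preconnected_of_frequently_eq_zero isPreconnected_Ioc
      ⟨one_pos, (le_div_iff₀ h1.1).2 (by linarith)⟩ (h5.frequently (Frequently.of_forall fun m => by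
        have := h m
        have h7 : (0 : ℝ) < 1 / (m + 1) := by positivity
        have h8 : (1 / (m + 1) : ℝ) ≤ 1 := (div_le_one (by positivity)).2 (by simp)
        rw [Finset.sum_insert ha, add_eq_zero_iff_eq_neg, div_eq_iff (h3 _ _ (by linarith) h1.1
          (by nlinarith))] at this
        rw [this]; ring)) ⟨div_pos (by linarith) h1.1, le_rfl⟩
    have h7 : c a = 0 := by simpa [div_mul_cancel₀ _ h1.1.ne'] using h6
    simp only [Finset.mem_insert, forall_eq_or_imp]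
    exact ⟨h7, ih (fun i h => h0 i (by simp [h])) (hi.mono (by simp)) fun m => by
      simpa [Finset.sum_insert ha, h7] using h m⟩

namespace Ctx
variable {L : Type} [NormedAddCommGroup L] [InnerProductSpace ℝ L] [FiniteDimensional ℝ L]
  {K : Type} [Group K] [TopologicalSpace K] [IsTopologicalGroup K] [CompactSpace K]
  [ConnectedSpace K] (C : Ctx L K) {s t : Submodule ℝ L}

theorem An.line {C : Ctx L K} {E : Type} [NormedAddCommGroup E] [NormedSpace ℝ E] {f : K → E}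
    (h : C.An fun x : Unit → K => f (x ())) (X : L) (y : K) :
    AnalyticOnNhd ℝ (fun e : ℝ => f (C.ex (e • X) * y)) Set.univ := fun e _ =>
  (h (fun _ => y) _ trivial).comp (f := fun (e : ℝ) (_ : Unit) => e • X)
    (analyticAt_pi_iff.2 fun _ => by fun_prop)

theorem exists_dpj {y : K} (hy : C.Reg y) (X : L) : ∃ D : L →L[ℝ] L,
    HasDerivAt (fun e : ℝ => C.pj (C.ex (e • X) * y)) D 0 ∧ (∀ u v, ⟪D u, v⟫ = ⟪u, D v⟫) ∧
      ∀ ξ ∈ C.Fix y, D ξ ∈ (C.Fix y)ᗮ ∧ D ξ - C.Ad y (D ξ) = C.ad X ξ := by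
  have := FiniteDimensional.complete ℝ L
  have h1 := (C.an_pw (an_Ad ())).line X y 0 trivial
  have h2 := (C.an_lw (an_Ad ())).line X y 0 trivial
  have h3 : C.lw (C.ex ((0 : ℝ) • X) * y) ≠ 0 := by simpa [C.ex_zero] using C.reg_iff_lw.1 hy
  obtain ⟨D, hD⟩ : ∃ D, HasDerivAt (fun e : ℝ => C.pj (C.ex (e • X) * y)) D 0 :=
    ⟨_, ((h2.inv h3).smul h1).differentiableAt.hasDerivAt.congr_of_eventuallyEq
      ((h2.continuousAt.eventually_ne h3).mono fun e he => by simp [pw_eq, he])⟩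
  have h4 : ∀ u, HasDerivAt (fun e : ℝ => C.pj (C.ex (e • X) * y) u) (D u) 0 := fun u => by
    simpa using hD.clm_apply (hasDerivAt_const 0 u)
  refine ⟨D, hD, fun u v => ?_, fun ξ hξ => ⟨?_, ?_⟩⟩
  · have h5 := (h4 u).inner ℝ (hasDerivAt_const 0 v)
    simp only [inner_pj] at h5
    simpa using h5.unique ((hasDerivAt_const 0 u).inner ℝ (h4 v))
  · have h5 := hD.clm_apply (h4 ξ)
    simp only [pj_pj] at h5
    simpa [C.ex_zero, C.pj_of_mem hξ, pj_eq_zero_iff] using h5.unique (h4 ξ)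
  · have h5 := (hasDerivAt_exp0 (C.ad X)).clm_apply
      ((hasDerivAt_const 0 (C.Ad y)).clm_apply (h4 ξ))
    simp only [← map_smul, ← C.Ad_ex, ← Ad_mul_apply, C.mem_Fix.1 (C.pj_mem _ _)] at h5
    have := h5.unique (h4 ξ)
    simp only [zero_smul, C.ex_zero, one_mul, C.pj_of_mem hξ, C.mem_Fix.1 hξ,
      ContinuousLinearMap.zero_apply, zero_add, Ad_one_apply] at this
    exact sub_eq_of_eq_add this.symm

theorem tendsto_M (ht : C.IsMaxAb t) {σ : L} (hσ : σ ∈ t) (h1 : ∀ α ∈ C.Wt t, Real.cos ⟪α, σ⟫ ≠ 1)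
    (Φ : Finset L) (X Y : L → L) (hΦ : ∀ α ∈ Φ, α ∈ C.Wt t ∧ C.WP t α (X α) (Y α) ∧ -α ∉ Φ) :
    Tendsto (fun e : ℝ => (e⁻¹ * e⁻¹) • (t.starProjection - t.starProjection *
      C.pj (C.ex (e • ∑ α ∈ Φ, X α) * C.ex σ) * t.starProjection)) (𝓝[≠] 0)
      (𝓝 (∑ α ∈ Φ, (⟪X α, X α⟫ / 2 / (1 - Real.cos ⟪α, σ⟫)) • rankOne ℝ α α)) := by
  have h2 := C.Fix_ex ht hσ h1
  obtain ⟨D, h3, h4, h5⟩ := C.exists_dpj (y := C.ex σ) (by rw [Reg, h2, C.finrank_maxAb ht])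
    (∑ α ∈ Φ, X α)
  rw [hasDerivAt_iff_tendsto_slope_zero] at h3
  have h6 : t.starProjection = C.pj (C.ex σ) := by simp only [pj, h2]
  rw [h2] at h5
  let W : L → L := fun α => (Real.sin ⟪α, σ⟫ / 2 / (1 - Real.cos ⟪α, σ⟫)) • X α + (1 / 2 : ℝ) • Y α
  have hW : ∀ α ∈ Φ, ∃ Y', C.WP t α (W α) Y' := fun α h => by
    have := (hΦ α h).2.1.rot.rot.rot
    rw [neg_neg] at this
    exact ⟨_, ((hΦ α h).2.1.smul _).add (this.smul _)⟩
  have h7 : ∀ ξ ∈ t, D ξ = ∑ α ∈ Φ, ⟪α, ξ⟫ • W α := fun ξ hξ => by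
    rw [← sub_eq_zero, ← inner_self_eq_zero (𝕜 := ℝ)]
    refine tᗮ.sub_mem (h5 ξ hξ).1 (Submodule.sum_mem _ fun α h => Submodule.smul_mem _ _ fun z hz => ?_)
      _ ?_
    · obtain ⟨_, h8⟩ := hW α h
      rw [real_inner_comm, h8.perp_s ht.ab (hΦ α h).1.1 hz]
    rw [← h2, mem_Fix, map_sub, sub_eq_sub_iff_sub_eq_sub, ← neg_inj, neg_sub, (h5 ξ hξ).2, ad_swap,
      neg_sub, map_sum, map_sum, ← Finset.sum_neg_distrib, ← Finset.sum_sub_distrib]
    refine Finset.sum_congr rfl fun α h => ?_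
    have h8 := sub_ne_zero.2 (h1 α (hΦ α h).1).symm
    have h9 := (hΦ α h).2.1.rot.Ad_ex hσ
    rw [map_neg, neg_eq_iff_eq_neg] at h9
    simp only [W, map_smul, map_add, (hΦ α h).2.1.Ad_ex hσ, h9, ((hΦ α h).2.1.2 ξ hξ).1]
    match_scalars
    · field_simp; linear_combination (-⟪α, ξ⟫) * Real.sin_sq_add_cos_sq ⟪α, σ⟫
    · field_simp; ring
  convert ((tendsto_const_nhds (x := t.starProjection)).mul h3).mul
    (h3.mul (tendsto_const_nhds (x := t.starProjection))) using 2 with e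
  · ext x
    simp only [h6, zero_add, zero_smul, C.ex_zero, one_mul, ContinuousLinearMap.smul_apply,
      ContinuousLinearMap.sub_apply, ContinuousLinearMap.mul_apply, map_smul, map_sub, pj_pj]
    module
  · ext x
    refine ext_inner_right ℝ fun y => ?_
    simp only [ContinuousLinearMap.mul_apply, Submodule.inner_starProjection_left_eq_right, h4,
      h7 _ (t.starProjection_apply_mem _), sum_inner, ContinuousLinearMap.sum_apply,
      ContinuousLinearMap.smul_apply, rankOne_apply, real_inner_smul_left]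
    refine Finset.sum_congr rfl fun α h => ?_
    have h8 : ∀ z, ⟪α, t.starProjection z⟫ = ⟪α, z⟫ := fun z => by
      rw [← Submodule.inner_starProjection_left_eq_right,
        Submodule.starProjection_eq_self_iff.2 (hΦ α h).2.1.1]
    have h9 := sub_ne_zero.2 (h1 α (hΦ α h).1).symm
    have G := (hΦ α h).2.1
    rw [inner_sum, Finset.sum_eq_single_of_mem α h fun β hβ e => ?_]
    · simp only [W, h8, inner_add_left, inner_add_right, real_inner_smul_left,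
        real_inner_smul_right, G.perp (hΦ α h).1.1, real_inner_comm (X α) (Y α),
        ← G.same G (hΦ α h).1.1]
      field_simp
      linear_combination (-⟪α, x⟫ * ⟪α, y⟫ * ⟪X α, X α⟫) * Real.sin_sq_add_cos_sq ⟪α, σ⟫
    · obtain ⟨_, a⟩ := hW α h
      obtain ⟨_, b⟩ := hW β hβ
      rw [real_inner_smul_right, a.orth' b e.symm fun e => (hΦ β hβ).2.2 (e ▸ h), mul_zero]

theorem sum_p (I : C.Ideals) {v : L} (hv : v ∈ C.Zᗮ) : ∑ i, I.p i v = v := by
  rw [eq_comm, ← sub_eq_zero, ← inner_self_eq_zero (𝕜 := ℝ)]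
  exact C.Zᗮ.sub_mem hv (Submodule.sum_mem _ fun i _ z hz => by
    rw [← I.p_symm, I.p_Z i z hz, inner_zero_left]) _ (I.p_sum v)

theorem IsMaxAb.p_mem {C : Ctx L K} (ht : C.IsMaxAb t) (I : C.Ideals) (i) : ∀ ξ ∈ t, I.p i ξ ∈ t :=
  fun ξ hξ => (ht _).2 fun y hy => by rw [← ad_p, ← I.p_ad, ht.ab ξ hξ y hy, map_zero]

theorem top_of_roots (ht : C.IsMaxAb t) {U : Submodule ℝ L} (h1 : ∀ α ∈ C.Wt t, α ∈ U)
    (h2 : C.Z ≤ U) (h3 : tᗮ ≤ U) : U = ⊤ := by
  rw [← Submodule.orthogonal_eq_bot_iff, eq_bot_iff]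
  intro x hx
  have h4 : x ∈ t := by simpa using Submodule.orthogonal_le h3 hx
  exact inner_self_eq_zero.1 (hx x (h2 (C.mem_Z_of_Wt ht.ab h4 fun α h => hx α (h1 α h))))

theorem bil_eq_zero (I : C.Ideals) (ht : C.IsMaxAb t) (B : L →ₗ[ℝ] L →ₗ[ℝ] ℝ)
    (h1 : ∀ x y, B x y = B y x) (h2 : ∀ x ∈ tᗮ, B x = 0)
    (h3 : ∀ x y, B x y = ∑ i, B (I.p i x) (I.p i y)) (h4 : ∀ α ∈ C.Wt t, B α α = 0) : B = 0 := by
  have hZ : ∀ x ∈ C.Z, B x = 0 := fun x hx => by
    ext y; simp [h3 x y, I.p_Z _ x hx]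
  rw [← LinearMap.ker_eq_top]
  refine C.top_of_roots ht (fun α hα => LinearMap.ker_eq_top.1 (C.top_of_roots ht (fun β hβ => ?_)
    (fun x hx => by simp [h1 α, hZ x hx]) fun x hx => by simp [h1 α, h2 x hx])) hZ h2
  obtain ⟨i, hi⟩ := C.Wt_ideal I (ht.p_mem I) hα
  obtain ⟨j, hj⟩ := C.Wt_ideal I (ht.p_mem I) hβ
  by_cases e : i = j
  swap
  · rw [LinearMap.mem_ker, h3, ← hi, ← hj]
    refine Finset.sum_eq_zero fun l _ => ?_
    by_cases e' : l = i
    · rw [I.p_orth l j (e' ▸ e), map_zero]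
    · simp [I.p_orth l i e']
  subst e
  let U := Submodule.span ℝ {β ∈ C.Wt t | ⟪α, β⟫ ≠ 0}
  have hα' : α ∈ U := Submodule.subset_span ⟨hα, inner_self_ne_zero.2 hα.1⟩
  have hU : U ≤ LinearMap.ker (B α) := Submodule.span_le.2 fun γ hγ => by
    have := h4 _ (C.Wt_refl ht hα hγ.1)
    have h5 := inner_self_ne_zero (𝕜 := ℝ).2 hα.1
    simp only [map_sub, map_smul, LinearMap.sub_apply, LinearMap.smul_apply, h4 α hα, h4 γ hγ.1,
      h1 γ α, smul_eq_mul] at this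
    exact mul_left_cancel₀ (div_ne_zero (mul_ne_zero two_ne_zero hγ.2) h5) (by linarith)
  refine hU (C.Wt_irred I ht.ab (ht.p_mem I) i {γ | γ ∈ U ∧ γ ∈ C.Wt t ∧ I.p i γ = γ}
    (fun _ h => h.2) ⟨α, hα', hα, hi⟩ (fun γ hγ δ hδ h => ⟨by_contra fun h5 => ?_, hδ, ?_⟩) β hβ hj).1
  · have h6 : ⟪α, δ⟫ = 0 := by_contra fun h6 => h5 (Submodule.subset_span ⟨hδ, h6⟩)
    have h7 : U ≤ U.comap (LinearMap.id - (innerₗ L δ).smulRight ((2 / ⟪δ, δ⟫) • δ)) :=
      Submodule.span_le.2 fun ε hε => Submodule.subset_span ⟨by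
        simpa [smul_smul, mul_comm, mul_div_assoc'] using C.Wt_refl ht hδ hε.1, by
        simpa [inner_sub_right, real_inner_smul_right, h6] using hε.2⟩
    have h8 := U.sub_mem hγ.1 (h7 hγ.1)
    simp only [LinearMap.sub_apply, LinearMap.id_apply, sub_sub_cancel, LinearMap.smulRight_apply,
      innerₗ_apply_apply] at h8
    rw [U.smul_mem_iff (by rwa [real_inner_comm]), U.smul_mem_iff
      (div_ne_zero two_ne_zero (inner_self_ne_zero.2 hδ.1))] at h8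
    exact h5 h8
  · obtain ⟨l, hl⟩ := C.Wt_ideal I (ht.p_mem I) hδ
    by_cases e : l = i
    · exact e ▸ hl
    · exact absurd (by rw [← hl, ← I.p_symm, ← hγ.2.2, I.p_orth l i e, inner_zero_left]) h

/-- the family of operators whose span is generically everything -/
noncomputable def famB (I : C.Ideals) (h : Fin 2 → K) : ℕ ⊕ (L × L) ⊕ (L × L) ⊕ (L × L) → L →L[ℝ] L
  | .inl n => (C.lw (h 0) * C.lw (h 1 * h 0 ^ n)) • C.pw (h 0) -
      C.pw (h 0) * C.pw (h 1 * h 0 ^ n) * C.pw (h 0)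
  | .inr (.inl p) => rankOne ℝ p.1 p.2 - rankOne ℝ p.2 p.1
  | .inr (.inr (.inl p)) => (1 - C.Ad (h 0)) * rankOne ℝ p.1 p.2
  | .inr (.inr (.inr p)) => rankOne ℝ p.1 p.2 - ∑ i, rankOne ℝ (I.p i p.1) (I.p i p.2)

theorem famB_inl (I : C.Ideals) (h : Fin 2 → K) (n : ℕ) : C.famB I h (.inl n) =
    (C.lw (h 0) * C.lw (h 0) * C.lw (h 1 * h 0 ^ n)) •
      (C.pj (h 0) - C.pj (h 0) * C.pj (h 1 * h 0 ^ n) * C.pj (h 0)) := by
  simp only [famB, pw_eq, smul_mul_assoc, mul_smul_comm]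
  module

theorem exists_famB (I : C.Ideals) : ∃ h, Submodule.span ℝ (Set.range (C.famB I h)) = ⊤ := by
  classical
  obtain ⟨t, ht⟩ := C.exists_maxAb
  obtain ⟨τ, h1, h2⟩ := C.exists_dist ht.ab
  let Φ := (C.Wt_finite ht.ab).toFinset.filter (0 < ⟪·, τ⟫)
  have hΦ : ∀ α, α ∈ Φ ↔ α ∈ C.Wt t ∧ 0 < ⟪α, τ⟫ := fun α => by simp [Φ]
  have h3 : ∀ α, ∃ X Y, α ∈ C.Wt t → X ≠ 0 ∧ C.WP t α X Y := fun α => by
    by_cases h : α ∈ C.Wt t
    · obtain ⟨X, Y, h⟩ := h.2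
      exact ⟨X, Y, fun _ => h⟩
    · exact ⟨0, 0, fun h' => absurd h' h⟩
  choose X Y h3 using h3
  have h4 : ∀ c : ℝ, 0 < c → c ≤ 2 → ∀ α ∈ C.Wt t, Real.cos ⟪α, c • τ⟫ ≠ 1 := fun c a b α h => by
    have := h2 α h
    have h5 := Real.pi_gt_three
    rw [real_inner_smul_right, ← Real.cos_abs, abs_mul, abs_of_pos a, Ne,
      Real.cos_eq_one_iff_of_lt_of_lt (by nlinarith) (by nlinarith)]
    exact (mul_pos a this.1.1).ne'
  have h5 : ∀ m : ℕ, (0 : ℝ) < 1 + 1 / (m + 1) ∧ (1 + 1 / (m + 1) : ℝ) ≤ 2 := fun m =>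
    ⟨by positivity, by linarith [(div_le_one (b := (m + 1 : ℝ)) (a := 1) (by positivity)).2 (by simp)]⟩
  have h6 : ∀ k : ℕ, C.Fix (C.ex ((k.factorial : ℝ)⁻¹ • τ)) = t := fun k =>
    C.Fix_ex ht (t.smul_mem _ h1) (h4 _ (by positivity) ((inv_le_one_of_one_le₀
      (by exact_mod_cast k.factorial_pos)).trans one_le_two))
  have h7 : ∀ {k}, C.Fix k = t → C.Reg k := fun h => by rw [Reg, h, C.finrank_maxAb ht]
  refine (span_open (l := (atTop : Filter ℕ) ×ˢ 𝓝[≠] (0 : ℝ)) (U := fun p => Submodule.span ℝ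
    (Set.range (C.famB I ![C.ex ((p.1.factorial : ℝ)⁻¹ • τ), C.ex (p.2 • ∑ α ∈ Φ, X α)])))
    (s := Set.range (fun m : ℕ => ∑ α ∈ Φ, (⟪X α, X α⟫ / 2 /
      (1 - Real.cos ⟪α, (1 + 1 / (m + 1) : ℝ) • τ⟫)) • rankOne ℝ α α) ∪
      Set.range fun p => C.famB I ![C.ex ((Nat.factorial 0 : ℝ)⁻¹ • τ), 1] (.inr p)) ?_ ?_).exists.imp'
      _ fun _ => id
  · by_contra h0
    obtain ⟨S, h8, h9⟩ := Submodule.exists_le_ker_of_lt_top _ (lt_top_iff_ne_top.2 h0)
    rw [Submodule.span_le, Set.union_subset_iff, Set.range_subset_iff, Set.range_subset_iff] at h9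
    let B : L →ₗ[ℝ] L →ₗ[ℝ] ℝ := LinearMap.mk₂ ℝ (fun x y => S (rankOne ℝ x y))
      (by simp) (by simp) (by simp) (by simp)
    have hB : ∀ x y, B x y = S (rankOne ℝ x y) := fun _ _ => rfl
    have h10 := indep_cos (⟪·, τ⟫) (fun α => ⟪X α, X α⟫ / 2 * B α α) Φ
      (fun α h => ⟨((hΦ α).1 h).2, (le_abs_self _).trans_lt (h2 α ((hΦ α).1 h).1).1.2⟩)
      (fun α h β h' e => (h2 β ((hΦ β).1 h').1).2 α ((hΦ α).1 h).1 e) fun m => by
        simpa [hB, real_inner_smul_right, div_mul_eq_mul_div] using h9.1 m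
    have h11 : ∀ α ∈ Φ, B α α = 0 := fun α h => (mul_eq_zero.1 (h10 α h)).resolve_left
      (div_ne_zero (inner_self_ne_zero.2 (h3 α ((hΦ α).1 h).1).1) two_ne_zero)
    have h12 := C.bil_eq_zero I ht B (fun x y => by
      simpa [famB, hB, sub_eq_zero] using h9.2 (.inl (x, y))) (fun x hx => by
        obtain ⟨η, rfl⟩ := C.exists_sub_Ad (C.pj_eq_zero_iff.2 ((h6 0).symm ▸ hx))
        ext y
        simpa [famB, hB, sub_mul, ContinuousLinearMap.mul_def, comp_rankOne] using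
          h9.2 (.inr (.inl (η, y))))
      (fun x y => by simpa [famB, hB, sub_eq_zero] using h9.2 (.inr (.inr (x, y)))) fun α h => by
        rcases lt_or_gt_of_ne (abs_pos.1 (h2 α h).1.1) with e | e
        · simpa using h11 (-α) ((hΦ _).2 ⟨C.Wt_neg h, by simpa using e⟩)
        · exact h11 α ((hΦ _).2 ⟨h, e⟩)
    refine h8 (LinearMap.ext fun A => ?_)
    rw [← A.comp_id, ← (stdOrthonormalBasis ℝ L).sum_rankOne_eq_id]
    simp [ContinuousLinearMap.comp_finset_sum, comp_rankOne, ← hB, h12]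
  rintro _ (⟨m, rfl⟩ | ⟨p, rfl⟩)
  · have hσ := t.smul_mem (1 + 1 / (m + 1) : ℝ) h1
    have h8 := h4 _ (h5 m).1 (h5 m).2
    refine ⟨_, (C.tendsto_M ht hσ h8 Φ X Y fun α h => ⟨((hΦ α).1 h).1, (h3 α ((hΦ α).1 h).1).2,
      fun h' => by linarith [((hΦ α).1 h).2, ((hΦ _).1 h').2, inner_neg_left (𝕜 := ℝ) α τ]⟩).comp
      tendsto_snd, ((eventually_ge_atTop (m + 1)).prod_mk (mem_nhdsWithin_of_mem_nhds
        ((((C.an_lw (an_Ad ())).line (∑ α ∈ Φ, X α) _ 0 trivial).continuousAt.eventually_ne (by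
          simpa [C.ex_zero] using C.reg_iff_lw.1 (h7 (C.Fix_ex ht hσ h8))))))).mono fun p hp => ?_⟩
    obtain ⟨n, hn⟩ := Nat.dvd_factorial m.succ_pos hp.1
    have h9 := C.reg_iff_lw.1 (h7 (h6 p.1))
    have h10 : C.ex ((p.1.factorial : ℝ)⁻¹ • τ) ^ (n * (m + 2)) = C.ex ((1 + 1 / (m + 1) : ℝ) • τ) := by
      have : (n : ℝ) ≠ 0 := by
        rintro h; exact p.1.factorial_ne_zero (by rw [hn, Nat.cast_eq_zero.1 h, mul_zero])
      rw [← ex_nsmul, smul_smul, hn]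
      congr 2
      push_cast; field_simp; ring
    refine Submodule.smul_mem _ _ ((Submodule.smul_mem_iff _
      (mul_ne_zero (mul_ne_zero h9 h9) hp.2)).1 (Submodule.subset_span ⟨.inl (n * (m + 2)), ?_⟩))
    simp [famB_inl, h10, pj, h6]
  · refine ⟨_, tendsto_const_nhds, Eventually.of_forall fun q => ?_⟩
    rcases p with p | p | p
    · exact Submodule.subset_span ⟨.inr (.inl p), rfl⟩
    · obtain ⟨η, h⟩ := C.exists_sub_Ad (k := C.ex ((q.1.factorial : ℝ)⁻¹ • τ)) (C.pj_eq_zero_iff.2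
        (((h6 0).trans (h6 q.1).symm) ▸ C.pj_eq_zero_iff.1 (C.pj_sub_Ad _ p.1)))
      refine Submodule.subset_span ⟨.inr (.inr (.inl (η, p.2))), ?_⟩
      simp only [famB, ContinuousLinearMap.mul_def, comp_rankOne, Matrix.cons_val_zero]
      exact congrArg (rankOne ℝ · p.2) h.symm
    · exact Submodule.subset_span ⟨.inr (.inr (.inr p)), rfl⟩

variable [MeasurableSpace L] [BorelSpace L]

theorem generic_span {G V ι : Type} [Fintype G] [NormedAddCommGroup V] [NormedSpace ℝ V]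
    [FiniteDimensional ℝ V] (v : (G → K) → ι → V) (hv : ∀ i, C.An fun h => v h i) {h₀ : G → K}
    (h0 : Submodule.span ℝ (Set.range (v h₀)) = ⊤) :
    C.Generic fun h => Submodule.span ℝ (Set.range (v h)) = ⊤ := by
  refine (C.generic_rank (fun i h => Dual.eval ℝ V (v h i))
    (fun i S => (hv i).clm S.toContinuousLinearMap) h₀).mono fun h H => by_contra fun h1 => ?_
  obtain ⟨S, h2, h3⟩ := Submodule.exists_le_ker_of_lt_top _ (lt_top_iff_ne_top.2 h1)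
  rw [show (⨅ i, LinearMap.ker (Dual.eval ℝ V (v h₀ i))) = ⊥ from eq_bot_iff.2 fun T hT =>
    LinearMap.ker_eq_top.1 (eq_top_iff.2 (h0 ▸ Submodule.span_le.2 (Set.range_subset_iff.2
      fun i => (Submodule.mem_iInf _).1 hT i))), finrank_bot, Nat.le_zero,
    Submodule.finrank_eq_zero] at H
  exact h2 (H.le ((Submodule.mem_iInf _).2 fun i => h3 (Submodule.subset_span ⟨i, rfl⟩)))

theorem generic_pair (I : C.Ideals) :
    C.Generic fun h : Fin 2 → K => C.GoodPair I (h 0) (h 1) := by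
  obtain ⟨h₀, h0⟩ := C.exists_famB I
  refine ((C.generic_span _ (fun i => ?_) h0).and (C.generic_a.and
    (C.generic_hA.and C.generic_hE))).mono fun h H => ⟨H.2.1.1, H.2.2.1, fun i l h1 h2 => ?_, H.2.2.2⟩
  · rcases i with n | p | p | p
    · exact (((C.an_lw (an_Ad 0)).mul (C.an_lw (C.an_y n))).smul (C.an_pw (an_Ad 0))).sub
        (((C.an_pw (an_Ad 0)).mul (C.an_pw (C.an_y n))).mul (C.an_pw (an_Ad 0)))
    · exact An.const _
    · exact ((An.const _).sub (an_Ad 0)).mul (An.const _)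
    · exact An.const _
  have := FiniteDimensional.complete ℝ L
  let q : Fin I.N → L →L[ℝ] L := fun j => I.p j * C.pj (h 0)
  have hc := fun j => C.pj_comm (I.p j) (I.p_Ad j) (I.p_symm j)
  have hq : ∀ j x y, ⟪q j x, y⟫ = ⟪x, q j y⟫ := fun j x y => by
    simp only [q, ContinuousLinearMap.mul_apply, I.p_symm, inner_pj, hc]
  let Q : (L →L[ℝ] L) →ₗ[ℝ] (L →L[ℝ] L) :=
    { toFun := fun A => ∑ j, q j * (A + star A) * q j
      map_add' := fun A B => by simp [← Finset.sum_add_distrib, mul_add, add_mul, add_add_add_comm]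
      map_smul' := fun c A => by simp [Finset.smul_sum, ← smul_add] }
  have hQ : ∀ A x y, ⟪Q A x, y⟫ = ∑ j, (⟪A (q j x), q j y⟫ + ⟪q j x, A (q j y)⟫) := fun A x y => by
    simp [Q, sum_inner, hq, inner_add_left, ContinuousLinearMap.star_eq_adjoint,
      ContinuousLinearMap.adjoint_inner_left]
  have h3 : ∀ A B, (∀ x y, ∑ j, (⟪A (q j x), q j y⟫ + ⟪q j x, A (q j y)⟫) = ⟪B x, y⟫) → Q A = B :=
    fun A B H => ContinuousLinearMap.ext fun x => ext_inner_right ℝ fun y => (hQ A x y).trans (H x y)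
  have h4 : ∀ j j' x, I.p j' (q j x) = if j' = j then q j x else 0 := fun j j' x => by
    split_ifs with e
    exacts [e ▸ I.p_idem _ _, I.p_orth _ _ e _]
  have h5 : ∀ j, q j l = if j = i then l else 0 := fun j => by
    rw [show q j l = I.p j l from congrArg _ (C.pj_of_mem h1), ← h2]
    split_ifs with e
    exacts [e ▸ I.p_idem _ _, I.p_orth _ _ e _]
  have h6 : ∀ j x, C.Ad (h 0)⁻¹ (q j x) = q j x := fun j x => by
    rw [← mem_Fix, Fix_inv, show q j x = _ from (hc j _ x).symm]; exact C.pj_mem _ _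
  rw [← Submodule.smul_mem_iff _ (two_ne_zero (α := ℝ)), ← rankOne_def,
    ← h3 (rankOne ℝ l l) ((2 : ℝ) • rankOne ℝ l l) fun x y => by
    simp only [rankOne_apply, real_inner_smul_left, real_inner_smul_right, real_inner_comm l (q _ x),
      ← hq _ l, h5, ContinuousLinearMap.smul_apply]
    rw [Finset.sum_eq_single i (fun j _ e => by simp [e]) (by simp)]
    simp only [if_true]; ring]
  refine Submodule.mem_comap.1 ((show ⊤ ≤ Submodule.comap Q _ from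
    H.1 ▸ Submodule.span_le.2 ?_) trivial)
  rintro _ ⟨n | p | p | p, rfl⟩ <;> rw [SetLike.mem_coe, Submodule.mem_comap]
  · rw [famB_inl, map_smul, h3 _ ((2 : ℝ) • (C.pj (h 0) - C.pj (h 0) * C.pj (h 1 * h 0 ^ n) * C.pj (h 0)))
      fun x y => ?_]
    · exact Submodule.smul_mem _ _ (Submodule.smul_mem _ _ (Submodule.subset_span ⟨n, rfl⟩))
    have h7 : ∀ z, ∑ j, I.p j (z - C.pj (h 1 * h 0 ^ n) z) = z - C.pj (h 1 * h 0 ^ n) z := fun z =>
      C.sum_p I (Submodule.orthogonal_le (C.Z_le_Fix _) (Submodule.sub_starProjection_mem_orthogonal z))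
    have h8 : ∀ x y, ∑ j, ⟪(C.pj (h 0) - C.pj (h 0) * C.pj (h 1 * h 0 ^ n) * C.pj (h 0)) (q j x), q j y⟫
        = ⟪C.pj (h 0) x - C.pj (h 1 * h 0 ^ n) (C.pj (h 0) x), C.pj (h 0) y⟫ := fun x y => by
      rw [← h7, sum_inner]
      refine Finset.sum_congr rfl fun j _ => ?_
      simp only [q, ContinuousLinearMap.mul_apply, ContinuousLinearMap.sub_apply, hc, pj_pj, ← map_sub,
        ← I.p_symm, I.p_idem]
      simp only [I.p_symm, inner_sub_left, ← hc, inner_pj, pj_pj]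
    simp only [Finset.sum_add_distrib, real_inner_comm _ (q _ x), h8]
    simp only [ContinuousLinearMap.mul_apply, ContinuousLinearMap.sub_apply, inner_sub_left, inner_pj,
      ContinuousLinearMap.smul_apply, real_inner_smul_left, pj_pj, real_inner_comm _ y]
    simp only [← inner_pj, pj_pj]
    ring
  all_goals rw [h3 _ 0 fun x y => ?_]; exact Submodule.zero_mem _
  · simp [famB, inner_sub_left, inner_sub_right, real_inner_smul_left, real_inner_smul_right,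
      real_inner_comm (q _ x), mul_comm]
  · simp [famB, inner_sub_left, inner_sub_right, real_inner_smul_left, real_inner_smul_right,
      inner_Ad_left, inner_Ad_right, h6]
  · simp [famB, inner_sub_left, inner_sub_right, real_inner_smul_left, real_inner_smul_right,
      sum_inner, inner_sum, I.p_symm, ← I.p_symm _ (q _ x), h4, apply_ite]

end Ctx

end Pool.Agent.Lib.MP_d52947_gt
end
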