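import Pool.Agent.Lib.MP_d52947_gt.GenB
import Pool.Agent.Lib.MP_d52947_gt.AmbB
import Pool.Agent.Lib.MP_d52947_gt.An
import Pool.Agent.Lib.MP_d52947_gt.ModelA
import Pool.Agent.Lib.MP_d52947_gt.OneA

-- part Pool.Agent.Lib.MP_d52947_gt.GenF
section

/-! Tensor square of the adjoint representation; a substitute for density of powers in a torus. -/

namespace Pool.Agent.Lib.MP_d52947_gt

open Filter Topology Module TensorProduct
open scoped RealInnerProductSpace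

theorem rep_fix {K V : Type} [Group K] [TopologicalSpace K] [IsTopologicalGroup K] [CompactSpace K]
    [NormedAddCommGroup V] [NormedSpace ℝ V] [FiniteDimensional ℝ V] (ρ : K →* V →L[ℝ] V)
    (hρ : Continuous ρ) {c : K} (hc : ∀ k, finrank ℝ (LinearMap.ker (1 - ρ c).toLinearMap) ≤
      finrank ℝ (LinearMap.ker (1 - ρ k).toLinearMap)) {γ : ℝ → K} (h1 : Continuous γ) (h2 : γ 0 = 1)
    (h3 : ∀ r, c * γ r = γ r * c) : ∀ᶠ r in 𝓝 0, ∀ v, ρ c v = v → ρ (γ r) v = v := by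
  have h4 : ∀ v w, v - ρ c v = w → ρ c w = w → w = 0 := fun v w e e' => by
    have h5 : ∀ n : ℕ, ρ (c ^ n) v = v - (n : ℝ) • w := fun n => by
      induction n with
      | zero => simp
      | succ n ih =>
        rw [pow_succ', map_mul, ContinuousLinearMap.mul_apply, ih, map_sub, map_smul, e',
          show ρ c v = v - w by rw [← e, sub_sub_cancel]]
        push_cast; module
    obtain ⟨B, hB⟩ := (isCompact_range (f := fun k => v - ρ k v)
      (continuous_const.sub (hρ.clm_apply continuous_const))).isBounded.exists_norm_le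
    by_contra h
    obtain ⟨n, hn⟩ := exists_nat_gt (B / ‖w‖)
    have := hB _ ⟨c ^ n, rfl⟩
    simp only [h5, sub_sub_cancel, norm_smul, Real.norm_natCast] at this
    exact absurd ((div_lt_iff₀ (norm_pos_iff.2 h)).1 hn) this.not_gt
  let R := LinearMap.range (1 - ρ c).toLinearMap
  have h5 := (isOpen_ker_le (f := fun r => (1 - ρ (c * γ r)) ∘L R.subtypeL)
    ((continuous_const.sub (hρ.comp (continuous_const.mul h1))).clm_comp continuous_const) 0).mem_nhds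
    (x := 0) (by
      rw [Set.mem_setOf_eq, Nat.le_zero, Submodule.finrank_eq_zero, LinearMap.ker_eq_bot']
      rintro ⟨_, v, rfl⟩ hw
      rw [h2, mul_one] at hw
      exact Subtype.ext (h4 v _ rfl (sub_eq_zero.1 hw).symm))
  filter_upwards [h5] with r hr v hv
  rw [Nat.le_zero, Submodule.finrank_eq_zero, LinearMap.ker_eq_bot'] at hr
  have h6 : LinearMap.ker (1 - ρ (c * γ r)).toLinearMap = LinearMap.ker (1 - ρ c).toLinearMap :=
    Submodule.eq_of_le_of_finrank_le (fun z hz => congrArg Subtype.val (hr ⟨_, z, rfl⟩ (by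
      have h7 : ρ (c * γ r) z = z := (sub_eq_zero.1 hz).symm
      change z - ρ c z - ρ (c * γ r) (z - ρ c z) = 0
      rw [map_sub, ← ContinuousLinearMap.mul_apply (ρ _) (ρ c), ← map_mul, mul_assoc, ← h3,
        map_mul ρ c (c * _), ContinuousLinearMap.mul_apply, h7, sub_self]))) (hc _)
  have h7 : v = ρ (c * γ r) v := sub_eq_zero.1 (h6.ge (show v - ρ c v = 0 by rw [hv, sub_self]))
  rw [h3, map_mul, ContinuousLinearMap.mul_apply, hv] at h7
  exact h7.symm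

section
variable (L : Type) [NormedAddCommGroup L] [InnerProductSpace ℝ L] [FiniteDimensional ℝ L]

/-- tensor square -/
def TT : Type := L ⊗[ℝ] L

noncomputable instance : NormedAddCommGroup (TT L) := inferInstanceAs (NormedAddCommGroup (L ⊗[ℝ] L))

noncomputable instance : InnerProductSpace ℝ (TT L) :=
  inferInstanceAs (InnerProductSpace ℝ (L ⊗[ℝ] L))

instance : FiniteDimensional ℝ (TT L) := inferInstanceAs (FiniteDimensional ℝ (L ⊗[ℝ] L))

/-- pure tensors -/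
noncomputable def tm {L : Type} [NormedAddCommGroup L] [InnerProductSpace ℝ L] :
    L →ₗ[ℝ] L →ₗ[ℝ] TT L := TensorProduct.mk ℝ L L

/-- action on the first factor -/
noncomputable def rT : (L →L[ℝ] L) →L[ℝ] (TT L →L[ℝ] TT L) :=
  LinearMap.toContinuousLinearMap
    { toFun := fun A => A.rTensor L, map_add' := ContinuousLinearMap.rTensor_add L,
      map_smul' := ContinuousLinearMap.rTensor_smul L }

/-- action on the second factor -/
noncomputable def lT : (L →L[ℝ] L) →L[ℝ] (TT L →L[ℝ] TT L) :=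
  LinearMap.toContinuousLinearMap
    { toFun := fun A => A.lTensor L, map_add' := ContinuousLinearMap.lTensor_add L,
      map_smul' := ContinuousLinearMap.lTensor_smul L }

/-- the tensor of an endomorphism -/
noncomputable def ten : (L →L[ℝ] L) →L[ℝ] TT L := (rT L).flip
  (∑ j, tm (stdOrthonormalBasis ℝ L j) (stdOrthonormalBasis ℝ L j))

variable {L}

@[simp] theorem rT_tmul (A : L →L[ℝ] L) (x y : L) : rT L A (tm x y) = tm (A x) y := rfl

@[simp] theorem lT_tmul (A : L →L[ℝ] L) (x y : L) : lT L A (tm x y) = tm x (A y) := rfl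

@[simp] theorem inner_tm (x y z w : L) : ⟪tm x y, tm z w⟫ = ⟪x, z⟫ * ⟪y, w⟫ :=
  TensorProduct.inner_tmul ℝ x z y w

theorem tm_top (N : Submodule ℝ (TT L)) (h : ∀ x y, tm x y ∈ N) (u : TT L) : u ∈ N :=
  TensorProduct.induction_on (motive := fun u : L ⊗[ℝ] L => (show TT L from u) ∈ N) u N.zero_mem h
    fun _ _ => N.add_mem

theorem tm_ext {u v : TT L} (h : ∀ x y, ⟪u, tm x y⟫ = ⟪v, tm x y⟫) : u = v :=
  ext_inner_right ℝ (tm_top (LinearMap.eqLocus (innerₗ _ u) (innerₗ _ v)) h)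

theorem inner_ten (P : L →L[ℝ] L) (x y : L) : ⟪ten L P, tm x y⟫ = ⟪P y, x⟫ := by
  conv_rhs => rw [← (stdOrthonormalBasis ℝ L).sum_repr' y]
  simp [ten, sum_inner, real_inner_smul_left, mul_comm]

theorem inner_ten_ten (P Q : L →L[ℝ] L) : ⟪ten L P, ten L Q⟫ =
    ∑ j, ⟪P (stdOrthonormalBasis ℝ L j), Q (stdOrthonormalBasis ℝ L j)⟫ := by
  rw [show ten L Q = ∑ j, tm (Q (stdOrthonormalBasis ℝ L j)) (stdOrthonormalBasis ℝ L j) by simp [ten]]
  simp only [inner_sum, inner_ten]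

theorem clm_ext {A B : TT L →L[ℝ] TT L} (h : ∀ x y, A (tm x y) = B (tm x y)) : A = B :=
  ContinuousLinearMap.ext (tm_top (LinearMap.eqLocus A.toLinearMap B.toLinearMap) h)

theorem adj_ext {A B : TT L →L[ℝ] TT L}
    (h : ∀ x y z w, ⟪A (tm x y), tm z w⟫ = ⟪tm x y, B (tm z w)⟫) (u v) : ⟪A u, v⟫ = ⟪u, B v⟫ := by
  have h1 : ∀ z w u, ⟪tm z w, A u⟫ = ⟪B (tm z w), u⟫ := fun z w =>
    tm_top (LinearMap.eqLocus (innerₗ _ (tm z w) ∘ₗ A.toLinearMap) (innerₗ _ (B (tm z w)))) fun x y =>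
      (real_inner_comm _ _).trans ((h x y z w).trans (real_inner_comm _ _))
  exact tm_top (LinearMap.eqLocus (innerₗ _ (A u)) (innerₗ _ u ∘ₗ B.toLinearMap)) (fun z w =>
    (real_inner_comm _ _).trans ((h1 z w u).trans (real_inner_comm _ _))) v

end

namespace Ctx
variable {L : Type} [NormedAddCommGroup L] [InnerProductSpace ℝ L] [FiniteDimensional ℝ L]
  {K : Type} [Group K] [TopologicalSpace K] [IsTopologicalGroup K] [CompactSpace K]
  [ConnectedSpace K] (C : Ctx L K) {s t : Submodule ℝ L}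

/-- the group acting on the tensor square -/
noncomputable def U : K →* (TT L →L[ℝ] TT L) where
  toFun k := rT L (C.Ad k) * lT L (C.Ad k)
  map_one' := clm_ext fun x y => by simp
  map_mul' a b := clm_ext fun x y => by simp

/-- the Lie algebra acting on the tensor square -/
noncomputable def dU : L →L[ℝ] (TT L →L[ℝ] TT L) := rT L ∘L C.ad + lT L ∘L C.ad

theorem U_tmul (k : K) (x y : L) : C.U k (tm x y) = tm (C.Ad k x) (C.Ad k y) := rfl

theorem dU_tmul (ξ x y : L) : C.dU ξ (tm x y) = tm (C.ad ξ x) y + tm x (C.ad ξ y) := rfl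

theorem inner_U (k : K) (u v) : ⟪C.U k u, v⟫ = ⟪u, C.U k⁻¹ v⟫ :=
  adj_ext (fun x y z w => by simp [U_tmul, inner_Ad_left]) u v

theorem inner_dU (ξ : L) (u v) : ⟪C.dU ξ u, v⟫ = -⟪u, C.dU ξ v⟫ :=
  (adj_ext (B := -C.dU ξ) (fun x y z w => by
    simp [dU_tmul, C.inner_ad, inner_add_left, inner_add_right, add_comm]) u v).trans (by simp)

theorem dU_ten (ξ : L) (P : L →L[ℝ] L) : C.dU ξ (ten L P) = ten L (C.ad ξ * P - P * C.ad ξ) :=
  tm_ext fun x y => by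
    simp only [inner_dU, dU_tmul, inner_add_right, inner_ten, ContinuousLinearMap.sub_apply,
      ContinuousLinearMap.mul_apply, inner_sub_left, C.inner_ad]
    ring

theorem U_ten (k : K) (P : L →L[ℝ] L) : C.U k (ten L P) = ten L (C.Ad k * P * C.Ad k⁻¹) :=
  tm_ext fun x y => by
    simp only [inner_U, U_tmul, inner_ten, ContinuousLinearMap.mul_apply, inner_Ad_left]

theorem hasDerivAt_U (ξ : L) : HasDerivAt (fun r : ℝ => C.U (C.ex (r • ξ))) (C.dU ξ) 0 := by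
  have := FiniteDimensional.complete ℝ L
  have h : HasDerivAt (fun r : ℝ => C.Ad (C.ex (r • ξ))) (C.ad ξ) 0 := by
    simpa [C.Ad_ex] using hasDerivAt_exp0 (C.ad ξ)
  refine (((rT L).hasFDerivAt.comp_hasDerivAt _ h).fun_mul
    ((lT L).hasFDerivAt.comp_hasDerivAt _ h)).congr_deriv ?_
  exact clm_ext fun x y => by simp [dU_tmul, C.ex_zero]

/-- conjugation action on endomorphisms of the tensor square -/
noncomputable def V : K →* ((TT L →L[ℝ] TT L) →L[ℝ] (TT L →L[ℝ] TT L)) where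
  toFun k := ContinuousLinearMap.mulLeftRight ℝ _ (C.U k) (C.U k⁻¹)
  map_one' := by ext1; simp
  map_mul' a b := by ext1; simp [mul_assoc]

/-- every invariant subspace of `c` is invariant under its torus -/
def Kr (c : K) : Prop := ∀ D : Submodule ℝ (TT L), (∀ w ∈ D, C.U c w ∈ D) →
  ∀ ξ ∈ C.Fix c, ∀ w, D.starProjection (C.dU ξ w) = C.dU ξ (D.starProjection w)

theorem Kr_of_min {c : K} (hc : ∀ k, finrank ℝ (LinearMap.ker (1 - C.V c).toLinearMap) ≤
    finrank ℝ (LinearMap.ker (1 - C.V k).toLinearMap)) : C.Kr c := fun D hD ξ hξ w => by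
  have hU : Continuous C.U := ((rT L).continuous.comp C.cont_Ad).mul ((lT L).continuous.comp C.cont_Ad)
  have h1 : ∀ w ∈ D, C.U c⁻¹ w ∈ D := fun w hw => by
    have hi : Function.Injective (C.U c).toLinearMap := fun u v e => by
      simpa [← ContinuousLinearMap.mul_apply, ← map_mul] using congrArg (C.U c⁻¹) e
    obtain ⟨y, hy, rfl⟩ := (Submodule.eq_of_le_of_finrank_le (Submodule.map_le_iff_le_comap.2 hD)
      (LinearEquiv.finrank_eq (Submodule.equivMapOfInjective _ hi D)).le).ge hw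
    simpa [← ContinuousLinearMap.mul_apply, ← map_mul] using hy
  have h2 := rep_fix C.V (((ContinuousLinearMap.mulLeftRight ℝ _).continuous.comp hU).clm_apply
    (hU.comp continuous_inv)) hc (γ := fun r => C.ex (r • ξ)) (C.cont_ex.comp (by fun_prop))
    (by simp [C.ex_zero]) fun r => C.ex_comm (Submodule.smul_mem _ r hξ)
  have h3 : C.V c D.starProjection = D.starProjection := ContinuousLinearMap.ext fun w => by
    change C.U c (D.starProjection (C.U c⁻¹ w)) = _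
    rw [← proj_comm _ hD fun y hy z hz => by rw [real_inner_comm, inner_U, real_inner_comm, hy _ (h1 z hz)],
      ← ContinuousLinearMap.mul_apply (C.U c), ← map_mul]
    simp
  have h4 := (C.hasDerivAt_U ξ).clm_apply (hasDerivAt_const 0 (D.starProjection w))
  have h5 := D.starProjection.hasFDerivAt.comp_hasDerivAt _
    ((C.hasDerivAt_U ξ).clm_apply (hasDerivAt_const 0 w))
  simpa using (h5.congr_of_eventuallyEq (h2.mono fun r hr => by
    have := congrArg (· (C.U (C.ex (r • ξ)) w)) (hr _ h3)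
    simpa [V, ← ContinuousLinearMap.mul_apply (C.U _⁻¹), ← map_mul] using this)).unique h4

theorem cox_surj (ht : C.IsMaxAb t) {n : K} (h1 : ∀ ξ ∈ t, C.Ad n ξ ∈ t)
    (h2 : ∀ ξ ∈ t, C.Ad n ξ = ξ → ξ ∈ C.Z) {τ : L} (hτ : τ ∈ t) :
    ∃ σ ∈ t, C.Ad (n * C.ex σ * n⁻¹ * (C.ex σ)⁻¹) = C.Ad (C.ex τ) := by
  obtain ⟨η, h3⟩ := C.exists_sub_Ad (k := n) (y := C.pj n τ - τ) (by rw [map_sub, pj_pj, sub_self])
  have h4 := proj_comm (C.Ad n) h1 fun y hy z hz => by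
    rw [inner_Ad_right, hy _ (C.norm_inv h1 z hz)]
  have h5 := congrArg t.starProjection h3
  rw [map_sub, map_sub, h4, Submodule.starProjection_eq_self_iff.2 hτ] at h5
  have h6 := h2 _ (t.starProjection_apply_mem (C.pj n τ)) (by rw [← h4, C.mem_Fix.1 (C.pj_mem _ _)])
  have h7 := t.starProjection_apply_mem η
  refine ⟨_, h7, ?_⟩
  rw [C.ex_conj, ← ex_neg, ← C.ex_add _ _ (ht.ab _ (h1 _ h7) _ (t.neg_mem h7)), C.Ad_ex, C.Ad_ex,
    ← sub_eq_add_neg, ← neg_sub, ← h5, neg_sub, map_sub, C.mem_Z.1 h6, sub_zero]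

theorem maxAb_conj {t' : Submodule ℝ L} (ht : C.IsMaxAb t) (ht' : C.IsMaxAb t') :
    ∃ k, ∀ x, x ∈ t ↔ C.Ad k x ∈ t' := by
  obtain ⟨ξ, h1, h2⟩ := C.exists_Fix_eq ht
  obtain ⟨k, hk⟩ := C.hunt ht' ξ
  have h3 : t'.map (C.Ad k⁻¹).toLinearMap = t := Submodule.eq_of_le_of_finrank_le (by
    rintro _ ⟨y, hy, rfl⟩
    rw [← h2, mem_Fix]
    exact C.Ad_ex_fix (by simpa [C.Ad_ad] using congrArg (C.Ad k⁻¹) (ht'.ab _ hk _ hy)))
    (by rw [finrank_map_Ad, C.finrank_maxAb ht, C.finrank_maxAb ht'])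
  refine ⟨k, fun x => ⟨fun h => ?_, fun h => h3.le ⟨_, h, by simp⟩⟩⟩
  obtain ⟨y, hy, rfl⟩ := h3.ge h
  simpa using hy

theorem an_comm : C.An fun h : Fin 2 → K => C.Ad (h 0 * h 1 * (h 0)⁻¹ * (h 1)⁻¹) := by
  simpa using (((an_Ad (C := C) (0 : Fin 2)).mul (an_Ad 1)).mul (an_Ad_inv 0)).mul (an_Ad_inv 1)

variable [MeasurableSpace L] [BorelSpace L]

theorem generic_V {G : Type} [Fintype G] {f : (G → K) → K} (h1 : C.An fun x => C.Ad (f x))
    (h2 : C.An fun x => C.Ad (f x)⁻¹) (x₀ : G → K) : C.Generic fun x =>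
      finrank ℝ (LinearMap.ker (1 - C.V (f x)).toLinearMap) ≤
        finrank ℝ (LinearMap.ker (1 - C.V (f x₀)).toLinearMap) := by
  have h3 : ∀ k, ⨅ n : Dual ℝ _, LinearMap.ker (n ∘ₗ (1 - C.V k).toLinearMap) =
      LinearMap.ker (1 - C.V k).toLinearMap := fun k => by
    ext v
    simp only [Submodule.mem_iInf, LinearMap.mem_ker, LinearMap.comp_apply,
      Module.forall_dual_apply_eq_zero_iff]
  refine (C.generic_rank (fun (n : Dual ℝ _) x => n ∘ₗ (1 - C.V (f x)).toLinearMap) (fun n v =>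
    ((An.const v).sub ((((h1.clm (rT L)).mul (h1.clm (lT L))).mul (An.const v)).mul
      ((h2.clm (rT L)).mul (h2.clm (lT L))))).clm n.toContinuousLinearMap) x₀).mono fun x H => ?_
  rwa [h3, h3] at H

theorem generic_Kr : C.Generic fun h : Fin 2 → K => C.Kr (h 0 * h 1 * (h 0)⁻¹ * (h 1)⁻¹) := by
  obtain ⟨k₀, hk⟩ : ∃ k₀, ∀ k, finrank ℝ (LinearMap.ker (1 - C.V k₀).toLinearMap) ≤
      finrank ℝ (LinearMap.ker (1 - C.V k).toLinearMap) :=
    ⟨_, fun k => Function.argmin_le (fun k => finrank ℝ (LinearMap.ker (1 - C.V k).toLinearMap)) k⟩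
  obtain ⟨ξ, hξ⟩ := (C.generic_V (G := Unit) (an_Ad ()) (an_Ad_inv ()) fun _ => k₀).exists
  obtain ⟨t, ht⟩ := C.exists_maxAb_ge (s := Submodule.span ℝ {ξ ()}) fun x hx y hy => by
    obtain ⟨a, rfl⟩ := Submodule.mem_span_singleton.1 hx
    obtain ⟨b, rfl⟩ := Submodule.mem_span_singleton.1 hy
    simp [C.ad_self]
  obtain ⟨n, -, h1, h2, -⟩ := C.coxeter ht.2
  obtain ⟨σ, -, h3⟩ := C.cox_surj ht.2 h1 h2 (ht.1 (Submodule.mem_span_singleton_self _))
  have h4 : ∀ a b, C.Ad a = C.Ad b → C.V a = C.V b := fun a b e => by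
    have : C.Ad a⁻¹ = C.Ad b⁻¹ := by
      ext x; conv_lhs => rw [← C.Ad_Ad_inv b x, ← e, Ad_inv_Ad]
    simp only [V, U, MonoidHom.coe_mk, OneHom.coe_mk, e, this]
  refine (C.generic_V C.an_comm (by
    simpa [mul_assoc] using (an_Ad (C := C) (1 : Fin 2)).mul ((an_Ad 0).mul
      ((an_Ad_inv 1).mul (an_Ad_inv 0)))) ![n, C.ex σ]).mono fun h H => C.Kr_of_min fun k => ?_
  exact H.trans ((h4 _ _ h3 ▸ hξ).trans (hk k))

end Ctx

end Pool.Agent.Lib.MP_d52947_gt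
end

-- part Pool.Agent.Lib.MP_d52947_gt.GenG
section

/-! Doubled long roots in the tensor square. -/

namespace Pool.Agent.Lib.MP_d52947_gt

open Filter Topology Module
open scoped RealInnerProductSpace

theorem dbl {L : Type} [NormedAddCommGroup L] [InnerProductSpace ℝ L] {α α' : L} {r : ℝ}
    (h : ‖α‖ ≤ r) (h' : ‖α'‖ ≤ r) (e : ‖α + α'‖ ^ 2 = 4 * r ^ 2) : α' = α ∧ ‖α‖ = r := by
  have h1 := parallelogram_law_with_norm ℝ α α'
  have h2 := norm_nonneg α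
  have h3 := norm_nonneg α'
  have h4 : α - α' = 0 := norm_eq_zero.1 (pow_eq_zero_iff two_ne_zero |>.1
    (le_antisymm (by nlinarith) (sq_nonneg _)))
  rw [sub_eq_zero] at h4
  subst h4
  exact ⟨rfl, (sq_eq_sq₀ h2 (h2.trans h)).1 (by simp only [sub_self, norm_zero] at h1; nlinarith)⟩

theorem exp_two {A : Type} [NormedRing A] [NormedAlgebra ℝ A] [CompleteSpace A] (D : A)
    (φ : A →L[ℝ] ℝ) (h : ∀ᶠ r : ℝ in 𝓝 0, φ (NormedSpace.exp (r • D)) = 0) : φ (D * D) = 0 := by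
  have h1 : ∀ φ : A →L[ℝ] ℝ, (∀ᶠ r : ℝ in 𝓝 0, φ (NormedSpace.exp (r • D)) = 0) →
      ∀ᶠ r : ℝ in 𝓝 0, (φ ∘L (ContinuousLinearMap.mul ℝ A).flip D) (NormedSpace.exp (r • D)) = 0 :=
    fun φ h => h.eventually_nhds.mono fun r hr =>
      (φ.hasFDerivAt.comp_hasDerivAt _ (hasDerivAt_exp_smul_const (𝕂 := ℝ) D r)).unique
        ((hasDerivAt_const r 0).congr_of_eventuallyEq hr)
  simpa using (h1 _ (h1 _ h)).self_of_nhds

namespace Ctx
variable {L : Type} [NormedAddCommGroup L] [InnerProductSpace ℝ L] [FiniteDimensional ℝ L]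
  {K : Type} [Group K] [TopologicalSpace K] [IsTopologicalGroup K] [CompactSpace K]
  [ConnectedSpace K] (C : Ctx L K) {s t : Submodule ℝ L}

/-- weight pairs in the tensor square -/
def GP (t : Submodule ℝ L) (l : L) (A B : TT L) : Prop :=
  l ∈ t ∧ ∀ ξ ∈ t, C.dU ξ A = -(⟪l, ξ⟫ • B) ∧ C.dU ξ B = ⟪l, ξ⟫ • A

/-- equivariant bilinear maps -/
def Der (T : L →ₗ[ℝ] L →ₗ[ℝ] TT L) : Prop :=
  ∀ ξ x y, C.dU ξ (T x y) = T (C.ad ξ x) y + T x (C.ad ξ y)

/-- long roots of a simple ideal -/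
def Lg (I : C.Ideals) (i : Fin I.N) (t : Submodule ℝ L) (β : L) : Prop :=
  β ∈ C.Wt t ∧ I.p i β = β ∧ ∀ α ∈ C.Wt t, I.p i α = α → ‖α‖ ≤ ‖β‖

/-- the matrix coefficient between opposite root spaces does not vanish -/
def NV (P : L →L[ℝ] L) (X Y : L) : Prop :=
  ⟪ten L P, tm X X - tm Y Y⟫ ≠ 0 ∨ ⟪ten L P, tm X Y + tm Y X⟫ ≠ 0

variable {C} {I : C.Ideals} {i : Fin I.N} {l m α α' β X Y X' Y' : L} {A B A' B' : TT L}

theorem Der.gp {T : L →ₗ[ℝ] L →ₗ[ℝ] TT L} (hT : C.Der T) (h : C.WP t α X Y) (h' : C.WP t α' X' Y') :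
    C.GP t (α + α') (T X X' - T Y Y') (T X Y' + T Y X') := ⟨t.add_mem h.1 h'.1, fun ξ hξ => by
  simp only [map_add, map_sub, hT ξ, h.2 ξ hξ, h'.2 ξ hξ, map_neg, map_smul, inner_add_left,
    LinearMap.neg_apply, LinearMap.smul_apply]
  constructor <;> module⟩

theorem GP.neg (h : C.GP t l A B) : C.GP t (-l) A (-B) :=
  ⟨t.neg_mem h.1, fun ξ hξ => by simp [h.2 ξ hξ]⟩

theorem GP.rot (h : C.GP t l A B) : C.GP t l (-B) A := ⟨h.1, fun ξ hξ => by simp [h.2 ξ hξ]⟩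

theorem GP.comb (h : C.GP t l A B) (h' : C.GP t l A' B') (a b : ℝ) :
    C.GP t l (A - (a • A' - b • B')) (B - (b • A' + a • B')) := ⟨h.1, fun ξ hξ => by
  simp only [map_add, map_sub, map_smul, h.2 ξ hξ, h'.2 ξ hξ]
  constructor <;> module⟩

theorem GP.rel (h : C.GP t l A B) (h' : C.GP t m A' B') {ξ : L} (hξ : ξ ∈ t) :
    ⟪l, ξ⟫ * ⟪A, A'⟫ = ⟪m, ξ⟫ * ⟪B, B'⟫ := by
  simpa [h.2 ξ hξ, h'.2 ξ hξ, inner_smul_left, inner_smul_right] using C.inner_dU ξ B A'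

theorem GP.orth (h : C.GP t l A B) (h' : C.GP t m A' B') (hne : l ≠ m) :
    ⟪A, A'⟫ + ⟪B, B'⟫ = 0 := by
  have h1 := h.rel h' (t.sub_mem h.1 h'.1)
  have h2 := h'.rel h (t.sub_mem h.1 h'.1)
  refine (mul_eq_zero.1 ?_).resolve_left (inner_self_ne_zero (𝕜 := ℝ).2 (sub_ne_zero.2 hne))
  rw [inner_sub_left, real_inner_comm A', real_inner_comm B'] at *
  linarith

theorem GP.orth' (h : C.GP t l A B) (h' : C.GP t m A' B') (hne : l ≠ m) (hne' : l ≠ -m) :
    ⟪A, A'⟫ = 0 := by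
  have h1 := h.orth h' hne
  have h2 := h.orth h'.neg hne'
  rw [inner_neg_right] at h2
  linarith

theorem WP.blk (ht : C.IsMaxAb t) (h : C.WP t α X Y) (hX : I.p i X ≠ 0) :
    α ∈ insert 0 (C.Wt t) ∧ I.p i α = α :=
  ⟨or_iff_not_imp_left.2 fun e => ⟨e, X, Y, fun e' => hX (by simp [e']), h⟩, h.ideal (ht.p_mem I) hX⟩

theorem WP.p_eq (ht : C.IsMaxAb t) (h : C.WP t β X Y) (h0 : β ≠ 0) (hβ : I.p i β = β) :
    I.p i X = X := by
  conv_rhs => rw [← C.sum_p I (v := X) fun z hz => by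
    rw [real_inner_comm, h.perp_s ht.ab h0 (ht.Z_le hz)]]
  refine (Finset.sum_eq_single (f := fun j => I.p j X) i (fun j _ e => by_contra fun h1 => h0 ?_)
    (by simp)).symm
  rw [← h.ideal (ht.p_mem I) h1, ← hβ, I.p_orth j i e]

theorem iso0 (ht : C.IsMaxAb t) (hβ : C.Lg I i t β) (h : C.WP t β X Y) (hX : X ≠ 0)
    (H : C.GP t (β + β) A B) (hA : ∀ x y, ⟪A, tm (I.p i x) (I.p i y)⟫ = ⟪A, tm x y⟫)
    (h1 : ⟪A, tm X X - tm Y Y⟫ = 0) (h2 : ⟪A, tm X Y + tm Y X⟫ = 0) : A = 0 := by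
  have h3 : ∀ {α α' X₁ Y₁ X₂ Y₂}, C.WP t α X₁ Y₁ → C.WP t α' X₂ Y₂ → ‖α‖ ≤ ‖β‖ → ‖α'‖ ≤ ‖β‖ →
      α + α' = β + β → ⟪A, tm X₁ X₂ - tm Y₁ Y₂⟫ = 0 := fun {α α' _ _ _ _} a b c d e => by
    obtain ⟨rfl, -⟩ := dbl c d (by rw [e, ← two_smul ℝ, norm_smul]; simp; ring)
    obtain rfl : α' = β := smul_right_injective L (two_ne_zero (α := ℝ)) (by simpa [two_smul] using e)
    obtain ⟨a₁, b₁, rfl, rfl⟩ := C.mult_one ht hβ.1.1 hX h a
    obtain ⟨a₂, b₂, rfl, rfl⟩ := C.mult_one ht hβ.1.1 hX h b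
    simp only [map_add, map_sub, map_smul, LinearMap.add_apply, LinearMap.sub_apply,
      LinearMap.smul_apply, inner_add_right, inner_sub_right, real_inner_smul_right] at h1 h2 ⊢
    linear_combination (a₁ * a₂ - b₁ * b₂) * h1 - (a₁ * b₂ + b₁ * a₂) * h2
  have h4 : ∀ {α α' X₁ Y₁ X₂ Y₂}, C.WP t α X₁ Y₁ → C.WP t α' X₂ Y₂ → ‖α‖ ≤ ‖β‖ → ‖α'‖ ≤ ‖β‖ →
      ⟪A, tm X₁ X₂ - tm Y₁ Y₂⟫ = 0 := fun {α α' _ _ _ _} a b c d => by
    by_cases e : α + α' = β + β
    · exact h3 a b c d e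
    by_cases e' : β + β = -(α + α')
    · simpa using h3 a.neg b.neg (by simpa) (by simpa) (by rw [e', neg_add])
    exact H.orth' (Der.gp C.dU_tmul a b) (Ne.symm e) e'
  have h5 : ∀ {α X Y}, C.WP t α X Y → I.p i X ≠ 0 → ‖α‖ ≤ ‖β‖ := fun a b =>
    (a.blk ht b).1.elim (fun e => by simp [e]) fun e => hβ.2.2 _ e (a.blk ht b).2
  refine tm_ext fun x y => ?_
  rw [inner_zero_left]
  refine C.WP_top ht.ab (LinearMap.ker (innerₗ _ A ∘ₗ tm.flip y)) (fun α X₁ Y₁ a => ?_) x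
  refine C.WP_top ht.ab (LinearMap.ker (innerₗ _ A ∘ₗ tm X₁)) (fun α' X₂ Y₂ b => ?_) y
  change ⟪A, tm X₁ X₂⟫ = 0
  by_cases e : I.p i X₁ = 0
  · simp [← hA X₁, e]
  by_cases e' : I.p i X₂ = 0
  · simp [← hA X₁, e']
  have h6 := h4 a b (h5 a e) (h5 b e')
  have h7 := h4 a b.neg (h5 a e) (by simpa using h5 b e')
  simp only [map_neg, inner_sub_right, inner_neg_right] at h6 h7
  linarith

theorem iso (ht : C.IsMaxAb t) (hβ : C.Lg I i t β) (h : C.WP t β X Y) (hX : X ≠ 0)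
    (H : C.GP t (β + β) A B) (hA : ∀ x y, ⟪A, tm (I.p i x) (I.p i y)⟫ = ⟪A, tm x y⟫) :
    ∃ a b : ℝ, A = a • (tm X X - tm Y Y) - b • (tm X Y + tm Y X) ∧
      B = b • (tm X X - tm Y Y) + a • (tm X Y + tm Y X) := by
  have h1 := H.comb (Der.gp C.dU_tmul h h) (⟪A, tm X X - tm Y Y⟫ / (2 * ⟪X, X⟫ * ⟪X, X⟫))
    (-⟪A, tm X Y + tm Y X⟫ / (2 * ⟪X, X⟫ * ⟪X, X⟫))
  have h2 := h.p_eq ht hβ.1.1 hβ.2.1
  have h3 : I.p i Y = Y := by simpa using h.rot.p_eq ht hβ.1.1 hβ.2.1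
  have h4 := inner_self_ne_zero (𝕜 := ℝ).2 hX
  have h5 := iso0 ht hβ h hX h1 (fun x y => by
    simp only [inner_sub_left, inner_add_left, real_inner_smul_left, hA, inner_tm, ← I.p_symm, h2, h3])
    (by
      generalize ⟪A, tm X Y + tm Y X⟫ = u
      simp only [inner_sub_left, inner_add_left, real_inner_smul_left, inner_sub_right, inner_tm,
        h.perp hβ.1.1, real_inner_comm X Y, ← h.same h hβ.1.1]
      field_simp; ring)
    (by
      generalize ⟪A, tm X X - tm Y Y⟫ = u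
      simp only [inner_sub_left, inner_add_left, real_inner_smul_left, inner_add_right, inner_tm,
        h.perp hβ.1.1, real_inner_comm X Y, ← h.same h hβ.1.1]
      field_simp; ring)
  refine ⟨_, _, sub_eq_zero.1 h5, sub_eq_zero.1 ((inner_self_eq_zero (𝕜 := ℝ)).1 ?_)⟩
  have h6 := h1.rel h1 h1.1
  rw [h5, inner_zero_left, mul_zero] at h6
  exact (mul_eq_zero.1 h6.symm).resolve_left (inner_self_ne_zero.2 (by
    simpa [← two_smul ℝ β] using hβ.1.1))

theorem two_core {c b q : K} (hc : C.Reg c) (hK : C.Kr c) (hβ : C.Lg I i (C.Fix c) β)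
    (h : C.WP (C.Fix c) β X Y) (hX : X ≠ 0) (hb : NV (C.Ad b) X Y) (hq : NV (C.Ad q) X Y)
    {ζ : L} (hζ : ζ ∈ C.Fix c)
    (H : ∀ n : ℕ, ζ - C.Ad q ζ ∈ (C.Fix (q * (c ^ n * b * (c ^ n)⁻¹)))ᗮ) : ⟪β, ζ⟫ = 0 := by
  have h1 : ∀ ζ q b, ⟪C.dU ζ (ten L (C.Ad q⁻¹)), ten L (I.p i * C.Ad b)⟫ =
      -⟪ten L (C.ad (ζ - C.Ad q ζ)), ten L (I.p i * C.Ad (q * b))⟫ := fun ζ q b => by
    simp only [dU_ten, inner_ten_ten, ← Finset.sum_neg_distrib]
    refine Finset.sum_congr rfl fun j _ => ?_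
    rw [← C.inner_Ad q]
    simp [C.Ad_ad, I.p_Ad, inner_sub_left]
  let D := Submodule.span ℝ (Set.range fun n : ℕ => C.U (c ^ n) (ten L (I.p i * C.Ad b)))
  have h2 : ∀ n : ℕ, C.U (c ^ n) (ten L (I.p i * C.Ad b)) =
      ten L (I.p i * C.Ad (c ^ n * b * (c ^ n)⁻¹)) := fun n => by
    rw [U_ten]; congr 1; ext x; simp [I.p_Ad, -map_pow]
  have h3 : C.dU ζ (ten L (C.Ad q⁻¹)) ∈ Dᗮ := by
    rw [Submodule.mem_orthogonal']
    refine fun u hu => Submodule.span_le (p := LinearMap.ker (innerₗ (TT L) _)).2 ?_ hu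
    rintro _ ⟨n, rfl⟩
    obtain ⟨η, e⟩ := C.exists_sub_Ad (C.pj_eq_zero_iff.2 (H n))
    have h4 := h1 η (q * (c ^ n * b * (c ^ n)⁻¹)) 1
    rw [inner_dU, dU_ten, show C.ad η * (I.p i * C.Ad 1) - I.p i * C.Ad 1 * C.ad η = 0 by
      ext x; simp [I.p_ad], map_zero, inner_zero_right, mul_one] at h4
    simp only [h2, SetLike.mem_coe, LinearMap.mem_ker, innerₗ_apply_apply]
    rw [h1, e, ← h4, neg_zero]
  have hE := Der.gp C.dU_tmul h h
  have h4 := hK D (Submodule.span_le (p := D.comap (C.U c).toLinearMap).2 (by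
    rintro _ ⟨n, rfl⟩
    exact Submodule.subset_span ⟨n + 1, by simp [pow_succ']⟩))
  obtain ⟨a, a', h5, h6⟩ := iso hc.maxAb hβ h hX (A := D.starProjection (tm X X - tm Y Y))
    (B := D.starProjection (tm X Y + tm Y X))
    ⟨hE.1, fun ξ hξ => by simp only [← h4 ξ hξ, hE.2 ξ hξ, map_neg, map_smul, and_self]⟩ fun x y => by
      rw [← sub_eq_zero, ← inner_sub_right, real_inner_comm]
      refine Submodule.span_le (p := LinearMap.ker (innerₗ (TT L) _)).2 ?_ (D.starProjection_apply_mem _)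
      rintro _ ⟨n, rfl⟩
      simp only [h2, SetLike.mem_coe, LinearMap.mem_ker, innerₗ_apply_apply]
      rw [real_inner_comm]
      simp only [inner_sub_right, inner_ten, ContinuousLinearMap.mul_apply, ← I.p_Ad, ← I.p_symm,
        I.p_idem, sub_self]
  have h7 := h.p_eq hc.maxAb hβ.1.1 hβ.2.1
  have h8 : I.p i Y = Y := by simpa using h.rot.p_eq hc.maxAb hβ.1.1 hβ.2.1
  have h9 : a ^ 2 + a' ^ 2 ≠ 0 := fun e => by
    have h10 : ten L (I.p i * C.Ad b) ∈ D := Submodule.subset_span ⟨0, by simp⟩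
    rw [show a = 0 by nlinarith, show a' = 0 by nlinarith, zero_smul, zero_smul] at h5 h6
    have h11 := (Submodule.starProjection_apply_eq_zero_iff D).1 (h5.trans (sub_zero _)) _ h10
    have h12 := (Submodule.starProjection_apply_eq_zero_iff D).1 (h6.trans (add_zero _)) _ h10
    simp only [NV, inner_sub_right, inner_add_right, inner_ten, ContinuousLinearMap.mul_apply,
      I.p_symm, h7, h8] at h11 h12 hb
    exact hb.elim (· h11) (· h12)
  have h10 := h3 _ (D.starProjection_apply_mem (tm X X - tm Y Y))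
  have h11 := h3 _ (D.starProjection_apply_mem (tm X Y + tm Y X))
  rw [real_inner_comm, inner_dU] at h10 h11
  simp only [h5, h6, map_add (C.dU ζ) (a' • _), map_sub (C.dU ζ) (a • _), map_smul, hE.2 ζ hζ] at h10 h11
  simp only [NV, inner_sub_right, inner_add_right, inner_ten, real_inner_smul_right, inner_neg_right,
    inner_add_left, C.inner_Ad_left q⁻¹, inv_inv, real_inner_comm (C.Ad q _)] at h10 h11 hq
  refine by_contra fun e => hq.elim (· (mul_left_cancel₀ (mul_ne_zero h9 e) ?_))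
    (· (mul_left_cancel₀ (mul_ne_zero h9 e) ?_))
  · linear_combination (a' / 2) * h10 - (a / 2) * h11
  · linear_combination (a / 2) * h10 + (a' / 2) * h11

theorem NV_ex (ht : C.IsMaxAb t) (hβ : C.Lg I i t β) (h : C.WP t β X Y) (hX : X ≠ 0) {η σ : L}
    (hη : ⟪X, η⟫ ≠ 0 ∨ ⟪Y, η⟫ ≠ 0) (hσ : σ ∈ t) :
    ∀ᶠ r : ℝ in 𝓝[≠] 0, NV (C.Ad (C.ex σ * C.ex (r • η))) X Y := by
  have := FiniteDimensional.complete ℝ L
  let T : L →ₗ[ℝ] L →ₗ[ℝ] TT L := LinearMap.mk₂ ℝ (fun x y => ten L (C.ad x * C.ad y))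
    (by simp [add_mul]) (by simp) (by simp [mul_add]) (by simp)
  have hT : ∀ x y z w, ⟪T x y, tm z w⟫ = -⟪C.ad y w, C.ad x z⟫ := fun x y z w => by
    simp [T, inner_ten, C.inner_ad]
  have h1 := h.p_eq ht hβ.1.1 hβ.2.1
  have h2 : I.p i Y = Y := by simpa using h.rot.p_eq ht hβ.1.1 hβ.2.1
  obtain ⟨a, b, h3, h4⟩ := iso ht hβ h hX (Der.gp (T := T) (fun ξ x y => by
    simp only [T, LinearMap.mk₂_apply, dU_ten, C.ad_ad, ← map_add]
    congr 1; noncomm_ring) h h) fun x y => by simp only [inner_sub_left, hT, ad_p, h1, h2]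
  have h5 : a ≠ 0 := fun e => by
    have := congrArg (⟪·, tm X X⟫) h3
    simp only [inner_sub_left, hT, inner_add_left, real_inner_smul_left, inner_tm, e, C.ad_self,
      real_inner_comm X Y, h.perp hβ.1.1, C.ad_swap Y X, h.ad_eq hβ.1.1 (h.ad_mem ht)] at this
    simp [hX, hβ.1.1] at this
  have h6 : ∀ w : TT L, (∀ᶠ r : ℝ in 𝓝[≠] 0, ⟪ten L (C.Ad (C.ex (r • η))), w⟫ ≠ 0) ∨
      ⟪ten L (C.ad η * C.ad η), w⟫ = 0 := fun w => by
    refine ((An.line (f := fun k => innerSL ℝ w (ten L (C.Ad k)))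
      (((an_Ad ()).clm (ten L)).clm (innerSL ℝ w)) η 1 0 trivial).eventually_eq_zero_or_eventually_ne_zero).symm.imp (fun H => ?_) fun H => ?_
    · simpa [real_inner_comm] using H
    · rw [real_inner_comm]
      exact exp_two _ (innerSL ℝ w ∘L ten L) (by simpa [C.Ad_ex] using H)
  have h7 : ∀ᶠ r : ℝ in 𝓝[≠] 0, NV (C.Ad (C.ex (r • η))) X Y := by
    rcases h6 (tm X X - tm Y Y) with H | H
    · exact H.mono fun _ => Or.inl
    rcases h6 (tm X Y + tm Y X) with H' | H'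
    · exact H'.mono fun _ => Or.inr
    have e1 := congrArg (⟪·, tm η η⟫) h3
    have e2 := congrArg (⟪·, tm η η⟫) h4
    simp only [inner_sub_left, hT, inner_add_left, real_inner_smul_left, inner_tm, inner_sub_right,
      inner_add_right, inner_ten, ContinuousLinearMap.mul_apply, C.inner_ad η, C.ad_swap _ η,
      inner_neg_neg] at e1 e2 H H'
    have e3 : (a ^ 2 + b ^ 2) * (⟪X, η⟫ ^ 2 + ⟪Y, η⟫ ^ 2) ^ 2 = 0 := by
      rw [H] at e1; rw [H'] at e2
      linear_combination (-(a * (⟪X, η⟫ * ⟪X, η⟫ - ⟪Y, η⟫ * ⟪Y, η⟫) -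
        b * (⟪X, η⟫ * ⟪Y, η⟫ + ⟪Y, η⟫ * ⟪X, η⟫))) * e1 - (b * (⟪X, η⟫ * ⟪X, η⟫ - ⟪Y, η⟫ * ⟪Y, η⟫) +
        a * (⟪X, η⟫ * ⟪Y, η⟫ + ⟪Y, η⟫ * ⟪X, η⟫)) * e2
    exact absurd e3 (mul_ne_zero (by positivity) (pow_ne_zero _ (hη.elim (fun _ => by positivity)
      fun _ => by positivity)))
  refine h7.mono fun r hr => by_contra fun e => ?_
  have h8 := h.Ad_ex (t.neg_mem hσ)
  have h9 := h.rot.Ad_ex (t.neg_mem hσ)
  rw [map_neg, neg_eq_iff_eq_neg] at h9
  simp only [NV, inner_sub_right, inner_add_right, inner_ten, Ad_mul_apply, C.inner_Ad_left (C.ex σ),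
    ← ex_neg, h8, h9, real_inner_smul_right, inner_neg_right, not_or, not_not] at e hr
  have := Real.sin_sq_add_cos_sq (-⟪β, σ⟫)
  refine hr.elim (· ?_) (· ?_)
  · linear_combination Real.cos (-⟪β, σ⟫) * e.1 + Real.sin (-⟪β, σ⟫) * e.2 - (⟪C.Ad (C.ex (r • η)) X, X⟫ -
      ⟪C.Ad (C.ex (r • η)) Y, Y⟫) * this
  · linear_combination Real.cos (-⟪β, σ⟫) * e.2 - Real.sin (-⟪β, σ⟫) * e.1 - (⟪C.Ad (C.ex (r • η)) Y, X⟫ +
      ⟪C.Ad (C.ex (r • η)) X, Y⟫) * this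

end Ctx

end Pool.Agent.Lib.MP_d52947_gt
end

-- part Pool.Agent.Lib.MP_d52947_gt.GenH
section

/-! The generic property used in genus two. -/

namespace Pool.Agent.Lib.MP_d52947_gt

open Filter Topology Module
open scoped RealInnerProductSpace

namespace Ctx
variable {L : Type} [NormedAddCommGroup L] [InnerProductSpace ℝ L] [FiniteDimensional ℝ L]
  {K : Type} [Group K] [TopologicalSpace K] [IsTopologicalGroup K] [CompactSpace K]
  [ConnectedSpace K] (C : Ctx L K) {s t : Submodule ℝ L}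

/-- Laplacian of the torus of `c` -/
noncomputable def Dl (c : K) : TT L →L[ℝ] TT L :=
  ∑ j, C.dU (C.pw c (stdOrthonormalBasis ℝ L j)) * C.dU (C.pw c (stdOrthonormalBasis ℝ L j))

/-- a polynomial in the Laplacian -/
noncomputable def Rl (c : K) (M : List ℝ) : TT L →L[ℝ] TT L :=
  (M.map fun μ => C.Dl c + (C.lw c * C.lw c * μ) • 1).prod

/-- symmetric product inside an ideal -/
noncomputable def Sy (I : C.Ideals) (i : Fin I.N) : L →ₗ[ℝ] L →ₗ[ℝ] TT L :=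
  (tm + tm.flip).compl₁₂ (I.p i).toLinearMap (I.p i).toLinearMap

/-- span of the root planes of a given length -/
def LP (I : C.Ideals) (i : Fin I.N) (r : ℝ) (t : Submodule ℝ L) : Submodule ℝ L :=
  Submodule.span ℝ {X | ∃ β Y, ‖β‖ = r ∧ I.p i β = β ∧ C.WP t β X Y}

/-- data on lengths of roots -/
structure Len (I : C.Ideals) (i : Fin I.N) (r : ℝ) (M : List ℝ) (t : Submodule ℝ L) : Prop where
  pos : 0 < r
  le : ∀ α ∈ C.Wt t, I.p i α = α → ‖α‖ ≤ r
  mem : ∀ α ∈ insert 0 (C.Wt t), ∀ α' ∈ insert 0 (C.Wt t), ‖α + α'‖ ^ 2 ≠ 4 * r ^ 2 → ‖α + α'‖ ^ 2 ∈ M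

theorem an_Rl {G : Type} [Fintype G] {f : (G → K) → K} (h : C.An fun x => C.Ad (f x)) (M : List ℝ) :
    C.An fun x => C.Rl (f x) M := by
  induction M with
  | nil => exact An.const _
  | cons μ M ih =>
    exact ((An.sum fun j => (((C.an_pw h).app (An.const _)).clm C.dU).mul
      (((C.an_pw h).app (An.const _)).clm C.dU)).add ((((C.an_lw h).mul (C.an_lw h)).mul
        (An.const μ)).smul (An.const _))).mul ih

variable {C} {I : C.Ideals} {i : Fin I.N} {l α α' β X Y X' Y' : L} {A B : TT L} {c : K} {r : ℝ}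
  {M : List ℝ}

theorem Sy_apply (x y : L) : C.Sy I i x y = tm (I.p i x) (I.p i y) + tm (I.p i y) (I.p i x) := rfl

theorem der_Sy : C.Der (C.Sy I i) := fun ξ x y => by
  simp only [Sy_apply, map_add, dU_tmul, I.p_ad]; abel

theorem GP.Rl (h : C.GP (C.Fix c) l A B) (M : List ℝ) :
    C.Rl c M A = (M.map fun μ => C.lw c * C.lw c * (μ - ‖l‖ ^ 2)).prod • A := by
  have h1 : C.Dl c A = -(C.lw c * C.lw c * ‖l‖ ^ 2) • A := by
    simp only [Dl, ContinuousLinearMap.sum_apply, ContinuousLinearMap.mul_apply, pw_eq, map_smul,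
      ContinuousLinearMap.smul_apply, h.2 _ (C.pj_mem c _), map_neg, ← inner_pj, C.pj_of_mem h.1,
      smul_neg, smul_smul, ← neg_smul, ← Finset.sum_smul, ← real_inner_self_eq_norm_sq,
      ← (stdOrthonormalBasis ℝ L).sum_inner_mul_inner l l, Finset.mul_sum, ← Finset.sum_neg_distrib]
    congr 1
    exact Finset.sum_congr rfl fun j _ => by rw [real_inner_comm l]; ring
  induction M with
  | nil => simp [Ctx.Rl]
  | cons μ M ih =>
    rw [Ctx.Rl, List.map_cons, List.prod_cons, ContinuousLinearMap.mul_apply, ← Ctx.Rl, ih]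
    simp only [map_smul, ContinuousLinearMap.add_apply, ContinuousLinearMap.smul_apply, h1,
      ContinuousLinearMap.one_apply, List.map_cons, List.prod_cons]
    module

theorem GP.Rl_zero (h : C.GP (C.Fix c) l A B) (hl : ‖l‖ ^ 2 ∈ M) : C.Rl c M A = 0 := by
  rw [h.Rl, List.prod_eq_zero (List.mem_map.2 ⟨_, hl, by simp⟩), zero_smul]

theorem Len.zero (H : C.Len I i r M (C.Fix c)) (hc : C.Reg c) (h : C.WP (C.Fix c) α X Y)
    (h' : C.WP (C.Fix c) α' X' Y') (e : ¬(‖α‖ = r ∧ I.p i α = α ∧ (α' = α ∨ α' = -α))) :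
    C.Rl c M (C.Sy I i X X') = 0 := by
  by_cases h1 : I.p i X = 0
  · simp [Sy_apply, h1]
  by_cases h2 : I.p i X' = 0
  · simp [Sy_apply, h2]
  have h3 : ∀ {α X Y}, C.WP (C.Fix c) α X Y → I.p i X ≠ 0 → ‖α‖ ≤ r := fun a b =>
    (a.blk hc.maxAb b).1.elim (fun e => by simp [e, H.pos.le]) fun e => H.le _ e (a.blk hc.maxAb b).2
  have h4 : ∀ {α' Y'}, C.WP (C.Fix c) α' X' Y' → ¬(α' = α ∧ ‖α‖ = r) →
      C.Rl c M (C.Sy I i X X' - C.Sy I i Y Y') = 0 := fun a b => (der_Sy.gp h a).Rl_zero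
    (H.mem _ (h.blk hc.maxAb h1).1 _ (a.blk hc.maxAb h2).1 fun e => b (dbl (h3 h h1) (h3 a h2) e))
  have h5 := h4 h' fun a => e ⟨a.2, (h.blk hc.maxAb h1).2, Or.inl a.1⟩
  have h6 := h4 h'.neg fun a => e ⟨a.2, (h.blk hc.maxAb h1).2, Or.inr (neg_eq_iff_eq_neg.1 a.1)⟩
  rw [map_neg, map_sub, map_neg] at h6
  rw [map_sub] at h5
  linear_combination (norm := module) (1 / 2 : ℝ) • h5 + (1 / 2 : ℝ) • h6

theorem Len.form (H : C.Len I i r M (C.Fix c)) (hc : C.Reg c) (h : C.WP (C.Fix c) β X Y)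
    (hX : X ≠ 0) (h1 : ‖β‖ = r) (h2 : I.p i β = β) (y : L) :
    ⟪X, X⟫ • C.Rl c M (C.Sy I i X y) = (M.map fun μ => C.lw c * C.lw c * (μ - 4 * r ^ 2)).prod •
      (⟪X, y⟫ • (tm X X - tm Y Y) + ⟪Y, y⟫ • (tm X Y + tm Y X)) := by
  have h0 : β ≠ 0 := by rintro rfl; simpa [← h1] using H.pos
  have hβ : β ∈ C.Wt (C.Fix c) := ⟨h0, X, Y, hX, h⟩
  have h3 := h.p_eq hc.maxAb h0 h2
  have h4 : I.p i Y = Y := by simpa using h.rot.p_eq hc.maxAb h0 h2
  have h5 : ‖β + β‖ ^ 2 = 4 * r ^ 2 := by rw [← two_smul ℝ, norm_smul, h1]; simp; ring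
  have h6 := (der_Sy (I := I) (i := i).gp h h).Rl M
  have h7 := (der_Sy (I := I) (i := i).gp h h).rot.Rl M
  have h8 := (der_Sy (I := I) (i := i).gp h h.neg).Rl_zero (H.mem _ (Or.inr hβ) _
    (Or.inr (C.Wt_neg hβ)) (by simpa using H.pos.ne'))
  simp only [h5, map_sub, map_add, map_neg, Sy_apply, h3, h4] at h6 h7 h8
  have h9 : ∀ X' Y', C.WP (C.Fix c) β X' Y' → ⟪X, X⟫ • C.Rl c M (C.Sy I i X X') =
      (M.map fun μ => C.lw c * C.lw c * (μ - 4 * r ^ 2)).prod •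
        (⟪X, X'⟫ • (tm X X - tm Y Y) + ⟪Y, X'⟫ • (tm X Y + tm Y X)) := fun X' Y' G => by
    obtain ⟨a, b, rfl, -⟩ := C.mult_one hc.maxAb h0 hX h G
    simp only [map_sub, map_add, map_smul, Sy_apply, h3, h4, inner_sub_right, real_inner_smul_right,
      h.perp h0, real_inner_comm X Y, ← h.same h h0]
    linear_combination (norm := module) (⟪X, X⟫ * a / 2) • h6 + (⟪X, X⟫ * a / 2) • h8 +
      (⟪X, X⟫ * b / 2) • h7
  refine C.WP_top hc.maxAb.ab (LinearMap.eqLocus (⟪X, X⟫ • (C.Rl c M).toLinearMap ∘ₗ C.Sy I i X)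
    ((M.map fun μ => C.lw c * C.lw c * (μ - 4 * r ^ 2)).prod • ((innerₗ L X).smulRight
      (tm X X - tm Y Y) + (innerₗ L Y).smulRight (tm X Y + tm Y X)))) (fun α X' Y' G => ?_) y
  by_cases e : α = β
  · exact h9 X' Y' (e ▸ G)
  by_cases e' : α = -β
  · exact h9 X' (-Y') (by simpa [e'] using G.neg)
  have a1 := G.orth' h e e'
  have a2 := G.orth' h.rot e e'
  rw [inner_neg_right, neg_eq_zero] at a2
  simp [H.zero hc h G fun a => a.2.2.elim e e', real_inner_comm X', a1, a2]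

theorem Len.perp (H : C.Len I i r M (C.Fix c)) (hc : C.Reg c) {x : L}
    (hx : x ∈ (C.LP I i r (C.Fix c))ᗮ) (y : L) : C.Rl c M (C.Sy I i x y) = 0 := by
  refine C.WP_ind hc.maxAb.ab (fun ξ hξ => C.perp_inv (Submodule.span_le
    (p := (C.LP I i r (C.Fix c)).comap (C.ad ξ).toLinearMap).2 fun X ⟨β, Y, a, b, G⟩ => ?_))
    (LinearMap.ker ((C.Rl c M).toLinearMap ∘ₗ (C.Sy I i).flip y)) (fun α X Y a _ G => ?_) hx
  · change C.ad ξ X ∈ C.LP I i r (C.Fix c)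
    rw [(G.2 ξ hξ).1, ← smul_neg]
    exact Submodule.smul_mem _ _ (Submodule.subset_span ⟨β, X, a, b, G.rot⟩)
  · refine C.WP_top hc.maxAb.ab (LinearMap.ker ((C.Rl c M).toLinearMap ∘ₗ C.Sy I i X))
      (fun α' X' Y' G' => ?_) y
    by_cases e : ‖α‖ = r ∧ I.p i α = α
    · simp [inner_self_eq_zero.1 (a X (Submodule.subset_span ⟨α, Y, e.1, e.2, G⟩))]
    · exact H.zero hc G G' fun b => e ⟨b.1, b.2.1⟩

theorem WP.tr {t' : Submodule ℝ L} {k : K} (hk : ∀ x, x ∈ t ↔ C.Ad k x ∈ t') (h : C.WP t α X Y) :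
    C.WP t' (C.Ad k α) (C.Ad k X) (C.Ad k Y) := ⟨(hk _).1 h.1, fun ξ hξ => by
  have := h.2 (C.Ad k⁻¹ ξ) ((hk _).2 (by simpa using hξ))
  rw [← C.Ad_Ad_inv k ξ, ← C.Ad_ad, ← C.Ad_ad, this.1, this.2, C.inner_Ad]
  simp⟩

theorem Wt_tr {t' : Submodule ℝ L} {k : K} (hk : ∀ x, x ∈ t ↔ C.Ad k x ∈ t') (h : α ∈ C.Wt t) :
    C.Ad k α ∈ C.Wt t' :=
  let ⟨h0, _, _, h1, h2⟩ := h; ⟨C.Ad_ne_zero h0, _, _, C.Ad_ne_zero h1, h2.tr hk⟩

theorem norm_Ad' (k : K) (x : L) : ‖C.Ad k x‖ = ‖x‖ := by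
  rw [norm_eq_sqrt_real_inner, C.inner_Ad, ← norm_eq_sqrt_real_inner]

theorem Len.tr {t' : Submodule ℝ L} {k : K} (hk : ∀ x, x ∈ t ↔ C.Ad k x ∈ t') (H : C.Len I i r M t') :
    C.Len I i r M t := by
  have h : ∀ α ∈ insert 0 (C.Wt t), C.Ad k α ∈ insert 0 (C.Wt t') := fun α h =>
    h.imp (fun e => by simp [e]) (Wt_tr hk)
  refine ⟨H.pos, fun α a b => norm_Ad' k α ▸ H.le _ (Wt_tr hk a) (by rw [I.p_Ad, b]),
    fun α a α' b => ?_⟩
  simpa only [← map_add, norm_Ad'] using H.mem _ (h α a) _ (h α' b)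

variable (C) [MeasurableSpace L] [BorelSpace L]

theorem generic_NV (I : C.Ideals) (i : Fin I.N) : C.Generic fun h : Fin 2 → K =>
    C.Reg (h 0 * h 1 * (h 0)⁻¹ * (h 1)⁻¹) → ∀ β X Y,
      C.Lg I i (C.Fix (h 0 * h 1 * (h 0)⁻¹ * (h 1)⁻¹)) β → X ≠ 0 →
        C.WP (C.Fix (h 0 * h 1 * (h 0)⁻¹ * (h 1)⁻¹)) β X Y → NV (C.Ad (h 1)) X Y := by
  classical
  obtain ⟨t, ht⟩ := C.exists_maxAb
  have hf := C.Wt_finite ht.ab
  by_cases h0 : {α ∈ C.Wt t | I.p i α = α}.Nonempty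
  swap
  · refine fun _ => Eventually.of_forall fun _ hc β X Y hβ _ _ => (h0 ?_).elim
    obtain ⟨k, hk⟩ := C.maxAb_conj hc.maxAb ht
    exact ⟨_, Wt_tr hk hβ.1, by rw [I.p_Ad, hβ.2.1]⟩
  obtain ⟨β₀, h1, h2⟩ := Set.exists_max_image _ (‖·‖) (hf.subset (Set.sep_subset _ _)) h0
  let M := (((hf.insert 0).image2 (fun α α' => ‖α + α'‖ ^ 2) (hf.insert 0)).toFinset.erase
    (4 * ‖β₀‖ ^ 2)).toList
  have H : C.Len I i ‖β₀‖ M t := ⟨norm_pos_iff.2 h1.1.1, fun α a b => h2 α ⟨a, b⟩, fun α a α' b e =>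
    Finset.mem_toList.2 (Finset.mem_erase.2 ⟨e, (Set.Finite.mem_toFinset _).2 ⟨α, a, α', b, rfl⟩⟩)⟩
  obtain ⟨n, -, h3, h4, h5⟩ := C.coxeter ht
  obtain ⟨τ, h6, h7⟩ := C.exists_Fix_eq ht
  obtain ⟨σ, h8, h9⟩ := C.cox_surj ht h3 h4 h6
  have h10 : ∀ α, ∃ X Y z, α ∈ C.Wt t → X ≠ 0 ∧ C.WP t α X Y ∧ (z = X ∨ z = Y) ∧
      ∃ ξ ∈ C.Fix n, ⟪z, ξ⟫ ≠ 0 := fun α => by
    by_cases h : α ∈ C.Wt t
    · obtain ⟨X, Y, a, b⟩ := h.2
      obtain ⟨z, c, d | d⟩ := h5 α X Y h.1 a b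
      exacts [⟨X, Y, X, fun _ => ⟨a, b, Or.inl rfl, z, c, by rwa [real_inner_comm]⟩⟩,
        ⟨X, Y, Y, fun _ => ⟨a, b, Or.inr rfl, z, c, by rwa [real_inner_comm]⟩⟩]
    · exact ⟨0, 0, 0, fun h' => absurd h' h⟩
  choose X Y z h10 using h10
  obtain ⟨η, h11, h12⟩ := exists_reg (s := C.Fix n) (hf.image z) (by
    rintro _ ⟨α, a, rfl⟩; exact (h10 α a).2.2.2)
  obtain ⟨u, hu⟩ := ((eventually_all_finite (hf.subset (t := {β | C.Lg I i t β}) fun _ h => h.1)).2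
    fun β hβ => NV_ex ht hβ (h10 β hβ.1).2.1 (h10 β hβ.1).1 (η := η) ((h10 β hβ.1).2.2.1.imp
      (fun e => by rw [← e]; exact h12 _ ⟨β, hβ.1, rfl⟩)
      fun e => by rw [← e]; exact h12 _ ⟨β, hβ.1, rfl⟩) h8).exists
  let φ : L → (Fin 2 → K) → L →ₗ[ℝ] ℝ := fun y h => innerₗ (TT L) (ten L (C.Ad (h 1))) ∘ₗ
    (C.Rl (h 0 * h 1 * (h 0)⁻¹ * (h 1)⁻¹) M).toLinearMap ∘ₗ C.Sy I i y
  have hφ : ∀ h x, x ∈ ⨅ y, LinearMap.ker (φ y h) ↔ ∀ y, ⟪ten L (C.Ad (h 1)),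
      C.Rl (h 0 * h 1 * (h 0)⁻¹ * (h 1)⁻¹) M (C.Sy I i y x)⟫ = 0 := fun h x => by simp [φ]
  have hs : ∀ x y, C.Sy I i x y = C.Sy I i y x := fun x y => by rw [Sy_apply, Sy_apply, add_comm]
  refine (C.generic_rank φ (fun y x => ((an_Ad 1).clm (ten L)).bil
    ((C.an_Rl C.an_comm M).app (An.const _)) (innerSL ℝ))
    ![n, C.ex σ * C.ex (u • η)]).mono fun h G hc β X' Y' hβ a b => by_contra fun e => a ?_
  obtain ⟨k, hk⟩ := C.maxAb_conj hc.maxAb ht
  have h13 : ‖β‖ = ‖β₀‖ := le_antisymm ((H.tr hk).le β hβ.1 hβ.2.1) (norm_Ad' k⁻¹ β₀ ▸ hβ.2.2 _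
    (Wt_tr (fun x => by rw [hk, Ad_Ad_inv]) h1.1) (by rw [I.p_Ad, h1.2]))
  refine inner_self_eq_zero.1 ((Submodule.eq_of_le_of_finrank_le (S₂ := ⨅ y, LinearMap.ker (φ y h))
    (S₁ := (C.LP I i ‖β₀‖ (C.Fix (h 0 * h 1 * (h 0)⁻¹ * (h 1)⁻¹)))ᗮ)
    (fun x hx => (hφ h x).2 fun y => by rw [hs, (H.tr hk).perp hc hx, inner_zero_right])
    (G.trans (le_trans (Submodule.finrank_mono (t := (C.LP I i ‖β₀‖ t)ᗮ) fun x hx => ?_) ?_))).ge
    ((hφ h X').2 fun y => ?_) X' (Submodule.subset_span ⟨β, Y', h13, hβ.2.1, b⟩))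
  · have h14 : n * (C.ex σ * C.ex (u • η)) * n⁻¹ * (C.ex σ * C.ex (u • η))⁻¹ =
        n * C.ex σ * n⁻¹ * (C.ex σ)⁻¹ := by
      have := C.ex_comm (a := n⁻¹) (C.Fix_inv n ▸ Submodule.smul_mem _ u h11)
      rw [mul_inv_rev, ← mul_assoc n, mul_assoc _ _ n⁻¹, ← this]; group
    simp only [hφ, Matrix.cons_val_zero, Matrix.cons_val_one, h14] at hx
    have h15 : C.Fix (n * C.ex σ * n⁻¹ * (C.ex σ)⁻¹) = t := by rw [Fix, h9, ← h7, Fix]
    have h16 : C.Reg (n * C.ex σ * n⁻¹ * (C.ex σ)⁻¹) := by rw [Reg, h15, C.finrank_maxAb ht]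
    rw [Submodule.mem_orthogonal']
    refine fun v hv => Submodule.span_le (p := LinearMap.ker (innerₗ L x)).2 ?_ hv
    rintro X₁ ⟨γ, Y₁, a₁, a₂, a₃⟩
    by_cases a₄ : X₁ = 0
    · simp [a₄]
    have a₅ : γ ∈ C.Wt t := ⟨by rintro rfl; simpa [← a₁] using H.pos, X₁, Y₁, a₄, a₃⟩
    obtain ⟨b₁, b₂, -⟩ := h10 γ a₅
    obtain ⟨c₁, c₂, rfl, -⟩ := C.mult_one ht a₅.1 b₁ b₂ a₃
    have b₃ : Y γ ≠ 0 := fun e => b₁ (inner_self_eq_zero.1 (by rw [b₂.same b₂ a₅.1, e, inner_zero_left]))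
    have f₁ := congrArg (⟪ten L (C.Ad (C.ex σ * C.ex (u • η))), ·⟫)
      ((h15.symm ▸ H).form h16 (h15.symm ▸ b₂) b₁ a₁ a₂ x)
    have f₂ := congrArg (⟪ten L (C.Ad (C.ex σ * C.ex (u • η))), ·⟫)
      ((h15.symm ▸ H).form h16 (h15.symm ▸ b₂.rot) (neg_ne_zero.2 b₃) a₁ a₂ x)
    have f₃ := hu γ ⟨a₅, a₂, fun α a b => a₁ ▸ h2 α ⟨a, b⟩⟩
    simp only [real_inner_smul_right, hx, mul_zero] at f₁ f₂
    have f₄ := (mul_eq_zero.1 f₁.symm).resolve_left (List.prod_ne_zero (by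
      simp only [List.mem_map, not_exists, not_and]
      exact fun μ hμ => mul_ne_zero (mul_self_ne_zero.2 (C.reg_iff_lw.1 h16))
        (sub_ne_zero.2 (Finset.mem_erase.1 (Finset.mem_toList.1 hμ)).1)))
    have f₅ := (mul_eq_zero.1 f₂.symm).resolve_left (List.prod_ne_zero (by
      simp only [List.mem_map, not_exists, not_and]
      exact fun μ hμ => mul_ne_zero (mul_self_ne_zero.2 (C.reg_iff_lw.1 h16))
        (sub_ne_zero.2 (Finset.mem_erase.1 (Finset.mem_toList.1 hμ)).1)))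
    simp only [NV, map_neg, LinearMap.neg_apply, neg_neg, inner_add_right, inner_sub_right,
      real_inner_smul_right, inner_neg_left, inner_neg_right] at f₃ f₄ f₅
    generalize ten L _ = w at f₃ f₄ f₅
    have f₆ : (⟪w, tm (X γ) (X γ)⟫ - ⟪w, tm (Y γ) (Y γ)⟫) ^ 2 +
        (⟪w, tm (X γ) (Y γ)⟫ + ⟪w, tm (Y γ) (X γ)⟫) ^ 2 ≠ 0 :=
      f₃.elim (fun _ => by positivity) fun _ => by positivity
    have f₇ : ⟪X γ, x⟫ = 0 := mul_left_cancel₀ f₆ (by
      linear_combination (⟪w, tm (X γ) (X γ)⟫ - ⟪w, tm (Y γ) (Y γ)⟫) * f₄ -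
        (⟪w, tm (X γ) (Y γ)⟫ + ⟪w, tm (Y γ) (X γ)⟫) * f₅)
    have f₈ : ⟪Y γ, x⟫ = 0 := mul_left_cancel₀ f₆ (by
      linear_combination (⟪w, tm (X γ) (X γ)⟫ - ⟪w, tm (Y γ) (Y γ)⟫) * f₅ +
        (⟪w, tm (X γ) (Y γ)⟫ + ⟪w, tm (Y γ) (X γ)⟫) * f₄)
    change ⟪x, _⟫ = 0
    rw [real_inner_comm]
    simp [inner_sub_left, real_inner_smul_left, f₇, f₈]
  · have e1 := (C.LP I i ‖β₀‖ t).finrank_add_finrank_orthogonal
    have e2 := (C.LP I i ‖β₀‖ (C.Fix (h 0 * h 1 * (h 0)⁻¹ * (h 1)⁻¹))).finrank_add_finrank_orthogonal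
    have e3 := Submodule.finrank_mono (Submodule.map_le_iff_le_comap.2 (show C.LP I i ‖β₀‖
      (C.Fix (h 0 * h 1 * (h 0)⁻¹ * (h 1)⁻¹)) ≤ (C.LP I i ‖β₀‖ t).comap (C.Ad k).toLinearMap from
      Submodule.span_le.2 fun X ⟨γ, Y, a₁, a₂, a₃⟩ =>
        Submodule.subset_span ⟨_, _, (norm_Ad' k γ).trans a₁, by rw [I.p_Ad, a₂], a₃.tr hk⟩))
    rw [finrank_map_Ad] at e3
    omega
  · have f₁ := congrArg (⟪ten L (C.Ad (h 1)), ·⟫) ((H.tr hk).form hc b a h13 hβ.2.1 y)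
    simp only [NV, not_or, not_not] at e
    simp only [real_inner_smul_right, inner_add_right _ (_ • _), e, mul_zero, add_zero] at f₁
    rw [hs]
    exact (mul_eq_zero.1 f₁).resolve_left (inner_self_ne_zero.2 a)

theorem generic_two : ∃ Pf : K → K → Prop, (C.Generic fun h : Fin 2 → K => Pf (h 0) (h 1)) ∧
    ∀ a b x q c : K, Pf a b → Pf x q → c = a * b * a⁻¹ * b⁻¹ → c * (x * q * x⁻¹ * q⁻¹) = 1 →
      ∀ ζ ∈ C.Fix c, (∀ n : ℕ, ζ - C.Ad q ζ ∈ (C.Fix (q * (c ^ n * b * (c ^ n)⁻¹)))ᗮ) →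
        ζ ∈ C.Z := by
  obtain ⟨I⟩ := C.exists_ideals
  obtain ⟨t, ht⟩ := C.exists_maxAb
  obtain ⟨n, -, h3, h4, -⟩ := C.coxeter ht
  obtain ⟨τ, h6, h7⟩ := C.exists_Fix_eq ht
  obtain ⟨σ, -, h9⟩ := C.cox_surj ht h3 h4 h6
  refine ⟨fun a b => C.Reg (a * b * a⁻¹ * b⁻¹) ∧ C.Kr (a * b * a⁻¹ * b⁻¹) ∧ ∀ i β X Y,
    C.Lg I i (C.Fix (a * b * a⁻¹ * b⁻¹)) β → X ≠ 0 → C.WP (C.Fix (a * b * a⁻¹ * b⁻¹)) β X Y →
      NV (C.Ad b) X Y, ((C.generic_reg C.an_comm (x₀ := ![n, C.ex σ]) (by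
        change C.Reg (n * C.ex σ * n⁻¹ * (C.ex σ)⁻¹)
        rw [Reg, show C.Fix _ = t by rw [Fix, h9, ← h7, Fix], C.finrank_maxAb ht])).and (C.generic_Kr.and
      (Generic.all (C.generic_NV I)))).mono fun h H => ⟨H.1, H.2.1, fun i => H.2.2 i H.1⟩, ?_⟩
  rintro a b x q c ⟨h1, h2, hb⟩ ⟨-, -, hq⟩ hc e ζ hζ H
  rw [← hc] at h1 h2 hb
  rw [eq_inv_of_mul_eq_one_right e, Fix_inv] at hq
  have hm := h1.maxAb
  refine C.mem_Z_of_Wt hm.ab hζ fun α hα => ?_
  obtain ⟨i, hi⟩ := C.Wt_ideal I (hm.p_mem I) hα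
  obtain ⟨β, a₁, a₂⟩ := Set.exists_max_image {α ∈ C.Wt (C.Fix c) | I.p i α = α} (‖·‖)
    ((C.Wt_finite hm.ab).subset (Set.sep_subset _ _)) ⟨α, hα, hi⟩
  let W := Submodule.span ℝ {β | C.Lg I i (C.Fix c) β}
  have hβ : β ∈ W := Submodule.subset_span ⟨a₁.1, a₁.2, fun γ a b => a₂ γ ⟨a, b⟩⟩
  have hW : W ≤ C.Fix c ⊓ LinearMap.ker (innerₗ L ζ) := Submodule.span_le.2 fun β hβ => by
    obtain ⟨X, Y, b₁, b₂⟩ := hβ.1.2
    exact ⟨b₂.1, (real_inner_comm _ _).trans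
      (two_core h1 h2 hβ b₂ b₁ (hb i β X Y hβ b₁ b₂) (hq i β X Y hβ b₁ b₂) hζ H)⟩
  refine (real_inner_comm _ _).trans (hW (C.Wt_irred I hm.ab (hm.p_mem I) i
    {γ | γ ∈ W ∧ γ ∈ C.Wt (C.Fix c) ∧ I.p i γ = γ} (fun _ h => h.2) ⟨β, hβ, a₁⟩
    (fun γ hγ δ hδ h => ⟨?_, hδ, ?_⟩) α hα hi).1).2
  · obtain ⟨k, b₁, b₂⟩ := C.exists_refl hm hδ
    have b₃ : W ≤ W.comap (C.Ad k).toLinearMap := Submodule.span_le.2 fun ε hε =>
      Submodule.subset_span ⟨C.Wt_conj hε.1 b₁, (I.p_Ad i k ε).trans (congrArg _ hε.2.1),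
        fun α a b => (hε.2.2 α a b).trans (norm_Ad' k ε).ge⟩
    have b₄ := W.sub_mem hγ.1 (b₃ hγ.1)
    rwa [ContinuousLinearMap.coe_coe, b₂ γ (hW hγ.1).1, sub_sub_cancel, W.smul_mem_iff (div_ne_zero
      (mul_ne_zero two_ne_zero (by rwa [real_inner_comm])) (inner_self_ne_zero.2 hδ.1))] at b₄
  · obtain ⟨l, hl⟩ := C.Wt_ideal I (hm.p_mem I) hδ
    by_cases e : l = i
    · exact e ▸ hl
    · exact absurd (by rw [← hl, ← I.p_symm, ← hγ.2.2, I.p_orth l i e, inner_zero_left]) h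

end Ctx

end Pool.Agent.Lib.MP_d52947_gt
end

-- part Pool.Agent.Lib.MP_d52947_gt.Null
section

/-! Null sets in the representation variety. -/

namespace Pool.Agent.Lib.MP_d52947_gt

open Filter Topology Module MeasureTheory
open scoped RealInnerProductSpace

theorem relator_eq_wl (g : ℕ) : relator g = Ctx.wl (List.finRange g) := by
  rw [relator, Ctx.wl, List.ofFn_eq_map]

namespace Ctx

variable {L : Type} [NormedAddCommGroup L] [InnerProductSpace ℝ L] [FiniteDimensional ℝ L]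
  {K : Type} [Group K] [TopologicalSpace K] [IsTopologicalGroup K] [CompactSpace K]
  [ConnectedSpace K] (C : Ctx L K) {g : ℕ}

theorem Z_le_cen (x : Gen g → K) (l : List (Fin g)) : C.Z ≤ C.cen x l :=
  fun _ h _ _ _ => (C.mem_Z_iff _).1 h _

theorem range_cv (x : Gen g → K) :
    LinearMap.range (C.cv x (relator g)) = (C.cen x (List.finRange g))ᗮ := by
  rw [← Submodule.orthogonal_orthogonal (LinearMap.range _), relator_eq_wl]
  congr 1
  refine le_antisymm (fun θ h => C.mem_cen_of_perp x (List.nodup_finRange g) fun u _ => ?_)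
    fun θ h => ?_
  · rw [real_inner_comm]; exact h _ ⟨u, rfl⟩
  · rintro _ ⟨u, rfl⟩
    rw [real_inner_comm]; exact (C.cen_perp x u h).1

theorem finrank_Z1 (x : Gen g → K) : finrank ℝ (C.Z1 x) + finrank ℝ L =
    2 * g * finrank ℝ L + finrank ℝ (C.cen x (List.finRange g)) := by
  have h1 := (C.cv x (relator g)).finrank_range_add_finrank_ker
  have h2 := (C.cen x (List.finRange g)).finrank_add_finrank_orthogonal
  rw [range_cv, finrank_pi_fintype] at h1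
  simp only [Finset.sum_const, Finset.card_univ, Fintype.card_prod, Fintype.card_fin,
    Fintype.card_bool, smul_eq_mul] at h1
  unfold Z1
  rw [mul_comm 2 g]
  omega

/-- irreducible representations -/
def Rirr (g : ℕ) : Set (Gen g → K) :=
  {x | val x (relator g) = 1 ∧ C.cen x (List.finRange g) ≤ C.Z}

/-- dimension of the irreducible locus -/
noncomputable def d0 (g : ℕ) : ℕ := 2 * g * finrank ℝ L + finrank ℝ C.Z - finrank ℝ L

theorem finrank_Z1_irr {x : Gen g → K} (hx : x ∈ C.Rirr g) : finrank ℝ (C.Z1 x) = C.d0 g := by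
  have := C.finrank_Z1 x
  rw [le_antisymm hx.2 (C.Z_le_cen x _)] at this
  rw [d0]; omega

theorem mem_cen_all {x : Gen g → K} {θ : L} :
    θ ∈ C.cen x (List.finRange g) ↔ ∀ w, C.Ad (val x w) θ = θ := by
  refine ⟨fun h w => ?_, fun h i _ s => by simpa using h (.of (i, s))⟩
  induction w using FreeGroup.induction_on with
  | C1 => simp
  | of i => simpa using h i.1 (List.mem_finRange _) i.2
  | inv_of i hi => rw [map_inv]; conv_lhs => rw [← hi, Ad_inv_Ad]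
  | mul a b ha hb => rw [map_mul, Ad_mul_apply, hb, ha]

theorem cen_act (φ : AutR g) (x : Gen g → K) :
    C.cen (act φ.1.toMonoidHom x) (List.finRange g) = C.cen x (List.finRange g) := by
  ext θ
  simp only [mem_cen_all, val_act]
  exact ⟨fun h w => by simpa using h (φ.1.symm w), fun h w => h _⟩

theorem val_act_rel (φ : AutR g) (x : Gen g → K) :
    val (act φ.1.toMonoidHom x) (relator g) = val x (relator g) := by
  rw [val_act]; exact congrArg _ φ.2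

theorem act_mem_Rirr (φ : AutR g) {x : Gen g → K} (hx : x ∈ C.Rirr g) :
    act φ.1.toMonoidHom x ∈ C.Rirr g :=
  ⟨(val_act_rel φ x).trans hx.1, by rw [cen_act]; exact hx.2⟩

theorem act_act (φ : AutR g) (x : Gen g → K) :
    act (φ⁻¹).1.toMonoidHom (act φ.1.toMonoidHom x) = x := by
  funext i
  rw [act, val_act]
  simp

theorem surj_res {x : Gen g → K} {j : Fin g} (hj : C.cen x [j] ≤ C.Z) {m : ℕ} {s : Fin m → Gen g}
    (hs : Function.Injective s) (hsj : ∀ t, (s t).1 ≠ j) (y : Fin m → L) :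
    ∃ u ∈ C.Z1 x, ∀ t, u (s t) = y t := by
  obtain ⟨l1, l2, hl⟩ := List.append_of_mem (List.mem_finRange j)
  have hn := List.nodup_finRange g
  rw [hl] at hn
  have h1 : j ∉ l1 := fun h => (List.nodup_append.1 hn).2.2 j h j (by simp) rfl
  have h2 : j ∉ l2 := (List.nodup_cons.1 (List.nodup_append.1 hn).2.1).1
  let M : Submodule ℝ (Gen g → L) :=
    { carrier := {u | ∀ i ∉ [j], ∀ b, u (i, b) = 0}
      zero_mem' := fun _ _ _ => rfl
      add_mem' := fun ha hb i hi b => by simp [ha i hi b, hb i hi b]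
      smul_mem' := fun c a ha i hi b => by simp [ha i hi b] }
  have h3 : (M.map (C.cv x (relator g)))ᗮ ≤ C.Z := fun θ hθ => by
    have h4 : C.Ad (val x (wl l1))⁻¹ θ ∈ C.Z := hj (C.mem_cen_of_perp x (by simp) fun u hu => by
      have := hθ _ ⟨u, hu, rfl⟩
      rw [relator_eq_wl, hl, show wl (l1 ++ j :: l2) = wl l1 * (wl [j] * wl l2) by simp [wl],
        cv_mul, cv_mul, C.cv_wl_zero x (l := l1) fun i hi => hu i (by rintro h; simp at h; exact h1 (h ▸ hi)),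
        C.cv_wl_zero x (l := l2) fun i hi => hu i (by rintro h; simp at h; exact h2 (h ▸ hi)), map_zero,
        add_zero, zero_add, inner_Ad_left] at this
      rwa [real_inner_comm])
    rw [← C.Ad_Ad_inv (val x (wl l1)) θ, (C.mem_Z_iff _).1 h4]; exact h4
  have h5 : C.cv x (relator g) (Function.extend s y 0) ∈ M.map (C.cv x (relator g)) := by
    rw [← Submodule.orthogonal_orthogonal (M.map _)]
    refine Submodule.orthogonal_le h3 (Submodule.orthogonal_le (C.Z_le_cen x (List.finRange g)) ?_)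
    rw [← range_cv]; exact ⟨_, rfl⟩
  obtain ⟨u, hu, e⟩ := h5
  refine ⟨Function.extend s y 0 - u, by rw [mem_Z1, map_sub, e, sub_self], fun t => ?_⟩
  rw [Pi.sub_apply, hs.extend_apply, hu (s t).1 (by simpa using hsj t) (s t).2, sub_zero]

/-- operator whose kernel is the centralizer -/
noncomputable def cenOp (l : List (Fin g)) (x : Gen g → K) : L →L[ℝ] (Gen g → L) :=
  ContinuousLinearMap.pi fun p => if p.1 ∈ l then 1 - C.Ad (x p) else 0

theorem ker_cenOp (l : List (Fin g)) (x : Gen g → K) :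
    LinearMap.ker (C.cenOp l x : L →ₗ[ℝ] (Gen g → L)) = C.cen x l := by
  ext θ
  simp only [LinearMap.mem_ker, ContinuousLinearMap.coe_coe, cenOp, funext_iff,
    ContinuousLinearMap.pi_apply, mem_cen, Prod.forall, Pi.zero_apply]
  refine forall_congr' fun i => ?_
  by_cases h : i ∈ l
  · simp only [h, if_true, ContinuousLinearMap.sub_apply, ContinuousLinearMap.one_apply,
      sub_eq_zero, forall_true_left]
    exact forall_congr' fun s => eq_comm
  · simp [h]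

theorem cont_cenOp (l : List (Fin g)) : Continuous (C.cenOp l) := by
  refine continuous_clm_apply.2 fun y => continuous_pi fun p => ?_
  simp only [cenOp, ContinuousLinearMap.pi_apply]
  split_ifs
  · exact (continuous_const.sub (C.cont_Ad.comp (continuous_apply p))).clm_apply continuous_const
  · exact continuous_const

end Ctx

namespace Amb

variable {L : Type} [NormedAddCommGroup L] [InnerProductSpace ℝ L] [FiniteDimensional ℝ L]
  {K : Type} [Group K] [TopologicalSpace K] [IsTopologicalGroup K] [CompactSpace K]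
  [ConnectedSpace K] {A : Type} [NormedRing A] [NormedAlgebra ℝ A] [FiniteDimensional ℝ A]
  [CompleteSpace A] [MeasurableSpace A] [BorelSpace A] (C : Amb L K A) {g : ℕ}

/-- null sets -/
def Nul {G : Type} [Fintype G] (d : ℕ) (S : Set (G → K)) : Prop := μH[d] (C.emb '' S) = 0

variable {C}

theorem Nul.mono {G : Type} [Fintype G] {d : ℕ} {S S' : Set (G → K)} (h : C.Nul d S')
    (hS : S ⊆ S') : C.Nul d S := measure_mono_null (Set.image_mono hS) h

theorem Nul.iUnion {G ι : Type} [Fintype G] [Countable ι] {d : ℕ} {S : ι → Set (G → K)}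
    (h : ∀ i, C.Nul d (S i)) : C.Nul d (⋃ i, S i) := by
  rw [Nul, Set.image_iUnion]; exact measure_iUnion_null h

theorem Nul.union {G : Type} [Fintype G] {d : ℕ} {S S' : Set (G → K)} (h : C.Nul d S)
    (h' : C.Nul d S') : C.Nul d (S ∪ S') := by
  rw [Nul, Set.image_union]; exact measure_union_null h h'

theorem Nul.image {G : Type} [Fintype G] {d : ℕ} {S : Set (G → K)} (h : C.Nul d S)
    {f : (G → K) → G → K} {W : (G → A) → G → A} (hW : ContDiff ℝ 1 W)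
    (hf : ∀ x, W (C.emb x) = C.emb (f x)) : C.Nul d (f '' S) := by
  have := null_image (fun _ _ => hW.contDiffAt) h
  rwa [Set.image_image, funext hf, ← Set.image_image C.emb f] at this

theorem Nul.act {G : Type} [Fintype G] {d : ℕ} {S : Set (G → K)} (h : C.Nul d S)
    (φ : FreeGroup G →* FreeGroup G) : C.Nul d (Ctx.act φ '' S) := by
  choose W h1 h2 using fun i => C.word_smooth (φ (.of i))
  exact h.image (W := fun z i => W i z) (contDiff_pi.2 h1) fun x => funext fun i => h2 i x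

theorem Sec.cond {S : Set (Gen g → K)} {x u xs c} (h : C.Sec S x u xs c) {l : List (Fin g)}
    (hd : ∀ y ∈ S, finrank ℝ (C.cen x l) ≤ finrank ℝ (C.cen y l)) : C.Cond x l u := by
  intro ζ hζ i hi ya yb hy
  obtain ⟨z, hz, hz'⟩ := ker_cont (((C.cont_cenOp l).tendsto x).comp h.lim)
    (fun n => by rw [Function.comp, Ctx.ker_cenOp, Ctx.ker_cenOp]; exact hd _ (h.mem n))
    (ζ := ζ) (by rw [← Ctx.ker_cenOp] at hζ; exact hζ)
  have h1 := ((tendsto_const_nhds (x := ya)).inner (𝕜 := ℝ) (h.Ad (i, false) hz)).add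
    ((tendsto_const_nhds (x := yb)).inner (𝕜 := ℝ) (h.Ad (i, true) hz))
  rw [hζ i hi, hζ i hi] at h1
  refine tendsto_nhds_unique h1 (tendsto_const_nhds.congr' (hz'.mono fun n hn => ?_))
  have h2 : z n ∈ C.cen (xs n) l := by rw [← Ctx.ker_cenOp]; exact hn
  have h3 := congrArg (fun v => ⟪v, z n⟫) hy
  simp only [inner_add_left, inner_sub_left, inner_zero_left, ← Ctx.inner_Ad_right] at h3
  simp only [h2 i hi, real_inner_smul_right, inner_sub_right, ← mul_add, h3, mul_zero]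

theorem finrank_map_tv (x : Gen g → K) (V : Submodule ℝ (Gen g → L)) :
    finrank ℝ (V.map (C.tv x)) ≤ finrank ℝ V := Submodule.finrank_map_le _ _

theorem irr_null (C : Amb L K A) (d : ℕ) : C.Nul d {x : Gen (g + 2) → K |
    Ctx.val x (relator _) = 1 ∧ finrank ℝ (C.Z1 x) = d ∧ ¬ C.cen x [0] ≤ C.Z} := by
  set l' : List (Fin (g + 2)) := List.ofFn Fin.succ with hl'
  have hr : relator (g + 2) = Ctx.wl [0] * Ctx.wl l' := by
    rw [relator_succ, hl', Ctx.wl, Ctx.wl, List.map_ofFn]; simp [Function.comp_def]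
  refine Nul.mono (Nul.iUnion (S := fun p : ℕ × ℕ => {x : Gen (g + 2) → K |
    (Ctx.val x (relator _) = 1 ∧ finrank ℝ (C.Z1 x) = d ∧ ¬ C.cen x [0] ≤ C.Z) ∧
      finrank ℝ (C.cen x [0]) = p.1 ∧ finrank ℝ (C.cen x l') = p.2}) fun p => ?_)
    fun x hx => Set.mem_iUnion.2 ⟨(_, _), hx, rfl, rfl⟩
  refine null_of_tan_lt _ ?_
  rintro _ ⟨x, ⟨⟨hx, hd, hZ⟩, h1, h2⟩, rfl⟩
  let V : ∀ l : List (Fin (g + 2)), Submodule ℝ (Gen (g + 2) → L) := fun l =>
    { carrier := {u | C.Cond x l u}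
      zero_mem' := fun ζ _ i _ ya yb _ => by simp
      add_mem' := fun {a b} ha hb ζ hζ i hi ya yb hy => by
        have e1 := ha ζ hζ i hi ya yb hy
        have e2 := hb ζ hζ i hi ya yb hy
        simp only [Pi.add_apply, map_add, ContinuousLinearMap.add_apply, inner_add_right]
        linarith
      smul_mem' := fun c a ha ζ hζ i hi ya yb hy => by
        simp only [Pi.smul_apply, map_smul, ContinuousLinearMap.smul_apply, real_inner_smul_right,
          ← mul_add, ha ζ hζ i hi ya yb hy, mul_zero] }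
  refine ⟨(C.Z1 x ⊓ (V [0] ⊓ V l')).map (C.tv x), (finrank_map_tv _ _).trans_lt ?_, fun w hw => ?_⟩
  · rw [← hd]
    refine Submodule.finrank_lt_finrank_of_lt (lt_of_le_of_ne inf_le_left fun e => hZ ?_)
    refine C.not_cond (l' := l') (i₀ := 0) (i₁ := 1) (by simp)
      (List.nodup_ofFn.2 (Fin.succ_injective _)) (by simp) (List.mem_ofFn.2 ⟨0, rfl⟩)
      (fun i => by rw [hl', List.mem_ofFn, List.mem_singleton]; exact Fin.exists_succ_eq) (k := 1)
      (k' := Ctx.val x (Ctx.wl [0])) (fun u => by rw [hr, Ctx.cv_mul, Ctx.Ad_one_apply])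
      (Or.inl rfl) (Or.inr ?_) fun u hu => (inf_eq_left.1 e hu)
    rw [hr, map_mul] at hx
    exact eq_inv_of_mul_eq_one_left hx
  · obtain ⟨u, xs, c, hs, rfl⟩ := C.exists_sec hw
    exact ⟨u, ⟨hs.cv_eq_zero fun n => (hs.mem n).1.1.trans hx.symm,
      hs.cond fun y hy => (h1.trans hy.2.1.symm).le, hs.cond fun y hy => (h2.trans hy.2.2.symm).le⟩,
      rfl⟩

theorem contDiff_exp : ContDiff ℝ 1 (NormedSpace.exp : A → A) :=
  contDiff_iff_contDiffAt.2 fun x => (NormedSpace.exp_analytic (𝕂 := ℝ) x).contDiffAt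

variable [MeasurableSpace L] [BorelSpace L]

theorem pull_null (C : Amb L K A) {j : Fin g} {m : ℕ} {s : Fin m → Gen g}
    (hs : Function.Injective s) (hsj : ∀ t, (s t).1 ≠ j) {P : (Fin m → K) → Prop}
    (hP : C.Generic P) :
    C.Nul (C.d0 g) {x | x ∈ C.Rirr g ∧ C.cen x [j] ≤ C.Z ∧ ¬ P (x ∘ s)} := by
  set S := {x | x ∈ C.Rirr g ∧ C.cen x [j] ≤ C.Z ∧ ¬ P (x ∘ s)} with hS
  let N : (Gen g → K) → Submodule ℝ (Gen g → L) := fun x =>
    C.Z1 x ⊓ LinearMap.ker (LinearMap.funLeft ℝ L s)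
  have hN : ∀ x ∈ S, C.d0 g = finrank ℝ (Fin m → L) + finrank ℝ (N x) := fun x hx => by
    have h1 := (LinearMap.funLeft ℝ L s ∘ₗ (C.Z1 x).subtype).finrank_range_add_finrank_ker
    rw [LinearMap.range_eq_top.2 fun y => by
      obtain ⟨u, hu, e⟩ := C.surj_res hx.2.1 hs hsj y
      exact ⟨⟨u, hu⟩, funext e⟩, finrank_top, C.finrank_Z1_irr hx.1, LinearMap.ker_comp,
      ← Submodule.finrank_map_subtype_eq, Submodule.map_comap_subtype] at h1
    exact h1.symm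
  rcases S.eq_empty_or_nonempty with h0 | ⟨x₀, hx₀⟩
  · simp [Nul, h0]
  set d' := finrank ℝ (N x₀)
  let R : (Gen g → A) →L[ℝ] (Fin m → A) :=
    ContinuousLinearMap.pi fun t => ContinuousLinearMap.proj (s t)
  refine null_of_cover (fun p : (Gen g → A) →L[ℝ] (Fin d' → ℝ) => R.prod p)
    (continuous_clm_apply.2 fun y => continuous_const.prodMk (continuous_id.clm_apply
      continuous_const)) _ ?_ fun p => ?_
  · rintro _ ⟨x, hx, rfl⟩
    obtain ⟨p, hp⟩ := exists_inj_on ((N x).map (C.tv x)) (d := d') ((finrank_map_tv _ _).trans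
      (by have := hN x hx; have := hN x₀ hx₀; omega))
    refine ⟨p, fun w hw h => hp w ?_ (congrArg Prod.snd h)⟩
    obtain ⟨u, xs, c, hsec, rfl⟩ := C.exists_sec hw
    exact ⟨u, ⟨hsec.cv_eq_zero fun n => (hsec.mem n).1.1.trans hx.1.1.symm,
      funext fun t => C.eq_zero_of_j_mul (congrFun (congrArg Prod.fst h) t)⟩, rfl⟩
  · obtain ⟨T, -, hT⟩ := isCompact_univ.elim_nhds_subcover _ fun (h : Fin m → K) _ =>
      chart_nhds C.toCtx h
    let Θ : (Fin m → K) → (Fin m → L) × (Fin d' → ℝ) → (Fin m → A) × (Fin d' → ℝ) := fun h q =>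
      (fun t => NormedSpace.exp (C.j (q.1 t)) * C.ι (h t), q.2)
    have hΘ : ∀ h, ContDiff ℝ 1 (Θ h) := fun h =>
      ContDiff.prodMk (contDiff_pi.2 fun t => ContDiff.mul (contDiff_exp.comp
        (C.j.contDiff.comp ((contDiff_apply ℝ L t).comp contDiff_fst))) contDiff_const) contDiff_snd
    have hd : C.d0 g = finrank ℝ (Fin m → L) + finrank ℝ (Fin d' → ℝ) := by
      rw [hN x₀ hx₀, finrank_fin_fun]
    have h0 : ∀ h : Fin m → K,
        (volume : Measure (Fin m → L)) {ξ | ¬ P fun i => C.ex (ξ i) * h i} = 0 := hP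
    have h1 := fun h => null_prod_image volume (h0 h) (hΘ h) hd
    have h2 := (measure_biUnion_null_iff T.countable_toSet).2 fun h _ => h1 h
    refine measure_mono_null ?_ h2
    · rintro _ ⟨_, ⟨x, hx, rfl⟩, rfl⟩
      obtain ⟨h, hh, ξ, e⟩ := Set.mem_iUnion₂.1 (hT (Set.mem_univ (x ∘ s)))
      refine Set.mem_biUnion hh ⟨(ξ, p (C.emb x)), ⟨?_, trivial⟩, Prod.ext (funext fun t => ?_) rfl⟩
      · simp only at e
        rw [Set.mem_setOf_eq, e]; exact hx.2.2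
      · simp only [Θ, ← C.ι_ex, ← map_mul]
        exact congrArg C.ι (congrFun e t)

end Amb

end Pool.Agent.Lib.MP_d52947_gt
end

-- part Pool.Agent.Lib.MP_d52947_gt.Shear
section

/-! Recurrence under a Dehn twist. -/

namespace Pool.Agent.Lib.MP_d52947_gt

open Filter Topology Module MeasureTheory
open scoped RealInnerProductSpace

namespace Ctx

variable {L : Type} [NormedAddCommGroup L] [InnerProductSpace ℝ L] [FiniteDimensional ℝ L]
  {K : Type} [Group K] [TopologicalSpace K] [IsTopologicalGroup K] [CompactSpace K]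
  [ConnectedSpace K] (C : Ctx L K) {g : ℕ}

theorem norm_Ad (k : K) (x : L) : ‖C.Ad k x‖ = ‖x‖ := by
  rw [norm_eq_sqrt_real_inner, C.inner_Ad, ← norm_eq_sqrt_real_inner]

theorem exists_log_fix (a : K) {ε : ℝ} (hε : 0 < ε) :
    ∀ᶠ k in 𝓝 (1 : K), a * k = k * a → ∃ ζ ∈ C.Fix a, ‖ζ‖ < ε ∧ C.ex ζ = k := by
  obtain ⟨U, hU, hi⟩ := C.ex_inj
  obtain ⟨δ, hδ, hb⟩ := Metric.mem_nhds_iff.1 hU
  filter_upwards [C.ex_nhds _ (Metric.ball_mem_nhds 0 (lt_min hδ hε))]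
  rintro _ ⟨ζ, hζ, rfl⟩ h
  rw [mem_ball_zero_iff, lt_min_iff] at hζ
  refine ⟨ζ, C.mem_Fix.2 (hi (hb ?_) (hb ?_) ?_), hζ.2, rfl⟩
  · rw [mem_ball_zero_iff, norm_Ad]; exact hζ.1
  · rw [mem_ball_zero_iff]; exact hζ.1
  · rw [← C.ex_conj, h, mul_inv_cancel_right]

theorem exists_pow_ex (a : K) : ∃ (m : ℕ → ℕ) (ζ : ℕ → L), Tendsto m atTop atTop ∧
    Tendsto ζ atTop (𝓝 0) ∧ ∀ n, ζ n ∈ C.Fix a ∧ C.ex (ζ n) = a ^ m n := by
  have h : ∀ n : ℕ, ∃ m ≥ n, ∃ ζ ∈ C.Fix a, ‖ζ‖ < 1 / (n + 1) ∧ C.ex ζ = a ^ m := fun n => by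
    obtain ⟨m, h1, h2⟩ := ((mapClusterPt_iff_frequently.1 (mapClusterPt_one_atTop_pow a) _
      (C.exists_log_fix a (ε := 1 / (n + 1)) (by positivity))).and_eventually
      (eventually_ge_atTop n)).exists
    exact ⟨m, h2, h1 (Commute.self_pow a m)⟩
  choose m h1 ζ h2 h3 h4 using h
  exact ⟨m, ζ, tendsto_atTop_mono h1 tendsto_id,
    squeeze_zero_norm (fun n => (h3 n).le) tendsto_one_div_add_atTop_nhds_zero_nat,
    fun n => ⟨h2 n, h4 n⟩⟩

/-- multiply `b_0` on the right -/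
def tb (x : Gen (g + 1) → K) (t : K) : Gen (g + 1) → K :=
  Function.update x (0, true) (x (0, true) * t)

theorem tb_a (x : Gen (g + 1) → K) (t : K) (i) : tb x t (i, false) = x (i, false) := by simp [tb]
theorem tb_b (x : Gen (g + 1) → K) (t : K) : tb x t (0, true) = x (0, true) * t := by simp [tb]
theorem tb_succ (x : Gen (g + 1) → K) (t : K) (i : Fin g) (s) :
    tb x t (i.succ, s) = x (i.succ, s) := by simp [tb, Fin.succ_ne_zero]
theorem tb_tb (x : Gen (g + 1) → K) (t t' : K) : tb (tb x t) t' = tb x (t * t') := by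
  simp [tb, mul_assoc]
theorem tb_one (x : Gen (g + 1) → K) : tb x 1 = x := by simp [tb]

theorem act_tau_pow (x : Gen (g + 1) → K) (m : ℕ) :
    act (tau ^ m : AutR (g + 1)).1.toMonoidHom x = tb x (x (0, false) ^ m) := by
  funext p
  refine gen_cases1 (P := fun p => act (tau ^ m : AutR (g + 1)).1.toMonoidHom x p =
    tb x (x (0, false) ^ m) p) ?_ ?_ (fun j s => ?_) p
  · rw [tb_a]; exact (congrArg (val x) (tau_pow_a m)).trans (by simp)
  · rw [tb_b]; exact (congrArg (val x) (tau_pow_b m)).trans (by simp)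
  · rw [tb_succ]; exact (congrArg (val x) (tau_pow_succ m j s)).trans (by simp)

theorem val_tb {x : Gen (g + 1) → K} {t : K} (h : x (0, false) * t = t * x (0, false)) :
    val (tb x t) (relator _) = val x (relator _) := by
  simp only [relator, map_list_prod, List.map_ofFn]
  congr 2
  funext i
  refine Fin.cases ?_ (fun j => by simp [hcomm, tb_succ]) i
  simp only [Function.comp, hcomm, map_mul, map_inv, FreeGroup.lift_apply_of, tb_a, tb_b]
  have : t * (x (0, false))⁻¹ * t⁻¹ = (x (0, false))⁻¹ := by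
    rw [mul_inv_eq_iff_eq_mul, mul_inv_eq_iff_eq_mul, mul_assoc, ← h, inv_mul_cancel_left]
  conv_rhs => rw [← this]
  group

theorem isOpen_reg : IsOpen {k | C.Reg k} := by
  simp only [reg_iff]
  exact isOpen_ker_le (f := fun k => 1 - C.Ad k) (continuous_const.sub C.cont_Ad) _

theorem isOpen_cen (l : List (Fin g)) : IsOpen {x : Gen g → K | C.cen x l ≤ C.Z} := by
  convert isOpen_ker_le (C.cont_cenOp l) (finrank ℝ C.Z) using 1
  ext x
  rw [Set.mem_setOf_eq, Set.mem_setOf_eq, ker_cenOp]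
  exact ⟨Submodule.finrank_mono,
    fun h => (Submodule.eq_of_le_of_finrank_le (C.Z_le_cen x l) h).ge⟩

/-- the regular part of the representation variety -/
def Rr (g : ℕ) : Set (Gen (g + 2) → K) :=
  {x | val x (relator _) = 1 ∧ C.cen x [1] ≤ C.Z ∧ C.Reg (x (0, false))}

theorem Rr_sub : C.Rr g ⊆ C.Rirr (g + 2) := fun _ hx =>
  ⟨hx.1, fun _ h => hx.2.1 fun i _ => h i (List.mem_finRange i)⟩

theorem tb_mem_Rr {x : Gen (g + 2) → K} (hx : x ∈ C.Rr g) {t : K}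
    (h : x (0, false) * t = t * x (0, false)) : tb x t ∈ C.Rr g :=
  ⟨(val_tb h).trans hx.1, fun θ hθ => hx.2.1 fun i hi s => by
    rw [List.mem_singleton] at hi
    have := hθ i (by simp [hi]) s
    rwa [hi, ← Fin.succ_zero_eq_one, tb_succ, Fin.succ_zero_eq_one, ← hi] at this,
    by rw [tb_a]; exact hx.2.2⟩

end Ctx

namespace Amb

variable {L : Type} [NormedAddCommGroup L] [InnerProductSpace ℝ L] [FiniteDimensional ℝ L]
  {K : Type} [Group K] [TopologicalSpace K] [IsTopologicalGroup K] [CompactSpace K]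
  [ConnectedSpace K] {A : Type} [NormedRing A] [NormedAlgebra ℝ A] [FiniteDimensional ℝ A]
  [CompleteSpace A] [MeasurableSpace A] [BorelSpace A] (C : Amb L K A) {g : ℕ}

theorem meas_image {G : Type} [Fintype G] {S T : Set (G → K)} (hS : IsClosed S) (hT : IsOpen T) :
    MeasurableSet (C.emb '' (S ∩ T)) := by
  obtain ⟨U, hU, rfl⟩ := C.emb_closed.isInducing.isOpen_iff.1 hT
  rw [Set.image_inter_preimage]
  exact (C.emb_closed.isClosedMap _ hS).measurableSet.inter hU.measurableSet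

include C in
theorem isClosed_rel {G : Type} [Fintype G] (w : FreeGroup G) :
    IsClosed {x : G → K | Ctx.val x w = 1} :=
  haveI := C.ι_emb.isEmbedding.t2Space
  isClosed_eq (cont_val w) continuous_const

theorem meas_Rr : MeasurableSet (C.emb '' C.Rr g) :=
  C.meas_image (T := {x | C.cen x [1] ≤ C.Z} ∩ (fun x => x (0, false)) ⁻¹' {k | C.Reg k})
    (C.isClosed_rel _) ((C.isOpen_cen [1]).inter
    (C.isOpen_reg.preimage (continuous_apply (0, false))))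

/-- ambient extension of `Ad` -/
noncomputable def Adx (y : A) : L →L[ℝ] L :=
  C.P ∘L ContinuousLinearMap.mulLeftRight ℝ A y (C.tr y) ∘L C.j

theorem Adx_ι (k : K) : C.Adx (C.ι k) = C.Ad k := by
  ext y; simp [Adx, C.tr_ι, C.Ad_eq]

theorem contDiff_Adx : ContDiff ℝ 1 C.Adx :=
  contDiff_const.clm_comp ((((ContinuousLinearMap.mulLeftRight ℝ A).contDiff).clm_apply
    C.tr.contDiff).clm_comp contDiff_const)

variable [MeasurableSpace L] [BorelSpace L]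

theorem rec_null (h : (Gen (g + 2) → A) → ℝ) (hm : Measurable h) :
    C.Nul (C.d0 (g + 2)) {x | x ∈ C.Rr g ∧ ¬ ∃ M : ℕ, ∃ᶠ m : ℕ in atTop,
      h (C.emb (Ctx.act (tau ^ m : AutR (g + 2)).1.toMonoidHom x)) ≤ M} := by
  obtain ⟨pt, lam, hpt, -, h0, h2⟩ := C.exists_pt
  have h1 : ∀ k x, pt (C.Ad k) x ∈ C.Fix k := fun k x => by
    rw [h0]; exact Submodule.smul_mem _ _ (C.pj_mem k x)
  let tA : (Gen (g + 2) → A) → A → Gen (g + 2) → A := fun z t =>
    Function.update z (0, true) (z (0, true) * t)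
  have htA : ∀ x t, tA (C.emb x) (C.ι t) = C.emb (Ctx.tb x t) := fun x t => by
    simp only [tA, emb, Ctx.tb, ← map_mul]
    exact (Function.comp_update C.ι x _ _).symm
  have hc : ContDiff ℝ 1 fun p : (Gen (g + 2) → A) × A => tA p.1 p.2 := by
    refine contDiff_pi.2 fun i => ?_
    by_cases hi : i = (0, true)
    · subst hi
      simp only [tA, Function.update_self]; fun_prop
    · simp only [tA, Function.update_of_ne hi]; fun_prop
  let W : (Gen (g + 2) → A) × L → Gen (g + 2) → A := fun p =>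
    tA p.1 (NormedSpace.exp (C.j (pt (C.Adx (p.1 (0, false))) p.2)))
  have hW : ContDiff ℝ 1 W := hc.comp (contDiff_fst.prodMk (contDiff_exp.comp
    (C.j.contDiff.comp (((contDiffOn_univ.1 hpt.contDiffOn_of_completeSpace).comp
      (C.contDiff_Adx.comp (by fun_prop))).clm_apply contDiff_snd))))
  let fl : L → (Gen (g + 2) → K) → Gen (g + 2) → K := fun ξ x =>
    Ctx.tb x (C.ex (pt (C.Ad (x (0, false))) ξ))
  have hfl : ∀ ξ x, W (C.emb x, ξ) = C.emb (fl ξ x) := fun ξ x => by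
    simp only [W, ← htA, fl, C.ι_ex, ← C.Adx_ι]; rfl
  have hR : ∀ ξ, ∀ x ∈ C.Rr g, fl ξ x ∈ C.Rr g := fun ξ x hx =>
    C.tb_mem_Rr hx (C.ex_comm (h1 _ _))
  have hadd : ∀ x ∈ C.Rr g, ∀ ξ η, fl η (fl ξ x) = fl (ξ + η) x := fun x hx ξ η => by
    simp only [fl, Ctx.tb_tb, Ctx.tb_a, map_add]
    rw [C.ex_add _ _ ((Ctx.Reg.maxAb _ hx.2.2 _).1 (h1 _ _) _ (h1 _ _))]
  let Q : (Gen (g + 2) → A) → Prop := fun z =>
    ∃ M : ℕ, ∃ᶠ m : ℕ in atTop, h (tA z (z (0, false) ^ m)) ≤ M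
  have hQ : ∀ x, Q (C.emb x) ↔ ∃ M : ℕ, ∃ᶠ m : ℕ in atTop,
      h (C.emb (Ctx.act (tau ^ m : AutR (g + 2)).1.toMonoidHom x)) ≤ M := fun x => by
    simp only [Q, Ctx.act_tau_pow, ← htA, map_pow]; rfl
  have hQm : MeasurableSet {z | Q z} := by
    simp only [Q, frequently_atTop, Set.setOf_exists, Set.setOf_forall]
    refine MeasurableSet.iUnion fun M => MeasurableSet.iInter fun a => MeasurableSet.iUnion fun m =>
      MeasurableSet.inter (MeasurableSet.const _) (measurableSet_le (hm.comp ?_) measurable_const)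
    exact (hc.continuous.comp (f := fun z => (z, z (0, false) ^ m)) (by fun_prop)).measurable
  have : SigmaFinite ((μH[C.d0 (g + 2)] : Measure (Gen (g + 2) → A)).restrict (C.emb '' C.Rr g)) :=
    sigmaFinite_of_tan_le C.meas_Rr (by
      rintro _ ⟨x, hx, rfl⟩
      refine ⟨(C.Z1 x).map (C.tv x), (finrank_map_tv _ _).trans
        (C.finrank_Z1_irr (C.Rr_sub hx)).le, fun w hw => ?_⟩
      obtain ⟨u, xs, c, hs, rfl⟩ := C.exists_sec hw
      exact ⟨u, hs.cv_eq_zero fun n => (hs.mem n).1.trans hx.1.symm, rfl⟩)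
  have key : ∀ᵐ z ∂(μH[C.d0 (g + 2)] : Measure (Gen (g + 2) → A)).restrict (C.emb '' C.Rr g),
      ∀ᵐ ξ : L, Q (W (z, ξ)) := by
    filter_upwards [ae_restrict_mem C.meas_Rr]
    rintro _ ⟨x, hx, rfl⟩
    obtain ⟨m, ζ, hm1, hζ, h3⟩ := C.exists_pow_ex (x (0, false))
    have hl := (h2 _).1 hx.2.2
    have hp := h0 (x (0, false))
    filter_upwards [ae_freq_le volume (f := fun ξ => h (W (C.emb x, ξ)))
      (hm.comp (hW.continuous.comp (by fun_prop)).measurable)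
      (η := fun n => (lam (C.Ad (x (0, false))))⁻¹ • ζ n) 
      (by simpa using hζ.const_smul (lam (C.Ad (x (0, false))))⁻¹)]
    rintro ξ ⟨M, hM⟩
    rw [hfl, hQ]
    refine ⟨M, hm1.frequently (hM.mono fun n hn => ?_)⟩
    rw [hfl, ← hadd x hx] at hn
    convert hn using 3
    simp only [Ctx.act_tau_pow, fl, Ctx.tb_a, hp, ContinuousLinearMap.smul_apply, map_smul,
      smul_smul, inv_mul_cancel₀ hl, mul_inv_cancel₀ hl, one_smul, C.pj_of_mem (h3 n).1, (h3 n).2]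
  rw [Measure.ae_ae_comm (p := fun z ξ => Q (W (z, ξ))) (hW.continuous.measurable hQm)] at key
  obtain ⟨ξ, hξ⟩ := key.exists
  have h4 : C.Nul (C.d0 (g + 2)) {x | x ∈ C.Rr g ∧ ¬ Q (C.emb (fl ξ x))} := by
    rw [ae_iff, Measure.restrict_apply' C.meas_Rr] at hξ
    refine measure_mono_null ?_ hξ
    rintro _ ⟨x, hx, rfl⟩
    exact ⟨by rw [Set.mem_setOf_eq, hfl]; exact hx.2, x, hx.1, rfl⟩
  refine (h4.image (f := fl ξ) (W := fun z => W (z, ξ)) (hW.comp (by fun_prop)) (hfl ξ)).mono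
    fun x hx => ?_
  have e : fl ξ (fl (-ξ) x) = x := by
    rw [hadd x hx.1]; simp [fl, C.ex_zero, Ctx.tb_one]
  exact ⟨fl (-ξ) x, ⟨hR _ _ hx.1, by rw [e, hQ]; exact hx.2⟩, e⟩

end Amb

end Pool.Agent.Lib.MP_d52947_gt
end
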