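import Pool.Agent.Lib.MP_d52947_gt.AmbB
import Pool.Agent.Lib.MP_d52947_gt.Shear
import Pool.Agent.Lib.MP_d52947_gt.OneA

-- part Pool.Agent.Lib.MP_d52947_gt.PointA
section

/-! A cocycle killed by the differentials of all curves is a coboundary. -/

namespace Pool.Agent.Lib.MP_d52947_gt

open scoped RealInnerProductSpace

theorem AutR.mul_apply {g : ℕ} (φ ψ : AutR g) (w : FG g) : (φ * ψ).1 w = φ.1 (ψ.1 w) := rfl

/-- a set of automorphisms closed under the basic moves -/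
structure Closed {g : ℕ} (S : AutR (g + 2) → Prop) : Prop where
  one : S 1
  tau : ∀ φ, S φ → S (φ * tau)
  psi' : ∀ φ, S φ → S (φ * psi')
  chi : ∀ φ, S φ → S (φ * chi)
  psi1 : ∀ φ, S φ → S (φ * psi1)
  rot : ∀ φ, S φ → S (φ * rot)
  kap : ∀ φ, S φ → S (φ * kap)

theorem Closed.pow {g : ℕ} {S : AutR (g + 2) → Prop} {s : AutR (g + 2)}
    (h : ∀ φ, S φ → S (φ * s)) {φ : AutR (g + 2)} (hφ : S φ) (n : ℕ) : S (φ * s ^ n) := by
  induction n with
  | zero => simpa using hφ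
  | succ n ih => rw [pow_succ, ← mul_assoc]; exact h _ ih

theorem exists_rot' {g : ℕ} {S : AutR (g + 1) → Prop} (h1 : S 1) (h : ∀ φ, S φ → S (φ * rot))
    (i : Fin (g + 1)) : ∃ (φ : AutR (g + 1)) (k : FG (g + 1)), S φ ∧
      ∀ j s, φ.1 (.of (j, s)) = k * .of (j + i, s) * k⁻¹ := by
  induction i using Fin.induction with
  | zero => exact ⟨1, 1, h1, fun j s => by simp⟩
  | succ i ih =>
    obtain ⟨φ, k, hS, hk⟩ := ih
    refine ⟨φ * rot, φ.1 (hcomm 0) * k, h _ hS, fun j s => ?_⟩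
    rw [AutR.mul_apply, rot_of, map_mul, map_mul, map_inv, hk, add_assoc, add_comm 1,
      Fin.coeSucc_eq_succ]
    group

namespace Ctx

variable {L : Type} [NormedAddCommGroup L] [InnerProductSpace ℝ L] [FiniteDimensional ℝ L]
  {K : Type} [Group K] [TopologicalSpace K] [IsTopologicalGroup K] [CompactSpace K]
  [ConnectedSpace K] (C : Ctx L K) {g : ℕ}

/-- `v` agrees with the coboundary of `ζ` on `e` -/
def Cob {G : Type} (x : G → K) (v : G → L) (ζ : L) (e : FreeGroup G) : Prop :=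
  C.cv x e v = ζ - C.Ad (val x e) ζ

variable {C}

theorem Cob.mul {G : Type} {x : G → K} {v : G → L} {ζ : L} {e f : FreeGroup G}
    (he : C.Cob x v ζ e) (hf : C.Cob x v ζ f) : C.Cob x v ζ (e * f) := by
  unfold Cob at *
  rw [cv_mul, he, hf, map_mul, Ad_mul_apply, map_sub]; abel

theorem Cob.inv {G : Type} {x : G → K} {v : G → L} {ζ : L} {e : FreeGroup G}
    (he : C.Cob x v ζ e) : C.Cob x v ζ e⁻¹ := by
  unfold Cob at *
  rw [cv_inv, he, map_inv (val x), map_sub, Ad_inv_Ad]; abel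

theorem Cob.pow {G : Type} {x : G → K} {v : G → L} {ζ : L} {e : FreeGroup G}
    (he : C.Cob x v ζ e) (n : ℕ) : C.Cob x v ζ (e ^ n) := by
  induction n with
  | zero => simp [Cob]
  | succ n ih => rw [pow_succ]; exact ih.mul he

theorem cob_conj {G : Type} {x : G → K} {v : G → L} {ζ : L} {e : FreeGroup G} (k : FreeGroup G) :
    C.Cob x v (C.cv x k v + C.Ad (val x k) ζ) (k * e * k⁻¹) ↔ C.Cob x v ζ e := by
  unfold Cob
  rw [cv_conj, map_add]
  have : C.Ad (val x (k * e * k⁻¹)) (C.Ad (val x k) ζ) = C.Ad (val x k) (C.Ad (val x e) ζ) := by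
    simp [Ad_mul_apply]
  rw [this]
  constructor
  · intro h
    have h' : C.Ad (val x k) (C.cv x e v) = C.Ad (val x k) (ζ - C.Ad (val x e) ζ) := by
      rw [map_sub]; linear_combination (norm := module) h
    simpa using congrArg (C.Ad (val x k)⁻¹) h'
  · intro h; rw [h, map_sub]; abel

theorem exists_cob_of_conj {G : Type} {x : G → K} {v : G → L} {ζ : L} {e f k : FreeGroup G}
    (he : C.Cob x v ζ (k * e * k⁻¹)) (hf : C.Cob x v ζ (k * f * k⁻¹)) :
    ∃ ζ', C.Cob x v ζ' e ∧ C.Cob x v ζ' f := by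
  have : ζ = C.cv x k v + C.Ad (val x k) (C.Ad (val x k)⁻¹ (ζ - C.cv x k v)) := by simp
  rw [this, cob_conj] at he hf
  exact ⟨_, he, hf⟩

theorem Cob.sub_mem {G : Type} {x : G → K} {v : G → L} {ζ ζ' : L} {e : FreeGroup G}
    (h : C.Cob x v ζ e) (h' : C.Cob x v ζ' e) : ζ' - ζ ∈ C.Fix (val x e) := by
  unfold Cob at *
  rw [mem_Fix, map_sub]
  linear_combination (norm := module) h' - h

theorem Cob.of_Z {G : Type} {x : G → K} {v : G → L} {ζ ζ' : L} {e : FreeGroup G}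
    (h : C.Cob x v ζ' e) (hZ : ζ' - ζ ∈ C.Z) : C.Cob x v ζ e := by
  unfold Cob at *
  have := (C.mem_Z_iff _).1 hZ (val x e)
  rw [map_sub] at this
  rw [h]; linear_combination (norm := module) -this

theorem pair_cob {I : C.Ideals} {x : Gen g → K} {v : C.Z1 x} {e f : FG g}
    (hg : C.GoodPair I (val x e) (val x f)) (he : C.dI x e v = 0)
    (hf : ∀ n : ℕ, C.dI x (f * e ^ n) v = 0) : ∃ ζ, C.Cob x v ζ e ∧ C.Cob x v ζ f := by
  obtain ⟨η, hη⟩ := C.exists_sub_Ad he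
  have hη : C.Cob x v η e := hη
  obtain ⟨η', hη', h⟩ := hg.hA (C.cv x f v - (η - C.Ad (val x f) η)) fun n => by
    rw [← pj_eq_zero_iff]
    have h1 := hf n
    rw [dI_apply, cv_mul, hη.pow n, map_mul, map_pow] at h1
    have h2 := C.pj_sub_Ad (val x f * val x e ^ n) η
    rw [← sub_eq_zero.2 (h1.trans h2.symm), ← map_sub, Ad_mul_apply, map_sub (C.Ad _)]
    congr 1; abel
  refine ⟨η + η', ?_, ?_⟩
  · unfold Cob at *
    rw [hη, map_add, C.mem_Fix.1 hη']; abel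
  · unfold Cob
    rw [map_add]; linear_combination (norm := module) h

section
variable {I : C.Ideals} {x : Gen (g + 2) → K} {v : C.Z1 x} {S : AutR (g + 2) → Prop}

theorem dI_b (hS : Closed S) (hv : ∀ φ, S φ → C.dI x (φ.1 (ga 0)) v = 0) {φ : AutR (g + 2)}
    (hφ : S φ) : C.dI x (φ.1 (gb 0)) v = 0 := by
  have := hv _ (hS.psi' _ hφ)
  rwa [AutR.mul_apply, psi'_a, map_inv, dI_inv, neg_eq_zero] at this

theorem pair_cob' (hS : Closed S)
    (hg : ∀ φ : AutR (g + 2), C.GoodPair I (val x (φ.1 (ga 0))) (val x (φ.1 (gb 0))))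
    (hv : ∀ φ, S φ → C.dI x (φ.1 (ga 0)) v = 0) {φ : AutR (g + 2)} (hφ : S φ) :
    ∃ ζ, C.Cob x v ζ (φ.1 (ga 0)) ∧ C.Cob x v ζ (φ.1 (gb 0)) :=
  pair_cob (hg φ) (hv φ hφ) fun n => by
    have := dI_b hS hv (Closed.pow hS.tau hφ n)
    rwa [AutR.mul_apply, tau_pow_b, map_mul, map_pow] at this

theorem pair_cob1 (hS : Closed S)
    (hg : ∀ φ : AutR (g + 2), C.GoodPair I (val x (φ.1 (ga 0))) (val x (φ.1 (gb 0))))
    (hv : ∀ φ, S φ → C.dI x (φ.1 (ga 0)) v = 0) {φ : AutR (g + 2)} (hφ : S φ) :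
    ∃ ζ, C.Cob x v ζ (φ.1 (ga 1)) ∧ C.Cob x v ζ (φ.1 (gb 1)) := by
  obtain ⟨ζ, h1, h2⟩ := pair_cob' hS hg hv (hS.rot _ hφ)
  rw [AutR.mul_apply, rot_of, map_mul, map_mul, map_inv, zero_add] at h1 h2
  exact exists_cob_of_conj h1 h2

theorem glue3 (hS : Closed S)
    (hg : ∀ φ : AutR (g + 2), C.GoodPair I (val x (φ.1 (ga 0))) (val x (φ.1 (gb 0))))
    (hT : ∀ φ : AutR (g + 2), ∀ η ∈ C.Fix (val x (φ.1 (ga 0))),
      η - C.Ad (val x (φ.1 (gb 0))) η ∈ (C.Fix (val x (φ.1 (ga 1))))ᗮ → η ∈ C.Z)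
    (hv : ∀ φ, S φ → C.dI x (φ.1 (ga 0)) v = 0) {φ : AutR (g + 2)} (hφ : S φ) {ζ0 ζ1 : L}
    (ha : C.Cob x v ζ0 (φ.1 (ga 0))) (hb : C.Cob x v ζ0 (φ.1 (gb 0)))
    (hc : C.Cob x v ζ1 (φ.1 (ga 1))) : ζ1 - ζ0 ∈ C.Fix (val x (φ.1 (ga 1))) := by
  obtain ⟨η, h1, h2⟩ := pair_cob' hS hg hv (hS.chi _ hφ)
  rw [AutR.mul_apply, chi_a] at h1
  rw [AutR.mul_apply, chi_b, map_mul, map_inv] at h2
  have h3 := ha.sub_mem h1
  have hc' := hc.inv
  unfold Cob at h2 hb hc'
  rw [cv_mul, hc', hb, map_mul, map_inv] at h2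
  set q := (val x (φ.1 (ga 1)))⁻¹ with hq
  have h4 : η - ζ0 - C.Ad q (C.Ad (val x (φ.1 (gb 0))) (η - ζ0)) = ζ1 - ζ0 - C.Ad q (ζ1 - ζ0) := by
    simp only [map_sub, Ad_mul_apply] at h2 ⊢
    linear_combination (norm := module) -h2
  have h5 : η - ζ0 ∈ C.Z := hT φ _ h3 <| by
    rw [← C.Fix_inv, ← hq, ← pj_eq_zero_iff, map_sub, ← C.pj_Ad q (C.Ad _ _), ← map_sub, h4,
      pj_sub_Ad]
  rw [(C.mem_Z_iff _).1 h5, (C.mem_Z_iff _).1 h5, sub_self] at h4
  rw [← C.Fix_inv, mem_Fix]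
  exact (sub_eq_zero.1 h4.symm).symm

theorem step3 (hS : Closed S)
    (hg : ∀ φ : AutR (g + 2), C.GoodPair I (val x (φ.1 (ga 0))) (val x (φ.1 (gb 0))))
    (hT : ∀ φ : AutR (g + 2), ∀ η ∈ C.Fix (val x (φ.1 (ga 0))),
      η - C.Ad (val x (φ.1 (gb 0))) η ∈ (C.Fix (val x (φ.1 (ga 1))))ᗮ → η ∈ C.Z)
    (hirr : ∀ φ : AutR (g + 2), ∀ η ∈ C.Fix (val x (φ.1 (ga 0))),
      η ∈ C.Fix (val x (φ.1 (gb 0))) → η ∈ C.Z)
    (hv : ∀ φ, S φ → C.dI x (φ.1 (ga 0)) v = 0) {φ : AutR (g + 2)} (hφ : S φ) {ζ0 : L}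
    (ha : C.Cob x v ζ0 (φ.1 (ga 0))) (hb : C.Cob x v ζ0 (φ.1 (gb 0))) :
    C.Cob x v ζ0 (φ.1 (ga 1)) ∧ C.Cob x v ζ0 (φ.1 (gb 1)) := by
  obtain ⟨ζ1, hc, hd⟩ := pair_cob1 hS hg hv hφ
  have h1 := glue3 hS hg hT hv hφ ha hb hc
  have h2 := glue3 hS hg hT hv (hS.psi1 _ hφ) (ζ0 := ζ0) (ζ1 := ζ1)
    (by rwa [AutR.mul_apply, psi1_a]) (by rwa [AutR.mul_apply, psi1_b])
    (by rw [AutR.mul_apply, psi1_c, map_inv]; exact hd.inv)
  rw [AutR.mul_apply, psi1_c, map_inv, map_inv, Fix_inv] at h2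
  have h3 := hirr (φ * rot) (C.Ad (val x (φ.1 (hcomm 0))) (ζ1 - ζ0))
  simp only [AutR.mul_apply, rot_of, map_mul, map_inv, zero_add, Ad_mem_Fix_conj] at h3
  have h4 := (C.mem_Z_iff _).1 (h3 h1 h2)
  have h5 : ζ1 - ζ0 ∈ C.Z := by
    rw [← C.Ad_inv_Ad (val x (φ.1 (hcomm 0))) (ζ1 - ζ0), h4]; exact h3 h1 h2
  exact ⟨hc.of_Z h5, hd.of_Z h5⟩

theorem cob_of_step (hS : Closed S)
    (hg : ∀ φ : AutR (g + 2), C.GoodPair I (val x (φ.1 (ga 0))) (val x (φ.1 (gb 0))))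
    (hv : ∀ φ, S φ → C.dI x (φ.1 (ga 0)) v = 0)
    (hstep : ∀ φ, S φ → ∀ ζ, C.Cob x v ζ (φ.1 (ga 0)) → C.Cob x v ζ (φ.1 (gb 0)) →
      C.Cob x v ζ (φ.1 (ga 1)) ∧ C.Cob x v ζ (φ.1 (gb 1))) : v ∈ C.B1 x := by
  obtain ⟨ζ, h1, h2⟩ := pair_cob' hS hg hv hS.one
  have key : ∀ i : Fin (g + 2), C.Cob x v ζ (ga i) ∧ C.Cob x v ζ (gb i) := by
    intro i
    induction i using Fin.induction with
    | zero => exact ⟨h1, h2⟩
    | succ i ih =>
      obtain ⟨φ, k, hφ, hk⟩ := exists_rot' hS.one hS.rot i.castSucc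
      have := hstep φ hφ (C.cv x k v + C.Ad (val x k) ζ)
      simp only [hk, cob_conj, zero_add, add_comm (1 : Fin (g + 2)), Fin.coeSucc_eq_succ] at this
      exact this ih.1 ih.2
  refine C.mem_B1.2 ⟨ζ, funext fun ⟨i, s⟩ => ?_⟩
  rw [del_apply]
  cases s
  · simpa [Cob] using (key i).1.symm
  · simpa [Cob] using (key i).2.symm

end

theorem step2 {I : C.Ideals} {x : Gen (0 + 2) → K} {v : C.Z1 x} {S : AutR (0 + 2) → Prop}
    (hx : val x (relator _) = 1) (hS : Closed S)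
    (hg : ∀ φ : AutR (0 + 2), C.GoodPair I (val x (φ.1 (ga 0))) (val x (φ.1 (gb 0))))
    {Pf : K → K → Prop}
    (hPf : ∀ a b x q c : K, Pf a b → Pf x q → c = a * b * a⁻¹ * b⁻¹ →
      c * (x * q * x⁻¹ * q⁻¹) = 1 → ∀ ζ ∈ C.Fix c,
        (∀ n : ℕ, ζ - C.Ad q ζ ∈ (C.Fix (q * (c ^ n * b * (c ^ n)⁻¹)))ᗮ) → ζ ∈ C.Z)
    (hP : ∀ φ : AutR (0 + 2), Pf (val x (φ.1 (ga 0))) (val x (φ.1 (gb 0))))
    (hv : ∀ φ, S φ → C.dI x (φ.1 (ga 0)) v = 0) {φ : AutR (0 + 2)} (hφ : S φ) {ζ0 : L}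
    (ha : C.Cob x v ζ0 (φ.1 (ga 0))) (hb : C.Cob x v ζ0 (φ.1 (gb 0))) :
    C.Cob x v ζ0 (φ.1 (ga 1)) ∧ C.Cob x v ζ0 (φ.1 (gb 1)) := by
  obtain ⟨ζ1, hc, hd⟩ := pair_cob1 hS hg hv hφ
  have hr : φ.1 (hcomm 0) * φ.1 (hcomm 1) = relator _ := by
    rw [← map_mul, ← mem_AutR.1 φ.2, relator]; simp [List.ofFn_succ]
  have hr' : val x (φ.1 (hcomm 0)) * val x (φ.1 (hcomm 1)) = 1 := by rw [← map_mul, hr, hx]
  have c0 : C.Cob x v ζ0 (φ.1 (hcomm 0)) := by
    simp only [hcomm, map_mul, map_inv]; exact ((ha.mul hb).mul ha.inv).mul hb.inv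
  have c1 : C.Cob x v ζ1 (φ.1 (hcomm 1)) := by
    simp only [hcomm, map_mul, map_inv]; exact ((hc.mul hd).mul hc.inv).mul hd.inv
  have hζ : ζ1 - ζ0 ∈ C.Fix (val x (φ.1 (hcomm 0))) := by
    have h := C.mem_Z1.1 v.2
    unfold Cob at c0 c1
    rw [← hr, cv_mul, c0, c1, map_sub, ← Ad_mul_apply, hr', Ad_one_apply] at h
    rw [mem_Fix, map_sub]
    linear_combination (norm := module) h
  have hval : ∀ s, val x ((φ * rot * kap).1 (.of (0, s))) = val x (φ.1 (.of (1, s))) := by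
    have e : rot.1 (hcomm 0 : FG (0 + 2)) = hcomm 0 * hcomm 1 * (hcomm 0)⁻¹ := by
      conv_lhs => rw [hcomm]
      simp only [map_mul, map_inv, rot_of, zero_add]
      rw [show (hcomm 1 : FG (0 + 2)) = ga 1 * gb 1 * (ga 1)⁻¹ * (gb 1)⁻¹ from rfl]
      group
    intro s
    have e2 : kap.1 (.of (0, s) : FG (0 + 2)) = hcomm 0 * .of (0, s) * (hcomm 0)⁻¹ := by
      cases s
      exacts [kap_a, kap_b]
    simp only [AutR.mul_apply, e2, map_mul, map_inv, e, rot_of, zero_add, hr']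
    group
  have h5 : ζ1 - ζ0 ∈ C.Z := by
    refine hPf _ _ _ _ _ (hP φ) (hP (φ * rot * kap * psi)) (by simp [hcomm]) ?_ _ hζ fun n => ?_
    · simp only [AutR.mul_apply (φ * rot * kap), psi_a, psi_b, map_mul, map_inv, hval]
      rw [← hr']
      congr 1
      simp only [hcomm, map_mul, map_inv]
      group
    · have h1 := dI_b hS hv (hS.chi _ (Closed.pow hS.kap hφ n))
      have e1 : (kap ^ n : AutR (0 + 2)).1 (ga 1) = ga 1 := kap_pow_succ n 0 false
      rw [AutR.mul_apply, chi_b, AutR.mul_apply, map_mul, map_inv, kap_pow_b, e1, map_mul, map_inv,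
        map_mul, map_mul, map_inv, map_pow, dI_apply, cv_mul, hc.inv,
        ((c0.pow n).mul hb).mul (c0.pow n).inv] at h1
      simp only [AutR.mul_apply (φ * rot * kap), psi_b, map_inv, hval]
      simp only [map_mul, map_inv, map_pow] at h1
      rw [← pj_eq_zero_iff]
      set y := (val x (φ.1 (ga 1)))⁻¹ * (val x (φ.1 (hcomm 0)) ^ n * val x (φ.1 (gb 0)) *
        (val x (φ.1 (hcomm 0)) ^ n)⁻¹) with hy
      have h2 := C.pj_sub_Ad y ζ0
      rw [← sub_eq_zero.2 (h1.trans h2.symm), ← map_sub]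
      congr 1
      simp only [hy, map_sub, map_mul, map_pow, ContinuousLinearMap.mul_apply]
      abel
  exact ⟨hc.of_Z h5, hd.of_Z h5⟩

end Ctx

end Pool.Agent.Lib.MP_d52947_gt
end

-- part Pool.Agent.Lib.MP_d52947_gt.PointB
section

/-! The stabilizer of an invariant form contains the symplectic algebra of each simple block. -/

namespace Pool.Agent.Lib.MP_d52947_gt

open scoped RealInnerProductSpace

theorem mem_of_perp {H : Type} [AddCommGroup H] [Module ℝ H] [FiniteDimensional ℝ H]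
    (om : H →ₗ[ℝ] H →ₗ[ℝ] ℝ) (U : Submodule ℝ H) (h : H)
    (hh : ∀ v, (∀ u ∈ U, om u v = 0) → om h v = 0) : ∃ u ∈ U, om u = om h := by
  have : om h ∈ (U.map om).dualCoannihilator.dualAnnihilator := by
    rw [Submodule.mem_dualAnnihilator]
    intro v hv
    rw [Submodule.mem_dualCoannihilator] at hv
    exact hh v fun u hu => hv _ ⟨u, hu, rfl⟩
  rw [Subspace.dualCoannihilator_dualAnnihilator_eq] at this
  exact this

namespace Ctx

variable {L : Type} [NormedAddCommGroup L] [InnerProductSpace ℝ L] [FiniteDimensional ℝ L]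
  {K : Type} [Group K] [TopologicalSpace K] [IsTopologicalGroup K] [CompactSpace K]
  [ConnectedSpace K] (C : Ctx L K) {g k : ℕ}

/-- an invariant endomorphism acting on cocycles -/
noncomputable def mapZ (x : Gen g → K) (S : L →L[ℝ] L) (hS : ∀ k y, S (C.Ad k y) = C.Ad k (S y)) :
    C.Z1 x →ₗ[ℝ] C.Z1 x :=
  LinearMap.codRestrict _ ((S : L →ₗ[ℝ] L).compLeft (Gen g) ∘ₗ (C.Z1 x).subtype) fun u => by
    rw [mem_Z1]
    refine (C.cv_comm_map x u S hS _).trans ?_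
    rw [C.mem_Z1.1 u.2, map_zero]

theorem mapZ_coe (x : Gen g → K) (S : L →L[ℝ] L) (hS) (u : C.Z1 x) :
    (C.mapZ x S hS u : Gen g → L) = fun i => S (u.1 i) := rfl

/-- projection to a simple block -/
noncomputable def pZ (I : C.Ideals) (x : Gen g → K) (i : Fin I.N) : C.Z1 x →ₗ[ℝ] C.Z1 x :=
  C.mapZ x (I.p i) (I.p_Ad i)

theorem omZ_pZ (I : C.Ideals) (x : Gen g → K) (i : Fin I.N) (u v : C.Z1 x) :
    C.omZ x (C.pZ I x i u) v = C.omZ x u (C.pZ I x i v) :=
  C.om_map x u v _ _ (I.p_Ad i) (I.p_Ad i) (I.p_symm i)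

theorem dI_pZ (I : C.Ideals) (x : Gen g → K) (i : Fin I.N) (e : FG g) (v : C.Z1 x) :
    C.dI x e (C.pZ I x i v) = I.p i (C.dI x e v) := by
  rw [dI_apply, dI_apply, ← C.pj_comm _ (I.p_Ad i) (I.p_symm i),
    ← C.cv_comm_map x _ _ (I.p_Ad i)]
  rfl

theorem p_mem_Fix (I : C.Ideals) (i : Fin I.N) {c : K} {y : L} (h : y ∈ C.Fix c) :
    I.p i y ∈ C.Fix c := by
  rw [mem_Fix] at h ⊢; rw [← I.p_Ad, h]

theorem pj_dI (x : Gen g → K) (e : FG g) (v : C.Z1 x) :
    C.pj (val x e) (C.dI x e v) = C.dI x e v := C.pj_pj _ _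

/-- `h` is the Hamiltonian vector of the component `l` of the class of `e` -/
def Rep (x : Gen g → K) (e : FG g) (l : L) (h : C.Z1 x) : Prop :=
  ∀ v, C.omZ x h v = -⟪l, C.dI x e v⟫

/-- `T` is the twist along `e`, and the shear kills `α` -/
def Tw (x : Gen g → K) (α : C.Z1 x [⋀^Fin k]→ₗ[ℝ] ℝ) (e : FG g) (T : L →ₗ[ℝ] C.Z1 x) : Prop :=
  (∀ ξ, C.Rep x e ξ (T ξ)) ∧ T ∘ₗ C.dI x e ∈ stab α

/-- data attached to a pair of curves meeting once -/
structure PairData (I : C.Ideals) (x : Gen g → K) (α : C.Z1 x [⋀^Fin k]→ₗ[ℝ] ℝ) (e f : FG g) :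
    Prop where
  good : C.GoodPair I (val x e) (val x f)
  tw : ∃ T, C.Tw x α e T ∧ (∀ ξ, C.dI x e (T ξ) = 0) ∧
    ∀ (n : ℕ) ξ, C.dI x (f * e ^ n) (T ξ) = C.pj (val x (f * e ^ n)) (C.pj (val x e) ξ)

variable {C}

theorem Rep.inv {x : Gen g → K} {e : FG g} {l : L} {h : C.Z1 x} (H : C.Rep x e l h) :
    C.Rep x e⁻¹ (-l) h := fun v => by rw [H v, dI_inv, inner_neg_neg]

theorem Rep.conj {x : Gen g → K} {e : FG g} {l : L} {h : C.Z1 x} (H : C.Rep x e l h) (c : FG g) :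
    C.Rep x (c * e * c⁻¹) (C.Ad (val x c) l) h := fun v => by rw [H v, dI_conj, C.inner_Ad]

theorem Tw.inv {x : Gen g → K} {α : C.Z1 x [⋀^Fin k]→ₗ[ℝ] ℝ} {e : FG g} {T : L →ₗ[ℝ] C.Z1 x}
    (H : C.Tw x α e⁻¹ T) : C.Tw x α e (-T) := by
  refine ⟨fun ξ => ?_, ?_⟩
  · have := (H.1 (-ξ)).inv
    rwa [inv_inv, neg_neg, map_neg] at this
  · convert H.2 using 1
    ext1 v
    simp [dI_inv]

theorem tw_mem_stab {I : C.Ideals} {x : Gen g → K} {α : C.Z1 x [⋀^Fin k]→ₗ[ℝ] ℝ} {e f : FG g}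
    (hg : C.GoodPair I (val x e) (val x f)) {T : L →ₗ[ℝ] C.Z1 x} (hT : C.Tw x α e T)
    (h0 : ∀ ξ, C.dI x e (T ξ) = 0)
    (h1 : ∀ (n : ℕ) ξ, C.dI x (f * e ^ n) (T ξ) = C.pj (val x (f * e ^ n)) (C.pj (val x e) ξ))
    (hy : ∀ n : ℕ, ∃ T', C.Tw x α (f * e ^ n) T') {i : Fin I.N} {l : L}
    (hl : l ∈ C.Fix (val x e)) (hi : I.p i l = l) :
    spX (C.omZ x) (T l) (T l) ∈ stab α := by
  let Ψ : (L →L[ℝ] L) →ₗ[ℝ] (C.Z1 x →ₗ[ℝ] C.Z1 x) :=
    { toFun := fun S => T ∘ₗ (S : L →ₗ[ℝ] L) ∘ₗ C.dI x e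
      map_add' := fun S S' => by ext1 v; simp
      map_smul' := fun c S => by ext1 v; simp }
  have hΨ : ∀ S v, Ψ S v = T (S (C.dI x e v)) := fun _ _ => rfl
  have key : Submodule.span ℝ (Set.range fun n : ℕ => C.pj (val x e) - C.pj (val x e) *
      C.pj (val x f * val x e ^ n) * C.pj (val x e)) ≤ (stab α).comap Ψ := by
    rw [Submodule.span_le]
    rintro _ ⟨n, rfl⟩
    obtain ⟨T', hT'⟩ := hy n
    have h2 : ∀ ξ, C.dI x e (T' ξ) = -C.pj (val x e) (C.pj (val x (f * e ^ n)) ξ) := fun ξ =>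
      ext_inner_left ℝ fun η => by
        have e1 := hT.1 η (T' ξ)
        rw [omZ_skew, hT'.1 ξ, h1, ← inner_pj, ← inner_pj, real_inner_comm] at e1
        rw [inner_neg_right]; linarith
    have h3 := stab_lie hT.2 (stab_lie hT.2 hT'.2)
    simp only [SetLike.mem_coe, Submodule.mem_comap, map_sub]
    refine stab_sub ?_ ?_
    · convert hT.2 using 1
      ext1 v
      rw [hΨ, pj_dI]; rfl
    · convert (stab α).smul_mem (1 / 2 : ℝ) h3 using 1
      ext1 v
      simp only [hΨ, LinearMap.smul_apply, LinearMap.sub_apply, Module.End.mul_apply,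
        LinearMap.comp_apply, h0, h1, h2, map_zero, map_neg, map_sub, pj_pj, pj_dI,
        ContinuousLinearMap.mul_apply, map_mul, map_pow]
      module
  have h4 := (stab α).smul_mem (-2 : ℝ) (key (hg.hB i l hl hi))
  convert h4 using 1
  ext1 v
  simp only [spX_apply, hT.1 l v, hΨ, LinearMap.smul_apply, ContinuousLinearMap.smulRight_apply,
    innerSL_apply_apply, map_smul]
  module

section
variable {I : C.Ideals} {x : Gen (g + 1) → K} {α : C.Z1 x [⋀^Fin k]→ₗ[ℝ] ℝ}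

theorem exists_tw_b (hP : ∀ φ : AutR (g + 1), C.PairData I x α (φ.1 (ga 0)) (φ.1 (gb 0)))
    (φ : AutR (g + 1)) : ∃ T, C.Tw x α (φ.1 (gb 0)) T := by
  obtain ⟨T, hT, -⟩ := (hP (φ * psi')).tw
  rw [AutR.mul_apply, psi'_a, map_inv] at hT
  exact ⟨_, hT.inv⟩

theorem sq_mem_stab (hor : ∀ (u : Fin k → C.Z1 x) j, u j ∈ C.B1 x → α u = 0)
    (hrad : ∀ v, (∀ u, C.omZ x v u = 0) → v ∈ C.B1 x)
    (hP : ∀ φ : AutR (g + 1), C.PairData I x α (φ.1 (ga 0)) (φ.1 (gb 0))) (φ : AutR (g + 1))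
    {i : Fin I.N} {l : L} (hl : l ∈ C.Fix (val x (φ.1 (ga 0)))) (hi : I.p i l = l) {h : C.Z1 x}
    (hh : C.Rep x (φ.1 (ga 0)) l h) : spX (C.omZ x) h h ∈ stab α := by
  obtain ⟨T, hT, h0, h1⟩ := (hP φ).tw
  have h2 := tw_mem_stab (hP φ).good hT h0 h1 (fun n => by
    obtain ⟨T', hT'⟩ := exists_tw_b hP (φ * tau ^ n)
    rw [AutR.mul_apply, tau_pow_b, map_mul, map_pow] at hT'
    exact ⟨T', hT'⟩) hl hi
  have h3 : h - T l ∈ C.B1 x := hrad _ fun u => by
    rw [map_sub, LinearMap.sub_apply, hh u, hT.1 l u, sub_self]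
  have h4 : spX (C.omZ x) h h - spX (C.omZ x) (T l) (T l) ∈ stab α :=
    mem_stab_of_range hor fun u => by
      have : (spX (C.omZ x) h h - spX (C.omZ x) (T l) (T l)) u =
          (2 * C.omZ x h u) • (h - T l) := by
        simp only [LinearMap.sub_apply, spX_apply, hh u, hT.1 l u]; module
      rw [this]; exact Submodule.smul_mem _ _ h3
  exact stab_of_sub h4 h2

/-- all Hamiltonian vectors of `e` in the block `i` lie in `U` -/
def Conn (I : C.Ideals) (x : Gen (g + 1) → K) (i : Fin I.N) (U : Submodule ℝ (C.Z1 x))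
    (e : FG (g + 1)) : Prop :=
  ∀ l ∈ C.Fix (val x e), I.p i l = l → ∀ h, C.Rep x e l h → h ∈ U

theorem Conn.inv {i : Fin I.N} {U : Submodule ℝ (C.Z1 x)} {e : FG (g + 1)} (H : Conn I x i U e) :
    Conn I x i U e⁻¹ := fun l hl hi h hh => by
  have := hh.inv
  rw [inv_inv] at this
  rw [map_inv, Fix_inv] at hl
  exact H _ (Submodule.neg_mem _ hl) (by rw [map_neg, hi]) h this

theorem Conn.conj {i : Fin I.N} {U : Submodule ℝ (C.Z1 x)} {e : FG (g + 1)} (H : Conn I x i U e)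
    (c : FG (g + 1)) : Conn I x i U (c * e * c⁻¹) := fun l hl hi h hh => by
  have := hh.conj c⁻¹
  rw [show c⁻¹ * (c * e * c⁻¹) * c⁻¹⁻¹ = e by group] at this
  refine H _ ?_ (by rw [I.p_Ad, hi]) h this
  rw [← C.Ad_mem_Fix_conj (c := val x c), map_inv, Ad_Ad_inv]
  simpa using hl

theorem Conn.of_eq {i : Fin I.N} {U : Submodule ℝ (C.Z1 x)} {e e' : FG (g + 1)}
    (H : Conn I x i U e) (c : FG (g + 1)) (h : e' = c * e * c⁻¹) : Conn I x i U e' :=
  h ▸ H.conj c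

theorem conn_step (hor : ∀ (u : Fin k → C.Z1 x) j, u j ∈ C.B1 x → α u = 0)
    (hrad : ∀ v, (∀ u, C.omZ x v u = 0) → v ∈ C.B1 x)
    (hP : ∀ φ : AutR (g + 1), C.PairData I x α (φ.1 (ga 0)) (φ.1 (gb 0)))
    {i : Fin I.N} {U : Submodule ℝ (C.Z1 x)} (hB : C.B1 x ≤ U)
    (hU : ∀ z, spX (C.omZ x) z z ∈ stab α → (∃ u ∈ U, C.omZ x u z ≠ 0) → z ∈ U)
    (φ : AutR (g + 1)) (H : Conn I x i U (φ.1 (ga 0))) : Conn I x i U (φ.1 (gb 0)) := by
  intro l hl hi h hh
  by_cases hl0 : l = 0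
  · exact hB (hrad _ fun u => by rw [hh u, hl0, inner_zero_left, neg_zero])
  have hs := sq_mem_stab hor hrad hP (φ * psi') (i := i) (l := -l) (h := h)
  rw [AutR.mul_apply, psi'_a, map_inv, map_inv, Fix_inv] at hs
  refine hU h (hs (Submodule.neg_mem _ hl) (by rw [map_neg, hi]) hh.inv) ?_
  by_contra hc
  push Not at hc
  obtain ⟨T, hT, -, h1⟩ := (hP φ).tw
  have hE := (hP (φ * psi')).good.hE l
  simp only [AutR.mul_apply, psi'_a, psi'_b, map_inv, map_mul, Fix_inv] at hE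
  refine hl0 (hE hl fun w hw => ?_)
  set η := C.Ad (val x (φ.1 (gb 0)))⁻¹ w with hη
  have hη' : η ∈ C.Fix (val x (φ.1 (ga 0))) := C.Ad_mem_Fix_conj.1 (by rwa [hη, Ad_Ad_inv])
  have h2 := hc _ (H _ (C.p_mem_Fix I i hη') (I.p_idem i η) _ (hT.1 _))
  have h3 := h1 0 (I.p i η)
  rw [pow_zero, mul_one] at h3
  rw [omZ_skew, hh, h3, neg_neg, ← inner_pj, C.pj_of_mem hl, C.pj_of_mem (C.p_mem_Fix I i hη'),
    ← I.p_symm, hi, hη, ← inner_Ad_left, C.mem_Fix.1 hl] at h2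
  rwa [real_inner_comm]

end

theorem simple_block {I : C.Ideals} {x : Gen (g + 2) → K} {α : C.Z1 x [⋀^Fin k]→ₗ[ℝ] ℝ}
    (hor : ∀ (u : Fin k → C.Z1 x) j, u j ∈ C.B1 x → α u = 0)
    (hA : ∀ S, Closed S → ∀ v, (∀ φ, S φ → C.dI x (φ.1 (ga 0)) v = 0) → v ∈ C.B1 x)
    (hP : ∀ φ : AutR (g + 2), C.PairData I x α (φ.1 (ga 0)) (φ.1 (gb 0))) :
    (∀ v, (∀ u, C.omZ x v u = 0) → v ∈ C.B1 x) ∧
      ∀ i h, C.pZ I x i h = h → spX (C.omZ x) h h ∈ stab α := by
  have hrad : ∀ v, (∀ u, C.omZ x v u = 0) → v ∈ C.B1 x := fun v hv =>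
    hA (fun _ => True) ⟨trivial, fun _ _ => trivial, fun _ _ => trivial, fun _ _ => trivial,
      fun _ _ => trivial, fun _ _ => trivial, fun _ _ => trivial⟩ v fun φ _ => by
      obtain ⟨T, hT, -⟩ := (hP φ).tw
      refine ext_inner_left ℝ fun ξ => ?_
      have := hT.1 ξ v
      rw [omZ_skew, hv] at this
      rw [inner_zero_right]; linarith
  refine ⟨hrad, fun i h hh => ?_⟩
  let U₀ : Submodule ℝ (C.Z1 x) :=
    { carrier := {h | ∃ l ∈ C.Fix (val x (ga 0)), I.p i l = l ∧ C.Rep x (ga 0) l h}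
      zero_mem' := ⟨0, Submodule.zero_mem _, map_zero _, fun v => by simp⟩
      add_mem' := by
        rintro a b ⟨l, h1, h2, h3⟩ ⟨l', h1', h2', h3'⟩
        exact ⟨l + l', Submodule.add_mem _ h1 h1', by rw [map_add, h2, h2'], fun v => by
          rw [map_add, LinearMap.add_apply, h3 v, h3' v, inner_add_left]; ring⟩
      smul_mem' := by
        rintro c a ⟨l, h1, h2, h3⟩
        exact ⟨c • l, Submodule.smul_mem _ _ h1, by rw [map_smul, h2], fun v => by
          rw [map_smul, LinearMap.smul_apply, h3 v, real_inner_smul_left, smul_eq_mul]; ring⟩ }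
  have hU₀ : Full (C.omZ x) (stab α) U₀ := full_of_sq _ fun z ⟨l, h1, h2, h3⟩ =>
    sq_mem_stab hor hrad hP 1 h1 h2 h3
  obtain ⟨U, h0, hF, hU⟩ := exists_full_max (fun _ hX _ hY => stab_lie hX hY) (C.omZ_skew x) hU₀
  have hB : C.B1 x ≤ U := fun u hu => h0 ⟨0, Submodule.zero_mem _, map_zero _, fun v => by
    rw [C.omZ_B1 hu]; simp⟩
  have st := conn_step hor hrad hP (i := i) hB hU
  have st' : ∀ φ : AutR (g + 2), Conn I x i U (φ.1 (gb 0)) → Conn I x i U (φ.1 (ga 0)) := by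
    intro φ H
    have := st (φ * psi')
    simp only [AutR.mul_apply, psi'_a, psi'_b, map_inv, map_mul] at this
    exact (this H.inv).of_eq (φ.1 (gb 0))⁻¹ (by group)
  have hS : Closed fun φ : AutR (g + 2) => Conn I x i U (φ.1 (ga 0)) := by
    refine ⟨fun l h1 h2 h h3 => h0 ⟨l, h1, h2, h3⟩, fun φ H => ?_, fun φ H => ?_, fun φ H => ?_,
      fun φ H => ?_, fun φ H => ?_, fun φ H => ?_⟩
    · rwa [AutR.mul_apply, tau_a]
    · rw [AutR.mul_apply, psi'_a, map_inv]; exact (st φ H).inv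
    · rwa [AutR.mul_apply, chi_a]
    · rwa [AutR.mul_apply, psi1_a]
    · have h1 := st (φ * chi) (by rwa [AutR.mul_apply, chi_a])
      rw [AutR.mul_apply, chi_b] at h1
      have h2 := st' (φ * the * chi * rot) (h1.inv.of_eq
        (φ.1 (the.1 (chi.1 (hcomm 0))) * φ.1 (gb 1 * ga 1)) (by
          simp only [AutR.mul_apply, rot_of, zero_add, map_mul, map_inv, chi_d, gam, the_a, the_b,
            the_c, the_d]
          group))
      refine st' (φ * rot) (h2.inv.of_eq (φ.1 (hcomm 0) * (φ.1 (the.1 gam)) *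
        (φ.1 (the.1 (chi.1 (hcomm 0))))⁻¹) ?_)
      simp only [AutR.mul_apply, rot_of, zero_add, map_mul, map_inv, chi_c, the_c]
      group
    · rw [AutR.mul_apply, kap_a, map_mul, map_mul, map_inv]; exact H.conj _
  obtain ⟨u, hu, he⟩ := mem_of_perp (C.omZ x) U h fun v hv => by
    rw [← hh, omZ_pZ, omZ_skew, C.omZ_B1 (hA _ hS _ fun φ H => ?_), neg_zero]
    obtain ⟨T, hT, -⟩ := (hP φ).tw
    refine ext_inner_left ℝ fun ξ => ?_
    have h1 := hv _ (H _ (C.p_mem_Fix I i (C.pj_mem _ ξ)) (I.p_idem i _) _ (hT.1 _))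
    rw [hT.1, neg_eq_zero, I.p_symm, ← dI_pZ, inner_pj, pj_dI] at h1
    rw [h1, inner_zero_right]
  have : h ∈ U := by
    have h1 : h - u ∈ U := hB (hrad _ fun w => by rw [map_sub, he, sub_self]; rfl)
    simpa using U.add_mem h1 hu
  exact hF h this h this

end Ctx

end Pool.Agent.Lib.MP_d52947_gt
end

-- part Pool.Agent.Lib.MP_d52947_gt.PointC
section

/-! The central block. -/

namespace Pool.Agent.Lib.MP_d52947_gt

open scoped RealInnerProductSpace

variable {g k : ℕ}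

/-- homology class of a word, as a functional -/
noncomputable def ab (e : FG g) : (Gen g → ℝ) →ₗ[ℝ] ℝ :=
  Multiplicative.toAdd (FreeGroup.lift
    (fun i => Multiplicative.ofAdd (LinearMap.proj i : (Gen g → ℝ) →ₗ[ℝ] ℝ)) e)

@[simp] theorem ab_mul (e f : FG g) : ab (e * f) = ab e + ab f := by simp [ab]
@[simp] theorem ab_inv (e : FG g) : ab e⁻¹ = -ab e := by simp [ab]
@[simp] theorem ab_one : ab (1 : FG g) = 0 := by simp [ab]
@[simp] theorem ab_of (i : Gen g) : ab (.of i) = LinearMap.proj i := by simp [ab]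

theorem ab_preF (i : ℕ) : ab (preF (g := g) i) = 0 := by
  have : ∀ l : List (FG g), (∀ w ∈ l, ab w = 0) → ab l.prod = 0 := by
    intro l h
    induction l with
    | nil => simp
    | cons w l ih => rw [List.prod_cons, ab_mul, h w (by simp), ih fun w hw => h w (by simp [hw]),
        add_zero]
  refine this _ fun w hw => ?_
  obtain ⟨j, rfl⟩ := List.mem_ofFn.1 (List.mem_of_mem_take hw)
  simp only [hcomm, ab_mul, ab_inv]; abel

theorem ab_relator : ab (relator g) = 0 := by rw [← preF_last, ab_preF]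

/-- the intersection form -/
noncomputable def omV : (Gen g → ℝ) →ₗ[ℝ] (Gen g → ℝ) →ₗ[ℝ] ℝ :=
  LinearMap.mk₂ ℝ (fun l w => ∑ i, (l (i, false) * w (i, true) - l (i, true) * w (i, false)))
    (fun l l' w => by
      simp only [Pi.add_apply, ← Finset.sum_add_distrib]
      exact Finset.sum_congr rfl fun i _ => by ring)
    (fun c l w => by
      simp only [Pi.smul_apply, smul_eq_mul, Finset.mul_sum]
      exact Finset.sum_congr rfl fun i _ => by ring)
    (fun l w w' => by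
      simp only [Pi.add_apply, ← Finset.sum_add_distrib]
      exact Finset.sum_congr rfl fun i _ => by ring)
    (fun c l w => by
      simp only [Pi.smul_apply, smul_eq_mul, Finset.mul_sum]
      exact Finset.sum_congr rfl fun i _ => by ring)

theorem omV_apply (l w : Gen g → ℝ) :
    omV l w = ∑ i, (l (i, false) * w (i, true) - l (i, true) * w (i, false)) := rfl

theorem omV_skew (l w : Gen g → ℝ) : omV l w = -omV w l := by
  simp only [omV_apply, ← Finset.sum_neg_distrib]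
  exact Finset.sum_congr rfl fun i _ => by ring

theorem omV_single_a (i : Fin g) (w : Gen g → ℝ) : omV (Pi.single (i, false) 1) w = w (i, true) := by
  simp [omV_apply, Pi.single_apply]

theorem omV_single_b (i : Fin g) (w : Gen g → ℝ) :
    omV (Pi.single (i, true) 1) w = -w (i, false) := by
  simp [omV_apply, Pi.single_apply]

theorem fundF_ab (l w : Gen g → ℝ) : fundF (fun a b => ab a l * ab b w) = omV l w := by
  simp only [fundF, omV_apply, ab_mul, ab_inv, ab_of, ab_preF, LinearMap.add_apply,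
    LinearMap.neg_apply, LinearMap.zero_apply, LinearMap.proj_apply]
  exact Finset.sum_congr rfl fun i _ => by ring

theorem full_top_of_gens {g : ℕ} {S : Submodule ℝ ((Gen (g + 1) → ℝ) →ₗ[ℝ] (Gen (g + 1) → ℝ))}
    (hS : ∀ X ∈ S, ∀ Y ∈ S, X * Y - Y * X ∈ S)
    (h1 : ∀ p, spX omV (Pi.single p 1) (Pi.single p 1) ∈ S)
    (h2 : ∀ i : Fin g, spX omV (Pi.single (i.succ, true) 1 + Pi.single (i.castSucc, false) 1)
      (Pi.single (i.succ, true) 1 + Pi.single (i.castSucc, false) 1) ∈ S) (l : Gen (g + 1) → ℝ) :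
    spX omV l l ∈ S := by
  have hU₀ : Full omV S (Submodule.span ℝ {Pi.single ((0 : Fin (g + 1)), true) 1}) :=
    full_of_sq _ fun z hz => by
      obtain ⟨c, rfl⟩ := Submodule.mem_span_singleton.1 hz
      rw [spX_smul, spX_comm, spX_smul]
      exact S.smul_mem _ (S.smul_mem _ (h1 _))
  obtain ⟨U, h0, hF, hU⟩ := exists_full_max hS omV_skew hU₀
  have ha : ∀ i, Pi.single (i, true) 1 ∈ U → Pi.single (i, false) 1 ∈ U := fun i hi =>
    hU _ (h1 _) ⟨_, hi, by simp [omV_single_b]⟩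
  have hb : ∀ i : Fin (g + 1), Pi.single (i, true) 1 ∈ U := by
    intro i
    induction i using Fin.induction with
    | zero => exact h0 (Submodule.mem_span_singleton_self _)
    | succ i ih =>
      have := hU _ (h2 i) ⟨_, ih, by simp [omV_single_b]⟩
      simpa using U.sub_mem this (ha _ ih)
  have : l ∈ U := by
    rw [pi_eq_sum_univ' l]
    refine U.sum_mem fun ⟨i, s⟩ _ => U.smul_mem _ ?_
    cases s
    exacts [ha i (hb i), hb i]
  exact hF l this l this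

namespace Ctx

variable {L : Type} [NormedAddCommGroup L] [InnerProductSpace ℝ L] [FiniteDimensional ℝ L]
  {K : Type} [Group K] [TopologicalSpace K] [IsTopologicalGroup K] [CompactSpace K]
  [ConnectedSpace K] (C : Ctx L K)

theorem inner_cv_Z (x : Gen g → K) {z : L} (hz : z ∈ C.Z) (v : Gen g → L) (e : FG g) :
    ⟪z, C.cv x e v⟫ = ab e fun s => ⟪z, v s⟫ := by
  have h := (C.mem_Z_iff _).1 hz
  induction e using FreeGroup.induction_on with
  | C1 => simp
  | of i => simp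
  | inv_of i hi => simp [cv_inv, inner_Ad_right, h]
  | mul a b ha hb => simp [cv_mul, inner_add_right, inner_Ad_right, h, ha, hb]

theorem cv_smul_Z (x : Gen g → K) {z : L} (hz : z ∈ C.Z) (l : Gen g → ℝ) (e : FG g) :
    C.cv x e (fun s => l s • z) = ab e l • z := by
  have h := (C.mem_Z_iff _).1 hz
  induction e using FreeGroup.induction_on with
  | C1 => simp
  | of i => simp
  | inv_of i hi => simp [cv_inv, h]
  | mul a b ha hb => simp [cv_mul, h, ha, hb, add_smul]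

/-- orthonormal basis of the centre -/
noncomputable def zb (a : Fin (Module.finrank ℝ C.Z)) : L := stdOrthonormalBasis ℝ C.Z a

theorem zb_mem (a) : C.zb a ∈ C.Z := (stdOrthonormalBasis ℝ C.Z a).2

theorem inner_zb (a b) : ⟪C.zb a, C.zb b⟫ = if a = b then 1 else 0 :=
  orthonormal_iff_ite.1 (stdOrthonormalBasis ℝ C.Z).orthonormal a b

theorem sum_zb {r : L} (hr : r ∈ C.Z) : ∑ a, ⟪C.zb a, r⟫ • C.zb a = r := by
  have := congrArg Subtype.val ((stdOrthonormalBasis ℝ C.Z).sum_repr' ⟨r, hr⟩)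
  simpa [zb] using this

theorem decomp (I : C.Ideals) (y : L) : y = ∑ i, I.p i y + ∑ a, ⟪C.zb a, y⟫ • C.zb a := by
  have h := C.sum_zb (I.p_sum y)
  have h2 : ∀ a, ⟪C.zb a, y - ∑ i, I.p i y⟫ = ⟪C.zb a, y⟫ := fun a => by
    rw [inner_sub_right, inner_sum, Finset.sum_eq_zero fun i _ => ?_, sub_zero]
    rw [← I.p_symm, I.p_Z i _ (C.zb_mem a), inner_zero_left]
  simp only [h2] at h
  rw [h]; abel

/-- central coordinates of a cocycle -/
noncomputable def piZ (x : Gen g → K) (a : Fin (Module.finrank ℝ C.Z)) :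
    C.Z1 x →ₗ[ℝ] (Gen g → ℝ) :=
  ((innerSL ℝ (C.zb a) : L →L[ℝ] ℝ) : L →ₗ[ℝ] ℝ).compLeft (Gen g) ∘ₗ (C.Z1 x).subtype

theorem piZ_apply (x : Gen g → K) (a) (u : C.Z1 x) :
    C.piZ x a u = fun s => ⟪C.zb a, u.1 s⟫ := rfl

/-- central cocycles -/
noncomputable def ioZ (x : Gen g → K) (a : Fin (Module.finrank ℝ C.Z)) :
    (Gen g → ℝ) →ₗ[ℝ] C.Z1 x :=
  LinearMap.codRestrict _ ((LinearMap.toSpanSingleton ℝ L (C.zb a)).compLeft (Gen g)) fun l => by
    rw [mem_Z1]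
    refine (C.cv_smul_Z x (C.zb_mem a) l _).trans ?_
    rw [ab_relator]; simp

theorem ioZ_coe (x : Gen g → K) (a) (l : Gen g → ℝ) :
    (C.ioZ x a l : Gen g → L) = fun s => l s • C.zb a := rfl

theorem piZ_ioZ (x : Gen g → K) (a b) (l : Gen g → ℝ) :
    C.piZ x a (C.ioZ x b l) = if a = b then l else 0 := by
  funext s
  rw [piZ_apply, ioZ_coe]
  simp only [real_inner_smul_right, inner_zb]
  split_ifs <;> simp

theorem pZ_ioZ (I : C.Ideals) (x : Gen g → K) (i a) (l : Gen g → ℝ) :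
    C.pZ I x i (C.ioZ x a l) = 0 := by
  refine Subtype.ext (funext fun s => ?_)
  change I.p i (l s • C.zb a) = 0
  rw [map_smul, I.p_Z i _ (C.zb_mem a), smul_zero]

theorem piZ_pZ (I : C.Ideals) (x : Gen g → K) (i a) (u : C.Z1 x) :
    C.piZ x a (C.pZ I x i u) = 0 := by
  funext s
  change ⟪C.zb a, I.p i (u.1 s)⟫ = 0
  rw [← I.p_symm, I.p_Z i _ (C.zb_mem a), inner_zero_left]

theorem decompZ (I : C.Ideals) (x : Gen g → K) (u : C.Z1 x) :
    u = ∑ i, C.pZ I x i u + ∑ a, C.ioZ x a (C.piZ x a u) := by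
  refine Subtype.ext (funext fun s => ?_)
  simp only [Submodule.coe_add, Submodule.coe_sum, Pi.add_apply, Finset.sum_apply]
  exact C.decomp I (u.1 s)

theorem omZ_ioZ (x : Gen g → K) (a) (l : Gen g → ℝ) (v : C.Z1 x) :
    C.omZ x (C.ioZ x a l) v = omV l (C.piZ x a v) := by
  rw [omZ_apply, om_apply, ← fundF_ab, ioZ_coe, piZ_apply]
  simp only [C.cv_smul_Z x (C.zb_mem a), real_inner_smul_left, inner_Ad_right, map_smul,
    (C.mem_Z_iff _).1 (C.zb_mem a), C.inner_cv_Z x (C.zb_mem a)]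

/-- action of `End (ℝ^{2g})` on the central block -/
noncomputable def Lam (x : Gen g → K) :
    ((Gen g → ℝ) →ₗ[ℝ] (Gen g → ℝ)) →ₗ[ℝ] (C.Z1 x →ₗ[ℝ] C.Z1 x) where
  toFun X := ∑ a, C.ioZ x a ∘ₗ X ∘ₗ C.piZ x a
  map_add' X Y := by ext1 u; simp [Finset.sum_add_distrib]
  map_smul' c X := by ext1 u; simp [Finset.smul_sum]

theorem Lam_apply (x : Gen g → K) (X) (u : C.Z1 x) :
    C.Lam x X u = ∑ a, C.ioZ x a (X (C.piZ x a u)) := by simp [Lam]

theorem piZ_Lam (x : Gen g → K) (X) (a) (u : C.Z1 x) :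
    C.piZ x a (C.Lam x X u) = X (C.piZ x a u) := by
  simp [Lam_apply, piZ_ioZ]

theorem Lam_mul (x : Gen g → K) (X Y) : C.Lam x (X * Y) = C.Lam x X * C.Lam x Y := by
  ext1 u
  rw [Module.End.mul_apply, Lam_apply, Lam_apply]
  simp only [piZ_Lam, Module.End.mul_apply]

variable {C}

theorem Lam_curve {I : C.Ideals} {x : Gen g → K} {α : C.Z1 x [⋀^Fin k]→ₗ[ℝ] ℝ}
    (hor : ∀ (u : Fin k → C.Z1 x) j, u j ∈ C.B1 x → α u = 0)
    (hrad : ∀ v, (∀ u, C.omZ x v u = 0) → v ∈ C.B1 x)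
    (hs : ∀ i h, C.pZ I x i h = h → spX (C.omZ x) h h ∈ stab α) {e : FG g}
    {T : L →ₗ[ℝ] C.Z1 x} (hT : C.Tw x α e T) {l : Gen g → ℝ} (hl : omV l = -ab e) :
    C.Lam x (spX omV l l) ∈ stab α := by
  have h1 : ∀ i y, I.p i y = y → spX (C.omZ x) (T y) (T y) ∈ stab α := by
    intro i y hy
    have h2 : ∀ v, C.omZ x (C.pZ I x i (T y)) v = C.omZ x (T y) v := fun v => by
      rw [omZ_pZ, hT.1, hT.1, dI_pZ, ← I.p_symm, hy]
    refine stab_of_sub (mem_stab_of_range hor fun u => ?_) (hs i (C.pZ I x i (T y)) ?_)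
    · have : (spX (C.omZ x) (T y) (T y) - spX (C.omZ x) (C.pZ I x i (T y)) (C.pZ I x i (T y))) u =
          (2 * C.omZ x (T y) u) • (T y - C.pZ I x i (T y)) := by
        simp only [LinearMap.sub_apply, spX_apply, h2]; module
      rw [this]
      exact Submodule.smul_mem _ _ (hrad _ fun v => by
        rw [map_sub, LinearMap.sub_apply, h2, sub_self])
    · exact Subtype.ext (funext fun s => I.p_idem i _)
  have h3 : ∀ i, T ∘ₗ (I.p i : L →ₗ[ℝ] L) ∘ₗ C.dI x e ∈ stab α := by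
    intro i
    let b := stdOrthonormalBasis ℝ (LinearMap.range (I.p i : L →ₗ[ℝ] L))
    have hb : ∀ j, I.p i (b j) = b j := fun j => by
      obtain ⟨y, hy⟩ := (b j).2
      rw [← hy]; exact I.p_idem i y
    have := (stab α).smul_mem (-1 / 2 : ℝ)
      ((stab α).sum_mem (t := Finset.univ) fun j _ => h1 i _ (hb j))
    convert this using 1
    ext1 u
    have h4 := congrArg Subtype.val (b.sum_repr' ⟨I.p i (C.dI x e u), _, rfl⟩)
    simp only [Submodule.coe_sum, Submodule.coe_smul, Submodule.coe_inner] at h4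
    simp only [LinearMap.comp_apply, ContinuousLinearMap.coe_coe, LinearMap.smul_apply,
      LinearMap.sum_apply, spX_apply, hT.1 _ u, Finset.smul_sum]
    rw [← h4, map_sum]
    refine Finset.sum_congr rfl fun j _ => ?_
    rw [← I.p_symm, hb, map_smul]; module
  have h5 := (stab α).smul_mem (-2 : ℝ)
    (stab_sub hT.2 ((stab α).sum_mem (t := Finset.univ) fun i _ => h3 i))
  refine stab_of_sub (mem_stab_of_range hor fun u => ?_) h5
  have h6 : ∀ a, ⟪C.zb a, C.dI x e u⟫ = ab e (C.piZ x a u) := fun a => by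
    rw [dI_apply, ← inner_pj, C.pj_of_mem (C.mem_Fix.2 ((C.mem_Z_iff _).1 (C.zb_mem a) _)),
      C.inner_cv_Z x (C.zb_mem a)]; rfl
  have h7 : T (C.dI x e u) - ∑ i, T (I.p i (C.dI x e u)) =
      ∑ a, ab e (C.piZ x a u) • T (C.zb a) := by
    have := congrArg T (C.decomp I (C.dI x e u))
    simp only [map_add, map_sum, map_smul, h6] at this
    rw [sub_eq_iff_eq_add', ← this]
  simp only [LinearMap.sub_apply, LinearMap.smul_apply, LinearMap.sum_apply, LinearMap.comp_apply,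
    ContinuousLinearMap.coe_coe, h7, Lam_apply, Finset.smul_sum, ← Finset.sum_sub_distrib]
  refine Submodule.sum_mem _ fun a _ => ?_
  have : C.ioZ x a (spX omV l l (C.piZ x a u)) - (-2 : ℝ) • ab e (C.piZ x a u) • T (C.zb a) =
      (2 * ab e (C.piZ x a u)) • (T (C.zb a) - C.ioZ x a l) := by
    simp only [spX_apply, hl, map_add, map_smul, LinearMap.neg_apply]; module
  rw [this]
  refine Submodule.smul_mem _ _ (hrad _ fun v => ?_)
  rw [map_sub, LinearMap.sub_apply, hT.1, omZ_ioZ, hl, dI_apply, ← inner_pj,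
    C.pj_of_mem (C.mem_Fix.2 ((C.mem_Z_iff _).1 (C.zb_mem a) _)), C.inner_cv_Z x (C.zb_mem a)]
  simp [piZ_apply]

theorem centre_block {I : C.Ideals} {x : Gen (g + 2) → K} {α : C.Z1 x [⋀^Fin k]→ₗ[ℝ] ℝ}
    (hor : ∀ (u : Fin k → C.Z1 x) j, u j ∈ C.B1 x → α u = 0)
    (hrad : ∀ v, (∀ u, C.omZ x v u = 0) → v ∈ C.B1 x)
    (hs : ∀ i h, C.pZ I x i h = h → spX (C.omZ x) h h ∈ stab α)
    (hP : ∀ φ : AutR (g + 2), C.PairData I x α (φ.1 (ga 0)) (φ.1 (gb 0))) (l : Gen (g + 2) → ℝ) :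
    C.Lam x (spX omV l l) ∈ stab α := by
  refine full_top_of_gens (S := (stab α).comap (C.Lam x)) (fun X hX Y hY => ?_) ?_ ?_ l
  · rw [Submodule.mem_comap, map_sub, Lam_mul, Lam_mul]; exact stab_lie hX hY
  · rintro ⟨i, s⟩
    obtain ⟨φ, c, h⟩ := exists_rot i
    cases s
    · obtain ⟨T, hT, -⟩ := (hP (φ * psi')).tw
      refine Lam_curve hor hrad hs hT (LinearMap.ext fun w => ?_)
      simp [AutR.mul_apply, psi'_a, h, omV_single_a]
    · obtain ⟨T, hT, -⟩ := (hP φ).tw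
      refine Lam_curve hor hrad hs hT (LinearMap.ext fun w => ?_)
      simp [h, omV_single_b]
  · intro i
    obtain ⟨φ, c, h⟩ := exists_rot i.castSucc
    obtain ⟨T, hT, -⟩ := (hP (φ * chi * psi')).tw
    refine Lam_curve hor hrad hs hT (LinearMap.ext fun w => ?_)
    simp [AutR.mul_apply, psi'_a, chi_b, h, omV_single_a, omV_single_b,
      add_comm (1 : Fin (g + 2)), Fin.coeSucc_eq_succ]

end Ctx

end Pool.Agent.Lib.MP_d52947_gt
end

-- part Pool.Agent.Lib.MP_d52947_gt.PointD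
section

/-! The pointwise statement: an alternating form killed by the block symplectic algebras is a
polynomial in the forms `ω_B`. -/

namespace Pool.Agent.Lib.MP_d52947_gt

open scoped RealInnerProductSpace

variable {g k : ℕ}

theorem fft' {H E : Type} [AddCommGroup H] [Module ℝ H] [AddCommGroup E] [Module ℝ E]
    [FiniteDimensional ℝ E] {I : Type} [Fintype I] (A : I → Type) [∀ i, Fintype (A i)]
    (om : I → E →ₗ[ℝ] E →ₗ[ℝ] ℝ) (hal : ∀ i v w, om i v w = -om i w v)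
    (π : ∀ i, A i → H →ₗ[ℝ] E)
    (hsurj : ∀ y : ∀ i, A i → E, ∃ u, ∀ i a, om i (π i a u) = om i (y i a))
    (α : H [⋀^Fin k]→ₗ[ℝ] ℝ)
    (hker : ∀ (u : Fin k → H) j, (∀ i a, om i (π i a (u j)) = 0) → α u = 0)
    (hT : ∀ i (l : E), ∃ T : H →ₗ[ℝ] H, Kills T α ∧
      (∀ a u, om i (π i a (T u)) = om i l (π i a u) • om i l) ∧
        ∀ i', i' ≠ i → ∀ a u, om i' (π i' a (T u)) = 0) :
    (α : (Fin k → H) → ℝ) ∈ Submodule.span ℝ
      {w | ∃ (m : ℕ) (e : Fin m × Bool ≃ Fin k) (c : Fin m → Σ i, A i × A i),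
        w = wedge e fun j u v => om (c j).1 (π _ (c j).2.1 u) (π _ (c j).2.2 v)
          + om (c j).1 (π _ (c j).2.2 u) (π _ (c j).2.1 v)} := by
  let om' : ∀ i, (E ⧸ LinearMap.ker (om i)) →ₗ[ℝ] (E ⧸ LinearMap.ker (om i)) →ₗ[ℝ] ℝ := fun i =>
    (LinearMap.ker (om i)).liftQ ((LinearMap.ker (om i)).liftQ (om i).flip fun v hv => by
      ext w
      rw [LinearMap.flip_apply, hal, LinearMap.mem_ker.1 hv]; simp).flip fun v hv => by
      ext w
      simp [LinearMap.mem_ker.1 hv]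
  have h' : ∀ i v w, om' i (Submodule.Quotient.mk v) (Submodule.Quotient.mk w) = om i v w :=
    fun i v w => rfl
  have hq : ∀ i (v w : E), (Submodule.Quotient.mk v : E ⧸ LinearMap.ker (om i)) =
      Submodule.Quotient.mk w ↔ om i v = om i w := fun i v w => by
    rw [Submodule.Quotient.eq, LinearMap.mem_ker, map_sub, sub_eq_zero]
  have := fft (fun i => E ⧸ LinearMap.ker (om i)) A om' (fun i v => ?_) (fun i v hv => ?_)
    (fun i a => (LinearMap.ker (om i)).mkQ ∘ₗ π i a) (fun y => ?_) α (fun u j h => ?_)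
    (fun i l => ?_)
  · exact this
  · obtain ⟨v, rfl⟩ := Submodule.Quotient.mk_surjective _ v
    have := hal i v v
    rw [h']; linarith
  · obtain ⟨v, rfl⟩ := Submodule.Quotient.mk_surjective _ v
    rw [Submodule.Quotient.mk_eq_zero, LinearMap.mem_ker]
    ext w
    exact hv (Submodule.Quotient.mk w)
  · choose y' hy' using fun i a => Submodule.Quotient.mk_surjective _ (y i a)
    obtain ⟨u, hu⟩ := hsurj y'
    exact ⟨u, fun i a => by rw [← hy']; exact (hq i _ _).2 (hu i a)⟩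
  · exact hker u j fun i a => (Submodule.Quotient.mk_eq_zero _).1 (h i a)
  · obtain ⟨l, rfl⟩ := Submodule.Quotient.mk_surjective _ l
    obtain ⟨T, h1, h2, h3⟩ := hT i l
    refine ⟨T, h1, fun a u => ?_, fun i' hi a u => (Submodule.Quotient.mk_eq_zero _).2 (h3 i' hi a u)⟩
    change Submodule.Quotient.mk _ = om i l (π i a u) • Submodule.Quotient.mk l
    rw [← Submodule.Quotient.mk_smul, hq, h2, map_smul]

namespace Ctx

variable {L : Type} [NormedAddCommGroup L] [InnerProductSpace ℝ L] [FiniteDimensional ℝ L]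
  {K : Type} [Group K] [TopologicalSpace K] [IsTopologicalGroup K] [CompactSpace K]
  [ConnectedSpace K] (C : Ctx L K)

/-- index set of a spanning family of invariant inner products -/
abbrev QI (I : C.Ideals) :=
  Option (Fin I.N ⊕ (Fin (Module.finrank ℝ C.Z) × Fin (Module.finrank ℝ C.Z)))

/-- symmetric invariant operators -/
noncomputable def Q0 (I : C.Ideals) :
    Fin I.N ⊕ (Fin (Module.finrank ℝ C.Z) × Fin (Module.finrank ℝ C.Z)) → L →L[ℝ] L
  | .inl i => I.p i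
  | .inr p => (1 / 4 : ℝ) • ((innerSL ℝ (C.zb p.1)).smulRight (C.zb p.2) +
      (innerSL ℝ (C.zb p.2)).smulRight (C.zb p.1))

/-- positive symmetric invariant operators -/
noncomputable def Q (I : C.Ideals) : C.QI I → L →L[ℝ] L
  | none => 1
  | some q => 1 + C.Q0 I q

theorem Q0_Ad (I : C.Ideals) (q) (c : K) (y : L) : C.Q0 I q (C.Ad c y) = C.Ad c (C.Q0 I q y) := by
  rcases q with i | p
  · exact I.p_Ad i c y
  · simp [Q0, inner_Ad_right, (C.mem_Z_iff _).1 (C.zb_mem _)]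

theorem Q0_symm (I : C.Ideals) (q) (y z : L) : ⟪C.Q0 I q y, z⟫ = ⟪y, C.Q0 I q z⟫ := by
  rcases q with i | p
  · exact I.p_symm i y z
  · simp only [Q0, ContinuousLinearMap.smul_apply, ContinuousLinearMap.add_apply,
      ContinuousLinearMap.smulRight_apply, innerSL_apply_apply, real_inner_smul_left,
      real_inner_smul_right, inner_add_left, inner_add_right, real_inner_comm (C.zb _) y]
    ring

theorem Q_Ad (I : C.Ideals) (q) (c : K) (y : L) : C.Q I q (C.Ad c y) = C.Ad c (C.Q I q y) := by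
  rcases q with _ | q
  · rfl
  · simp [Q, Q0_Ad]

theorem Q_symm (I : C.Ideals) (q) (y z : L) : ⟪C.Q I q y, z⟫ = ⟪y, C.Q I q z⟫ := by
  rcases q with _ | q
  · rfl
  · simp [Q, Q0_symm, inner_add_left, inner_add_right]

theorem Q_pos (I : C.Ideals) (q) {y : L} (hy : y ≠ 0) : 0 < ⟪C.Q I q y, y⟫ := by
  have h0 : 0 < ⟪y, y⟫ := real_inner_self_pos.2 hy
  rcases q with _ | i | p
  · exact h0
  · have : ⟪I.p i y, y⟫ = ⟪I.p i y, I.p i y⟫ := by rw [← I.p_symm, I.p_idem]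
    simp only [Q, Q0, ContinuousLinearMap.add_apply, ContinuousLinearMap.one_apply, inner_add_left,
      this]
    have := real_inner_self_nonneg (x := I.p i y)
    linarith
  · have h1 : ∀ a, ⟪C.zb a, y⟫ ^ 2 ≤ ⟪y, y⟫ := fun a => by
      have := real_inner_mul_inner_self_le (C.zb a) y
      rw [inner_zb, if_pos rfl, one_mul] at this
      nlinarith
    simp only [Q, Q0, ContinuousLinearMap.smul_apply, ContinuousLinearMap.add_apply,
      ContinuousLinearMap.smulRight_apply, innerSL_apply_apply, real_inner_smul_left,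
      ContinuousLinearMap.one_apply, inner_add_left]
    nlinarith [h1 p.1, h1 p.2, sq_nonneg (⟪C.zb p.1, y⟫ + ⟪C.zb p.2, y⟫)]

/-- the forms `ω_B` of the family -/
noncomputable def omQ (I : C.Ideals) (x : Gen g → K) (q : C.QI I) (u v : Gen g → L) : ℝ :=
  C.om x (fun s => C.Q I q (u s)) v

variable {C}

theorem point_final {I : C.Ideals} {x : Gen g → K} {α : C.Z1 x [⋀^Fin k]→ₗ[ℝ] ℝ}
    (hor : ∀ (u : Fin k → C.Z1 x) j, u j ∈ C.B1 x → α u = 0)
    (hrad : ∀ v, (∀ u, C.omZ x v u = 0) → v ∈ C.B1 x)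
    (hs : ∀ i h, C.pZ I x i h = h → spX (C.omZ x) h h ∈ stab α)
    (hc : ∀ l, C.Lam x (spX omV l l) ∈ stab α) :
    (α : (Fin k → C.Z1 x) → ℝ) ∈ Submodule.span ℝ
      {w | ∃ (m : ℕ) (e : Fin m × Bool ≃ Fin k) (c : Fin m → C.QI I),
        w = wedge e fun j (u v : C.Z1 x) => C.omQ I x (c j) u v} := by
  let A : Option (Fin I.N) → Type := fun o => Fin (o.elim (Module.finrank ℝ C.Z) fun _ => 1)
  let om : Option (Fin I.N) → ((Gen g → ℝ) × C.Z1 x) →ₗ[ℝ] ((Gen g → ℝ) × C.Z1 x) →ₗ[ℝ] ℝ :=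
    fun o => o.elim (omV.compl₁₂ (LinearMap.fst _ _ _) (LinearMap.fst _ _ _)) fun i =>
      (C.omZ x).compl₁₂ (C.pZ I x i ∘ₗ LinearMap.snd _ _ _) (LinearMap.snd _ _ _)
  have om0 : ∀ v w, om none v w = omV v.1 w.1 := fun _ _ => rfl
  have om1 : ∀ i v w, om (some i) v w = C.omZ x (C.pZ I x i v.2) w.2 := fun _ _ _ => rfl
  let π : ∀ o, A o → C.Z1 x →ₗ[ℝ] ((Gen g → ℝ) × C.Z1 x) := fun o =>
    match o with
    | none => fun a => LinearMap.inl _ _ _ ∘ₗ C.piZ x a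
    | some _ => fun _ => LinearMap.inr _ _ _
  have π0 : ∀ a u, π none a u = (C.piZ x a u, 0) := fun _ _ => rfl
  have π1 : ∀ i a u, π (some i) a u = (0, u) := fun _ _ _ => rfl
  have pp : ∀ i u, C.pZ I x i (C.pZ I x i u) = C.pZ I x i u := fun i u =>
    Subtype.ext (funext fun s => I.p_idem i _)
  have pp' : ∀ i i', i ≠ i' → ∀ u, C.pZ I x i (C.pZ I x i' u) = 0 := fun i i' h u =>
    Subtype.ext (funext fun s => I.p_orth i i' h _)
  have hnd : ∀ l : Gen g → ℝ, (∀ w, omV l w = 0) → l = 0 := fun l hl => by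
    funext ⟨i, s⟩
    cases s
    · have := hl (Pi.single (i, true) 1)
      rw [omV_skew, omV_single_b] at this; simpa using this
    · have := hl (Pi.single (i, false) 1)
      rw [omV_skew, omV_single_a] at this; simpa using this
  refine Submodule.span_le.2 ?_ (fft' A om ?_ π (fun y => ?_) α (fun u j h => ?_) ?_)
  · rintro _ ⟨m, e, c, rfl⟩
    refine Submodule.span_mono ?_ (wedge_mem_span e
      (fun q (u v : C.Z1 x) => C.omQ I x q u v) _ fun j => ?_)
    · rintro _ ⟨c, rfl⟩; exact ⟨m, e, c, rfl⟩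
    have hq : ∀ q (u v : C.Z1 x), C.omQ I x (some q) u v - C.omQ I x none u v =
        C.om x (fun s => C.Q0 I q (u.1 s)) v := fun q u v => by
      rw [omQ, omQ, ← LinearMap.sub_apply, ← map_sub]
      congr 2
      funext s; simp [Q]
    generalize c j = p
    obtain ⟨_ | i, a, b⟩ := p
    · have hm := Submodule.smul_mem _ (4 : ℝ) (Submodule.sub_mem _
        (Submodule.subset_span (R := ℝ) (Set.mem_range_self
          (f := fun q (u v : C.Z1 x) => C.omQ I x q u v) (some (.inr (a, b)))))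
        (Submodule.subset_span (Set.mem_range_self none)))
      convert hm using 1
      funext u v
      have e1 : (fun s => C.Q0 I (.inr (a, b)) (u.1 s)) = (((1 / 4 : ℝ) • (C.ioZ x b (C.piZ x a u) +
        C.ioZ x a (C.piZ x b u)) : C.Z1 x) : Gen g → L) := rfl
      simp only [Pi.smul_apply, Pi.sub_apply, hq, om0, π0, e1, ← omZ_apply, map_smul, map_add,
        LinearMap.smul_apply, LinearMap.add_apply, omZ_ioZ, smul_eq_mul]
      ring
    · have hm := Submodule.smul_mem _ (2 : ℝ) (Submodule.sub_mem _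
        (Submodule.subset_span (R := ℝ) (Set.mem_range_self
          (f := fun q (u v : C.Z1 x) => C.omQ I x q u v) (some (.inl i))))
        (Submodule.subset_span (Set.mem_range_self none)))
      convert hm using 1
      funext u v
      have e1 : (fun s => C.Q0 I (.inl i) (u.1 s)) = (C.pZ I x i u : Gen g → L) := rfl
      simp only [Pi.smul_apply, Pi.sub_apply, hq, om1, π1, e1, ← omZ_apply, smul_eq_mul]
      ring
  · rintro (_ | i) v w
    · exact omV_skew _ _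
    · rw [om1, om1, omZ_skew, omZ_pZ]
  · refine ⟨∑ i, C.pZ I x i (y (some i) (0 : Fin 1)).2 + ∑ a, C.ioZ x a (y none a).1, ?_⟩
    rintro (_ | i) a
    · refine LinearMap.ext fun w => ?_
      rw [om0, om0, π0]
      simp [piZ_pZ, piZ_ioZ]
    · refine LinearMap.ext fun w => ?_
      rw [om1 i, om1 i, π1 i a, Subsingleton.elim (α := Fin 1) a 0]
      congr 2
      simp only [map_add, map_sum, pZ_ioZ, Finset.sum_const_zero, add_zero]
      exact (Finset.sum_eq_single i (fun b _ hb => pp' _ _ hb.symm _) (by simp)).trans (pp _ _)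
  · refine hor u j ?_
    rw [C.decompZ I x (u j)]
    refine Submodule.add_mem _ (Submodule.sum_mem _ fun i _ => hrad _ fun w => ?_)
      (Submodule.sum_mem _ fun a _ => ?_)
    · exact DFunLike.congr_fun (h (some i) (0 : Fin 1)) (0, w)
    · rw [hnd (C.piZ x a (u j)) fun w => DFunLike.congr_fun (h none a) (w, 0), map_zero]
      exact Submodule.zero_mem _
  · rintro (_ | i) l
    · refine ⟨_, (stab α).smul_mem (1 / 2 : ℝ) (hc l.1), fun a u => LinearMap.ext fun w => ?_, ?_⟩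
      · simp only [om0, π0, LinearMap.smul_apply, map_smul, piZ_Lam, spX_apply, map_add,
          LinearMap.add_apply, smul_eq_mul]
        ring
      · rintro (_ | i') hi a u
        · exact absurd rfl hi
        · refine LinearMap.ext fun w => ?_
          simp [om1, π1, Lam_apply, pZ_ioZ]
    · refine ⟨_, (stab α).smul_mem (1 / 2 : ℝ) (hs i _ (pp i l.2)),
        fun a u => LinearMap.ext fun w => ?_, ?_⟩
      · simp only [om1, π1, LinearMap.smul_apply, map_smul, spX_apply, map_add,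
          LinearMap.add_apply, smul_eq_mul, pp]
        ring
      · rintro (_ | i') hi a u
        · refine LinearMap.ext fun w => ?_
          simp [om0, π0, spX_apply, piZ_pZ]
        · refine LinearMap.ext fun w => ?_
          simp [om1, π1, spX_apply, pp' i' i fun h => hi (by rw [h])]

end Ctx

end Pool.Agent.Lib.MP_d52947_gt
end

-- part Pool.Agent.Lib.MP_d52947_gt.High
section

/-! The theorem in genus at least two, abstract form. -/

namespace Pool.Agent.Lib.MP_d52947_gt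

open Filter Topology Module MeasureTheory
open scoped RealInnerProductSpace

namespace Ctx

variable {L : Type} [NormedAddCommGroup L] [InnerProductSpace ℝ L] [FiniteDimensional ℝ L]
  {K : Type} [Group K] [TopologicalSpace K] [IsTopologicalGroup K] [CompactSpace K]
  [ConnectedSpace K] (C : Ctx L K) {g k : ℕ}

theorem cv_pow {G : Type} {x : G → K} {u : G → L} {e : FreeGroup G}
    (h : C.cv x e u ∈ C.Fix (val x e)) (n : ℕ) : C.cv x (e ^ n) u = (n : ℝ) • C.cv x e u := by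
  induction n with
  | zero => simp
  | succ n ih =>
    rw [pow_succ', cv_mul, ih, map_smul, C.mem_Fix.1 h, Nat.cast_succ, add_smul, one_smul, add_comm]

/-- restriction of a form to cocycles -/
noncomputable def res (x : Gen g → K) (β : (Gen g → L) [⋀^Fin k]→ₗ[ℝ] ℝ) :
    C.Z1 x [⋀^Fin k]→ₗ[ℝ] ℝ := β.compLinearMap (C.Z1 x).subtype

theorem res_apply (x : Gen g → K) (β : (Gen g → L) [⋀^Fin k]→ₗ[ℝ] ℝ) (u : Fin k → C.Z1 x) :
    C.res x β u = β fun j => u j := rfl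

/-- horizontality -/
def Hor (F : (Gen g → K) → (Gen g → L) [⋀^Fin k]→ₗ[ℝ] ℝ) (x : Gen g → K) : Prop :=
  ∀ (u : Fin k → C.Z1 x) j, u j ∈ C.B1 x → C.res x (F x) u = 0

/-- invariance at a point -/
def Inv (F : (Gen g → K) → (Gen g → L) [⋀^Fin k]→ₗ[ℝ] ℝ) (φ : AutR g) (x : Gen g → K) : Prop :=
  ∀ u : Fin k → C.Z1 x,
    C.res _ (F (act φ.1.toMonoidHom x)) (fun j => C.pbZ φ x (u j)) = C.res x (F x) u

/-- the conclusion at a point -/
def Concl (I : C.Ideals) (x : Gen g → K) (β : (Gen g → L) [⋀^Fin k]→ₗ[ℝ] ℝ) : Prop :=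
  (C.res x β : (Fin k → C.Z1 x) → ℝ) ∈ Submodule.span ℝ
    {w | ∃ (m : ℕ) (e : Fin m × Bool ≃ Fin k) (c : Fin m → C.QI I),
      w = wedge e fun j (u v : C.Z1 x) => C.omQ I x (c j) u v}

variable {C}

theorem tw_of_rec {F : (Gen (g + 1) → K) → (Gen (g + 1) → L) [⋀^Fin k]→ₗ[ℝ] ℝ}
    {x : Gen (g + 1) → K} (hx : val x (relator _) = 1) (hor : C.Hor F x)
    (hi : ∀ n : ℕ, C.Inv F (tau ^ n) x)
    (hb : ∀ v, ∃ M : ℝ, ∃ᶠ n : ℕ in atTop, |F (act (tau ^ n : AutR (g + 1)).1.toMonoidHom x) v| ≤ M) :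
    C.twZ x ∘ₗ C.dI x (ga 0) ∈ stab (C.res x (F x)) := by
  intro u
  choose η hη using fun j => C.exists_sub_Ad (k := x (0, false))
    (y := (u j).1 (0, false) - C.pj (x (0, false)) ((u j).1 (0, false))) (by simp [pj_pj])
  let v : Fin k → C.Z1 x := fun j => u j - ⟨C.del x (η j), C.del_mem_Z1 hx _⟩
  have hv : ∀ j, (v j).1 (0, false) = C.pj (x (0, false)) ((u j).1 (0, false)) := fun j => by
    simp only [v, Submodule.coe_sub, Pi.sub_apply, del_apply, ← hη, sub_sub_cancel]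
  let w : Fin k → C.Z1 x := fun j => -C.twZ x (C.dI x (ga 0) (u j))
  have hw : ∀ j, (w j).1 = -C.twv x ((v j).1 (0, false)) := fun j => by
    simp [w, twZ_coe, dI_apply, hv, pj_pj]
  obtain ⟨M, hM⟩ := hb fun j => v j
  have h1 := lin_eq_zero_of_bdd (C.res x (F x)) v w (M := M) (hM.mono fun n hn => by
    rw [← hi n, res_apply]
    convert hn using 4 with j
    funext p
    rw [pbZ_coe, pb_apply, Submodule.coe_add, Submodule.coe_smul, hw]
    refine gen_cases1 (P := fun p => C.cv x ((tau ^ n : AutR (g + 1)).1 (.of p)) _ = (v j).1 p)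
      ?_ ?_ (fun j s => ?_) p
    · rw [tau_pow_a]; simp [twv_a]
    · rw [tau_pow_b, cv_mul, C.cv_pow (by simpa [twv_a, hv] using C.pj_mem _ _)]
      simp [twv_a, twv_b]
    · rw [tau_pow_succ]; simp [twv_succ])
  rw [← neg_eq_zero, ← h1, ← Finset.sum_neg_distrib]
  refine Finset.sum_congr rfl fun j _ => ?_
  rw [← AlternatingMap.map_update_neg]
  refine eq_of_sub_mem hor fun i => ?_
  by_cases h : i = j
  · subst h; simp [w]
  · simp only [Function.update_of_ne h, v, sub_sub_cancel]; exact ⟨_, rfl⟩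

theorem pairData {I : C.Ideals} {F : (Gen (g + 1) → K) → (Gen (g + 1) → L) [⋀^Fin k]→ₗ[ℝ] ℝ}
    {x y : Gen (g + 1) → K} {φ : AutR (g + 1)} (hy : y = act φ.1.toMonoidHom x) (hi : C.Inv F φ x)
    (hg : C.GoodPair I (y (0, false)) (y (0, true)))
    (ht : C.twZ y ∘ₗ C.dI y (ga 0) ∈ stab (C.res y (F y))) :
    C.PairData I x (C.res x (F x)) (φ.1 (ga 0)) (φ.1 (gb 0)) := by
  subst hy
  have h1 : ∀ e ξ, C.dI x (φ.1 e) ((C.pbZ φ x).symm ξ) = C.dI _ e ξ := fun e ξ => by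
    rw [← dI_pbZ, LinearEquiv.apply_symm_apply]
  refine ⟨hg, (C.pbZ φ x).symm.toLinearMap ∘ₗ C.twZ _, ⟨fun ξ v => ?_, ?_⟩, fun ξ => ?_,
    fun n ξ => ?_⟩
  · rw [← C.omZ_pbZ φ, ← dI_pbZ, ← omZ_twZ]
    exact congrArg (C.omZ _ · _) ((C.pbZ φ x).apply_symm_apply _)
  · exact Kills.conj (C.pbZ φ x).toLinearMap hi (fun u => ((C.pbZ φ x).apply_symm_apply _).trans
      (congrArg (C.twZ _) (C.dI_pbZ φ x _ u).symm)) ht
  · exact (h1 _ _).trans (C.dI_twZ_a _ ξ)
  · rw [← map_pow, ← map_mul]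
    refine (h1 _ _).trans ?_
    have h2 : ∀ n : ℕ, C.Ad (act φ.1.toMonoidHom x (0, false) ^ n) (C.pj (act φ.1.toMonoidHom x (0, false)) ξ)
        = C.pj (act φ.1.toMonoidHom x (0, false)) ξ := fun n => by
      induction n with
      | zero => simp
      | succ n ih => rw [pow_succ, Ad_mul_apply, C.mem_Fix.1 (C.pj_mem _ _), ih]
    rw [dI_apply, twZ_coe, cv_mul, C.cv_pow (by simp [twv_a]), cv_of, cv_of, twv_a, twv_b, smul_zero,
      map_zero, add_zero, ← h2 n, ← Ad_mul_apply]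
    have e : act φ.1.toMonoidHom x (0, true) * act φ.1.toMonoidHom x (0, false) ^ n =
        val (act φ.1.toMonoidHom x) (gb 0 * ga 0 ^ n) := by simp
    rw [e, pj_Ad, val_act]
    rfl

end Ctx

namespace Amb

variable {L : Type} [NormedAddCommGroup L] [InnerProductSpace ℝ L] [FiniteDimensional ℝ L]
  {K : Type} [Group K] [TopologicalSpace K] [IsTopologicalGroup K] [CompactSpace K]
  [ConnectedSpace K] {A : Type} [NormedRing A] [NormedAlgebra ℝ A] [FiniteDimensional ℝ A]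
  [CompleteSpace A] [MeasurableSpace A] [BorelSpace A] (C : Amb L K A) {g k : ℕ}

/-- almost everywhere on the irreducible locus -/
def Ae (P : (Gen g → K) → Prop) : Prop := C.Nul (C.d0 g) {x | x ∈ C.Rirr g ∧ ¬ P x}

variable {C}

theorem Ae.mono {P Q : (Gen g → K) → Prop} (h : C.Ae P) (h' : ∀ x ∈ C.Rirr g, P x → Q x) :
    C.Ae Q := Nul.mono h fun x hx => ⟨hx.1, fun hp => hx.2 (h' x hx.1 hp)⟩

theorem Ae.and {P Q : (Gen g → K) → Prop} (h : C.Ae P) (h' : C.Ae Q) :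
    C.Ae fun x => P x ∧ Q x :=
  (Nul.union h h').mono fun _ hx => (not_and_or.1 hx.2).imp (⟨hx.1, ·⟩) (⟨hx.1, ·⟩)

theorem Ae.all {ι : Type} [Countable ι] {P : ι → (Gen g → K) → Prop} (h : ∀ i, C.Ae (P i)) :
    C.Ae fun x => ∀ i, P i x :=
  (Nul.iUnion h).mono fun _ hx => by
    obtain ⟨i, hi⟩ := not_forall.1 hx.2
    exact Set.mem_iUnion.2 ⟨i, hx.1, hi⟩

theorem Ae.act {P : (Gen g → K) → Prop} (h : C.Ae P) :
    C.Ae fun x => ∀ φ : AutR g, P (Ctx.act φ.1.toMonoidHom x) :=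
  Ae.all fun φ => (Nul.act h (φ⁻¹).1.toMonoidHom).mono fun x hx =>
    ⟨_, ⟨C.act_mem_Rirr φ hx.1, hx.2⟩, Ctx.act_act φ x⟩

theorem Ae.of_imp {P Q : (Gen g → K) → Prop} (h : C.Ae P)
    (h' : C.Nul (C.d0 g) {x | x ∈ C.Rirr g ∧ P x ∧ ¬ Q x}) : C.Ae Q :=
  (Nul.union h h').mono fun x hx => (em (P x)).symm.imp (⟨hx.1, ·⟩) (⟨hx.1, ·, hx.2⟩)

theorem ae_irr (C : Amb L K A) (j : Fin (g + 2)) : C.Ae fun x => C.cen x [j] ≤ C.Z := by
  have h : C.Ae fun x : Gen (g + 2) → K => C.cen x [0] ≤ C.Z :=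
    (C.irr_null _).mono fun x hx => ⟨hx.1.1, C.finrank_Z1_irr hx.1, hx.2⟩
  obtain ⟨φ, c, hφ⟩ := exists_rot j
  refine h.act.mono fun x _ hx θ hθ => ?_
  have h1 : C.Ad (Ctx.val x c) θ ∈ C.Z := hx φ fun i hi s => by
    rw [List.mem_singleton.1 hi, Ctx.act, MulEquiv.coe_toMonoidHom, hφ]
    simp [hθ j (by simp) s]
  rw [← C.Ad_inv_Ad (Ctx.val x c) θ, (C.mem_Z_iff _).1 h1]; exact h1

variable [MeasurableSpace L] [BorelSpace L]

theorem ae_generic (C : Amb L K A) (j : Fin (g + 2)) {m : ℕ} {s : Fin m → Gen (g + 2)}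
    (hs : Function.Injective s) (hsj : ∀ t, (s t).1 ≠ j) {P : (Fin m → K) → Prop}
    (hP : C.Generic P) : C.Ae fun x => P (x ∘ s) :=
  (C.ae_irr j).of_imp (C.pull_null hs hsj hP)

theorem ae_pair (C : Amb L K A) {P : K → K → Prop} (hP : C.Generic fun h : Fin 2 → K => P (h 0) (h 1)) :
    C.Ae fun x : Gen (g + 2) → K => P (x (0, false)) (x (0, true)) :=
  C.ae_generic 1 (s := ![(0, false), (0, true)]) (by
    intro a b; fin_cases a <;> fin_cases b <;> simp) (by intro a; fin_cases a <;> simp) hP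

theorem ae_cob (C : Amb L K A) (I : C.Ideals) : C.Ae fun x : Gen (g + 2) → K =>
    ∀ S, Closed S → ∀ v, (∀ φ, S φ → C.dI x (φ.1 (ga 0)) v = 0) → v ∈ C.B1 x := by
  have h1 := (C.ae_pair (g := g) (C.generic_pair I)).act
  rcases g with _ | g
  · obtain ⟨Pf, h2, h3⟩ := C.generic_two
    refine (h1.and (C.ae_pair h2).act).mono fun x hx h S hS v hv => ?_
    exact Ctx.cob_of_step hS h.1 hv fun φ hφ ζ => Ctx.step2 hx.1 hS h.1 h3 h.2 hv hφ
  · have h2 := (C.ae_generic (g := g + 1) 2 (s := ![(0, false), (0, true), (1, false)]) (by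
      intro a b; fin_cases a <;> fin_cases b <;> simp) (by
      intro a; fin_cases a <;> simp [Fin.ext_iff, Nat.mod_eq_of_lt]) C.generic_triple).act
    refine (h1.and (h2.and (C.ae_irr 0).act)).mono fun x hx h S hS v hv => ?_
    refine Ctx.cob_of_step hS h.1 hv fun φ hφ ζ => Ctx.step3 hS h.1 h.2.1 (fun φ η ha hb => ?_) hv hφ
    refine h.2.2 φ fun i hi s => ?_
    rw [List.mem_singleton.1 hi]
    cases s
    exacts [C.mem_Fix.1 ha, C.mem_Fix.1 hb]

theorem ae_high (C : Amb L K A) (I : C.Ideals)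
    (F : (Gen (g + 2) → A) → (Gen (g + 2) → L) [⋀^Fin k]→ₗ[ℝ] ℝ) (hF : ∀ v, Measurable (F · v))
    (hor : ∀ x ∈ C.Rirr (g + 2), C.Hor (F ∘ C.emb) x) : C.Ae fun x =>
      (∀ φ ψ : AutR (g + 2), C.Inv (F ∘ C.emb) ψ (Ctx.act φ.1.toMonoidHom x)) →
        C.Concl I x (F (C.emb x)) := by
  obtain ⟨h, hm, hb⟩ := exists_bound F hF
  have h1 := C.ae_pair (g := g) (C.generic_pair I)
  have h2 : C.Ae fun x : Gen (g + 2) → K => ∃ M : ℕ, ∃ᶠ m : ℕ in atTop,
      h (C.emb (Ctx.act (tau ^ m : AutR (g + 2)).1.toMonoidHom x)) ≤ M :=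
    ((C.ae_irr 1).and h1).of_imp ((C.rec_null h hm).mono fun x hx =>
      ⟨⟨hx.1.1, hx.2.1.1, hx.2.1.2.reg⟩, hx.2.2⟩)
  refine ((h1.and h2).act.and (C.ae_cob I)).mono fun x hx h hi => ?_
  have hP : ∀ φ : AutR (g + 2), C.PairData I x (C.res x (F (C.emb x))) (φ.1 (ga 0)) (φ.1 (gb 0)) :=
    fun φ => by
      have hy := C.act_mem_Rirr φ hx
      refine Ctx.pairData (F := F ∘ C.emb) rfl ?_ (h.1 φ).1
        (Ctx.tw_of_rec hy.1 (hor _ hy) (fun n => hi φ _) fun v => ?_)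
      · have e : Ctx.act (1 : AutR (g + 2)).1.toMonoidHom x = x := funext fun i => by simp [Ctx.act]
        have := hi 1 φ
        rwa [e] at this
      · obtain ⟨c, hc, h3⟩ := hb v
        obtain ⟨M, hM⟩ := (h.1 φ).2
        exact ⟨c * M, hM.mono fun n hn => (h3 _).trans (mul_le_mul_of_nonneg_left hn hc)⟩
  obtain ⟨h3, h4⟩ := Ctx.simple_block (hor x hx) h.2 hP
  exact Ctx.point_final (hor x hx) h3 h4 (Ctx.centre_block (hor x hx) h3 h4 hP)

end Amb

end Pool.Agent.Lib.MP_d52947_gt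
end
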